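import Pool.Agent.Lib.MP_eab41b_pr.B.Defs

/-! Basic facts about rows, cells and windows. -/

set_option autoImplicit false

set_option linter.unusedSectionVars false

open scoped Classical

namespace CAB

variable {α : Type}

/-! ### rotations -/

theorem rot_apply (σ : ℕ) (j : ZMod σ) (z : ZMod σ → α) (i : ZMod σ) : rot σ j z i = z (i + j) := rfl

theorem rot_zero (σ : ℕ) (z : ZMod σ → α) : rot σ 0 z = z := by
  funext i
  simp [rot]

theorem rot_rot (σ : ℕ) (j j' : ZMod σ) (z : ZMod σ → α) :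
    rot σ j (rot σ j' z) = rot σ (j + j') z := by
  funext i
  simp [rot, add_assoc]

theorem rot_eq_iff {σ : ℕ} {j : ZMod σ} {z z' : ZMod σ → α} : rot σ j z = z' ↔ z = rot σ (-j) z' := by
  constructor
  · rintro rfl
    rw [rot_rot, neg_add_cancel, rot_zero]
  · rintro rfl
    rw [rot_rot, add_neg_cancel, rot_zero]

theorem Eqv.refl (σ : ℕ) (z : ZMod σ → α) : Eqv σ z z := ⟨0, (rot_zero σ z).symm⟩

theorem Eqv.symm {σ : ℕ} {z z' : ZMod σ → α} (h : Eqv σ z z') : Eqv σ z' z := by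
  obtain ⟨j, hj⟩ := h
  exact ⟨-j, rot_eq_iff.1 hj.symm⟩

theorem Eqv.trans {σ : ℕ} {z z' z'' : ZMod σ → α} (h : Eqv σ z z') (h' : Eqv σ z' z'') :
    Eqv σ z z'' := by
  obtain ⟨j, rfl⟩ := h
  obtain ⟨j', rfl⟩ := h'
  exact ⟨j + j', rot_rot σ j j' z''⟩

theorem eqv_rot (σ : ℕ) (j : ZMod σ) (z : ZMod σ → α) : Eqv σ (rot σ j z) z := ⟨j, rfl⟩

theorem Aper.rot {σ : ℕ} {z : ZMod σ → α} (h : Aper σ z) (j : ZMod σ) : Aper σ (rot σ j z) := by
  intro i hi
  apply h i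
  rw [rot_rot, add_comm, ← rot_rot] at hi
  have := congrArg (CAB.rot σ (-j)) hi
  rwa [rot_rot σ (-j) j, rot_rot σ (-j) j, neg_add_cancel, rot_zero, rot_zero] at this

theorem Eqv.aper {σ : ℕ} {z z' : ZMod σ → α} (h : Eqv σ z z') (hz : Aper σ z') : Aper σ z := by
  obtain ⟨j, rfl⟩ := h
  exact hz.rot j

theorem Eqv.aper_iff {σ : ℕ} {z z' : ZMod σ → α} (h : Eqv σ z z') : Aper σ z ↔ Aper σ z' :=
  ⟨fun h' => h.symm.aper h', fun h' => h.aper h'⟩

theorem Aper.rot_inj {σ : ℕ} {z : ZMod σ → α} (h : Aper σ z) {j j' : ZMod σ}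
    (hj : CAB.rot σ j z = CAB.rot σ j' z) : j = j' := by
  have h1 : CAB.rot σ (j - j') z = z := by
    have := congrArg (CAB.rot σ (-j')) hj
    rwa [rot_rot, rot_rot, neg_add_cancel, rot_zero, neg_add_eq_sub] at this
  exact sub_eq_zero.1 (h _ h1)

theorem win_rot (r σ : ℕ) (j : ZMod σ) (z : ZMod σ → α) (i : ZMod σ) :
    win r σ (rot σ j z) i = win r σ z (i + j) := by
  funext k
  simp only [win, rot]
  congr 1
  ring

theorem Fm_rot (r σ : ℕ) (g : (Fin r → α) → α) (j : ZMod σ) (z : ZMod σ → α) :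
    Fm r σ g (rot σ j z) = rot σ j (Fm r σ g z) := by
  funext i
  simp only [Fm, rot, win_rot]

theorem Fm_iter_rot (r σ : ℕ) (g : (Fin r → α) → α) (j : ZMod σ) (z : ZMod σ → α) (k : ℕ) :
    (Fm r σ g)^[k] (rot σ j z) = rot σ j ((Fm r σ g)^[k] z) := by
  induction k with
  | zero => rfl
  | succ k ih => rw [Function.iterate_succ_apply', Function.iterate_succ_apply', ih, Fm_rot]

theorem Eqv.Fm {r σ : ℕ} {z z' : ZMod σ → α} (h : Eqv σ z z') (g : (Fin r → α) → α) :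
    Eqv σ (Fm r σ g z) (Fm r σ g z') := by
  obtain ⟨j, rfl⟩ := h
  exact ⟨j, Fm_rot r σ g j z'⟩

theorem Eqv.Fm_iter {r σ : ℕ} {z z' : ZMod σ → α} (h : Eqv σ z z') (g : (Fin r → α) → α) (k : ℕ) :
    Eqv σ ((CAB.Fm r σ g)^[k] z) ((CAB.Fm r σ g)^[k] z') := by
  obtain ⟨j, rfl⟩ := h
  exact ⟨j, Fm_iter_rot r σ g j z' k⟩

theorem aper_of_Fm {r σ : ℕ} {g : (Fin r → α) → α} {z : ZMod σ → α} (h : Aper σ (Fm r σ g z)) :
    Aper σ z := by
  intro j hj
  apply h j
  rw [← Fm_rot, hj]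

theorem aper_of_Fm_iter {r σ : ℕ} {g : (Fin r → α) → α} {z : ZMod σ → α} {k : ℕ}
    (h : Aper σ ((Fm r σ g)^[k] z)) : Aper σ z := by
  intro j hj
  apply h j
  rw [← Fm_iter_rot, hj]

/-! ### cells -/

section cells

variable {σ : ℕ} [NeZero σ]

theorem sig_pos : 0 < σ := Nat.pos_of_ne_zero (NeZero.ne σ)

theorem cell_div (m : ℕ) (i : ZMod σ) : (m * σ + i.val) / σ = m := by
  rw [add_comm, Nat.add_mul_div_right _ _ sig_pos, Nat.div_eq_of_lt (ZMod.val_lt i), zero_add]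

theorem cell_cast (m : ℕ) (i : ZMod σ) : ((m * σ + i.val : ℕ) : ZMod σ) = i := by
  simp

theorem val_cast (c : ℕ) : (c : ZMod σ).val = c % σ := ZMod.val_natCast σ c

theorem cell_eq (c : ℕ) : c / σ * σ + (c : ZMod σ).val = c := by
  rw [val_cast]
  exact Nat.div_add_mod' c σ

theorem cell_ext {c c' : ℕ} (h : c / σ = c' / σ) (h' : (c : ZMod σ) = (c' : ZMod σ)) : c = c' := by
  rw [← cell_eq (σ := σ) c, ← cell_eq (σ := σ) c', h, h']

theorem mem_rowCells {m c : ℕ} : c ∈ rowCells σ m ↔ c / σ = m := by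
  unfold rowCells
  rw [Finset.mem_Ico, Nat.div_eq_iff (sig_pos (σ := σ))]
  constructor
  · rintro ⟨h1, h2⟩
    have : (m + 1) * σ = m * σ + σ := by ring
    omega
  · rintro ⟨h1, h2⟩
    have : (m + 1) * σ = m * σ + σ := by ring
    have := sig_pos (σ := σ)
    omega

theorem cell_mem (m : ℕ) (i : ZMod σ) : m * σ + i.val ∈ rowCells σ m :=
  mem_rowCells.2 (cell_div m i)

theorem mem_cellsOf {D : Finset ℕ} {c : ℕ} : c ∈ cellsOf σ D ↔ c / σ ∈ D := by
  unfold cellsOf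
  rw [Finset.mem_biUnion]
  constructor
  · rintro ⟨m, hm, hc⟩
    rw [mem_rowCells] at hc
    rwa [hc]
  · intro h
    exact ⟨_, h, mem_rowCells.2 rfl⟩

theorem card_rowCells (m : ℕ) : (rowCells σ m).card = σ := by
  unfold rowCells
  rw [Nat.card_Ico, add_mul, one_mul, Nat.add_sub_cancel_left]

theorem card_cellsOf (D : Finset ℕ) : (cellsOf σ D).card = D.card * σ := by
  unfold cellsOf
  rw [Finset.card_biUnion]
  · simp [card_rowCells]
  · intro a _ b _ hab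
    refine Finset.disjoint_left.2 fun c hc hc' => ?_
    rw [mem_rowCells] at hc hc'
    exact hab (hc.symm.trans hc')

theorem cellsOf_mono {D D' : Finset ℕ} (h : D ⊆ D') : cellsOf σ D ⊆ cellsOf σ D' := by
  intro c hc
  rw [mem_cellsOf] at hc ⊢
  exact h hc

theorem lt_row_iff {c m : ℕ} : c < m * σ ↔ c / σ < m := by
  rw [Nat.div_lt_iff_lt_mul (sig_pos (σ := σ))]

theorem row_pos {c : ℕ} (h : σ ≤ c) : 1 ≤ c / σ := by
  rw [Nat.one_le_div_iff (sig_pos (σ := σ))]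
  exact h

theorem xrow_cast (x : ℕ → α) (c : ℕ) : xrow σ x (c / σ) (c : ZMod σ) = x c := by
  unfold xrow
  rw [cell_eq]

theorem xrow_eq_iff {x x' : ℕ → α} {m m' : ℕ} : xrow σ x m = xrow σ x' m' ↔
    ∀ i : ZMod σ, x (m * σ + i.val) = x' (m' * σ + i.val) :=
  ⟨fun h i => congrFun h i, fun h => funext h⟩

theorem par_div (k c : ℕ) : par σ k c / σ = c / σ - 1 := cell_div _ _

theorem par_cast (k c : ℕ) : ((par σ k c : ℕ) : ZMod σ) = (c : ZMod σ) - (k : ZMod σ) := cell_cast _ _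

theorem par_lt {k c : ℕ} (h : σ ≤ c) : par σ k c < c / σ * σ := by
  rw [lt_row_iff, par_div]
  have := row_pos h
  omega

theorem key_eq_win (r : ℕ) (x : ℕ → α) (c : ℕ) :
    key r σ x c = win r σ (xrow σ x (c / σ - 1)) (c : ZMod σ) := rfl

theorem key_cell (r : ℕ) (x : ℕ → α) (m : ℕ) (i : ZMod σ) :
    key r σ x ((m + 1) * σ + i.val) = win r σ (xrow σ x m) i := by
  rw [key_eq_win, cell_div, cell_cast, Nat.add_sub_cancel]

theorem hasKey_cell (x : ℕ → α) (m : ℕ) (i : ZMod σ) :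
    HasKey σ x ((m + 1) * σ + i.val) ↔ Used σ x m := by
  unfold HasKey
  rw [cell_div, Nat.add_sub_cancel]
  refine ⟨fun h => h.2, fun h => ⟨?_, h⟩⟩
  have : (m + 1) * σ = m * σ + σ := by ring
  omega

/-! ### locality -/

theorem xrow_congr {x x' : ℕ → α} {m M : ℕ} (h : ∀ c < M * σ, x c = x' c) (hm : m < M) :
    xrow σ x m = xrow σ x' m := by
  funext i
  unfold xrow
  apply h
  rw [lt_row_iff, cell_div]
  exact hm

theorem used_congr {x x' : ℕ → α} {m M : ℕ} (h : ∀ c < M * σ, x c = x' c) (hm : m < M) :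
    Used σ x m ↔ Used σ x' m := by
  unfold Used
  rw [xrow_congr h hm]
  refine and_congr_right fun _ => forall_congr' fun m' => forall_congr' fun hm' => ?_
  rw [xrow_congr h (hm'.trans hm)]

theorem hasKey_congr {x x' : ℕ → α} {c M : ℕ} (h : ∀ c < M * σ, x c = x' c) (hc : c / σ ≤ M) :
    HasKey σ x c ↔ HasKey σ x' c := by
  unfold HasKey
  refine and_congr_right fun h1 => ?_
  have := row_pos h1
  exact used_congr h (by omega)

theorem key_congr {r : ℕ} {x x' : ℕ → α} {c M : ℕ} (h : ∀ c < M * σ, x c = x' c) (hc : c / σ ≤ M)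
    (h1 : σ ≤ c) : key r σ x c = key r σ x' c := by
  funext k
  apply h
  rw [lt_row_iff, par_div]
  have := row_pos h1
  omega

end cells

/-! ### rows of `seqR` -/

section seqR

variable {σ n : ℕ} [NeZero n] [NeZero σ]

theorem seqR_cell {T : ℕ} (y : Fin T → Row σ n) {m : ℕ} (hm : m < T) (i : ZMod σ) :
    seqR σ n T y (m * σ + i.val) = y ⟨m, hm⟩ i := by
  unfold seqR
  have h : (m * σ + i.val) / σ < T := by rw [cell_div]; exact hm
  rw [dif_pos h, cell_cast]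
  have e : (⟨(m * σ + i.val) / σ, h⟩ : Fin T) = ⟨m, hm⟩ := Fin.ext (cell_div m i)
  rw [e]

theorem xrow_seqR {T : ℕ} (y : Fin T → Row σ n) {m : ℕ} (hm : m < T) :
    xrow σ (seqR σ n T y) m = y ⟨m, hm⟩ := funext fun i => seqR_cell y hm i

theorem updR_cell (m : ℕ) (y : ℕ → Fin n) (z : Row σ n) (i : ZMod σ) :
    updR σ n m y z (m * σ + i.val) = z i := by
  unfold updR
  rw [if_pos (cell_div m i), cell_cast]

theorem updR_of_ne {m : ℕ} (y : ℕ → Fin n) (z : Row σ n) {c : ℕ} (h : c / σ ≠ m) :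
    updR σ n m y z c = y c := if_neg h

theorem xrow_updR (m : ℕ) (y : ℕ → Fin n) (z : Row σ n) : xrow σ (updR σ n m y z) m = z :=
  funext fun i => updR_cell m y z i

theorem xrow_updR_of_ne {m m' : ℕ} (y : ℕ → Fin n) (z : Row σ n) (h : m' ≠ m) :
    xrow σ (updR σ n m y z) m' = xrow σ y m' := by
  funext i
  unfold xrow
  rw [updR_of_ne]
  rw [cell_div]
  exact h

theorem LocalTo.updR {β : Type} {M : ℕ} {G : (ℕ → Fin n) → β} (hG : LocalTo n M G) {m : ℕ}
    (hm : M ≤ m * σ) (y : ℕ → Fin n) (z : Row σ n) : G (updR σ n m y z) = G y := by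
  apply hG
  intro c hc
  apply updR_of_ne
  have : c / σ < m := lt_row_iff.1 (lt_of_lt_of_le hc hm)
  exact this.ne

theorem LocalTo.mono {β : Type} {M M' : ℕ} {G : (ℕ → Fin n) → β} (hG : LocalTo n M G)
    (h : M ≤ M') : LocalTo n M' G := fun y y' hy => hG y y' fun c hc => hy c (lt_of_lt_of_le hc h)

end seqR

end CAB
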