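import Pool.Agent.Lib.MP_eab41b_pr.B.A0

/-! Row A1: representatives.

Sketch: `rep c` for a cell with a key is the infimum of a nonempty set of naturals containing `c`
(`Nat.sInf_mem`, `Nat.sInf_le`). Locality: for `c` in row `≤ m` only the cells `≤ c` matter for the
infimum, and `HasKey`, `key` of cells of rows `≤ m` only depend on the rows `< m`
(`hasKey_congr`, `key_congr` of A0). -/

set_option autoImplicit false

set_option linter.unusedSectionVars false

open scoped Classical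

namespace CAB

variable {α : Type} {r σ : ℕ} [NeZero σ]

theorem rep_le (r : ℕ) (x : ℕ → α) (c : ℕ) : rep r σ x c ≤ c := by
  unfold rep
  split_ifs with h
  · exact Nat.sInf_le ⟨h, rfl⟩
  · exact le_rfl

theorem rep_of_not {x : ℕ → α} {c : ℕ} (h : ¬ HasKey σ x c) : rep r σ x c = c := by
  unfold rep
  rw [if_neg h]

theorem rep_hasKey {x : ℕ → α} {c : ℕ} (h : HasKey σ x c) :
    HasKey σ x (rep r σ x c) ∧ key r σ x (rep r σ x c) = key r σ x c := by
  have h1 : rep r σ x c ∈ {c' | HasKey σ x c' ∧ key r σ x c' = key r σ x c} := by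
    unfold rep
    rw [if_pos h]
    exact Nat.sInf_mem ⟨c, h, rfl⟩
  exact h1

theorem rep_rep (r : ℕ) (x : ℕ → α) (c : ℕ) : rep r σ x (rep r σ x c) = rep r σ x c := by
  by_cases h : HasKey σ x c
  · obtain ⟨h1, h2⟩ := rep_hasKey (r := r) h
    have h3 : rep r σ x (rep r σ x c) =
        sInf {c' | HasKey σ x c' ∧ key r σ x c' = key r σ x (rep r σ x c)} := by
      conv_lhs => unfold rep
      rw [if_pos]
      · rfl
      · exact h1
    rw [h3, h2]
    conv_rhs => unfold rep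
    rw [if_pos h]
  · rw [rep_of_not h, rep_of_not h]

theorem rep_eq_of_key {x : ℕ → α} {c c' : ℕ} (h : HasKey σ x c) (h' : HasKey σ x c')
    (hk : key r σ x c = key r σ x c') : rep r σ x c = rep r σ x c' := by
  unfold rep
  rw [if_pos h, if_pos h', hk]

theorem rep_eq_imp {x : ℕ → α} {c c' : ℕ} (h : rep r σ x c = rep r σ x c') (hne : c ≠ c') :
    HasKey σ x c ∧ HasKey σ x c' ∧ key r σ x c = key r σ x c' := by
  by_cases h1 : HasKey σ x c
  · by_cases h2 : HasKey σ x c'
    · exact ⟨h1, h2, by rw [← (rep_hasKey (r := r) h1).2, h, (rep_hasKey (r := r) h2).2]⟩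
    · rw [rep_of_not h2] at h
      exact absurd (h ▸ (rep_hasKey (r := r) h1).1) h2
  · by_cases h2 : HasKey σ x c'
    · rw [rep_of_not h1] at h
      exact absurd (h ▸ (rep_hasKey (r := r) h2).1) h1
    · rw [rep_of_not h1, rep_of_not h2] at h
      exact absurd h hne

theorem bad_imp {x : ℕ → α} {c : ℕ} (h : Bad r σ x c) :
    HasKey σ x c ∧ HasKey σ x (rep r σ x c) ∧ rep r σ x c < c ∧
      key r σ x (rep r σ x c) = key r σ x c ∧ σ ≤ rep r σ x c := by
  have h1 : HasKey σ x c := by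
    by_contra hc
    exact h (rep_of_not hc)
  obtain ⟨h2, h3⟩ := rep_hasKey (r := r) h1
  exact ⟨h1, h2, lt_of_le_of_ne (rep_le r x c) h, h3, h2.1⟩

theorem bad_of_rep_eq {x : ℕ → α} {c c' : ℕ} (h : rep r σ x c = rep r σ x c') (hlt : c < c') :
    Bad r σ x c' := by
  intro h1
  have h2 := rep_le (σ := σ) r x c
  rw [h, h1] at h2
  omega

theorem rep_row_le (r : ℕ) (x : ℕ → α) (c : ℕ) : rep r σ x c / σ ≤ c / σ := by
  exact Nat.div_le_div_right (rep_le r x c)

private theorem rep_congr_le {x x' : ℕ → α} {c M : ℕ} (h : ∀ d < M * σ, x d = x' d) (hc : c / σ ≤ M)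
    (h1 : HasKey σ x c) : rep r σ x' c ≤ rep r σ x c := by
  obtain ⟨h2, h3⟩ := rep_hasKey (r := r) h1
  have h4 : rep r σ x c / σ ≤ M := (rep_row_le r x c).trans hc
  have h5 : HasKey σ x' c := (hasKey_congr h hc).1 h1
  conv_lhs => unfold rep
  rw [if_pos h5]
  refine Nat.sInf_le ⟨(hasKey_congr h h4).1 h2, ?_⟩
  rw [← key_congr h h4 h2.1, h3, key_congr h hc h1.1]

theorem rep_congr {x x' : ℕ → α} {c M : ℕ} (h : ∀ d < M * σ, x d = x' d) (hc : c / σ ≤ M) :
    rep r σ x c = rep r σ x' c := by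
  by_cases h1 : HasKey σ x c
  · refine le_antisymm ?_ (rep_congr_le h hc h1)
    exact rep_congr_le (fun d hd => (h d hd).symm) hc ((hasKey_congr h hc).1 h1)
  · rw [rep_of_not h1, rep_of_not fun h2 => h1 ((hasKey_congr h hc).2 h2)]

theorem badRow_iff {x : ℕ → α} {m : ℕ} :
    BadRow r σ x m ↔ ∃ i : ZMod σ, rep r σ x (m * σ + i.val) ≠ m * σ + i.val := by
  constructor
  · rintro ⟨c, hc, hb⟩
    rw [mem_rowCells] at hc
    refine ⟨(c : ZMod σ), ?_⟩
    rw [← hc, cell_eq]
    exact hb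
  · rintro ⟨i, hi⟩
    exact ⟨_, cell_mem m i, hi⟩

theorem badRow_congr {x x' : ℕ → α} {m M : ℕ} (h : ∀ d < M * σ, x d = x' d) (hm : m ≤ M) :
    BadRow r σ x m ↔ BadRow r σ x' m := by
  rw [badRow_iff, badRow_iff]
  refine exists_congr fun i => ?_
  rw [rep_congr h (by rw [cell_div]; exact hm)]

theorem not_badRow_zero (x : ℕ → α) : ¬ BadRow r σ x 0 := by
  rw [badRow_iff]
  rintro ⟨i, hi⟩
  have h1 := (bad_imp hi).1.1
  have h2 := ZMod.val_lt i
  omega

theorem proc_rep {y x : ℕ → α} (hx : IsProc r σ y x) (c : ℕ) : x (rep r σ x c) = x c := by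
  rw [hx, hx c, rep_rep]

theorem proc_row_of_not_bad {y x : ℕ → α} (hx : IsProc r σ y x) {m : ℕ}
    (h : ¬ BadRow r σ x m) : xrow σ x m = xrow σ y m := by
  funext i
  show x (m * σ + i.val) = y (m * σ + i.val)
  rw [badRow_iff] at h
  push Not at h
  rw [hx, h i]

end CAB
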