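import Pool.Agent.Lib.MP_eab41b_pr.B.A1

/-! Row A2a: the two processes exist, are unique and local.

Sketch: the value at `c` depends only on the values at cells `< c` (`rep r σ x c`, `HasKey` and
`key` of `c` depend on the rows before the row of `c`; for `c` in row 0 there is no key). Existence
by strong recursion, e.g. define `x` by well-founded recursion over rows / cells:
`x c := F (fun d => if d < c then x d else default) c`, or prove by induction on `M` that there is
`x` satisfying the equation for all `c < M * σ` and use uniqueness to glue. Uniqueness and locality by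
strong induction on `c` (or on the row) with `rep_congr`, `hasKey_congr`, `key_congr`. -/

set_option autoImplicit false

set_option linter.unusedSectionVars false

open scoped Classical

namespace CAB

variable {α : Type} {r σ : ℕ} [NeZero σ]

/-- representatives agree if the values of all smaller cells agree -/
private theorem A2a_rep {x x' : ℕ → α} {c : ℕ} (h : ∀ d < c, x d = x' d) :
    rep r σ x c = rep r σ x' c := by
  refine rep_congr (M := c / σ) (fun d hd => h d ?_) le_rfl
  exact lt_of_lt_of_le hd (Nat.div_mul_le_self c σ)

theorem isProc_unique {y x x' : ℕ → α} (h : IsProc r σ y x) (h' : IsProc r σ y x') : x = x' := by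
  funext c
  induction c using Nat.strong_induction_on with
  | _ c ih => rw [h c, h' c, A2a_rep ih]

/-- existence of the process -/
private theorem A2a_exists (r : ℕ) (y : ℕ → α) : ∃ x, IsProc r σ y x := by
  let F : (c : ℕ) → ((d : ℕ) → d < c → α) → α := fun c prev =>
    y (rep r σ (fun d => if h : d < c then prev d h else y d) c)
  let x : ℕ → α := WellFounded.fix Nat.lt_wfRel.wf F
  have hx : ∀ c, x c = y (rep r σ (fun d => if d < c then x d else y d) c) := by
    intro c
    have h1 : x c = F c (fun d _ => x d) := WellFounded.fix_eq Nat.lt_wfRel.wf F c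
    rw [h1]
    simp only [F, dite_eq_ite]
  refine ⟨x, fun c => ?_⟩
  rw [hx c]
  congr 1
  refine A2a_rep fun d hd => ?_
  exact if_pos hd

theorem isProc_Xp (r : ℕ) (y : ℕ → α) : IsProc r σ y (Xp r σ y) := by
  have h : ∃ x, IsProc r σ y x := A2a_exists r y
  unfold Xp
  rw [dif_pos h]
  exact h.choose_spec

theorem Xp_local {y y' : ℕ → α} {M : ℕ} (h : ∀ c < M, y c = y' c) :
    ∀ c < M, Xp r σ y c = Xp r σ y' c := by
  intro c
  induction c using Nat.strong_induction_on with
  | _ c ih =>
    intro hc
    have h1 : rep r σ (Xp r σ y) c = rep r σ (Xp r σ y') c :=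
      A2a_rep fun d hd => ih d hd (hd.trans hc)
    rw [isProc_Xp r y c, isProc_Xp r y' c, h1]
    exact h _ (lt_of_le_of_lt (rep_le r _ c) hc)

/-- the process determined by a predicate on finitely many cells -/
theorem Xp_eq_of_lt {y x : ℕ → α} {M : ℕ} (h : ∀ c < M, x c = y (rep r σ x c)) :
    ∀ c < M, Xp r σ y c = x c := by
  intro c
  induction c using Nat.strong_induction_on with
  | _ c ih =>
    intro hc
    have h1 : rep r σ (Xp r σ y) c = rep r σ x c :=
      A2a_rep fun d hd => ih d hd (hd.trans hc)
    rw [isProc_Xp r y c, h c hc, h1]

end CAB
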