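import Pool.Agent.Lib.MP_eab41b_pr.B.A1
import Pool.Agent.Lib.MP_eab41b_pr.B.A2a

/-! Row A2: the two processes exist, are unique and local.

Sketch: the value at `c` depends only on the values at cells `< c` (`rep r σ x c`, `HasKey` and
`key` of `c` depend on the rows before the row of `c`; for `c` in row 0 there is no key). Existence
by strong recursion, e.g. define `x` by well-founded recursion over rows / cells:
`x c := F (fun d => if d < c then x d else default) c`, or prove by induction on `M` that there is
`x` satisfying the equation for all `c < M * σ` and use uniqueness to glue. Uniqueness and locality by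
strong induction on `c` (or on the row) with `rep_congr`, `hasKey_congr`, `key_congr`. -/

set_option autoImplicit false

set_option linter.unusedSectionVars false

open scoped Classical

namespace CAB

variable {α : Type} {r σ : ℕ} [NeZero σ]

private noncomputable def stepA2 (r σ : ℕ) [NeZero σ] (g : (Fin r → α) → α) (s x : ℕ → α) (c : ℕ) : α :=
  if HasKey σ x c then g (key r σ x c) else s c

private theorem stepA2_congr {g : (Fin r → α) → α} {s x x' : ℕ → α} {c : ℕ}
    (h : ∀ d < c, x d = x' d) : stepA2 r σ g s x c = stepA2 r σ g s x' c := by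
  have h1 : ∀ d < (c / σ) * σ, x d = x' d := fun d hd =>
    h d (lt_of_lt_of_le hd (Nat.div_mul_le_self c σ))
  unfold stepA2
  by_cases hk : HasKey σ x c
  · rw [if_pos hk, if_pos ((hasKey_congr h1 le_rfl).1 hk), key_congr h1 le_rfl hk.1]
  · rw [if_neg hk, if_neg (fun hk' => hk ((hasKey_congr h1 le_rfl).2 hk'))]

private theorem isExp_local {g : (Fin r → α) → α} {s s' x x' : ℕ → α} {M : ℕ}
    (hs : ∀ c < M, s c = s' c)
    (h : ∀ c < M, x c = stepA2 r σ g s x c) (h' : ∀ c < M, x' c = stepA2 r σ g s' x' c) :
    ∀ c < M, x c = x' c := by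
  intro c
  induction c using Nat.strong_induction_on with
  | _ c ih =>
    intro hc
    rw [h c hc, h' c hc, stepA2_congr (x' := x') (fun d hd => ih d hd (hd.trans hc))]
    unfold stepA2
    rw [hs c hc]

theorem isExp_unique {g : (Fin r → α) → α} {s x x' : ℕ → α} (h : IsExp r σ g s x)
    (h' : IsExp r σ g s x') : x = x' := by
  funext c
  exact isExp_local (M := c + 1) (fun _ _ => rfl) (fun d _ => h d) (fun d _ => h' d) c
    (Nat.lt_succ_self c)

private noncomputable def xxA2 (r σ : ℕ) [NeZero σ] (g : (Fin r → α) → α) (s : ℕ → α) (c : ℕ) : α :=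
  stepA2 r σ g s (fun d => if _h : d < c then xxA2 r σ g s d else s 0) c
termination_by c

private theorem exists_isExp (g : (Fin r → α) → α) (s : ℕ → α) : ∃ x, IsExp r σ g s x := by
  refine ⟨xxA2 r σ g s, fun c => ?_⟩
  rw [xxA2]
  refine stepA2_congr fun d hd => ?_
  simp only [dif_pos hd]

theorem isExp_Xe (g : (Fin r → α) → α) (s : ℕ → α) : IsExp r σ g s (Xe r σ g s) := by
  unfold Xe
  rw [dif_pos (exists_isExp g s)]
  exact (exists_isExp (r := r) (σ := σ) g s).choose_spec

theorem Xe_local {g : (Fin r → α) → α} {s s' : ℕ → α} {M : ℕ} (h : ∀ c < M, s c = s' c) :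
    ∀ c < M, Xe r σ g s c = Xe r σ g s' c :=
  isExp_local h (fun d _ => isExp_Xe g s d) (fun d _ => isExp_Xe g s' d)

theorem exp_row_used {g : (Fin r → α) → α} {s x : ℕ → α} (hx : IsExp r σ g s x) {m : ℕ}
    (h : Used σ x m) : xrow σ x (m + 1) = Fm r σ g (xrow σ x m) := by
  funext i
  unfold Fm
  rw [← key_cell r x m i]
  have h1 := hx ((m + 1) * σ + i.val)
  rw [if_pos ((hasKey_cell x m i).2 h)] at h1
  exact h1

theorem exp_row_not {g : (Fin r → α) → α} {s x : ℕ → α} (hx : IsExp r σ g s x) {m : ℕ}
    (h : m = 0 ∨ ¬ Used σ x (m - 1)) : xrow σ x m = xrow σ s m := by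
  funext i
  have h1 := hx (m * σ + i.val)
  have h2 : ¬ HasKey σ x (m * σ + i.val) := by
    rintro ⟨h3, h4⟩
    rw [cell_div] at h4
    rcases h with h | h
    · subst h
      have := ZMod.val_lt i
      omega
    · exact h h4
  rw [if_neg h2] at h1
  exact h1

theorem Xe_eq_of_lt {g : (Fin r → α) → α} {s x : ℕ → α} {M : ℕ}
    (h : ∀ c < M, x c = if HasKey σ x c then g (key r σ x c) else s c) :
    ∀ c < M, Xe r σ g s c = x c :=
  isExp_local (fun _ _ => rfl) (fun d _ => isExp_Xe g s d) h

end CAB
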