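import Pool.Agent.Lib.MP_eab41b_pr.B.A2

/-! Row A3: the functionals that depend on finitely many rows. -/

set_option autoImplicit false

set_option linter.unusedSectionVars false

open scoped Classical

namespace CAB

variable {r σ n : ℕ} [NeZero n] [NeZero σ]

theorem local_Xrow (r : ℕ) {m M : ℕ} (hm : m < M) :
    LocalTo n (M * σ) (fun y => xrow σ (Xp r σ y) m) :=
  fun _ _ h => xrow_congr (Xp_local h) hm

theorem local_row {m M : ℕ} (hm : m < M) : LocalTo n (M * σ) (fun y => xrow σ y m) :=
  fun _ _ h => xrow_congr h hm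

theorem local_used (r : ℕ) {m M : ℕ} (hm : m < M) :
    LocalTo n (M * σ) (fun y => Used σ (Xp r σ y) m) :=
  fun _ _ h => propext (used_congr (Xp_local h) hm)

theorem local_used' {m M : ℕ} (hm : m < M) : LocalTo n (M * σ) (fun y => Used σ y m) :=
  fun _ _ h => propext (used_congr h hm)

/-- the row `m` is bad depending on the rows `< m` -/
theorem local_badRow (r : ℕ) {m M : ℕ} (hm : m ≤ M) :
    LocalTo n (M * σ) (fun y => BadRow r σ (Xp r σ y) m) :=
  fun _ _ h => propext (badRow_congr (Xp_local h) hm)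

theorem local_nBad (r : ℕ) {m M : ℕ} (hm : m ≤ M + 1) :
    LocalTo n (M * σ) (fun y => nBad r σ (Xp r σ y) m) := by
  intro y y' h
  show nBad r σ (Xp r σ y) m = nBad r σ (Xp r σ y') m
  unfold nBad
  congr 1
  refine Finset.filter_congr fun u hu => ?_
  rw [Finset.mem_range] at hu
  exact badRow_congr (Xp_local h) (by omega)

private theorem A3_LC_imp {α : Type} {x x' : ℕ → α} {L : ℝ} {u M : ℕ}
    (h : ∀ c < M * σ, x c = x' c) (hu : u < M) (hx : LC σ L x u) : LC σ L x' u := by
  obtain ⟨t, j, ht, he, hU, hL⟩ := hx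
  refine ⟨t, j, ht, ?_, fun m h1 h2 => (used_congr h (h2.trans hu)).1 (hU m h1 h2), hL⟩
  rw [← xrow_congr h hu, ← xrow_congr h (ht.trans hu)]
  exact he

/-- `found` of any sequence depends on its first `T` rows -/
theorem found_congr {α : Type} {x x' : ℕ → α} {L : ℝ} {T M : ℕ} (h : ∀ c < M * σ, x c = x' c)
    (hT : T ≤ M) : found σ L T x = found σ L T x' := by
  unfold found
  congr 1
  refine Finset.filter_congr fun u hu => ?_
  rw [Finset.mem_range] at hu
  exact ⟨A3_LC_imp h (by omega), A3_LC_imp (fun c hc => (h c hc).symm) (by omega)⟩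

theorem local_found {L : ℝ} {T M : ℕ} (hT : T ≤ M) :
    LocalTo n (M * σ) (fun y => found σ L T y) :=
  fun _ _ h => found_congr h hT

theorem local_found_Xp (r : ℕ) {L : ℝ} {T M : ℕ} (hT : T ≤ M) :
    LocalTo n (M * σ) (fun y => found σ L T (Xp r σ y)) :=
  fun _ _ h => found_congr (Xp_local h) hT

end CAB
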