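import Pool.Agent.Lib.MP_eab41b_pr.B.A1

/-! Row A4: Lemma K.

Sketch: the cells `m σ + (a - k)` and `m' σ + (b - k)` are different and have the same
representative, so (`rep_eq_imp`) both have keys (hence `m, m' ≥ 1` and the rows `m - 1`, `m' - 1` are
used) and the keys agree: `x_{m-1}(a - k - k') = x_{m'-1}(b - k - k')` for all `k, k' < r`, i.e.
`x_{m-1}(a - e) = x_{m'-1}(b - e)` for `0 ≤ e ≤ 2r - 2`; since `2r - 1 ≥ σ` for all `e`. So row `m - 1`
is the rotation by `b - a` of row `m' - 1`. If `m ≠ m'` the later one of the two rows is not used; if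
`m = m'` then `a ≠ b` and the row is not aperiodic. -/

set_option autoImplicit false

set_option linter.unusedSectionVars false

open scoped Classical

namespace CAB

variable {α : Type} {r σ : ℕ} [NeZero σ]

theorem lemmaK (hσ : σ < 2 * r) {x : ℕ → α} {m m' : ℕ} {a b : ZMod σ} (hne : m ≠ m' ∨ a ≠ b)
    (h : ∀ k < r, rep r σ x (m * σ + (a - (k : ZMod σ)).val) =
      rep r σ x (m' * σ + (b - (k : ZMod σ)).val)) : False := by
  have hσ0 : 0 < σ := sig_pos
  have hr : 0 < r := by omega
  have hcell : ∀ k < r, m * σ + (a - (k : ZMod σ)).val ≠ m' * σ + (b - (k : ZMod σ)).val := by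
    intro k _ he
    have h1 := cell_div (σ := σ) m (a - (k : ZMod σ))
    have h2 := cell_div (σ := σ) m' (b - (k : ZMod σ))
    have h3 := cell_cast (σ := σ) m (a - (k : ZMod σ))
    have h4 := cell_cast (σ := σ) m' (b - (k : ZMod σ))
    rw [he] at h1 h3
    rcases hne with h5 | h5
    · exact h5 (h1.symm.trans h2)
    · have h6 : a - (k : ZMod σ) = b - (k : ZMod σ) := h3.symm.trans h4
      exact h5 (sub_left_injective h6)
  have hkey : ∀ k < r, HasKey σ x (m * σ + (a - (k : ZMod σ)).val) ∧
      HasKey σ x (m' * σ + (b - (k : ZMod σ)).val) ∧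
      key r σ x (m * σ + (a - (k : ZMod σ)).val) = key r σ x (m' * σ + (b - (k : ZMod σ)).val) :=
    fun k hk => rep_eq_imp (h k hk) (hcell k hk)
  obtain ⟨ha0, hb0, _⟩ := hkey 0 hr
  have hm : 1 ≤ m := by
    have := row_pos ha0.1
    rwa [cell_div] at this
  have hm' : 1 ≤ m' := by
    have := row_pos hb0.1
    rwa [cell_div] at this
  have hu : Used σ x (m - 1) := by
    have := ha0.2
    rwa [cell_div] at this
  have hu' : Used σ x (m' - 1) := by
    have := hb0.2
    rwa [cell_div] at this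
  have hw : ∀ k < r, ∀ k' < r, xrow σ x (m - 1) (a - (k : ZMod σ) - (k' : ZMod σ)) =
      xrow σ x (m' - 1) (b - (k : ZMod σ) - (k' : ZMod σ)) := by
    intro k hk k' hk'
    have h1 := congrFun (hkey k hk).2.2 ⟨k', hk'⟩
    rw [key_eq_win, key_eq_win, cell_div, cell_div, cell_cast, cell_cast] at h1
    exact h1
  have hall : ∀ e : ℕ, e < σ → xrow σ x (m - 1) (a - (e : ZMod σ)) =
      xrow σ x (m' - 1) (b - (e : ZMod σ)) := by
    intro e he
    rcases lt_or_ge e r with h1 | h1
    · have h2 := hw e h1 0 hr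
      simpa using h2
    · have h2 := hw (r - 1) (by omega) (e - (r - 1)) (by omega)
      have h3 : (e : ZMod σ) = ((r - 1 : ℕ) : ZMod σ) + ((e - (r - 1) : ℕ) : ZMod σ) := by
        rw [← Nat.cast_add]
        congr 1
        omega
      rw [h3, ← sub_sub, ← sub_sub]
      exact h2
  have hrot : xrow σ x (m - 1) = rot σ (b - a) (xrow σ x (m' - 1)) := by
    funext i
    have h1 := hall (a - i).val (ZMod.val_lt _)
    rw [ZMod.natCast_zmod_val] at h1
    rw [sub_sub_cancel] at h1
    rw [h1, rot_apply]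
    congr 1
    ring
  by_cases hmm : m = m'
  · subst hmm
    rcases hne with h5 | h5
    · exact h5 rfl
    · exact h5 (sub_eq_zero.1 (hu.1 _ hrot.symm)).symm
  · rcases lt_or_gt_of_ne hmm with h1 | h1
    · exact hu'.2 (m - 1) (by omega) (Eqv.symm ⟨_, hrot⟩)
    · exact hu.2 (m' - 1) (by omega) ⟨_, hrot⟩

/-- the same for the windows of two different cells -/
theorem lemmaK_par (hσ : σ < 2 * r) {x : ℕ → α} {c c' : ℕ} (hc : σ ≤ c) (hc' : σ ≤ c')
    (hne : c ≠ c') (h : ∀ k < r, rep r σ x (par σ k c) = rep r σ x (par σ k c')) : False := by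
  apply lemmaK (m := c / σ - 1) (m' := c' / σ - 1) (a := (c : ZMod σ)) (b := (c' : ZMod σ)) hσ _ h
  by_contra hcon
  push Not at hcon
  apply hne
  have h1 := row_pos hc
  have h2 := row_pos hc'
  exact cell_ext (σ := σ) (by omega) hcon.2

end CAB
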