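import Pool.Agent.Lib.MP_eab41b_pr.B.A3

/-! Row A5: the exploration of a random rule is the lazy process.

Sketch: for a rule `g` and starts `s` (T rows) put `x = Xe r σ g (seqR s)`. Map `(g, s) ↦ (g', y)`:
`y_c = x_c` if `rep c = c`, `y_c = s_c` otherwise (c < Tσ); `g' w = s_c` if `c < T σ` is the first cell
with a key and with key `w`, `g' w = g w` if there is none. Then `x = Xp r σ (seqR y)` on the first `T σ` cells
(`Xp_eq_of_lt`), and the map is injective: `(g', y)` determines `x` on the cells `< T σ`, and then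
`s_c = y_c` if `rep c ≠ c` or `c` has no key, `s_c = g' (key c)` if `rep c = c` and `c` has a key; `g w = y_c`
if `c < T σ` is the first cell with key `w`, `g w = g' w` if there is none. So it is a bijection of the finite
type `Rule × (Fin T → Row)`, and the sums agree (`Function.Injective.bijective_of_finite`, `Finset.sum_bij` /
`Equiv.sum_comp`). The denominators are the same constant. (The case `T = 0` is fine too.) -/

set_option autoImplicit false

set_option linter.unusedSectionVars false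

open scoped Classical

namespace CAB

variable {r σ n : ℕ} [NeZero n] [NeZero σ]

private noncomputable def A5_x (T : ℕ) (p : Rule r n × (Fin T → Row σ n)) : ℕ → Fin n :=
  Xe r σ p.1 (seqR σ n T p.2)

private noncomputable def A5_y (T : ℕ) (p : Rule r n × (Fin T → Row σ n)) : Fin T → Row σ n := fun m i =>
  if rep r σ (A5_x T p) ((m : ℕ) * σ + i.val) = (m : ℕ) * σ + i.val then A5_x T p ((m : ℕ) * σ + i.val)
  else seqR σ n T p.2 ((m : ℕ) * σ + i.val)

private noncomputable def A5_g (T : ℕ) (p : Rule r n × (Fin T → Row σ n)) : Rule r n := fun w =>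
  if h : ∃ c, c < T * σ ∧ HasKey σ (A5_x T p) c ∧ key r σ (A5_x T p) c = w then
    seqR σ n T p.2 (rep r σ (A5_x T p) h.choose) else p.1 w

private theorem A5_isExp (T : ℕ) (p : Rule r n × (Fin T → Row σ n)) :
    IsExp r σ p.1 (seqR σ n T p.2) (A5_x T p) := isExp_Xe _ _

private theorem A5_rep (T : ℕ) (p : Rule r n × (Fin T → Row σ n)) (c : ℕ) :
    A5_x T p (rep r σ (A5_x T p) c) = A5_x T p c := by
  by_cases h : HasKey σ (A5_x T p) c
  · obtain ⟨h1, h2⟩ := rep_hasKey (r := r) h
    rw [A5_isExp T p (rep r σ (A5_x T p) c), A5_isExp T p c, if_pos h1, if_pos h, h2]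
  · rw [rep_of_not h]

private theorem A5_seq_y (T : ℕ) (p : Rule r n × (Fin T → Row σ n)) {c : ℕ} (hc : c < T * σ) :
    seqR σ n T (A5_y T p) c = if rep r σ (A5_x T p) c = c then A5_x T p c else seqR σ n T p.2 c := by
  have hd : c / σ < T := lt_row_iff.1 hc
  have h1 := seqR_cell (A5_y T p) hd (c : ZMod σ)
  rw [cell_eq] at h1
  rw [h1]
  unfold A5_y
  simp only
  rw [cell_eq]

private theorem A5_Xp (T : ℕ) (p : Rule r n × (Fin T → Row σ n)) :
    ∀ c < T * σ, Xp r σ (seqR σ n T (A5_y T p)) c = A5_x T p c := by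
  refine Xp_eq_of_lt fun c hc => ?_
  have h1 : rep r σ (A5_x T p) c < T * σ := lt_of_le_of_lt (rep_le r _ c) hc
  rw [A5_seq_y T p h1, rep_rep, if_pos rfl, A5_rep]

private theorem A5_g_key (T : ℕ) (p : Rule r n × (Fin T → Row σ n)) {c : ℕ} (hc : c < T * σ)
    (hk : HasKey σ (A5_x T p) c) :
    A5_g T p (key r σ (A5_x T p) c) = seqR σ n T p.2 (rep r σ (A5_x T p) c) := by
  have hex : ∃ c', c' < T * σ ∧ HasKey σ (A5_x T p) c' ∧
      key r σ (A5_x T p) c' = key r σ (A5_x T p) c := ⟨c, hc, hk, rfl⟩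
  unfold A5_g
  rw [dif_pos hex]
  obtain ⟨-, h2, h3⟩ := hex.choose_spec
  rw [rep_eq_of_key h2 hk h3]

private theorem A5_inj (T : ℕ) : Function.Injective
    (fun p : Rule r n × (Fin T → Row σ n) => (A5_g T p, A5_y T p)) := by
  rintro p q hpq
  have hg : A5_g T p = A5_g T q := congrArg Prod.fst hpq
  have hy : A5_y T p = A5_y T q := congrArg Prod.snd hpq
  have hx : ∀ c < T * σ, A5_x T p c = A5_x T q c := by
    intro c hc
    rw [← A5_Xp T p c hc, ← A5_Xp T q c hc, hy]
  have hrow : ∀ {c : ℕ}, c < T * σ → c / σ ≤ T := fun hc => (lt_row_iff.1 hc).le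
  have hk : ∀ {c : ℕ}, c < T * σ → (HasKey σ (A5_x T p) c ↔ HasKey σ (A5_x T q) c) := fun hc =>
    hasKey_congr hx (hrow hc)
  have hr : ∀ {c : ℕ}, c < T * σ → rep r σ (A5_x T p) c = rep r σ (A5_x T q) c := fun hc =>
    rep_congr hx (hrow hc)
  have hkey : ∀ {c : ℕ}, c < T * σ → HasKey σ (A5_x T p) c →
      key r σ (A5_x T p) c = key r σ (A5_x T q) c := fun hc h => key_congr hx (hrow hc) h.1
  have hs : ∀ c < T * σ, seqR σ n T p.2 c = seqR σ n T q.2 c := by
    intro c hc
    by_cases h1 : rep r σ (A5_x T p) c = c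
    · by_cases h2 : HasKey σ (A5_x T p) c
      · have h3 := A5_g_key T p hc h2
        have h4 := A5_g_key T q hc ((hk hc).1 h2)
        rw [← hr hc, h1] at h4
        rw [h1] at h3
        rw [← h3, ← h4, hkey hc h2, hg]
      · have h3 := A5_isExp T p c
        have h4 := A5_isExp T q c
        rw [if_neg h2] at h3
        rw [if_neg (fun h => h2 ((hk hc).2 h))] at h4
        rw [← h3, ← h4, hx c hc]
    · have h3 := A5_seq_y T p hc
      have h4 := A5_seq_y T q hc
      rw [if_neg h1] at h3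
      rw [if_neg (fun h => h1 ((hr hc).trans h))] at h4
      rw [← h3, ← h4, hy]
  refine Prod.ext ?_ ?_
  · funext w
    by_cases h : ∃ c, c < T * σ ∧ HasKey σ (A5_x T p) c ∧ key r σ (A5_x T p) c = w
    · obtain ⟨c, hc, h2, h3⟩ := h
      have h4 := A5_isExp T p c
      have h5 := A5_isExp T q c
      rw [if_pos h2, h3] at h4
      rw [if_pos ((hk hc).1 h2), ← hkey hc h2, h3] at h5
      rw [← h4, ← h5, hx c hc]
    · have h' : ¬ ∃ c, c < T * σ ∧ HasKey σ (A5_x T q) c ∧ key r σ (A5_x T q) c = w := by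
        rintro ⟨c, hc, h2, h3⟩
        have h4 := (hk hc).2 h2
        exact h ⟨c, hc, h4, (hkey hc h4).trans h3⟩
      have h1 := congrFun hg w
      unfold A5_g at h1
      rwa [dif_neg h, dif_neg h'] at h1
  · funext m i
    rw [← seqR_cell p.2 m.2 i, ← seqR_cell q.2 m.2 i]
    apply hs
    rw [lt_row_iff, cell_div]
    exact m.2

theorem transfer (T : ℕ) (G : (ℕ → Fin n) → ℝ) (hG : LocalTo n (T * σ) G) :
    ExGS r σ n T (fun g s => G (Xe r σ g s)) = Ex σ n T (fun y => G (Xp r σ y)) := by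
  have hbij := (A5_inj (r := r) (σ := σ) (n := n) T).bijective_of_finite
  have key : ∑ g : Rule r n, ∑ s : Fin T → Row σ n, G (Xe r σ g (seqR σ n T s)) =
      (Fintype.card (Rule r n) : ℝ) * ∑ y : Fin T → Row σ n, G (Xp r σ (seqR σ n T y)) := by
    rw [← Fintype.sum_prod_type' (fun (g : Rule r n) (s : Fin T → Row σ n) => G (Xe r σ g (seqR σ n T s)))]
    have h1 : ∀ p : Rule r n × (Fin T → Row σ n), G (Xe r σ p.1 (seqR σ n T p.2)) =
        (fun q : Rule r n × (Fin T → Row σ n) => G (Xp r σ (seqR σ n T q.2))) (A5_g T p, A5_y T p) := by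
      intro p
      exact hG _ _ fun c hc => (A5_Xp T p c hc).symm
    rw [Finset.sum_congr rfl fun p _ => h1 p, hbij.sum_comp
      (fun q : Rule r n × (Fin T → Row σ n) => G (Xp r σ (seqR σ n T q.2))),
      Fintype.sum_prod_type' (fun (_ : Rule r n) (y : Fin T → Row σ n) => G (Xp r σ (seqR σ n T y))),
      Finset.sum_const, Finset.card_univ, nsmul_eq_mul]
  have hR : (Fintype.card (Rule r n) : ℝ) ≠ 0 := by
    have : Nonempty (Rule r n) := ⟨fun _ => 0⟩
    exact Nat.cast_ne_zero.2 Fintype.card_ne_zero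
  unfold ExGS ExG Ex
  rw [← Finset.sum_div, key, mul_div_assoc, mul_div_cancel_left₀ _ hR]

end CAB
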