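import Pool.Agent.Lib.MP_eab41b_pr.B.A1

/-! Row B1: Morse-Hedlund for cyclic words.

Sketch: let `p k` be the number of windows of length `k` (`k ≥ 1`), `p k ≤ p (k + 1)`, `p k ≤ σ`. If
`p k = p (k + 1)` for some `k ≥ 1` then the window of length `k` at `i` determines the one of length `k + 1` at
`i`, hence `z (i - k)` and the window of length `k` at `i - 1`, hence by induction everything; so two positions
with equal windows of length `k` differ by a period of `z`, i.e. are equal: `p k = σ`. Hence either `p r = σ` or
`p` is strictly increasing on `[1, r]`. -/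

set_option autoImplicit false

set_option linter.unusedSectionVars false

open scoped Classical

namespace CAB

variable {α : Type} {σ : ℕ} [NeZero σ]

private theorem B1_trunc (k : ℕ) (z : ZMod σ → α) :
    Finset.univ.image (win k σ z) =
      (Finset.univ.image (win (k + 1) σ z)).image (fun f => fun i : Fin k => f (Fin.castSucc i)) := by
  rw [Finset.image_image]
  rfl

private theorem B1_mono (k : ℕ) (z : ZMod σ → α) :
    (Finset.univ.image (win k σ z)).card ≤ (Finset.univ.image (win (k + 1) σ z)).card := by
  rw [B1_trunc]
  exact Finset.card_image_le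

private theorem B1_le (k : ℕ) (z : ZMod σ → α) : (Finset.univ.image (win k σ z)).card ≤ σ := by
  refine Finset.card_image_le.trans (le_of_eq ?_)
  rw [Finset.card_univ, ZMod.card]

private theorem B1_step {k : ℕ} (hk : 1 ≤ k) {z : ZMod σ → α} (hz : Aper σ z)
    (h : (Finset.univ.image (win k σ z)).card = (Finset.univ.image (win (k + 1) σ z)).card) :
    (Finset.univ.image (win k σ z)).card = σ := by
  have h1 := h
  rw [B1_trunc] at h1
  have hinj := Finset.card_image_iff.1 h1
  have hstep : ∀ i i' : ZMod σ, win k σ z i = win k σ z i' →
      win k σ z (i - 1) = win k σ z (i' - 1) := by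
    intro i i' hi
    have h2 : win (k + 1) σ z i = win (k + 1) σ z i' := by
      apply hinj (Finset.mem_coe.2 (Finset.mem_image_of_mem _ (Finset.mem_univ _)))
        (Finset.mem_coe.2 (Finset.mem_image_of_mem _ (Finset.mem_univ _)))
      exact hi
    funext l
    have h3 := congrFun h2 (Fin.succ l)
    unfold win at h3 ⊢
    rw [Fin.val_succ] at h3
    have e : ∀ j : ZMod σ, j - 1 - (((l : ℕ)) : ZMod σ) = j - (((l : ℕ) + 1 : ℕ) : ZMod σ) := by
      intro j
      push_cast
      ring
    rw [e, e]
    exact h3
  have hall : ∀ i i' : ZMod σ, win k σ z i = win k σ z i' → ∀ m : ℕ,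
      win k σ z (i - (m : ZMod σ)) = win k σ z (i' - (m : ZMod σ)) := by
    intro i i' hi m
    induction m with
    | zero => simpa using hi
    | succ m ih =>
      have h4 := hstep _ _ ih
      have e : ∀ j : ZMod σ, j - (m : ZMod σ) - 1 = j - ((m + 1 : ℕ) : ZMod σ) := by
        intro j
        push_cast
        ring
      rw [e, e] at h4
      exact h4
  have hfinal : Function.Injective (win k σ z) := by
    intro i i' hi
    have h5 : rot σ (i' - i) z = z := by
      funext j
      have h6 := congrFun (hall i i' hi (i - j).val) ⟨0, hk⟩
      unfold win at h6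
      rw [ZMod.natCast_zmod_val] at h6
      unfold rot
      have e1 : i - (i - j) - (((⟨0, hk⟩ : Fin k) : ℕ) : ZMod σ) = j := by
        push_cast
        ring
      have e2 : i' - (i - j) - (((⟨0, hk⟩ : Fin k) : ℕ) : ZMod σ) = j + (i' - i) := by
        push_cast
        ring
      rw [e1, e2] at h6
      exact h6.symm
    exact (sub_eq_zero.1 (hz _ h5)).symm
  rw [Finset.card_image_of_injective _ hfinal, Finset.card_univ, ZMod.card]

private theorem B1_one (z : ZMod σ → α) :
    (Finset.univ.image (win 1 σ z)).card = (Finset.univ.image z).card := by
  have h : win 1 σ z = (fun a : α => fun _ : Fin 1 => a) ∘ z := by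
    funext i l
    have hl : (l : ℕ) = 0 := by omega
    unfold win
    rw [hl]
    simp
  rw [h, ← Finset.image_image]
  apply Finset.card_image_of_injective
  intro a b hab
  exact congrFun hab 0

theorem windows_ge {r : ℕ} (hr : 1 ≤ r) {z : ZMod σ → α} (hz : Aper σ z) :
    (Finset.univ.image (win r σ z)).card = σ ∨
      (Finset.univ.image z).card + (r - 1) ≤ (Finset.univ.image (win r σ z)).card := by
  induction r, hr using Nat.le_induction with
  | base =>
    right
    rw [B1_one]
    omega
  | succ k hk ih =>
    rcases ih with h | h
    · left
      have h1 := B1_mono k z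
      have h2 := B1_le (k + 1) z
      omega
    · by_cases h3 : (Finset.univ.image (win k σ z)).card = (Finset.univ.image (win (k + 1) σ z)).card
      · left
        have h4 := B1_step hk hz h3
        omega
      · right
        have h1 := B1_mono k z
        omega

end CAB
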