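import Pool.Agent.Lib.MP_eab41b_pr.B.A1

/-! Row B10: closures exist.

Sketch: define `f` by strong recursion: `f m = {m}` if row `m` is not bad, otherwise
`f m = {m} ∪ f (m - 1) ∪ ⋃ (f (rep c / σ) ∪ f (rep c / σ - 1))` over the bad cells `c` of row `m` with `rep c / σ < m`
(a bad cell has `σ ≤ rep c < c`, so `m ≥ 1`). E.g. prove by strong induction on `M` the existence of `f` on `m < M`, or use
`WellFounded.fix` / `Nat.strongRec'`. Check the five fields by strong induction on `m`. -/

set_option autoImplicit false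

set_option linter.unusedSectionVars false

open scoped Classical

namespace CAB

variable {α : Type} {r σ : ℕ} [NeZero σ] {x : ℕ → α}

private noncomputable def B10_step (r σ : ℕ) (x : ℕ → α) (m : ℕ) (g : ∀ k, k < m → Finset ℕ) : Finset ℕ :=
  if BadRow r σ x m then
    insert m ((if h : m - 1 < m then g (m - 1) h else ∅) ∪
      ((rowCells σ m).filter (Bad r σ x)).biUnion fun c =>
        (if h : rep r σ x c / σ < m then g _ h else ∅) ∪
        (if h : rep r σ x c / σ - 1 < m then g _ h else ∅))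
  else {m}

private noncomputable def B10_f (r σ : ℕ) (x : ℕ → α) : ℕ → Finset ℕ :=
  WellFounded.fix Nat.lt_wfRel.wf (B10_step r σ x)

private theorem B10_eq (r σ : ℕ) (x : ℕ → α) (m : ℕ) :
    B10_f r σ x m = B10_step r σ x m fun k _ => B10_f r σ x k :=
  WellFounded.fix_eq _ _ _

private theorem B10_bad {m c : ℕ} (hc : c ∈ (rowCells σ m).filter (Bad r σ x)) :
    c / σ = m ∧ Bad r σ x c ∧ 1 ≤ m ∧ rep r σ x c / σ ≤ m ∧ rep r σ x c / σ - 1 < m := by
  rw [Finset.mem_filter, mem_rowCells] at hc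
  obtain ⟨h1, h2⟩ := hc
  obtain ⟨h3, -, h4, -, h5⟩ := bad_imp h2
  have h6 := row_pos (σ := σ) h5
  have h7 := rep_row_le (σ := σ) r x c
  rw [h1] at h7
  exact ⟨h1, h2, by omega, h7, by omega⟩

private theorem B10_mem {m j : ℕ} : j ∈ B10_f r σ x m ↔ j = m ∨ (BadRow r σ x m ∧
    ((m - 1 < m ∧ j ∈ B10_f r σ x (m - 1)) ∨ ∃ c ∈ (rowCells σ m).filter (Bad r σ x),
      (rep r σ x c / σ < m ∧ j ∈ B10_f r σ x (rep r σ x c / σ)) ∨
      (rep r σ x c / σ - 1 < m ∧ j ∈ B10_f r σ x (rep r σ x c / σ - 1)))) := by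
  rw [B10_eq]
  unfold B10_step
  have key : ∀ k : ℕ, (j ∈ (if h : k < m then B10_f r σ x k else ∅)) ↔ k < m ∧ j ∈ B10_f r σ x k := by
    intro k
    by_cases h : k < m
    · simp [h]
    · simp [h]
  by_cases hb : BadRow r σ x m
  · rw [if_pos hb, Finset.mem_insert, Finset.mem_union, Finset.mem_biUnion]
    simp only [Finset.mem_union, key]
    exact ⟨fun h => h.imp_right fun h => ⟨hb, h⟩, fun h => h.imp_right fun h => h.2⟩
  · rw [if_neg hb, Finset.mem_singleton]
    tauto

private theorem B10_self (m : ℕ) : m ∈ B10_f r σ x m := B10_mem.2 (Or.inl rfl)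

private theorem B10_sub {m j : ℕ} (hj : j ∈ B10_f r σ x m) (hne : j ≠ m) :
    ∃ k < m, j ∈ B10_f r σ x k ∧ B10_f r σ x k ⊆ B10_f r σ x m ∧
      ∃ c, c / σ = m ∧ Bad r σ x c ∧
        (k = c / σ - 1 ∨ (k = rep r σ x c / σ ∧ k < c / σ) ∨ k = rep r σ x c / σ - 1) := by
  rcases B10_mem.1 hj with h | ⟨hb, h⟩
  · exact absurd h hne
  rcases h with ⟨h1, h2⟩ | ⟨c, hc, h⟩
  · obtain ⟨c, hc, hbc⟩ := hb
    rw [mem_rowCells] at hc
    refine ⟨m - 1, h1, h2, fun i hi => B10_mem.2 (Or.inr ⟨?_, Or.inl ⟨h1, hi⟩⟩), c, hc, hbc, Or.inl (by rw [hc])⟩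
    exact ⟨c, mem_rowCells.2 hc, hbc⟩
  · obtain ⟨h1, h2, h3, h4, h5⟩ := B10_bad hc
    rcases h with ⟨h6, h7⟩ | ⟨h6, h7⟩
    · exact ⟨_, h6, h7, fun i hi => B10_mem.2 (Or.inr ⟨hb, Or.inr ⟨c, hc, Or.inl ⟨h6, hi⟩⟩⟩), c, h1, h2,
        Or.inr (Or.inl ⟨rfl, by rw [h1]; exact h6⟩)⟩
    · exact ⟨_, h6, h7, fun i hi => B10_mem.2 (Or.inr ⟨hb, Or.inr ⟨c, hc, Or.inr ⟨h6, hi⟩⟩⟩), c, h1, h2,
        Or.inr (Or.inr rfl)⟩

private theorem B10_isClo (r : ℕ) (x : ℕ → α) : IsClo r σ x (B10_f r σ x) where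
  self m := B10_self m
  le := by
    intro m
    induction m using Nat.strong_induction_on with
    | _ m ih =>
      intro j hj
      by_cases hne : j = m
      · exact hne.le
      · obtain ⟨k, hk, hjk, -, -⟩ := B10_sub hj hne
        exact (ih k hk j hjk).trans hk.le
  closed := by
    intro m
    induction m using Nat.strong_induction_on with
    | _ m ih =>
      intro c hc hbc
      rw [mem_cellsOf] at hc
      by_cases hne : c / σ = m
      · have hcm : c ∈ (rowCells σ m).filter (Bad r σ x) :=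
          Finset.mem_filter.2 ⟨mem_rowCells.2 hne, hbc⟩
        have hb : BadRow r σ x m := ⟨c, mem_rowCells.2 hne, hbc⟩
        obtain ⟨h1, h2, h3, h4, h5⟩ := B10_bad hcm
        refine ⟨?_, ?_, ?_⟩
        · rw [hne]
          exact B10_mem.2 (Or.inr ⟨hb, Or.inl ⟨by omega, B10_self _⟩⟩)
        · rcases h4.eq_or_lt with h | h
          · rw [h]
            exact B10_self _
          · exact B10_mem.2 (Or.inr ⟨hb, Or.inr ⟨c, hcm, Or.inl ⟨h, B10_self _⟩⟩⟩)
        · exact B10_mem.2 (Or.inr ⟨hb, Or.inr ⟨c, hcm, Or.inr ⟨h5, B10_self _⟩⟩⟩)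
      · obtain ⟨k, hk, hjk, hs, -⟩ := B10_sub hc hne
        obtain ⟨h1, h2, h3⟩ := ih k hk c (mem_cellsOf.2 hjk) hbc
        exact ⟨hs h1, hs h2, hs h3⟩
  gen := by
    intro m
    induction m using Nat.strong_induction_on with
    | _ m ih =>
      intro j hj hne
      obtain ⟨k, hk, hjk, hs, c, hc, hbc, h⟩ := B10_sub hj hne
      by_cases hjk' : j = k
      · subst hjk'
        refine ⟨c, mem_cellsOf.2 ?_, hbc, h⟩
        rw [hc]
        exact B10_self _
      · obtain ⟨c', hc', hb', h'⟩ := ih k hk j hjk hjk'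
        exact ⟨c', cellsOf_mono hs hc', hb', h'⟩
  size := by
    intro m B hB
    have key : ∀ k : ℕ, (if h : k < m then B10_f r σ x k else ∅).card ≤ B := by
      intro k
      by_cases h : k < m
      · rw [dif_pos h]
        exact hB k h
      · rw [dif_neg h, Finset.card_empty]
        exact Nat.zero_le _
    rw [B10_eq]
    unfold B10_step
    dsimp only
    by_cases hb : BadRow r σ x m
    · rw [if_pos hb]
      refine (Finset.card_insert_le _ _).trans ?_
      have h1 : (((rowCells σ m).filter (Bad r σ x)).biUnion fun c =>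
          (if h : rep r σ x c / σ < m then B10_f r σ x (rep r σ x c / σ) else ∅) ∪
          (if h : rep r σ x c / σ - 1 < m then B10_f r σ x (rep r σ x c / σ - 1) else ∅)).card ≤
          σ * (2 * B) := by
        refine (Finset.card_biUnion_le_card_mul _ _ (2 * B) fun c _ => ?_).trans ?_
        · refine (Finset.card_union_le _ _).trans ?_
          have h2 := key (rep r σ x c / σ)
          have h3 := key (rep r σ x c / σ - 1)
          omega
        · refine Nat.mul_le_mul_right _ ?_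
          refine (Finset.card_filter_le _ _).trans ?_
          rw [card_rowCells]
      have h2 := Finset.card_union_le (if h : m - 1 < m then B10_f r σ x (m - 1) else ∅)
        (((rowCells σ m).filter (Bad r σ x)).biUnion fun c =>
          (if h : rep r σ x c / σ < m then B10_f r σ x (rep r σ x c / σ) else ∅) ∪
          (if h : rep r σ x c / σ - 1 < m then B10_f r σ x (rep r σ x c / σ - 1) else ∅))
      have h3 := key (m - 1)
      have h4 : (2 * σ + 1) * B = B + σ * (2 * B) := by ring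
      rw [h4]
      omega
    · rw [if_neg hb, Finset.card_singleton]
      exact Nat.le_add_right _ _

theorem exists_clo (r : ℕ) (x : ℕ → α) : ∃ f, IsClo r σ x f := ⟨B10_f r σ x, B10_isClo r x⟩

theorem isClo_clo (r : ℕ) (x : ℕ → α) : IsClo r σ x (clo r σ x) := by
  unfold clo
  rw [dif_pos (exists_clo (σ := σ) r x)]
  exact (exists_clo (σ := σ) r x).choose_spec

end CAB
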