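import Pool.Agent.Lib.MP_eab41b_pr.B.A1

/-! Row B7: the identity (*). Bottoms: `j ∈ D` with `j = 0` or `j - 1 ∉ D`; there are as many as tops (the map
`j ↦ j + 1` is a bijection from the non-tops to the non-bottoms, so both have the same number).
`Σ g_j = Σ_bottoms σ + Σ_{j, j+1 ∈ D} g_{j+1}`, `Σ ν_j = Σ_tops ν_j + Σ_{j, j+1 ∈ D} ν_j`. -/

set_option autoImplicit false

set_option linter.unusedSectionVars false

open scoped Classical

namespace CAB

theorem num_star (σ : ℤ) (D : Finset ℕ) (g ν : ℕ → ℤ)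
    (hb : ∀ j ∈ D, (j = 0 ∨ j - 1 ∉ D) → g j = σ) :
    ∑ j ∈ D, (g j - ν j) = ∑ j ∈ tops D, (σ - ν j) +
      ∑ j ∈ D.filter (fun j => j + 1 ∈ D), (g (j + 1) - ν j) := by
  have hNB : D.filter (fun j => ¬ (j = 0 ∨ j - 1 ∉ D)) =
      (D.filter (fun j => j + 1 ∈ D)).image (fun j => j + 1) := by
    ext j
    simp only [Finset.mem_filter, Finset.mem_image, not_or, not_not]
    constructor
    · rintro ⟨h1, h2, h3⟩
      exact ⟨j - 1, ⟨h3, by rw [Nat.sub_add_cancel (by omega)]; exact h1⟩, by omega⟩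
    · rintro ⟨i, ⟨h1, h2⟩, rfl⟩
      exact ⟨h2, by omega, by simpa using h1⟩
  have hinj : Set.InjOn (fun j : ℕ => j + 1) (D.filter (fun j => j + 1 ∈ D) : Finset ℕ) :=
    fun a _ b _ h => Nat.succ_injective h
  have hcard : ((D.filter (fun j => (j = 0 ∨ j - 1 ∉ D))).card : ℤ) = ((tops D).card : ℤ) := by
    have h1 := Finset.card_filter_add_card_filter_not (s := D) (fun j => (j = 0 ∨ j - 1 ∉ D))
    have h2 := Finset.card_filter_add_card_filter_not (s := D) (fun j => j + 1 ∈ D)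
    rw [hNB, Finset.card_image_of_injOn hinj] at h1
    have h3 : tops D = D.filter (fun j => ¬ (j + 1 ∈ D)) := rfl
    rw [h3]
    omega
  have h1 : ∑ j ∈ D, g j = ∑ j ∈ D.filter (fun j => (j = 0 ∨ j - 1 ∉ D)), g j +
      ∑ j ∈ D.filter (fun j => ¬ (j = 0 ∨ j - 1 ∉ D)), g j :=
    (Finset.sum_filter_add_sum_filter_not D _ _).symm
  have h2 : ∑ j ∈ D.filter (fun j => (j = 0 ∨ j - 1 ∉ D)), g j = ((tops D).card : ℤ) * σ := by
    rw [Finset.sum_congr rfl (fun j hj => hb j (Finset.mem_filter.1 hj).1 (Finset.mem_filter.1 hj).2),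
      Finset.sum_const, ← hcard, nsmul_eq_mul]
  have h3 : ∑ j ∈ D.filter (fun j => ¬ (j = 0 ∨ j - 1 ∉ D)), g j =
      ∑ j ∈ D.filter (fun j => j + 1 ∈ D), g (j + 1) := by
    rw [hNB, Finset.sum_image hinj]
  have h4 : ∑ j ∈ D, ν j = ∑ j ∈ D.filter (fun j => j + 1 ∈ D), ν j + ∑ j ∈ tops D, ν j :=
    (Finset.sum_filter_add_sum_filter_not D (fun j => j + 1 ∈ D) _).symm
  rw [Finset.sum_sub_distrib, Finset.sum_sub_distrib, Finset.sum_sub_distrib, h1, h2, h3, h4,
    Finset.sum_const, nsmul_eq_mul]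
  ring

/-- every interval of `D` has a last element -/
theorem exists_top {D : Finset ℕ} {j : ℕ} (hj : j ∈ D) :
    ∃ J ∈ tops D, j ≤ J ∧ Finset.Icc j J ⊆ D := by
  have hex : ∃ k, j + k ∉ D := by
    refine ⟨D.sup id + 1, fun h => ?_⟩
    have : j + (D.sup id + 1) ≤ D.sup id := Finset.le_sup (f := id) h
    omega
  have h0 := Nat.find_spec hex
  have hmin : ∀ i < Nat.find hex, j + i ∈ D := fun i hi => not_not.1 (Nat.find_min hex hi)
  have hpos : 0 < Nat.find hex := by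
    rcases Nat.eq_zero_or_pos (Nat.find hex) with h | h
    · rw [h] at h0
      exact absurd hj h0
    · exact h
  refine ⟨j + (Nat.find hex - 1), ?_, by omega, ?_⟩
  · rw [tops, Finset.mem_filter]
    refine ⟨hmin _ (by omega), ?_⟩
    rw [show j + (Nat.find hex - 1) + 1 = j + Nat.find hex by omega]
    exact h0
  · intro i hi
    rw [Finset.mem_Icc] at hi
    have := hmin (i - j) (by omega)
    rwa [show j + (i - j) = i by omega] at this

/-- every interval of `D` has a first element -/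
theorem exists_bottom {D : Finset ℕ} {j : ℕ} (hj : j ∈ D) :
    ∃ h ∈ D, (h = 0 ∨ h - 1 ∉ D) ∧ h ≤ j ∧ Finset.Icc h j ⊆ D := by
  have hex : ∃ h, h ≤ j ∧ Finset.Icc h j ⊆ D := by
    refine ⟨j, le_refl j, fun i hi => ?_⟩
    rw [Finset.mem_Icc] at hi
    rw [show i = j by omega]
    exact hj
  obtain ⟨h1, h2⟩ := Nat.find_spec hex
  refine ⟨Nat.find hex, h2 (Finset.mem_Icc.2 ⟨le_refl _, h1⟩), ?_, h1, h2⟩
  by_contra hc
  rw [not_or, not_not] at hc
  refine Nat.find_min hex (m := Nat.find hex - 1) (by omega) ⟨by omega, fun i hi => ?_⟩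
  rw [Finset.mem_Icc] at hi
  rcases Nat.lt_or_ge i (Nat.find hex) with h | h
  · rw [show i = Nat.find hex - 1 by omega]
    exact hc.2
  · exact h2 (Finset.mem_Icc.2 ⟨h, hi.2⟩)

end CAB
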