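import Pool.Agent.Lib.MP_eab41b_pr.B.B3
import Pool.Agent.Lib.MP_eab41b_pr.B.B10
import Pool.Agent.Lib.MP_eab41b_pr.B.B7

/-! Row B11: closures of sets of rows (everything follows from `isClo_clo`).

Sketch. `cloS_top`: by `cloS_gen`; the case `j = c / σ - 1` is impossible (`σ ≤ c`, so `j + 1 = c / σ ∈ D`), as is
`j = rep c / σ - 1` (closed and `σ ≤ rep c`); in the remaining case use `nN_pos_of_rep`.
`cloS_card`: by `cloS_gen` every `j ∈ D \ R` is `m - 1`, `rep c / σ` or `rep c / σ - 1` for a bad row `m` and a cell `c` of it. -/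

set_option autoImplicit false

set_option linter.unusedSectionVars false

open scoped Classical

namespace CAB

variable {α : Type} {r σ : ℕ} [NeZero σ] {x : ℕ → α} {R : Finset ℕ}

private theorem b11_mem {j : ℕ} : j ∈ cloS r σ x R ↔ ∃ m ∈ R, j ∈ clo r σ x m := by
  unfold cloS
  exact Finset.mem_biUnion

theorem cloS_closed (r : ℕ) (x : ℕ → α) (R : Finset ℕ) : Closed r σ x (cloS r σ x R) := by
  intro c hc hb
  rw [mem_cellsOf] at hc
  obtain ⟨m, hm, hcm⟩ := b11_mem.1 hc
  obtain ⟨h1, h2, h3⟩ := (isClo_clo (σ := σ) r x).closed m c (mem_cellsOf.2 hcm) hb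
  exact ⟨b11_mem.2 ⟨m, hm, h1⟩, b11_mem.2 ⟨m, hm, h2⟩, b11_mem.2 ⟨m, hm, h3⟩⟩

theorem subset_cloS (r : ℕ) (x : ℕ → α) (R : Finset ℕ) : R ⊆ cloS r σ x R := by
  intro m hm
  exact b11_mem.2 ⟨m, hm, (isClo_clo (σ := σ) r x).self m⟩

theorem cloS_le {j : ℕ} (hj : j ∈ cloS r σ x R) : ∃ m ∈ R, j ≤ m := by
  obtain ⟨m, hm, hjm⟩ := b11_mem.1 hj
  exact ⟨m, hm, (isClo_clo (σ := σ) r x).le m j hjm⟩

theorem cloS_card_le {B : ℕ} (h : ∀ m ∈ R, (clo r σ x m).card ≤ B) :
    (cloS r σ x R).card ≤ R.card * B := by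
  unfold cloS
  exact Finset.card_biUnion_le_card_mul R (clo r σ x) B h

theorem cloS_gen {j : ℕ} (hj : j ∈ cloS r σ x R) (hR : j ∉ R) :
    ∃ c, c / σ ∈ cloS r σ x R ∧ Bad r σ x c ∧
      (j = c / σ - 1 ∨ (j = rep r σ x c / σ ∧ j < c / σ) ∨ j = rep r σ x c / σ - 1) := by
  obtain ⟨m, hm, hjm⟩ := b11_mem.1 hj
  have hne : j ≠ m := fun h => hR (h ▸ hm)
  obtain ⟨c, hc, hb, h⟩ := (isClo_clo (σ := σ) r x).gen m j hjm hne
  exact ⟨c, b11_mem.2 ⟨m, hm, mem_cellsOf.1 hc⟩, hb, h⟩

theorem cloS_top {j : ℕ} (hj : j ∈ tops (cloS r σ x R)) (hR : j ∉ R) :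
    0 < nN r σ x (cloS r σ x R) j := by
  unfold tops at hj
  rw [Finset.mem_filter] at hj
  obtain ⟨hjD, hj1⟩ := hj
  obtain ⟨c, hc, hb, h⟩ := cloS_gen hjD hR
  obtain ⟨hk, -, -, -, hs⟩ := bad_imp hb
  obtain ⟨-, h2, -⟩ := cloS_closed r x R c (mem_cellsOf.2 hc) hb
  rcases h with h | ⟨h, hlt⟩ | h
  · exfalso
    have h1 := row_pos hk.1
    apply hj1
    have : j + 1 = c / σ := by omega
    rw [this]
    exact hc
  · rw [h]
    exact nN_pos_of_rep (cloS_closed r x R) hc (h ▸ hlt)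
  · exfalso
    have h1 := row_pos hs
    apply hj1
    have : j + 1 = rep r σ x c / σ := by omega
    rw [this]
    exact h2

theorem cloS_card (r : ℕ) (x : ℕ → α) (R : Finset ℕ) :
    (cloS r σ x R).card ≤
      R.card + (1 + 2 * σ) * ((cloS r σ x R).filter (BadRow r σ x)).card := by
  set D := cloS r σ x R with hD
  let W : ℕ → Finset ℕ := fun m =>
    {m - 1} ∪ ((rowCells σ m).image (fun c => rep r σ x c / σ) ∪
      (rowCells σ m).image (fun c => rep r σ x c / σ - 1))
  have hsub : D ⊆ R ∪ (D.filter (BadRow r σ x)).biUnion W := by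
    intro j hj
    by_cases hR : j ∈ R
    · exact Finset.mem_union_left _ hR
    · apply Finset.mem_union_right
      obtain ⟨c, hc, hb, h⟩ := cloS_gen hj hR
      rw [Finset.mem_biUnion]
      refine ⟨c / σ, Finset.mem_filter.2 ⟨hc, c, mem_rowCells.2 rfl, hb⟩, ?_⟩
      rcases h with h | ⟨h, hlt⟩ | h
      · apply Finset.mem_union_left
        rw [Finset.mem_singleton]
        exact h
      · apply Finset.mem_union_right
        apply Finset.mem_union_left
        exact Finset.mem_image.2 ⟨c, mem_rowCells.2 rfl, h.symm⟩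
      · apply Finset.mem_union_right
        apply Finset.mem_union_right
        exact Finset.mem_image.2 ⟨c, mem_rowCells.2 rfl, h.symm⟩
  have hW : ∀ m ∈ D.filter (BadRow r σ x), (W m).card ≤ 1 + 2 * σ := by
    intro m _
    have h1 : (W m).card ≤ ({m - 1} : Finset ℕ).card + ((rowCells σ m).image (fun c => rep r σ x c / σ) ∪
        (rowCells σ m).image (fun c => rep r σ x c / σ - 1)).card := Finset.card_union_le _ _
    have h2 := Finset.card_union_le ((rowCells σ m).image (fun c => rep r σ x c / σ))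
      ((rowCells σ m).image (fun c => rep r σ x c / σ - 1))
    have h3 : ((rowCells σ m).image (fun c => rep r σ x c / σ)).card ≤ (rowCells σ m).card :=
      Finset.card_image_le
    have h4 : ((rowCells σ m).image (fun c => rep r σ x c / σ - 1)).card ≤ (rowCells σ m).card :=
      Finset.card_image_le
    rw [card_rowCells] at h3 h4
    rw [Finset.card_singleton] at h1
    omega
  calc D.card ≤ (R ∪ (D.filter (BadRow r σ x)).biUnion W).card := Finset.card_le_card hsub
    _ ≤ R.card + ((D.filter (BadRow r σ x)).biUnion W).card := Finset.card_union_le _ _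
    _ ≤ R.card + (D.filter (BadRow r σ x)).card * (1 + 2 * σ) := by
        gcongr
        exact Finset.card_biUnion_le_card_mul _ _ _ hW
    _ = R.card + (1 + 2 * σ) * (D.filter (BadRow r σ x)).card := by rw [mul_comm (1 + 2 * σ)]

end CAB
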