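import Pool.Agent.Lib.MP_eab41b_pr.B.A1

/-! Row B3: levels. (Elementary; `Lev v` is the `sup` of the rows of the cells of `D` with representative `v`;
for `v ∈ VV` this set of cells is nonempty, `Finset.exists_mem_eq_sup`.)

`bottom`: a bad cell `c` of row `j` would have `c / σ - 1 = j - 1 ∈ D` and `σ ≤ c`; so `rep c = c` for all cells
of row `j` and `f_j = σ`. If `j < Lev c` for `c` in row `j`: there is a cell `c'` of `D` in a later row
with `rep c' = c`; it is bad, so `rep c' / σ - 1 = j - 1 ∈ D`, and `σ ≤ rep c'`: contradiction. -/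

set_option autoImplicit false

set_option linter.unusedSectionVars false

open scoped Classical

namespace CAB

variable {α : Type} {r σ : ℕ} [NeZero σ] {x : ℕ → α} {D : Finset ℕ}

theorem mem_VV {v : ℕ} : v ∈ VV r σ x D ↔ ∃ c, c / σ ∈ D ∧ rep r σ x c = v := by
  unfold VV
  rw [Finset.mem_image]
  constructor
  · rintro ⟨c, hc, h⟩
    exact ⟨c, mem_cellsOf.1 hc, h⟩
  · rintro ⟨c, hc, h⟩
    exact ⟨c, mem_cellsOf.2 hc, h⟩

theorem mem_FF {j v : ℕ} : v ∈ FF r σ x j ↔ ∃ i : ZMod σ, rep r σ x (j * σ + i.val) = v := by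
  unfold FF
  rw [Finset.mem_image]
  constructor
  · rintro ⟨c, hc, h⟩
    refine ⟨(c : ZMod σ), ?_⟩
    rw [← mem_rowCells.1 hc, cell_eq, h]
  · rintro ⟨i, h⟩
    exact ⟨_, cell_mem j i, h⟩

theorem VV_subset (hD : Closed r σ x D) : VV r σ x D ⊆ cellsOf σ D := by
  intro v hv
  obtain ⟨c, hc, rfl⟩ := mem_VV.1 hv
  by_cases hb : Bad r σ x c
  · exact mem_cellsOf.2 (hD c (mem_cellsOf.2 hc) hb).2.1
  · have h1 : rep r σ x c = c := not_not.1 hb
    rw [h1]
    exact mem_cellsOf.2 hc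

theorem le_Lev {c : ℕ} (hc : c / σ ∈ D) : c / σ ≤ Lev r σ x D (rep r σ x c) := by
  unfold Lev
  exact Finset.le_sup (f := fun c => c / σ) (Finset.mem_filter.2 ⟨mem_cellsOf.2 hc, rfl⟩)

theorem Lev_cell {v : ℕ} (hv : v ∈ VV r σ x D) :
    ∃ c, c / σ ∈ D ∧ rep r σ x c = v ∧ c / σ = Lev r σ x D v := by
  obtain ⟨c, hc, h⟩ := mem_VV.1 hv
  have hne : ((cellsOf σ D).filter fun c => rep r σ x c = v).Nonempty :=
    ⟨c, Finset.mem_filter.2 ⟨mem_cellsOf.2 hc, h⟩⟩
  obtain ⟨c', hc', h'⟩ := Finset.exists_mem_eq_sup _ hne (fun c => c / σ)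
  obtain ⟨h1, h2⟩ := Finset.mem_filter.1 hc'
  exact ⟨c', mem_cellsOf.1 h1, h2, h'.symm⟩

theorem Lev_mem {v : ℕ} (hv : v ∈ VV r σ x D) : Lev r σ x D v ∈ D := by
  obtain ⟨c, hc, _, h⟩ := Lev_cell hv
  rw [← h]
  exact hc

theorem lev_filter_eq {j : ℕ} (hj : j ∈ D) :
    ((VV r σ x D).filter fun v => Lev r σ x D v = j) =
      (FF r σ x j).filter fun v => Lev r σ x D v = j := by
  ext v
  rw [Finset.mem_filter, Finset.mem_filter]
  constructor
  · rintro ⟨hv, h⟩
    refine ⟨?_, h⟩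
    obtain ⟨c, _, h2, h3⟩ := Lev_cell hv
    rw [h] at h3
    rw [mem_FF]
    refine ⟨(c : ZMod σ), ?_⟩
    rw [← h3, cell_eq, h2]
  · rintro ⟨hv, h⟩
    refine ⟨?_, h⟩
    obtain ⟨i, hi⟩ := mem_FF.1 hv
    rw [mem_VV]
    refine ⟨_, ?_, hi⟩
    rw [cell_div]
    exact hj

theorem fN_sum {j : ℕ} (hj : j ∈ D) : gN r σ x D j + nN r σ x D j = fN r σ x j := by
  unfold gN nN fN
  rw [lev_filter_eq hj, ← Finset.card_filter_add_card_filter_not (s := FF r σ x j)
    (p := fun v => Lev r σ x D v = j)]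
  congr 2
  refine Finset.filter_congr fun v hv => ?_
  obtain ⟨i, hi⟩ := mem_FF.1 hv
  have h1 : (j * σ + i.val) / σ ≤ Lev r σ x D (rep r σ x (j * σ + i.val)) :=
    le_Lev (by rw [cell_div]; exact hj)
  rw [cell_div, hi] at h1
  constructor
  · intro h
    exact h.ne'
  · intro h
    exact lt_of_le_of_ne h1 (fun h2 => h h2.symm)

theorem fN_le (r : ℕ) (x : ℕ → α) (j : ℕ) : fN r σ x j ≤ σ := by
  unfold fN FF
  exact Finset.card_image_le.trans (card_rowCells j).le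

theorem fN_pos (r : ℕ) (x : ℕ → α) (j : ℕ) : 1 ≤ fN r σ x j := by
  unfold fN
  exact Finset.card_pos.2 ⟨_, mem_FF.2 ⟨0, rfl⟩⟩

theorem nuN_le (y : ℕ → α) (j : ℕ) : nuN r σ y x D j ≤ gN r σ x D j := by
  unfold nuN gN
  exact (Finset.card_le_card Finset.sdiff_subset).trans Finset.card_image_le

private theorem B3_rep (hD : Closed r σ x D) {j : ℕ} (hj : j ∈ D) (hb : j = 0 ∨ j - 1 ∉ D)
    {c : ℕ} (hc : c / σ = j) : rep r σ x c = c := by
  by_contra hbad
  have h1 := hD c (mem_cellsOf.2 (hc ▸ hj)) hbad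
  have h2 := row_pos (bad_imp hbad).1.1
  rw [hc] at h1 h2
  rcases hb with hb | hb
  · omega
  · exact hb h1.1

theorem bottom (hD : Closed r σ x D) {j : ℕ} (hj : j ∈ D) (hb : j = 0 ∨ j - 1 ∉ D) :
    gN r σ x D j = σ := by
  have h1 := fN_sum (r := r) (σ := σ) (x := x) hj
  have h2 : fN r σ x j = σ := by
    unfold fN FF
    have h3 : (rowCells σ j).image (rep r σ x) = (rowCells σ j).image id :=
      Finset.image_congr fun c hc => B3_rep hD hj hb (mem_rowCells.1 hc)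
    rw [h3, Finset.image_id, card_rowCells]
  have h3 : nN r σ x D j = 0 := by
    unfold nN
    rw [Finset.card_eq_zero, Finset.filter_eq_empty_iff]
    intro v hv hlt
    obtain ⟨i, hi⟩ := mem_FF.1 hv
    rw [B3_rep hD hj hb (cell_div j i)] at hi
    have hvj : v / σ = j := by rw [← hi, cell_div]
    have hvV : v ∈ VV r σ x D := mem_VV.2 ⟨v, by rw [hvj]; exact hj, B3_rep hD hj hb hvj⟩
    obtain ⟨c', hc', h4, h5⟩ := Lev_cell hvV
    have hbad : Bad r σ x c' := by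
      intro h6
      rw [h4] at h6
      rw [← h5, ← h6, hvj] at hlt
      exact lt_irrefl _ hlt
    have h6 := (hD c' (mem_cellsOf.2 hc') hbad).2.2
    have h7 := row_pos (bad_imp hbad).2.2.2.2
    rw [h4, hvj] at h6 h7
    rcases hb with hb | hb
    · omega
    · exact hb h6
  omega

/-- a cell of `D` whose representative is in an earlier row -/
theorem nN_pos_of_rep (hD : Closed r σ x D) {c : ℕ} (hc : c / σ ∈ D)
    (h : rep r σ x c / σ < c / σ) : 0 < nN r σ x D (rep r σ x c / σ) := by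
  unfold nN
  refine Finset.card_pos.2 ⟨rep r σ x c, Finset.mem_filter.2 ⟨?_, ?_⟩⟩
  · rw [mem_FF]
    refine ⟨((rep r σ x c : ℕ) : ZMod σ), ?_⟩
    rw [cell_eq, rep_rep]
  · exact h.trans_le (le_Lev hc)

theorem nN_pos_imp {j : ℕ} (h : 0 < nN r σ x D j) :
    ∃ (i : ZMod σ) (c : ℕ), c / σ ∈ D ∧ j < c / σ ∧ rep r σ x c = rep r σ x (j * σ + i.val) := by
  unfold nN at h
  obtain ⟨v, hv⟩ := Finset.card_pos.1 h
  obtain ⟨h1, h2⟩ := Finset.mem_filter.1 hv
  obtain ⟨i, hi⟩ := mem_FF.1 h1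
  unfold Lev at h2
  obtain ⟨c, hc, h3⟩ := Finset.lt_sup_iff.1 h2
  obtain ⟨h4, h5⟩ := Finset.mem_filter.1 hc
  exact ⟨i, c, mem_cellsOf.1 h4, h3, by rw [h5, hi]⟩

theorem nN_max {j : ℕ} (hmax : ∀ j' ∈ D, j' ≤ j) : nN r σ x D j = 0 := by
  by_contra hne
  obtain ⟨i, c, hc, h1, _⟩ := nN_pos_imp (Nat.pos_of_ne_zero hne)
  exact absurd (hmax _ hc) (not_le.2 h1)

/-- two cells of one row with the same representative -/
theorem fN_lt_of_rep {j : ℕ} {i i' : ZMod σ} (hne : i ≠ i')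
    (h : rep r σ x (j * σ + i.val) = rep r σ x (j * σ + i'.val)) : fN r σ x j < σ := by
  refine lt_of_le_of_ne (fN_le r x j) fun heq => hne ?_
  have h1 : ((rowCells σ j).image (rep r σ x)).card = (rowCells σ j).card := by
    rw [card_rowCells]
    exact heq
  have h2 := Finset.card_image_iff.1 h1 (cell_mem j i) (cell_mem j i') h
  have h3 := congrArg (fun c : ℕ => (c : ZMod σ)) h2
  simp only [cell_cast] at h3
  exact h3

theorem rep_of_fN_lt {j : ℕ} (h : fN r σ x j < σ) :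
    ∃ i i' : ZMod σ, i ≠ i' ∧ rep r σ x (j * σ + i.val) = rep r σ x (j * σ + i'.val) := by
  by_contra hno
  push Not at hno
  have h1 : ((rowCells σ j).image (rep r σ x)).card = (rowCells σ j).card := by
    rw [Finset.card_image_iff]
    intro c hc c' hc' hcc
    have hc1 := mem_rowCells.1 (Finset.mem_coe.1 hc)
    have hc2 := mem_rowCells.1 (Finset.mem_coe.1 hc')
    by_contra hne
    refine hno (c : ZMod σ) (c' : ZMod σ) (fun h2 => hne (cell_ext (hc1.trans hc2.symm) h2)) ?_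
    have e1 := cell_eq (σ := σ) c
    have e2 := cell_eq (σ := σ) c'
    rw [hc1] at e1
    rw [hc2] at e2
    rw [e1, e2]
    exact hcc
  rw [card_rowCells] at h1
  exact h.ne h1

end CAB
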