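import Pool.Agent.Lib.MP_eab41b_pr.B.A4
import Pool.Agent.Lib.MP_eab41b_pr.B.B3

/-! Row B12: size.

Sketch: let `V = VV D`, `ρ = rk y V`. Call `v ∈ V` marked if `y v = y v'` for another `v' ∈ V`: at most `2 ρ` marked
(a fibre of size `a ≥ 2` contributes `a - 1 ≥ a / 2` to `ρ`), and every fibre has at most `1 + ρ` elements. For a bad cell `c` of `D`, by `lemmaK_par` with
`c' = rep c` (`c ≠ c'`) there is `k < r` with `rep (par k c) ≠ rep (par k c')`; both are in `V` (rows `c / σ - 1`,
`rep c / σ - 1` are in `D`) and have the same value (equal keys): `rep (par k c)` is marked. So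
`m ↦` (a cell `d` of row `m - 1` with `rep d` marked) is injective on the bad rows of `D`. The number of cells `d` of `D` with `rep d = v`
is at most `(1 + ρ)^r`: if there are two such cells then all have keys, one of them is bad, all rows `d / σ - 1` are in `D` (for the cell `d = v`: by
closedness at the bad one), and `d ↦ (k ↦ rep (par k d))` is injective (`lemmaK_par`) with values in `∏_k {w ∈ V | y w = key k}`. -/

set_option autoImplicit false

set_option linter.unusedSectionVars false

open scoped Classical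

namespace CAB

variable {α : Type} {r σ : ℕ} [NeZero σ] {x y : ℕ → α} {D : Finset ℕ}

theorem card_marked_le (y : ℕ → α) (V : Finset ℕ) :
    (V.filter fun v => ∃ v' ∈ V, v' ≠ v ∧ y v' = y v).card ≤ 2 * rk y V := by
  set M : Finset ℕ := V.filter fun v => ∃ v' ∈ V, v' ≠ v ∧ y v' = y v with hM
  set U : Finset ℕ := V.filter fun v => ¬ ∃ v' ∈ V, v' ≠ v ∧ y v' = y v with hU
  have h1 : M.card + U.card = V.card := Finset.card_filter_add_card_filter_not _
  have h2 : (V.image y).card ≤ (M.image y).card + U.card := by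
    have hsub : V.image y ⊆ M.image y ∪ U.image y := by
      intro a ha
      obtain ⟨v, hv, rfl⟩ := Finset.mem_image.1 ha
      by_cases h : ∃ v' ∈ V, v' ≠ v ∧ y v' = y v
      · exact Finset.mem_union_left _ (Finset.mem_image.2 ⟨v, Finset.mem_filter.2 ⟨hv, h⟩, rfl⟩)
      · exact Finset.mem_union_right _ (Finset.mem_image.2 ⟨v, Finset.mem_filter.2 ⟨hv, h⟩, rfl⟩)
    exact ((Finset.card_le_card hsub).trans (Finset.card_union_le _ _)).trans
      (Nat.add_le_add_left Finset.card_image_le _)
  have h3 : 2 * (M.image y).card ≤ M.card := by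
    rw [Finset.card_eq_sum_card_image y M]
    calc 2 * (M.image y).card = ∑ _b ∈ M.image y, 2 := by
          rw [Finset.sum_const, smul_eq_mul, mul_comm]
      _ ≤ ∑ b ∈ M.image y, (M.filter fun a => y a = b).card := by
          refine Finset.sum_le_sum fun b hb => ?_
          obtain ⟨v, hv, rfl⟩ := Finset.mem_image.1 hb
          obtain ⟨hvV, v', hv', hne, hy⟩ := Finset.mem_filter.1 hv
          have hv'M : v' ∈ M := Finset.mem_filter.2 ⟨hv', v, hvV, hne.symm, hy.symm⟩
          have hsub : ({v, v'} : Finset ℕ) ⊆ M.filter fun a => y a = y v := by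
            intro w hw
            rcases Finset.mem_insert.1 hw with rfl | hw
            · exact Finset.mem_filter.2 ⟨hv, rfl⟩
            · rw [Finset.mem_singleton.1 hw]
              exact Finset.mem_filter.2 ⟨hv'M, hy⟩
          have hc := Finset.card_le_card hsub
          rwa [Finset.card_pair hne.symm] at hc
  have h4 : (V.image y).card ≤ V.card := Finset.card_image_le
  unfold rk
  omega

theorem card_fibre_le (y : ℕ → α) (V : Finset ℕ) (a : α) :
    (V.filter fun v => y v = a).card ≤ 1 + rk y V := by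
  have h1 : (V.filter fun v => y v = a).card + (V.filter fun v => ¬ y v = a).card = V.card :=
    Finset.card_filter_add_card_filter_not _
  have h2 : (V.image y).card ≤ 1 + (V.filter fun v => ¬ y v = a).card := by
    have hsub : V.image y ⊆ {a} ∪ (V.filter fun v => ¬ y v = a).image y := by
      intro b hb
      obtain ⟨v, hv, rfl⟩ := Finset.mem_image.1 hb
      by_cases h : y v = a
      · exact Finset.mem_union_left _ (Finset.mem_singleton.2 h)
      · exact Finset.mem_union_right _ (Finset.mem_image.2 ⟨v, Finset.mem_filter.2 ⟨hv, h⟩, rfl⟩)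
    refine ((Finset.card_le_card hsub).trans (Finset.card_union_le _ _)).trans ?_
    rw [Finset.card_singleton]
    exact Nat.add_le_add_left Finset.card_image_le _
  have h4 : (V.image y).card ≤ V.card := Finset.card_image_le
  unfold rk
  omega

private theorem B12_val (hx : IsProc r σ y x) (c : ℕ) (k : Fin r) :
    y (rep r σ x (par σ k c)) = key r σ x c k := (hx (par σ k c)).symm

private theorem B12_mem (c : ℕ) (k : ℕ) (h : c / σ - 1 ∈ D) :
    rep r σ x (par σ k c) ∈ VV r σ x D := by
  refine mem_VV.2 ⟨par σ k c, ?_, rfl⟩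
  rw [par_div]
  exact h

private theorem B12_fib (hσ : σ < 2 * r) (hx : IsProc r σ y x) (hD : Closed r σ x D) (v : ℕ) :
    ((cellsOf σ D).filter fun d => rep r σ x d = v).card ≤ (1 + rk y (VV r σ x D)) ^ r := by
  set C : Finset ℕ := (cellsOf σ D).filter fun d => rep r σ x d = v with hC
  by_cases h1 : C.card ≤ 1
  · exact h1.trans (Nat.one_le_pow _ _ (by omega))
  push Not at h1
  -- every cell of `C` has a partner
  have hpart : ∀ d ∈ C, ∃ d' ∈ C, d' ≠ d := fun d _ =>
    Finset.exists_mem_ne h1 d
  have hkey : ∀ d ∈ C, ∀ d' ∈ C, d ≠ d' →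
      HasKey σ x d ∧ HasKey σ x d' ∧ key r σ x d = key r σ x d' := by
    intro d hd d' hd' hne
    have e1 := (Finset.mem_filter.1 hd).2
    have e2 := (Finset.mem_filter.1 hd').2
    exact rep_eq_imp (e1.trans e2.symm) hne
  have hrow : ∀ d ∈ C, σ ≤ d ∧ d / σ - 1 ∈ D := by
    intro d hd
    obtain ⟨hdD, hdv⟩ := Finset.mem_filter.1 hd
    obtain ⟨d', hd', hne⟩ := hpart d hd
    obtain ⟨hd'D, hd'v⟩ := Finset.mem_filter.1 hd'
    obtain ⟨hk1, -, -⟩ := hkey d hd d' hd' hne.symm
    refine ⟨hk1.1, ?_⟩
    by_cases hb : Bad r σ x d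
    · exact (hD d hdD hb).1
    · have h2 : rep r σ x d = d := not_not.1 hb
      have h3 : rep r σ x d' = d := by rw [hd'v, ← hdv, h2]
      have h4 : Bad r σ x d' := by
        unfold Bad
        rw [h3]
        exact hne.symm
      have h5 := (hD d' hd'D h4).2.2
      rwa [h3] at h5
  obtain ⟨d₀, hd₀⟩ : C.Nonempty := Finset.card_pos.1 (by omega)
  have hkey0 : ∀ d ∈ C, key r σ x d = key r σ x d₀ := by
    intro d hd
    by_cases h : d = d₀
    · rw [h]
    · exact (hkey d hd d₀ hd₀ h).2.2
  have hmaps : ∀ d ∈ C, (fun k : Fin r => rep r σ x (par σ k d)) ∈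
      Fintype.piFinset (fun k : Fin r => (VV r σ x D).filter fun w => y w = key r σ x d₀ k) := by
    intro d hd
    rw [Fintype.mem_piFinset]
    intro k
    refine Finset.mem_filter.2 ⟨B12_mem d k (hrow d hd).2, ?_⟩
    rw [B12_val hx, hkey0 d hd]
  have hinj : Set.InjOn (fun d : ℕ => fun k : Fin r => rep r σ x (par σ k d)) (C : Set ℕ) := by
    intro d hd d' hd' he
    by_contra hne
    exact lemmaK_par hσ (hrow d (Finset.mem_coe.1 hd)).1 (hrow d' (Finset.mem_coe.1 hd')).1 hne
      fun k hk => congrFun he ⟨k, hk⟩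
  have hcard := Finset.card_le_card_of_injOn _ hmaps hinj
  refine hcard.trans ?_
  rw [Fintype.card_piFinset]
  calc ∏ k : Fin r, ((VV r σ x D).filter fun w => y w = key r σ x d₀ k).card
      ≤ ∏ _k : Fin r, (1 + rk y (VV r σ x D)) :=
        Finset.prod_le_prod' fun k _ => card_fibre_le y (VV r σ x D) _
    _ = (1 + rk y (VV r σ x D)) ^ r := by
        rw [Finset.prod_const, Finset.card_univ, Fintype.card_fin]

theorem bad_le_Phi (hσ : σ < 2 * r) (hx : IsProc r σ y x) (hD : Closed r σ x D) :
    (D.filter (BadRow r σ x)).card ≤ Phi r (rk y (VV r σ x D)) := by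
  set V : Finset ℕ := VV r σ x D with hV
  set M : Finset ℕ := V.filter fun v => ∃ v' ∈ V, v' ≠ v ∧ y v' = y v with hM
  set C : Finset ℕ := (cellsOf σ D).filter fun d => rep r σ x d ∈ M with hC
  have hsub : D.filter (BadRow r σ x) ⊆ C.image fun d => d / σ + 1 := by
    intro m hm
    obtain ⟨hmD, c, hc, hb⟩ := Finset.mem_filter.1 hm
    have hcm : c / σ = m := mem_rowCells.1 hc
    have hcD : c ∈ cellsOf σ D := mem_cellsOf.2 (by rw [hcm]; exact hmD)
    obtain ⟨hk1, hk2, hlt, hkk, hσr⟩ := bad_imp hb
    obtain ⟨hD1, -, hD3⟩ := hD c hcD hb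
    have hex : ∃ k, k < r ∧ rep r σ x (par σ k c) ≠ rep r σ x (par σ k (rep r σ x c)) := by
      by_contra hcon
      push Not at hcon
      exact lemmaK_par hσ hk1.1 hσr hlt.ne' hcon
    obtain ⟨k, hk, hne⟩ := hex
    have hv := B12_val hx c ⟨k, hk⟩
    have hv' := B12_val hx (rep r σ x c) ⟨k, hk⟩
    have hmem : rep r σ x (par σ k c) ∈ M := by
      refine Finset.mem_filter.2 ⟨B12_mem c k hD1, rep r σ x (par σ k (rep r σ x c)),
        B12_mem (rep r σ x c) k hD3, hne.symm, ?_⟩
      exact hv'.trans ((congrFun hkk _).trans hv.symm)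
    refine Finset.mem_image.2 ⟨par σ k c, Finset.mem_filter.2 ⟨?_, hmem⟩, ?_⟩
    · rw [mem_cellsOf, par_div]
      exact hD1
    · have h1 := row_pos (σ := σ) hk1.1
      have h2 := par_div (σ := σ) k c
      simp only [h2]
      omega
  have h1 : (D.filter (BadRow r σ x)).card ≤ C.card :=
    (Finset.card_le_card hsub).trans Finset.card_image_le
  have h2 : C.card ≤ (1 + rk y V) ^ r * M.card := by
    refine Finset.card_le_mul_card_image_of_maps_to (f := rep r σ x)
      (fun d hd => (Finset.mem_filter.1 hd).2) _ fun v _ => ?_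
    refine (Finset.card_le_card ?_).trans (B12_fib hσ hx hD v)
    intro d hd
    obtain ⟨hd1, hd2⟩ := Finset.mem_filter.1 hd
    exact Finset.mem_filter.2 ⟨(Finset.mem_filter.1 hd1).1, hd2⟩
  have h3 : M.card ≤ 2 * rk y V := card_marked_le y V
  unfold Phi
  calc (D.filter (BadRow r σ x)).card ≤ (1 + rk y V) ^ r * M.card := h1.trans h2
    _ ≤ (1 + rk y V) ^ r * (2 * rk y V) := Nat.mul_le_mul_left _ h3
    _ = 2 * rk y V * (1 + rk y V) ^ r := mul_comm _ _

end CAB
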