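import Pool.Agent.Lib.MP_eab41b_pr.B.B3
import Pool.Agent.Lib.MP_eab41b_pr.B.B7

/-! Row B13: covering `D` by neighbourhoods of the tops (elementary).

Sketch of `cover`: for `j ∈ D` take its top `J` (`exists_top`) and `a`; then `j` and `a` are in the interval
`[min a j, J] ⊆ D`, so `|j - a| < D.card`. -/

set_option autoImplicit false

set_option linter.unusedSectionVars false

open scoped Classical

namespace CAB

variable {α : Type} {r σ : ℕ} [NeZero σ] {x y : ℕ → α} {D : Finset ℕ}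

theorem rk_mono {y : ℕ → α} {C C' : Finset ℕ} (h : C ⊆ C') : rk y C ≤ rk y C' := by
  unfold rk
  have h1 : (C'.image y).card ≤ (C.image y).card + (C' \ C).card := by
    have h2 : C'.image y ⊆ C.image y ∪ (C' \ C).image y := by
      intro v hv
      rw [Finset.mem_image] at hv
      obtain ⟨c, hc, rfl⟩ := hv
      rw [Finset.mem_union, Finset.mem_image, Finset.mem_image]
      by_cases hcC : c ∈ C
      · exact Or.inl ⟨c, hcC, rfl⟩
      · exact Or.inr ⟨c, Finset.mem_sdiff.2 ⟨hc, hcC⟩, rfl⟩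
    exact (Finset.card_le_card h2).trans ((Finset.card_union_le _ _).trans
      (Nat.add_le_add_left Finset.card_image_le _))
  have h3 : (C' \ C).card + C.card = C'.card := Finset.card_sdiff_add_card_eq_card h
  have h4 : (C.image y).card ≤ C.card := Finset.card_image_le
  omega

theorem Phi_mono {ρ ρ' : ℕ} (r : ℕ) (h : ρ ≤ ρ') : Phi r ρ ≤ Phi r ρ' := by
  unfold Phi
  exact Nat.mul_le_mul (Nat.mul_le_mul_left 2 h) (Nat.pow_le_pow_left (Nat.add_le_add_left h 1) r)

theorem nb_mono {T N N' : ℕ} {A A' : Finset ℕ} (hN : N ≤ N') (hA : A ⊆ A') :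
    nb T N A ⊆ nb T N' A' := by
  intro m hm
  unfold nb at hm ⊢
  rw [Finset.mem_filter] at hm ⊢
  obtain ⟨h1, a, ha, h2, h3⟩ := hm
  exact ⟨h1, a, hA ha, by omega, by omega⟩

theorem card_nb_le (T N : ℕ) (A : Finset ℕ) : (nb T N A).card ≤ A.card * (2 * N + 1) := by
  have h1 : nb T N A ⊆ A.biUnion fun a => Finset.Icc (a - N) (a + N) := by
    intro m hm
    unfold nb at hm
    rw [Finset.mem_filter] at hm
    obtain ⟨h1, a, ha, h2, h3⟩ := hm
    rw [Finset.mem_biUnion]
    exact ⟨a, ha, Finset.mem_Icc.2 ⟨by omega, h2⟩⟩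
  refine (Finset.card_le_card h1).trans (Finset.card_biUnion_le_card_mul _ _ _ fun a _ => ?_)
  rw [Nat.card_Icc]
  omega

theorem cover {D A : Finset ℕ} {T : ℕ} (hD : D ⊆ Finset.range T)
    (h : ∀ J ∈ tops D, ∃ a ∈ A, a ≤ J ∧ Finset.Icc a J ⊆ D) : D ⊆ nb T D.card A := by
  intro j hj
  obtain ⟨J, hJ, hjJ, hsub⟩ := exists_top hj
  obtain ⟨a, ha, haJ, hsub'⟩ := h J hJ
  have h1 := Finset.card_le_card hsub
  have h2 := Finset.card_le_card hsub'
  rw [Nat.card_Icc] at h1 h2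
  unfold nb
  rw [Finset.mem_filter]
  exact ⟨hD hj, a, ha, by omega, by omega⟩

theorem rk_cover (hD : Closed r σ x D) {A : Finset ℕ} {T N : ℕ} (hDT : D ⊆ Finset.range T)
    (hN : D.card ≤ N) (h : ∀ J ∈ tops D, ∃ a ∈ A, a ≤ J ∧ Finset.Icc a J ⊆ D) :
    rk y (VV r σ x D) ≤ rk y (cellsOf σ (nb T N A)) :=
  rk_mono ((VV_subset hD).trans (cellsOf_mono
    ((cover hDT h).trans (nb_mono hN (Finset.Subset.refl A)))))

end CAB
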