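import Pool.Agent.Lib.MP_eab41b_pr.B.B3

/-! Row B6: the rank as a sum over levels.

Sketch: `VV` is partitioned by `Lev` (with values in `D`, `Lev_mem`): `Finset.card_eq_sum_card_fiberwise`. The set of values
`y '' VV` is partitioned by the largest level where a value occurs: the value `a` belongs to the part `j` iff `a` is `y v`
with `Lev v = j` and not `y w` with `Lev w > j`. -/

set_option autoImplicit false

set_option linter.unusedSectionVars false

open scoped Classical

namespace CAB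

variable {α : Type} {r σ : ℕ} [NeZero σ] {x : ℕ → α} {D : Finset ℕ}

private theorem b6_image (V D : Finset ℕ) (L : ℕ → ℕ) (y : ℕ → α) (hL : ∀ v ∈ V, L v ∈ D) :
    (V.image y).card = ∑ j ∈ D, (((V.filter fun v => L v = j).image y) \
      ((V.filter fun v => j < L v).image y)).card := by
  have hM : ∀ a ∈ V.image y, ((V.filter fun v => y v = a).sup L) ∈ D := by
    intro a ha
    obtain ⟨v, hv, rfl⟩ := Finset.mem_image.1 ha
    have hne : (V.filter fun w => y w = y v).Nonempty := ⟨v, Finset.mem_filter.2 ⟨hv, rfl⟩⟩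
    obtain ⟨w, hw, hw2⟩ := Finset.exists_mem_eq_sup _ hne L
    rw [hw2]
    exact hL w (Finset.mem_filter.1 hw).1
  rw [Finset.card_eq_sum_card_fiberwise hM]
  refine Finset.sum_congr rfl fun j _ => congrArg Finset.card ?_
  ext a
  rw [Finset.mem_filter, Finset.mem_sdiff]
  constructor
  · rintro ⟨ha, hs⟩
    obtain ⟨v, hv, rfl⟩ := Finset.mem_image.1 ha
    have hne : (V.filter fun w => y w = y v).Nonempty := ⟨v, Finset.mem_filter.2 ⟨hv, rfl⟩⟩
    obtain ⟨w, hw, hw2⟩ := Finset.exists_mem_eq_sup _ hne L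
    have hw3 := Finset.mem_filter.1 hw
    refine ⟨Finset.mem_image.2 ⟨w, Finset.mem_filter.2 ⟨hw3.1, by rw [← hs, hw2]⟩, hw3.2⟩, ?_⟩
    intro hb
    obtain ⟨u, hu, hu2⟩ := Finset.mem_image.1 hb
    have hu3 := Finset.mem_filter.1 hu
    have := Finset.le_sup (f := L) (Finset.mem_filter.2 ⟨hu3.1, hu2⟩ : u ∈ V.filter fun w => y w = y v)
    omega
  · rintro ⟨ha, hb⟩
    obtain ⟨v, hv, rfl⟩ := Finset.mem_image.1 ha
    have hv2 := Finset.mem_filter.1 hv
    refine ⟨Finset.mem_image.2 ⟨v, hv2.1, rfl⟩, le_antisymm ?_ ?_⟩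
    · refine Finset.sup_le fun w hw => ?_
      have hw2 := Finset.mem_filter.1 hw
      by_contra hlt
      exact hb (Finset.mem_image.2 ⟨w, Finset.mem_filter.2 ⟨hw2.1, by omega⟩, hw2.2⟩)
    · have := Finset.le_sup (f := L) (Finset.mem_filter.2 ⟨hv2.1, rfl⟩ : v ∈ V.filter fun w => y w = y v)
      rw [hv2.2] at this
      exact this

theorem card_VV : (VV r σ x D).card = ∑ j ∈ D, gN r σ x D j :=
  Finset.card_eq_sum_card_fiberwise fun _ hv => Lev_mem hv

theorem card_image_VV (y : ℕ → α) :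
    ((VV r σ x D).image y).card = ∑ j ∈ D, nuN r σ y x D j :=
  b6_image (VV r σ x D) D (Lev r σ x D) y fun _ hv => Lev_mem hv

theorem rk_eq_sum (y : ℕ → α) :
    (rk y (VV r σ x D) : ℤ) = ∑ j ∈ D, ((gN r σ x D j : ℤ) - nuN r σ y x D j) := by
  have h1 : ((VV r σ x D).image y).card ≤ (VV r σ x D).card := Finset.card_image_le
  unfold rk
  rw [Nat.cast_sub h1, card_image_VV, card_VV, Finset.sum_sub_distrib]
  push_cast
  rfl

/-- the representatives with level `> t` -/
theorem card_above (t : ℕ) :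
    ((VV r σ x D).filter fun v => t < Lev r σ x D v).card =
      ∑ j ∈ D.filter (fun j => t < j), gN r σ x D j := by
  have h : ∀ v ∈ (VV r σ x D).filter fun v => t < Lev r σ x D v,
      Lev r σ x D v ∈ D.filter fun j => t < j := fun v hv => by
    have hv2 := Finset.mem_filter.1 hv
    exact Finset.mem_filter.2 ⟨Lev_mem hv2.1, hv2.2⟩
  rw [Finset.card_eq_sum_card_fiberwise h]
  refine Finset.sum_congr rfl fun j hj => congrArg Finset.card ?_
  have hj2 := (Finset.mem_filter.1 hj).2
  ext v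
  simp only [Finset.mem_filter]
  constructor
  · rintro ⟨⟨h1, _⟩, h3⟩
    exact ⟨h1, h3⟩
  · rintro ⟨h1, h3⟩
    exact ⟨⟨h1, by rw [h3]; exact hj2⟩, h3⟩

theorem card_image_above (y : ℕ → α) (t : ℕ) :
    (((VV r σ x D).filter fun v => t < Lev r σ x D v).image y).card =
      ∑ j ∈ D.filter (fun j => t < j), nuN r σ y x D j := by
  have h : ∀ v ∈ (VV r σ x D).filter fun v => t < Lev r σ x D v,
      Lev r σ x D v ∈ D.filter fun j => t < j := fun v hv => by
    have hv2 := Finset.mem_filter.1 hv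
    exact Finset.mem_filter.2 ⟨Lev_mem hv2.1, hv2.2⟩
  rw [b6_image _ _ (Lev r σ x D) y h]
  refine Finset.sum_congr rfl fun j hj => ?_
  have hj2 := (Finset.mem_filter.1 hj).2
  have e1 : (((VV r σ x D).filter fun v => t < Lev r σ x D v).filter fun v => Lev r σ x D v = j) =
      (VV r σ x D).filter fun v => Lev r σ x D v = j := by
    ext v
    simp only [Finset.mem_filter]
    constructor
    · rintro ⟨⟨h1, _⟩, h3⟩
      exact ⟨h1, h3⟩
    · rintro ⟨h1, h3⟩
      exact ⟨⟨h1, by rw [h3]; exact hj2⟩, h3⟩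
  have e2 : (((VV r σ x D).filter fun v => t < Lev r σ x D v).filter fun v => j < Lev r σ x D v) =
      (VV r σ x D).filter fun v => j < Lev r σ x D v := by
    ext v
    simp only [Finset.mem_filter]
    constructor
    · rintro ⟨⟨h1, _⟩, h3⟩
      exact ⟨h1, h3⟩
    · rintro ⟨h1, h3⟩
      exact ⟨⟨h1, hj2.trans h3⟩, h3⟩
  rw [e1, e2]
  rfl

theorem inj_above {y : ℕ → α} {t : ℕ}
    (h : ∀ j ∈ D, t < j → gN r σ x D j = nuN r σ y x D j) :
    ∀ v ∈ VV r σ x D, ∀ v' ∈ VV r σ x D, t < Lev r σ x D v → t < Lev r σ x D v' →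
      y v = y v' → v = v' := by
  have hc : (((VV r σ x D).filter fun v => t < Lev r σ x D v).image y).card =
      ((VV r σ x D).filter fun v => t < Lev r σ x D v).card := by
    rw [card_image_above, card_above]
    refine Finset.sum_congr rfl fun j hj => ?_
    have hj2 := Finset.mem_filter.1 hj
    exact (h j hj2.1 hj2.2).symm
  have hi := Finset.card_image_iff.1 hc
  intro v hv v' hv' h1 h2 he
  exact hi (Finset.mem_coe.2 (Finset.mem_filter.2 ⟨hv, h1⟩)) (Finset.mem_coe.2 (Finset.mem_filter.2 ⟨hv', h2⟩)) he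

end CAB
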