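import Pool.Agent.Lib.MP_eab41b_pr.B.B7

/-! Row B8: consequences of the local inequalities.

Sketch. `step`: if `n_{j+1} > 0` use `three`; otherwise `g_{j+1} = f_{j+1}`, which is `σ ≥ ν_j` or, by `four`, `≥ ν_j`.
`tight_pair`: for a top `j` (in fact any `j ∈ D`) with `n_j > 0`: `j` is not a bottom (there `g = σ`, so `n = 0`), so `j = i + 1` with
`i ∈ D`, and `(σ - ν_j) + (g_j - ν_i) = (σ - ν_i) + (g_j - ν_j) ≥ r` by `three`, since `g_j ≤ σ - 1`.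
`C`: `star`; all terms are `≥ 0`; over `[j0, J0]` the sum telescopes:
`(σ - ν_{J0}) + Σ_{j0 ≤ j < J0} (g_{j+1} - ν_j) = (σ - ν_{j0}) + Σ_{j0 < j ≤ J0} (g_j - ν_j)`; the pairs of the other tops use other terms.
`R` is the same without the interval. -/

set_option autoImplicit false

set_option linter.unusedSectionVars false

open scoped Classical

namespace CAB

variable {r σ : ℕ} {D : Finset ℕ} {g ν n f : ℕ → ℕ}

theorem Loc.star (h : Loc r σ D g ν n f) :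
    ∑ j ∈ D, ((g j : ℤ) - ν j) = ∑ j ∈ tops D, ((σ : ℤ) - ν j) +
      ∑ j ∈ D.filter (fun j => j + 1 ∈ D), ((g (j + 1) : ℤ) - ν j) := by
  exact num_star (σ : ℤ) D (fun j => (g j : ℤ)) (fun j => (ν j : ℤ))
    (fun j hj hb => by simp only [h.bot j hj hb])

theorem Loc.step (h : Loc r σ D g ν n f) (hr : 2 ≤ r) (hσ : r < σ) {j : ℕ} (hj : j ∈ D)
    (hj1 : j + 1 ∈ D) : ν j ≤ g (j + 1) := by
  rcases Nat.eq_zero_or_pos (n (j + 1)) with h0 | h0
  · have h1 := h.sum (j + 1) hj1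
    by_cases hf : f (j + 1) < σ
    · have h2 := h.four j hj hj1 hf
      omega
    · have h2 := h.fle j hj
      have h3 := h.sum j hj
      have h4 := h.nu j hj
      omega
  · rcases h.three j hj hj1 h0 with h1 | h1 <;> omega

theorem Loc.tight_pair (h : Loc r σ D g ν n f) (hr : 2 ≤ r) (hσ : r < σ) {j : ℕ} (hj : j ∈ D)
    (hn : 0 < n j) : ∃ i, i + 1 = j ∧ i ∈ D ∧ (r : ℤ) ≤ (σ : ℤ) - ν i ∧
      (r : ℤ) ≤ ((σ : ℤ) - ν j) + ((g j : ℤ) - ν i) := by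
  have hs := h.sum j hj
  have hf := h.fle j hj
  have hnu := h.nu j hj
  have hnb : ¬ (j = 0 ∨ j - 1 ∉ D) := by
    intro hb
    have := h.bot j hj hb
    omega
  push Not at hnb
  obtain ⟨hj0, hjD⟩ := hnb
  have e : j - 1 + 1 = j := by omega
  have h3 := h.three (j - 1) hjD (by rw [e]; exact hj) (by rw [e]; exact hn)
  rw [e] at h3
  refine ⟨j - 1, e, hjD, ?_, ?_⟩
  · rcases h3 with h3 | h3 <;> omega
  · rcases h3 with h3 | h3 <;> omega

private theorem Loc.gen (h : Loc r σ D g ν n f) (hr : 2 ≤ r) (hσ : r < σ) (T T0 I : Finset ℕ)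
    (hT : T ⊆ tops D) (hTn : ∀ j ∈ T, 0 < n j) (hT0 : T0 ⊆ tops D) (hd : Disjoint T0 T)
    (hI : I ⊆ D.filter (fun j => j + 1 ∈ D)) (hIT : ∀ i ∈ I, i + 1 ∉ T) :
    ∑ j ∈ T0, ((σ : ℤ) - ν j) + ∑ j ∈ I, ((g (j + 1) : ℤ) - ν j) + r * (T.card : ℤ) ≤
      ∑ j ∈ D, ((g j : ℤ) - ν j) := by
  have hTD : ∀ j ∈ T, j ∈ D := fun j hj => (Finset.mem_filter.1 (hT hj)).1
  have htp : ∀ j ∈ T, j - 1 + 1 = j ∧ j - 1 ∈ D ∧ (r : ℤ) ≤ ((σ : ℤ) - ν j) +
      ((g (j - 1 + 1) : ℤ) - ν (j - 1)) := by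
    intro j hj
    obtain ⟨i, hi, hiD, _, h2⟩ := h.tight_pair hr hσ (hTD j hj) (hTn j hj)
    subst hi
    exact ⟨by omega, by simpa using hiD, by simpa using h2⟩
  have hpos1 : ∀ j ∈ tops D, 0 ≤ (σ : ℤ) - ν j := by
    intro j hj
    have hjD := (Finset.mem_filter.1 hj).1
    have h2 := h.fle j hjD
    have h3 := h.sum j hjD
    have h4 := h.nu j hjD
    omega
  have hpos2 : ∀ j ∈ D.filter (fun j => j + 1 ∈ D), 0 ≤ (g (j + 1) : ℤ) - ν j := by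
    intro j hj
    obtain ⟨h1, h2⟩ := Finset.mem_filter.1 hj
    have := h.step hr hσ h1 h2
    omega
  have hinj : Set.InjOn (fun j : ℕ => j - 1) (T : Set ℕ) := by
    intro a ha b hb hab
    have h1 := (htp a ha).1
    have h2 := (htp b hb).1
    simp only at hab
    omega
  have hdI : Disjoint I (T.image (fun j => j - 1)) := by
    rw [Finset.disjoint_left]
    intro i hi hi'
    obtain ⟨j, hj, hji⟩ := Finset.mem_image.1 hi'
    have h1 := (htp j hj).1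
    apply hIT i hi
    rw [← hji, h1]
    exact hj
  have hA : ∑ j ∈ T0, ((σ : ℤ) - ν j) + ∑ j ∈ T, ((σ : ℤ) - ν j) ≤
      ∑ j ∈ tops D, ((σ : ℤ) - ν j) := by
    rw [← Finset.sum_union hd]
    exact Finset.sum_le_sum_of_subset_of_nonneg (Finset.union_subset hT0 hT)
      (fun j hj _ => hpos1 j hj)
  have hB : ∑ j ∈ I, ((g (j + 1) : ℤ) - ν j) + ∑ j ∈ T, ((g (j - 1 + 1) : ℤ) - ν (j - 1)) ≤
      ∑ j ∈ D.filter (fun j => j + 1 ∈ D), ((g (j + 1) : ℤ) - ν j) := by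
    rw [← Finset.sum_image (f := fun i => ((g (i + 1) : ℤ) - ν i)) hinj, ← Finset.sum_union hdI]
    refine Finset.sum_le_sum_of_subset_of_nonneg (Finset.union_subset hI ?_)
      (fun j hj _ => hpos2 j hj)
    intro i hi
    obtain ⟨j, hj, rfl⟩ := Finset.mem_image.1 hi
    obtain ⟨h1, h2, _⟩ := htp j hj
    exact Finset.mem_filter.2 ⟨h2, by rw [h1]; exact hTD j hj⟩
  have hC : (r : ℤ) * (T.card : ℤ) ≤ ∑ j ∈ T, ((σ : ℤ) - ν j) +
      ∑ j ∈ T, ((g (j - 1 + 1) : ℤ) - ν (j - 1)) := by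
    rw [← Finset.sum_add_distrib]
    calc (r : ℤ) * (T.card : ℤ) = ∑ _j ∈ T, (r : ℤ) := by
          rw [Finset.sum_const, nsmul_eq_mul, mul_comm]
      _ ≤ _ := Finset.sum_le_sum (fun j hj => (htp j hj).2.2)
  rw [h.star]
  linarith

theorem Loc.C (h : Loc r σ D g ν n f) (hr : 2 ≤ r) (hσ : r < σ) {j0 J0 : ℕ}
    (hI : Finset.Icc j0 J0 ⊆ D) (h01 : j0 ≤ J0) (hJ : J0 + 1 ∉ D) :
    ((σ : ℤ) - ν j0) + r * (((tops D).filter fun j => j ≠ J0 ∧ 0 < n j).card : ℤ) ≤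
      ∑ j ∈ D, ((g j : ℤ) - ν j) := by
  have hg := h.gen hr hσ ((tops D).filter fun j => j ≠ J0 ∧ 0 < n j) {J0} (Finset.Ico j0 J0)
    (Finset.filter_subset _ _) (fun j hj => (Finset.mem_filter.1 hj).2.2) ?_ ?_ ?_ ?_
  · have htel : (ν J0 : ℤ) - ν j0 ≤ ∑ j ∈ Finset.Ico j0 J0, ((g (j + 1) : ℤ) - ν j) := by
      have e1 : ∑ j ∈ Finset.Ico j0 J0, ((ν (j + 1) : ℤ) - ν j) = (ν J0 : ℤ) - ν j0 :=
        Finset.sum_Ico_sub (fun j => (ν j : ℤ)) h01
      rw [← e1]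
      apply Finset.sum_le_sum
      intro j hj
      obtain ⟨h1, h2⟩ := Finset.mem_Ico.1 hj
      have := h.nu (j + 1) (hI (Finset.mem_Icc.2 ⟨by omega, by omega⟩))
      omega
    rw [Finset.sum_singleton] at hg
    linarith
  · intro j hj
    rw [Finset.mem_singleton] at hj
    subst hj
    exact Finset.mem_filter.2 ⟨hI (Finset.mem_Icc.2 ⟨h01, le_rfl⟩), hJ⟩
  · rw [Finset.disjoint_singleton_left, Finset.mem_filter]
    rintro ⟨_, h1, _⟩
    exact h1 rfl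
  · intro j hj
    obtain ⟨h1, h2⟩ := Finset.mem_Ico.1 hj
    exact Finset.mem_filter.2 ⟨hI (Finset.mem_Icc.2 ⟨h1, by omega⟩),
      hI (Finset.mem_Icc.2 ⟨by omega, by omega⟩)⟩
  · intro i hi hiT
    obtain ⟨h1, h2⟩ := Finset.mem_Ico.1 hi
    obtain ⟨h3, h4, _⟩ := Finset.mem_filter.1 hiT
    have h5 := (Finset.mem_filter.1 h3).2
    exact h5 (hI (Finset.mem_Icc.2 ⟨by omega, by omega⟩))

theorem Loc.R (h : Loc r σ D g ν n f) (hr : 2 ≤ r) (hσ : r < σ) :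
    (r : ℤ) * (((tops D).filter fun j => 0 < n j).card : ℤ) ≤ ∑ j ∈ D, ((g j : ℤ) - ν j) := by
  have hg := h.gen hr hσ ((tops D).filter fun j => 0 < n j) ∅ ∅
    (Finset.filter_subset _ _) (fun j hj => (Finset.mem_filter.1 hj).2) (Finset.empty_subset _)
    (Finset.disjoint_empty_left _) (Finset.empty_subset _)
    (fun i hi => absurd hi (Finset.notMem_empty i))
  simpa using hg

end CAB
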