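import Pool.Agent.Lib.MP_eab41b_pr.B.B5
import Pool.Agent.Lib.MP_eab41b_pr.B.B6
import Pool.Agent.Lib.MP_eab41b_pr.B.B8
import Pool.Agent.Lib.MP_eab41b_pr.B.B11
import Pool.Agent.Lib.MP_eab41b_pr.B.B12
import Pool.Agent.Lib.MP_eab41b_pr.B.B13

/-! Row B14a: a large closure (VIOL).

Sketch. `viol`: take the least `m` with `bndA ≤ |clo m|`; `D = cloS {m} = clo m`; `|D| ≤ bndB` (`IsClo.size`); by `cloS_card` and `bad_le_Phi`:
`|D| ≤ 1 + (1 + 2σ) Φ(ρ)`, `ρ = rk y (VV D)`, so `ρ > K` (`Phi_mono`). `H' = (tops D) \ {m}`; these tops have `n > 0` (`cloS_top`), so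
`ρ ≥ r |H'|` (`Loc.R`, `isLoc`, `rk_eq_sum`). `rk_cover` with `A = {m} ∪ H'` (`a = J`). `D ⊆ range T` since all its elements are `≤ m`. -/

set_option autoImplicit false

set_option linter.unusedSectionVars false

open scoped Classical

namespace CAB

variable {α : Type} {r σ : ℕ} [NeZero σ] {x y : ℕ → α} {D : Finset ℕ}

theorem viol (hr : 2 ≤ r) (hσ1 : r < σ) (hσ2 : σ < 2 * r) (K : ℕ) (hx : IsProc r σ y x) {T m : ℕ}
    (hm : m < T) (h : bndA r σ K ≤ (clo r σ x m).card) :
    ∃ m < T, ∃ H ⊆ Finset.range T, H.card ≤ bndB r σ K ∧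
      max (K + 1) (r * H.card) ≤ rk y (cellsOf σ (nb T (bndB r σ K) ({m} ∪ H))) := by
  have hex : ∃ m, bndA r σ K ≤ (clo r σ x m).card := ⟨m, h⟩
  set m0 := Nat.find hex with hm0
  have hm0A : bndA r σ K ≤ (clo r σ x m0).card := Nat.find_spec hex
  have hmin : ∀ m' < m0, (clo r σ x m').card ≤ bndA r σ K := by
    intro m' hm'
    have := Nat.find_min hex hm'
    omega
  have hm0T : m0 < T := lt_of_le_of_lt (Nat.find_min' hex h) hm
  have hsing : cloS r σ x {m0} = clo r σ x m0 := by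
    unfold cloS
    rw [Finset.singleton_biUnion]
  have hD : Closed r σ x (cloS r σ x {m0}) := cloS_closed r x {m0}
  have hDT : cloS r σ x {m0} ⊆ Finset.range T := by
    intro j hj
    obtain ⟨m', hm', hjm⟩ := cloS_le hj
    rw [Finset.mem_singleton] at hm'
    exact Finset.mem_range.2 (by omega)
  have hDc : (cloS r σ x {m0}).card ≤ bndB r σ K := by
    rw [hsing]
    exact (isClo_clo r x).size m0 (bndA r σ K) hmin
  have hK : K + 1 ≤ rk y (VV r σ x (cloS r σ x {m0})) := by
    by_contra hcon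
    have h1 : rk y (VV r σ x (cloS r σ x {m0})) ≤ K := by omega
    have h2 := Phi_mono r h1
    have h3 := cloS_card (σ := σ) r x {m0}
    have h4 := bad_le_Phi hσ2 hx hD
    rw [Finset.card_singleton] at h3
    have h5 : (1 + 2 * σ) * ((cloS r σ x {m0}).filter (BadRow r σ x)).card ≤
        (1 + 2 * σ) * Phi r K := Nat.mul_le_mul_left _ (h4.trans h2)
    have h6 : (1 + 2 * σ) * (Phi r K + 1) = (1 + 2 * σ) * Phi r K + (1 + 2 * σ) := by ring
    rw [← hsing] at hm0A
    unfold bndA at hm0A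
    omega
  have hL := isLoc (y := y) hr hx hD
  have hsum := rk_eq_sum (r := r) (σ := σ) (x := x) (D := cloS r σ x {m0}) y
  have hrk : r * ((tops (cloS r σ x {m0})) \ {m0}).card ≤
      rk y (VV r σ x (cloS r σ x {m0})) := by
    have h1 : ((tops (cloS r σ x {m0})) \ {m0}).card ≤
        ((tops (cloS r σ x {m0})).filter fun j => 0 < nN r σ x (cloS r σ x {m0}) j).card := by
      refine Finset.card_le_card ?_
      intro j hj
      obtain ⟨hj1, hj2⟩ := Finset.mem_sdiff.1 hj
      exact Finset.mem_filter.2 ⟨hj1, cloS_top hj1 hj2⟩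
    have h2 := hL.R hr hσ1
    rw [← hsum] at h2
    have h3 : r * ((tops (cloS r σ x {m0})).filter
        fun j => 0 < nN r σ x (cloS r σ x {m0}) j).card ≤
        rk y (VV r σ x (cloS r σ x {m0})) := by
      exact_mod_cast h2
    exact le_trans (Nat.mul_le_mul_left r h1) h3
  have htD : tops (cloS r σ x {m0}) ⊆ cloS r σ x {m0} := Finset.filter_subset _ _
  have hcov : rk y (VV r σ x (cloS r σ x {m0})) ≤
      rk y (cellsOf σ (nb T (bndB r σ K) ({m0} ∪ ((tops (cloS r σ x {m0})) \ {m0})))) := by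
    refine rk_cover hD hDT hDc ?_
    intro J hJ
    refine ⟨J, ?_, le_refl J, ?_⟩
    · by_cases hJR : J ∈ ({m0} : Finset ℕ)
      · exact Finset.mem_union_left _ hJR
      · exact Finset.mem_union_right _ (Finset.mem_sdiff.2 ⟨hJ, hJR⟩)
    · intro j hj
      rw [Finset.Icc_self, Finset.mem_singleton] at hj
      rw [hj]
      exact htD hJ
  refine ⟨m0, hm0T, (tops (cloS r σ x {m0})) \ {m0}, ?_, ?_, ?_⟩
  · exact (Finset.sdiff_subset.trans htD).trans hDT
  · exact le_trans (Finset.card_le_card (Finset.sdiff_subset.trans htD)) hDc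
  · exact le_trans (max_le hK hrk) hcov

end CAB
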