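import Pool.Agent.Lib.MP_eab41b_pr.B.B5
import Pool.Agent.Lib.MP_eab41b_pr.B.B6
import Pool.Agent.Lib.MP_eab41b_pr.B.B8
import Pool.Agent.Lib.MP_eab41b_pr.B.B11
import Pool.Agent.Lib.MP_eab41b_pr.B.B12
import Pool.Agent.Lib.MP_eab41b_pr.B.B13
import Pool.Agent.Lib.MP_eab41b_pr.B.B14a

/-! Row B14: a large closure (VIOL) and many bad rows (MULTI).

Sketch. `viol`: take the least `m` with `bndA ≤ |clo m|`; `D = cloS {m} = clo m`; `|D| ≤ bndB` (`IsClo.size`); by `cloS_card` and `bad_le_Phi`: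
`|D| ≤ 1 + (1 + 2σ) Φ(ρ)`, `ρ = rk y (VV D)`, so `ρ > K` (`Phi_mono`). `H' = (tops D) \ {m}`; these tops have `n > 0` (`cloS_top`), so
`ρ ≥ r |H'|` (`Loc.R`, `isLoc`, `rk_eq_sum`). `rk_cover` with `A = {m} ∪ H'` (`a = J`). `D ⊆ range T` since all its elements are `≤ m`.
`multi`: `D = cloS R`, `|D| ≤ |R| B`, the rows of `R` are bad, so `Φ(ρ) ≥ |R| > Φ(K)`, `ρ > K`; `H' = (tops D) \ R`. -/

set_option autoImplicit false

set_option linter.unusedSectionVars false

open scoped Classical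

namespace CAB

variable {α : Type} {r σ : ℕ} [NeZero σ] {x y : ℕ → α} {D : Finset ℕ}

theorem multi (hr : 2 ≤ r) (hσ1 : r < σ) (hσ2 : σ < 2 * r) (K B : ℕ) (hx : IsProc r σ y x) {T : ℕ}
    (hno : ∀ m < T, (clo r σ x m).card ≤ B) {R : Finset ℕ} (hRT : R ⊆ Finset.range T)
    (hR : ∀ m ∈ R, BadRow r σ x m) (hcard : Phi r K < R.card) :
    ∃ H ⊆ Finset.range T, H.card ≤ R.card * B ∧
      max (K + 1) (r * H.card) ≤ rk y (cellsOf σ (nb T (R.card * B) (R ∪ H))) := by
  have hD : Closed r σ x (cloS r σ x R) := cloS_closed r x R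
  have hRD : R ⊆ cloS r σ x R := subset_cloS r x R
  have hDT : cloS r σ x R ⊆ Finset.range T := by
    intro j hj
    obtain ⟨m, hm, hjm⟩ := cloS_le hj
    have := Finset.mem_range.1 (hRT hm)
    exact Finset.mem_range.2 (by omega)
  have hDc : (cloS r σ x R).card ≤ R.card * B :=
    cloS_card_le fun m hm => hno m (Finset.mem_range.1 (hRT hm))
  have hbad : R.card ≤ Phi r (rk y (VV r σ x (cloS r σ x R))) := by
    refine le_trans (Finset.card_le_card ?_) (bad_le_Phi hσ2 hx hD)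
    intro m hm
    exact Finset.mem_filter.2 ⟨hRD hm, hR m hm⟩
  have hK : K + 1 ≤ rk y (VV r σ x (cloS r σ x R)) := by
    by_contra hcon
    have h1 : rk y (VV r σ x (cloS r σ x R)) ≤ K := by omega
    have h2 := Phi_mono r h1
    omega
  have hL := isLoc (y := y) hr hx hD
  have hsum := rk_eq_sum (r := r) (σ := σ) (x := x) (D := cloS r σ x R) y
  have hrk : r * ((tops (cloS r σ x R)) \ R).card ≤ rk y (VV r σ x (cloS r σ x R)) := by
    have h1 : ((tops (cloS r σ x R)) \ R).card ≤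
        ((tops (cloS r σ x R)).filter fun j => 0 < nN r σ x (cloS r σ x R) j).card := by
      refine Finset.card_le_card ?_
      intro j hj
      obtain ⟨hj1, hj2⟩ := Finset.mem_sdiff.1 hj
      exact Finset.mem_filter.2 ⟨hj1, cloS_top hj1 hj2⟩
    have h2 := hL.R hr hσ1
    rw [← hsum] at h2
    have h3 : r * ((tops (cloS r σ x R)).filter
        fun j => 0 < nN r σ x (cloS r σ x R) j).card ≤ rk y (VV r σ x (cloS r σ x R)) := by
      exact_mod_cast h2
    exact le_trans (Nat.mul_le_mul_left r h1) h3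
  have htD : tops (cloS r σ x R) ⊆ cloS r σ x R := Finset.filter_subset _ _
  have hcov : rk y (VV r σ x (cloS r σ x R)) ≤
      rk y (cellsOf σ (nb T (R.card * B) (R ∪ ((tops (cloS r σ x R)) \ R)))) := by
    refine rk_cover hD hDT hDc ?_
    intro J hJ
    refine ⟨J, ?_, le_refl J, ?_⟩
    · by_cases hJR : J ∈ R
      · exact Finset.mem_union_left _ hJR
      · exact Finset.mem_union_right _ (Finset.mem_sdiff.2 ⟨hJ, hJR⟩)
    · intro j hj
      rw [Finset.Icc_self, Finset.mem_singleton] at hj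
      rw [hj]
      exact htD hJ
  refine ⟨(tops (cloS r σ x R)) \ R, ?_, ?_, ?_⟩
  · exact (Finset.sdiff_subset.trans htD).trans hDT
  · exact le_trans (Finset.card_le_card (Finset.sdiff_subset.trans htD)) hDc
  · exact le_trans (max_le hK hrk) hcov

end CAB
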