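import Pool.Agent.Lib.MP_eab41b_pr.B.B5
import Pool.Agent.Lib.MP_eab41b_pr.B.B6
import Pool.Agent.Lib.MP_eab41b_pr.B.B8
import Pool.Agent.Lib.MP_eab41b_pr.B.B11
import Pool.Agent.Lib.MP_eab41b_pr.B.B13

/-! Row B15: one bad row (BAD).

Sketch: `D = cloS {m}`, `H' = (tops D) \ {m}`, `ρ = rk y (VV D) = Σ (g - ν)`. If `H'` is not empty: `Loc.R` gives `ρ ≥ r |H'|`. If `H'` is empty, the only top is
`m` (`m = max D`), so `Icc j m ⊆ D` for all `j ∈ D` (`exists_top`). Let `c` be a bad cell of row `m`. If `rep c` is in row `m`: `f_m < σ` (`fN_lt_of_rep`),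
`m - 1 ∈ D` (closed) and `four` gives `σ - ν_{m-1} ≥ r`; `Loc.C` with `j0 = m - 1`, `J0 = m`. If `rep c` is in row `s < m`: `n_s > 0`
(`nN_pos_of_rep`), `Loc.tight_pair` at `s` gives `σ - ν_{s-1} ≥ r`, `Loc.C` with `j0 = s - 1`. So `ρ ≥ r max(1, |H'|)`. `rk_cover`. -/

set_option autoImplicit false

set_option linter.unusedSectionVars false

open scoped Classical

namespace CAB

variable {α : Type} {r σ : ℕ} [NeZero σ] {x y : ℕ → α} {D : Finset ℕ}

theorem bad_root (hr : 2 ≤ r) (hσ1 : r < σ) (hσ2 : σ < 2 * r) (B : ℕ) (hx : IsProc r σ y x)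
    {T m : ℕ} (hno : ∀ m < T, (clo r σ x m).card ≤ B) (hm : m < T) (hb : BadRow r σ x m) :
    ∃ H ⊆ Finset.range T, H.card ≤ B ∧
      r * max 1 H.card ≤ rk y (cellsOf σ (nb T B ({m} ∪ H))) := by
  set D := cloS r σ x {m} with hDdef
  have hD : Closed r σ x D := cloS_closed r x {m}
  have hmD : m ∈ D := subset_cloS r x {m} (Finset.mem_singleton_self m)
  have hle : ∀ j ∈ D, j ≤ m := by
    intro j hj
    obtain ⟨m', hm', h⟩ := cloS_le hj
    rwa [Finset.mem_singleton.1 hm'] at h
  have hDT : D ⊆ Finset.range T := fun j hj => Finset.mem_range.2 ((hle j hj).trans_lt hm)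
  have hcard : D.card ≤ B := by
    have h := cloS_card_le (r := r) (σ := σ) (x := x) (R := {m}) (B := B) (by
      intro m' hm'
      rw [Finset.mem_singleton.1 hm']
      exact hno m hm)
    rwa [Finset.card_singleton, one_mul] at h
  have hmt : m + 1 ∉ D := fun h => absurd (hle _ h) (by omega)
  have hLoc := isLoc hr hx hD
  have hsum := rk_eq_sum (r := r) (σ := σ) (x := x) (D := D) y
  set H := (tops D).filter fun j => j ≠ m with hH
  have hHD : H ⊆ D := fun j hj => (Finset.mem_filter.1 (Finset.mem_filter.1 hj).1).1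
  have hcov : rk y (VV r σ x D) ≤ rk y (cellsOf σ (nb T B ({m} ∪ H))) := by
    refine rk_cover hD hDT hcard fun J hJ => ⟨J, ?_, le_refl J, ?_⟩
    · by_cases h : J = m
      · rw [h]
        exact Finset.mem_union_left _ (Finset.mem_singleton_self m)
      · exact Finset.mem_union_right _ (Finset.mem_filter.2 ⟨hJ, h⟩)
    · rw [Finset.Icc_self, Finset.singleton_subset_iff]
      exact (Finset.mem_filter.1 hJ).1
  refine ⟨H, hHD.trans hDT, (Finset.card_le_card hHD).trans hcard, le_trans ?_ hcov⟩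
  have hgoal : (r : ℤ) * max 1 (H.card : ℤ) ≤ ∑ j ∈ D, ((gN r σ x D j : ℤ) - nuN r σ y x D j) := by
    by_cases hemp : H = ∅
    · rw [hemp, Finset.card_empty, Nat.cast_zero, max_eq_left zero_le_one, mul_one]
      have htop : ∀ j ∈ D, Finset.Icc j m ⊆ D := by
        intro j hj
        obtain ⟨J, hJ, _, hI⟩ := exists_top hj
        have hJm : J = m := by
          by_contra h
          have h1 : J ∈ H := Finset.mem_filter.2 ⟨hJ, h⟩
          rw [hemp] at h1
          exact absurd h1 (Finset.notMem_empty _)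
        rwa [hJm] at hI
      have hfin : ∀ j0 ∈ D, (r : ℤ) ≤ (σ : ℤ) - nuN r σ y x D j0 →
          (r : ℤ) ≤ ∑ j ∈ D, ((gN r σ x D j : ℤ) - nuN r σ y x D j) := by
        intro j0 hj0 h
        have h1 := hLoc.C hr hσ1 (htop j0 hj0) (hle j0 hj0) hmt
        have h2 : (0 : ℤ) ≤ r * (((tops D).filter fun j => j ≠ m ∧ 0 < nN r σ x D j).card : ℤ) :=
          mul_nonneg (Int.natCast_nonneg _) (Int.natCast_nonneg _)
        linarith
      obtain ⟨c, hc, hbad⟩ := hb
      have hcm : c / σ = m := mem_rowCells.1 hc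
      have hcD : c / σ ∈ D := by rw [hcm]; exact hmD
      obtain ⟨hk, hk', hlt, _, _⟩ := bad_imp hbad
      obtain ⟨h1, h2, _⟩ := hD c (mem_cellsOf.2 hcD) hbad
      by_cases hrow : rep r σ x c / σ = m
      · have hf : fN r σ x m < σ := by
          have hne : (c : ZMod σ) ≠ ((rep r σ x c : ℕ) : ZMod σ) := by
            intro h
            exact absurd (cell_ext (σ := σ) (hcm.trans hrow.symm) h) (Ne.symm hbad)
          refine fN_lt_of_rep hne ?_
          have e1 : m * σ + (c : ZMod σ).val = c := by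
            rw [← hcm]
            exact cell_eq c
          have e2 : m * σ + ((rep r σ x c : ℕ) : ZMod σ).val = rep r σ x c := by
            have := cell_eq (σ := σ) (rep r σ x c)
            rwa [hrow] at this
          rw [e1, e2, rep_rep]
        have hm1 : 1 ≤ m := by
          rw [← hcm]
          exact row_pos hk.1
        rw [hcm] at h1
        have h4 := four hr hx hD h1 (by rwa [Nat.sub_add_cancel hm1]) (by rwa [Nat.sub_add_cancel hm1])
        rw [Nat.sub_add_cancel hm1] at h4
        refine hfin (m - 1) h1 ?_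
        have h5 : nuN r σ y x D (m - 1) + r ≤ σ := by
          have h6 : nuN r σ y x D (m - 1) + (r - 1) ≤ fN r σ x m := le_trans (Nat.le_add_right _ _) h4
          omega
        have h6 : ((nuN r σ y x D (m - 1) : ℕ) : ℤ) + r ≤ σ := by exact_mod_cast h5
        linarith
      · have hs : rep r σ x c / σ < c / σ := by
          have := rep_row_le (σ := σ) r x c
          omega
        obtain ⟨i, _, hi, hri, _⟩ := hLoc.tight_pair hr hσ1 h2 (nN_pos_of_rep hD hcD hs)
        exact hfin i hi hri
    · have h1 : 1 ≤ H.card := Finset.card_pos.2 (Finset.nonempty_of_ne_empty hemp)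
      have h2 : (1 : ℤ) ≤ H.card := by exact_mod_cast h1
      rw [max_eq_right h2]
      refine le_trans ?_ (hLoc.R hr hσ1)
      have h3 : H ⊆ (tops D).filter fun j => 0 < nN r σ x D j := by
        intro j hj
        obtain ⟨hj1, hj2⟩ := Finset.mem_filter.1 hj
        exact Finset.mem_filter.2 ⟨hj1, cloS_top hj1 (by rwa [Finset.mem_singleton])⟩
      exact mul_le_mul_of_nonneg_left (by exact_mod_cast Finset.card_le_card h3)
        (Int.natCast_nonneg _)
  rw [← hsum] at hgoal
  have : ((r * max 1 H.card : ℕ) : ℤ) ≤ ((rk y (VV r σ x D) : ℕ) : ℤ) := by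
    push_cast
    exact hgoal
  exact_mod_cast this

end CAB
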