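import Pool.Agent.Lib.MP_eab41b_pr.B.B2
import Pool.Agent.Lib.MP_eab41b_pr.B.B3

/-! Row B4: inequality (3).

Sketch. `nuN_eq`: a value `y v`, `Lev v = j`, is a letter of row `j` (`Lev_cell`, `x c = y (rep c)`); conversely a letter
`x c`, `c` in row `j`, is `y (rep c)` with `Lev (rep c) ≥ j`, and if it is not in `S` then `Lev = j`.
`win_old`: let `c = (j + 1, i)`, `v = rep c`, `j + 1 < Lev v = j'`: there is a cell `c'` of row `j'` with `rep c' = v`, `c ≠ c'`, so both
have keys and equal keys (`rep_eq_imp`), `c'` is bad (`bad_of_rep_eq`), so row `j' - 1 ∈ D` (closed), `j' - 1 > j`, and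
`x (par k c) = x (par k c') = y (rep (par k c'))` with `Lev ≥ j' - 1 > j`.
`three`: `n_{j+1} > 0` gives a window of row `j` without new letters; row `j` is used (a cell of row `j + 1` has a key); if `ν_j > 0`
use `new_windows`; each window of row `j` with a new letter at position `i` gives the representative of `(j + 1, i)`, which has
level exactly `j + 1` by `win_old`; different windows give different representatives (`rep_hasKey`: equal reps
have equal keys). So the number of these windows is `≤ g_{j+1}`. -/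

set_option autoImplicit false

set_option linter.unusedSectionVars false

open scoped Classical

namespace CAB

variable {α : Type} {r σ : ℕ} [NeZero σ] {x y : ℕ → α} {D : Finset ℕ}

private theorem xrow_eq_rep (hx : IsProc r σ y x) (j : ℕ) (i : ZMod σ) :
    xrow σ x j i = y (rep r σ x (j * σ + i.val)) := hx _

theorem nuN_eq (hx : IsProc r σ y x) {j : ℕ} (hj : j ∈ D) :
    nuN r σ y x D j = ((Finset.univ.image (xrow σ x j)) \
      (((VV r σ x D).filter fun v => j < Lev r σ x D v).image y)).card := by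
  unfold nuN
  congr 1
  ext a
  rw [Finset.mem_sdiff, Finset.mem_sdiff]
  refine and_congr_left fun ha => ?_
  rw [Finset.mem_image, Finset.mem_image]
  constructor
  · rintro ⟨v, hv, rfl⟩
    rw [Finset.mem_filter] at hv
    obtain ⟨c, hc, hcv, hl⟩ := Lev_cell hv.1
    refine ⟨(c : ZMod σ), Finset.mem_univ _, ?_⟩
    have h1 : c / σ = j := hl.trans hv.2
    rw [← h1, xrow_cast, hx c, hcv]
  · rintro ⟨i, -, rfl⟩
    rw [xrow_eq_rep hx]
    have hd : (j * σ + i.val) / σ ∈ D := by rw [cell_div]; exact hj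
    have hV : rep r σ x (j * σ + i.val) ∈ VV r σ x D := mem_VV.2 ⟨_, hd, rfl⟩
    refine ⟨_, Finset.mem_filter.2 ⟨hV, ?_⟩, rfl⟩
    have h1 := le_Lev (r := r) (x := x) hd
    rw [cell_div] at h1
    rcases h1.eq_or_lt with h2 | h2
    · exact h2.symm
    · exfalso
      apply ha
      rw [xrow_eq_rep hx]
      exact Finset.mem_image_of_mem y (Finset.mem_filter.2 ⟨hV, h2⟩)

theorem win_old (hx : IsProc r σ y x) (hD : Closed r σ x D) {j : ℕ} (hj : j + 1 ∈ D) (i : ZMod σ)
    (h : j + 1 < Lev r σ x D (rep r σ x ((j + 1) * σ + i.val))) (k : Fin r) :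
    xrow σ x j (i - ((k : ℕ) : ZMod σ)) ∈
      ((VV r σ x D).filter fun v => j < Lev r σ x D v).image y := by
  have hd : ((j + 1) * σ + i.val) / σ ∈ D := by rw [cell_div]; exact hj
  have hV : rep r σ x ((j + 1) * σ + i.val) ∈ VV r σ x D := mem_VV.2 ⟨_, hd, rfl⟩
  obtain ⟨c, hc, hcv, hl⟩ := Lev_cell hV
  rw [← hl] at h
  have hlt : (j + 1) * σ + i.val < c := by
    by_contra hcon
    have := Nat.div_le_div_right (c := σ) (not_lt.1 hcon)
    rw [cell_div] at this
    omega
  obtain ⟨h1, h2, h3⟩ := rep_eq_imp hcv.symm hlt.ne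
  have hb : Bad r σ x c := bad_of_rep_eq hcv.symm hlt
  obtain ⟨h4, -, -⟩ := hD c (mem_cellsOf.2 hc) hb
  have h5 := congrFun h3 k
  rw [key_cell] at h5
  have h6 : xrow σ x j (i - ((k : ℕ) : ZMod σ)) = x (par σ k c) := h5
  rw [h6, hx (par σ k c)]
  have hd2 : par σ k c / σ ∈ D := by rw [par_div]; exact h4
  apply Finset.mem_image_of_mem y
  refine Finset.mem_filter.2 ⟨mem_VV.2 ⟨_, hd2, rfl⟩, ?_⟩
  have h7 := le_Lev (r := r) (x := x) hd2
  rw [par_div] at h7
  omega

theorem three (hr : 2 ≤ r) (hx : IsProc r σ y x) (hD : Closed r σ x D) {j : ℕ} (hj : j ∈ D)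
    (hj1 : j + 1 ∈ D) (hn : 0 < nN r σ x D (j + 1)) :
    nuN r σ y x D j = 0 ∨ nuN r σ y x D j + (r - 1) ≤ gN r σ x D (j + 1) := by
  rcases Nat.eq_zero_or_pos (nuN r σ y x D j) with h0 | hpos
  · exact Or.inl h0
  right
  rw [nuN_eq hx hj] at hpos ⊢
  obtain ⟨i0, c, hc, hjc, hcr⟩ := nN_pos_imp hn
  have hd : ((j + 1) * σ + i0.val) / σ ∈ D := by rw [cell_div]; exact hj1
  have hlev : j + 1 < Lev r σ x D (rep r σ x ((j + 1) * σ + i0.val)) := by
    rw [← hcr]
    exact hjc.trans_le (le_Lev hc)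
  have hne : c ≠ (j + 1) * σ + i0.val := by
    intro h
    rw [h, cell_div] at hjc
    exact lt_irrefl _ hjc
  have hkey : HasKey σ x ((j + 1) * σ + i0.val) := (rep_eq_imp hcr hne).2.1
  have hused : Used σ x j := (hasKey_cell x j i0).1 hkey
  refine (new_windows (by omega) (xrow σ x j) _ i0 (fun k => win_old hx hD hj1 i0 hlev k) hpos).trans ?_
  unfold gN
  -- injection from windows to representatives
  have hsub : ((Finset.univ.filter fun i : ZMod σ => ∃ k : Fin r, xrow σ x j (i - ((k : ℕ) : ZMod σ)) ∉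
      ((VV r σ x D).filter fun v => j < Lev r σ x D v).image y).image (win r σ (xrow σ x j))) ⊆
      ((VV r σ x D).filter fun v => Lev r σ x D v = j + 1).image (key r σ x) := by
    intro u hu
    obtain ⟨i, hi, rfl⟩ := Finset.mem_image.1 hu
    obtain ⟨k, hk⟩ := (Finset.mem_filter.1 hi).2
    have hd' : ((j + 1) * σ + i.val) / σ ∈ D := by rw [cell_div]; exact hj1
    have hkey' : HasKey σ x ((j + 1) * σ + i.val) := (hasKey_cell x j i).2 hused
    refine Finset.mem_image.2 ⟨rep r σ x ((j + 1) * σ + i.val), Finset.mem_filter.2 ⟨mem_VV.2 ⟨_, hd', rfl⟩, ?_⟩, ?_⟩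
    · have h1 := le_Lev (r := r) (x := x) hd'
      rw [cell_div] at h1
      rcases h1.eq_or_lt with h2 | h2
      · exact h2.symm
      · exact absurd (win_old hx hD hj1 i h2 k) hk
    · rw [(rep_hasKey hkey').2, key_cell]
  refine le_trans (le_of_eq ?_) ((Finset.card_le_card hsub).trans Finset.card_image_le)
  congr 1

end CAB
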