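import Pool.Agent.Lib.MP_eab41b_pr.B.A4
import Pool.Agent.Lib.MP_eab41b_pr.B.B4

/-! Row B16a: two lemmas for a bad row `u` that coincides with a used row `t`.

Sketch. `nuN_zero`: every value of row `t` is a value of row `u`, i.e. `y (rep c')` with `c'` in row `u`, whose level is `≥ u > t`.
`f3_rows`: `x_t = rot j x_u` or `x_u = rot j x_t`; for all `a` the representatives of `(t, a)` and of the corresponding cell of row `u` have level `> t`
and equal values, so they are equal; `lemmaK` with `m = t`, `m' = u`.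
`f3_bottom`: let `c` be a bad cell of row `u`, `c' = rep c` (`bad_imp`: equal keys); `u - 1`, `c' / σ`, `c' / σ - 1` are in `D`, so `≥ t`.
(i) `u - 1 > t`, `c' / σ - 1 > t`: the values at `par k c`, `par k c'` agree, levels `> t`, so equal representatives for all `k`:
`lemmaK_par`. (ii) `c' / σ - 1 = t < u - 1`: `x (par k c') = x_t (b - k) = x_u (b + j - k)`, so
`rep (par k c) = rep (u, b + j - k)` for all `k < r`: `lemmaK` with the rows `u - 1 ≠ u`. (iii) `u - 1 = t`: then `c' / σ = u`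
(between `t + 1` and `u`), `c = (u, a)`, `c' = (u, b)`, `a ≠ b`, `x_t (a - k) = x_t (b - k)`, so `x_u (a + j - k) = x_u (b + j - k)`, so equal
representatives: `lemmaK` with `m = m' = u`. -/

set_option autoImplicit false

set_option linter.unusedSectionVars false

open scoped Classical

namespace CAB

variable {α : Type} {r σ : ℕ} [NeZero σ] {x y : ℕ → α} {D : Finset ℕ}

private theorem b16_lev {u : ℕ} (hu : u ∈ D) (i : ZMod σ) :
    rep r σ x (u * σ + i.val) ∈ VV r σ x D ∧ u ≤ Lev r σ x D (rep r σ x (u * σ + i.val)) := by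
  have hc : u * σ + i.val ∈ cellsOf σ D := by
    rw [mem_cellsOf, cell_div]
    exact hu
  refine ⟨Finset.mem_image_of_mem _ hc, ?_⟩
  have h1 : u * σ + i.val ∈ (cellsOf σ D).filter
      fun c => rep r σ x c = rep r σ x (u * σ + i.val) := Finset.mem_filter.2 ⟨hc, rfl⟩
  have h2 := Finset.le_sup (f := fun c => c / σ) h1
  simp only [cell_div] at h2
  exact h2

theorem nuN_zero (hx : IsProc r σ y x) {t u : ℕ} (ht : t ∈ D) (hu : u ∈ D) (htu : t < u)
    (he : Eqv σ (xrow σ x u) (xrow σ x t)) : nuN r σ y x D t = 0 := by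
  rw [nuN_eq hx ht, Finset.card_eq_zero, Finset.sdiff_eq_empty_iff_subset]
  intro v hv
  obtain ⟨i, -, rfl⟩ := Finset.mem_image.1 hv
  obtain ⟨j, hj⟩ := he
  have h1 : xrow σ x t i = y (rep r σ x (u * σ + (i - j).val)) := by
    rw [← hx]
    have h2 := congrFun hj (i - j)
    rw [rot_apply, sub_add_cancel] at h2
    rw [← h2]
    rfl
  rw [h1]
  obtain ⟨h3, h4⟩ := b16_lev (r := r) (x := x) hu (i - j)
  exact Finset.mem_image_of_mem _ (Finset.mem_filter.2 ⟨h3, lt_of_lt_of_le htu h4⟩)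

theorem f3_rows (hσ : σ < 2 * r) (hx : IsProc r σ y x) {t u : ℕ} (ht : t ∈ D) (hu : u ∈ D)
    (htu : t < u) (he : Eqv σ (xrow σ x u) (xrow σ x t))
    (hinj : ∀ v ∈ VV r σ x D, ∀ v' ∈ VV r σ x D, t < Lev r σ x D v → t < Lev r σ x D v' →
      y v = y v' → v = v')
    (hall : ∀ i : ZMod σ, t < Lev r σ x D (rep r σ x (t * σ + i.val))) : False := by
  obtain ⟨j, hj⟩ := he
  apply lemmaK (r := r) hσ (x := x) (m := t) (m' := u) (a := j) (b := 0) (Or.inl (Nat.ne_of_lt htu))
  intro k _
  obtain ⟨h1, h2⟩ := b16_lev (r := r) (x := x) hu (0 - (k : ZMod σ))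
  obtain ⟨h3, -⟩ := b16_lev (r := r) (x := x) ht (j - (k : ZMod σ))
  refine hinj _ h3 _ h1 (hall _) (lt_of_lt_of_le htu h2) ?_
  rw [← hx, ← hx]
  have h4 := congrFun hj (0 - (k : ZMod σ))
  rw [rot_apply] at h4
  have e : (0 : ZMod σ) - (k : ZMod σ) + j = j - (k : ZMod σ) := by ring
  rw [e] at h4
  exact h4.symm

end CAB
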