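import Pool.Agent.Lib.MP_eab41b_pr.B.A4
import Pool.Agent.Lib.MP_eab41b_pr.B.B4
import Pool.Agent.Lib.MP_eab41b_pr.B.B16a

/-! Row B16: two lemmas for a bad row `u` that coincides with a used row `t`.

Sketch. `nuN_zero`: every value of row `t` is a value of row `u`, i.e. `y (rep c')` with `c'` in row `u`, whose level is `≥ u > t`.
`f3_rows`: `x_t = rot j x_u` or `x_u = rot j x_t`; for all `a` the representatives of `(t, a)` and of the corresponding cell of row `u` have level `> t`
and equal values, so they are equal; `lemmaK` with `m = t`, `m' = u`.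
`f3_bottom`: let `c` be a bad cell of row `u`, `c' = rep c` (`bad_imp`: equal keys); `u - 1`, `c' / σ`, `c' / σ - 1` are in `D`, so `≥ t`.
(i) `u - 1 > t`, `c' / σ - 1 > t`: the values at `par k c`, `par k c'` agree, levels `> t`, so equal representatives for all `k`:
`lemmaK_par`. (ii) `c' / σ - 1 = t < u - 1`: `x (par k c') = x_t (b - k) = x_u (b + j - k)`, so
`rep (par k c) = rep (u, b + j - k)` for all `k < r`: `lemmaK` with the rows `u - 1 ≠ u`. (iii) `u - 1 = t`: then `c' / σ = u`
(between `t + 1` and `u`), `c = (u, a)`, `c' = (u, b)`, `a ≠ b`, `x_t (a - k) = x_t (b - k)`, so `x_u (a + j - k) = x_u (b + j - k)`, so equal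
representatives: `lemmaK` with `m = m' = u`. -/

set_option autoImplicit false

set_option linter.unusedSectionVars false

open scoped Classical

namespace CAB

variable {α : Type} {r σ : ℕ} [NeZero σ] {x y : ℕ → α} {D : Finset ℕ}

theorem f3_bottom (hσ : σ < 2 * r) (hx : IsProc r σ y x) (hD : Closed r σ x D) {t u : ℕ}
    (ht : t ∈ D) (hu : u ∈ D) (htu : t < u) (he : Eqv σ (xrow σ x u) (xrow σ x t))
    (hinj : ∀ v ∈ VV r σ x D, ∀ v' ∈ VV r σ x D, t < Lev r σ x D v → t < Lev r σ x D v' →
      y v = y v' → v = v')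
    (hmin : ∀ j ∈ D, t ≤ j) (hb : BadRow r σ x u) : False := by
  obtain ⟨j, hj⟩ := he
  obtain ⟨c, hc, hbad⟩ := hb
  have hcu : c / σ = u := mem_rowCells.1 hc
  have hcell : c ∈ cellsOf σ D := mem_cellsOf.2 (by rw [hcu]; exact hu)
  obtain ⟨d1, d2, d3⟩ := hD c hcell hbad
  obtain ⟨k1, k2, hlt, hkey, hσc'⟩ := bad_imp hbad
  have hσc : σ ≤ c := k1.1
  have hrl : rep r σ x c / σ ≤ u := hcu ▸ rep_row_le r x c
  generalize rep r σ x c = c' at d2 d3 k2 hlt hkey hσc' hrl
  rw [hcu] at d1
  have hu1 : 1 ≤ u := hcu ▸ row_pos hσc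
  have hu1' : 1 ≤ c' / σ := row_pos hσc'
  have hm1 : t ≤ u - 1 := hmin _ d1
  have hm3 : t ≤ c' / σ - 1 := hmin _ d3
  -- equal values in rows above `t` have equal representatives
  have key1 : ∀ d d' : ℕ, d / σ ∈ D → d' / σ ∈ D → t < d / σ → t < d' / σ → x d = x d' →
      rep r σ x d = rep r σ x d' := by
    intro d d' hd hd' h1 h2 h3
    refine hinj _ (mem_VV.2 ⟨d, hd, rfl⟩) _ (mem_VV.2 ⟨d', hd', rfl⟩)
      (lt_of_lt_of_le h1 (le_Lev hd)) (lt_of_lt_of_le h2 (le_Lev hd')) ?_
    rw [← hx d, ← hx d', h3]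
  have hrow : ∀ i : ZMod σ, x (u * σ + (i - j).val) = x (t * σ + i.val) := by
    intro i
    have h1 := congrFun hj (i - j)
    rw [rot_apply, sub_add_cancel] at h1
    exact h1
  have hk : ∀ k < r, x (par σ k c') = x (par σ k c) := fun k hk => congrFun hkey ⟨k, hk⟩
  have hpc : ∀ k : ℕ, par σ k c = (u - 1) * σ + ((c : ZMod σ) - (k : ZMod σ)).val := by
    intro k
    unfold par
    rw [hcu]
  by_cases h1 : u - 1 = t
  · have hcc : c' / σ = u := by omega
    have hab : (c : ZMod σ) - j ≠ (c' : ZMod σ) - j := by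
      intro h
      have h2 : (c : ZMod σ) = (c' : ZMod σ) := sub_left_injective h
      have h3 : c = c' := cell_ext (hcu.trans hcc.symm) h2
      omega
    refine lemmaK hσ (x := x) (m := u) (m' := u) (a := (c : ZMod σ) - j) (b := (c' : ZMod σ) - j)
      (Or.inr hab) ?_
    intro k hkr
    refine key1 _ _ ?_ ?_ ?_ ?_ ?_
    · rw [cell_div]; exact hu
    · rw [cell_div]; exact hu
    · rw [cell_div]; exact htu
    · rw [cell_div]; exact htu
    · have e1 : (c : ZMod σ) - j - (k : ZMod σ) = ((c : ZMod σ) - (k : ZMod σ)) - j := by ring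
      have e2 : (c' : ZMod σ) - j - (k : ZMod σ) = ((c' : ZMod σ) - (k : ZMod σ)) - j := by ring
      rw [e1, e2, hrow, hrow]
      have h4 := hk k hkr
      rw [hpc, h1] at h4
      unfold par at h4
      rw [hcc, h1] at h4
      exact h4.symm
  · have h1' : t < u - 1 := lt_of_le_of_ne hm1 fun h => h1 h.symm
    by_cases h2 : c' / σ - 1 = t
    · refine lemmaK hσ (x := x) (m := u - 1) (m' := u) (a := (c : ZMod σ)) (b := (c' : ZMod σ) - j)
        (Or.inl (by omega)) ?_
      intro k hkr
      refine key1 _ _ ?_ ?_ ?_ ?_ ?_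
      · rw [cell_div]; exact d1
      · rw [cell_div]; exact hu
      · rw [cell_div]; exact h1'
      · rw [cell_div]; exact htu
      · have e2 : (c' : ZMod σ) - j - (k : ZMod σ) = ((c' : ZMod σ) - (k : ZMod σ)) - j := by ring
        rw [e2, hrow]
        have h4 := hk k hkr
        rw [hpc] at h4
        unfold par at h4
        rw [h2] at h4
        exact h4.symm
    · have h2' : t < c' / σ - 1 := lt_of_le_of_ne hm3 fun h => h2 h.symm
      refine lemmaK_par hσ (x := x) hσc hσc' (by omega) ?_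
      intro k hkr
      refine key1 _ _ ?_ ?_ ?_ ?_ (hk k hkr).symm
      · rw [par_div, hcu]; exact d1
      · rw [par_div]; exact d3
      · rw [par_div, hcu]; exact h1'
      · rw [par_div]; exact h2' 

end CAB
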