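import Pool.Agent.Lib.MP_eab41b_pr.B.B8

/-! Row B9: the tight case.

Sketch: let `D' = D.filter (· ≤ t)`. `num_star` for `D'` (its bottoms are bottoms of `D`; `t` is one of its tops; all terms are
`≥ 0` by `Loc.step` and `ν ≤ g ≤ σ`): `Σ_{D'} (g - ν) ≥ (σ - ν_t) + Σ_{j, j+1 ∈ D'} (g_{j+1} - ν_j) ≥ σ`. The terms `g_j - ν_j`, `j > t`,
are `≥ 0`. So if the total is `≤ σ`, all these terms vanish. -/

set_option autoImplicit false

set_option linter.unusedSectionVars false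

open scoped Classical

namespace CAB

variable {r σ : ℕ} {D : Finset ℕ} {g ν n f : ℕ → ℕ}

theorem Loc.tight (h : Loc r σ D g ν n f) (hr : 2 ≤ r) (hσ : r < σ) {t : ℕ} (ht : t ∈ D)
    (hν : ν t = 0) (hle : ∑ j ∈ D, ((g j : ℤ) - ν j) ≤ σ) :
    (∀ j ∈ D, j + 1 ∈ D → j < t → g (j + 1) = ν j) ∧ (∀ j ∈ D, t < j → g j = ν j) := by
  obtain ⟨D', hD'⟩ : ∃ D' : Finset ℕ, ∀ j, j ∈ D' ↔ j ∈ D ∧ j ≤ t :=
    ⟨D.filter fun j => j ≤ t, fun j => Finset.mem_filter⟩
  obtain ⟨E, hE⟩ : ∃ E : Finset ℕ, ∀ j, j ∈ E ↔ j ∈ D ∧ t < j :=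
    ⟨D.filter fun j => t < j, fun j => Finset.mem_filter⟩
  have hDE : D = D' ∪ E := by
    ext j
    rw [Finset.mem_union, hD', hE]
    constructor
    · intro hj
      rcases Nat.lt_or_ge t j with h1 | h1
      · exact Or.inr ⟨hj, h1⟩
      · exact Or.inl ⟨hj, h1⟩
    · rintro (h1 | h1) <;> exact h1.1
  have hdis : Disjoint D' E := by
    rw [Finset.disjoint_left]
    intro j h1 h2
    have h3 := ((hD' j).1 h1).2
    have h4 := ((hE j).1 h2).2
    omega
  have hsum : ∑ j ∈ D, ((g j : ℤ) - ν j) =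
      ∑ j ∈ D', ((g j : ℤ) - ν j) + ∑ j ∈ E, ((g j : ℤ) - ν j) := by
    conv_lhs => rw [hDE]
    exact Finset.sum_union hdis
  have hstar : ∑ j ∈ D', ((g j : ℤ) - ν j) = ∑ j ∈ tops D', ((σ : ℤ) - ν j) +
      ∑ j ∈ D'.filter (fun j => j + 1 ∈ D'), ((g (j + 1) : ℤ) - ν j) := by
    refine num_star (σ : ℤ) D' (fun j => (g j : ℤ)) (fun j => (ν j : ℤ)) ?_
    intro j hj hb
    have hj1 := (hD' j).1 hj
    have hb' : j = 0 ∨ j - 1 ∉ D := by
      rcases hb with hb | hb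
      · exact Or.inl hb
      · right
        intro hjD
        apply hb
        rw [hD']
        exact ⟨hjD, by omega⟩
    simp only [h.bot j hj1.1 hb']
  have hpos0 : ∀ j ∈ D, 0 ≤ (σ : ℤ) - ν j := by
    intro j hjD
    have h2 := h.fle j hjD
    have h3 := h.sum j hjD
    have h4 := h.nu j hjD
    omega
  have hpos1 : ∀ j ∈ tops D', 0 ≤ (σ : ℤ) - ν j := by
    intro j hj
    exact hpos0 j ((hD' j).1 (Finset.mem_filter.1 hj).1).1
  have hpos2 : ∀ j ∈ D'.filter (fun j => j + 1 ∈ D'), 0 ≤ (g (j + 1) : ℤ) - ν j := by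
    intro j hj
    obtain ⟨h1, h2⟩ := Finset.mem_filter.1 hj
    have := h.step hr hσ ((hD' j).1 h1).1 ((hD' (j + 1)).1 h2).1
    omega
  have hpos3 : ∀ j ∈ E, 0 ≤ (g j : ℤ) - ν j := by
    intro j hj
    have := h.nu j ((hE j).1 hj).1
    omega
  have htop : t ∈ tops D' := by
    unfold tops
    rw [Finset.mem_filter, hD', hD']
    exact ⟨⟨ht, le_rfl⟩, fun h1 => by have := h1.2; omega⟩
  have hA : (σ : ℤ) ≤ ∑ j ∈ tops D', ((σ : ℤ) - ν j) := by
    have h1 := Finset.single_le_sum hpos1 htop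
    have h2 : (σ : ℤ) - (ν t : ℤ) = σ := by rw [hν]; simp
    rw [h2] at h1
    exact h1
  have hB := Finset.sum_nonneg hpos2
  have hC := Finset.sum_nonneg hpos3
  have hB0 : ∑ j ∈ D'.filter (fun j => j + 1 ∈ D'), ((g (j + 1) : ℤ) - ν j) = 0 := by
    linarith
  have hC0 : ∑ j ∈ E, ((g j : ℤ) - ν j) = 0 := by linarith
  rw [Finset.sum_eq_zero_iff_of_nonneg hpos2] at hB0
  rw [Finset.sum_eq_zero_iff_of_nonneg hpos3] at hC0
  constructor
  · intro j hj hj1 hjt
    have h1 : j ∈ D'.filter (fun j => j + 1 ∈ D') := by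
      rw [Finset.mem_filter, hD', hD']
      exact ⟨⟨hj, by omega⟩, hj1, by omega⟩
    have h2 := hB0 j h1
    omega
  · intro j hj hjt
    have h2 := hC0 j ((hE j).2 ⟨hj, hjt⟩)
    omega

/-- if `n t = 0` in the tight case and `t` is not a bottom, then `f = σ`, `n = 0` on the interval below -/
theorem Loc.full (h : Loc r σ D g ν n f) (hr : 2 ≤ r) (hσ : r < σ) {i t : ℕ}
    (hI : Finset.Icc i t ⊆ D) (hit : i < t) (hn : n t = 0)
    (hg : ∀ j, i ≤ j → j < t → g (j + 1) = ν j) :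
    ∀ j, i ≤ j → j ≤ t → f j = σ ∧ n j = 0 := by
  have hD : ∀ j, i ≤ j → j ≤ t → j ∈ D := fun j h1 h2 => hI (Finset.mem_Icc.2 ⟨h1, h2⟩)
  have key : ∀ k j : ℕ, j + k = t → i ≤ j → f j = σ ∧ n j = 0 := by
    intro k
    induction k with
    | zero =>
      intro j hj hij
      have hjt : j = t := by omega
      subst hjt
      refine ⟨?_, hn⟩
      obtain ⟨s, rfl⟩ : ∃ s, j = s + 1 := ⟨j - 1, by omega⟩
      have h1 := hg s (by omega) (by omega)
      have h2 := h.sum (s + 1) (hD _ hij le_rfl)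
      have h3 := h.fle (s + 1) (hD _ hij le_rfl)
      by_contra hne
      have h4 := h.four s (hD _ (by omega) (by omega)) (hD _ hij le_rfl) (by omega)
      omega
    | succ k ih =>
      intro j hj hij
      obtain ⟨h1, h2⟩ := ih (j + 1) (by omega) (by omega)
      have h3 := hg j hij (by omega)
      have h4 := h.sum (j + 1) (hD _ (by omega) (by omega))
      have h5 := h.sum j (hD _ hij (by omega))
      have h6 := h.fle j (hD _ hij (by omega))
      have h7 := h.nu j (hD _ hij (by omega))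
      constructor <;> omega
  intro j h1 h2
  exact key (t - j) j (by omega) h1

end CAB
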