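import Pool.Agent.Lib.MP_eab41b_pr.B.B5
import Pool.Agent.Lib.MP_eab41b_pr.B.B6
import Pool.Agent.Lib.MP_eab41b_pr.B.B9
import Pool.Agent.Lib.MP_eab41b_pr.B.B11
import Pool.Agent.Lib.MP_eab41b_pr.B.B13
import Pool.Agent.Lib.MP_eab41b_pr.B.B16

/-! Row B17a: F3.

Sketch: `D = cloS {u, t}`, `u = max D`, `ν_t = 0` (`nuN_zero`), `J0` = top of the interval of `t` (`exists_top`),
`H' = (tops D) \ {u, J0}`; each `j ∈ H'` is not in `{u, t}` (if `t` is a top then `J0 = t`), so `n_j > 0` (`cloS_top`). `Loc.C` with `j0 = t`: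
`ρ ≥ σ + r |H'|`. If `H'` is not empty this is the claim. If `H' = ∅` show `ρ ≥ σ + 1` (`f3_core`): suppose `ρ ≤ σ`. `Loc.tight`: (A) `g_{j+1} = ν_j` for
`j < t`, `j, j + 1 ∈ D`, (B) `g_j = ν_j` for `j > t`; `inj_above`: `y` is injective on the representatives of level `> t`. Since all tops are `u` or
`J0`, every `s ∈ D` with `s < t` satisfies `Icc s t ⊆ D`.
(a) `n_t > 0`: `t` is not a bottom, `i = t - 1 ∈ D`; `three` and (A): `ν_i = 0 = g_t` (as `r ≥ 2`). So no representative has level `t`; so all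
representatives of row `t` have level `> t`: `f3_rows`.
(b) `n_t = 0`: if there is `s ∈ D` with `s < t`, let `i` be the bottom of the interval of `t` (`i ≤ s < t`); `Loc.full`: `f = σ`, `n = 0` on `[i, t]`.
`t - 1 ∈ D \ R`, so by `cloS_gen` there is a bad cell `c` of `D` with `t - 1 = c / σ - 1`, or `t - 1 = rep c / σ < c / σ`, or `t - 1 = rep c / σ - 1`. First case: `c` is in row `t`;
`rep c` in row `t` contradicts `f_t = σ` (`fN_lt_of_rep`; `rep (rep c) = rep c`); `rep c` in a row `s' < t` of `D`: `n_{s'} > 0` (`nN_pos_of_rep`), `s' ∈ [i, t]`: contradiction.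
Second case: `n_{t-1} > 0`. Third case: `rep c` in row `t`: if `c` is in a later row `n_t > 0`; if `c` is in row `t`: `f_t < σ`. So
all rows of `D` are `≥ t`: `f3_bottom`. -/

set_option autoImplicit false

set_option linter.unusedSectionVars false

open scoped Classical

namespace CAB

variable {α : Type} {r σ : ℕ} [NeZero σ] {x y : ℕ → α} {D : Finset ℕ}

theorem f3_core (hr : 2 ≤ r) (hσ1 : r < σ) (hσ2 : σ < 2 * r) (hx : IsProc r σ y x)
    {t u : ℕ} (htu : t < u) (ht : Used σ x t) (he : Eqv σ (xrow σ x u) (xrow σ x t))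
    (hb : BadRow r σ x u) (hD : D = cloS r σ x {u, t}) {J0 : ℕ} (hJ : Finset.Icc t J0 ⊆ D)
    (htJ : t ≤ J0) (htop : ∀ j ∈ tops D, j = u ∨ j = J0) :
    σ + 1 ≤ rk y (VV r σ x D) := by
  have hcl : Closed r σ x D := by
    rw [hD]
    exact cloS_closed r x _
  have hutD : u ∈ D ∧ t ∈ D := by
    rw [hD]
    exact ⟨subset_cloS r x _ (Finset.mem_insert_self _ _),
      subset_cloS r x _ (Finset.mem_insert_of_mem (Finset.mem_singleton_self _))⟩
  obtain ⟨huD, htD⟩ := hutD
  by_contra hcon
  have hρ : ∑ j ∈ D, ((gN r σ x D j : ℤ) - nuN r σ y x D j) ≤ σ := by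
    rw [← rk_eq_sum]
    omega
  have hloc := isLoc hr hx hcl
  have hν : nuN r σ y x D t = 0 := nuN_zero hx htD huD htu he
  obtain ⟨hA, hB⟩ := hloc.tight hr hσ1 htD hν hρ
  have hinj := inj_above (r := r) (σ := σ) (x := x) (D := D) (y := y) (t := t) hB
  -- everything below `t` is in the interval of `t`
  have hbelow : ∀ s ∈ D, s < t → Finset.Icc s t ⊆ D := by
    intro s hs hst
    obtain ⟨J, hJtop, hsJ, hIJ⟩ := exists_top hs
    have htJ' : t ≤ J := by
      rcases htop J hJtop with h | h
      · rw [h]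
        exact htu.le
      · rw [h]
        exact htJ
    exact (Finset.Icc_subset_Icc_right htJ').trans hIJ
  by_cases hn : 0 < nN r σ x D t
  · -- (a)
    have hsum := hloc.sum t htD
    have hfle := hloc.fle t htD
    have hnb : ¬ (t = 0 ∨ t - 1 ∉ D) := by
      intro h
      have := hloc.bot t htD h
      omega
    push Not at hnb
    obtain ⟨ht0, ht1⟩ := hnb
    obtain ⟨i, rfl⟩ : ∃ i, t = i + 1 := ⟨t - 1, by omega⟩
    have hi : i ∈ D := by simpa using ht1
    have h3 := three hr hx hcl hi htD hn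
    have h4 := hA i hi htD (Nat.lt_succ_self i)
    have hg0 : gN r σ x D (i + 1) = 0 := by
      rcases h3 with h3 | h3
      · omega
      · omega
    refine f3_rows hσ2 hx htD huD htu he hinj ?_
    intro a
    have hc : ((i + 1) * σ + a.val) / σ = i + 1 := cell_div (i + 1) a
    have h5 : i + 1 ≤ Lev r σ x D (rep r σ x ((i + 1) * σ + a.val)) := by
      have h6 := le_Lev (r := r) (σ := σ) (x := x) (D := D) (c := (i + 1) * σ + a.val)
        (by rw [hc]; exact htD)
      rwa [hc] at h6
    refine lt_of_le_of_ne h5 fun h6 => ?_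
    have h7 : rep r σ x ((i + 1) * σ + a.val) ∈
        (VV r σ x D).filter fun v => Lev r σ x D v = i + 1 := by
      rw [Finset.mem_filter]
      exact ⟨mem_VV.2 ⟨_, by rw [hc]; exact htD, rfl⟩, h6.symm⟩
    have h8 : 0 < gN r σ x D (i + 1) := Finset.card_pos.2 ⟨_, h7⟩
    omega
  · -- (b)
    have hn0 : nN r σ x D t = 0 := by omega
    refine f3_bottom hσ2 hx hcl htD huD htu he hinj ?_ hb
    intro s hs
    by_contra hst
    have hst : s < t := by omega
    have hIst := hbelow s hs hst
    obtain ⟨h, hh, hhb, hhs, hIhs⟩ := exists_bottom hs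
    have hIht : Finset.Icc h t ⊆ D := by
      intro j hj
      rw [Finset.mem_Icc] at hj
      by_cases hjs : j ≤ s
      · exact hIhs (Finset.mem_Icc.2 ⟨hj.1, hjs⟩)
      · exact hIst (Finset.mem_Icc.2 ⟨by omega, hj.2⟩)
    have hfull := hloc.full hr hσ1 (i := h) (t := t) hIht (by omega) hn0 (by
      intro j hj1 hj2
      exact hA j (hIht (Finset.mem_Icc.2 ⟨hj1, by omega⟩))
        (hIht (Finset.mem_Icc.2 ⟨by omega, by omega⟩)) hj2)
    -- two cells of row `t` with the same representative
    have hrow : ∀ c : ℕ, Bad r σ x c → c / σ = t → rep r σ x c / σ = t → False := by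
      intro c hc h1 h2
      have hne : ((rep r σ x c : ℕ) : ZMod σ) ≠ (c : ZMod σ) := by
        intro h3
        exact hc (cell_ext (σ := σ) (h2.trans h1.symm) h3)
      have h3 : rep r σ x (t * σ + ((rep r σ x c : ℕ) : ZMod σ).val) =
          rep r σ x (t * σ + ((c : ℕ) : ZMod σ).val) := by
        have e1 : t * σ + ((rep r σ x c : ℕ) : ZMod σ).val = rep r σ x c := by
          rw [← h2]
          exact cell_eq (rep r σ x c)
        have e2 : t * σ + ((c : ℕ) : ZMod σ).val = c := by
          rw [← h1]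
          exact cell_eq c
        rw [e1, e2, rep_rep]
      have h4 := fN_lt_of_rep hne h3
      have h5 := (hfull t (by omega) le_rfl).1
      omega
    have ht1D : t - 1 ∈ D := hIst (Finset.mem_Icc.2 ⟨by omega, by omega⟩)
    have ht1R : t - 1 ∉ ({u, t} : Finset ℕ) := by
      rw [Finset.mem_insert, Finset.mem_singleton]
      omega
    obtain ⟨c, hcD, hcb, hcase⟩ := cloS_gen (r := r) (σ := σ) (x := x) (R := {u, t}) (j := t - 1)
      (by rw [← hD]; exact ht1D) ht1R
    rw [← hD] at hcD
    obtain ⟨hk, hk', hlt, -, hσc⟩ := bad_imp hcb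
    have hp1 := row_pos hσc
    have hp2 := row_pos hk.1
    have hrl := rep_row_le (σ := σ) r x c
    have hcl' := hcl c (mem_cellsOf.2 hcD) hcb
    rcases hcase with h1 | ⟨h1, h2⟩ | h1
    · have hct : c / σ = t := by omega
      rcases Nat.lt_or_ge (rep r σ x c / σ) t with h3 | h3
      · have h4 := nN_pos_of_rep hcl hcD (by rw [hct]; exact h3)
        have h5 : h ≤ rep r σ x c / σ := by
          by_contra h6
          have h7 := hbelow _ hcl'.2.1 h3
          rcases hhb with h8 | h8
          · omega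
          · exact h8 (h7 (Finset.mem_Icc.2 ⟨by omega, by omega⟩))
        have h6 := (hfull _ h5 h3.le).2
        omega
      · exact hrow c hcb hct (by omega)
    · have h4 := nN_pos_of_rep hcl hcD (by rw [← h1]; exact h2)
      rw [← h1] at h4
      have h6 := (hfull (t - 1) (by omega) (by omega)).2
      omega
    · have hrt : rep r σ x c / σ = t := by omega
      rcases Nat.lt_or_ge t (c / σ) with h3 | h3
      · have h4 := nN_pos_of_rep hcl hcD (by rw [hrt]; exact h3)
        rw [hrt] at h4
        omega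
      · exact hrow c hcb (by omega) hrt

end CAB
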