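import Pool.Agent.Lib.MP_eab41b_pr.B.B5
import Pool.Agent.Lib.MP_eab41b_pr.B.B6
import Pool.Agent.Lib.MP_eab41b_pr.B.B9
import Pool.Agent.Lib.MP_eab41b_pr.B.B11
import Pool.Agent.Lib.MP_eab41b_pr.B.B13
import Pool.Agent.Lib.MP_eab41b_pr.B.B16
import Pool.Agent.Lib.MP_eab41b_pr.B.B17a

/-! Row B17: F3.

Sketch: `D = cloS {u, t}`, `u = max D`, `ν_t = 0` (`nuN_zero`), `J0` = top of the interval of `t` (`exists_top`),
`H' = (tops D) \ {u, J0}`; each `j ∈ H'` is not in `{u, t}` (if `t` is a top then `J0 = t`), so `n_j > 0` (`cloS_top`). `Loc.C` with `j0 = t`: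
`ρ ≥ σ + r |H'|`. If `H'` is not empty this is the claim. If `H' = ∅` show `ρ ≥ σ + 1` (`f3_core`): suppose `ρ ≤ σ`. `Loc.tight`: (A) `g_{j+1} = ν_j` for
`j < t`, `j, j + 1 ∈ D`, (B) `g_j = ν_j` for `j > t`; `inj_above`: `y` is injective on the representatives of level `> t`. Since all tops are `u` or
`J0`, every `s ∈ D` with `s < t` satisfies `Icc s t ⊆ D`.
(a) `n_t > 0`: `t` is not a bottom, `i = t - 1 ∈ D`; `three` and (A): `ν_i = 0 = g_t` (as `r ≥ 2`). So no representative has level `t`; so all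
representatives of row `t` have level `> t`: `f3_rows`.
(b) `n_t = 0`: if there is `s ∈ D` with `s < t`, let `i` be the bottom of the interval of `t` (`i ≤ s < t`); `Loc.full`: `f = σ`, `n = 0` on `[i, t]`.
`t - 1 ∈ D \ R`, so by `cloS_gen` there is a bad cell `c` of `D` with `t - 1 = c / σ - 1`, or `t - 1 = rep c / σ < c / σ`, or `t - 1 = rep c / σ - 1`. First case: `c` is in row `t`;
`rep c` in row `t` contradicts `f_t = σ` (`fN_lt_of_rep`; `rep (rep c) = rep c`); `rep c` in a row `s' < t` of `D`: `n_{s'} > 0` (`nN_pos_of_rep`), `s' ∈ [i, t]`: contradiction.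
Second case: `n_{t-1} > 0`. Third case: `rep c` in row `t`: if `c` is in a later row `n_t > 0`; if `c` is in row `t`: `f_t < σ`. So
all rows of `D` are `≥ t`: `f3_bottom`. -/

set_option autoImplicit false

set_option linter.unusedSectionVars false

open scoped Classical

namespace CAB

variable {α : Type} {r σ : ℕ} [NeZero σ] {x y : ℕ → α} {D : Finset ℕ}

theorem coinc_root (hr : 2 ≤ r) (hσ1 : r < σ) (hσ2 : σ < 2 * r) (B : ℕ) (hx : IsProc r σ y x)
    {T t u : ℕ} (hno : ∀ m < T, (clo r σ x m).card ≤ B) (htu : t < u) (hu : u < T)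
    (ht : Used σ x t) (he : Eqv σ (xrow σ x u) (xrow σ x t)) (hb : BadRow r σ x u) :
    ∃ H ⊆ Finset.range T, H.card ≤ 2 * B ∧
      σ + max 1 (r * H.card) ≤ rk y (cellsOf σ (nb T (2 * B) ({u, t} ∪ H))) := by
  obtain ⟨D, hD⟩ : ∃ D, D = cloS r σ x {u, t} := ⟨_, rfl⟩
  have hcl : Closed r σ x D := by rw [hD]; exact cloS_closed r x _
  have hsub : ({u, t} : Finset ℕ) ⊆ D := by rw [hD]; exact subset_cloS r x _
  have huD : u ∈ D := hsub (by simp)
  have htD : t ∈ D := hsub (by simp)
  have hle : ∀ j ∈ D, j ≤ u := by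
    intro j hj
    rw [hD] at hj
    obtain ⟨m, hm, hjm⟩ := cloS_le hj
    rw [Finset.mem_insert, Finset.mem_singleton] at hm
    rcases hm with rfl | rfl
    · exact hjm
    · omega
  have hDT : D ⊆ Finset.range T := by
    intro j hj
    rw [Finset.mem_range]
    exact lt_of_le_of_lt (hle j hj) hu
  have hcard : D.card ≤ 2 * B := by
    rw [hD]
    refine (cloS_card_le (B := B) ?_).trans (Nat.mul_le_mul_right B (Finset.card_le_two))
    intro m hm
    rw [Finset.mem_insert, Finset.mem_singleton] at hm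
    rcases hm with rfl | rfl
    · exact hno _ hu
    · exact hno _ (htu.trans hu)
  obtain ⟨J0, hJ0, htJ, hJ⟩ := exists_top htD
  have hJ01 : J0 + 1 ∉ D := (Finset.mem_filter.1 hJ0).2
  obtain ⟨H, hH⟩ : ∃ H : Finset ℕ, H = (tops D) \ {u, J0} := ⟨_, rfl⟩
  have hHm : ∀ j, j ∈ H ↔ j ∈ tops D ∧ j ≠ u ∧ j ≠ J0 := by
    intro j
    rw [hH, Finset.mem_sdiff, Finset.mem_insert, Finset.mem_singleton, not_or]
  have hHD : H ⊆ D := by
    intro j hj
    exact (Finset.mem_filter.1 ((hHm j).1 hj).1).1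
  have hloc := isLoc (y := y) hr hx hcl
  have hν : nuN r σ y x D t = 0 := nuN_zero hx htD huD htu he
  have hC := hloc.C hr hσ1 hJ htJ hJ01
  rw [hν, ← rk_eq_sum] at hC
  have hHsub : H ⊆ (tops D).filter fun j => j ≠ J0 ∧ 0 < nN r σ x D j := by
    intro j hj
    obtain ⟨h1, h2, h3⟩ := (hHm j).1 hj
    rw [Finset.mem_filter]
    refine ⟨h1, h3, ?_⟩
    have h4 : j ∉ ({u, t} : Finset ℕ) := by
      rw [Finset.mem_insert, Finset.mem_singleton, not_or]
      refine ⟨h2, ?_⟩
      rintro rfl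
      have h5 : j + 1 ∉ D := (Finset.mem_filter.1 h1).2
      apply h5
      apply hJ
      rw [Finset.mem_Icc]
      omega
    have h6 : j ∈ tops (cloS r σ x {u, t}) := by rw [← hD]; exact h1
    have h7 := cloS_top h6 h4
    rw [← hD] at h7
    exact h7
  have hHc := Finset.card_le_card hHsub
  have hmain : σ + r * H.card ≤ rk y (VV r σ x D) := by
    have h8 : ((σ : ℤ) - ((0 : ℕ) : ℤ)) + r * (H.card : ℤ) ≤ (rk y (VV r σ x D) : ℤ) := by
      refine le_trans ?_ hC
      have h9 : (H.card : ℤ) ≤ (((tops D).filter fun j => j ≠ J0 ∧ 0 < nN r σ x D j).card : ℤ) := by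
        exact_mod_cast hHc
      have h10 : (r : ℤ) * (H.card : ℤ) ≤
          r * (((tops D).filter fun j => j ≠ J0 ∧ 0 < nN r σ x D j).card : ℤ) :=
        mul_le_mul_of_nonneg_left h9 (by positivity)
      linarith
    have h11 : ((σ + r * H.card : ℕ) : ℤ) ≤ (rk y (VV r σ x D) : ℤ) := by
      push_cast
      push_cast at h8
      linarith
    exact_mod_cast h11
  have hmax : σ + max 1 (r * H.card) ≤ rk y (VV r σ x D) := by
    rcases Nat.eq_zero_or_pos H.card with h0 | h0
    · have hem : H = ∅ := Finset.card_eq_zero.1 h0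
      have htop : ∀ j ∈ tops D, j = u ∨ j = J0 := by
        intro j hj
        by_contra hcon
        rw [not_or] at hcon
        have : j ∈ H := (hHm j).2 ⟨hj, hcon.1, hcon.2⟩
        rw [hem] at this
        simp at this
      have := f3_core (y := y) hr hσ1 hσ2 hx htu ht he hb hD hJ htJ htop
      rw [h0, mul_zero]
      exact this
    · have h1 : 1 ≤ r * H.card := Nat.mul_pos (by omega) h0
      rw [max_eq_right h1]
      exact hmain
  refine ⟨H, hHD.trans hDT, (Finset.card_le_card hHD).trans hcard, hmax.trans ?_⟩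
  refine rk_cover hcl hDT hcard ?_
  intro J hJt
  have hJD : J ∈ D := (Finset.mem_filter.1 hJt).1
  by_cases h1 : J = J0
  · refine ⟨t, by simp, ?_, ?_⟩
    · rw [h1]; exact htJ
    · rw [h1]; exact hJ
  · refine ⟨J, ?_, le_rfl, ?_⟩
    · by_cases h2 : J = u
      · rw [h2]; simp
      · rw [Finset.mem_union]
        exact Or.inr ((hHm J).2 ⟨hJt, h2, h1⟩)
    · intro k hk
      rw [Finset.mem_Icc] at hk
      have : k = J := le_antisymm hk.2 hk.1
      rw [this]
      exact hJD

end CAB
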