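import Pool.Agent.Lib.MP_eab41b_pr.B.B5
import Pool.Agent.Lib.MP_eab41b_pr.B.B6
import Pool.Agent.Lib.MP_eab41b_pr.B.B8
import Pool.Agent.Lib.MP_eab41b_pr.B.B11
import Pool.Agent.Lib.MP_eab41b_pr.B.B13

/-! Row B18a: F4.

Sketch: `D = cloS {u}`, `u = max D`, `H' = (tops D) \ {u}`. A row that is not aperiodic has at most `σ / 2` different letters
(`z (i + j) = z i` for all `i`, some `j ≠ 0`: `z` is constant on the cosets of the subgroup generated by `j`, each of size `≥ 2`), and `ν_u ≤` number of
letters of row `u` (`nuN_eq`). `Loc.C` with `j0 = J0 = u`: `ρ ≥ (σ - ν_u) + r |H'|`. If `H'` is empty, the only top is `u`, so `D` is an interval `[h, u]`; show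
`ρ ≥ (σ - ν_u) + 1`: by `Loc.star` and `Loc.step` it is enough that `g_{j+1} = ν_j` for all `j, j + 1 ∈ D` is impossible. Let `c` be a bad cell of row `u`
(`u - 1 ∈ D`); `n_u = 0` (`nN_max`), `g_u = f_u ≥ 1`. `rep c` in row `u`: `f_u < σ`, `four`: `ν_{u-1} + (r - 1) ≤ f_u = g_u = ν_{u-1}`. `rep c` in row `s < u`: `n_s > 0`,
`s - 1 ∈ D`, `three`: `g_s = ν_{s-1} = 0`, so `ν_s = 0`, `g_{s+1} = 0`, ..., `g_u = 0`. -/

set_option autoImplicit false

set_option linter.unusedSectionVars false

open scoped Classical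

namespace CAB

variable {α : Type} {r σ : ℕ} [NeZero σ] {x y : ℕ → α} {D : Finset ℕ}

theorem card_letters_le {z : ZMod σ → α} (h : ¬ Aper σ z) :
    (Finset.univ.image z).card ≤ σ / 2 := by
  unfold Aper at h
  push Not at h
  obtain ⟨j, hj, hj0⟩ := h
  have h2 : 2 * (Finset.univ.image z).card ≤ (Finset.univ : Finset (ZMod σ)).card := by
    refine Finset.mul_card_image_le_card _ 2 ?_
    intro a ha
    obtain ⟨i, -, hi⟩ := Finset.mem_image.1 ha
    have hij : z (i + j) = z i := congrFun hj i
    have hne : i ≠ i + j := fun hh => hj0 (by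
      have := hh.symm
      rwa [add_eq_left] at this)
    have hsub : ({i, i + j} : Finset (ZMod σ)) ⊆
        Finset.univ.filter (fun x => z x = a) := by
      intro x hx
      rw [Finset.mem_insert, Finset.mem_singleton] at hx
      rcases hx with rfl | rfl
      · simp [hi]
      · simp [hij, hi]
    calc 2 = ({i, i + j} : Finset (ZMod σ)).card := (Finset.card_pair hne).symm
      _ ≤ _ := Finset.card_le_card hsub
  rw [Finset.card_univ, ZMod.card] at h2
  omega

end CAB
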