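import Pool.Agent.Lib.MP_eab41b_pr.B.B5
import Pool.Agent.Lib.MP_eab41b_pr.B.B6
import Pool.Agent.Lib.MP_eab41b_pr.B.B8
import Pool.Agent.Lib.MP_eab41b_pr.B.B11
import Pool.Agent.Lib.MP_eab41b_pr.B.B13
import Pool.Agent.Lib.MP_eab41b_pr.B.B18a

/-! Row B18: F4.

Sketch: `D = cloS {u}`, `u = max D`, `H' = (tops D) \ {u}`. A row that is not aperiodic has at most `σ / 2` different letters
(`z (i + j) = z i` for all `i`, some `j ≠ 0`: `z` is constant on the cosets of the subgroup generated by `j`, each of size `≥ 2`), and `ν_u ≤` number of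
letters of row `u` (`nuN_eq`). `Loc.C` with `j0 = J0 = u`: `ρ ≥ (σ - ν_u) + r |H'|`. If `H'` is empty, the only top is `u`, so `D` is an interval `[h, u]`; show
`ρ ≥ (σ - ν_u) + 1`: by `Loc.star` and `Loc.step` it is enough that `g_{j+1} = ν_j` for all `j, j + 1 ∈ D` is impossible. Let `c` be a bad cell of row `u`
(`u - 1 ∈ D`); `n_u = 0` (`nN_max`), `g_u = f_u ≥ 1`. `rep c` in row `u`: `f_u < σ`, `four`: `ν_{u-1} + (r - 1) ≤ f_u = g_u = ν_{u-1}`. `rep c` in row `s < u`: `n_s > 0`,
`s - 1 ∈ D`, `three`: `g_s = ν_{s-1} = 0`, so `ν_s = 0`, `g_{s+1} = 0`, ..., `g_u = 0`. -/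

set_option autoImplicit false

set_option linter.unusedSectionVars false

open scoped Classical

namespace CAB

variable {α : Type} {r σ : ℕ} [NeZero σ] {x y : ℕ → α} {D : Finset ℕ}

private theorem per_root_core (hr : 2 ≤ r) (hx : IsProc r σ y x) {u : ℕ}
    (hD : Closed r σ x D) (hu : u ∈ D) (hmax : ∀ j ∈ D, j ≤ u)
    (htop : ∀ j ∈ tops D, j = u) (hb : BadRow r σ x u) :
    ∃ j ∈ D, j + 1 ∈ D ∧ gN r σ x D (j + 1) ≠ nuN r σ y x D j := by
  have L := isLoc (σ := σ) hr hx hD
  by_contra hcon
  have hg : ∀ j ∈ D, j + 1 ∈ D → gN r σ x D (j + 1) = nuN r σ y x D j := by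
    intro j hj hj1
    by_contra h
    exact hcon ⟨j, hj, hj1, h⟩
  obtain ⟨c, hc, hbad⟩ := hb
  rw [mem_rowCells (σ := σ)] at hc
  have hcD : c ∈ cellsOf σ D := by
    rw [mem_cellsOf (σ := σ), hc]
    exact hu
  obtain ⟨h1, h2, h3⟩ := hD c hcD hbad
  obtain ⟨hk, hk', hlt, hkey, hσr⟩ := bad_imp hbad
  rw [hc] at h1
  have hu1 : 1 ≤ u := by
    have := row_pos (σ := σ) hk.1
    omega
  have hn : nN r σ x D u = 0 := nN_max hmax
  have hgf : gN r σ x D u = fN r σ x u := by
    have := fN_sum (r := r) (σ := σ) (x := x) (D := D) hu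
    omega
  have hf1 : 1 ≤ fN r σ x u := fN_pos r x u
  have e1 : u - 1 + 1 = u := by omega
  rcases lt_or_ge (rep r σ x c / σ) u with hs | hs
  · -- representative in an earlier row
    have hns : 0 < nN r σ x D (rep r σ x c / σ) := nN_pos_of_rep hD (by rw [hc]; exact hu)
      (by rw [hc]; exact hs)
    set s := rep r σ x c / σ with hsdef
    have hs1 : 1 ≤ s := row_pos (σ := σ) hσr
    have e2 : s - 1 + 1 = s := by omega
    have hI : Finset.Icc s u ⊆ D := by
      obtain ⟨J, hJ, hsJ, hIJ⟩ := exists_top h2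
      have := htop J hJ
      rw [this] at hIJ
      exact hIJ
    have h3' := L.three (s - 1) h3 (by rw [e2]; exact h2) (by rw [e2]; exact hns)
    have hgs := hg (s - 1) h3 (by rw [e2]; exact h2)
    rw [e2] at h3' hgs
    have hg0 : gN r σ x D s = 0 := by
      rcases h3' with h | h
      · rw [hgs, h]
      · omega
    have key : ∀ k, s + k ≤ u → gN r σ x D (s + k) = 0 := by
      intro k
      induction k with
      | zero => intro _; exact hg0
      | succ k ih =>
        intro hk
        have i1 := ih (by omega)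
        have m1 : s + k ∈ D := hI (Finset.mem_Icc.2 ⟨by omega, by omega⟩)
        have m2 : s + k + 1 ∈ D := hI (Finset.mem_Icc.2 ⟨by omega, by omega⟩)
        have h5 := hg (s + k) m1 m2
        have h6 := L.nu (s + k) m1
        have e3 : s + (k + 1) = s + k + 1 := by ring
        rw [e3, h5]
        omega
    have := key (u - s) (by omega)
    have e4 : s + (u - s) = u := by omega
    rw [e4] at this
    omega
  · -- representative in the same row
    have hrow : rep r σ x c / σ = u := by
      have := rep_row_le (σ := σ) r x c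
      omega
    have hne : ((rep r σ x c : ℕ) : ZMod σ) ≠ ((c : ℕ) : ZMod σ) := by
      intro h
      exact hlt.ne (cell_ext (σ := σ) (hrow.trans hc.symm) h)
    have hfl : fN r σ x u < σ := by
      apply fN_lt_of_rep hne
      have a1 := cell_eq (σ := σ) (rep r σ x c)
      have a2 := cell_eq (σ := σ) c
      rw [hrow] at a1
      rw [hc] at a2
      rw [a1, a2, rep_rep]
    have h4 := L.four (u - 1) h1 (by rw [e1]; exact hu) (by rw [e1]; exact hfl)
    have hgu := hg (u - 1) h1 (by rw [e1]; exact hu)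
    rw [e1] at h4 hgu
    have : 0 ≤ (if 0 < nN r σ x D (u - 1) then 1 else 0) := Nat.zero_le _
    omega

theorem per_root (hr : 2 ≤ r) (hσ1 : r < σ) (hσ2 : σ < 2 * r) (B : ℕ) (hx : IsProc r σ y x)
    {T u : ℕ} (hno : ∀ m < T, (clo r σ x m).card ≤ B) (hu : u < T)
    (hp : ¬ Aper σ (xrow σ x u)) (hb : BadRow r σ x u) :
    ∃ H ⊆ Finset.range T, H.card ≤ B ∧
      σ - σ / 2 + max 1 (r * H.card) ≤ rk y (cellsOf σ (nb T B ({u} ∪ H))) := by
  set D := cloS r σ x {u} with hDdef
  have hD : Closed r σ x D := cloS_closed r x {u}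
  have huD : u ∈ D := subset_cloS r x {u} (Finset.mem_singleton_self u)
  have hmax : ∀ j ∈ D, j ≤ u := by
    intro j hj
    obtain ⟨m, hm, hjm⟩ := cloS_le (r := r) (σ := σ) (x := x) hj
    rw [Finset.mem_singleton] at hm
    omega
  have hDT : D ⊆ Finset.range T := fun j hj => Finset.mem_range.2 (by have := hmax j hj; omega)
  have hcard : D.card ≤ B := by
    have := cloS_card_le (R := {u}) (B := B) (fun m hm => by
      rw [Finset.mem_singleton] at hm
      rw [hm]
      exact hno u hu)
    rw [Finset.card_singleton, one_mul] at this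
    exact this
  have huT : u ∈ tops D := Finset.mem_filter.2 ⟨huD, fun h => by have := hmax _ h; omega⟩
  set H := (tops D).filter fun j => j ≠ u with hH
  have hHD : H ⊆ D := fun j hj => (Finset.mem_filter.1 (Finset.mem_filter.1 hj).1).1
  have hcov : rk y (VV r σ x D) ≤ rk y (cellsOf σ (nb T B ({u} ∪ H))) := by
    apply rk_cover hD hDT hcard
    intro J hJ
    refine ⟨J, ?_, le_rfl, ?_⟩
    · by_cases h : J = u
      · exact Finset.mem_union.2 (Or.inl (Finset.mem_singleton.2 h))
      · exact Finset.mem_union.2 (Or.inr (Finset.mem_filter.2 ⟨hJ, h⟩))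
    · rw [Finset.Icc_self]
      exact Finset.singleton_subset_iff.2 (Finset.mem_filter.1 hJ).1
  refine ⟨H, hHD.trans hDT, (Finset.card_le_card hHD).trans hcard, le_trans ?_ hcov⟩
  have L := isLoc (σ := σ) hr hx hD
  have hsum := rk_eq_sum (r := r) (σ := σ) (x := x) (D := D) y
  have hν : nuN r σ y x D u ≤ σ / 2 := by
    rw [nuN_eq hx huD]
    exact (Finset.card_le_card Finset.sdiff_subset).trans (card_letters_le hp)
  have hHf : ((tops D).filter fun j => j ≠ u ∧ 0 < nN r σ x D j) = H := by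
    apply Finset.filter_congr
    intro j hj
    constructor
    · exact fun h => h.1
    · intro h
      exact ⟨h, cloS_top hj (by rw [Finset.mem_singleton]; exact h)⟩
  have hC := L.C hr hσ1 (j0 := u) (J0 := u) (by
    rw [Finset.Icc_self]
    exact Finset.singleton_subset_iff.2 huD) le_rfl (Finset.mem_filter.1 huT).2
  rw [hHf, ← hsum] at hC
  by_cases h0 : H.card = 0
  · -- only one top
    have hHe : H = ∅ := Finset.card_eq_zero.1 h0
    have htop : ∀ j ∈ tops D, j = u := by
      intro j hj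
      by_contra h
      have : j ∈ H := Finset.mem_filter.2 ⟨hj, h⟩
      rw [hHe] at this
      exact absurd this (Finset.notMem_empty j)
    obtain ⟨j, hj, hj1, hne⟩ := per_root_core hr hx hD huD hmax htop hb
    have hstar := L.star
    rw [← hsum] at hstar
    have t1 : ((σ : ℤ) - nuN r σ y x D u) ≤ ∑ j ∈ tops D, ((σ : ℤ) - nuN r σ y x D j) := by
      refine Finset.single_le_sum (f := fun j => ((σ : ℤ) - nuN r σ y x D j)) ?_ huT
      intro i hi
      have hiD := (Finset.mem_filter.1 hi).1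
      have a1 := L.nu i hiD
      have a2 := L.sum i hiD
      have a3 := L.fle i hiD
      have : nuN r σ y x D i ≤ σ := by omega
      have : (nuN r σ y x D i : ℤ) ≤ σ := by exact_mod_cast this
      show (0 : ℤ) ≤ (σ : ℤ) - nuN r σ y x D i
      linarith
    have t2 : ((gN r σ x D (j + 1) : ℤ) - nuN r σ y x D j) ≤
        ∑ j ∈ D.filter (fun j => j + 1 ∈ D), ((gN r σ x D (j + 1) : ℤ) - nuN r σ y x D j) := by
      refine Finset.single_le_sum (f := fun j => ((gN r σ x D (j + 1) : ℤ) - nuN r σ y x D j)) ?_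
        (Finset.mem_filter.2 ⟨hj, hj1⟩)
      intro i hi
      obtain ⟨i1, i2⟩ := Finset.mem_filter.1 hi
      have a1 := L.step hr hσ1 i1 i2
      have : (nuN r σ y x D i : ℤ) ≤ gN r σ x D (i + 1) := by exact_mod_cast a1
      show (0 : ℤ) ≤ (gN r σ x D (i + 1) : ℤ) - nuN r σ y x D i
      linarith
    have t3 : (1 : ℤ) ≤ (gN r σ x D (j + 1) : ℤ) - nuN r σ y x D j := by
      have a1 := L.step hr hσ1 hj hj1
      omega
    rw [h0, Nat.mul_zero]
    have h5 : max 1 0 = 1 := rfl
    rw [h5]
    zify at *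
    omega
  · have h1 : 1 ≤ H.card := Nat.one_le_iff_ne_zero.2 h0
    have h2 : 1 ≤ r * H.card := Nat.one_le_iff_ne_zero.2 (Nat.mul_ne_zero (by omega) h0)
    rw [max_eq_right h2]
    have e : ((r * H.card : ℕ) : ℤ) = (r : ℤ) * (H.card : ℤ) := by push_cast; rfl
    rw [← e] at hC
    omega

end CAB
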