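import Pool.Agent.Lib.MP_eab41b_pr.B.A1

/-! Row B2: the number of windows that contain a letter outside `S`.

Sketch: for each letter `a ∉ S` of `z` choose a position; the windows ending there (place 0 is `a`) are
different: that gives `ν` windows. There is a window without new letters, ending at `i0`; go backward from
`i0` to the first position `p = i0 - e` with `z p ∉ S` (exists since `ν > 0`; `e ≥ r`): `z (p + 1), ...,
z (p + r - 1)` are in `S`. The window ending at `p + d`, `d = 1, ..., r - 1`, has its first new letter at place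
`d`, so these `r - 1` windows are different and different from the others. -/

set_option autoImplicit false

set_option linter.unusedSectionVars false

open scoped Classical

namespace CAB

variable {α : Type} {σ : ℕ} [NeZero σ]

theorem new_windows {r : ℕ} (hr : 1 ≤ r) (z : ZMod σ → α) (S : Finset α) (i0 : ZMod σ)
    (h0 : ∀ k : Fin r, z (i0 - ((k : ℕ) : ZMod σ)) ∈ S)
    (hν : 0 < ((Finset.univ.image z) \ S).card) :
    ((Finset.univ.image z) \ S).card + (r - 1) ≤
      ((Finset.univ.filter fun i : ZMod σ =>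
        ∃ k : Fin r, z (i - ((k : ℕ) : ZMod σ)) ∉ S).image (win r σ z)).card := by
  set W := ((Finset.univ.filter fun i : ZMod σ =>
        ∃ k : Fin r, z (i - ((k : ℕ) : ZMod σ)) ∉ S).image (win r σ z)) with hW
  have hmem : ∀ i : ZMod σ, (∃ k : Fin r, z (i - ((k : ℕ) : ZMod σ)) ∉ S) → win r σ z i ∈ W := by
    intro i hi
    rw [hW]
    exact Finset.mem_image_of_mem _ (Finset.mem_filter.2 ⟨Finset.mem_univ _, hi⟩)
  let o : Fin r := ⟨0, hr⟩
  have h1 : ((Finset.univ.image z) \ S).card ≤ (W.filter fun w => ¬ w o ∈ S).card := by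
    have hsub : (Finset.univ.image z) \ S ⊆ (W.filter fun w => ¬ w o ∈ S).image fun w => w o := by
      intro a ha
      rw [Finset.mem_sdiff, Finset.mem_image] at ha
      obtain ⟨⟨i, -, hi⟩, haS⟩ := ha
      have hwo : win r σ z i o = a := by
        unfold win
        show z (i - ((0 : ℕ) : ZMod σ)) = a
        rw [Nat.cast_zero, sub_zero, hi]
      refine Finset.mem_image.2 ⟨win r σ z i, Finset.mem_filter.2 ⟨hmem i ⟨o, ?_⟩, ?_⟩, hwo⟩
      · show z (i - ((0 : ℕ) : ZMod σ)) ∉ S
        rw [Nat.cast_zero, sub_zero, hi]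
        exact haS
      · rw [hwo]
        exact haS
    exact (Finset.card_le_card hsub).trans Finset.card_image_le
  have hex : ∃ e : ℕ, z (i0 - (e : ZMod σ)) ∉ S := by
    obtain ⟨a, ha⟩ := Finset.card_pos.1 hν
    rw [Finset.mem_sdiff, Finset.mem_image] at ha
    obtain ⟨⟨i, -, hi⟩, haS⟩ := ha
    refine ⟨(i0 - i).val, ?_⟩
    rw [ZMod.natCast_zmod_val, sub_sub_cancel, hi]
    exact haS
  set e := Nat.find hex with he
  have hee : z (i0 - (e : ZMod σ)) ∉ S := Nat.find_spec hex
  have hmin : ∀ d < e, z (i0 - (d : ZMod σ)) ∈ S := fun d hd => not_not.1 (Nat.find_min hex hd)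
  have hre : r ≤ e := by
    by_contra hcon
    push Not at hcon
    exact hee (h0 ⟨e, hcon⟩)
  set p : ZMod σ := i0 - (e : ZMod σ) with hp
  have hpd : ∀ d, 1 ≤ d → d ≤ e → z (p + (d : ZMod σ)) ∈ S := by
    intro d hd1 hd2
    have h2 := hmin (e - d) (by omega)
    rw [Nat.cast_sub hd2] at h2
    have h3 : i0 - ((e : ZMod σ) - (d : ZMod σ)) = p + (d : ZMod σ) := by
      rw [hp]
      ring
    rwa [h3] at h2
  have h2 : r - 1 ≤ (W.filter fun w => w o ∈ S).card := by
    have h3 : (Finset.range (r - 1)).card ≤ (W.filter fun w => w o ∈ S).card := by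
      refine Finset.card_le_card_of_injOn (fun d => win r σ z (p + ((d + 1 : ℕ) : ZMod σ))) ?_ ?_
      · intro d hd
        have hd' : d < r - 1 := Finset.mem_range.1 (Finset.mem_coe.1 hd)
        refine Finset.mem_coe.2 (Finset.mem_filter.2 ⟨hmem _ ⟨⟨d + 1, by omega⟩, ?_⟩, ?_⟩)
        · show z (p + ((d + 1 : ℕ) : ZMod σ) - ((d + 1 : ℕ) : ZMod σ)) ∉ S
          rw [add_sub_cancel_right]
          exact hee
        · show z (p + ((d + 1 : ℕ) : ZMod σ) - ((0 : ℕ) : ZMod σ)) ∈ S
          rw [Nat.cast_zero, sub_zero]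
          exact hpd (d + 1) (by omega) (by omega)
      · have key : ∀ d d' : ℕ, d < d' → d' < r - 1 →
            win r σ z (p + ((d + 1 : ℕ) : ZMod σ)) ≠ win r σ z (p + ((d' + 1 : ℕ) : ZMod σ)) := by
          intro d d' hdd hd' heq
          have h4 := congrFun heq ⟨d + 1, by omega⟩
          have h5 : z (p + ((d + 1 : ℕ) : ZMod σ) - ((d + 1 : ℕ) : ZMod σ)) =
              z (p + ((d' + 1 : ℕ) : ZMod σ) - ((d + 1 : ℕ) : ZMod σ)) := h4
          rw [add_sub_cancel_right] at h5
          have h6 : p + ((d' + 1 : ℕ) : ZMod σ) - ((d + 1 : ℕ) : ZMod σ) =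
              p + ((d' - d : ℕ) : ZMod σ) := by
            rw [Nat.cast_sub hdd.le]
            push_cast
            ring
          rw [h6] at h5
          have h7 := hpd (d' - d) (by omega) (by omega)
          rw [← h5] at h7
          exact hee h7
        intro d hd d' hd' heq
        have hd1 : d < r - 1 := Finset.mem_range.1 (Finset.mem_coe.1 hd)
        have hd2 : d' < r - 1 := Finset.mem_range.1 (Finset.mem_coe.1 hd')
        rcases lt_trichotomy d d' with h | h | h
        · exact absurd heq (key d d' h hd2)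
        · exact h
        · exact absurd heq.symm (key d' d h hd1)
    rwa [Finset.card_range] at h3
  have h3 := Finset.card_filter_add_card_filter_not (s := W) (fun w => w o ∈ S)
  omega

end CAB
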