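import Pool.Agent.Lib.MP_eab41b_pr.B.B1
import Pool.Agent.Lib.MP_eab41b_pr.B.B4

/-! Row B5: inequality (4) and the structure `Loc`.

Sketch of `four`: `f_{j+1} < σ` gives two cells of row `j + 1` with the same representative (`rep_of_fN_lt`), so they have keys and row `j`
is used, in particular aperiodic; all cells of row `j + 1` have keys, so `f_{j+1}` is the number of different
windows of row `j` (`rep_eq_of_key`, `rep_hasKey`, `key_cell`). `windows_ge`: it is `≥ (number of letters of row j) + (r - 1)`.
`nuN_eq`: `ν_j` is the number of letters outside `S`; if `n_j > 0` then one letter of row `j` is in `S`.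
`isLoc`: collect `fN_le`, `fN_sum`, `nuN_le`, `bottom`, `three`, `four`. -/

set_option autoImplicit false

set_option linter.unusedSectionVars false

open scoped Classical

namespace CAB

variable {α : Type} {r σ : ℕ} [NeZero σ] {x y : ℕ → α} {D : Finset ℕ}

private theorem B5_windows_le (x : ℕ → α) (j : ℕ) (hu : Used σ x j) :
    (Finset.univ.image (win r σ (xrow σ x j))).card ≤ fN r σ x (j + 1) := by
  have hsub : Finset.univ.image (win r σ (xrow σ x j)) ⊆
      (FF r σ x (j + 1)).image (key r σ x) := by
    intro w hw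
    obtain ⟨i, -, rfl⟩ := Finset.mem_image.1 hw
    refine Finset.mem_image.2 ⟨rep r σ x ((j + 1) * σ + i.val), mem_FF.2 ⟨i, rfl⟩, ?_⟩
    rw [(rep_hasKey ((hasKey_cell x j i).2 hu)).2, key_cell]
  exact (Finset.card_le_card hsub).trans Finset.card_image_le

theorem four (hr : 2 ≤ r) (hx : IsProc r σ y x) (hD : Closed r σ x D) {j : ℕ} (hj : j ∈ D)
    (hj1 : j + 1 ∈ D) (hf : fN r σ x (j + 1) < σ) :
    nuN r σ y x D j + (r - 1) + (if 0 < nN r σ x D j then 1 else 0) ≤ fN r σ x (j + 1) := by
  obtain ⟨i, i', hne, hrep⟩ := rep_of_fN_lt hf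
  have hcell : (j + 1) * σ + i.val ≠ (j + 1) * σ + i'.val := by
    intro h
    apply hne
    have h1 := cell_cast (j + 1) i
    have h2 := cell_cast (j + 1) i'
    rw [h] at h1
    rw [← h1, h2]
  have hu : Used σ x j := (hasKey_cell x j i).1 (rep_eq_imp hrep hcell).1
  have h1 := B5_windows_le (r := r) x j hu
  have h2 : (Finset.univ.image (xrow σ x j)).card + (r - 1) ≤ fN r σ x (j + 1) := by
    rcases windows_ge (r := r) (by omega) hu.1 with h | h
    · rw [h] at h1
      omega
    · exact h.trans h1
  rw [nuN_eq hx hj]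
  by_cases hn : 0 < nN r σ x D j
  · rw [if_pos hn]
    obtain ⟨i0, c, hc, hlt, hcr⟩ := nN_pos_imp hn
    have hS : xrow σ x j i0 ∈
        (((VV r σ x D).filter fun v => j < Lev r σ x D v).image y) := by
      refine Finset.mem_image.2 ⟨rep r σ x c, ?_, ?_⟩
      · exact Finset.mem_filter.2 ⟨mem_VV.2 ⟨c, hc, rfl⟩, lt_of_lt_of_le hlt (le_Lev hc)⟩
      · rw [hcr]
        exact (hx (j * σ + i0.val)).symm
    have h3 : ((Finset.univ.image (xrow σ x j)) \
        (((VV r σ x D).filter fun v => j < Lev r σ x D v).image y)).card <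
          (Finset.univ.image (xrow σ x j)).card := by
      refine Finset.card_lt_card ⟨Finset.sdiff_subset, fun hc' => ?_⟩
      have h4 := hc' (Finset.mem_image.2 ⟨i0, Finset.mem_univ _, rfl⟩)
      exact (Finset.mem_sdiff.1 h4).2 hS
    omega
  · rw [if_neg hn]
    have h3 : ((Finset.univ.image (xrow σ x j)) \
        (((VV r σ x D).filter fun v => j < Lev r σ x D v).image y)).card ≤
          (Finset.univ.image (xrow σ x j)).card := Finset.card_le_card Finset.sdiff_subset
    omega

theorem isLoc (hr : 2 ≤ r) (hx : IsProc r σ y x) (hD : Closed r σ x D) :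
    Loc r σ D (gN r σ x D) (nuN r σ y x D) (nN r σ x D) (fN r σ x) where
  fle := fun j _ => fN_le r x j
  sum := fun j hj => fN_sum hj
  nu := fun j _ => nuN_le y j
  bot := fun j hj hb => bottom hD hj hb
  three := fun j hj hj1 hn => three hr hx hD hj hj1 hn
  four := fun j hj hj1 hf => four hr hx hD hj hj1 hf

end CAB
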