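import Pool.Agent.Lib.MP_eab41b_pr.B.A0

/-! Row C1a: averages (elementary; all `Fin T → Row σ n` are finite sums divided by their number
`((n : ℝ) ^ σ) ^ T`, `Fintype.card (Row σ n) = n ^ σ` by `ZMod.card`). The last part: resampling the row `m`.

`Ex_upd`: `(y, z) ↦ Function.update y m z` maps every element of `Fin T → Row` exactly `n ^ σ` times;
`seqR (Function.update y m z) = updR m (seqR y) z`. `Ex_local`: rows `≥ T` do not matter. -/

set_option autoImplicit false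

set_option linter.unusedSectionVars false

open scoped Classical

namespace CAB

variable {σ n : ℕ} [NeZero n] [NeZero σ]

theorem card_Row : Fintype.card (Row σ n) = n ^ σ := by
  rw [Fintype.card_fun, Fintype.card_fin, ZMod.card]

private theorem C1a_pos (T : ℕ) : 0 < (((n : ℝ) ^ σ) ^ T) := by
  have hn : (0 : ℝ) < n := by exact_mod_cast Nat.pos_of_ne_zero (NeZero.ne n)
  positivity

theorem Ex_const (T : ℕ) (a : ℝ) : Ex σ n T (fun _ => a) = a := by
  have hpos : (((n : ℝ) ^ σ) ^ T) ≠ 0 := (C1a_pos (σ := σ) (n := n) T).ne'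
  unfold Ex
  have hcard : Fintype.card (Fin T → Row σ n) = (n ^ σ) ^ T := by
    rw [Fintype.card_fun, Fintype.card_fin, card_Row]
  rw [Finset.sum_const, Finset.card_univ, hcard, nsmul_eq_mul]
  push_cast
  field_simp

theorem Ex_add (T : ℕ) (G H : (ℕ → Fin n) → ℝ) :
    Ex σ n T (fun y => G y + H y) = Ex σ n T G + Ex σ n T H := by
  unfold Ex
  rw [Finset.sum_add_distrib, add_div]

theorem Ex_sub (T : ℕ) (G H : (ℕ → Fin n) → ℝ) :
    Ex σ n T (fun y => G y - H y) = Ex σ n T G - Ex σ n T H := by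
  unfold Ex
  rw [Finset.sum_sub_distrib, sub_div]

theorem Ex_mul (T : ℕ) (a : ℝ) (G : (ℕ → Fin n) → ℝ) :
    Ex σ n T (fun y => a * G y) = a * Ex σ n T G := by
  unfold Ex
  rw [← Finset.mul_sum, mul_div_assoc]

theorem Ex_sum {ι : Type} (T : ℕ) (s : Finset ι) (G : ι → (ℕ → Fin n) → ℝ) :
    Ex σ n T (fun y => ∑ i ∈ s, G i y) = ∑ i ∈ s, Ex σ n T (G i) := by
  unfold Ex
  rw [Finset.sum_comm, Finset.sum_div]

theorem Ex_mono {T : ℕ} {G H : (ℕ → Fin n) → ℝ} (h : ∀ y, G y ≤ H y) :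
    Ex σ n T G ≤ Ex σ n T H := by
  unfold Ex
  exact div_le_div_of_nonneg_right (Finset.sum_le_sum fun y _ => h _) (C1a_pos T).le

theorem Ex_nonneg {T : ℕ} {G : (ℕ → Fin n) → ℝ} (h : ∀ y, 0 ≤ G y) : 0 ≤ Ex σ n T G := by
  unfold Ex
  exact div_nonneg (Finset.sum_nonneg fun y _ => h _) (C1a_pos T).le

/-- equality or inequality is only needed on the sequences of `T` rows -/
theorem Ex_congr {T : ℕ} {G H : (ℕ → Fin n) → ℝ} (h : ∀ y : Fin T → Row σ n,
    G (seqR σ n T y) = H (seqR σ n T y)) : Ex σ n T G = Ex σ n T H := by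
  unfold Ex
  congr 1
  exact Finset.sum_congr rfl fun y _ => h y

theorem abs_Ex_sub_le {T : ℕ} {G H D : (ℕ → Fin n) → ℝ} (h : ∀ y, |G y - H y| ≤ D y) :
    |Ex σ n T G - Ex σ n T H| ≤ Ex σ n T D := by
  rw [← Ex_sub, abs_le]
  constructor
  · have h1 : -Ex σ n T D = Ex σ n T (fun y => (-1) * D y) := by
      rw [Ex_mul]; ring
    rw [h1]
    exact Ex_mono fun y => by linarith [(abs_le.1 (h y)).1]
  · exact Ex_mono fun y => (abs_le.1 (h y)).2

theorem Pr_mono {T : ℕ} {E F : (ℕ → Fin n) → Prop} (h : ∀ y, E y → F y) :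
    Pr σ n T E ≤ Pr σ n T F := by
  unfold Pr
  refine Ex_mono fun y => ?_
  by_cases hE : E y
  · rw [if_pos hE, if_pos (h y hE)]
  · rw [if_neg hE]
    split_ifs <;> norm_num

theorem Pr_nonneg (T : ℕ) (E : (ℕ → Fin n) → Prop) : 0 ≤ Pr σ n T E := by
  unfold Pr
  refine Ex_nonneg fun y => ?_
  split_ifs <;> norm_num

theorem Pr_le_one (T : ℕ) (E : (ℕ → Fin n) → Prop) : Pr σ n T E ≤ 1 := by
  have h : Pr σ n T E ≤ Ex σ n T (fun _ => (1 : ℝ)) := by
    unfold Pr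
    refine Ex_mono fun y => ?_
    split_ifs <;> norm_num
  rwa [Ex_const] at h

theorem Pr_or (T : ℕ) (E F : (ℕ → Fin n) → Prop) :
    Pr σ n T (fun y => E y ∨ F y) ≤ Pr σ n T E + Pr σ n T F := by
  unfold Pr
  rw [← Ex_add]
  refine Ex_mono fun y => ?_
  by_cases hE : E y <;> by_cases hF : F y <;> simp [hE, hF]

theorem Pr_exists {ι : Type} (T : ℕ) (s : Finset ι) (E : ι → (ℕ → Fin n) → Prop) :
    Pr σ n T (fun y => ∃ i ∈ s, E i y) ≤ ∑ i ∈ s, Pr σ n T (E i) := by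
  unfold Pr
  rw [← Ex_sum]
  refine Ex_mono fun y => ?_
  by_cases h : ∃ i ∈ s, E i y
  · rw [if_pos h]
    obtain ⟨i, hi, hE⟩ := h
    calc (1 : ℝ) = if E i y then 1 else 0 := by rw [if_pos hE]
      _ ≤ ∑ i ∈ s, if E i y then (1 : ℝ) else 0 :=
        Finset.single_le_sum (f := fun i => if E i y then (1 : ℝ) else 0)
          (fun j _ => by split_ifs <;> norm_num) hi
  · rw [if_neg h]
    exact Finset.sum_nonneg fun j _ => by split_ifs <;> norm_num

theorem Pr_not (T : ℕ) (E : (ℕ → Fin n) → Prop) :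
    Pr σ n T (fun y => ¬ E y) = 1 - Pr σ n T E := by
  have h : Pr σ n T (fun y => ¬ E y) =
      Ex σ n T (fun y => (1 : ℝ) - (if E y then 1 else 0)) := by
    unfold Pr
    refine Ex_congr fun y => ?_
    by_cases hE : E (seqR σ n T y) <;> simp [hE]
  rw [h, Ex_sub, Ex_const]
  rfl

/-- disjoint events -/
theorem Pr_disj {ι : Type} (T : ℕ) (s : Finset ι) (E : ι → (ℕ → Fin n) → Prop)
    (hd : ∀ y, ∀ i ∈ s, ∀ i' ∈ s, E i y → E i' y → i = i') :
    ∑ i ∈ s, Pr σ n T (E i) = Pr σ n T (fun y => ∃ i ∈ s, E i y) := by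
  unfold Pr
  rw [← Ex_sum]
  refine Ex_congr fun y => ?_
  by_cases h : ∃ i ∈ s, E i (seqR σ n T y)
  · rw [if_pos h]
    obtain ⟨i, hi, hE⟩ := h
    rw [Finset.sum_eq_single i, if_pos hE]
    · intro j hj hji
      rw [if_neg fun hEj => hji (hd _ j hj i hi hEj hE)]
    · intro h
      exact absurd hi h
  · rw [if_neg h]
    refine Finset.sum_eq_zero fun j hj => ?_
    rw [if_neg fun hEj => h ⟨j, hj, hEj⟩]

theorem Pr_markov {T : ℕ} {G : (ℕ → Fin n) → ℝ} (hG : ∀ y, 0 ≤ G y) {a : ℝ} (ha : 0 ≤ a)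
    {E : (ℕ → Fin n) → Prop} (hE : ∀ y, E y → a ≤ G y) : a * Pr σ n T E ≤ Ex σ n T G := by
  unfold Pr
  rw [← Ex_mul]
  refine Ex_mono fun y => ?_
  by_cases h : E y
  · rw [if_pos h, mul_one]; exact hE y h
  · rw [if_neg h, mul_zero]; exact hG y

end CAB
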