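import Pool.Agent.Lib.MP_eab41b_pr.B.A0
import Pool.Agent.Lib.MP_eab41b_pr.B.C1a

/-! Row C1: averages (elementary; all `Fin T → Row σ n` are finite sums divided by their number
`((n : ℝ) ^ σ) ^ T`, `Fintype.card (Row σ n) = n ^ σ` by `ZMod.card`). The last part: resampling the row `m`.

`Ex_upd`: `(y, z) ↦ Function.update y m z` maps every element of `Fin T → Row` exactly `n ^ σ` times;
`seqR (Function.update y m z) = updR m (seqR y) z`. `Ex_local`: rows `≥ T` do not matter. -/

set_option autoImplicit false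

set_option linter.unusedSectionVars false

open scoped Classical

namespace CAB

variable {σ n : ℕ} [NeZero n] [NeZero σ]

theorem seqR_update {T m : ℕ} (hm : m < T) (y : Fin T → Row σ n) (z : Row σ n) :
    seqR σ n T (Function.update y ⟨m, hm⟩ z) = updR σ n m (seqR σ n T y) z := by
  funext c
  unfold updR
  by_cases hc : c / σ = m
  · rw [if_pos hc]
    unfold seqR
    have h : c / σ < T := hc ▸ hm
    rw [dif_pos h]
    have e : (⟨c / σ, h⟩ : Fin T) = ⟨m, hm⟩ := Fin.ext hc
    rw [e, Function.update_self]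
  · rw [if_neg hc]
    unfold seqR
    by_cases h : c / σ < T
    · rw [dif_pos h, dif_pos h]
      have e : (⟨c / σ, h⟩ : Fin T) ≠ ⟨m, hm⟩ := fun h' => hc (congrArg Fin.val h')
      rw [Function.update_of_ne e]
    · rw [dif_neg h, dif_neg h]

private theorem C1_pos : ((n : ℝ) ^ σ) ≠ 0 := pow_ne_zero _ (Nat.cast_ne_zero.2 (NeZero.ne n))

private theorem C1_card : (Fintype.card (Row σ n) : ℝ) = (n : ℝ) ^ σ := by
  rw [card_Row, Nat.cast_pow]

private theorem C1_sum {T : ℕ} (m : Fin T) (F : (Fin T → Row σ n) → ℝ) :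
    ∑ y : Fin T → Row σ n, ∑ z : Row σ n, F (Function.update y m z) =
      (n : ℝ) ^ σ * ∑ y : Fin T → Row σ n, F y := by
  have hinv : Function.Involutive (fun q : (Fin T → Row σ n) × Row σ n =>
      ((Function.update q.1 m q.2, q.1 m) : (Fin T → Row σ n) × Row σ n)) := by
    rintro ⟨y, z⟩
    simp
  have h1 : ∑ q : (Fin T → Row σ n) × Row σ n, F (Function.update q.1 m q.2) =
      ∑ q : (Fin T → Row σ n) × Row σ n, F q.1 :=
    Equiv.sum_comp (hinv.toPerm _) (fun q : (Fin T → Row σ n) × Row σ n => F q.1)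
  rw [← Fintype.sum_prod_type' (fun (y : Fin T → Row σ n) (z : Row σ n) =>
    F (Function.update y m z)), h1,
    Fintype.sum_prod_type' (fun (y : Fin T → Row σ n) (_ : Row σ n) => F y)]
  simp only [Finset.sum_const, Finset.card_univ, nsmul_eq_mul]
  rw [C1_card, Finset.mul_sum]

/-- resampling the row `m` -/
theorem Ex_upd {T m : ℕ} (hm : m < T) (G : (ℕ → Fin n) → ℝ) :
    Ex σ n T G = Ex σ n T (fun y => (∑ z : Row σ n, G (updR σ n m y z)) / (n : ℝ) ^ σ) := by
  unfold Ex
  congr 1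
  rw [← Finset.sum_div, eq_div_iff (C1_pos (σ := σ) (n := n))]
  have h1 := C1_sum (⟨m, hm⟩ : Fin T) (fun y => G (seqR σ n T y))
  simp only [seqR_update hm] at h1
  rw [h1, mul_comm]

private theorem C1_succ {T : ℕ} {G : (ℕ → Fin n) → ℝ} (hG : LocalTo n (T * σ) G) :
    Ex σ n (T + 1) G = Ex σ n T G := by
  have h1 : ∀ (z : Row σ n) (y : Fin T → Row σ n),
      G (seqR σ n (T + 1) (Fin.snoc (α := fun _ => Row σ n) y z)) = G (seqR σ n T y) := by
    intro z y
    apply hG
    intro c hc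
    have hc' : c / σ < T := lt_row_iff.1 hc
    unfold seqR
    rw [dif_pos hc', dif_pos (Nat.lt_succ_of_lt hc')]
    have h2 : (Fin.snoc (α := fun _ => Row σ n) y z : Fin (T + 1) → Row σ n)
        (Fin.castSucc ⟨c / σ, hc'⟩) = y ⟨c / σ, hc'⟩ := Fin.snoc_castSucc _ _ _
    exact congrFun h2 _
  have h3 : ∑ y : Fin (T + 1) → Row σ n, G (seqR σ n (T + 1) y) =
      (n : ℝ) ^ σ * ∑ y : Fin T → Row σ n, G (seqR σ n T y) := by
    rw [← Equiv.sum_comp (Fin.snocEquiv (fun _ : Fin (T + 1) => Row σ n))]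
    rw [Fintype.sum_prod_type]
    have h4 : ∀ (z : Row σ n) (y : Fin T → Row σ n),
        G (seqR σ n (T + 1) (Fin.snocEquiv (fun _ : Fin (T + 1) => Row σ n) (z, y))) =
          G (seqR σ n T y) := fun z y => h1 z y
    simp only [h4, Finset.sum_const, Finset.card_univ, nsmul_eq_mul]
    rw [C1_card]
  unfold Ex
  rw [h3, pow_succ, mul_comm, mul_div_mul_right _ _ (C1_pos (σ := σ) (n := n))]

theorem Ex_local {T M : ℕ} (hTM : T ≤ M) {G : (ℕ → Fin n) → ℝ} (hG : LocalTo n (T * σ) G) :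
    Ex σ n M G = Ex σ n T G := by
  induction M, hTM using Nat.le_induction with
  | base => rfl
  | succ M hM ih =>
    rw [C1_succ (hG.mono (Nat.mul_le_mul_right σ hM)), ih]

theorem Pr_local {T M : ℕ} (hTM : T ≤ M) {E : (ℕ → Fin n) → Prop} (hE : LocalTo n (T * σ) E) :
    Pr σ n M E = Pr σ n T E := by
  unfold Pr
  refine Ex_local hTM ?_
  intro y y' h
  have h1 := hE y y' h
  simp only [h1]

end CAB
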