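import Pool.Agent.Lib.MP_eab41b_pr.B.C1

/-! Row C3a: an event of the past and a condition on the next row.

Sketch: `Ex_upd` for the row `m`; `LocalTo.updR`, `xrow_updR`: the inner sum is `1_A(y)` times the number of `z` with
`B y z`. -/

set_option autoImplicit false

set_option linter.unusedSectionVars false

open scoped Classical

namespace CAB

variable {σ n : ℕ} [NeZero n] [NeZero σ]

private theorem c3a_image (z0 : Row σ n) :
    (Finset.univ.filter fun z : Row σ n => Eqv σ z z0) =
      (Finset.univ : Finset (ZMod σ)).image fun j => rot σ j z0 := by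
  ext z
  simp only [Finset.mem_filter, Finset.mem_univ, true_and, Finset.mem_image]
  constructor
  · rintro ⟨j, hj⟩
    exact ⟨j, hj.symm⟩
  · rintro ⟨j, hj⟩
    exact ⟨j, hj.symm⟩

/-- the number of rows equivalent to a given one, or to one of `k` given ones -/
theorem card_eqv_le (z0 : Row σ n) :
    (Finset.univ.filter fun z : Row σ n => Eqv σ z z0).card ≤ σ := by
  rw [c3a_image]
  refine Finset.card_image_le.trans ?_
  rw [Finset.card_univ, ZMod.card]

theorem card_eqv_eq {z0 : Row σ n} (h : Aper σ z0) :
    (Finset.univ.filter fun z : Row σ n => Eqv σ z z0).card = σ := by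
  rw [c3a_image, Finset.card_image_of_injective _ fun j j' hj => h.rot_inj hj, Finset.card_univ, ZMod.card]

private theorem c3a_set (y : ℕ → Fin n) (m : ℕ) :
    (Finset.univ.filter fun z : Row σ n => ¬ (Aper σ z ∧ ∀ m' < m, ¬ Eqv σ z (xrow σ y m'))) =
      ((Finset.range m).biUnion fun m' => Finset.univ.filter fun z : Row σ n => Eqv σ z (xrow σ y m')) ∪
        (Finset.univ.filter fun z : Row σ n => ¬ Aper σ z) := by
  ext z
  simp only [Finset.mem_filter, Finset.mem_univ, true_and, Finset.mem_union, Finset.mem_biUnion, Finset.mem_range]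
  constructor
  · intro h
    by_cases hz : Aper σ z
    · left
      by_contra hcon
      exact h ⟨hz, fun m' hm' he => hcon ⟨m', hm', he⟩⟩
    · exact Or.inr hz
  · rintro (⟨m', hm', he⟩ | hz) ⟨h1, h2⟩
    · exact h2 m' hm' he
    · exact hz h1

/-- rows that are not new: not aperiodic or equivalent to a row `m' < m` -/
theorem card_notnew_le (y : ℕ → Fin n) (m : ℕ) :
    ((Finset.univ.filter fun z : Row σ n =>
      ¬ (Aper σ z ∧ ∀ m' < m, ¬ Eqv σ z (xrow σ y m'))).card : ℝ) ≤ σ * m + PN σ n := by
  have h1 : (Finset.univ.filter fun z : Row σ n => ¬ (Aper σ z ∧ ∀ m' < m, ¬ Eqv σ z (xrow σ y m'))).card ≤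
      σ * m + PN σ n := by
    rw [c3a_set]
    refine (Finset.card_union_le _ _).trans (Nat.add_le_add ?_ le_rfl)
    refine Finset.card_biUnion_le.trans ?_
    refine (Finset.sum_le_card_nsmul _ _ σ fun m' _ => card_eqv_le _).trans ?_
    rw [Finset.card_range, smul_eq_mul, mul_comm]
  exact_mod_cast h1

/-- if all rows `< m` are used then there are exactly `σ m + P_n` such rows -/
theorem card_notnew_eq {y : ℕ → Fin n} {m : ℕ} (h : ∀ m' < m, Used σ y m') :
    ((Finset.univ.filter fun z : Row σ n =>
      ¬ (Aper σ z ∧ ∀ m' < m, ¬ Eqv σ z (xrow σ y m'))).card : ℝ) = σ * m + PN σ n := by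
  have h1 : (Finset.univ.filter fun z : Row σ n => ¬ (Aper σ z ∧ ∀ m' < m, ¬ Eqv σ z (xrow σ y m'))).card =
      σ * m + PN σ n := by
    rw [c3a_set, Finset.card_union_of_disjoint, Finset.card_biUnion]
    · congr 1
      rw [Finset.sum_congr rfl fun m' hm' => card_eqv_eq (h m' (Finset.mem_range.1 hm')).1, Finset.sum_const,
        Finset.card_range, smul_eq_mul, mul_comm]
    · intro a ha b hb hab
      rw [Finset.mem_coe, Finset.mem_range] at ha hb
      refine Finset.disjoint_left.2 fun z hz hz' => ?_
      rw [Finset.mem_filter] at hz hz'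
      rcases lt_or_gt_of_ne hab with hlt | hlt
      · exact (h b hb).2 a hlt (hz'.2.symm.trans hz.2)
      · exact (h a ha).2 b hlt (hz.2.symm.trans hz'.2)
    · refine Finset.disjoint_left.2 fun z hz hz' => ?_
      rw [Finset.mem_biUnion] at hz
      obtain ⟨m', hm', hz⟩ := hz
      rw [Finset.mem_filter] at hz hz'
      exact hz'.2 (hz.2.aper (h m' (Finset.mem_range.1 hm')).1)
  exact_mod_cast h1

end CAB
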