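import Pool.Agent.Lib.MP_eab41b_pr.B.C1
import Pool.Agent.Lib.MP_eab41b_pr.B.C3a

/-! Row C3: an event of the past and a condition on the next row.

Sketch: `Ex_upd` for the row `m`; `LocalTo.updR`, `xrow_updR`: the inner sum is `1_A(y)` times the number of `z` with
`B y z`. -/

set_option autoImplicit false

set_option linter.unusedSectionVars false

open scoped Classical

namespace CAB

variable {σ n : ℕ} [NeZero n] [NeZero σ]

private theorem C3_eq {T m : ℕ} (hm : m < T) {A : (ℕ → Fin n) → Prop} (hA : LocalTo n (m * σ) A)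
    {B : (ℕ → Fin n) → Row σ n → Prop} (hB : LocalTo n (m * σ) B) :
    Pr σ n T (fun y => A y ∧ B y (xrow σ y m)) = Ex σ n T (fun y => (if A y then 1 else 0) *
      (((Finset.univ.filter fun z => B y z).card : ℝ) / (n : ℝ) ^ σ)) := by
  unfold Pr
  rw [Ex_upd hm]
  refine Ex_congr fun y => ?_
  rw [← mul_div_assoc]
  refine congrArg (fun t : ℝ => t / (n : ℝ) ^ σ) ?_
  have h1 : ∀ z : Row σ n, A (updR σ n m (seqR σ n T y) z) = A (seqR σ n T y) :=
    fun z => hA.updR (le_refl _) _ z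
  have h2 : ∀ z : Row σ n, B (updR σ n m (seqR σ n T y) z) = B (seqR σ n T y) :=
    fun z => hB.updR (le_refl _) _ z
  by_cases hy : A (seqR σ n T y)
  · rw [if_pos hy, one_mul, ← Finset.sum_boole]
    refine Finset.sum_congr rfl fun z _ => ?_
    by_cases hz : B (seqR σ n T y) z
    · rw [if_pos hz, if_pos]
      show A _ ∧ B _ _
      rw [h1, h2, xrow_updR]
      exact ⟨hy, hz⟩
    · rw [if_neg hz, if_neg]
      show ¬ (A _ ∧ B _ _)
      rw [h1, h2, xrow_updR]
      exact fun h => hz h.2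
  · rw [if_neg hy, zero_mul]
    refine Finset.sum_eq_zero fun z _ => ?_
    rw [if_neg]
    show ¬ (A _ ∧ B _ _)
    rw [h1]
    exact fun h => hy h.1

theorem Pr_row_le {T m : ℕ} (hm : m < T) {A : (ℕ → Fin n) → Prop} (hA : LocalTo n (m * σ) A)
    {B : (ℕ → Fin n) → Row σ n → Prop} (hB : LocalTo n (m * σ) B) {b : ℝ}
    (hb : ∀ y, A y → ((Finset.univ.filter fun z => B y z).card : ℝ) ≤ b) :
    Pr σ n T (fun y => A y ∧ B y (xrow σ y m)) ≤ b / (n : ℝ) ^ σ * Pr σ n T A := by
  rw [C3_eq hm hA hB]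
  unfold Pr
  rw [← Ex_mul]
  refine Ex_mono fun y => ?_
  by_cases hy : A y
  · simp only [if_pos hy, one_mul, mul_one]
    exact div_le_div_of_nonneg_right (hb y hy) (by positivity)
  · simp only [if_neg hy, zero_mul, mul_zero, le_refl]

theorem Pr_row_ge {T m : ℕ} (hm : m < T) {A : (ℕ → Fin n) → Prop} (hA : LocalTo n (m * σ) A)
    {B : (ℕ → Fin n) → Row σ n → Prop} (hB : LocalTo n (m * σ) B) {b : ℝ}
    (hb : ∀ y, A y → b ≤ ((Finset.univ.filter fun z => B y z).card : ℝ)) :
    b / (n : ℝ) ^ σ * Pr σ n T A ≤ Pr σ n T (fun y => A y ∧ B y (xrow σ y m)) := by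
  rw [C3_eq hm hA hB]
  unfold Pr
  rw [← Ex_mul]
  refine Ex_mono fun y => ?_
  by_cases hy : A y
  · simp only [if_pos hy, one_mul, mul_one]
    exact div_le_div_of_nonneg_right (hb y hy) (by positivity)
  · simp only [if_neg hy, zero_mul, mul_zero, le_refl]

end CAB
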