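import Pool.Agent.Lib.MP_eab41b_pr.B.C6
import Pool.Agent.Lib.MP_eab41b_pr.B.B15

/-! Row C8: a single row is rarely bad (Q3).

Sketch: `T^2 ≤ Λ n^σ`. If `n ≥ Λ^2` then `T^4 ≤ n^(2σ+1)`, so `Pr_viol` (with `C' = 1`) applies; `bad_root`, `union_rk` with `R = {m}`, `num_3`. If `n < Λ^2`
the bound is trivial with `C ≥ |Λ| + 1` (`Pr_le_one`). -/

set_option autoImplicit false

set_option linter.unusedSectionVars false

open scoped Classical

namespace CAB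

variable {r σ : ℕ} [NeZero σ]

theorem Pr_badRow (hr : 2 ≤ r) (hσ1 : r < σ) (hσ2 : σ < 2 * r) (Λ : ℝ) :
    ∃ C : ℝ, 0 ≤ C ∧ ∀ (n : ℕ) [NeZero n] (T m : ℕ), m < T → (T : ℝ) ^ 2 ≤ Λ * (n : ℝ) ^ σ →
      Pr σ n T (fun y => BadRow r σ (Xp r σ y) m) ≤ C / √(n : ℝ) := by
  obtain ⟨B, C1, hC1, hviol⟩ := Pr_viol hr hσ1 hσ2 1
  obtain ⟨C2, hC2, hnum⟩ := num_3 hr hσ2 B 1 B Λ
  refine ⟨C1 + C2 + |Λ| + 1, by positivity, ?_⟩
  intro n _ T m hm hT
  have hn : 1 ≤ n := Nat.one_le_iff_ne_zero.2 (NeZero.ne n)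
  have hn' : (1 : ℝ) ≤ n := by exact_mod_cast hn
  have hn0 : (0 : ℝ) ≤ n := by linarith
  have hs : 0 < √(n : ℝ) := Real.sqrt_pos.2 (by linarith)
  by_cases hΛ : Λ ^ 2 ≤ (n : ℝ)
  · have hT4 : T ^ 4 ≤ n ^ (2 * σ + 1) := by
      have h1 : (T : ℝ) ^ 4 ≤ (n : ℝ) ^ (2 * σ + 1) := by
        calc (T : ℝ) ^ 4 = ((T : ℝ) ^ 2) ^ 2 := by ring
          _ ≤ (Λ * (n : ℝ) ^ σ) ^ 2 := pow_le_pow_left₀ (by positivity) hT 2
          _ = Λ ^ 2 * (n : ℝ) ^ (2 * σ) := by rw [mul_pow, ← pow_mul, mul_comm σ 2]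
          _ ≤ (n : ℝ) * (n : ℝ) ^ (2 * σ) := mul_le_mul_of_nonneg_right hΛ (by positivity)
          _ = (n : ℝ) ^ (2 * σ + 1) := by ring
      exact_mod_cast h1
    have a1 := hviol n T hT4
    have a2 := union_rk (σ := σ) (n := n) T B B {m} (fun q => r * max 1 q)
    have a3 := hnum n T hn hT
    rw [Finset.card_singleton] at a2
    have a4 : Pr σ n T (fun y => BadRow r σ (Xp r σ y) m) ≤
        Pr σ n T (fun y => ∃ m < T, B < (clo r σ (Xp r σ y) m).card) +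
        Pr σ n T (fun y => ∃ H ⊆ Finset.range T, H.card ≤ B ∧
          r * max 1 H.card ≤ rk y (cellsOf σ (nb T B ({m} ∪ H)))) := by
      refine (Pr_mono ?_).trans (Pr_or T _ _)
      intro y hy
      by_cases hv : ∃ m < T, B < (clo r σ (Xp r σ y) m).card
      · exact Or.inl hv
      · right
        push Not at hv
        exact bad_root hr hσ1 hσ2 B (isProc_Xp r y) hv hm hy
    have a5 : C1 / (n : ℝ) ^ 1 ≤ C1 / √(n : ℝ) := by
      rw [pow_one]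
      refine div_le_div_of_nonneg_left hC1 hs ?_
      rw [Real.sqrt_le_left hn0]
      nlinarith
    have a6 : (C1 + C2 + |Λ| + 1) / √(n : ℝ) =
        C1 / √(n : ℝ) + C2 / √(n : ℝ) + (|Λ| + 1) / √(n : ℝ) := by ring
    have a7 : 0 ≤ (|Λ| + 1) / √(n : ℝ) := by positivity
    rw [a6]
    linarith [a2.trans a3]
  · push Not at hΛ
    refine (Pr_le_one T _).trans ?_
    rw [le_div_iff₀ hs, one_mul]
    have h1 : √(n : ℝ) ≤ |Λ| := by
      rw [Real.sqrt_le_left (abs_nonneg Λ), sq_abs]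
      exact hΛ.le
    linarith

end CAB
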