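import Pool.Agent.Lib.MP_eab41b_pr.B.C6
import Pool.Agent.Lib.MP_eab41b_pr.B.B17
import Pool.Agent.Lib.MP_eab41b_pr.B.B18

/-! Row C9a: bad rows that coincide with a used row or are not aperiodic (Q4).

Sketch: as C8. `Pr_coinc`: `Pr_exists` over the pairs `t < u < T` (at most `T^2 ≤ Λ n^σ`), `coinc_root`, `union_rk` with `R = {u, t}` (card 2), `num_4` with `e = σ`.
`Pr_per`: `per_root`, `e = σ - σ/2`, at most `T` rows and `T ≤ √Λ n^{σ/2} ≤ √Λ n^e`. -/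

set_option autoImplicit false

set_option linter.unusedSectionVars false

open scoped Classical

namespace CAB

variable {r σ : ℕ} [NeZero σ]

theorem Pr_per (hr : 2 ≤ r) (hσ1 : r < σ) (hσ2 : σ < 2 * r) (Λ : ℝ) :
    ∃ C : ℝ, 0 ≤ C ∧ ∀ (n : ℕ) [NeZero n] (T : ℕ), (T : ℝ) ^ 2 ≤ Λ * (n : ℝ) ^ σ →
      Pr σ n T (fun y => ∃ u < T, BadRow r σ (Xp r σ y) u ∧
        ¬ Aper σ (xrow σ (Xp r σ y) u)) ≤ C / √(n : ℝ) := by
  obtain ⟨B, C1, hC1, h1⟩ := Pr_viol hr hσ1 hσ2 1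
  obtain ⟨e, he⟩ : ∃ e, e = σ - σ / 2 := ⟨_, rfl⟩
  obtain ⟨C2, hC2, h2⟩ := num_4 hr hσ2 e B 1 B Λ
  refine ⟨C1 + √|Λ| * C2 + (|Λ| + 1), by positivity, ?_⟩
  intro n hn T hT
  have hn1 : 1 ≤ n := Nat.one_le_iff_ne_zero.2 (NeZero.ne n)
  have hn1' : (1 : ℝ) ≤ n := by exact_mod_cast hn1
  have hn0 : (0 : ℝ) < n := by linarith
  have hsn : 0 < √(n : ℝ) := Real.sqrt_pos.2 hn0
  have hsn1 : √(n : ℝ) ≤ n := by
    rw [Real.sqrt_le_left hn0.le]
    nlinarith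
  have hnn : 0 ≤ √|Λ| * C2 := by positivity
  by_cases hbig : (n : ℝ) < Λ ^ 2
  · refine (Pr_le_one T _).trans ?_
    rw [le_div_iff₀ hsn, one_mul]
    have h3 : √(n : ℝ) ≤ |Λ| := by
      rw [← Real.sqrt_sq_eq_abs]
      exact Real.sqrt_le_sqrt hbig.le
    linarith
  · push Not at hbig
    have hT4 : T ^ 4 ≤ n ^ (2 * σ + 1) := by
      have h3 : ((T : ℝ) ^ 2) ^ 2 ≤ (Λ * (n : ℝ) ^ σ) ^ 2 :=
        pow_le_pow_left₀ (by positivity) hT 2
      have h4 : (T : ℝ) ^ 4 ≤ (n : ℝ) ^ (2 * σ + 1) := by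
        calc (T : ℝ) ^ 4 = ((T : ℝ) ^ 2) ^ 2 := by ring
          _ ≤ (Λ * (n : ℝ) ^ σ) ^ 2 := h3
          _ = Λ ^ 2 * (n : ℝ) ^ (2 * σ) := by ring
          _ ≤ n * (n : ℝ) ^ (2 * σ) := mul_le_mul_of_nonneg_right hbig (by positivity)
          _ = (n : ℝ) ^ (2 * σ + 1) := by ring
      exact_mod_cast h4
    have hTe : (T : ℝ) ≤ √|Λ| * (n : ℝ) ^ e := by
      have h3 : (T : ℝ) ^ 2 ≤ (√|Λ| * (n : ℝ) ^ e) ^ 2 := by
        rw [mul_pow, Real.sq_sqrt (abs_nonneg Λ), ← pow_mul]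
        calc (T : ℝ) ^ 2 ≤ Λ * (n : ℝ) ^ σ := hT
          _ ≤ |Λ| * (n : ℝ) ^ σ := mul_le_mul_of_nonneg_right (le_abs_self Λ) (by positivity)
          _ ≤ |Λ| * (n : ℝ) ^ (e * 2) := by
            refine mul_le_mul_of_nonneg_left ?_ (abs_nonneg Λ)
            exact pow_le_pow_right₀ hn1' (by omega)
      exact (pow_le_pow_iff_left₀ (by positivity) (by positivity) (by norm_num)).1 h3
    have hA := h1 n T hT4
    rw [pow_one] at hA
    have hF : ∀ u, Pr σ n T (fun y => ∃ H ⊆ Finset.range T, H.card ≤ B ∧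
        e + max 1 (r * H.card) ≤ rk y (cellsOf σ (nb T B ({u} ∪ H)))) ≤
        C2 / (√(n : ℝ) * (n : ℝ) ^ e) := by
      intro u
      refine (union_rk T B B {u} fun q => e + max 1 (r * q)).trans ?_
      rw [Finset.card_singleton]
      exact h2 n T hn1 hT
    have hsub : Pr σ n T (fun y => ∃ u < T, BadRow r σ (Xp r σ y) u ∧
        ¬ Aper σ (xrow σ (Xp r σ y) u)) ≤
        Pr σ n T (fun y => (∃ m < T, B < (clo r σ (Xp r σ y) m).card) ∨
          ∃ u ∈ Finset.range T, ∃ H ⊆ Finset.range T, H.card ≤ B ∧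
            e + max 1 (r * H.card) ≤ rk y (cellsOf σ (nb T B ({u} ∪ H)))) := by
      refine Pr_mono fun y => ?_
      rintro ⟨u, hu, hb, hp⟩
      by_cases hv : ∃ m < T, B < (clo r σ (Xp r σ y) m).card
      · exact Or.inl hv
      · push Not at hv
        refine Or.inr ⟨u, Finset.mem_range.2 hu, ?_⟩
        rw [he]
        exact per_root hr hσ1 hσ2 B (isProc_Xp r y) hv hu hp hb
    have hsum : Pr σ n T (fun y => ∃ u ∈ Finset.range T, ∃ H ⊆ Finset.range T, H.card ≤ B ∧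
        e + max 1 (r * H.card) ≤ rk y (cellsOf σ (nb T B ({u} ∪ H)))) ≤
        T * (C2 / (√(n : ℝ) * (n : ℝ) ^ e)) := by
      refine (Pr_exists T (Finset.range T) _).trans ?_
      refine (Finset.sum_le_sum fun u _ => hF u).trans ?_
      rw [Finset.sum_const, Finset.card_range, nsmul_eq_mul]
    have hB2 : (T : ℝ) * (C2 / (√(n : ℝ) * (n : ℝ) ^ e)) ≤ √|Λ| * C2 / √(n : ℝ) := by
      have hne : (0 : ℝ) < (n : ℝ) ^ e := by positivity
      calc (T : ℝ) * (C2 / (√(n : ℝ) * (n : ℝ) ^ e))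
          ≤ (√|Λ| * (n : ℝ) ^ e) * (C2 / (√(n : ℝ) * (n : ℝ) ^ e)) :=
            mul_le_mul_of_nonneg_right hTe (by positivity)
        _ = √|Λ| * C2 / √(n : ℝ) := by
            field_simp
    have hA2 : C1 / (n : ℝ) ≤ C1 / √(n : ℝ) := div_le_div_of_nonneg_left hC1 hsn hsn1
    have hC3 : 0 ≤ (|Λ| + 1) / √(n : ℝ) := by positivity
    calc Pr σ n T (fun y => ∃ u < T, BadRow r σ (Xp r σ y) u ∧
          ¬ Aper σ (xrow σ (Xp r σ y) u))
        ≤ C1 / (n : ℝ) + T * (C2 / (√(n : ℝ) * (n : ℝ) ^ e)) :=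
          hsub.trans ((Pr_or T _ _).trans (add_le_add hA hsum))
      _ ≤ C1 / √(n : ℝ) + √|Λ| * C2 / √(n : ℝ) := add_le_add hA2 hB2
      _ ≤ (C1 + √|Λ| * C2 + (|Λ| + 1)) / √(n : ℝ) := by
          rw [add_div, add_div]
          linarith

end CAB
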