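import Pool.Agent.Lib.MP_eab41b_pr.B.C6
import Pool.Agent.Lib.MP_eab41b_pr.B.B17
import Pool.Agent.Lib.MP_eab41b_pr.B.B18
import Pool.Agent.Lib.MP_eab41b_pr.B.C9a

/-! Row C9: bad rows that coincide with a used row or are not aperiodic (Q4).

Sketch: as C8. `Pr_coinc`: `Pr_exists` over the pairs `t < u < T` (at most `T^2 ≤ Λ n^σ`), `coinc_root`, `union_rk` with `R = {u, t}` (card 2), `num_4` with `e = σ`.
`Pr_per`: `per_root`, `e = σ - σ/2`, at most `T` rows and `T ≤ √Λ n^{σ/2} ≤ √Λ n^e`. -/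

set_option autoImplicit false

set_option linter.unusedSectionVars false

open scoped Classical

namespace CAB

variable {r σ : ℕ} [NeZero σ]

theorem Pr_coinc (hr : 2 ≤ r) (hσ1 : r < σ) (hσ2 : σ < 2 * r) (Λ : ℝ) :
    ∃ C : ℝ, 0 ≤ C ∧ ∀ (n : ℕ) [NeZero n] (T : ℕ), (T : ℝ) ^ 2 ≤ Λ * (n : ℝ) ^ σ →
      Pr σ n T (fun y => ∃ u < T, ∃ t < u, BadRow r σ (Xp r σ y) u ∧ Used σ (Xp r σ y) t ∧
        Eqv σ (xrow σ (Xp r σ y) u) (xrow σ (Xp r σ y) t)) ≤ C / √(n : ℝ) := by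
  obtain ⟨B, C1, hC1, hviol⟩ := Pr_viol hr hσ1 hσ2 1
  obtain ⟨C2, hC2, hnum⟩ := num_4 hr hσ2 σ (2 * B) 2 (2 * B) Λ
  refine ⟨C1 + |Λ| * C2 + (|Λ| + 1), by positivity, ?_⟩
  intro n _ T hT
  have hn1 : 1 ≤ n := Nat.one_le_iff_ne_zero.2 (NeZero.ne n)
  have hn : (1 : ℝ) ≤ n := by exact_mod_cast hn1
  have hn0 : (0 : ℝ) < n := by linarith
  have hs0 : 0 < √(n : ℝ) := Real.sqrt_pos.2 hn0
  have hnσ : (0 : ℝ) < (n : ℝ) ^ σ := by positivity
  have hΛ : 0 ≤ Λ := by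
    by_contra hneg
    push Not at hneg
    have h1 : Λ * (n : ℝ) ^ σ < 0 := mul_neg_of_neg_of_pos hneg hnσ
    have h2 : (0 : ℝ) ≤ (T : ℝ) ^ 2 := by positivity
    linarith
  rw [abs_of_nonneg hΛ]
  by_cases hbig : Λ ^ 2 ≤ n
  · -- large `n`
    have hT4 : T ^ 4 ≤ n ^ (2 * σ + 1) := by
      have h1 : (T : ℝ) ^ 4 ≤ (n : ℝ) ^ (2 * σ + 1) := by
        calc (T : ℝ) ^ 4 = ((T : ℝ) ^ 2) ^ 2 := by ring
          _ ≤ (Λ * (n : ℝ) ^ σ) ^ 2 := pow_le_pow_left₀ (by positivity) hT 2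
          _ = Λ ^ 2 * ((n : ℝ) ^ σ) ^ 2 := by ring
          _ ≤ n * ((n : ℝ) ^ σ) ^ 2 := mul_le_mul_of_nonneg_right hbig (by positivity)
          _ = (n : ℝ) ^ (2 * σ + 1) := by ring
      exact_mod_cast h1
    obtain ⟨P, hP⟩ : ∃ P : Finset (ℕ × ℕ), P =
        (Finset.range T ×ˢ Finset.range T).filter fun p => p.2 < p.1 := ⟨_, rfl⟩
    have hPmem : ∀ p, p ∈ P ↔ (p.1 < T ∧ p.2 < T) ∧ p.2 < p.1 := by
      intro p
      rw [hP, Finset.mem_filter, Finset.mem_product, Finset.mem_range, Finset.mem_range]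
    have hPcard : (P.card : ℝ) ≤ (T : ℝ) ^ 2 := by
      have h1 : P.card ≤ T * T := by
        rw [hP]
        refine (Finset.card_filter_le _ _).trans ?_
        rw [Finset.card_product, Finset.card_range]
      calc (P.card : ℝ) ≤ ((T * T : ℕ) : ℝ) := by exact_mod_cast h1
        _ = (T : ℝ) ^ 2 := by push_cast; ring
    have hstep : Pr σ n T (fun y => ∃ u < T, ∃ t < u, BadRow r σ (Xp r σ y) u ∧
        Used σ (Xp r σ y) t ∧ Eqv σ (xrow σ (Xp r σ y) u) (xrow σ (Xp r σ y) t)) ≤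
        Pr σ n T (fun y => (∃ m < T, B < (clo r σ (Xp r σ y) m).card) ∨
          ∃ p ∈ P, ∃ H ⊆ Finset.range T, H.card ≤ 2 * B ∧
            σ + max 1 (r * H.card) ≤ rk y (cellsOf σ (nb T (2 * B) ({p.1, p.2} ∪ H)))) := by
      refine Pr_mono fun y => ?_
      rintro ⟨u, hu, t, ht, hb, hus, he⟩
      by_cases hv : ∃ m < T, B < (clo r σ (Xp r σ y) m).card
      · exact Or.inl hv
      · right
        push Not at hv
        refine ⟨(u, t), (hPmem _).2 ⟨⟨hu, ht.trans hu⟩, ht⟩, ?_⟩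
        exact coinc_root hr hσ1 hσ2 B (isProc_Xp r y) hv ht hu hus he hb
    refine hstep.trans ((Pr_or _ _ _).trans ?_)
    have h1 := hviol n T hT4
    rw [pow_one] at h1
    have h2 : Pr σ n T (fun y => ∃ p ∈ P, ∃ H ⊆ Finset.range T, H.card ≤ 2 * B ∧
        σ + max 1 (r * H.card) ≤ rk y (cellsOf σ (nb T (2 * B) ({p.1, p.2} ∪ H)))) ≤
        ∑ _p ∈ P, C2 / (√(n : ℝ) * (n : ℝ) ^ σ) := by
      refine (Pr_exists T P _).trans (Finset.sum_le_sum fun p hp => ?_)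
      have h3 := union_rk (σ := σ) (n := n) T (2 * B) (2 * B) {p.1, p.2}
        (fun q => σ + max 1 (r * q))
      have h4 : ({p.1, p.2} : Finset ℕ).card = 2 :=
        Finset.card_pair ((hPmem p).1 hp).2.ne'
      rw [h4] at h3
      exact h3.trans (hnum n T hn1 hT)
    rw [Finset.sum_const, nsmul_eq_mul] at h2
    have h5 : (P.card : ℝ) * (C2 / (√(n : ℝ) * (n : ℝ) ^ σ)) ≤ Λ * C2 / √(n : ℝ) := by
      calc (P.card : ℝ) * (C2 / (√(n : ℝ) * (n : ℝ) ^ σ)) ≤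
          (Λ * (n : ℝ) ^ σ) * (C2 / (√(n : ℝ) * (n : ℝ) ^ σ)) :=
            mul_le_mul_of_nonneg_right (hPcard.trans hT) (by positivity)
        _ = Λ * C2 / √(n : ℝ) := by field_simp
    have h6 : C1 / (n : ℝ) ≤ C1 / √(n : ℝ) := by
      refine div_le_div_of_nonneg_left hC1 hs0 ?_
      rw [Real.sqrt_le_left hn0.le]
      nlinarith
    calc _ ≤ C1 / √(n : ℝ) + Λ * C2 / √(n : ℝ) := add_le_add (h1.trans h6) (h2.trans h5)
      _ = (C1 + Λ * C2) / √(n : ℝ) := by ring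
      _ ≤ (C1 + Λ * C2 + (Λ + 1)) / √(n : ℝ) :=
        div_le_div_of_nonneg_right (by linarith) hs0.le
  · -- small `n`
    push Not at hbig
    refine (Pr_le_one T _).trans ?_
    rw [le_div_iff₀ hs0, one_mul]
    have h1 : √(n : ℝ) ≤ Λ := by
      rw [Real.sqrt_le_left hΛ]
      exact hbig.le
    have h2 : 0 ≤ C1 + Λ * C2 := by positivity
    linarith

end CAB
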