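import Pool.Agent.Lib.MP_eab41b_pr.B.C12
import Pool.Agent.Lib.MP_eab41b_pr.B.C3
import Pool.Agent.Lib.MP_eab41b_pr.B.A3
import Pool.Agent.Lib.MP_eab41b_pr.B.C8
import Pool.Agent.Lib.MP_eab41b_pr.B.C9

/-! Row C10: Q5.

Sketch: if `y` is not good then one of: (i) a bad `u` with `x_u` not aperiodic (`Pr_per`); (ii) a bad `u` and `t < u` with `x_u ~ x_t`: if `x_u` is aperiodic take the least
`t'` with `x_{t'} ~ x_u`: it is used (`Pr_coinc`), otherwise (i); (iii) `u` bad or not, `t < u` bad, `u` not bad and `x_u ~ x_t`: `x_u = y_u` (`proc_row_of_not_bad`), so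
`t` bad and `y_u ~ x_t`: `Pr_row_le` at `u` with `A = (t bad)`, `b = σ` (`card_eqv_le`): probability `≤ σ n^{-σ} P(t bad)`, sum over `t < u < T`: `T^2 ≤ Λ n^σ`; (iv) `t < u`, `y_u ~ y_t`, `t` or `u` bad: both events depend on the
rows `< u` only: the same; (v) `u` bad, `y_u` not aperiodic: `Pr_row_le` with `b = PN`: `P(u bad) PN / n^σ`, `PN ≤ σ n^{σ/2}` (`PN_le`), sum over `u < T`: `T ≤ √Λ n^{σ/2}`. All `P(t bad) ≤ C / √n` (`Pr_badRow`). (In `Good` the case `t > u` is the same pair with exchanged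
roles; `Eqv` is symmetric.) -/

set_option autoImplicit false

set_option linter.unusedSectionVars false

open scoped Classical

namespace CAB

variable {r σ : ℕ} [NeZero σ]

/-- two equivalent rows of a sequence, the later one bad -/
private theorem c10_pair {n : ℕ} [NeZero n] {T : ℕ} {x : ℕ → Fin n} {u t : ℕ} (hu : u < T) (htu : t < u)
    (hb : BadRow r σ x u) (he : Eqv σ (xrow σ x u) (xrow σ x t)) :
    (∃ u < T, BadRow r σ x u ∧ ¬ Aper σ (xrow σ x u)) ∨
      (∃ u < T, ∃ t < u, BadRow r σ x u ∧ Used σ x t ∧ Eqv σ (xrow σ x u) (xrow σ x t)) := by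
  by_cases ha : Aper σ (xrow σ x u)
  · right
    have hex : ∃ t, Eqv σ (xrow σ x u) (xrow σ x t) := ⟨t, he⟩
    have h1 := Nat.find_spec hex
    have h2 : Nat.find hex < u := lt_of_le_of_lt (Nat.find_min' hex he) htu
    refine ⟨u, hu, Nat.find hex, h2, hb, ⟨h1.symm.aper ha, fun m' hm' hE => ?_⟩, h1⟩
    exact Nat.find_min hex hm' (h1.trans hE)
  · exact Or.inl ⟨u, hu, hb, ha⟩

private theorem c10_cases {n : ℕ} [NeZero n] {T : ℕ} {y : ℕ → Fin n} (h : ¬ Good r σ T y) :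
    ((∃ u < T, BadRow r σ (Xp r σ y) u ∧ ¬ Aper σ (xrow σ (Xp r σ y) u)) ∨
      (∃ u < T, ∃ t < u, BadRow r σ (Xp r σ y) u ∧ Used σ (Xp r σ y) t ∧
        Eqv σ (xrow σ (Xp r σ y) u) (xrow σ (Xp r σ y) t))) ∨
    ((∃ p ∈ ((Finset.range T) ×ˢ (Finset.range T)).filter (fun p => p.2 < p.1),
        BadRow r σ (Xp r σ y) p.2 ∧ Eqv σ (xrow σ y p.1) (xrow σ (Xp r σ y) p.2)) ∨
      (∃ p ∈ ((Finset.range T) ×ˢ (Finset.range T)).filter (fun p => p.2 < p.1),
        (BadRow r σ (Xp r σ y) p.2 ∨ BadRow r σ (Xp r σ y) p.1) ∧ Eqv σ (xrow σ y p.1) (xrow σ y p.2))) ∨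
      (∃ u ∈ Finset.range T, BadRow r σ (Xp r σ y) u ∧ ¬ Aper σ (xrow σ y u)) := by
  unfold Good at h
  push Not at h
  obtain ⟨u, hu, hb, h⟩ := h
  by_cases h1 : Aper σ (xrow σ (Xp r σ y) u)
  swap
  · exact Or.inl (Or.inl ⟨u, hu, hb, h1⟩)
  by_cases h2 : Aper σ (xrow σ y u)
  swap
  · exact Or.inr (Or.inr ⟨u, Finset.mem_range.2 hu, hb, h2⟩)
  obtain ⟨t, ht, htu, h3⟩ := h h1 h2
  by_cases h4 : Eqv σ (xrow σ (Xp r σ y) u) (xrow σ (Xp r σ y) t)
  · rcases lt_or_gt_of_ne htu with hlt | hlt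
    · exact Or.inl (c10_pair hu hlt hb h4)
    · by_cases hbt : BadRow r σ (Xp r σ y) t
      · exact Or.inl (c10_pair ht hlt hbt h4.symm)
      · right
        left
        left
        refine ⟨(t, u), ?_, hb, ?_⟩
        · simp only [Finset.mem_filter, Finset.mem_product, Finset.mem_range]
          exact ⟨⟨ht, hu⟩, hlt⟩
        · show Eqv σ (xrow σ y t) (xrow σ (Xp r σ y) u)
          rw [← proc_row_of_not_bad (isProc_Xp r y) hbt]
          exact h4.symm
  · have h5 : Eqv σ (xrow σ y u) (xrow σ y t) := h3 h4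
    right
    left
    right
    rcases lt_or_gt_of_ne htu with hlt | hlt
    · refine ⟨(u, t), ?_, Or.inr hb, h5⟩
      simp only [Finset.mem_filter, Finset.mem_product, Finset.mem_range]
      exact ⟨⟨hu, ht⟩, hlt⟩
    · refine ⟨(t, u), ?_, Or.inl hb, h5.symm⟩
      simp only [Finset.mem_filter, Finset.mem_product, Finset.mem_range]
      exact ⟨⟨ht, hu⟩, hlt⟩

theorem Pr_not_good (hr : 2 ≤ r) (hσ1 : r < σ) (hσ2 : σ < 2 * r) (Λ : ℝ) :
    ∃ C : ℝ, 0 ≤ C ∧ ∀ (n : ℕ) [NeZero n] (T : ℕ), (T : ℝ) ^ 2 ≤ Λ * (n : ℝ) ^ σ →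
      Pr σ n T (fun y => ¬ Good r σ T y) ≤ C / √(n : ℝ) := by
  obtain ⟨C1, hC1, h1⟩ := Pr_per hr hσ1 hσ2 Λ
  obtain ⟨C2, hC2, h2⟩ := Pr_coinc hr hσ1 hσ2 Λ
  obtain ⟨C3, hC3, h3⟩ := Pr_badRow hr hσ1 hσ2 Λ
  have hΛ : 0 ≤ |Λ| := abs_nonneg Λ
  refine ⟨(C1 + C2) + ((|Λ| + 1) * (σ * C3) + (|Λ| + 1) * (σ * (2 * C3))) + (|Λ| + 1) * (σ * C3), by positivity,
    fun n _ T hT => ?_⟩
  have hn : (0 : ℝ) < n := by exact_mod_cast Nat.pos_of_ne_zero (NeZero.ne n)
  have hnσ : (0 : ℝ) < (n : ℝ) ^ σ := pow_pos hn σ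
  have hsn : 0 ≤ √(n : ℝ) := Real.sqrt_nonneg _
  have hσ0 : (0 : ℝ) ≤ σ := Nat.cast_nonneg _
  -- the probability of a bad row
  have hbad : ∀ m < T, Pr σ n T (fun y => BadRow r σ (Xp r σ y) m) ≤ C3 / √(n : ℝ) := fun m hm => h3 n T m hm hT
  -- the number of pairs
  have hT' : (T : ℝ) ^ 2 ≤ (|Λ| + 1) * (n : ℝ) ^ σ :=
    hT.trans (mul_le_mul_of_nonneg_right ((le_abs_self Λ).trans (le_add_of_nonneg_right zero_le_one)) hnσ.le)
  have hcard : ∀ K : ℝ, 0 ≤ K →
      ((((Finset.range T) ×ˢ (Finset.range T)).filter (fun p => p.2 < p.1)).card : ℝ) * (σ / (n : ℝ) ^ σ * K) ≤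
        (|Λ| + 1) * (σ * K) := by
    intro K hK
    have h4 : ((((Finset.range T) ×ˢ (Finset.range T)).filter (fun p => p.2 < p.1)).card : ℝ) ≤ (T : ℝ) ^ 2 := by
      have h5 : (((Finset.range T) ×ˢ (Finset.range T)).filter (fun p => p.2 < p.1)).card ≤ T ^ 2 := by
        refine (Finset.card_filter_le _ _).trans ?_
        rw [Finset.card_product, Finset.card_range, pow_two]
      exact_mod_cast h5
    have h6 : 0 ≤ σ / (n : ℝ) ^ σ * K := by positivity
    calc _ ≤ ((|Λ| + 1) * (n : ℝ) ^ σ) * (σ / (n : ℝ) ^ σ * K) := mul_le_mul_of_nonneg_right (h4.trans hT') h6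
      _ = (|Λ| + 1) * (σ * K) := by field_simp
  -- (iii)
  have h4 : Pr σ n T (fun y => ∃ p ∈ ((Finset.range T) ×ˢ (Finset.range T)).filter (fun p => p.2 < p.1),
      BadRow r σ (Xp r σ y) p.2 ∧ Eqv σ (xrow σ y p.1) (xrow σ (Xp r σ y) p.2)) ≤
        (|Λ| + 1) * (σ * (C3 / √(n : ℝ))) := by
    refine (Pr_exists T _ _).trans ?_
    refine (Finset.sum_le_card_nsmul _ _ (σ / (n : ℝ) ^ σ * (C3 / √(n : ℝ))) fun p hp => ?_).trans ?_
    · simp only [Finset.mem_filter, Finset.mem_product, Finset.mem_range] at hp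
      obtain ⟨⟨hp1, hp2⟩, hlt⟩ := hp
      refine (Pr_row_le hp1 (A := fun y => BadRow r σ (Xp r σ y) p.2) (local_badRow r hlt.le)
        (B := fun y z => Eqv σ z (xrow σ (Xp r σ y) p.2)) ?_ (b := (σ : ℝ)) ?_).trans ?_
      · intro y y' hy
        have h5 := local_Xrow (σ := σ) r hlt y y' hy
        funext z
        exact congrArg (fun w => Eqv σ z w) h5
      · intro y _
        exact_mod_cast card_eqv_le _
      · exact mul_le_mul_of_nonneg_left (hbad _ hp2) (by positivity)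
    · rw [nsmul_eq_mul]
      exact hcard _ (by positivity)
  -- (iv)
  have h5 : Pr σ n T (fun y => ∃ p ∈ ((Finset.range T) ×ˢ (Finset.range T)).filter (fun p => p.2 < p.1),
      (BadRow r σ (Xp r σ y) p.2 ∨ BadRow r σ (Xp r σ y) p.1) ∧ Eqv σ (xrow σ y p.1) (xrow σ y p.2)) ≤
        (|Λ| + 1) * (σ * (2 * C3 / √(n : ℝ))) := by
    refine (Pr_exists T _ _).trans ?_
    refine (Finset.sum_le_card_nsmul _ _ (σ / (n : ℝ) ^ σ * (2 * C3 / √(n : ℝ))) fun p hp => ?_).trans ?_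
    · simp only [Finset.mem_filter, Finset.mem_product, Finset.mem_range] at hp
      obtain ⟨⟨hp1, hp2⟩, hlt⟩ := hp
      refine (Pr_row_le hp1 (A := fun y => BadRow r σ (Xp r σ y) p.2 ∨ BadRow r σ (Xp r σ y) p.1) ?_
        (B := fun y z => Eqv σ z (xrow σ y p.2)) ?_ (b := (σ : ℝ)) ?_).trans ?_
      · intro y y' hy
        have h6 := local_badRow (σ := σ) r hlt.le y y' hy
        have h7 := local_badRow (σ := σ) r (le_refl p.1) y y' hy
        simp only at h6 h7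
        show (_ ∨ _) = (_ ∨ _)
        rw [h6, h7]
      · intro y y' hy
        have h6 := local_row (σ := σ) hlt y y' hy
        funext z
        exact congrArg (fun w => Eqv σ z w) h6
      · intro y _
        exact_mod_cast card_eqv_le _
      · refine mul_le_mul_of_nonneg_left ?_ (by positivity)
        refine (Pr_or T _ _).trans ?_
        have h6 := hbad _ hp2
        have h7 := hbad _ hp1
        have h8 : 2 * C3 / √(n : ℝ) = C3 / √(n : ℝ) + C3 / √(n : ℝ) := by ring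
        rw [h8]
        exact add_le_add h6 h7
    · rw [nsmul_eq_mul]
      exact hcard _ (by positivity)
  -- (v)
  have h6 : Pr σ n T (fun y => ∃ u ∈ Finset.range T, BadRow r σ (Xp r σ y) u ∧ ¬ Aper σ (xrow σ y u)) ≤
      (|Λ| + 1) * (σ * (C3 / √(n : ℝ))) := by
    refine (Pr_exists T _ _).trans ?_
    refine (Finset.sum_le_card_nsmul _ _ ((PN σ n : ℝ) / (n : ℝ) ^ σ * (C3 / √(n : ℝ))) fun u hu => ?_).trans ?_
    · rw [Finset.mem_range] at hu
      refine (Pr_row_le hu (A := fun y => BadRow r σ (Xp r σ y) u) (local_badRow r le_rfl)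
        (B := fun _ z => ¬ Aper σ z) (fun y y' _ => rfl) (b := (PN σ n : ℝ)) ?_).trans ?_
      · intro y _
        refine le_of_eq ?_
        unfold PN
        congr
      · exact mul_le_mul_of_nonneg_left (hbad _ hu) (by positivity)
    · rw [nsmul_eq_mul, Finset.card_range]
      have h7 : 0 < NN σ n := lt_of_lt_of_le zero_lt_one one_le_NN
      have h8 : (T : ℝ) ≤ (|Λ| + 1) * NN σ n := by
        have h9 : (T : ℝ) ^ 2 ≤ ((|Λ| + 1) * NN σ n) ^ 2 := by
          refine hT'.trans ?_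
          rw [mul_pow, NN_sq]
          refine mul_le_mul_of_nonneg_right ?_ hnσ.le
          nlinarith
        exact (sq_le_sq₀ (Nat.cast_nonneg _) (by positivity)).1 h9
      have h10 : (PN σ n : ℝ) / (n : ℝ) ^ σ ≤ σ / NN σ n := by
        rw [← NN_sq, div_le_div_iff₀ (by positivity) h7]
        calc (PN σ n : ℝ) * NN σ n ≤ (σ * NN σ n) * NN σ n := mul_le_mul_of_nonneg_right PN_le h7.le
          _ = σ * NN σ n ^ 2 := by ring
      calc (T : ℝ) * ((PN σ n : ℝ) / (n : ℝ) ^ σ * (C3 / √(n : ℝ)))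
          ≤ ((|Λ| + 1) * NN σ n) * (σ / NN σ n * (C3 / √(n : ℝ))) := by
            refine mul_le_mul h8 (mul_le_mul_of_nonneg_right h10 (by positivity)) (by positivity) (by positivity)
        _ = (|Λ| + 1) * (σ * (C3 / √(n : ℝ))) := by field_simp
  -- the sum
  have h7 : Pr σ n T (fun y => ¬ Good r σ T y) ≤ ((C1 / √(n : ℝ) + C2 / √(n : ℝ)) +
      (((|Λ| + 1) * (σ * (C3 / √(n : ℝ))) + (|Λ| + 1) * (σ * (2 * C3 / √(n : ℝ)))) +
        (|Λ| + 1) * (σ * (C3 / √(n : ℝ))))) := by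
    refine (Pr_mono fun y hy => c10_cases hy).trans ?_
    refine (Pr_or T _ _).trans (add_le_add ?_ ?_)
    · exact (Pr_or T _ _).trans (add_le_add (h1 n T hT) (h2 n T hT))
    · exact (Pr_or T _ _).trans (add_le_add ((Pr_or T _ _).trans (add_le_add h4 h5)) h6)
  refine h7.trans (le_of_eq ?_)
  ring

end CAB
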