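import Pool.Agent.Lib.MP_eab41b_pr.B.C3
import Pool.Agent.Lib.MP_eab41b_pr.B.A3

/-! Row C11: Q6, the probability that all rows are used.

Sketch: let `k_u` be the number of rows `< u` that are not bad (of `x = Xp y`), `S_u` the event that the rows `< u` are used. By induction on `u` (resample the row `u`, `Ex_succ` form: `Ex_local` + `Ex_upd` / `Pr_row_le`):
`E [1_{S_u} ∏_{i ∈ [min k_u k, k)} (1 - a_i)]` is nonincreasing in `u`: if row `u` is bad (an event of the rows `< u`) then `k_{u+1} = k_u` and `S_{u+1} ⊆ S_u`; if it is not bad, `x_u = y_u` is uniform and given `S_u` it is new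
with probability exactly `1 - a_u ≤ 1 - a_{k_u}` (`card_notnew_eq` for `x` with all rows `< u` used; `k_u ≤ u`; `a` is increasing). At `u = 0` it is `∏_{i<k}`; at `u = l` it is `≥ P(S_l, k ≤ k_l)`. -/

set_option autoImplicit false

set_option linter.unusedSectionVars false

open scoped Classical

namespace CAB

variable {σ n : ℕ} [NeZero n] [NeZero σ]

private theorem aa_nonneg' (i : ℕ) : 0 ≤ aa σ n i := by
  unfold aa
  positivity

private theorem aa_mono' {i j : ℕ} (h : i ≤ j) : aa σ n i ≤ aa σ n j := by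
  have hn : (0 : ℝ) < (n : ℝ) ^ σ := by
    have : (0 : ℝ) < n := Nat.cast_pos.2 (Nat.pos_of_ne_zero (NeZero.ne n))
    positivity
  have hij : (i : ℝ) ≤ (j : ℝ) := Nat.cast_le.2 h
  have hs : (0 : ℝ) ≤ (σ : ℝ) := Nat.cast_nonneg σ
  unfold aa
  rw [div_le_div_iff_of_pos_right hn]
  have := mul_le_mul_of_nonneg_left hij hs
  linarith

private theorem nBad_succ' {α : Type} (r : ℕ) (x : ℕ → α) (u : ℕ) :
    nBad r σ x (u + 1) = nBad r σ x u + (if BadRow r σ x u then 1 else 0) := by
  unfold nBad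
  rw [Finset.range_add_one, Finset.filter_insert]
  split_ifs with h
  · rw [Finset.card_insert_of_notMem (by simp)]
  · rfl

private theorem nBad_le' {α : Type} (r : ℕ) (x : ℕ → α) (u : ℕ) : nBad r σ x u ≤ u := by
  unfold nBad
  exact (Finset.card_filter_le _ _).trans (by rw [Finset.card_range])

/-- the weight after `u` rows -/
private noncomputable def WW (n : ℕ) [NeZero n] (k K : ℕ) : ℝ :=
  ∏ i ∈ Finset.Ico (min K k) k, (1 - aa σ n i)

private theorem WW_nonneg {k : ℕ} (hk : ∀ i < k, aa σ n i ≤ 1) (K : ℕ) :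
    0 ≤ WW (σ := σ) n k K := by
  unfold WW
  refine Finset.prod_nonneg fun i hi => ?_
  have := hk i (Finset.mem_Ico.1 hi).2
  linarith

private theorem WW_ge {k K : ℕ} (h : k ≤ K) : WW (σ := σ) n k K = 1 := by
  unfold WW
  rw [min_eq_right h, Finset.Ico_self, Finset.prod_empty]

private theorem WW_lt {k K : ℕ} (h : K < k) :
    WW (σ := σ) n k K = (1 - aa σ n K) * WW (σ := σ) n k (K + 1) := by
  unfold WW
  rw [min_eq_left h.le, min_eq_left (Nat.succ_le_of_lt h), ← Finset.prod_Ioo_mul_eq_prod_Ico h,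
    mul_comm]
  rfl

private noncomputable def GG (σ n : ℕ) [NeZero n] [NeZero σ] (r k u : ℕ) (y : ℕ → Fin n) : ℝ :=
  if ∀ m < u, Used σ (Xp r σ y) m then WW (σ := σ) n k (u - nBad r σ (Xp r σ y) u) else 0

private theorem GG_nonneg {k : ℕ} (hk : ∀ i < k, aa σ n i ≤ 1) (r u : ℕ) (y : ℕ → Fin n) :
    0 ≤ GG σ n r k u y := by
  unfold GG
  split_ifs
  · exact WW_nonneg hk _
  · exact le_rfl

private theorem GG_step {k : ℕ} (hk : ∀ i < k, aa σ n i ≤ 1) (r u : ℕ) (y : ℕ → Fin n) :
    (∑ z : Row σ n, GG σ n r k (u + 1) (updR σ n u y z)) / (n : ℝ) ^ σ ≤ GG σ n r k u y := by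
  have hn : (0 : ℝ) < (n : ℝ) ^ σ := by
    have : (0 : ℝ) < n := Nat.cast_pos.2 (Nat.pos_of_ne_zero (NeZero.ne n))
    positivity
  have hcard : ((Finset.univ : Finset (Row σ n)).card : ℝ) = (n : ℝ) ^ σ := by
    rw [Finset.card_univ, card_Row, Nat.cast_pow]
  have hU : ∀ z : Row σ n, ∀ m < u, (Used σ (Xp r σ (updR σ n u y z)) m ↔ Used σ (Xp r σ y) m) := by
    intro z m hm
    have h := (local_used (n := n) (σ := σ) r (M := u) hm).updR le_rfl y z
    exact iff_of_eq h
  have hN : ∀ z : Row σ n, nBad r σ (Xp r σ (updR σ n u y z)) (u + 1) = nBad r σ (Xp r σ y) (u + 1) := by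
    intro z
    exact (local_nBad (n := n) (σ := σ) r (m := u + 1) (M := u) le_rfl).updR le_rfl y z
  have hB : ∀ z : Row σ n, (BadRow r σ (Xp r σ (updR σ n u y z)) u ↔ BadRow r σ (Xp r σ y) u) := by
    intro z
    exact iff_of_eq ((local_badRow (n := n) (σ := σ) r (m := u) (M := u) le_rfl).updR le_rfl y z)
  have hX : ∀ z : Row σ n, ∀ m < u, xrow σ (Xp r σ (updR σ n u y z)) m = xrow σ (Xp r σ y) m := by
    intro z m hm
    exact (local_Xrow (n := n) (σ := σ) r (M := u) hm).updR le_rfl y z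
  by_cases hS : ∀ m < u, Used σ (Xp r σ y) m
  swap
  · have h0 : ∀ z : Row σ n, GG σ n r k (u + 1) (updR σ n u y z) = 0 := by
      intro z
      unfold GG
      rw [if_neg]
      intro h
      exact hS fun m hm => (hU z m hm).1 (h m (Nat.lt_succ_of_lt hm))
    simp only [h0, Finset.sum_const_zero, zero_div]
    exact GG_nonneg hk r u y
  have hG0 : GG σ n r k u y = WW (σ := σ) n k (u - nBad r σ (Xp r σ y) u) := by
    unfold GG
    rw [if_pos hS]
  have hG1 : ∀ z : Row σ n, GG σ n r k (u + 1) (updR σ n u y z) =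
      if Used σ (Xp r σ (updR σ n u y z)) u then
        WW (σ := σ) n k (u + 1 - nBad r σ (Xp r σ y) (u + 1)) else 0 := by
    intro z
    unfold GG
    rw [hN z]
    by_cases h : Used σ (Xp r σ (updR σ n u y z)) u
    · rw [if_pos h, if_pos]
      intro m hm
      rcases Nat.lt_succ_iff_lt_or_eq.1 hm with h1 | h1
      · exact (hU z m h1).2 (hS m h1)
      · rw [h1]; exact h
    · rw [if_neg h, if_neg]
      intro h1
      exact h (h1 u (Nat.lt_succ_self u))
  have hle := nBad_le' (σ := σ) r (Xp r σ y) u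
  rw [hG0]
  by_cases hb : BadRow r σ (Xp r σ y) u
  · have hK : u + 1 - nBad r σ (Xp r σ y) (u + 1) = u - nBad r σ (Xp r σ y) u := by
      rw [nBad_succ', if_pos hb]
      omega
    rw [div_le_iff₀ hn]
    calc ∑ z : Row σ n, GG σ n r k (u + 1) (updR σ n u y z)
        ≤ ∑ _z : Row σ n, WW (σ := σ) n k (u - nBad r σ (Xp r σ y) u) := by
          refine Finset.sum_le_sum fun z _ => ?_
          rw [hG1 z, hK]
          split_ifs
          · exact le_rfl
          · exact WW_nonneg hk _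
      _ = WW (σ := σ) n k (u - nBad r σ (Xp r σ y) u) * (n : ℝ) ^ σ := by
          rw [Finset.sum_const, nsmul_eq_mul, hcard, mul_comm]
  · have hK : u + 1 - nBad r σ (Xp r σ y) (u + 1) = (u - nBad r σ (Xp r σ y) u) + 1 := by
      rw [nBad_succ', if_neg hb]
      omega
    have hiff : ∀ z : Row σ n, (Used σ (Xp r σ (updR σ n u y z)) u ↔
        (Aper σ z ∧ ∀ m' < u, ¬ Eqv σ z (xrow σ (Xp r σ y) m'))) := by
      intro z
      have h1 : xrow σ (Xp r σ (updR σ n u y z)) u = z := by
        rw [proc_row_of_not_bad (isProc_Xp r (updR σ n u y z)) (fun h => hb ((hB z).1 h)), xrow_updR]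
      unfold Used
      rw [h1]
      refine and_congr_right fun _ => forall_congr' fun m' => forall_congr' fun hm' => ?_
      rw [hX z m' hm']
    have hc := card_notnew_eq (σ := σ) (n := n) (y := Xp r σ y) (m := u) hS
    have hsplit : ((Finset.univ.filter fun z : Row σ n =>
          Aper σ z ∧ ∀ m' < u, ¬ Eqv σ z (xrow σ (Xp r σ y) m')).card : ℝ) +
        ((Finset.univ.filter fun z : Row σ n =>
          ¬ (Aper σ z ∧ ∀ m' < u, ¬ Eqv σ z (xrow σ (Xp r σ y) m'))).card : ℝ) = (n : ℝ) ^ σ := by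
      rw [← hcard, ← Nat.cast_add, Finset.card_filter_add_card_filter_not]
    have hsum : ∑ z : Row σ n, GG σ n r k (u + 1) (updR σ n u y z) =
        ((n : ℝ) ^ σ - (σ * u + PN σ n)) * WW (σ := σ) n k ((u - nBad r σ (Xp r σ y) u) + 1) := by
      rw [← hc, ← hsplit, add_sub_cancel_right]
      calc ∑ z : Row σ n, GG σ n r k (u + 1) (updR σ n u y z)
          = ∑ z : Row σ n, if (Aper σ z ∧ ∀ m' < u, ¬ Eqv σ z (xrow σ (Xp r σ y) m')) then
              WW (σ := σ) n k ((u - nBad r σ (Xp r σ y) u) + 1) else 0 := by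
            refine Finset.sum_congr rfl fun z _ => ?_
            rw [hG1 z, hK]
            exact if_congr (hiff z) rfl rfl
        _ = _ := by
            rw [← Finset.sum_filter, Finset.sum_const, nsmul_eq_mul]
    rw [hsum]
    have haa : ((n : ℝ) ^ σ - (σ * u + PN σ n)) * WW (σ := σ) n k ((u - nBad r σ (Xp r σ y) u) + 1) /
        (n : ℝ) ^ σ = (1 - aa σ n u) * WW (σ := σ) n k ((u - nBad r σ (Xp r σ y) u) + 1) := by
      unfold aa
      field_simp
    rw [haa]
    set K := u - nBad r σ (Xp r σ y) u with hKdef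
    have hKu : K ≤ u := Nat.sub_le _ _
    by_cases hKk : K < k
    · rw [WW_lt hKk]
      have h1 := aa_mono' (σ := σ) (n := n) hKu
      exact mul_le_mul_of_nonneg_right (by linarith) (WW_nonneg hk _)
    · have hKk' : k ≤ K := not_lt.1 hKk
      rw [WW_ge hKk', WW_ge (hKk'.trans (Nat.le_succ K)), mul_one]
      have := aa_nonneg' (σ := σ) (n := n) u
      linarith

theorem Q6 (r l k : ℕ) (hk : ∀ i < k, aa σ n i ≤ 1) :
    Pr σ n l (fun y => (∀ m < l, Used σ (Xp r σ y) m) ∧ k ≤ l - nBad r σ (Xp r σ y) l) ≤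
      ppi σ n k := by
  have hmain : ∀ u ≤ l, Ex σ n l (GG σ n r k u) ≤ ppi σ n k := by
    intro u
    induction u with
    | zero =>
      intro _
      have h0 : (GG σ n r k 0 : (ℕ → Fin n) → ℝ) = fun _ => ppi σ n k := by
        funext y
        unfold GG
        rw [if_pos (fun m hm => absurd hm (Nat.not_lt_zero m))]
        unfold WW ppi
        rw [Nat.zero_sub, Nat.zero_min, Finset.range_eq_Ico]
      rw [h0, Ex_const]
    | succ u ih =>
      intro hu
      refine le_trans ?_ (ih (Nat.le_of_succ_le hu))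
      rw [Ex_upd (Nat.lt_of_succ_le hu)]
      exact Ex_mono fun y => GG_step hk r u y
  refine le_trans ?_ (hmain l le_rfl)
  unfold Pr
  refine Ex_mono fun y => ?_
  by_cases h : (∀ m < l, Used σ (Xp r σ y) m) ∧ k ≤ l - nBad r σ (Xp r σ y) l
  · rw [if_pos h]
    unfold GG
    rw [if_pos h.1, WW_ge h.2]
  · rw [if_neg h]
    exact GG_nonneg hk r l y

end CAB
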