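import Pool.Agent.Lib.MP_eab41b_pr.B.C1

/-! Row C12a: the number of rows that are not aperiodic.

Sketch: `¬ Aper z` iff `rot j z = z` for some `j ≠ 0`; for such `j` of additive order `d ≥ 2` (`d ∣ σ`) the number of `z` with `rot j z = z` is
`n ^ (σ / d)` (functions on the quotient by the subgroup generated by `j`). So `PN ≤ (σ - 1) n ^ (σ/2)`. `PN_lim`: if `σ` is odd, all `d ≥ 3` and `PN ≤ σ n^{σ/3}`, `κ = 0`. If `σ` is even,
`j = σ/2` has `d = 2`: `n^{σ/2} ≤ PN ≤ n^{σ/2} + σ n^{σ/3}` (all other `j` have `d ≥ 3`), `κ = 1`. (`n ^ (σ/2)` is the real power in `NN`.) -/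

set_option autoImplicit false

set_option linter.unusedSectionVars false

open scoped Classical

namespace CAB

variable {σ n : ℕ} [NeZero n] [NeZero σ]

private theorem C12a_per {z : Row σ n} {j : ZMod σ} (hz : rot σ j z = z) (k : ℤ) (i : ZMod σ) :
    z (i + k • j) = z i := by
  have h1 : ∀ i, z (i + j) = z i := fun i => congrFun hz i
  induction k using Int.induction_on generalizing i with
  | zero => rw [zero_smul, add_zero]
  | succ k ih =>
    rw [add_smul, one_smul, ← add_assoc, h1]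
    exact ih i
  | pred k ih =>
    rw [← h1 (i + (-(k : ℤ) - 1) • j), add_assoc]
    have e : (-(k : ℤ) - 1) • j + j = (-(k : ℤ)) • j := by
      rw [sub_smul, one_smul, sub_add_cancel]
    rw [e]
    exact ih i

private noncomputable def C12a_equiv (j : ZMod σ) :
    ((ZMod σ ⧸ AddSubgroup.zmultiples j) → Fin n) ≃ {z : Row σ n // rot σ j z = z} where
  toFun g := ⟨fun i => g (QuotientAddGroup.mk i), by
    funext i
    change g (QuotientAddGroup.mk (i + j)) = g (QuotientAddGroup.mk i)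
    congr 1
    rw [eq_comm, QuotientAddGroup.eq]
    rw [neg_add_cancel_left]
    exact AddSubgroup.mem_zmultiples j⟩
  invFun z := fun q => z.1 q.out
  left_inv g := by
    funext q
    change g (QuotientAddGroup.mk q.out) = g q
    rw [QuotientAddGroup.out_eq']
  right_inv z := by
    apply Subtype.ext
    funext i
    change z.1 (QuotientAddGroup.mk (s := AddSubgroup.zmultiples j) i).out = z.1 i
    have h1 : -i + (QuotientAddGroup.mk (s := AddSubgroup.zmultiples j) i).out ∈
        AddSubgroup.zmultiples j := by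
      rw [← QuotientAddGroup.eq, QuotientAddGroup.out_eq']
    obtain ⟨k, hk⟩ := AddSubgroup.mem_zmultiples_iff.1 h1
    have h2 : (QuotientAddGroup.mk (s := AddSubgroup.zmultiples j) i).out = i + k • j := by
      rw [hk, add_neg_cancel_left]
    rw [h2]
    exact C12a_per z.2 k i

theorem card_fixed (j : ZMod σ) :
    (Finset.univ.filter fun z : Row σ n => rot σ j z = z).card = n ^ (σ / addOrderOf j) := by
  have h1 : (Finset.univ.filter fun z : Row σ n => rot σ j z = z).card =
      Nat.card {z : Row σ n // rot σ j z = z} := by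
    rw [Nat.card_eq_fintype_card, Fintype.card_subtype]
  rw [h1, ← Nat.card_congr (C12a_equiv (n := n) j), Nat.card_fun, Nat.card_eq_fintype_card (α := Fin n),
    Fintype.card_fin]
  congr 1
  have h2 := AddSubgroup.card_eq_card_quotient_mul_card_addSubgroup (AddSubgroup.zmultiples j)
  rw [Nat.card_zmultiples, Nat.card_zmod] at h2
  exact (Nat.div_eq_of_eq_mul_left (addOrderOf_pos j) h2).symm

theorem NN_sq : NN σ n ^ 2 = (n : ℝ) ^ σ := by
  unfold NN
  rw [← Real.rpow_natCast, ← Real.rpow_mul (Nat.cast_nonneg n)]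
  have e : (σ : ℝ) / 2 * ((2 : ℕ) : ℝ) = (σ : ℝ) := by
    push_cast
    ring
  rw [e, Real.rpow_natCast]

private theorem C12a_one : (1 : ℝ) ≤ (n : ℝ) := by
  have : 1 ≤ n := Nat.one_le_iff_ne_zero.2 (NeZero.ne n)
  exact_mod_cast this

theorem one_le_NN : 1 ≤ NN σ n := by
  unfold NN
  exact Real.one_le_rpow C12a_one (by positivity)

private theorem C12a_le {j : ZMod σ} (hj : j ≠ 0) :
    ((n ^ (σ / addOrderOf j) : ℕ) : ℝ) ≤ NN σ n := by
  unfold NN
  rw [Nat.cast_pow, ← Real.rpow_natCast]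
  refine Real.rpow_le_rpow_of_exponent_le C12a_one ?_
  have h1 : addOrderOf j ≠ 1 := fun h => hj (AddMonoid.addOrderOf_eq_one_iff.1 h)
  have h2 : 0 < addOrderOf j := addOrderOf_pos j
  have h3 : σ / addOrderOf j ≤ σ / 2 := Nat.div_le_div_left (by omega) (by norm_num)
  have h4 : ((σ / 2 : ℕ) : ℝ) ≤ (σ : ℝ) / 2 := by
    have := Nat.cast_div_le (α := ℝ) (m := σ) (n := 2)
    exact_mod_cast this
  exact le_trans (by exact_mod_cast h3) h4

theorem PN_le : (PN σ n : ℝ) ≤ σ * NN σ n := by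
  unfold PN
  have h1 : (Finset.univ.filter fun z : Row σ n => ¬ Aper σ z) ⊆
      (Finset.univ.filter fun j : ZMod σ => j ≠ 0).biUnion
        (fun j => Finset.univ.filter fun z : Row σ n => rot σ j z = z) := by
    intro z hz
    have hz' := (Finset.mem_filter.1 hz).2
    unfold Aper at hz'
    push Not at hz'
    obtain ⟨j, hj1, hj2⟩ := hz'
    exact Finset.mem_biUnion.2 ⟨j, Finset.mem_filter.2 ⟨Finset.mem_univ _, hj2⟩,
      Finset.mem_filter.2 ⟨Finset.mem_univ _, hj1⟩⟩
  have h2 := (Finset.card_le_card h1).trans Finset.card_biUnion_le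
  have h3 : ((Finset.univ.filter fun z : Row σ n => ¬ Aper σ z).card : ℝ) ≤
      ∑ j ∈ Finset.univ.filter (fun j : ZMod σ => j ≠ 0),
        (((Finset.univ.filter fun z : Row σ n => rot σ j z = z).card : ℕ) : ℝ) := by
    exact_mod_cast h2
  refine h3.trans ?_
  have h4 : ∀ j ∈ Finset.univ.filter (fun j : ZMod σ => j ≠ 0),
      (((Finset.univ.filter fun z : Row σ n => rot σ j z = z).card : ℕ) : ℝ) ≤ NN σ n := by
    intro j hj
    rw [card_fixed]
    exact C12a_le (Finset.mem_filter.1 hj).2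
  refine (Finset.sum_le_card_nsmul _ _ _ h4).trans ?_
  rw [nsmul_eq_mul]
  refine mul_le_mul_of_nonneg_right ?_ (le_trans zero_le_one one_le_NN)
  have h5 : (Finset.univ.filter fun j : ZMod σ => j ≠ 0).card ≤ σ := by
    refine (Finset.card_filter_le _ _).trans ?_
    rw [Finset.card_univ, ZMod.card]
  exact_mod_cast h5

theorem NN_tendsto (σ : ℕ) [NeZero σ] (A : ℝ) : ∃ N0 : ℕ, ∀ (n : ℕ) [NeZero n], N0 ≤ n →
    A ≤ NN σ n := by
  obtain ⟨N0, hN0⟩ := exists_nat_ge (A ^ 2)
  refine ⟨N0, fun n _ hn => ?_⟩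
  by_contra h
  push Not at h
  have h1 : (1 : ℝ) ≤ NN σ n := one_le_NN
  have h2 : NN σ n ^ 2 = (n : ℝ) ^ σ := NN_sq
  have h3 : (n : ℝ) ≤ (n : ℝ) ^ σ := le_self_pow₀ C12a_one (NeZero.ne σ)
  have h4 : (N0 : ℝ) ≤ (n : ℝ) := by exact_mod_cast hn
  nlinarith

end CAB
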