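import Pool.Agent.Lib.MP_eab41b_pr.B.C1
import Pool.Agent.Lib.MP_eab41b_pr.B.C12a

/-! Row C12: the number of rows that are not aperiodic.

Sketch: `¬ Aper z` iff `rot j z = z` for some `j ≠ 0`; for such `j` of additive order `d ≥ 2` (`d ∣ σ`) the number of `z` with `rot j z = z` is
`n ^ (σ / d)` (functions on the quotient by the subgroup generated by `j`). So `PN ≤ (σ - 1) n ^ (σ/2)`. `PN_lim`: if `σ` is odd, all `d ≥ 3` and `PN ≤ σ n^{σ/3}`, `κ = 0`. If `σ` is even,
`j = σ/2` has `d = 2`: `n^{σ/2} ≤ PN ≤ n^{σ/2} + σ n^{σ/3}` (all other `j` have `d ≥ 3`), `κ = 1`. (`n ^ (σ/2)` is the real power in `NN`.) -/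

set_option autoImplicit false

set_option linter.unusedSectionVars false

open scoped Classical

namespace CAB

variable {σ n : ℕ} [NeZero n] [NeZero σ]

private theorem C12_err : ((n : ℝ) ^ (σ / 3)) * Real.sqrt n ≤ NN σ n := by
  have hn : (1 : ℝ) ≤ n := by exact_mod_cast Nat.one_le_iff_ne_zero.2 (NeZero.ne n)
  have h1 := NN_sq (σ := σ) (n := n)
  have h2 : 0 ≤ NN σ n := le_trans zero_le_one one_le_NN
  have h3 : (0 : ℝ) ≤ (n : ℝ) ^ (σ / 3) * Real.sqrt n := by positivity
  rw [← pow_le_pow_iff_left₀ h3 h2 (two_ne_zero), h1, mul_pow, Real.sq_sqrt (by positivity),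
    ← pow_mul, ← pow_succ]
  apply pow_le_pow_right₀ hn
  have hσ : 0 < σ := Nat.pos_of_ne_zero (NeZero.ne σ)
  omega

private theorem C12_NN_even (h : 2 ∣ σ) : NN σ n = (n : ℝ) ^ (σ / 2) := by
  have h1 := NN_sq (σ := σ) (n := n)
  have h2 : 0 ≤ NN σ n := le_trans zero_le_one one_le_NN
  have h3 : (0 : ℝ) ≤ (n : ℝ) ^ (σ / 2) := by positivity
  refine (pow_left_inj₀ h2 h3 (two_ne_zero)).1 ?_
  rw [h1, ← pow_mul]
  congr 1
  omega

private theorem C12_union : (Finset.univ.filter fun z : Row σ n => ¬ Aper σ z) =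
    (Finset.univ.filter fun j : ZMod σ => j ≠ 0).biUnion fun j =>
      Finset.univ.filter fun z : Row σ n => rot σ j z = z := by
  ext z
  simp only [Finset.mem_filter, Finset.mem_univ, true_and, Finset.mem_biUnion, Aper, not_forall]
  constructor
  · rintro ⟨j, hj, hj0⟩
    exact ⟨j, hj0, hj⟩
  · rintro ⟨j, hj0, hj⟩
    exact ⟨j, hj, hj0⟩

private theorem C12_ord {j : ZMod σ} (hj : j ≠ 0) (h2 : addOrderOf j ≠ 2) :
    σ / addOrderOf j ≤ σ / 3 := by
  have h0 : addOrderOf j ≠ 0 := (addOrderOf_pos j).ne'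
  have h1 : addOrderOf j ≠ 1 := fun h => hj (AddMonoid.addOrderOf_eq_one_iff.1 h)
  exact Nat.div_le_div_left (by omega) (by norm_num)

private theorem C12_upper : (PN σ n : ℝ) ≤
    ((Finset.univ.filter fun j : ZMod σ => addOrderOf j = 2).card : ℝ) * (n : ℝ) ^ (σ / 2)
      + σ * (n : ℝ) ^ (σ / 3) := by
  have hn : 1 ≤ n := Nat.one_le_iff_ne_zero.2 (NeZero.ne n)
  have key : PN σ n ≤ (Finset.univ.filter fun j : ZMod σ => addOrderOf j = 2).card * n ^ (σ / 2)
      + σ * n ^ (σ / 3) := by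
    unfold PN
    rw [C12_union]
    refine Finset.card_biUnion_le.trans ?_
    have e1 : ∀ j : ZMod σ, (Finset.univ.filter fun z : Row σ n => rot σ j z = z).card
        = n ^ (σ / addOrderOf j) := fun j => card_fixed j
    simp only [e1]
    have e2 : ∀ j ∈ Finset.univ.filter (fun j : ZMod σ => j ≠ 0), n ^ (σ / addOrderOf j) ≤
        (if addOrderOf j = 2 then n ^ (σ / 2) else 0) + n ^ (σ / 3) := by
      intro j hj
      have hj0 : j ≠ 0 := (Finset.mem_filter.1 hj).2
      by_cases h2 : addOrderOf j = 2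
      · rw [if_pos h2, h2]
        exact Nat.le_add_right _ _
      · rw [if_neg h2, zero_add]
        exact Nat.pow_le_pow_right hn (C12_ord hj0 h2)
    refine (Finset.sum_le_sum e2).trans ?_
    rw [Finset.sum_add_distrib]
    refine Nat.add_le_add ?_ ?_
    · refine (Finset.sum_le_sum_of_subset (Finset.filter_subset _ _)).trans ?_
      rw [← Finset.sum_filter, Finset.sum_const, smul_eq_mul]
    · rw [Finset.sum_const, smul_eq_mul]
      refine Nat.mul_le_mul_right _ ?_
      refine (Finset.card_filter_le _ _).trans ?_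
      rw [Finset.card_univ, ZMod.card]
  calc (PN σ n : ℝ) ≤ (((Finset.univ.filter fun j : ZMod σ => addOrderOf j = 2).card *
        n ^ (σ / 2) + σ * n ^ (σ / 3) : ℕ) : ℝ) := by exact_mod_cast key
    _ = _ := by push_cast; ring

private theorem C12_two (h : 2 ∣ σ) :
    (Finset.univ.filter fun j : ZMod σ => addOrderOf j = 2).card = 1 := by
  have := IsAddCyclic.card_addOrderOf_eq_totient (α := ZMod σ) (d := 2) (by rwa [ZMod.card])
  rw [Nat.totient_two] at this
  rw [← this]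

private theorem C12_two' (h : ¬ 2 ∣ σ) :
    (Finset.univ.filter fun j : ZMod σ => addOrderOf j = 2).card = 0 := by
  rw [Finset.card_eq_zero, Finset.filter_eq_empty_iff]
  intro j _ hj
  apply h
  have := addOrderOf_dvd_card (x := j)
  rwa [hj, ZMod.card] at this

private theorem C12_lower (h : 2 ∣ σ) : (n : ℝ) ^ (σ / 2) ≤ PN σ n := by
  obtain ⟨j, hj⟩ : ((Finset.univ.filter fun j : ZMod σ => addOrderOf j = 2)).Nonempty := by
    rw [← Finset.card_pos, C12_two h]
    exact one_pos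
  have hj2 : addOrderOf j = 2 := (Finset.mem_filter.1 hj).2
  have hj0 : j ≠ 0 := by
    rintro rfl
    rw [addOrderOf_zero] at hj2
    omega
  have e1 : (Finset.univ.filter fun z : Row σ n => rot σ j z = z).card = n ^ (σ / 2) := by
    rw [← hj2]
    exact card_fixed j
  have e2 : (Finset.univ.filter fun z : Row σ n => rot σ j z = z).card ≤ PN σ n := by
    refine Finset.card_le_card ?_
    intro z hz
    rw [Finset.mem_filter] at hz ⊢
    exact ⟨hz.1, fun hA => hj0 (hA j hz.2)⟩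
  rw [e1] at e2
  exact_mod_cast e2

theorem PN_lim (σ : ℕ) [NeZero σ] : ∃ κ : ℝ, 0 ≤ κ ∧ ∀ ε : ℝ, 0 < ε → ∃ N0 : ℕ,
    ∀ (n : ℕ) [NeZero n], N0 ≤ n → |(PN σ n : ℝ) / NN σ n - κ| ≤ ε := by
  refine ⟨if 2 ∣ σ then 1 else 0, by split_ifs <;> norm_num, ?_⟩
  intro ε hε
  obtain ⟨N0, hN0⟩ := exists_nat_ge (((σ : ℝ) / ε) ^ 2)
  refine ⟨N0, ?_⟩
  intro n _ hn
  have hnr : ((σ : ℝ) / ε) ^ 2 ≤ n := hN0.trans (by exact_mod_cast hn)
  have hs : (σ : ℝ) / ε ≤ Real.sqrt n := Real.le_sqrt_of_sq_le hnr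
  have hNN : 0 < NN σ n := lt_of_lt_of_le zero_lt_one one_le_NN
  have herr : (σ : ℝ) * (n : ℝ) ^ (σ / 3) ≤ ε * NN σ n := by
    have h1 : (σ : ℝ) ≤ ε * Real.sqrt n := by
      rw [div_le_iff₀ hε] at hs
      linarith [mul_comm (Real.sqrt n) ε]
    calc (σ : ℝ) * (n : ℝ) ^ (σ / 3) ≤ (ε * Real.sqrt n) * (n : ℝ) ^ (σ / 3) :=
          mul_le_mul_of_nonneg_right h1 (by positivity)
      _ = ε * ((n : ℝ) ^ (σ / 3) * Real.sqrt n) := by ring
      _ ≤ ε * NN σ n := mul_le_mul_of_nonneg_left C12_err hε.le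
  have hup := C12_upper (σ := σ) (n := n)
  rw [abs_le]
  by_cases h : 2 ∣ σ
  · rw [if_pos h]
    rw [C12_two h, ← C12_NN_even h] at hup
    have hlo := C12_lower (n := n) h
    rw [← C12_NN_even h] at hlo
    constructor
    · have : 1 ≤ (PN σ n : ℝ) / NN σ n := by
        rw [le_div_iff₀ hNN, one_mul]
        exact hlo
      linarith
    · rw [sub_le_iff_le_add, div_le_iff₀ hNN]
      push_cast at hup
      linarith
  · rw [if_neg h, sub_zero]
    rw [C12_two' h] at hup
    constructor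
    · have : 0 ≤ (PN σ n : ℝ) / NN σ n := by positivity
      linarith
    · rw [div_le_iff₀ hNN]
      push_cast at hup
      linarith

end CAB
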