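import Pool.Agent.Lib.MP_eab41b_pr.B.C1
import Pool.Agent.Lib.MP_eab41b_pr.B.B13

/-! Row C2a: the probability of a large rank.

Sketch: first `Ex_cells` (the `T σ` cells are independent and uniform; the bijection
`(Fin T → Row σ n) ≃ (Fin (T * σ) → Fin n)`). If `s ≤ rk y C` there are `s` different cells `c_1, ..., c_s` of `C` and cells `d_i < c_i` of `C` with
`y (c_i) = y (d_i)` (the cells of `C` whose value occurs at a smaller cell of `C`: there are exactly `rk y C` of them). There are at most `|C|^{2s}`
such systems (functions `Fin s → C × C` with injective first component), and for each the number of `y` is `n^{-s}` times the total: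
the values at the `c_i` are determined by the other values (induction on `s`: remove the largest `c_i`, which is not a `d_j` for `j` with
`c_j < c_i`, and resample the cell `c_i`). -/

set_option autoImplicit false

set_option linter.unusedSectionVars false

open scoped Classical

namespace CAB

variable {σ n : ℕ} [NeZero n] [NeZero σ]

private theorem C2a_lt {T : ℕ} (m : Fin T) (i : ZMod σ) : (m : ℕ) * σ + i.val < T * σ := by
  have h1 : i.val < σ := ZMod.val_lt i
  have h2 : (m : ℕ) + 1 ≤ T := m.2
  have h3 : ((m : ℕ) + 1) * σ ≤ T * σ := Nat.mul_le_mul_right σ h2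
  have h4 : ((m : ℕ) + 1) * σ = (m : ℕ) * σ + σ := by ring
  omega

/-- rows and cells -/
private def C2a_e (σ n T : ℕ) [NeZero n] [NeZero σ] :
    (Fin T → Row σ n) ≃ (Fin (T * σ) → Fin n) where
  toFun y c := seqR σ n T y c
  invFun w m i := w ⟨(m : ℕ) * σ + i.val, C2a_lt m i⟩
  left_inv y := by
    funext m i
    exact seqR_cell y m.2 i
  right_inv w := by
    funext c
    have h : (c : ℕ) / σ < T := by
      rw [Nat.div_lt_iff_lt_mul (sig_pos (σ := σ))]
      exact c.2
    change seqR σ n T _ (c : ℕ) = w c
    unfold seqR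
    rw [dif_pos h]
    exact congrArg w (Fin.ext (cell_eq (σ := σ) (c : ℕ)))

theorem Ex_cells (T : ℕ) (G : (ℕ → Fin n) → ℝ) :
    Ex σ n T G = (∑ w : Fin (T * σ) → Fin n,
      G fun c => if h : c < T * σ then w ⟨c, h⟩ else 0) / (n : ℝ) ^ (T * σ) := by
  unfold Ex
  rw [← pow_mul, mul_comm σ T]
  congr 1
  refine Fintype.sum_equiv (C2a_e σ n T) _ _ fun y => ?_
  congr 1
  funext c
  by_cases h : c < T * σ
  · rw [dif_pos h]
    rfl
  · rw [dif_neg h]
    have h' : ¬ c / σ < T := by
      rw [Nat.div_lt_iff_lt_mul (sig_pos (σ := σ))]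
      exact h
    unfold seqR
    rw [dif_neg h']

end CAB
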