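import Pool.Agent.Lib.MP_eab41b_pr.B.C1
import Pool.Agent.Lib.MP_eab41b_pr.B.B13
import Pool.Agent.Lib.MP_eab41b_pr.B.C2a

/-! Row C2: the probability of a large rank.

Sketch: first `Ex_cells` (the `T σ` cells are independent and uniform; the bijection
`(Fin T → Row σ n) ≃ (Fin (T * σ) → Fin n)`). If `s ≤ rk y C` there are `s` different cells `c_1, ..., c_s` of `C` and cells `d_i < c_i` of `C` with
`y (c_i) = y (d_i)` (the cells of `C` whose value occurs at a smaller cell of `C`: there are exactly `rk y C` of them). There are at most `|C|^{2s}`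
such systems (functions `Fin s → C × C` with injective first component), and for each the number of `y` is `n^{-s}` times the total:
the values at the `c_i` are determined by the other values (induction on `s`: remove the largest `c_i`, which is not a `d_j` for `j` with
`c_j < c_i`, and resample the cell `c_i`). -/

set_option autoImplicit false

set_option linter.unusedSectionVars false

open scoped Classical

namespace CAB

variable {σ n : ℕ} [NeZero n] [NeZero σ]

/-- the sequence of the first `M` cells -/
private noncomputable def C2_ext (M : ℕ) (w : Fin M → Fin n) : ℕ → Fin n :=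
  fun c => if h : c < M then w ⟨c, h⟩ else 0

private theorem C2_ext_update {M c : ℕ} (hc : c < M) (w : Fin M → Fin n) (v : Fin n) :
    C2_ext M (Function.update w ⟨c, hc⟩ v) = Function.update (C2_ext M w) c v := by
  funext k
  unfold C2_ext
  by_cases hk : k = c
  · subst hk
    rw [Function.update_self, dif_pos hc, Function.update_self]
  · rw [Function.update_of_ne hk]
    by_cases hkM : k < M
    · rw [dif_pos hkM, dif_pos hkM, Function.update_of_ne]
      intro h
      exact hk (Fin.mk.inj_iff.mp h)
    · rw [dif_neg hkM, dif_neg hkM]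

private theorem C2_rk_update {α : Type} {y : ℕ → α} {C : Finset ℕ} {c : ℕ} (hc : c ∉ C) (v : α) :
    rk (Function.update y c v) C = rk y C := by
  unfold rk
  have h : C.image (Function.update y c v) = C.image y := by
    refine Finset.image_congr ?_
    intro k hk
    have hkc : k ≠ c := fun h => hc (h ▸ hk)
    exact Function.update_of_ne hkc v y
  rw [h]

private theorem C2_rk_insert {α : Type} (y : ℕ → α) {C : Finset ℕ} {c : ℕ} (hc : c ∉ C) {s : ℕ}
    (h : s + 1 ≤ rk y (insert c C)) :
    s + 1 ≤ rk y C ∨ (s ≤ rk y C ∧ ∃ d ∈ C, y c = y d) := by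
  unfold rk at h ⊢
  have h1 : (insert c C).card = C.card + 1 := Finset.card_insert_of_notMem hc
  have h2 : (C.image y).card ≤ C.card := Finset.card_image_le
  by_cases hd : ∃ d ∈ C, y c = y d
  · right
    refine ⟨?_, hd⟩
    have h3 : ((C.image y).card : ℕ) ≤ ((insert c C).image y).card :=
      Finset.card_le_card (Finset.image_subset_image (Finset.subset_insert c C))
    omega
  · left
    have h3 : ((insert c C).image y).card = (C.image y).card + 1 := by
      rw [Finset.image_insert, Finset.card_insert_of_notMem]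
      intro hmem
      obtain ⟨d, hd1, hd2⟩ := Finset.mem_image.mp hmem
      exact hd ⟨d, hd1, hd2.symm⟩
    omega

private theorem C2_resample {M : ℕ} {C : Finset ℕ} {c d : ℕ} (hc : c < M) (hcC : c ∉ C)
    (hdc : d ≠ c) (s : ℕ) :
    ((Finset.univ.filter fun w : Fin M → Fin n =>
      s ≤ rk (C2_ext M w) C ∧ C2_ext M w c = C2_ext M w d).card) * n ≤
      (Finset.univ.filter fun w : Fin M → Fin n => s ≤ rk (C2_ext M w) C).card := by
  have h1 : ((Finset.univ.filter fun w : Fin M → Fin n =>
      s ≤ rk (C2_ext M w) C ∧ C2_ext M w c = C2_ext M w d) ×ˢ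
      (Finset.univ : Finset (Fin n))).card =
      ((Finset.univ.filter fun w : Fin M → Fin n =>
      s ≤ rk (C2_ext M w) C ∧ C2_ext M w c = C2_ext M w d).card) * n := by
    rw [Finset.card_product, Finset.card_univ, Fintype.card_fin]
  rw [← h1]
  refine Finset.card_le_card_of_injOn (fun p => Function.update p.1 ⟨c, hc⟩ p.2) ?_ ?_
  · intro p hp
    have hp1 := (Finset.mem_filter.mp (Finset.mem_product.mp hp).1).2
    refine Finset.mem_coe.mpr (Finset.mem_filter.mpr ⟨Finset.mem_univ _, ?_⟩)
    show s ≤ rk (C2_ext M (Function.update p.1 ⟨c, hc⟩ p.2)) C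
    rw [C2_ext_update hc, C2_rk_update hcC]
    exact hp1.1
  · intro p hp q hq hpq
    have hp1 := (Finset.mem_filter.mp (Finset.mem_product.mp hp).1).2.2
    have hq1 := (Finset.mem_filter.mp (Finset.mem_product.mp hq).1).2.2
    have e : Function.update p.1 ⟨c, hc⟩ p.2 = Function.update q.1 ⟨c, hc⟩ q.2 := hpq
    have e2 : p.2 = q.2 := by
      have := congrFun e ⟨c, hc⟩
      rwa [Function.update_self, Function.update_self] at this
    have e' : Function.update (C2_ext M p.1) c p.2 = Function.update (C2_ext M q.1) c q.2 := by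
      rw [← C2_ext_update hc, ← C2_ext_update hc, e]
    have ed : C2_ext M p.1 d = C2_ext M q.1 d := by
      have := congrFun e' d
      rwa [Function.update_of_ne hdc, Function.update_of_ne hdc] at this
    have ec : C2_ext M p.1 c = C2_ext M q.1 c := by rw [hp1, hq1, ed]
    have e1 : p.1 = q.1 := by
      funext k
      by_cases hk : k = ⟨c, hc⟩
      · subst hk
        unfold C2_ext at ec
        rwa [dif_pos hc, dif_pos hc] at ec
      · have := congrFun e k
        rwa [Function.update_of_ne hk, Function.update_of_ne hk] at this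
    exact Prod.ext e1 e2

private theorem C2_count (M : ℕ) (C : Finset ℕ) (hC : C ⊆ Finset.range M) :
    ∀ s : ℕ, ((Finset.univ.filter fun w : Fin M → Fin n => s ≤ rk (C2_ext M w) C).card : ℝ) ≤
      (C.card : ℝ) ^ (2 * s) / (n : ℝ) ^ s * (n : ℝ) ^ M := by
  have hn : (0 : ℝ) < n := by exact_mod_cast Nat.pos_of_ne_zero (NeZero.ne n)
  induction C using Finset.induction_on with
  | empty =>
    intro s
    rcases s with _ | s
    · simp
    · have : (Finset.univ.filter fun w : Fin M → Fin n => s + 1 ≤ rk (C2_ext M w) ∅) = ∅ := by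
        refine Finset.filter_eq_empty_iff.mpr ?_
        intro w _ h
        unfold rk at h
        simp at h
      rw [this]
      simp
  | insert c C₀ hc ih =>
    have hcM : c < M := Finset.mem_range.mp (hC (Finset.mem_insert_self c C₀))
    have ih' := ih fun k hk => hC (Finset.mem_insert_of_mem hk)
    intro s
    rcases s with _ | s
    · simp
    · have hsub : (Finset.univ.filter fun w : Fin M → Fin n =>
          s + 1 ≤ rk (C2_ext M w) (insert c C₀)) ⊆
          (Finset.univ.filter fun w : Fin M → Fin n => s + 1 ≤ rk (C2_ext M w) C₀) ∪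
          C₀.biUnion fun d => Finset.univ.filter fun w : Fin M → Fin n =>
            s ≤ rk (C2_ext M w) C₀ ∧ C2_ext M w c = C2_ext M w d := by
        intro w hw
        rcases C2_rk_insert _ hc (Finset.mem_filter.mp hw).2 with h | ⟨h, d, hd, hcd⟩
        · exact Finset.mem_union_left _ (Finset.mem_filter.mpr ⟨Finset.mem_univ _, h⟩)
        · exact Finset.mem_union_right _ (Finset.mem_biUnion.mpr
            ⟨d, hd, Finset.mem_filter.mpr ⟨Finset.mem_univ _, h, hcd⟩⟩)
      have h1 := (Finset.card_le_card hsub).trans (Finset.card_union_le _ _)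
      have h2 : ((C₀.biUnion fun d => Finset.univ.filter fun w : Fin M → Fin n =>
            s ≤ rk (C2_ext M w) C₀ ∧ C2_ext M w c = C2_ext M w d).card : ℝ) ≤
            C₀.card * ((C₀.card : ℝ) ^ (2 * s) / (n : ℝ) ^ s * (n : ℝ) ^ M / n) := by
        have h3 : ((C₀.biUnion fun d => Finset.univ.filter fun w : Fin M → Fin n =>
            s ≤ rk (C2_ext M w) C₀ ∧ C2_ext M w c = C2_ext M w d).card : ℝ) ≤
            ∑ d ∈ C₀, ((Finset.univ.filter fun w : Fin M → Fin n =>
            s ≤ rk (C2_ext M w) C₀ ∧ C2_ext M w c = C2_ext M w d).card : ℝ) := by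
          exact_mod_cast Finset.card_biUnion_le
        refine h3.trans ?_
        rw [← nsmul_eq_mul]
        refine Finset.sum_le_card_nsmul _ _ _ ?_
        intro d hd
        have hdc : d ≠ c := fun h => hc (h ▸ hd)
        have h4 := C2_resample (n := n) (M := M) (C := C₀) (c := c) (d := d) hcM hc hdc s
        have h5 : ((Finset.univ.filter fun w : Fin M → Fin n =>
            s ≤ rk (C2_ext M w) C₀ ∧ C2_ext M w c = C2_ext M w d).card : ℝ) * n ≤
            ((Finset.univ.filter fun w : Fin M → Fin n => s ≤ rk (C2_ext M w) C₀).card : ℝ) := by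
          exact_mod_cast h4
        rw [le_div_iff₀ hn]
        exact h5.trans (ih' s)
      have h6 : ((Finset.univ.filter fun w : Fin M → Fin n =>
          s + 1 ≤ rk (C2_ext M w) (insert c C₀)).card : ℝ) ≤
          ((Finset.univ.filter fun w : Fin M → Fin n => s + 1 ≤ rk (C2_ext M w) C₀).card : ℝ) +
          ((C₀.biUnion fun d => Finset.univ.filter fun w : Fin M → Fin n =>
            s ≤ rk (C2_ext M w) C₀ ∧ C2_ext M w c = C2_ext M w d).card : ℝ) := by
        exact_mod_cast h1
      have h7 := ih' (s + 1)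
      have hcard : ((insert c C₀).card : ℝ) = (C₀.card : ℝ) + 1 := by
        rw [Finset.card_insert_of_notMem hc]
        push_cast
        ring
      rw [hcard]
      set m : ℝ := (C₀.card : ℝ) with hm
      have hm0 : 0 ≤ m := Nat.cast_nonneg _
      have h8 : m ^ (2 * (s + 1)) + m * m ^ (2 * s) ≤ (m + 1) ^ (2 * (s + 1)) := by
        have e1 : m ^ (2 * (s + 1)) + m * m ^ (2 * s) = m ^ (2 * s + 1) * (m + 1) := by ring
        have e2 : (m + 1) ^ (2 * (s + 1)) = (m + 1) ^ (2 * s + 1) * (m + 1) := by ring
        rw [e1, e2]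
        exact mul_le_mul_of_nonneg_right (pow_le_pow_left₀ hm0 (by linarith) _) (by linarith)
      have h9 : m ^ (2 * (s + 1)) / (n : ℝ) ^ (s + 1) * (n : ℝ) ^ M +
          m * (m ^ (2 * s) / (n : ℝ) ^ s * (n : ℝ) ^ M / n) =
          (m ^ (2 * (s + 1)) + m * m ^ (2 * s)) * ((n : ℝ) ^ M / (n : ℝ) ^ (s + 1)) := by
        rw [pow_succ (n : ℝ) s]
        field_simp
      have h10 : (m + 1) ^ (2 * (s + 1)) / (n : ℝ) ^ (s + 1) * (n : ℝ) ^ M =
          (m + 1) ^ (2 * (s + 1)) * ((n : ℝ) ^ M / (n : ℝ) ^ (s + 1)) := by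
        field_simp
      rw [h10]
      calc _ ≤ _ := h6
        _ ≤ m ^ (2 * (s + 1)) / (n : ℝ) ^ (s + 1) * (n : ℝ) ^ M +
          m * (m ^ (2 * s) / (n : ℝ) ^ s * (n : ℝ) ^ M / n) := add_le_add h7 h2
        _ = _ := h9
        _ ≤ _ := mul_le_mul_of_nonneg_right h8 (by positivity)

theorem Pr_rk_le (T : ℕ) {C : Finset ℕ} (hC : C ⊆ Finset.range (T * σ)) (s : ℕ) :
    Pr σ n T (fun y => s ≤ rk y C) ≤ (C.card : ℝ) ^ (2 * s) / (n : ℝ) ^ s := by
  have hn : (0 : ℝ) < n := by exact_mod_cast Nat.pos_of_ne_zero (NeZero.ne n)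
  unfold Pr
  rw [Ex_cells, div_le_iff₀ (by positivity)]
  have h := C2_count (n := n) (T * σ) C hC s
  refine le_trans (le_of_eq ?_) h
  rw [← Finset.sum_boole]
  refine Finset.sum_congr rfl fun w _ => ?_
  by_cases hs : s ≤ rk (C2_ext (T * σ) w) C
  · rw [if_pos (by exact hs), if_pos hs]
  · rw [if_neg (by exact hs), if_neg hs]

end CAB
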