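import Pool.Agent.Lib.MP_eab41b_pr.B.C2

/-! Row C4: the union bound.

Sketch: `Pr_exists` over `H ∈ (range T).powersetCard q`, `q ≤ Q` (there are `≤ T^q` of them); `card_nb_le`, `card_cellsOf`: the
set of cells has at most `(|R| + q) (2 N + 1) σ` elements and is contained in `range (T σ)` (`nb ⊆ range T`); `Pr_rk_le`. -/

set_option autoImplicit false

set_option linter.unusedSectionVars false

open scoped Classical

namespace CAB

variable {σ n : ℕ} [NeZero n] [NeZero σ]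

private theorem C4_one (T N q s : ℕ) (R H : Finset ℕ) (hH : H.card = q) :
    Pr σ n T (fun y => s ≤ rk y (cellsOf σ (nb T N (R ∪ H)))) ≤
      (((R.card + q) * (2 * N + 1) * σ : ℕ) : ℝ) ^ (2 * s) / (n : ℝ) ^ s := by
  have hσ : 0 < σ := Nat.pos_of_ne_zero (NeZero.ne σ)
  have h1 : cellsOf σ (nb T N (R ∪ H)) ⊆ Finset.range (T * σ) := by
    intro c hc
    rw [mem_cellsOf] at hc
    unfold nb at hc
    have h2 := Finset.mem_range.1 (Finset.mem_filter.1 hc).1
    exact Finset.mem_range.2 ((Nat.div_lt_iff_lt_mul hσ).1 h2)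
  refine (Pr_rk_le T h1 s).trans ?_
  refine div_le_div_of_nonneg_right ?_ (by positivity)
  refine pow_le_pow_left₀ (Nat.cast_nonneg _) ?_ _
  have h2 : (cellsOf σ (nb T N (R ∪ H))).card ≤ (R.card + q) * (2 * N + 1) * σ := by
    rw [card_cellsOf]
    refine Nat.mul_le_mul_right σ ((card_nb_le T N (R ∪ H)).trans (Nat.mul_le_mul_right _ ?_))
    rw [← hH]
    exact Finset.card_union_le R H
  exact_mod_cast h2

theorem union_rk (T N Q : ℕ) (R : Finset ℕ) (b : ℕ → ℕ) :
    Pr σ n T (fun y => ∃ H ⊆ Finset.range T, H.card ≤ Q ∧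
      b H.card ≤ rk y (cellsOf σ (nb T N (R ∪ H)))) ≤
    ∑ q ∈ Finset.range (Q + 1), (T : ℝ) ^ q *
      ((((R.card + q) * (2 * N + 1) * σ : ℕ) : ℝ) ^ (2 * b q) / (n : ℝ) ^ (b q)) := by
  have h1 : Pr σ n T (fun y => ∃ H ⊆ Finset.range T, H.card ≤ Q ∧
      b H.card ≤ rk y (cellsOf σ (nb T N (R ∪ H)))) ≤
      Pr σ n T (fun y => ∃ q ∈ Finset.range (Q + 1), ∃ H ∈ (Finset.range T).powersetCard q,
        b q ≤ rk y (cellsOf σ (nb T N (R ∪ H)))) := by
    refine Pr_mono fun y hy => ?_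
    obtain ⟨H, hH, hQ, hb⟩ := hy
    exact ⟨H.card, Finset.mem_range.2 (Nat.lt_succ_of_le hQ), H,
      Finset.mem_powersetCard.2 ⟨hH, rfl⟩, hb⟩
  refine h1.trans ((Pr_exists T (Finset.range (Q + 1)) fun q y =>
    ∃ H ∈ (Finset.range T).powersetCard q, b q ≤ rk y (cellsOf σ (nb T N (R ∪ H)))).trans ?_)
  refine Finset.sum_le_sum fun q _ => ?_
  refine (Pr_exists T ((Finset.range T).powersetCard q) fun H y =>
    b q ≤ rk y (cellsOf σ (nb T N (R ∪ H)))).trans ?_
  refine (Finset.sum_le_sum fun H hH => C4_one T N q (b q) R H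
    (Finset.mem_powersetCard.1 hH).2).trans ?_
  rw [Finset.sum_const, Finset.card_powersetCard, Finset.card_range, nsmul_eq_mul]
  refine mul_le_mul_of_nonneg_right ?_ (by positivity)
  exact_mod_cast Nat.choose_le_pow T q

end CAB
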