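import Pool.Agent.Lib.MP_eab41b_pr.B.A0

/-! Row C5a: numerical bounds for the union bound (pure inequalities).

Sketch. `num_K`: each of the `Q + 1` terms is `≤ C_q T^q / n^b`, `b = max (K + 1) (r q)`, and `T^q n^{C'} ≤ n^b`: fourth powers:
`(T^4)^q n^{4 C'} ≤ n^{(2σ+1) q + 4 C'} ≤ n^{(4r-1) q + 4 C'}` (as `σ ≤ 2r - 1`), and `(4r - 1) q + 4 C' ≤ 4 b`: if `q ≥ 4 C'` use `b ≥ r q`,
otherwise `b ≥ K + 1 ≥ 4 r C'`.
`num_3`: `q = 0`: `n^{-r} ≤ n^{-1/2}`; `q ≥ 1`: `T ≤ √Λ n^{σ/2} ≤ √Λ n^{r - 1/2}`, so `T^q n^{-rq} ≤ Λ^{q/2} n^{-q/2}`. The exponent in the rows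
C8, C9 is `e + max 1 (r q)` or `r max 1 q`. Let `C` depend on everything except `n, T` (`C ≥ 0`). -/

set_option autoImplicit false

set_option linter.unusedSectionVars false

open scoped Classical

namespace CAB

private theorem num_K_exp {r σ : ℕ} (hr : 2 ≤ r) (hσ : σ < 2 * r) (K C' q : ℕ)
    (hK : 4 * r * C' ≤ K + 1) : (2 * σ + 1) * q + 4 * C' ≤ 4 * max (K + 1) (r * q) := by
  have h1 : 2 * σ + 2 ≤ 4 * r := by omega
  have h2 : (2 * σ + 1) * q + q ≤ 4 * r * q := by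
    calc (2 * σ + 1) * q + q = (2 * σ + 2) * q := by ring
      _ ≤ 4 * r * q := Nat.mul_le_mul_right q h1
  rcases le_or_gt (4 * C') q with h | h
  · have h3 : r * q ≤ max (K + 1) (r * q) := le_max_right _ _
    calc (2 * σ + 1) * q + 4 * C' ≤ (2 * σ + 1) * q + q := by omega
      _ ≤ 4 * r * q := h2
      _ = 4 * (r * q) := by ring
      _ ≤ 4 * max (K + 1) (r * q) := Nat.mul_le_mul_left 4 h3
  · obtain ⟨d, hd⟩ := Nat.exists_eq_add_of_lt h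
    have h3 : K + 1 ≤ max (K + 1) (r * q) := le_max_left _ _
    have h4 : d + 1 ≤ 4 * r * (d + 1) := by
      calc d + 1 = 1 * (d + 1) := by ring
        _ ≤ 4 * r * (d + 1) := Nat.mul_le_mul_right _ (by omega)
    calc (2 * σ + 1) * q + 4 * C' = ((2 * σ + 1) * q + q) + (d + 1) := by omega
      _ ≤ 4 * r * q + 4 * r * (d + 1) := add_le_add h2 h4
      _ = r * 4 * (q + (d + 1)) := by ring
      _ = r * 4 * (4 * C') := by rw [hd, Nat.add_assoc]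
      _ = 4 * (4 * r * C') := by ring
      _ ≤ 4 * (K + 1) := Nat.mul_le_mul_left 4 hK
      _ ≤ 4 * max (K + 1) (r * q) := Nat.mul_le_mul_left 4 h3

theorem num_K {r σ : ℕ} (hr : 2 ≤ r) (hσ : σ < 2 * r) (K Q R N C' : ℕ)
    (hK : 4 * r * C' ≤ K + 1) : ∃ C : ℝ, 0 ≤ C ∧ ∀ n T : ℕ, 1 ≤ n → T ^ 4 ≤ n ^ (2 * σ + 1) →
    ∑ q ∈ Finset.range (Q + 1), (T : ℝ) ^ q *
      ((((R + q) * (2 * N + 1) * σ : ℕ) : ℝ) ^ (2 * max (K + 1) (r * q)) /
        (n : ℝ) ^ (max (K + 1) (r * q))) ≤ C / (n : ℝ) ^ C' := by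
  refine ⟨∑ q ∈ Finset.range (Q + 1),
    (((R + q) * (2 * N + 1) * σ : ℕ) : ℝ) ^ (2 * max (K + 1) (r * q)),
    Finset.sum_nonneg fun q _ => by positivity, ?_⟩
  intro n T hn hT
  rw [Finset.sum_div]
  refine Finset.sum_le_sum fun q _ => ?_
  have hn0 : (0 : ℝ) < n := by exact_mod_cast hn
  have key : T ^ q * n ^ C' ≤ n ^ (max (K + 1) (r * q)) := by
    have h4 : (T ^ q * n ^ C') ^ 4 ≤ (n ^ (max (K + 1) (r * q))) ^ 4 := by
      calc (T ^ q * n ^ C') ^ 4 = (T ^ 4) ^ q * n ^ (4 * C') := by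
            rw [mul_pow, ← pow_mul, ← pow_mul, ← pow_mul, mul_comm q 4, mul_comm C' 4]
        _ ≤ (n ^ (2 * σ + 1)) ^ q * n ^ (4 * C') :=
            Nat.mul_le_mul_right _ (Nat.pow_le_pow_left hT q)
        _ = n ^ ((2 * σ + 1) * q + 4 * C') := by rw [← pow_mul, ← pow_add]
        _ ≤ n ^ (4 * max (K + 1) (r * q)) := Nat.pow_le_pow_right hn (num_K_exp hr hσ K C' q hK)
        _ = (n ^ (max (K + 1) (r * q))) ^ 4 := by rw [← pow_mul, mul_comm 4]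
    exact (Nat.pow_le_pow_iff_left (by norm_num)).1 h4
  have key' : (T : ℝ) ^ q * (n : ℝ) ^ C' ≤ (n : ℝ) ^ (max (K + 1) (r * q)) := by
    exact_mod_cast key
  set A : ℝ := (((R + q) * (2 * N + 1) * σ : ℕ) : ℝ) ^ (2 * max (K + 1) (r * q)) with hA
  have hA0 : 0 ≤ A := by positivity
  rw [← mul_div_assoc, div_le_div_iff₀ (by positivity) (by positivity)]
  calc (T : ℝ) ^ q * A * (n : ℝ) ^ C' = A * ((T : ℝ) ^ q * (n : ℝ) ^ C') := by ring
    _ ≤ A * (n : ℝ) ^ (max (K + 1) (r * q)) := mul_le_mul_of_nonneg_left key' hA0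

end CAB
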