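import Pool.Agent.Lib.MP_eab41b_pr.B.A0
import Pool.Agent.Lib.MP_eab41b_pr.B.C5a

/-! Row C5: numerical bounds for the union bound (pure inequalities).

Sketch. `num_K`: each of the `Q + 1` terms is `≤ C_q T^q / n^b`, `b = max (K + 1) (r q)`, and `T^q n^{C'} ≤ n^b`: fourth powers:
`(T^4)^q n^{4 C'} ≤ n^{(2σ+1) q + 4 C'} ≤ n^{(4r-1) q + 4 C'}` (as `σ ≤ 2r - 1`), and `(4r - 1) q + 4 C' ≤ 4 b`: if `q ≥ 4 C'` use `b ≥ r q`,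
otherwise `b ≥ K + 1 ≥ 4 r C'`.
`num_3`: `q = 0`: `n^{-r} ≤ n^{-1/2}`; `q ≥ 1`: `T ≤ √Λ n^{σ/2} ≤ √Λ n^{r - 1/2}`, so `T^q n^{-rq} ≤ Λ^{q/2} n^{-q/2}`. The exponent in the rows
C8, C9 is `e + max 1 (r q)` or `r max 1 q`. Let `C` depend on everything except `n, T` (`C ≥ 0`). -/

set_option autoImplicit false

set_option linter.unusedSectionVars false

open scoped Classical

namespace CAB

private theorem num_T {r σ : ℕ} (hσ : σ < 2 * r) (Λ : ℝ) (n T : ℕ) (hn : 1 ≤ n)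
    (hT : (T : ℝ) ^ 2 ≤ Λ * (n : ℝ) ^ σ) :
    (T : ℝ) * √(n : ℝ) ≤ (|Λ| + 1) * (n : ℝ) ^ r := by
  have hn1 : (1 : ℝ) ≤ n := by exact_mod_cast hn
  have hn0 : (0 : ℝ) < n := by linarith
  have hΛ0 : 0 ≤ |Λ| := abs_nonneg Λ
  refine le_of_sq_le_sq ?_ (by positivity)
  calc ((T : ℝ) * √(n : ℝ)) ^ 2 = (T : ℝ) ^ 2 * n := by
        rw [mul_pow, Real.sq_sqrt hn0.le]
    _ ≤ (Λ * (n : ℝ) ^ σ) * n := mul_le_mul_of_nonneg_right hT hn0.le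
    _ = Λ * (n : ℝ) ^ (σ + 1) := by rw [pow_succ]; ring
    _ ≤ (|Λ| + 1) ^ 2 * (n : ℝ) ^ (2 * r) := by
        have h1 : Λ ≤ (|Λ| + 1) ^ 2 := by nlinarith [le_abs_self Λ]
        have h2 : (n : ℝ) ^ (σ + 1) ≤ (n : ℝ) ^ (2 * r) := pow_le_pow_right₀ hn1 (by omega)
        have h3 : 0 ≤ (n : ℝ) ^ (σ + 1) := by positivity
        calc Λ * (n : ℝ) ^ (σ + 1) ≤ (|Λ| + 1) ^ 2 * (n : ℝ) ^ (σ + 1) :=
              mul_le_mul_of_nonneg_right h1 h3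
          _ ≤ (|Λ| + 1) ^ 2 * (n : ℝ) ^ (2 * r) := mul_le_mul_of_nonneg_left h2 (by positivity)
    _ = ((|Λ| + 1) * (n : ℝ) ^ r) ^ 2 := by rw [mul_pow, ← pow_mul, mul_comm r 2]

private theorem num_Tq {r σ : ℕ} (hσ : σ < 2 * r) (Λ : ℝ) (n T : ℕ) (hn : 1 ≤ n)
    (hT : (T : ℝ) ^ 2 ≤ Λ * (n : ℝ) ^ σ) (q : ℕ) (hq : 1 ≤ q) :
    (T : ℝ) ^ q * √(n : ℝ) ≤ (|Λ| + 1) ^ q * (n : ℝ) ^ (r * q) := by
  have h := num_T hσ Λ n T hn hT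
  have hn1 : (1 : ℝ) ≤ n := by exact_mod_cast hn
  have hs1 : 1 ≤ √(n : ℝ) := Real.one_le_sqrt.2 hn1
  have hs : √(n : ℝ) ≤ √(n : ℝ) ^ q := le_self_pow₀ hs1 (by omega)
  calc (T : ℝ) ^ q * √(n : ℝ) ≤ (T : ℝ) ^ q * √(n : ℝ) ^ q :=
        mul_le_mul_of_nonneg_left hs (by positivity)
    _ = ((T : ℝ) * √(n : ℝ)) ^ q := by rw [mul_pow]
    _ ≤ ((|Λ| + 1) * (n : ℝ) ^ r) ^ q := pow_le_pow_left₀ (by positivity) h q
    _ = (|Λ| + 1) ^ q * (n : ℝ) ^ (r * q) := by rw [mul_pow, ← pow_mul]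

theorem num_3 {r σ : ℕ} (hr : 2 ≤ r) (hσ : σ < 2 * r) (Q R N : ℕ) (Λ : ℝ) :
    ∃ C : ℝ, 0 ≤ C ∧ ∀ n T : ℕ, 1 ≤ n → (T : ℝ) ^ 2 ≤ Λ * (n : ℝ) ^ σ →
    ∑ q ∈ Finset.range (Q + 1), (T : ℝ) ^ q *
      ((((R + q) * (2 * N + 1) * σ : ℕ) : ℝ) ^ (2 * (r * max 1 q)) /
        (n : ℝ) ^ (r * max 1 q)) ≤ C / √(n : ℝ) := by
  refine ⟨∑ q ∈ Finset.range (Q + 1),
    (((R + q) * (2 * N + 1) * σ : ℕ) : ℝ) ^ (2 * (r * max 1 q)) * (|Λ| + 1) ^ q,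
    Finset.sum_nonneg fun q _ => by positivity, ?_⟩
  intro n T hn hT
  rw [Finset.sum_div]
  refine Finset.sum_le_sum fun q _ => ?_
  have hn1 : (1 : ℝ) ≤ n := by exact_mod_cast hn
  have hn0 : (0 : ℝ) < n := by linarith
  have hs0 : 0 < √(n : ℝ) := Real.sqrt_pos.2 hn0
  have key : (T : ℝ) ^ q * √(n : ℝ) ≤ (|Λ| + 1) ^ q * (n : ℝ) ^ (r * max 1 q) := by
    rcases Nat.eq_zero_or_pos q with h | h
    · subst h
      have h1 : √(n : ℝ) ≤ n := by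
        rw [Real.sqrt_le_left hn0.le]
        nlinarith
      have h2 : (n : ℝ) ≤ (n : ℝ) ^ (r * max 1 0) := le_self_pow₀ hn1 (by simp; omega)
      simpa using h1.trans h2
    · have h1 : max 1 q = q := max_eq_right h
      rw [h1]
      exact num_Tq hσ Λ n T hn hT q h
  set A : ℝ := (((R + q) * (2 * N + 1) * σ : ℕ) : ℝ) ^ (2 * (r * max 1 q)) with hA
  have hA0 : 0 ≤ A := by positivity
  rw [← mul_div_assoc, div_le_div_iff₀ (by positivity) hs0]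
  calc (T : ℝ) ^ q * A * √(n : ℝ) = A * ((T : ℝ) ^ q * √(n : ℝ)) := by ring
    _ ≤ A * ((|Λ| + 1) ^ q * (n : ℝ) ^ (r * max 1 q)) := mul_le_mul_of_nonneg_left key hA0
    _ = A * (|Λ| + 1) ^ q * (n : ℝ) ^ (r * max 1 q) := by ring

theorem num_4 {r σ : ℕ} (hr : 2 ≤ r) (hσ : σ < 2 * r) (e Q R N : ℕ) (Λ : ℝ) :
    ∃ C : ℝ, 0 ≤ C ∧ ∀ n T : ℕ, 1 ≤ n → (T : ℝ) ^ 2 ≤ Λ * (n : ℝ) ^ σ →
    ∑ q ∈ Finset.range (Q + 1), (T : ℝ) ^ q *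
      ((((R + q) * (2 * N + 1) * σ : ℕ) : ℝ) ^ (2 * (e + max 1 (r * q))) /
        (n : ℝ) ^ (e + max 1 (r * q))) ≤ C / (√(n : ℝ) * (n : ℝ) ^ e) := by
  refine ⟨∑ q ∈ Finset.range (Q + 1),
    (((R + q) * (2 * N + 1) * σ : ℕ) : ℝ) ^ (2 * (e + max 1 (r * q))) * (|Λ| + 1) ^ q,
    Finset.sum_nonneg fun q _ => by positivity, ?_⟩
  intro n T hn hT
  rw [Finset.sum_div]
  refine Finset.sum_le_sum fun q _ => ?_
  have hn1 : (1 : ℝ) ≤ n := by exact_mod_cast hn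
  have hn0 : (0 : ℝ) < n := by linarith
  have hs0 : 0 < √(n : ℝ) := Real.sqrt_pos.2 hn0
  have key : (T : ℝ) ^ q * √(n : ℝ) ≤ (|Λ| + 1) ^ q * (n : ℝ) ^ (max 1 (r * q)) := by
    rcases Nat.eq_zero_or_pos q with h | h
    · subst h
      have h1 : √(n : ℝ) ≤ n := by
        rw [Real.sqrt_le_left hn0.le]
        nlinarith
      simpa using h1
    · have h1 : max 1 (r * q) = r * q := by
        apply max_eq_right
        calc 1 = 1 * 1 := by norm_num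
          _ ≤ r * q := Nat.mul_le_mul (by omega) h
      rw [h1]
      exact num_Tq hσ Λ n T hn hT q h
  set A : ℝ := (((R + q) * (2 * N + 1) * σ : ℕ) : ℝ) ^ (2 * (e + max 1 (r * q))) with hA
  have hA0 : 0 ≤ A := by positivity
  rw [← mul_div_assoc, div_le_div_iff₀ (by positivity) (by positivity)]
  calc (T : ℝ) ^ q * A * (√(n : ℝ) * (n : ℝ) ^ e)
      = A * (n : ℝ) ^ e * ((T : ℝ) ^ q * √(n : ℝ)) := by ring
    _ ≤ A * (n : ℝ) ^ e * ((|Λ| + 1) ^ q * (n : ℝ) ^ (max 1 (r * q))) :=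
        mul_le_mul_of_nonneg_left key (by positivity)
    _ = A * (|Λ| + 1) ^ q * (n : ℝ) ^ (e + max 1 (r * q)) := by rw [pow_add]; ring

end CAB
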