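import Pool.Agent.Lib.MP_eab41b_pr.B.A2
import Pool.Agent.Lib.MP_eab41b_pr.B.B14
import Pool.Agent.Lib.MP_eab41b_pr.B.C4
import Pool.Agent.Lib.MP_eab41b_pr.B.C5

/-! Row C6: large closures are improbable.

Sketch: `K = 4 r (C' + σ + 1)`, `B = bndA r σ K`. `viol`, `Pr_exists` over `m < T`, `union_rk` with `R = {m}`, `Q = N = bndB`, `num_K` with `C' + σ + 1`;
the factor `T` is `≤ n^{σ+1}` (from `T ^ 4 ≤ n ^ (2σ+1)`). -/

set_option autoImplicit false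

set_option linter.unusedSectionVars false

open scoped Classical

namespace CAB

variable {r σ : ℕ} [NeZero σ]

theorem Pr_viol (hr : 2 ≤ r) (hσ1 : r < σ) (hσ2 : σ < 2 * r) (C' : ℕ) :
    ∃ (B : ℕ) (C : ℝ), 0 ≤ C ∧ ∀ (n : ℕ) [NeZero n] (T : ℕ), T ^ 4 ≤ n ^ (2 * σ + 1) →
      Pr σ n T (fun y => ∃ m < T, B < (clo r σ (Xp r σ y) m).card) ≤ C / (n : ℝ) ^ C' := by
  set K := 4 * r * (C' + σ + 1) with hK
  obtain ⟨C, hC0, hC⟩ := num_K hr hσ2 K (bndB r σ K) 1 (bndB r σ K) (C' + σ + 1) (by omega)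
  refine ⟨bndA r σ K, C, hC0, ?_⟩
  intro n _ T hT
  have hn : 1 ≤ n := Nat.pos_of_ne_zero (NeZero.ne n)
  have hn0 : (0 : ℝ) < n := by exact_mod_cast hn
  have h1 : Pr σ n T (fun y => ∃ m < T, bndA r σ K < (clo r σ (Xp r σ y) m).card) ≤
      Pr σ n T (fun y => ∃ m ∈ Finset.range T, ∃ H ⊆ Finset.range T, H.card ≤ bndB r σ K ∧
        max (K + 1) (r * H.card) ≤ rk y (cellsOf σ (nb T (bndB r σ K) ({m} ∪ H)))) := by
    apply Pr_mono
    rintro y ⟨m, hm, hB⟩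
    obtain ⟨m', hm', H, hH, hc, hrk⟩ := viol hr hσ1 hσ2 K (isProc_Xp r y) hm hB.le
    exact ⟨m', Finset.mem_range.2 hm', H, hH, hc, hrk⟩
  have h2 := Pr_exists (σ := σ) (n := n) T (Finset.range T)
    (fun m y => ∃ H ⊆ Finset.range T, H.card ≤ bndB r σ K ∧
      max (K + 1) (r * H.card) ≤ rk y (cellsOf σ (nb T (bndB r σ K) ({m} ∪ H))))
  have h3 : ∀ m ∈ Finset.range T, Pr σ n T (fun y => ∃ H ⊆ Finset.range T, H.card ≤ bndB r σ K ∧
      max (K + 1) (r * H.card) ≤ rk y (cellsOf σ (nb T (bndB r σ K) ({m} ∪ H)))) ≤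
      C / (n : ℝ) ^ (C' + σ + 1) := by
    intro m _
    have h4 := union_rk (σ := σ) (n := n) T (bndB r σ K) (bndB r σ K) {m}
      (fun q => max (K + 1) (r * q))
    rw [Finset.card_singleton] at h4
    exact h4.trans (hC n T hn hT)
  have h5 : T ≤ n ^ (σ + 1) := by
    have h6 : T ^ 4 ≤ (n ^ (σ + 1)) ^ 4 := by
      calc T ^ 4 ≤ n ^ (2 * σ + 1) := hT
        _ ≤ n ^ ((σ + 1) * 4) := Nat.pow_le_pow_right hn (by omega)
        _ = (n ^ (σ + 1)) ^ 4 := by rw [pow_mul]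
    exact (Nat.pow_le_pow_iff_left (by norm_num)).1 h6
  have h5' : (T : ℝ) ≤ (n : ℝ) ^ (σ + 1) := by exact_mod_cast h5
  refine (h1.trans (h2.trans (Finset.sum_le_sum h3))).trans ?_
  rw [Finset.sum_const, Finset.card_range, nsmul_eq_mul, ← mul_div_assoc,
    div_le_div_iff₀ (by positivity) (by positivity)]
  calc (T : ℝ) * C * (n : ℝ) ^ C' = C * (n : ℝ) ^ C' * T := by ring
    _ ≤ C * (n : ℝ) ^ C' * (n : ℝ) ^ (σ + 1) := mul_le_mul_of_nonneg_left h5' (by positivity)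
    _ = C * (n : ℝ) ^ (C' + σ + 1) := by rw [add_assoc, pow_add]; ring

end CAB
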