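import Pool.Agent.Lib.MP_eab41b_pr.B.C6

/-! Row C7: few bad rows (Q2).

Sketch: `B` from `Pr_viol`, `K + 1 = 4 r C' + 1`, `k0 = Phi r K + 1`. `E binom(nBad, k0) = Σ_{R ⊆ range T, |R| = k0} P(all rows of R bad)`
`≤ binom(T, k0) (P(some |clo m| > B) + P(multi event for R)) ≤ binom(T, k0) (C1 + C2) / n^{C'}` (`multi`, `union_rk`, `num_K`). If `nBad ≥ η T` and
`T ≥ T0 := ⌈2 k0 / η⌉` then `binom(nBad, k0) ≥ (nBad - k0)^{k0} / k0! ≥ (η/2)^{k0} T^{k0} / k0! ≥ (η/2)^{k0} binom(T, k0)`. Markov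
(`Pr_markov`). -/

set_option autoImplicit false

set_option linter.unusedSectionVars false

open scoped Classical

namespace CAB

variable {r σ : ℕ} [NeZero σ]

private theorem C7_choose {η : ℝ} (hη : 0 < η) {k N T : ℕ} (hk : 1 ≤ k) (hT : 2 * (k : ℝ) ≤ η * T)
    (hN : η * T ≤ N) : (η / 2) ^ k * (T.choose k : ℝ) ≤ (N.choose k : ℝ) := by
  have hf : (0 : ℝ) < (k.factorial : ℝ) := by exact_mod_cast Nat.factorial_pos k
  have h1 : (k.factorial : ℝ) * (N.choose k : ℝ) = (N.descFactorial k : ℝ) := by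
    exact_mod_cast (Nat.descFactorial_eq_factorial_mul_choose N k).symm
  have h2 : (k.factorial : ℝ) * (T.choose k : ℝ) = (T.descFactorial k : ℝ) := by
    exact_mod_cast (Nat.descFactorial_eq_factorial_mul_choose T k).symm
  have h3 : (T.descFactorial k : ℝ) ≤ (T : ℝ) ^ k := by
    exact_mod_cast Nat.descFactorial_le_pow T k
  have hkN : (k : ℝ) ≤ N := by
    have : (0 : ℝ) ≤ k := by positivity
    linarith
  have hkN' : k ≤ N := by exact_mod_cast hkN
  have h4 : (((N + 1 - k : ℕ) : ℝ)) ^ k ≤ (N.descFactorial k : ℝ) := by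
    exact_mod_cast Nat.pow_sub_le_descFactorial N k
  have h5 : η / 2 * T ≤ ((N + 1 - k : ℕ) : ℝ) := by
    rw [Nat.cast_sub (by omega)]
    push_cast
    linarith
  have h6 : (η / 2 * T) ^ k ≤ (((N + 1 - k : ℕ) : ℝ)) ^ k :=
    pow_le_pow_left₀ (by positivity) h5 k
  have h7 : (k.factorial : ℝ) * ((η / 2) ^ k * (T.choose k : ℝ)) ≤
      (k.factorial : ℝ) * (N.choose k : ℝ) := by
    rw [h1]
    calc (k.factorial : ℝ) * ((η / 2) ^ k * (T.choose k : ℝ))
        = (η / 2) ^ k * ((k.factorial : ℝ) * (T.choose k : ℝ)) := by ring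
      _ ≤ (η / 2) ^ k * (T : ℝ) ^ k := by
          rw [h2]
          exact mul_le_mul_of_nonneg_left h3 (by positivity)
      _ = (η / 2 * T) ^ k := (mul_pow _ _ _).symm
      _ ≤ _ := h6.trans h4
  exact le_of_mul_le_mul_left h7 hf

theorem Pr_nBad (hr : 2 ≤ r) (hσ1 : r < σ) (hσ2 : σ < 2 * r) (C' : ℕ) {η : ℝ} (hη : 0 < η) :
    ∃ (T0 : ℕ) (C : ℝ), 0 ≤ C ∧ ∀ (n : ℕ) [NeZero n] (T : ℕ), T0 ≤ T → T ^ 4 ≤ n ^ (2 * σ + 1) →
      Pr σ n T (fun y => η * T ≤ (nBad r σ (Xp r σ y) T : ℝ)) ≤ C / (n : ℝ) ^ C' := by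
  obtain ⟨B, C1, hC1, h1⟩ := Pr_viol hr hσ1 hσ2 C'
  obtain ⟨K, hK⟩ : ∃ K, K = 4 * r * C' := ⟨_, rfl⟩
  obtain ⟨k0, hk0⟩ : ∃ k0, k0 = Phi r K + 1 := ⟨_, rfl⟩
  obtain ⟨C2, hC2, h2⟩ := num_K hr hσ2 K (k0 * B) k0 (k0 * B) C' (by omega)
  have hk1 : 1 ≤ k0 := by omega
  refine ⟨max ⌈2 * (k0 : ℝ) / η⌉₊ k0, (C1 + C2) / (η / 2) ^ k0, by positivity,
    fun n _ T hT hTn => ?_⟩
  have hn : 1 ≤ n := Nat.one_le_iff_ne_zero.2 (NeZero.ne n)
  have hTk : k0 ≤ T := (le_max_right _ _).trans hT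
  have hTη : 2 * (k0 : ℝ) ≤ η * T := by
    have h3 : 2 * (k0 : ℝ) / η ≤ T :=
      (Nat.le_ceil _).trans (by exact_mod_cast (le_max_left _ _).trans hT)
    rw [div_le_iff₀ hη] at h3
    linarith
  obtain ⟨E, hE⟩ : ∃ E : Finset ℕ → (ℕ → Fin n) → Prop,
      ∀ R y, E R y ↔ ∀ m ∈ R, BadRow r σ (Xp r σ y) m := ⟨fun R y => _, fun R y => Iff.rfl⟩
  -- the probability that all the rows of `R` are bad
  have hPR : ∀ R ∈ (Finset.range T).powersetCard k0,
      Pr σ n T (E R) ≤ (C1 + C2) / (n : ℝ) ^ C' := by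
    intro R hR
    obtain ⟨hRT, hRc⟩ := Finset.mem_powersetCard.1 hR
    have h3 : Pr σ n T (E R) ≤ Pr σ n T (fun y => (∃ m < T, B < (clo r σ (Xp r σ y) m).card) ∨
        ∃ H ⊆ Finset.range T, H.card ≤ k0 * B ∧
          (fun q => max (K + 1) (r * q)) H.card ≤ rk y (cellsOf σ (nb T (k0 * B) (R ∪ H)))) := by
      refine Pr_mono fun y hy => ?_
      by_cases hv : ∃ m < T, B < (clo r σ (Xp r σ y) m).card
      · exact Or.inl hv
      · push Not at hv
        right
        have h4 := multi hr hσ1 hσ2 K B (isProc_Xp r y) hv hRT ((hE R y).1 hy)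
          (by omega)
        rw [hRc] at h4
        exact h4
    refine h3.trans ((Pr_or _ _ _).trans ?_)
    rw [add_div]
    refine add_le_add (h1 n T hTn) ((union_rk T (k0 * B) (k0 * B) R (fun q => max (K + 1) (r * q))).trans ?_)
    rw [hRc]
    exact h2 n T hn hTn
  -- Markov
  have hG : (η / 2) ^ k0 * (T.choose k0 : ℝ) *
      Pr σ n T (fun y => η * T ≤ (nBad r σ (Xp r σ y) T : ℝ)) ≤
      Ex σ n T (fun y => ∑ R ∈ (Finset.range T).powersetCard k0, if E R y then (1 : ℝ) else 0) := by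
    refine Pr_markov (fun y => Finset.sum_nonneg fun R _ => ?_) (by positivity) fun y hy => ?_
    · split_ifs
      · exact zero_le_one
      · exact le_rfl
    · refine (C7_choose hη hk1 hTη hy).trans ?_
      have h4 : ((nBad r σ (Xp r σ y) T).choose k0 : ℝ) =
          ∑ R ∈ ((Finset.range T).filter (BadRow r σ (Xp r σ y))).powersetCard k0,
            if E R y then (1 : ℝ) else 0 := by
        have h5 : ∀ R ∈ ((Finset.range T).filter (BadRow r σ (Xp r σ y))).powersetCard k0,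
            (if E R y then (1 : ℝ) else 0) = 1 := by
          intro R hR
          obtain ⟨hR1, _⟩ := Finset.mem_powersetCard.1 hR
          rw [if_pos]
          rw [hE]
          intro m hm
          exact (Finset.mem_filter.1 (hR1 hm)).2
        rw [Finset.sum_congr rfl h5, Finset.sum_const, Finset.card_powersetCard, nsmul_eq_mul,
          mul_one]
        rfl
      rw [h4]
      refine Finset.sum_le_sum_of_subset_of_nonneg
        (Finset.powersetCard_mono (Finset.filter_subset _ _)) fun R _ _ => ?_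
      split_ifs
      · exact zero_le_one
      · exact le_rfl
  have hsum : Ex σ n T (fun y => ∑ R ∈ (Finset.range T).powersetCard k0,
      if E R y then (1 : ℝ) else 0) ≤ (T.choose k0 : ℝ) * ((C1 + C2) / (n : ℝ) ^ C') := by
    rw [Ex_sum]
    have h4 : ∑ R ∈ (Finset.range T).powersetCard k0,
        Ex σ n T (fun y => if E R y then (1 : ℝ) else 0) ≤
        ∑ _R ∈ (Finset.range T).powersetCard k0, (C1 + C2) / (n : ℝ) ^ C' :=
      Finset.sum_le_sum fun R hR => hPR R hR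
    refine h4.trans_eq ?_
    rw [Finset.sum_const, Finset.card_powersetCard, Finset.card_range, nsmul_eq_mul]
  have hch : (0 : ℝ) < (T.choose k0 : ℝ) := by exact_mod_cast Nat.choose_pos hTk
  have hη2 : (0 : ℝ) < (η / 2) ^ k0 := by positivity
  have h5 := hG.trans hsum
  have h6 : (T.choose k0 : ℝ) * ((η / 2) ^ k0 *
      Pr σ n T (fun y => η * T ≤ (nBad r σ (Xp r σ y) T : ℝ))) ≤
      (T.choose k0 : ℝ) * ((C1 + C2) / (n : ℝ) ^ C') := by
    refine le_trans (le_of_eq ?_) h5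
    ring
  have h7 := le_of_mul_le_mul_left h6 hch
  rw [div_div, mul_comm ((η / 2) ^ k0), ← div_div, le_div_iff₀ hη2, mul_comm]
  exact h7

end CAB
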