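import Pool.Agent.Lib.MP_eab41b_pr.B.A1

/-! Row D1: the number of long closings.

Sketch: if `u < u'` are long closings with `t, t'`: the rows `t', ..., u' - 1` are used and row `u` is not used (`x_u ~ x_t`, `t < u`), so
`u < t'`, and `(u' - t') σ ≥ (u' - t') ord j' > L` (`addOrderOf j ∣ σ`, `≤ σ`), so `u' - u > L / σ`. A set of naturals `< T` with gaps `> L / σ` has at most `σ T / L + 1` elements. -/

set_option autoImplicit false

set_option linter.unusedSectionVars false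

open scoped Classical

namespace CAB

variable {r σ : ℕ} [NeZero σ]

variable {α : Type}

theorem LC_not_used {L : ℝ} {x : ℕ → α} {u : ℕ} (h : LC σ L x u) : ¬ Used σ x u := by
  obtain ⟨t, j, htu, hx, -, -⟩ := h
  exact fun hu => hu.2 t htu ⟨j, hx⟩

theorem LC_gap {L : ℝ} {x : ℕ → α} {u u' : ℕ} (h : LC σ L x u) (h' : LC σ L x u') (hlt : u < u') :
    L < σ * ((u' : ℝ) - u) := by
  obtain ⟨t', j', htu', -, hused, hL⟩ := h'
  have h1 : u < t' := by
    by_contra hcon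
    exact LC_not_used h (hused u (not_lt.1 hcon) hlt)
  have h2 : (addOrderOf j' : ℝ) ≤ σ := by
    have h3 : addOrderOf j' ≤ Fintype.card (ZMod σ) := addOrderOf_le_card_univ
    rw [ZMod.card] at h3
    exact_mod_cast h3
  have h4 : ((u' - t' : ℕ) : ℝ) ≤ (u' : ℝ) - u := by
    rw [Nat.cast_sub htu'.le]
    have h5 : (u : ℝ) ≤ t' := by exact_mod_cast h1.le
    linarith
  have h6 : (0 : ℝ) ≤ ((u' - t' : ℕ) : ℝ) := Nat.cast_nonneg _
  have h7 : (0 : ℝ) ≤ (σ : ℝ) := Nat.cast_nonneg _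
  calc L < ((u' - t' : ℕ) : ℝ) * (addOrderOf j' : ℝ) := hL
    _ ≤ ((u' - t' : ℕ) : ℝ) * σ := mul_le_mul_of_nonneg_left h2 h6
    _ ≤ ((u' : ℝ) - u) * σ := mul_le_mul_of_nonneg_right h4 h7
    _ = σ * ((u' : ℝ) - u) := mul_comm _ _

private theorem D1_floor_lt {L : ℝ} (hL : 0 < L) {x : ℕ → α} {u u' : ℕ} (h : LC σ L x u)
    (h' : LC σ L x u') (hlt : u < u') :
    ⌊(σ : ℝ) * u / L⌋₊ < ⌊(σ : ℝ) * u' / L⌋₊ := by
  have h1 := LC_gap h h' hlt
  have h0 : (0 : ℝ) ≤ (σ : ℝ) * u / L := by positivity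
  have h2 : (σ : ℝ) * u / L + 1 ≤ (σ : ℝ) * u' / L := by
    rw [div_add_one hL.ne', div_le_div_iff_of_pos_right hL]
    linarith
  have h3 := Nat.floor_le_floor h2
  rw [Nat.floor_add_one h0] at h3
  omega

theorem found_le {L : ℝ} (hL : 0 < L) (T : ℕ) (x : ℕ → α) :
    (found σ L T x : ℝ) ≤ σ * T / L + 1 := by
  have h0 : (0 : ℝ) ≤ (σ : ℝ) * T / L := by positivity
  have hcard : found σ L T x ≤ (Finset.range (⌊(σ : ℝ) * T / L⌋₊ + 1)).card := by
    unfold found
    refine Finset.card_le_card_of_injOn (fun u : ℕ => ⌊(σ : ℝ) * u / L⌋₊) ?_ ?_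
    · intro u hu
      have hu1 : u < T := Finset.mem_range.1 (Finset.mem_filter.1 (Finset.mem_coe.1 hu)).1
      refine Finset.mem_coe.2 (Finset.mem_range.2 (Nat.lt_succ_of_le (Nat.floor_le_floor ?_)))
      have h1 : (u : ℝ) ≤ T := by exact_mod_cast hu1.le
      have h2 : (0 : ℝ) ≤ (σ : ℝ) := Nat.cast_nonneg _
      exact div_le_div_of_nonneg_right (mul_le_mul_of_nonneg_left h1 h2) hL.le
    · intro u hu u' hu' he
      have hu1 : LC σ L x u := (Finset.mem_filter.1 (Finset.mem_coe.1 hu)).2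
      have hu1' : LC σ L x u' := (Finset.mem_filter.1 (Finset.mem_coe.1 hu')).2
      rcases lt_trichotomy u u' with hlt | heq | hgt
      · exact absurd he (D1_floor_lt hL hu1 hu1' hlt).ne
      · exact heq
      · exact absurd he.symm (D1_floor_lt hL hu1' hu1 hgt).ne
  rw [Finset.card_range] at hcard
  have h1 : (found σ L T x : ℝ) ≤ ((⌊(σ : ℝ) * T / L⌋₊ + 1 : ℕ) : ℝ) := by exact_mod_cast hcard
  refine h1.trans ?_
  rw [Nat.cast_add, Nat.cast_one]
  have := Nat.floor_le h0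
  linarith

end CAB
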