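import Pool.Agent.Lib.MP_eab41b_pr.B.A2

/-! Row D2: on `Good` the process and `y` have the same long closings.

Sketch: `x = Xp r σ y`. A row that is not bad satisfies `x_m = y_m` (`proc_row_of_not_bad`, `isProc_Xp`). For `m < T`: `Used x m ↔ Used y m`: if `m` is bad both are true by `Good`; if `m` is not bad, `x_m = y_m`, and for `m' < m`
`x_m ~ x_{m'} ↔ y_m ~ y_{m'}` (if `m'` is bad both are false by `Good` at `m'` with `t = m`, `Eqv` symmetric; otherwise the rows agree). If `u < T` is a long closing of `x` (or of `y`) with `t` then neither `u` nor `t` is bad, so the rows agree. -/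

set_option autoImplicit false

set_option linter.unusedSectionVars false

open scoped Classical

namespace CAB

variable {r σ : ℕ} [NeZero σ]

private theorem D2_used {n : ℕ} [NeZero n] {T : ℕ} {y : ℕ → Fin n} (h : Good r σ T y) {m : ℕ}
    (hm : m < T) : Used σ (Xp r σ y) m ↔ Used σ y m := by
  have hx : IsProc r σ y (Xp r σ y) := isProc_Xp r y
  have hrow : ∀ m, ¬ BadRow r σ (Xp r σ y) m → xrow σ (Xp r σ y) m = xrow σ y m :=
    fun m hb => proc_row_of_not_bad hx hb
  by_cases hb : BadRow r σ (Xp r σ y) m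
  · obtain ⟨h1, h2, h3⟩ := h m hm hb
    exact ⟨fun _ => ⟨h2, fun m' hm' => (h3 m' (hm'.trans hm) hm'.ne).2⟩,
      fun _ => ⟨h1, fun m' hm' => (h3 m' (hm'.trans hm) hm'.ne).1⟩⟩
  · have e := hrow m hb
    have key : ∀ m' < m, (Eqv σ (xrow σ (Xp r σ y) m) (xrow σ (Xp r σ y) m') ↔
        Eqv σ (xrow σ y m) (xrow σ y m')) := by
      intro m' hm'
      by_cases hb' : BadRow r σ (Xp r σ y) m'
      · obtain ⟨_, _, h3⟩ := h m' (hm'.trans hm) hb'
        have h4 := h3 m hm hm'.ne'
        exact ⟨fun h5 => absurd h5.symm h4.1, fun h5 => absurd h5.symm h4.2⟩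
      · rw [e, hrow m' hb']
    unfold Used
    rw [e]
    rw [e] at key
    exact and_congr_right fun _ => forall_congr' fun m' => forall_congr' fun hm' =>
      not_congr (key m' hm')

theorem found_good {n : ℕ} [NeZero n] {T : ℕ} {y : ℕ → Fin n} (h : Good r σ T y) (L : ℝ) :
    found σ L T (Xp r σ y) = found σ L T y := by
  have hx : IsProc r σ y (Xp r σ y) := isProc_Xp r y
  have hrow : ∀ m, ¬ BadRow r σ (Xp r σ y) m → xrow σ (Xp r σ y) m = xrow σ y m :=
    fun m hb => proc_row_of_not_bad hx hb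
  unfold found
  congr 1
  refine Finset.filter_congr fun u hu => ?_
  rw [Finset.mem_range] at hu
  constructor
  · rintro ⟨t, j, htu, he, hus, hL⟩
    have hE : Eqv σ (xrow σ (Xp r σ y) u) (xrow σ (Xp r σ y) t) := ⟨j, he⟩
    have hbu : ¬ BadRow r σ (Xp r σ y) u := fun hb => ((h u hu hb).2.2 t (htu.trans hu) htu.ne).1 hE
    have hbt : ¬ BadRow r σ (Xp r σ y) t := fun hb =>
      ((h t (htu.trans hu) hb).2.2 u hu htu.ne').1 hE.symm
    refine ⟨t, j, htu, ?_, fun m h1 h2 => (D2_used h (h2.trans hu)).1 (hus m h1 h2), hL⟩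
    rw [← hrow u hbu, ← hrow t hbt]
    exact he
  · rintro ⟨t, j, htu, he, hus, hL⟩
    have hE : Eqv σ (xrow σ y u) (xrow σ y t) := ⟨j, he⟩
    have hbu : ¬ BadRow r σ (Xp r σ y) u := fun hb => ((h u hu hb).2.2 t (htu.trans hu) htu.ne).2 hE
    have hbt : ¬ BadRow r σ (Xp r σ y) t := fun hb =>
      ((h t (htu.trans hu) hb).2.2 u hu htu.ne').2 hE.symm
    refine ⟨t, j, htu, ?_, fun m h1 h2 => (D2_used h (h2.trans hu)).2 (hus m h1 h2), hL⟩
    rw [hrow u hbu, hrow t hbt]
    exact he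

end CAB
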