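import Pool.Agent.Lib.MP_eab41b_pr.Defs

/-!
# Random cellular automata with spatial period `σ < 2r`: definitions

Space-time sequences `x : ℕ → α` are in row-major order: the cell `c = m * σ + i` is the position
`i` of the row `m`; the position of `c` is `(c : ZMod σ)`, its row is `c / σ`.
-/

set_option autoImplicit false

open scoped Classical

namespace CAB

variable {α : Type}

/-- rotation of a row -/
def rot (σ : ℕ) (j : ZMod σ) (z : ZMod σ → α) : ZMod σ → α := fun i => z (i + j)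

/-- `z` is a rotation of `z'` -/
def Eqv (σ : ℕ) (z z' : ZMod σ → α) : Prop := ∃ j, z = rot σ j z'

/-- `z` has no smaller period -/
def Aper (σ : ℕ) (z : ZMod σ → α) : Prop := ∀ j, rot σ j z = z → j = 0

/-- the window of `z` that ends at `i` (backwards) -/
def win (r σ : ℕ) (z : ZMod σ → α) (i : ZMod σ) : Fin r → α := fun k => z (i - ((k : ℕ) : ZMod σ))

/-- the row `m` of `x` -/
def xrow (σ : ℕ) (x : ℕ → α) (m : ℕ) : ZMod σ → α := fun i => x (m * σ + i.val)

/-- row `m` is aperiodic and new -/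
def Used (σ : ℕ) (x : ℕ → α) (m : ℕ) : Prop :=
  Aper σ (xrow σ x m) ∧ ∀ m' < m, ¬ Eqv σ (xrow σ x m) (xrow σ x m')

/-- the cell `c` is computed from the row below -/
def HasKey (σ : ℕ) (x : ℕ → α) (c : ℕ) : Prop := σ ≤ c ∧ Used σ x (c / σ - 1)

/-- the `k`-th cell of the window of `c` -/
def par (σ k c : ℕ) : ℕ := (c / σ - 1) * σ + ((c : ZMod σ) - (k : ZMod σ)).val

/-- the window of `c` -/
def key (r σ : ℕ) (x : ℕ → α) (c : ℕ) : Fin r → α := fun k => x (par σ k c)

/-- the first cell with the same key -/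
noncomputable def rep (r σ : ℕ) (x : ℕ → α) (c : ℕ) : ℕ :=
  if HasKey σ x c then sInf {c' | HasKey σ x c' ∧ key r σ x c' = key r σ x c} else c

/-- `x` is the process driven by `y` -/
def IsProc (r σ : ℕ) (y x : ℕ → α) : Prop := ∀ c, x c = y (rep r σ x c)

/-- the process driven by `y` -/
noncomputable def Xp (r σ : ℕ) (y : ℕ → α) : ℕ → α :=
  if h : ∃ x, IsProc r σ y x then h.choose else y

/-- `x` is the exploration of the rule `g` with restarts `s` -/
def IsExp (r σ : ℕ) (g : (Fin r → α) → α) (s x : ℕ → α) : Prop :=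
  ∀ c, x c = if HasKey σ x c then g (key r σ x c) else s c

/-- the exploration of the rule `g` with restarts `s` -/
noncomputable def Xe (r σ : ℕ) (g : (Fin r → α) → α) (s : ℕ → α) : ℕ → α :=
  if h : ∃ x, IsExp r σ g s x then h.choose else s

/-! ### structure -/

/-- the cells of the row `m` -/
def rowCells (σ m : ℕ) : Finset ℕ := Finset.Ico (m * σ) ((m + 1) * σ)

/-- the cells of the rows in `D` -/
def cellsOf (σ : ℕ) (D : Finset ℕ) : Finset ℕ := D.biUnion fun m => rowCells σ m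

/-- the key of `c` occurred before -/
def Bad (r σ : ℕ) (x : ℕ → α) (c : ℕ) : Prop := rep r σ x c ≠ c

def BadRow (r σ : ℕ) (x : ℕ → α) (m : ℕ) : Prop := ∃ c ∈ rowCells σ m, Bad r σ x c

/-- closed sets of rows -/
def Closed (r σ : ℕ) (x : ℕ → α) (D : Finset ℕ) : Prop :=
  ∀ c ∈ cellsOf σ D, Bad r σ x c →
    c / σ - 1 ∈ D ∧ rep r σ x c / σ ∈ D ∧ rep r σ x c / σ - 1 ∈ D

/-- the representatives of the cells of `D` -/
noncomputable def VV (r σ : ℕ) (x : ℕ → α) (D : Finset ℕ) : Finset ℕ :=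
  (cellsOf σ D).image (rep r σ x)

/-- the level of a representative: the last row of `D` where it occurs -/
noncomputable def Lev (r σ : ℕ) (x : ℕ → α) (D : Finset ℕ) (v : ℕ) : ℕ :=
  ((cellsOf σ D).filter fun c => rep r σ x c = v).sup fun c => c / σ

/-- the number of repeated values of `y` on `C` -/
noncomputable def rk (y : ℕ → α) (C : Finset ℕ) : ℕ := C.card - (C.image y).card

/-- the representatives of the cells of the row `j` -/
noncomputable def FF (r σ : ℕ) (x : ℕ → α) (j : ℕ) : Finset ℕ := (rowCells σ j).image (rep r σ x)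

noncomputable def fN (r σ : ℕ) (x : ℕ → α) (j : ℕ) : ℕ := (FF r σ x j).card

noncomputable def gN (r σ : ℕ) (x : ℕ → α) (D : Finset ℕ) (j : ℕ) : ℕ :=
  ((VV r σ x D).filter fun v => Lev r σ x D v = j).card

noncomputable def nN (r σ : ℕ) (x : ℕ → α) (D : Finset ℕ) (j : ℕ) : ℕ :=
  ((FF r σ x j).filter fun v => j < Lev r σ x D v).card

/-- the number of new values of level `j` -/
noncomputable def nuN (r σ : ℕ) (y x : ℕ → α) (D : Finset ℕ) (j : ℕ) : ℕ :=
  ((((VV r σ x D).filter fun v => Lev r σ x D v = j).image y) \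
    (((VV r σ x D).filter fun v => j < Lev r σ x D v).image y)).card

/-- last rows of the intervals of `D` -/
def tops (D : Finset ℕ) : Finset ℕ := D.filter fun j => j + 1 ∉ D

/-- the local inequalities between the level counts -/
structure Loc (r σ : ℕ) (D : Finset ℕ) (g ν n f : ℕ → ℕ) : Prop where
  fle : ∀ j ∈ D, f j ≤ σ
  sum : ∀ j ∈ D, g j + n j = f j
  nu : ∀ j ∈ D, ν j ≤ g j
  bot : ∀ j ∈ D, (j = 0 ∨ j - 1 ∉ D) → g j = σ
  three : ∀ j ∈ D, j + 1 ∈ D → 0 < n (j + 1) → ν j = 0 ∨ ν j + (r - 1) ≤ g (j + 1)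
  four : ∀ j ∈ D, j + 1 ∈ D → f (j + 1) < σ →
    ν j + (r - 1) + (if 0 < n j then 1 else 0) ≤ f (j + 1)

/-- closures of single rows -/
structure IsClo (r σ : ℕ) (x : ℕ → α) (clo : ℕ → Finset ℕ) : Prop where
  self : ∀ m, m ∈ clo m
  le : ∀ m, ∀ j ∈ clo m, j ≤ m
  closed : ∀ m, Closed r σ x (clo m)
  gen : ∀ m, ∀ j ∈ clo m, j ≠ m → ∃ c ∈ cellsOf σ (clo m), Bad r σ x c ∧
    (j = c / σ - 1 ∨ (j = rep r σ x c / σ ∧ j < c / σ) ∨ j = rep r σ x c / σ - 1)
  size : ∀ m B, (∀ m' < m, (clo m').card ≤ B) → (clo m).card ≤ 1 + (2 * σ + 1) * B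

/-- the closure of the row `m` -/
noncomputable def clo (r σ : ℕ) (x : ℕ → α) : ℕ → Finset ℕ :=
  if h : ∃ f, IsClo r σ x f then h.choose else fun m => {m}

/-- the closure of a set of rows -/
noncomputable def cloS (r σ : ℕ) (x : ℕ → α) (R : Finset ℕ) : Finset ℕ := R.biUnion (clo r σ x)

/-- the bound for the number of bad rows -/
def Phi (r ρ : ℕ) : ℕ := 2 * ρ * (1 + ρ) ^ r

/-- the bound for closures -/
def bndA (r σ K : ℕ) : ℕ := 1 + (1 + 2 * σ) * (Phi r K + 1)

def bndB (r σ K : ℕ) : ℕ := 1 + (2 * σ + 1) * bndA r σ K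

/-- the rows `< T` at distance at most `N` from `A` -/
noncomputable def nb (T N : ℕ) (A : Finset ℕ) : Finset ℕ :=
  (Finset.range T).filter fun m => ∃ a ∈ A, m ≤ a + N ∧ a ≤ m + N

/-- number of bad rows below `T` -/
noncomputable def nBad (r σ : ℕ) (x : ℕ → α) (T : ℕ) : ℕ :=
  ((Finset.range T).filter (BadRow r σ x)).card

/-! ### coincidences -/

/-- a long closing at `u` -/
def LC (σ : ℕ) (L : ℝ) (x : ℕ → α) (u : ℕ) : Prop :=
  ∃ (t : ℕ) (j : ZMod σ), t < u ∧ xrow σ x u = rot σ j (xrow σ x t) ∧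
    (∀ m, t ≤ m → m < u → Used σ x m) ∧ L < ((u - t : ℕ) : ℝ) * (addOrderOf j : ℝ)

/-- number of long closings below `T` -/
noncomputable def found (σ : ℕ) (L : ℝ) (T : ℕ) (x : ℕ → α) : ℕ :=
  ((Finset.range T).filter (LC σ L x)).card

/-- no bad row takes part in a coincidence -/
def Good (r σ T : ℕ) (y : ℕ → α) : Prop :=
  ∀ u < T, BadRow r σ (Xp r σ y) u →
    Aper σ (xrow σ (Xp r σ y) u) ∧ Aper σ (xrow σ y u) ∧ ∀ t < T, t ≠ u →
      ¬ Eqv σ (xrow σ (Xp r σ y) u) (xrow σ (Xp r σ y) t) ∧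
      ¬ Eqv σ (xrow σ y u) (xrow σ y t)

/-! ### rules -/

/-- the map of the rule `g` -/
def Fm (r σ : ℕ) (g : (Fin r → α) → α) (z : ZMod σ → α) : ZMod σ → α := fun i => g (win r σ z i)

/-- `z` lies on a cycle of length `l` up to the rotation by `j` -/
def Cyc (r σ : ℕ) (g : (Fin r → α) → α) (z : ZMod σ → α) (l : ℕ) (j : ZMod σ) : Prop :=
  0 < l ∧ Aper σ z ∧ (Fm r σ g)^[l] z = rot σ j z ∧
    ∀ i, 0 < i → i < l → ¬ Eqv σ ((Fm r σ g)^[i] z) z

def LongCyc (r σ : ℕ) (g : (Fin r → α) → α) (L : ℝ) : Prop :=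
  ∃ z l j, Cyc r σ g z l j ∧ L < (l : ℝ) * (addOrderOf j : ℝ)

/-- the windows of the `m`-th row after `z` are different and occur in no other row `< l` -/
def PrivAt (r σ : ℕ) (g : (Fin r → α) → α) (z : ZMod σ → α) (l m : ℕ) : Prop :=
  (∀ i i', win r σ ((Fm r σ g)^[m] z) i = win r σ ((Fm r σ g)^[m] z) i' → i = i') ∧
    ∀ m' < l, m' ≠ m → ∀ i i', win r σ ((Fm r σ g)^[m'] z) i' ≠ win r σ ((Fm r σ g)^[m] z) i

/-- there is an exceptional long cycle -/
def Rest (r σ : ℕ) (g : (Fin r → α) → α) (L η : ℝ) (Tm : ℕ) : Prop :=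
  ∃ z l j, Cyc r σ g z l j ∧ L < (l : ℝ) * (addOrderOf j : ℝ) ∧
    (Tm < l ∨ η * l ≤ (((Finset.range l).filter fun m => ¬ PrivAt r σ g z l m).card : ℝ))

/-! ### probability -/

abbrev Row (σ n : ℕ) : Type := ZMod σ → Fin n

abbrev Rule (r n : ℕ) : Type := (Fin r → Fin n) → Fin n

variable (r σ n : ℕ) [NeZero n] [NeZero σ]

/-- the space-time sequence of `T` rows -/
def seqR (T : ℕ) (y : Fin T → Row σ n) : ℕ → Fin n :=
  fun c => if h : c / σ < T then y ⟨c / σ, h⟩ (c : ZMod σ) else 0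

/-- the average over `T` independent uniform rows -/
noncomputable def Ex (T : ℕ) (G : (ℕ → Fin n) → ℝ) : ℝ :=
  (∑ y : Fin T → Row σ n, G (seqR σ n T y)) / ((n : ℝ) ^ σ) ^ T

/-- probability for `T` independent uniform rows -/
noncomputable def Pr (T : ℕ) (E : (ℕ → Fin n) → Prop) : ℝ := Ex σ n T fun y => if E y then 1 else 0

/-- replace the row `m` of `y` by `z` -/
def updR (m : ℕ) (y : ℕ → Fin n) (z : Row σ n) : ℕ → Fin n :=
  fun c => if c / σ = m then z (c : ZMod σ) else y c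

/-- `G` depends only on the first `M` cells -/
def LocalTo {β : Type} (M : ℕ) (G : (ℕ → Fin n) → β) : Prop :=
  ∀ y y' : ℕ → Fin n, (∀ c < M, y c = y' c) → G y = G y'

/-- the number of rows that are not aperiodic -/
noncomputable def PN : ℕ := (Finset.univ.filter fun z : Row σ n => ¬ Aper σ z).card

/-- the probability that a row is not new, after `i` new rows -/
noncomputable def aa (i : ℕ) : ℝ := ((σ : ℝ) * i + PN σ n) / (n : ℝ) ^ σ

/-- probability that `k` rows are new -/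
noncomputable def ppi (k : ℕ) : ℝ := ∏ i ∈ Finset.range k, (1 - aa σ n i)

/-- average over the rules -/
noncomputable def ExG (H : Rule r n → ℝ) : ℝ := (∑ g : Rule r n, H g) / (Fintype.card (Rule r n) : ℝ)

/-- average over the rules and `T` restart rows -/
noncomputable def ExGS (T : ℕ) (H : Rule r n → (ℕ → Fin n) → ℝ) : ℝ := ExG r n fun g => Ex σ n T (H g)

/-- the weight of the row `z` -/
noncomputable def wt1 (g : Rule r n) (L η : ℝ) (Tm : ℕ) (z : Row σ n) : ℝ :=
  ∑ l ∈ Finset.Icc 1 Tm, ∑ j : ZMod σ,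
    if Cyc r σ g z l j ∧ PrivAt r σ g z l (l - 1) ∧ L < (l : ℝ) * (addOrderOf j : ℝ)
    then 1 / ((σ : ℝ) * (1 - η) * l) else 0

/-- weighted number of long cycles -/
noncomputable def Wt (g : Rule r n) (L η : ℝ) (Tm : ℕ) : ℝ :=
  ∑ z : Row σ n, wt1 r σ n g L η Tm z

/-- the rows of the cycle of `z` and their rotations -/
noncomputable def cls (g : Rule r n) (z : Row σ n) (l : ℕ) : Finset (Row σ n) :=
  ((Finset.range l) ×ˢ (Finset.univ : Finset (ZMod σ))).image
    fun p => rot σ p.2 ((Fm r σ g)^[p.1] z)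

/-- the number of pairs (length, rotation) of long closings with length at most `b` -/
noncomputable def lam (L : ℝ) (b : ℕ) : ℕ :=
  ∑ j : ZMod σ, ((Finset.Icc 1 b).filter fun l => L < (l : ℝ) * (addOrderOf j : ℝ)).card

/-- the probability of no long closing in the rows `T - k, ..., T - 1` for independent hazards, if
the current trajectory began at the row `s` -/
noncomputable def vv (L : ℝ) (T : ℕ) : ℕ → ℕ → ℝ
  | 0, _ => 1
  | k + 1, s => (1 - aa σ n (T - (k + 1))) * vv L T k s +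
      (aa σ n (T - (k + 1)) - (lam σ L (T - (k + 1) - s) : ℝ) / (n : ℝ) ^ σ) *
        vv L T k (T - (k + 1) + 1)

/-- `n ^ (σ / 2)` -/
noncomputable def NN : ℝ := (n : ℝ) ^ ((σ : ℝ) / 2)

end CAB
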