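
import Pool.Agent.Lib.MP_eab41b_pr.B.A0

/-! Row E1: periodic solutions and cycles.

Sketch. `g w = f (w ∘ rev)`, so `Fm r σ g z i = f (fun k => z (i - r + 1 + k))`: the step of the automaton on `σ`-periodic configurations.
`isPS_of_cyc`: `ξ t x = ((Fm g)^[t mod τ] z) x`, `τ = l * ord j` (the iterates of `z` have period `τ`; more simply `ξ t x = ((Fm g)^[(t % τ).toNat] z) (x : ZMod σ)`). `F^[l] z = rot j z`
gives `F^[k l] z = rot (k j) z`; `F^[i] z ~ z` iff `l ∣ i`; so the least period in time is `l * ord j`. All iterates are aperiodic (`aper_of_Fm_iter`), so the least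
period in space is `σ`.
`cyc_of_isPS`: `z i = ξ 0 i.val`; `ξ t x` depends on `x` mod `σ`. The map `F` gives `ξ (t+1)` from `ξ t`; a spatial period of `ξ 0` is one of all `ξ t`, `t ≥ 0`, hence (time
periodic) of all `t`; so `z` is aperiodic (`IsLeast`; a period `j ≠ 0` of `z` gives the period `gcd`/`j.val < σ`, `j.val ≥ 1`). `l` = least positive `i` with `F^[i] z ~ z` (`Nat.find`),
`F^[l] z = rot j z`, and `τ = l * ord j` because both are the least positive period in time. -/

set_option autoImplicit false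

set_option linter.unusedSectionVars false

open scoped Classical

namespace CAB

variable {r σ n : ℕ} [NeZero n] [NeZero σ]

private theorem E1_iter {g : (Fin r → Fin n) → Fin n} {z : Row σ n} {l : ℕ} {j : ZMod σ}
    (h : (Fm r σ g)^[l] z = rot σ j z) (q : ℕ) : (Fm r σ g)^[q * l] z = rot σ (q • j) z := by
  induction q with
  | zero => rw [zero_mul, zero_smul, rot_zero]; rfl
  | succ q ih =>
    rw [add_mul, one_mul, add_comm, Function.iterate_add_apply, ih, Fm_iter_rot, h, rot_rot, add_smul, one_smul]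

private theorem E1_step (f : (Fin r → Fin n) → Fin n) (y : Row σ n) (x : ℤ) :
    Fm r σ (fun w => f (fun k => w k.rev)) y (x : ZMod σ) =
      f fun i => y ((x - (r : ℤ) + 1 + (i : ℤ) : ℤ) : ZMod σ) := by
  change f (fun k : Fin r => y ((x : ZMod σ) - ((k.rev : ℕ) : ZMod σ))) = _
  refine congrArg f (funext fun k => congrArg y ?_)
  rw [Fin.val_rev]
  have h1 : ((r - (k.val + 1) : ℕ) : ZMod σ) = (r : ZMod σ) - (k.val + 1) := by
    rw [Nat.cast_sub (by have := k.2; omega)]
    push_cast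
    ring
  rw [h1]
  push_cast
  ring

theorem isPS_of_cyc (f : (Fin r → Fin n) → Fin n) {z : Row σ n} {l : ℕ} {j : ZMod σ}
    (h : Cyc r σ (fun w => f (fun k => w k.rev)) z l j) :
    ∃ ξ, RandomCA.IsPS f ξ σ (l * addOrderOf j) := by
  obtain ⟨hl, hap, hlj, hmin⟩ := h
  have hord : 0 < addOrderOf j := addOrderOf_pos j
  set F := Fm r σ (fun w => f (fun k => w k.rev)) with hF
  have hτ : 0 < l * addOrderOf j := Nat.mul_pos hl hord
  obtain ⟨τ, hτe⟩ : ∃ τ, τ = l * addOrderOf j := ⟨_, rfl⟩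
  rw [← hτe] at hτ ⊢
  have hper : Function.IsPeriodicPt F τ z := by
    change F^[τ] z = z
    rw [hτe, mul_comm, E1_iter hlj, addOrderOf_nsmul_eq_zero, rot_zero]
  have hcast : ∀ u v : Row σ n, (∀ x : ℤ, u (x : ZMod σ) = v (x : ZMod σ)) → u = v := by
    intro u v huv
    funext i
    have := huv (i.val : ℤ)
    rwa [Int.cast_natCast, ZMod.natCast_zmod_val] at this
  have hτ' : (0 : ℤ) < (τ : ℤ) := by exact_mod_cast hτ
  refine ⟨fun t x => F^[(t % (τ : ℤ)).toNat] z (x : ZMod σ), ?_, ⟨⟨?_, ?_⟩, ?_⟩, ⟨⟨hτ, ?_⟩, ?_⟩⟩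
  · intro t
    funext x
    change F^[((t + 1) % (τ : ℤ)).toNat] z (x : ZMod σ) =
      f fun i => F^[(t % (τ : ℤ)).toNat] z ((x - (r : ℤ) + 1 + (i : ℤ) : ℤ) : ZMod σ)
    rw [← E1_step f, ← hF, ← Function.iterate_succ_apply' F, ← hper.iterate_mod_apply ((t % (τ : ℤ)).toNat + 1)]
    have h0 : 0 ≤ t % (τ : ℤ) := Int.emod_nonneg _ hτ'.ne'
    have h1 : 0 ≤ (t + 1) % (τ : ℤ) := Int.emod_nonneg _ hτ'.ne'
    have h2 : (((t + 1) % (τ : ℤ)).toNat : ℤ) = ((((t % (τ : ℤ)).toNat + 1) % τ : ℕ) : ℤ) := by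
      push_cast
      rw [Int.toNat_of_nonneg h0, Int.toNat_of_nonneg h1, Int.emod_add_emod]
    have h3 : ((t + 1) % (τ : ℤ)).toNat = ((t % (τ : ℤ)).toNat + 1) % τ := by exact_mod_cast h2
    rw [h3]
  · exact Nat.one_le_iff_ne_zero.2 (NeZero.ne σ)
  · intro t x
    simp
  · rintro s ⟨hs, hs'⟩
    have h1 : rot σ (s : ZMod σ) z = z := by
      apply hcast
      intro x
      have := hs' 0 x
      simpa [rot] using this
    have h2 : (s : ZMod σ) = 0 := hap _ h1
    exact Nat.le_of_dvd hs ((ZMod.natCast_eq_zero_iff s σ).1 h2)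
  · intro t x
    simp
  · rintro s ⟨hs, hs'⟩
    have h1 : F^[s] z = z := by
      apply hcast
      intro x
      have := hs' 0 x
      simp only [zero_add, Int.zero_emod, Int.toNat_zero, Function.iterate_zero, id_eq] at this
      have h2 : ((s : ℤ) % (τ : ℤ)).toNat = s % τ := by
        rw [← Int.natCast_mod, Int.toNat_natCast]
      rw [h2, hper.iterate_mod_apply] at this
      exact this
    have h3 : F^[s] z = rot σ ((s / l) • j) (F^[s % l] z) := by
      conv_lhs => rw [← Nat.mod_add_div' s l]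
      rw [Function.iterate_add_apply, E1_iter hlj, Fm_iter_rot]
    have h4 : s % l = 0 := by
      by_contra h5
      apply hmin (s % l) (Nat.pos_of_ne_zero h5) (Nat.mod_lt _ hl)
      refine Eqv.symm ⟨(s / l) • j, ?_⟩
      rw [← h3, h1]
    rw [h4] at h3
    change F^[s] z = rot σ ((s / l) • j) z at h3
    rw [h1] at h3
    have h6 : (s / l) • j = 0 := hap _ h3.symm
    have h7 : addOrderOf j ∣ s / l := addOrderOf_dvd_of_nsmul_eq_zero h6
    have h8 : τ ∣ s := by
      rw [hτe, ← Nat.div_mul_cancel (Nat.dvd_of_mod_eq_zero h4), mul_comm l]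
      exact Nat.mul_dvd_mul_right h7 l
    exact Nat.le_of_dvd hs h8

end CAB
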