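import Pool.Agent.Lib.MP_eab41b_pr.B.A0

/-! Row E1b: a periodic solution gives a cycle. See the sketch in E1.

`g w = f (w ∘ rev)`, `z i = ξ 0 i.val`; `ξ t x` depends only on `x` mod `σ`; `(Fm r σ g)^[t] z = (ξ t)` on `ZMod σ` for `t : ℕ`. `z` is aperiodic: if `rot j z = z`, `j ≠ 0`, then `s = j.val ∈ [1, σ)` is a spatial period of `ξ 0`, hence
of `ξ t` for all `t ≥ 0`, hence of all `t` (period `τ` in time): contradiction with `IsLeast`. `l` = least positive `i` with `F^[i] z ~ z` (exists since `F^[τ] z = z`), `F^[l] z = rot j z`; `F^[k l] z = rot (k j) z`, and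
`F^[i] z ~ z` iff `l ∣ i`; so `F^[i] z = z` iff `i` is a multiple of `l * ord j`, and `τ` is the least positive such `i`. -/

set_option autoImplicit false

set_option linter.unusedSectionVars false

open scoped Classical

namespace CAB

variable {r σ n : ℕ} [NeZero n] [NeZero σ]

/-- a configuration of period `σ` is given by its values on `ZMod σ` -/
private theorem E1b_cast {ζ : ℤ → Fin n} (h : ∀ x, ζ (x + σ) = ζ x) (x : ℤ) :
    ζ x = ζ ((x : ZMod σ).val : ℤ) := by
  have hp : Function.Periodic ζ (σ : ℤ) := h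
  have h1 : (((x : ZMod σ).val : ℕ) : ℤ) = x % (σ : ℤ) := ZMod.val_intCast x
  rw [h1]
  have h2 : x = x % (σ : ℤ) + (x / (σ : ℤ)) * (σ : ℤ) := (Int.emod_add_ediv_mul x σ).symm
  conv_lhs => rw [h2]
  exact (hp.int_mul (x / (σ : ℤ))) (x % (σ : ℤ))

/-- one step -/
private theorem E1b_step (f : (Fin r → Fin n) → Fin n) {ζ : ℤ → Fin n}
    (h : ∀ x, ζ (x + σ) = ζ x) (i : ZMod σ) :
    RandomCA.step f ζ (i.val : ℤ) =
      Fm r σ (fun w => f (fun k => w k.rev)) (fun i => ζ (i.val : ℤ)) i := by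
  unfold RandomCA.step Fm win
  congr 1
  funext k
  rw [E1b_cast h ((i.val : ℤ) - (r : ℤ) + 1 + (k : ℤ))]
  congr 3
  have hk : ((k.rev : Fin r) : ℕ) = r - ((k : ℕ) + 1) := Fin.val_rev k
  have hle : (k : ℕ) + 1 ≤ r := k.2
  rw [hk, Nat.cast_sub hle]
  push_cast
  rw [ZMod.natCast_zmod_val]
  ring

/-- the iterates of the first closing -/
private theorem E1b_iter {g : (Fin r → Fin n) → Fin n} {z : Row σ n} {l : ℕ} {j : ZMod σ}
    (h : (Fm r σ g)^[l] z = rot σ j z) (q : ℕ) : (Fm r σ g)^[l * q] z = rot σ (q • j) z := by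
  induction q with
  | zero => simp [rot_zero]
  | succ q ih =>
    rw [Nat.mul_succ, Function.iterate_add_apply, h, Fm_iter_rot, ih, rot_rot, succ_nsmul, add_comm]

theorem cyc_of_isPS (f : (Fin r → Fin n) → Fin n) {ξ : ℤ → ℤ → Fin n} {τ : ℕ}
    (h : RandomCA.IsPS f ξ σ τ) :
    ∃ (z : Row σ n) (l : ℕ) (j : ZMod σ), Cyc r σ (fun w => f (fun k => w k.rev)) z l j ∧
      τ = l * addOrderOf j := by
  set g : (Fin r → Fin n) → Fin n := fun w => f (fun k => w k.rev) with hg
  set row : ℤ → Row σ n := fun t i => ξ t (i.val : ℤ) with hrow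
  have hσ : ∀ t x, ξ t (x + σ) = ξ t x := h.spatial.1.2
  have hτ1 : 1 ≤ τ := h.temporal.1.1
  have hper : Function.Periodic ξ (τ : ℤ) := fun t => funext fun x => h.temporal.1.2 t x
  have hval : ∀ t x, ξ t x = row t (x : ZMod σ) := fun t x => E1b_cast (hσ t) x
  have hstep : ∀ t, row (t + 1) = Fm r σ g (row t) := by
    intro t
    funext i
    have h1 := E1b_step f (hσ t) i
    rw [← h.rule t] at h1
    exact h1
  have hiter : ∀ (k : ℕ) (t : ℤ), row (t + k) = (Fm r σ g)^[k] (row t) := by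
    intro k
    induction k with
    | zero => intro t; simp
    | succ k ih =>
      intro t
      rw [Function.iterate_succ_apply', ← ih t, ← hstep]
      push_cast
      rw [add_assoc]
  -- every time may be taken to be a natural number
  have hnat : ∀ t : ℤ, ∃ k : ℕ, ξ t = ξ k := by
    intro t
    have hpos : (0 : ℤ) < τ := by exact_mod_cast hτ1
    obtain ⟨k, hk⟩ := Int.eq_ofNat_of_zero_le (Int.emod_nonneg t hpos.ne')
    refine ⟨k, ?_⟩
    rw [← hk]
    have h2 : t = t % (τ : ℤ) + (t / (τ : ℤ)) * (τ : ℤ) := (Int.emod_add_ediv_mul t τ).symm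
    conv_lhs => rw [h2]
    exact (hper.int_mul (t / (τ : ℤ))) (t % (τ : ℤ))
  have hrow0 : ∀ k : ℕ, row (k : ℤ) = (Fm r σ g)^[k] (row 0) := by
    intro k
    have := hiter k 0
    rwa [zero_add] at this
  have hnat' : ∀ t : ℤ, ∃ k : ℕ, (∀ x, ξ t x = (Fm r σ g)^[k] (row 0) (x : ZMod σ)) ∧
      ∀ i : ℕ, ∀ x, ξ (t + i) x = (Fm r σ g)^[i] ((Fm r σ g)^[k] (row 0)) (x : ZMod σ) := by
    intro t
    obtain ⟨k, hk⟩ := hnat t
    have hrt : row t = (Fm r σ g)^[k] (row 0) := by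
      rw [← hrow0 k]
      funext i
      simp only [hrow]
      rw [hk]
    refine ⟨k, fun x => ?_, fun i x => ?_⟩
    · rw [hval, hrt]
    · rw [hval, hiter, hrt]
  have haper : Aper σ (row 0) := by
    intro j hj
    by_contra hne
    have hpos : 1 ≤ j.val := by
      rcases Nat.eq_zero_or_pos j.val with h0 | h0
      · exact absurd ((ZMod.val_eq_zero j).1 h0) hne
      · exact h0
    have hmem : j.val ∈ {s : ℕ | 1 ≤ s ∧ ∀ t x, ξ t (x + s) = ξ t x} := by
      refine ⟨hpos, fun t x => ?_⟩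
      obtain ⟨k, hk, _⟩ := hnat' t
      rw [hk, hk]
      have h1 : rot σ j ((Fm r σ g)^[k] (row 0)) = (Fm r σ g)^[k] (row 0) := by
        rw [← Fm_iter_rot, hj]
      conv_rhs => rw [← h1]
      rw [rot_apply]
      push_cast
      rw [ZMod.natCast_zmod_val]
    have hle := h.spatial.2 hmem
    exact absurd (ZMod.val_lt j) (not_lt.2 hle)
  have hclose : (Fm r σ g)^[τ] (row 0) = row 0 := by
    rw [← hrow0 τ]
    have h1 : ξ (τ : ℤ) = ξ 0 := by
      have := hper 0
      rwa [zero_add] at this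
    funext i
    simp only [hrow]
    rw [h1]
  have hmin : ∀ i : ℕ, 0 < i → (Fm r σ g)^[i] (row 0) = row 0 → τ ≤ i := by
    intro i hi hfix
    refine h.temporal.2 ⟨hi, fun t x => ?_⟩
    obtain ⟨k, hk, hk'⟩ := hnat' t
    rw [hk, hk', ← Function.iterate_add_apply, add_comm, Function.iterate_add_apply, hfix]
  have hex : ∃ i, 0 < i ∧ Eqv σ ((Fm r σ g)^[i] (row 0)) (row 0) :=
    ⟨τ, hτ1, by rw [hclose]; exact Eqv.refl σ _⟩
  obtain ⟨hl0, j, hj⟩ := Nat.find_spec hex
  have hlmin : ∀ i, 0 < i → i < Nat.find hex → ¬ Eqv σ ((Fm r σ g)^[i] (row 0)) (row 0) :=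
    fun i hi hlt hE => Nat.find_min hex hlt ⟨hi, hE⟩
  refine ⟨row 0, Nat.find hex, j, ⟨hl0, haper, hj, hlmin⟩, ?_⟩
  generalize Nat.find hex = l at hl0 hj hlmin
  have ho : 0 < addOrderOf j := addOrderOf_pos j
  apply le_antisymm
  · refine hmin _ (Nat.mul_pos hl0 ho) ?_
    rw [E1b_iter hj, addOrderOf_nsmul_eq_zero, rot_zero]
  · have hdiv := Nat.div_add_mod τ l
    have h1 : rot σ ((τ / l) • j) ((Fm r σ g)^[τ % l] (row 0)) = row 0 := by
      rw [← Fm_iter_rot, ← E1b_iter hj, ← Function.iterate_add_apply, add_comm, hdiv, hclose]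
    have hmod : τ % l = 0 := by
      by_contra hne
      refine hlmin (τ % l) (Nat.pos_of_ne_zero hne) (Nat.mod_lt _ hl0) ?_
      exact ⟨_, rot_eq_iff.1 h1⟩
    rw [hmod, Function.iterate_zero, id_eq] at h1
    have h2 : (τ / l) • j = 0 := haper _ h1
    have h3 : addOrderOf j ∣ τ / l := addOrderOf_dvd_iff_nsmul_eq_zero.2 h2
    rw [hmod, add_zero] at hdiv
    have h4 : l * addOrderOf j ∣ τ := by
      rw [← hdiv]
      exact Nat.mul_dvd_mul_left l h3
    exact Nat.le_of_dvd hτ1 h4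

end CAB
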