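import Pool.Agent.Lib.MP_eab41b_pr.B.E1
import Pool.Agent.Lib.MP_eab41b_pr.B.E1b

/-! Row E1c: the longest period.

Sketch: the set of temporal periods is finite (for each of the finitely many `z` at most one `l` and `j` with `Cyc`), so
`sSup` is attained if it is nonempty (`Nat.sSup_mem`), and `sSup ∅ = 0`. `avg_rev`: `f ↦ (w ↦ f (w ∘ rev))` is a bijection of the rules. -/

set_option autoImplicit false

set_option linter.unusedSectionVars false

open scoped Classical

namespace CAB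

variable {r σ n : ℕ} [NeZero n] [NeZero σ]

private theorem E1c_cyc_le {g : (Fin r → Fin n) → Fin n} {z : Row σ n} {l : ℕ} {j : ZMod σ}
    (h : Cyc r σ g z l j) : l * addOrderOf j ≤ σ * n ^ σ := by
  obtain ⟨hl, hA, hj, hi⟩ := h
  have h1 : addOrderOf j ≤ σ := by
    have := addOrderOf_le_card_univ (x := j)
    rwa [ZMod.card] at this
  have hne : ∀ a b : ℕ, a < b → b < l → (Fm r σ g)^[a] z ≠ (Fm r σ g)^[b] z := by
    intro a b hab hb heq
    have h3 : (Fm r σ g)^[l - b + a] z = rot σ j z := by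
      rw [Function.iterate_add_apply, heq, ← Function.iterate_add_apply,
        Nat.sub_add_cancel hb.le, hj]
    exact hi (l - b + a) (by omega) (by omega) ⟨j, h3⟩
  have h2 : l ≤ n ^ σ := by
    have hinj : Function.Injective (fun i : Fin l => (Fm r σ g)^[i.val] z) := by
      intro a b hab
      rcases lt_trichotomy a.val b.val with h | h | h
      · exact absurd hab (hne _ _ h b.2)
      · exact Fin.ext h
      · exact absurd hab.symm (hne _ _ h a.2)
    have := Fintype.card_le_of_injective _ hinj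
    rwa [Fintype.card_fin, Fintype.card_fun, ZMod.card, Fintype.card_fin] at this
  calc l * addOrderOf j ≤ n ^ σ * σ := Nat.mul_le_mul h2 h1
    _ = σ * n ^ σ := Nat.mul_comm _ _

private theorem E1c_bdd (f : (Fin r → Fin n) → Fin n) :
    ∀ τ ∈ {τ | ∃ ξ, RandomCA.IsPS f ξ σ τ}, τ ≤ σ * n ^ σ := by
  rintro τ ⟨ξ, hξ⟩
  obtain ⟨z, l, j, hc, rfl⟩ := cyc_of_isPS f hξ
  exact E1c_cyc_le hc

theorem long_iff (f : (Fin r → Fin n) → Fin n) {L : ℝ} (hL : 0 ≤ L) :
    L < (RandomCA.maxPeriod f σ : ℝ) ↔ LongCyc r σ (fun w => f (fun k => w k.rev)) L := by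
  have hb : BddAbove {τ | ∃ ξ, RandomCA.IsPS f ξ σ τ} := ⟨σ * n ^ σ, E1c_bdd f⟩
  unfold RandomCA.maxPeriod
  constructor
  · intro h
    have hne : {τ | ∃ ξ, RandomCA.IsPS f ξ σ τ}.Nonempty := by
      by_contra hemp
      rw [Set.not_nonempty_iff_eq_empty] at hemp
      have h0 : sSup (∅ : Set ℕ) = 0 := csSup_empty
      rw [hemp, h0, Nat.cast_zero] at h
      exact absurd h (not_lt.2 hL)
    obtain ⟨ξ, hξ⟩ := Nat.sSup_mem hne hb
    obtain ⟨z, l, j, hc, he⟩ := cyc_of_isPS f hξ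
    refine ⟨z, l, j, hc, ?_⟩
    rw [he] at h
    push_cast at h
    exact h
  · rintro ⟨z, l, j, hc, h⟩
    refine h.trans_le ?_
    have := le_csSup hb (isPS_of_cyc f hc)
    have h2 : ((l * addOrderOf j : ℕ) : ℝ) ≤ (sSup {τ | ∃ ξ, RandomCA.IsPS f ξ σ τ} : ℕ) := by
      exact_mod_cast this
    push_cast at h2
    exact h2

theorem maxPeriod_le (f : (Fin r → Fin n) → Fin n) :
    RandomCA.maxPeriod f σ ≤ σ * n ^ σ := by
  unfold RandomCA.maxPeriod
  exact csSup_le' (E1c_bdd f)

theorem avg_rev (H : Rule r n → ℝ) :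
    ExG r n (fun f => H (fun w => f (fun k => w k.rev))) = ExG r n H := by
  unfold ExG
  congr 1
  refine Fintype.sum_equiv (Equiv.arrowCongr (Equiv.arrowCongr Fin.revPerm (Equiv.refl (Fin n)))
    (Equiv.refl (Fin n))) _ _ ?_
  intro f
  rfl

end CAB
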