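import Pool.Agent.Lib.MP_eab41b_pr.B.A2

/-! Row E2a: elementary facts about cycles and explorations.

Sketch. `LC` at `u` with `t, j`: the rows `t, ..., u - 1` are used, so (`exp_row_used`) `x_{m+1} = F x_m` and `x_m = F^[m-t] x_t` for `t ≤ m ≤ u`; `x_{t+i}` is used, so not `~ x_t`.
`exp_of_cyc`: `z = x_0`. By induction on `m ≤ l`: the rows `< m` are used and `x_m = F^[m] z`. The iterates `F^[i] z`, `i < l`, are aperiodic
(`aper_of_Fm_iter`, as `F^[l - i] (F^[i] z) = rot j z`) and pairwise not equivalent: `F^[i] z ~ F^[i'] z` with `i < i' < l` gives, applying `F^[l - i']`,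
`F^[l - i' + i] z ~ F^[l] z ~ z` with `0 < l - i' + i < l`.
`priv_not_bad`: the keys of the cells of row `l` are the windows of `F^[l-1] z`, which are different and occur in no row `< l - 1`: so `rep c = c`.
`nonpriv_le`: if row `m < l` is not private (`PrivAt z l m` fails) then some window of it occurs at another place of the rows `< l`; so with `c` = the later of the two cells above, `c` or (the one above the
other place) is bad: every non-private `m` is `c / σ - 1` or `rep c / σ - 1` for a bad cell `c` of a row in `[1, l]`: at most `(1 + σ) nBad ≤ 2 σ nBad`. -/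

set_option autoImplicit false

set_option linter.unusedSectionVars false

open scoped Classical

namespace CAB

variable {α : Type} {r σ : ℕ} [NeZero σ] {g : (Fin r → α) → α} {s x : ℕ → α}

private theorem e2a_mul {z : ZMod σ → α} {l : ℕ} {j : ZMod σ} (h : Cyc r σ g z l j) (q : ℕ) :
    Eqv σ ((Fm r σ g)^[l * q] z) z := by
  induction q with
  | zero => exact Eqv.refl σ z
  | succ q ih =>
    have e : (Fm r σ g)^[l * (q + 1)] z = (Fm r σ g)^[l * q] (CAB.rot σ j z) := by
      rw [mul_add, mul_one, Function.iterate_add_apply, h.2.2.1]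
    rw [e]
    exact ((eqv_rot σ j z).Fm_iter g (l * q)).trans ih

private theorem e2a_le {l : ℕ} (hl : 0 < l) (i : ℕ) : i ≤ l * (i + 1) := by
  nlinarith

theorem Cyc.iter_not_eqv {z : ZMod σ → α} {l : ℕ} {j : ZMod σ} (h : Cyc r σ g z l j) {i i' : ℕ}
    (hi : i < i') (hi' : i' < l) : ¬ Eqv σ ((Fm r σ g)^[i'] z) ((Fm r σ g)^[i] z) := by
  intro he
  have h1 := he.Fm_iter g (l - i')
  rw [← Function.iterate_add_apply, ← Function.iterate_add_apply, Nat.sub_add_cancel hi'.le,
    h.2.2.1] at h1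
  exact h.2.2.2 (l - i' + i) (by omega) (by omega) (h1.symm.trans (eqv_rot σ j z))

theorem Cyc.iter_aper {z : ZMod σ → α} {l : ℕ} {j : ZMod σ} (h : Cyc r σ g z l j) (i : ℕ) :
    Aper σ ((Fm r σ g)^[i] z) := by
  apply aper_of_Fm_iter (g := g) (k := l * (i + 1) - i)
  rw [← Function.iterate_add_apply, Nat.sub_add_cancel (e2a_le h.1 i)]
  exact (e2a_mul h (i + 1)).aper h.2.1

theorem Cyc.rot {z : ZMod σ → α} {l : ℕ} {j : ZMod σ} (h : Cyc r σ g z l j) (a : ZMod σ) :
    Cyc r σ g (rot σ a z) l j := by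
  refine ⟨h.1, h.2.1.rot a, ?_, ?_⟩
  · rw [Fm_iter_rot, h.2.2.1, rot_rot, rot_rot, add_comm]
  · intro i hi hil he
    rw [Fm_iter_rot] at he
    exact h.2.2.2 i hi hil (((eqv_rot σ a _).symm.trans he).trans (eqv_rot σ a z))

theorem Cyc.iter {z : ZMod σ → α} {l : ℕ} {j : ZMod σ} (h : Cyc r σ g z l j) (i : ℕ) :
    Cyc r σ g ((Fm r σ g)^[i] z) l j := by
  refine ⟨h.1, h.iter_aper i, ?_, ?_⟩
  · rw [← Function.iterate_add_apply, add_comm, Function.iterate_add_apply, h.2.2.1, Fm_iter_rot]
  · intro k hk hkl he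
    have h1 := he.Fm_iter g (l * (i + 1) - i)
    have e1 : (Fm r σ g)^[l * (i + 1) - i] ((Fm r σ g)^[i] z) = (Fm r σ g)^[l * (i + 1)] z := by
      rw [← Function.iterate_add_apply, Nat.sub_add_cancel (e2a_le h.1 i)]
    have e2 : (Fm r σ g)^[l * (i + 1) - i] ((Fm r σ g)^[k] ((Fm r σ g)^[i] z)) =
        (Fm r σ g)^[k] ((Fm r σ g)^[l * (i + 1)] z) := by
      rw [← e1, ← Function.iterate_add_apply, add_comm, Function.iterate_add_apply]
    rw [e1, e2] at h1
    have h2 := e2a_mul h (i + 1)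
    exact h.2.2.2 k hk hkl (((h2.Fm_iter g k).symm.trans h1).trans h2)

/-- the length and the rotation are determined by the row -/
theorem Cyc.unique {z : ZMod σ → α} {l l' : ℕ} {j j' : ZMod σ} (h : Cyc r σ g z l j)
    (h' : Cyc r σ g z l' j') : l = l' ∧ j = j' := by
  have hl : l = l' := by
    rcases lt_trichotomy l l' with hlt | heq | hlt
    · refine absurd ?_ (h'.2.2.2 l h.1 hlt)
      rw [h.2.2.1]
      exact eqv_rot σ j z
    · exact heq
    · refine absurd ?_ (h.2.2.2 l' h'.1 hlt)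
      rw [h'.2.2.1]
      exact eqv_rot σ j' z
  subst hl
  exact ⟨rfl, h.2.1.rot_inj (h.2.2.1.symm.trans h'.2.2.1)⟩

end CAB
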