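import Pool.Agent.Lib.MP_eab41b_pr.B.A2
import Pool.Agent.Lib.MP_eab41b_pr.B.E2a

/-! Row E2: elementary facts about cycles and explorations.

Sketch. `LC` at `u` with `t, j`: the rows `t, ..., u - 1` are used, so (`exp_row_used`) `x_{m+1} = F x_m` and `x_m = F^[m-t] x_t` for `t ≤ m ≤ u`; `x_{t+i}` is used, so not `~ x_t`.
`exp_of_cyc`: `z = x_0`. By induction on `m ≤ l`: the rows `< m` are used and `x_m = F^[m] z`. The iterates `F^[i] z`, `i < l`, are aperiodic
(`aper_of_Fm_iter`, as `F^[l - i] (F^[i] z) = rot j z`) and pairwise not equivalent: `F^[i] z ~ F^[i'] z` with `i < i' < l` gives, applying `F^[l - i']`,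
`F^[l - i' + i] z ~ F^[l] z ~ z` with `0 < l - i' + i < l`.
`priv_not_bad`: the keys of the cells of row `l` are the windows of `F^[l-1] z`, which are different and occur in no row `< l - 1`: so `rep c = c`.
`nonpriv_le`: if row `m < l` is not private (`PrivAt z l m` fails) then some window of it occurs at another place of the rows `< l`; so with `c` = the later of the two cells above, `c` or (the one above the
other place) is bad: every non-private `m` is `c / σ - 1` or `rep c / σ - 1` for a bad cell `c` of a row in `[1, l]`: at most `(1 + σ) nBad ≤ 2 σ nBad`. -/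

set_option autoImplicit false

set_option linter.unusedSectionVars false

open scoped Classical

namespace CAB

variable {α : Type} {r σ : ℕ} [NeZero σ] {g : (Fin r → α) → α} {s x : ℕ → α}

theorem cyc_of_LC (hx : IsExp r σ g s x) {L : ℝ} {u : ℕ} (h : LC σ L x u) :
    ∃ (t : ℕ) (j : ZMod σ), t < u ∧ Cyc r σ g (xrow σ x t) (u - t) j ∧
      L < ((u - t : ℕ) : ℝ) * (addOrderOf j : ℝ) ∧
      ∀ m, t ≤ m → m < u → Used σ x m ∧ xrow σ x m = (Fm r σ g)^[m - t] (xrow σ x t) := by
  obtain ⟨t, j, htu, hrot, hused, hL⟩ := h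
  have hit : ∀ i, t + i ≤ u → xrow σ x (t + i) = (Fm r σ g)^[i] (xrow σ x t) := by
    intro i
    induction i with
    | zero =>
      intro _
      rfl
    | succ i ih =>
      intro hi
      rw [Function.iterate_succ_apply', ← ih (by omega), ← add_assoc,
        exp_row_used hx (hused (t + i) (by omega) (by omega))]
  refine ⟨t, j, htu, ⟨by omega, (hused t le_rfl htu).1, ?_, ?_⟩, hL, ?_⟩
  · rw [← hit (u - t) (by omega), Nat.add_sub_cancel' htu.le, hrot]
  · intro i h0 hi he
    rw [← hit i (by omega)] at he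
    exact (hused (t + i) (by omega) (by omega)).2 t (by omega) he
  · intro m h1 h2
    refine ⟨hused m h1 h2, ?_⟩
    rw [← hit (m - t) (by omega), Nat.add_sub_cancel' h1]

theorem exp_of_cyc (hx : IsExp r σ g s x) {l : ℕ} {j : ZMod σ}
    (h : Cyc r σ g (xrow σ x 0) l j) :
    (∀ m < l, Used σ x m) ∧ ∀ m ≤ l, xrow σ x m = (Fm r σ g)^[m] (xrow σ x 0) := by
  have key : ∀ m ≤ l, (∀ m' < m, Used σ x m') ∧
      ∀ m' ≤ m, xrow σ x m' = (Fm r σ g)^[m'] (xrow σ x 0) := by
    intro m
    induction m with
    | zero =>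
      intro _
      refine ⟨fun m' h' => absurd h' (by omega), fun m' h' => ?_⟩
      obtain rfl : m' = 0 := by omega
      rfl
    | succ m ih =>
      intro hm
      obtain ⟨h1, h2⟩ := ih (by omega)
      have hu : Used σ x m := by
        refine ⟨?_, fun m' hm' he => ?_⟩
        · rw [h2 m le_rfl]
          exact h.iter_aper m
        · rw [h2 m le_rfl, h2 m' hm'.le] at he
          exact h.iter_not_eqv hm' (by omega) he
      refine ⟨fun m' h' => ?_, fun m' h' => ?_⟩
      · rcases Nat.lt_or_ge m' m with h3 | h3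
        · exact h1 m' h3
        · obtain rfl : m' = m := by omega
          exact hu
      · rcases Nat.lt_or_ge m' (m + 1) with h3 | h3
        · exact h2 m' (by omega)
        · obtain rfl : m' = m + 1 := by omega
          rw [exp_row_used hx hu, h2 m le_rfl, Function.iterate_succ_apply']
  exact key l le_rfl

theorem priv_not_bad (hx : IsExp r σ g s x) {l : ℕ} {j : ZMod σ}
    (h : Cyc r σ g (xrow σ x 0) l j) (hp : PrivAt r σ g (xrow σ x 0) l (l - 1)) :
    ¬ BadRow r σ x l := by
  obtain ⟨h1, h2⟩ := exp_of_cyc hx h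
  have hl := h.1
  rintro ⟨c, hc, hb⟩
  rw [mem_rowCells] at hc
  obtain ⟨k1, k2, k3, k4, k5⟩ := bad_imp hb
  have hc' : rep r σ x c / σ ≤ l := by
    rw [← hc]
    exact Nat.div_le_div_right k3.le
  have hc1 := row_pos k5
  rw [key_eq_win, key_eq_win, hc, h2 (rep r σ x c / σ - 1) (by omega),
    h2 (l - 1) (by omega)] at k4
  by_cases e : rep r σ x c / σ = l
  · rw [e] at k4
    have h3 := hp.1 _ _ k4
    exact k3.ne (cell_ext (e.trans hc.symm) h3)
  · exact hp.2 (rep r σ x c / σ - 1) (by omega) (by omega) _ _ k4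

theorem nonpriv_le (hx : IsExp r σ g s x) {l : ℕ} {j : ZMod σ}
    (h : Cyc r σ g (xrow σ x 0) l j) :
    ((Finset.range l).filter fun m => ¬ PrivAt r σ g (xrow σ x 0) l m).card ≤
      2 * σ * nBad r σ x (l + 1) := by
  obtain ⟨h1, h2⟩ := exp_of_cyc hx h
  have hsub : ((Finset.range l).filter fun m => ¬ PrivAt r σ g (xrow σ x 0) l m) ⊆
      ((Finset.range (l + 1)).filter (BadRow r σ x)).biUnion fun b =>
        insert (b - 1) ((rowCells σ b).image fun c => rep r σ x c / σ - 1) := by
    intro m hm
    rw [Finset.mem_filter, Finset.mem_range] at hm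
    obtain ⟨hml, hnp⟩ := hm
    obtain ⟨m', i, i', hm', hne, hw⟩ : ∃ (m' : ℕ) (i i' : ZMod σ), m' < l ∧
        (m' ≠ m ∨ i' ≠ i) ∧ win r σ (xrow σ x m') i' = win r σ (xrow σ x m) i := by
      by_contra hcon
      apply hnp
      refine ⟨fun i i' e => ?_, fun m' hm' hne i i' e => ?_⟩
      · by_contra hii
        refine hcon ⟨m, i', i, hml, Or.inr hii, ?_⟩
        rw [h2 m hml.le]
        exact e
      · refine hcon ⟨m', i, i', hm', Or.inl hne, ?_⟩
        rw [h2 m hml.le, h2 m' hm'.le]
        exact e
    have k1 : HasKey σ x ((m + 1) * σ + i.val) := (hasKey_cell x m i).2 (h1 m hml)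
    have k2 : HasKey σ x ((m' + 1) * σ + i'.val) := (hasKey_cell x m' i').2 (h1 m' hm')
    have hk : key r σ x ((m + 1) * σ + i.val) = key r σ x ((m' + 1) * σ + i'.val) := by
      rw [key_cell, key_cell, hw]
    have hr := rep_eq_of_key k1 k2 hk
    have d1 : ((m + 1) * σ + i.val) / σ = m + 1 := cell_div _ _
    have d2 : ((m' + 1) * σ + i'.val) / σ = m' + 1 := cell_div _ _
    have hne' : (m + 1) * σ + i.val ≠ (m' + 1) * σ + i'.val := by
      intro e
      rcases hne with h3 | h3
      · apply h3
        rw [e, d2] at d1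
        omega
      · apply h3
        have e1 := cell_cast (σ := σ) (m + 1) i
        have e2 := cell_cast (σ := σ) (m' + 1) i'
        rw [e, e2] at e1
        exact e1
    rw [Finset.mem_biUnion]
    by_cases hb : rep r σ x ((m + 1) * σ + i.val) = (m + 1) * σ + i.val
    · refine ⟨m' + 1, ?_, ?_⟩
      · rw [Finset.mem_filter, Finset.mem_range]
        refine ⟨by omega, (m' + 1) * σ + i'.val, mem_rowCells.2 d2, fun e => hne' ?_⟩
        rw [← hb, hr, e]
      · apply Finset.mem_insert_of_mem
        rw [Finset.mem_image]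
        refine ⟨(m' + 1) * σ + i'.val, mem_rowCells.2 d2, ?_⟩
        rw [← hr, hb, d1, Nat.add_sub_cancel]
    · refine ⟨m + 1, ?_, ?_⟩
      · rw [Finset.mem_filter, Finset.mem_range]
        exact ⟨by omega, (m + 1) * σ + i.val, mem_rowCells.2 d1, hb⟩
      · rw [Nat.add_sub_cancel]
        exact Finset.mem_insert_self _ _
  refine (Finset.card_le_card hsub).trans (Finset.card_biUnion_le.trans ?_)
  have hcard : ∀ b ∈ (Finset.range (l + 1)).filter (BadRow r σ x),
      (insert (b - 1) ((rowCells σ b).image fun c => rep r σ x c / σ - 1)).card ≤ 2 * σ := by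
    intro b _
    refine (Finset.card_insert_le _ _).trans ?_
    have h3 := Finset.card_image_le (s := rowCells σ b) (f := fun c => rep r σ x c / σ - 1)
    rw [card_rowCells] at h3
    have h4 := sig_pos (σ := σ)
    omega
  refine (Finset.sum_le_sum hcard).trans ?_
  rw [Finset.sum_const, smul_eq_mul, mul_comm]
  exact le_rfl

end CAB
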