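import Pool.Agent.Lib.MP_eab41b_pr.B.E2

/-! Row E3a: the weight of one long cycle is at least one.

Sketch: the class of `z` has the `σ l` different elements `rot a (F^[i] z)` (`iter_not_eqv`, `iter_aper`), all of them `(l, j)`-cyclic (`Cyc.rot`, `Cyc.iter`), `wt1` of such an element is
`[PrivAt w l (l-1)] / (σ (1 - η) l)` (`Cyc.unique`: only the term `l, j` of the double sum). For `w = rot a (F^[i] z)`: `PrivAt w l (l - 1)` iff `PrivAt z l ((i + l - 1) mod l)` (the rows
`F^[m] w`, `m < l`, are rotations of the rows `F^[m'] z`, `m' < l`, in cyclic order, up to the rotation by `j`; windows of a rotation are the same windows). So at least `σ (1 - η) l` elements count (`hp`). -/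

set_option autoImplicit false

set_option linter.unusedSectionVars false

open scoped Classical

namespace CAB

variable {r σ n : ℕ} [NeZero n] [NeZero σ]

theorem mem_cls {g : Rule r n} {z w : Row σ n} {l : ℕ} :
    w ∈ cls r σ n g z l ↔ ∃ i < l, ∃ a : ZMod σ, w = rot σ a ((Fm r σ g)^[i] z) := by
  unfold cls
  simp only [Finset.mem_image, Finset.mem_product, Finset.mem_range, Finset.mem_univ, and_true,
    Prod.exists]
  constructor
  · rintro ⟨i, a, hi, rfl⟩
    exact ⟨i, hi, a, rfl⟩
  · rintro ⟨i, hi, a, rfl⟩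
    exact ⟨i, a, hi, rfl⟩

private theorem E3a_rows {g : Rule r n} {z : Row σ n} {l : ℕ} {j : ZMod σ} (h : Cyc r σ g z l j)
    {i : ℕ} (hi : i < l) (a : ZMod σ) {m : ℕ} (hm : m < l) :
    ∃ b : ZMod σ, (Fm r σ g)^[m] (rot σ a ((Fm r σ g)^[i] z)) =
      rot σ b ((Fm r σ g)^[(i + m) % l] z) := by
  rw [Fm_iter_rot, ← Function.iterate_add_apply]
  by_cases hl : i + m < l
  · refine ⟨a, ?_⟩
    rw [Nat.mod_eq_of_lt hl, add_comm m i]
  · have h1 : (i + m) % l = i + m - l := by
      rw [Nat.mod_eq_sub_mod (by omega), Nat.mod_eq_of_lt (by omega)]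
    have h2 : (Fm r σ g)^[m + i] z = rot σ j ((Fm r σ g)^[i + m - l] z) := by
      rw [show m + i = (i + m - l) + l by omega, Function.iterate_add_apply, h.2.2.1, Fm_iter_rot]
    refine ⟨a + j, ?_⟩
    rw [h1, h2, rot_rot]

theorem privAt_iff {g : Rule r n} {z : Row σ n} {l : ℕ} {j : ZMod σ} (h : Cyc r σ g z l j)
    {i : ℕ} (hi : i < l) (a : ZMod σ) :
    PrivAt r σ g (rot σ a ((Fm r σ g)^[i] z)) l (l - 1) ↔
      PrivAt r σ g z l ((i + l - 1) % l) := by
  have hl : 0 < l := h.1
  have e : (i + l - 1) % l = (i + (l - 1)) % l := by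
    congr 1
    omega
  rw [e]
  obtain ⟨b, hb⟩ := E3a_rows h hi a (show l - 1 < l by omega)
  unfold PrivAt
  rw [hb]
  constructor
  · rintro ⟨h1, h2⟩
    refine ⟨fun i1 i2 hw => ?_, fun m' hm' hne i1 i2 hw => ?_⟩
    · have h3 := h1 (i1 - b) (i2 - b) (by
        rw [win_rot, win_rot, sub_add_cancel, sub_add_cancel]
        exact hw)
      exact sub_left_injective h3
    · have hm : (m' + (l - i)) % l < l := Nat.mod_lt _ hl
      obtain ⟨b', hb'⟩ := E3a_rows h hi a hm
      have e1 : (i + (m' + (l - i)) % l) % l = m' := by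
        rw [Nat.add_mod_mod, show i + (m' + (l - i)) = m' + l by omega, Nat.add_mod_right,
          Nat.mod_eq_of_lt hm']
      rw [e1] at hb'
      refine h2 _ hm (fun h4 => hne ?_) (i1 - b) (i2 - b') ?_
      · rw [← e1, h4]
      · rw [hb', win_rot, win_rot, sub_add_cancel, sub_add_cancel]
        exact hw
  · rintro ⟨h1, h2⟩
    refine ⟨fun i1 i2 hw => ?_, fun m' hm' hne i1 i2 hw => ?_⟩
    · rw [win_rot, win_rot] at hw
      exact add_left_injective b (h1 _ _ hw)
    · obtain ⟨b', hb'⟩ := E3a_rows h hi a hm'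
      rw [hb', win_rot, win_rot] at hw
      refine h2 _ (Nat.mod_lt _ hl) (fun h4 => hne ?_) _ _ hw
      by_cases h5 : i + m' < l
      · rw [Nat.mod_eq_of_lt h5] at h4
        by_cases h6 : i + (l - 1) < l
        · rw [Nat.mod_eq_of_lt h6] at h4
          omega
        · rw [Nat.mod_eq_sub_mod (by omega), Nat.mod_eq_of_lt (by omega)] at h4
          omega
      · rw [Nat.mod_eq_sub_mod (by omega), Nat.mod_eq_of_lt (by omega)] at h4
        by_cases h6 : i + (l - 1) < l
        · rw [Nat.mod_eq_of_lt h6] at h4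
          omega
        · rw [Nat.mod_eq_sub_mod (by omega), Nat.mod_eq_of_lt (by omega)] at h4
          omega

end CAB
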