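import Pool.Agent.Lib.MP_eab41b_pr.B.E2
import Pool.Agent.Lib.MP_eab41b_pr.B.E3a

/-! Row E3: the weight of one long cycle is at least one.

Sketch: the class of `z` has the `σ l` different elements `rot a (F^[i] z)` (`iter_not_eqv`, `iter_aper`), all of them `(l, j)`-cyclic (`Cyc.rot`, `Cyc.iter`), `wt1` of such an element is
`[PrivAt w l (l-1)] / (σ (1 - η) l)` (`Cyc.unique`: only the term `l, j` of the double sum). For `w = rot a (F^[i] z)`: `PrivAt w l (l - 1)` iff `PrivAt z l ((i + l - 1) mod l)` (the rows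
`F^[m] w`, `m < l`, are rotations of the rows `F^[m'] z`, `m' < l`, in cyclic order, up to the rotation by `j`; windows of a rotation are the same windows). So at least `σ (1 - η) l` elements count (`hp`). -/

set_option autoImplicit false

set_option linter.unusedSectionVars false

open scoped Classical

namespace CAB

variable {r σ n : ℕ} [NeZero n] [NeZero σ]

private theorem E3_shift (f : ℕ → ℝ) (k : ℕ) :
    ∑ i ∈ Finset.range (k + 1), f ((i + (k + 1) - 1) % (k + 1)) =
      ∑ m ∈ Finset.range (k + 1), f m := by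
  rw [Finset.sum_range_succ', Finset.sum_range_succ]
  congr 1
  · apply Finset.sum_congr rfl
    intro i hi
    have h1 := Finset.mem_range.1 hi
    congr 1
    rw [show i + 1 + (k + 1) - 1 = i + (k + 1) by omega, Nat.add_mod_right,
      Nat.mod_eq_of_lt (by omega)]
  · congr 1
    rw [show 0 + (k + 1) - 1 = k by omega, Nat.mod_eq_of_lt (by omega)]

private theorem E3_inj {g : Rule r n} {z : Row σ n} {l : ℕ} {j : ZMod σ} (h : Cyc r σ g z l j) :
    Set.InjOn (fun p : ℕ × ZMod σ => rot σ p.2 ((Fm r σ g)^[p.1] z))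
      (((Finset.range l) ×ˢ (Finset.univ : Finset (ZMod σ)) : Finset (ℕ × ZMod σ)) :
        Set (ℕ × ZMod σ)) := by
  rintro ⟨i, a⟩ hi ⟨i', a'⟩ hi' hh
  have hi1 : i < l := Finset.mem_range.1 (Finset.mem_product.1 (Finset.mem_coe.1 hi)).1
  have hi2 : i' < l := Finset.mem_range.1 (Finset.mem_product.1 (Finset.mem_coe.1 hi')).1
  simp only at hh
  have e1 : Eqv σ ((Fm r σ g)^[i] z) ((Fm r σ g)^[i'] z) := by
    refine (eqv_rot σ a _).symm.trans ?_
    rw [hh]
    exact eqv_rot σ a' _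
  have hii : i = i' := by
    rcases lt_trichotomy i i' with h1 | h1 | h1
    · exact absurd e1.symm (h.iter_not_eqv h1 hi2)
    · exact h1
    · exact absurd e1 (h.iter_not_eqv h1 hi1)
  subst hii
  have := (h.iter_aper i).rot_inj hh
  rw [this]

theorem cls_sum {g : Rule r n} {z : Row σ n} {l : ℕ} {j : ZMod σ} {L η : ℝ} {Tm : ℕ}
    (h : Cyc r σ g z l j) (hL : L < (l : ℝ) * (addOrderOf j : ℝ)) (hl : l ≤ Tm) (hη : η < 1)
    (hp : (((Finset.range l).filter fun m => ¬ PrivAt r σ g z l m).card : ℝ) < η * l) :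
    1 ≤ ∑ w ∈ cls r σ n g z l, wt1 r σ n g L η Tm w := by
  have hl0 : 0 < l := h.1
  have hlR : (0 : ℝ) < l := by exact_mod_cast hl0
  have hσR : (0 : ℝ) < σ := by exact_mod_cast (sig_pos (σ := σ))
  have hη' : 0 < 1 - η := by linarith
  set c : ℝ := 1 / ((σ : ℝ) * (1 - η) * l) with hc
  have hc0 : 0 < c := by positivity
  have hterm : ∀ w : Row σ n, Cyc r σ g w l j →
      (if PrivAt r σ g w l (l - 1) then c else 0) ≤ wt1 r σ n g L η Tm w := by
    intro w hw
    have hnn : ∀ l' ∈ Finset.Icc 1 Tm, ∀ j' : ZMod σ, (0 : ℝ) ≤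
        if Cyc r σ g w l' j' ∧ PrivAt r σ g w l' (l' - 1) ∧ L < (l' : ℝ) * (addOrderOf j' : ℝ)
        then 1 / ((σ : ℝ) * (1 - η) * l') else 0 := by
      intro l' _ j'
      split_ifs
      · positivity
      · exact le_rfl
    have h1 : (if Cyc r σ g w l j ∧ PrivAt r σ g w l (l - 1) ∧ L < (l : ℝ) * (addOrderOf j : ℝ)
        then 1 / ((σ : ℝ) * (1 - η) * l) else 0) ≤ ∑ j' : ZMod σ,
        (if Cyc r σ g w l j' ∧ PrivAt r σ g w l (l - 1) ∧ L < (l : ℝ) * (addOrderOf j' : ℝ)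
        then 1 / ((σ : ℝ) * (1 - η) * l) else 0) :=
      Finset.single_le_sum (f := fun j' : ZMod σ =>
        (if Cyc r σ g w l j' ∧ PrivAt r σ g w l (l - 1) ∧ L < (l : ℝ) * (addOrderOf j' : ℝ)
        then 1 / ((σ : ℝ) * (1 - η) * l) else 0))
        (fun j' _ => hnn l (Finset.mem_Icc.2 ⟨hl0, hl⟩) j') (Finset.mem_univ j)
    have h2 := Finset.single_le_sum (f := fun l' : ℕ => ∑ j' : ZMod σ,
        (if Cyc r σ g w l' j' ∧ PrivAt r σ g w l' (l' - 1) ∧ L < (l' : ℝ) * (addOrderOf j' : ℝ)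
        then 1 / ((σ : ℝ) * (1 - η) * l') else 0))
        (fun l' hl' => Finset.sum_nonneg fun j' _ => hnn l' hl' j')
        (Finset.mem_Icc.2 ⟨hl0, hl⟩)
    refine le_trans (le_of_eq ?_) (h1.trans h2)
    by_cases hP : PrivAt r σ g w l (l - 1)
    · rw [if_pos hP, if_pos ⟨hw, hP, hL⟩]
    · rw [if_neg hP, if_neg (fun hh => hP hh.2.1)]
  have hcls : ∑ w ∈ cls r σ n g z l, wt1 r σ n g L η Tm w =
      ∑ i ∈ Finset.range l, ∑ a : ZMod σ, wt1 r σ n g L η Tm (rot σ a ((Fm r σ g)^[i] z)) := by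
    unfold cls
    rw [Finset.sum_image (E3_inj h), Finset.sum_product]
  rw [hcls]
  have hlow : ∑ i ∈ Finset.range l, ∑ _a : ZMod σ,
      (if PrivAt r σ g z l ((i + l - 1) % l) then c else 0) ≤
      ∑ i ∈ Finset.range l, ∑ a : ZMod σ, wt1 r σ n g L η Tm (rot σ a ((Fm r σ g)^[i] z)) := by
    apply Finset.sum_le_sum
    intro i hi
    apply Finset.sum_le_sum
    intro a _
    have h1 := hterm (rot σ a ((Fm r σ g)^[i] z)) ((h.iter i).rot a)
    have h2 := privAt_iff h (Finset.mem_range.1 hi) a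
    by_cases hP : PrivAt r σ g z l ((i + l - 1) % l)
    · rw [if_pos hP]
      rwa [if_pos (h2.2 hP)] at h1
    · rw [if_neg hP]
      rwa [if_neg (fun hh => hP (h2.1 hh))] at h1
  refine le_trans ?_ hlow
  have hcardσ : ∀ x : ℝ, ∑ _a : ZMod σ, x = σ * x := by
    intro x
    rw [Finset.sum_const, Finset.card_univ, ZMod.card, nsmul_eq_mul]
  simp_rw [hcardσ]
  rw [← Finset.mul_sum]
  obtain ⟨k, rfl⟩ : ∃ k, l = k + 1 := ⟨l - 1, by omega⟩
  rw [E3_shift (fun m => if PrivAt r σ g z (k + 1) m then c else 0) k, ← Finset.sum_filter,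
    Finset.sum_const, nsmul_eq_mul]
  have hcount : (1 - η) * ((k + 1 : ℕ) : ℝ) ≤
      (((Finset.range (k + 1)).filter fun m => PrivAt r σ g z (k + 1) m).card : ℝ) := by
    have h3 := Finset.card_filter_add_card_filter_not (s := Finset.range (k + 1))
      (fun m => PrivAt r σ g z (k + 1) m)
    rw [Finset.card_range] at h3
    have h4 : (((Finset.range (k + 1)).filter fun m => PrivAt r σ g z (k + 1) m).card : ℝ) +
        (((Finset.range (k + 1)).filter fun m => ¬ PrivAt r σ g z (k + 1) m).card : ℝ) =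
        ((k + 1 : ℕ) : ℝ) := by exact_mod_cast h3
    linarith
  calc (1 : ℝ) = σ * ((1 - η) * ((k + 1 : ℕ) : ℝ) * c) := by
        rw [hc]
        field_simp
    _ ≤ _ := by gcongr

end CAB
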