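import Pool.Agent.Lib.MP_eab41b_pr.B.E3
import Pool.Agent.Lib.MP_eab41b_pr.B.D1

/-! Row E3b: found closings and long cycles against the weight, outside `Rest`.

Sketch: `¬ Rest`: every long `(l, j)`-cyclic `z` has `l ≤ Tm` and less than `η l` rows that are not private. `one_le_Wt`: `cls_sum`, `Finset.sum_le_sum_of_subset_of_nonneg`
(`wt1 ≥ 0`). `found_le_Wt`: each closing `u < T` gives `z_u = x_t` (`cyc_of_LC`), the classes `cls z_u (u - t)` consist of the rotations of the rows `x_t, ..., x_{u-1}`; for two closings `u < u'`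
the intervals `[t, u)`, `[t', u')` are disjoint (`u` is not used: `LC_not_used`), all these rows are used, so pairwise not equivalent: disjoint classes. Sum `cls_sum` over the closings (`Finset.sum_biUnion`). -/

set_option autoImplicit false

set_option linter.unusedSectionVars false

open scoped Classical

namespace CAB

variable {r σ n : ℕ} [NeZero n] [NeZero σ]

theorem wt1_nonneg (g : Rule r n) (L : ℝ) {η : ℝ} (hη : η < 1) (Tm : ℕ) (z : Row σ n) :
    0 ≤ wt1 r σ n g L η Tm z := by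
  unfold wt1
  refine Finset.sum_nonneg fun l _ => Finset.sum_nonneg fun j _ => ?_
  have h1 : 0 < 1 - η := by linarith
  split_ifs
  · positivity
  · exact le_rfl

theorem Wt_nonneg (g : Rule r n) (L : ℝ) {η : ℝ} (hη : η < 1) (Tm : ℕ) :
    0 ≤ Wt r σ n g L η Tm := by
  unfold Wt
  exact Finset.sum_nonneg fun z _ => wt1_nonneg g L hη Tm z

private theorem E3b_cls {g : Rule r n} {L η : ℝ} {Tm : ℕ} (hη : η < 1)
    (hR : ¬ Rest r σ g L η Tm) {z : Row σ n} {l : ℕ} {j : ZMod σ} (h : Cyc r σ g z l j)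
    (hL : L < (l : ℝ) * (addOrderOf j : ℝ)) : 1 ≤ ∑ w ∈ cls r σ n g z l, wt1 r σ n g L η Tm w := by
  have h1 : ¬ (Tm < l ∨
      η * l ≤ (((Finset.range l).filter fun m => ¬ PrivAt r σ g z l m).card : ℝ)) :=
    fun h2 => hR ⟨z, l, j, h, hL, h2⟩
  push Not at h1
  exact cls_sum h hL h1.1 hη h1.2

theorem one_le_Wt {g : Rule r n} {L η : ℝ} {Tm : ℕ} (hη : η < 1)
    (hR : ¬ Rest r σ g L η Tm) (hc : LongCyc r σ g L) : 1 ≤ Wt r σ n g L η Tm := by
  obtain ⟨z, l, j, h, hL⟩ := hc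
  refine (E3b_cls hη hR h hL).trans ?_
  unfold Wt
  exact Finset.sum_le_sum_of_subset_of_nonneg (Finset.subset_univ _)
    fun w _ _ => wt1_nonneg g L hη Tm w

private theorem E3b_used {x : ℕ → Fin n} {m m' : ℕ} (h : Used σ x m) (h' : Used σ x m')
    (he : Eqv σ (xrow σ x m) (xrow σ x m')) : m = m' := by
  rcases lt_trichotomy m m' with h1 | h1 | h1
  · exact absurd he.symm (h'.2 m h1)
  · exact h1
  · exact absurd he (h.2 m' h1)

theorem found_le_Wt {g : Rule r n} {s x : ℕ → Fin n} (hx : IsExp r σ g s x) {L η : ℝ} {Tm : ℕ}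
    (hη : η < 1) (hR : ¬ Rest r σ g L η Tm) (T : ℕ) :
    (found σ L T x : ℝ) ≤ Wt r σ n g L η Tm := by
  set S := (Finset.range T).filter (LC σ L x) with hS
  have hLC : ∀ u ∈ S, LC σ L x u := fun u hu => (Finset.mem_filter.1 hu).2
  have hch : ∀ u : ℕ, ∃ t : ℕ, u ∈ S → t < u ∧
      1 ≤ ∑ w ∈ cls r σ n g (xrow σ x t) (u - t), wt1 r σ n g L η Tm w ∧
      ∀ m, t ≤ m → m < u → Used σ x m ∧ xrow σ x m = (Fm r σ g)^[m - t] (xrow σ x t) := by
    intro u
    by_cases hu : u ∈ S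
    · obtain ⟨t, j, h1, h2, h3, h4⟩ := cyc_of_LC hx (hLC u hu)
      exact ⟨t, fun _ => ⟨h1, E3b_cls hη hR h2 h3, h4⟩⟩
    · exact ⟨0, fun h => absurd h hu⟩
  choose t ht using hch
  -- a member of a class is a rotation of a used row
  have hmem : ∀ u ∈ S, ∀ w ∈ cls r σ n g (xrow σ x (t u)) (u - t u), ∃ m, t u ≤ m ∧ m < u ∧
      Used σ x m ∧ Eqv σ w (xrow σ x m) := by
    intro u hu w hw
    obtain ⟨i, hi, a, rfl⟩ := mem_cls.1 hw
    have h1 := (ht u hu).2.2 (t u + i) (by omega) (by omega)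
    refine ⟨t u + i, by omega, by omega, h1.1, ⟨a, ?_⟩⟩
    rw [h1.2, Nat.add_sub_cancel_left]
  have hdis : ∀ u ∈ S, ∀ u' ∈ S, u < u' →
      Disjoint (cls r σ n g (xrow σ x (t u)) (u - t u))
        (cls r σ n g (xrow σ x (t u')) (u' - t u')) := by
    intro u hu u' hu' hlt
    rw [Finset.disjoint_left]
    intro w hw hw'
    obtain ⟨m, h1, h2, h3, h4⟩ := hmem u hu w hw
    obtain ⟨m', h5, h6, h7, h8⟩ := hmem u' hu' w hw'
    have h9 := E3b_used h3 h7 (h4.symm.trans h8)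
    have h10 : ¬ t u' ≤ u := fun h => LC_not_used (hLC u hu) ((ht u' hu').2.2 u h hlt).1
    omega
  have hpd : (S : Set ℕ).PairwiseDisjoint
      fun u => cls r σ n g (xrow σ x (t u)) (u - t u) := by
    intro u hu u' hu' hne
    rcases lt_or_gt_of_ne hne with h | h
    · exact hdis u hu u' hu' h
    · exact (hdis u' hu' u hu h).symm
  calc (found σ L T x : ℝ) = ∑ u ∈ S, (1 : ℝ) := by
        unfold found
        rw [Finset.sum_const, nsmul_eq_mul, mul_one]
    _ ≤ ∑ u ∈ S, ∑ w ∈ cls r σ n g (xrow σ x (t u)) (u - t u), wt1 r σ n g L η Tm w :=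
        Finset.sum_le_sum fun u hu => (ht u hu).2.1
    _ = ∑ w ∈ S.biUnion fun u => cls r σ n g (xrow σ x (t u)) (u - t u),
          wt1 r σ n g L η Tm w := (Finset.sum_biUnion hpd).symm
    _ ≤ Wt r σ n g L η Tm := by
        unfold Wt
        exact Finset.sum_le_sum_of_subset_of_nonneg (Finset.subset_univ _)
          fun w _ _ => wt1_nonneg g L hη Tm w

end CAB
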