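import Pool.Agent.Lib.MP_eab41b_pr.B.E2
import Pool.Agent.Lib.MP_eab41b_pr.B.A5
import Pool.Agent.Lib.MP_eab41b_pr.B.C3

/-! Row E4a: the expected weight (G6).

Sketch. `start_avg`: the first row of the exploration is the first start (`exp_row_not`), which is uniform: for a function `Ψ` of the rule and a row,
`ExG (Σ_z Ψ g z) = n^σ ExGS T (Ψ g (xrow x 0))`, `T ≥ 1`. `E4a`: for `l ≥ 1`: by `start_avg` with `T = l + 1`, `exp_of_cyc`, `priv_not_bad`: the event is contained in `{rows < l used, row l not bad, x_l = rot j x_0}` of `x = Xe g s`;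
by `transfer` its probability is the one for `x = Xp y`, where `x_l = y_l` (`proc_row_of_not_bad`): `Pr_row_le` with `b = 1` at the row `l`, then `Pr_local`: `≤ n^{-σ} P(rows < l used)`.
`ExG_Wt_le`: exchange the sums. -/

set_option autoImplicit false

set_option linter.unusedSectionVars false

open scoped Classical

namespace CAB

variable {r σ n : ℕ} [NeZero n] [NeZero σ]

theorem ExG_nonneg {H : Rule r n → ℝ} (h : ∀ g, 0 ≤ H g) : 0 ≤ ExG r n H :=
  div_nonneg (Finset.sum_nonneg fun g _ => h g) (Nat.cast_nonneg _)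

theorem ExG_mono {H H' : Rule r n → ℝ} (h : ∀ g, H g ≤ H' g) : ExG r n H ≤ ExG r n H' :=
  div_le_div_of_nonneg_right (Finset.sum_le_sum fun g _ => h g) (Nat.cast_nonneg _)

theorem ExG_add (H H' : Rule r n → ℝ) :
    ExG r n (fun g => H g + H' g) = ExG r n H + ExG r n H' := by
  unfold ExG
  rw [Finset.sum_add_distrib, add_div]

theorem ExG_mul (a : ℝ) (H : Rule r n → ℝ) : ExG r n (fun g => a * H g) = a * ExG r n H := by
  unfold ExG
  rw [← Finset.mul_sum, mul_div_assoc]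

theorem ExG_sum {ι : Type} (s : Finset ι) (H : ι → Rule r n → ℝ) :
    ExG r n (fun g => ∑ i ∈ s, H i g) = ∑ i ∈ s, ExG r n (H i) := by
  unfold ExG
  rw [Finset.sum_comm, Finset.sum_div]

theorem ExG_const (r n : ℕ) [NeZero n] (a : ℝ) : ExG r n (fun _ => a) = a := by
  unfold ExG
  have h : (Fintype.card (Rule r n) : ℝ) ≠ 0 := Nat.cast_ne_zero.2 Fintype.card_ne_zero
  rw [Finset.sum_const, Finset.card_univ, nsmul_eq_mul, mul_div_assoc, mul_div_cancel₀ _ h]

theorem start_avg {T : ℕ} (hT : 1 ≤ T) (Ψ : Rule r n → Row σ n → ℝ) :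
    ExG r n (fun g => ∑ z : Row σ n, Ψ g z) =
      (n : ℝ) ^ σ * ExGS r σ n T (fun g s => Ψ g (xrow σ (Xe r σ g s) 0)) := by
  have hn : ((n : ℝ) ^ σ) ≠ 0 := pow_ne_zero _ (Nat.cast_ne_zero.2 (NeZero.ne n))
  have h1 : ∀ g : Rule r n, Ex σ n T (fun s => Ψ g (xrow σ (Xe r σ g s) 0)) =
      (∑ z : Row σ n, Ψ g z) / (n : ℝ) ^ σ := by
    intro g
    have h2 : (fun s : ℕ → Fin n => Ψ g (xrow σ (Xe r σ g s) 0)) = fun s => Ψ g (xrow σ s 0) := by
      funext s
      rw [exp_row_not (isExp_Xe g s) (Or.inl rfl)]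
    rw [h2, Ex_upd (m := 0) hT]
    have h3 : (fun y : ℕ → Fin n => (∑ z : Row σ n, Ψ g (xrow σ (updR σ n 0 y z) 0)) / (n : ℝ) ^ σ) =
        fun _ => (∑ z : Row σ n, Ψ g z) / (n : ℝ) ^ σ := by
      funext y
      congr 1
      exact Finset.sum_congr rfl fun z _ => by rw [xrow_updR]
    rw [h3, Ex_const]
  unfold ExGS
  rw [← ExG_mul]
  congr 1
  funext g
  rw [h1, mul_div_cancel₀ _ hn]

end CAB
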