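import Pool.Agent.Lib.MP_eab41b_pr.B.E2
import Pool.Agent.Lib.MP_eab41b_pr.B.A5
import Pool.Agent.Lib.MP_eab41b_pr.B.C3
import Pool.Agent.Lib.MP_eab41b_pr.B.E4a

/-! Row E4: the expected weight (G6).

Sketch. `start_avg`: the first row of the exploration is the first start (`exp_row_not`), which is uniform: for a function `Ψ` of the rule and a row,
`ExG (Σ_z Ψ g z) = n^σ ExGS T (Ψ g (xrow x 0))`, `T ≥ 1`. `E4a`: for `l ≥ 1`: by `start_avg` with `T = l + 1`, `exp_of_cyc`, `priv_not_bad`: the event is contained in `{rows < l used, row l not bad, x_l = rot j x_0}` of `x = Xe g s`;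
by `transfer` its probability is the one for `x = Xp y`, where `x_l = y_l` (`proc_row_of_not_bad`): `Pr_row_le` with `b = 1` at the row `l`, then `Pr_local`: `≤ n^{-σ} P(rows < l used)`.
`ExG_Wt_le`: exchange the sums. -/

set_option autoImplicit false

set_option linter.unusedSectionVars false

open scoped Classical

namespace CAB

variable {r σ n : ℕ} [NeZero n] [NeZero σ]

private theorem e4_local_A (r l : ℕ) :
    LocalTo n (l * σ) (fun y : ℕ → Fin n => ∀ m < l, Used σ (Xp r σ y) m) := by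
  intro y y' h
  refine propext (forall_congr' fun m => forall_congr' fun hm => ?_)
  exact (iff_of_eq (local_used r hm y y' h))

private theorem e4_local_G (r l : ℕ) (j : ZMod σ) :
    LocalTo n ((l + 1) * σ) (fun x : ℕ → Fin n =>
      if (∀ m < l, Used σ x m) ∧ ¬ BadRow r σ x l ∧ xrow σ x l = rot σ j (xrow σ x 0)
      then (1 : ℝ) else 0) := by
  intro x x' h
  have h1 : (∀ m < l, Used σ x m) ↔ ∀ m < l, Used σ x' m :=
    forall_congr' fun m => forall_congr' fun hm => used_congr h (by omega)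
  have h2 : BadRow r σ x l ↔ BadRow r σ x' l := badRow_congr h (by omega)
  have h3 : xrow σ x l = xrow σ x' l := xrow_congr h (by omega)
  have h4 : xrow σ x 0 = xrow σ x' 0 := xrow_congr h (by omega)
  have h5 : ((∀ m < l, Used σ x m) ∧ ¬ BadRow r σ x l ∧ xrow σ x l = rot σ j (xrow σ x 0)) ↔
      ((∀ m < l, Used σ x' m) ∧ ¬ BadRow r σ x' l ∧ xrow σ x' l = rot σ j (xrow σ x' 0)) := by
    rw [h1, h2, h3, h4]
  by_cases hc : (∀ m < l, Used σ x m) ∧ ¬ BadRow r σ x l ∧ xrow σ x l = rot σ j (xrow σ x 0)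
  · simp only [if_pos hc, if_pos (h5.1 hc)]
  · simp only [if_neg hc, if_neg (fun h' => hc (h5.2 h'))]

theorem E4a {l : ℕ} (hl : 1 ≤ l) (j : ZMod σ) :
    ExG r n (fun g => ∑ z : Row σ n,
      if Cyc r σ g z l j ∧ PrivAt r σ g z l (l - 1) then (1 : ℝ) else 0) ≤
    Pr σ n l (fun y => ∀ m < l, Used σ (Xp r σ y) m) := by
  have hn : (0 : ℝ) < (n : ℝ) ^ σ := by
    have : 0 < n := Nat.pos_of_ne_zero (NeZero.ne n)
    positivity
  have e1 := start_avg (r := r) (σ := σ) (n := n) (T := l + 1) (by omega)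
    (fun g z => if Cyc r σ g z l j ∧ PrivAt r σ g z l (l - 1) then (1 : ℝ) else 0)
  rw [e1]
  have e2 : ExGS r σ n (l + 1) (fun g s =>
      if Cyc r σ g (xrow σ (Xe r σ g s) 0) l j ∧ PrivAt r σ g (xrow σ (Xe r σ g s) 0) l (l - 1)
      then (1 : ℝ) else 0) ≤
      ExGS r σ n (l + 1) (fun g s => (fun x : ℕ → Fin n =>
        if (∀ m < l, Used σ x m) ∧ ¬ BadRow r σ x l ∧ xrow σ x l = rot σ j (xrow σ x 0)
        then (1 : ℝ) else 0) (Xe r σ g s)) := by
    refine ExG_mono fun g => Ex_mono fun s => ?_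
    by_cases hc : Cyc r σ g (xrow σ (Xe r σ g s) 0) l j ∧
        PrivAt r σ g (xrow σ (Xe r σ g s) 0) l (l - 1)
    · have hx := isExp_Xe (σ := σ) g s
      obtain ⟨h1, h2⟩ := exp_of_cyc hx hc.1
      have h3 := priv_not_bad hx hc.1 hc.2
      have h4 : xrow σ (Xe r σ g s) l = rot σ j (xrow σ (Xe r σ g s) 0) := by
        rw [h2 l le_rfl, hc.1.2.2.1]
      have h5 : (∀ m < l, Used σ (Xe r σ g s) m) ∧ ¬ BadRow r σ (Xe r σ g s) l ∧
        xrow σ (Xe r σ g s) l = rot σ j (xrow σ (Xe r σ g s) 0) := ⟨h1, h3, h4⟩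
      simp only [if_pos hc, if_pos h5]
      exact le_rfl
    · simp only [if_neg hc]
      split_ifs <;> norm_num
  have e3 := transfer (r := r) (l + 1) _ (e4_local_G (n := n) (σ := σ) r l j)
  have e4 : Ex σ n (l + 1) (fun y => (fun x : ℕ → Fin n =>
        if (∀ m < l, Used σ x m) ∧ ¬ BadRow r σ x l ∧ xrow σ x l = rot σ j (xrow σ x 0)
        then (1 : ℝ) else 0) (Xp r σ y)) ≤
      Pr σ n (l + 1) (fun y => (∀ m < l, Used σ (Xp r σ y) m) ∧
        xrow σ y l = rot σ j (xrow σ (Xp r σ y) 0)) := by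
    refine Ex_mono fun y => ?_
    by_cases hc : (∀ m < l, Used σ (Xp r σ y) m) ∧ ¬ BadRow r σ (Xp r σ y) l ∧
        xrow σ (Xp r σ y) l = rot σ j (xrow σ (Xp r σ y) 0)
    · have h1 : xrow σ y l = rot σ j (xrow σ (Xp r σ y) 0) := by
        rw [← proc_row_of_not_bad (isProc_Xp r y) hc.2.1]
        exact hc.2.2
      have h2 : (∀ m < l, Used σ (Xp r σ y) m) ∧
        xrow σ y l = rot σ j (xrow σ (Xp r σ y) 0) := ⟨hc.1, h1⟩
      simp only [if_pos hc, if_pos h2]
      exact le_rfl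
    · simp only [if_neg hc]
      split_ifs <;> norm_num
  have e5 := Pr_row_le (σ := σ) (n := n) (T := l + 1) (m := l) (Nat.lt_succ_self l)
    (A := fun y => ∀ m < l, Used σ (Xp r σ y) m) (e4_local_A r l)
    (B := fun y z => z = rot σ j (xrow σ (Xp r σ y) 0))
    (fun y y' h => by
      have := local_Xrow (σ := σ) (n := n) r (m := 0) (M := l) (by omega) y y' h
      funext z
      exact congrArg (fun w => z = rot σ j w) this) (b := 1)
    (fun y _ => by
      rw [Nat.cast_le_one]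
      refine Finset.card_le_one.2 fun a ha b hb => ?_
      simp only [Finset.mem_filter, Finset.mem_univ, true_and] at ha hb
      rw [ha, hb])
  rw [Pr_local (Nat.le_succ l) (e4_local_A r l)] at e5
  have e6 : ExGS r σ n (l + 1) (fun g s =>
      if Cyc r σ g (xrow σ (Xe r σ g s) 0) l j ∧ PrivAt r σ g (xrow σ (Xe r σ g s) 0) l (l - 1)
      then (1 : ℝ) else 0) ≤
      1 / (n : ℝ) ^ σ * Pr σ n l (fun y => ∀ m < l, Used σ (Xp r σ y) m) :=
    ((e2.trans e3.le).trans e4).trans e5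
  calc (n : ℝ) ^ σ * _ ≤ (n : ℝ) ^ σ *
        (1 / (n : ℝ) ^ σ * Pr σ n l (fun y => ∀ m < l, Used σ (Xp r σ y) m)) :=
        mul_le_mul_of_nonneg_left e6 hn.le
    _ = Pr σ n l (fun y => ∀ m < l, Used σ (Xp r σ y) m) := by
        field_simp

theorem ExG_Wt_le (L : ℝ) {η : ℝ} (hη : η < 1) (Tm : ℕ) :
    ExG r n (fun g => Wt r σ n g L η Tm) ≤
      ∑ j : ZMod σ, ∑ l ∈ (Finset.Icc 1 Tm).filter (fun l : ℕ => L < (l : ℝ) * (addOrderOf j : ℝ)),
        Pr σ n l (fun y => ∀ m < l, Used σ (Xp r σ y) m) / ((σ : ℝ) * (1 - η) * l) := by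
  have hW : ∀ g : Rule r n, Wt r σ n g L η Tm = ∑ j : ZMod σ,
      ∑ l ∈ (Finset.Icc 1 Tm).filter (fun l : ℕ => L < (l : ℝ) * (addOrderOf j : ℝ)),
        1 / ((σ : ℝ) * (1 - η) * l) * ∑ z : Row σ n,
          if Cyc r σ g z l j ∧ PrivAt r σ g z l (l - 1) then (1 : ℝ) else 0 := by
    intro g
    unfold Wt wt1
    rw [Finset.sum_comm]
    have h1 : ∀ l ∈ Finset.Icc 1 Tm, (∑ z : Row σ n, ∑ j : ZMod σ,
        if Cyc r σ g z l j ∧ PrivAt r σ g z l (l - 1) ∧ L < (l : ℝ) * (addOrderOf j : ℝ)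
        then 1 / ((σ : ℝ) * (1 - η) * l) else 0) = ∑ j : ZMod σ, ∑ z : Row σ n,
        if Cyc r σ g z l j ∧ PrivAt r σ g z l (l - 1) ∧ L < (l : ℝ) * (addOrderOf j : ℝ)
        then 1 / ((σ : ℝ) * (1 - η) * l) else 0 := fun l _ => Finset.sum_comm
    rw [Finset.sum_congr rfl h1, Finset.sum_comm]
    refine Finset.sum_congr rfl fun j _ => ?_
    rw [Finset.sum_filter]
    refine Finset.sum_congr rfl fun l _ => ?_
    by_cases hL : L < (l : ℝ) * (addOrderOf j : ℝ)
    · rw [if_pos hL, Finset.mul_sum]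
      refine Finset.sum_congr rfl fun z _ => ?_
      by_cases hc : Cyc r σ g z l j ∧ PrivAt r σ g z l (l - 1)
      · rw [if_pos hc, if_pos ⟨hc.1, hc.2, hL⟩, mul_one]
      · rw [if_neg hc, if_neg (fun h => hc ⟨h.1, h.2.1⟩), mul_zero]
    · rw [if_neg hL]
      exact Finset.sum_eq_zero fun z _ => if_neg fun h => hL h.2.2
  have hn : (0 : ℝ) < (σ : ℝ) := by
    have := sig_pos (σ := σ)
    exact_mod_cast this
  simp only [hW]
  rw [ExG_sum]
  refine Finset.sum_le_sum fun j _ => ?_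
  rw [ExG_sum]
  refine Finset.sum_le_sum fun l hl => ?_
  have hl1 : 1 ≤ l := (Finset.mem_Icc.1 (Finset.mem_filter.1 hl).1).1
  have hl2 : (0 : ℝ) < l := by exact_mod_cast hl1
  have hc : 0 ≤ 1 / ((σ : ℝ) * (1 - η) * l) := by
    have : 0 < 1 - η := by linarith
    positivity
  rw [ExG_mul]
  refine (mul_le_mul_of_nonneg_left (E4a hl1 j) hc).trans (le_of_eq ?_)
  rw [one_div, div_eq_mul_inv, mul_comm]

end CAB
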