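import Pool.Agent.Lib.MP_eab41b_pr.B.E4

/-! Row E5: exceptional long cycles (G7).

Sketch: `1[Rest g] ≤ Σ_z (1[E1 g z] + Σ_{1 ≤ l ≤ Tm, L < l σ} 1[E2 l g z])`, `E1`: `z` is `(l, j)`-cyclic for some `l > Tm`; `E2 l`: `z` is `(l, j)`-cyclic for some `j`, and `η l ≤` number of rows
`m < l` that are not private (`ord j ≤ σ`, so `L < l σ`; `0 < l` from `Cyc`). `start_avg` with `T = Tm + 1` resp. `T = l + 1`; `exp_of_cyc`: in the case `E1` the rows `0, ..., Tm` of `x = Xe g s` are used; `nonpriv_le`: in the case `E2` `η l ≤ 2 σ nBad x (l + 1)`,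
so `η / (4 σ) (l + 1) ≤ nBad x (l + 1)` as `l + 1 ≤ 2 l`. `transfer` (`local_used`, `local_nBad`). -/

set_option autoImplicit false

set_option linter.unusedSectionVars false

open scoped Classical

namespace CAB

variable {r σ n : ℕ} [NeZero n] [NeZero σ]

private theorem E5_ExGS_mono {T : ℕ} {H H' : Rule r n → (ℕ → Fin n) → ℝ}
    (h : ∀ g s, H g s ≤ H' g s) : ExGS r σ n T H ≤ ExGS r σ n T H' :=
  ExG_mono fun g => Ex_mono (h g)

private theorem E5_ind_le {P Q : Prop} (h : P → Q) :
    (if P then (1 : ℝ) else 0) ≤ if Q then 1 else 0 := by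
  by_cases hP : P
  · rw [if_pos hP, if_pos (h hP)]
  · rw [if_neg hP]
    split_ifs
    · exact zero_le_one
    · exact le_refl _

/-- the average over the first row of an event that implies the event `Q` for the exploration -/
private theorem E5_step {T : ℕ} (hT : 1 ≤ T) (E : Rule r n → Row σ n → Prop)
    (Q : (ℕ → Fin n) → Prop) (hQ : LocalTo n (T * σ) Q)
    (h : ∀ (g : Rule r n) (s x : ℕ → Fin n), IsExp r σ g s x → E g (xrow σ x 0) → Q x) :
    ExG r n (fun g => ∑ z : Row σ n, if E g z then (1 : ℝ) else 0) ≤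
      (n : ℝ) ^ σ * Pr σ n T (fun y => Q (Xp r σ y)) := by
  rw [start_avg hT (fun g z => if E g z then (1 : ℝ) else 0)]
  refine mul_le_mul_of_nonneg_left ?_ (by positivity)
  have h1 : ExGS r σ n T (fun g s => if E g (xrow σ (Xe r σ g s) 0) then (1 : ℝ) else 0) ≤
      ExGS r σ n T (fun g s => (fun x => if Q x then (1 : ℝ) else 0) (Xe r σ g s)) :=
    E5_ExGS_mono fun g s => E5_ind_le fun hE => h g s _ (isExp_Xe g s) hE
  refine h1.trans (le_of_eq ?_)
  rw [transfer T (fun x => if Q x then (1 : ℝ) else 0) (fun y y' hy => by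
    have := hQ y y' hy
    simp only [this])]
  rfl

theorem rest_le (L : ℝ) {η : ℝ} (hη : 0 < η) (Tm : ℕ) :
    ExG r n (fun g => if Rest r σ g L η Tm then (1 : ℝ) else 0) ≤
      (n : ℝ) ^ σ * (Pr σ n (Tm + 1) (fun y => ∀ m < Tm + 1, Used σ (Xp r σ y) m) +
        ∑ l ∈ (Finset.Icc 1 Tm).filter (fun l : ℕ => L < (l : ℝ) * σ),
          Pr σ n (l + 1) (fun y => η / (4 * σ) * ((l + 1 : ℕ) : ℝ) ≤
            (nBad r σ (Xp r σ y) (l + 1) : ℝ))) := by
  have hσ : (0 : ℝ) < σ := by exact_mod_cast sig_pos (σ := σ)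
  set S := (Finset.Icc 1 Tm).filter (fun l : ℕ => L < (l : ℝ) * σ) with hS
  obtain ⟨E1, hE1⟩ : ∃ E1 : Rule r n → Row σ n → Prop, ∀ g z, E1 g z ↔
      ∃ l j, Cyc r σ g z l j ∧ Tm < l := ⟨_, fun _ _ => Iff.rfl⟩
  obtain ⟨E2, hE2⟩ : ∃ E2 : ℕ → Rule r n → Row σ n → Prop, ∀ l g z, E2 l g z ↔
      ∃ j, Cyc r σ g z l j ∧
        η * l ≤ (((Finset.range l).filter fun m => ¬ PrivAt r σ g z l m).card : ℝ) :=
    ⟨_, fun _ _ _ => Iff.rfl⟩
  have hpt : ∀ g : Rule r n, (if Rest r σ g L η Tm then (1 : ℝ) else 0) ≤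
      (∑ z : Row σ n, if E1 g z then (1 : ℝ) else 0) +
        ∑ l ∈ S, ∑ z : Row σ n, if E2 l g z then (1 : ℝ) else 0 := by
    intro g
    have hn1 : 0 ≤ ∑ z : Row σ n, if E1 g z then (1 : ℝ) else 0 :=
      Finset.sum_nonneg fun z _ => by split_ifs <;> norm_num
    have hn2 : ∀ l, 0 ≤ ∑ z : Row σ n, if E2 l g z then (1 : ℝ) else 0 := fun l =>
      Finset.sum_nonneg fun z _ => by split_ifs <;> norm_num
    by_cases hR : Rest r σ g L η Tm
    · rw [if_pos hR]
      obtain ⟨z, l, j, hc, hL, h⟩ := hR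
      by_cases hl : Tm < l
      · have h1 : (1 : ℝ) ≤ ∑ z : Row σ n, if E1 g z then (1 : ℝ) else 0 := by
          have := Finset.single_le_sum (f := fun z : Row σ n => if E1 g z then (1 : ℝ) else 0)
            (fun z _ => by split_ifs <;> norm_num) (Finset.mem_univ z)
          refine le_trans ?_ this
          have hE : E1 g z := (hE1 g z).2 ⟨l, j, hc, hl⟩
          simp only [if_pos hE, le_refl]
        have h2 := Finset.sum_nonneg (s := S) fun l _ => hn2 l
        linarith
      · have h' : η * l ≤ (((Finset.range l).filter fun m => ¬ PrivAt r σ g z l m).card : ℝ) :=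
          h.resolve_left hl
        have hlS : l ∈ S := by
          rw [hS, Finset.mem_filter, Finset.mem_Icc]
          refine ⟨⟨hc.1, by omega⟩, lt_of_lt_of_le hL ?_⟩
          have ho : addOrderOf j ≤ σ := by
            have := addOrderOf_le_card_univ (x := j)
            rwa [ZMod.card] at this
          have ho' : (addOrderOf j : ℝ) ≤ σ := by exact_mod_cast ho
          exact mul_le_mul_of_nonneg_left ho' (Nat.cast_nonneg l)
        have h1 : (1 : ℝ) ≤ ∑ z : Row σ n, if E2 l g z then (1 : ℝ) else 0 := by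
          have := Finset.single_le_sum (f := fun z : Row σ n => if E2 l g z then (1 : ℝ) else 0)
            (fun z _ => by split_ifs <;> norm_num) (Finset.mem_univ z)
          refine le_trans ?_ this
          have hE : E2 l g z := (hE2 l g z).2 ⟨j, hc, h'⟩
          simp only [if_pos hE, le_refl]
        have h2 := Finset.single_le_sum (s := S)
          (f := fun l => ∑ z : Row σ n, if E2 l g z then (1 : ℝ) else 0) (fun l _ => hn2 l) hlS
        have h3 : (1 : ℝ) ≤ ∑ l ∈ S, ∑ z : Row σ n, if E2 l g z then (1 : ℝ) else 0 :=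
          h1.trans h2
        linarith
    · rw [if_neg hR]
      have h2 := Finset.sum_nonneg (s := S) fun l _ => hn2 l
      linarith
  refine (ExG_mono hpt).trans ?_
  rw [ExG_add, ExG_sum S (fun l g => ∑ z : Row σ n, if E2 l g z then (1 : ℝ) else 0), mul_add,
    Finset.mul_sum]
  refine add_le_add ?_ (Finset.sum_le_sum fun l hl => ?_)
  · refine E5_step (T := Tm + 1) (by omega) E1 (fun x => ∀ m < Tm + 1, Used σ x m) ?_ ?_
    · intro y y' hy
      refine propext (forall_congr' fun m => forall_congr' fun hm => ?_)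
      exact used_congr hy hm
    · intro g s x hx hE m hm
      obtain ⟨l, j, hc, hl⟩ := (hE1 _ _).1 hE
      exact (exp_of_cyc hx hc).1 m (by omega)
  · refine E5_step (T := l + 1) (by omega) (E2 l) (fun x => η / (4 * σ) * ((l + 1 : ℕ) : ℝ) ≤
      (nBad r σ x (l + 1) : ℝ)) ?_ ?_
    · intro y y' hy
      have : nBad r σ y (l + 1) = nBad r σ y' (l + 1) := by
        unfold nBad
        congr 1
        refine Finset.filter_congr fun m hm => ?_
        exact badRow_congr hy (Finset.mem_range.1 hm).le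
      simp only [this]
    · intro g s x hx hE
      obtain ⟨j, hc, h⟩ := (hE2 _ _ _).1 hE
      have h1 := nonpriv_le hx hc
      have h2 : (((Finset.range l).filter fun m => ¬ PrivAt r σ g (xrow σ x 0) l m).card : ℝ) ≤
          2 * σ * nBad r σ x (l + 1) := by exact_mod_cast h1
      have h3 : η * l ≤ 2 * σ * nBad r σ x (l + 1) := h.trans h2
      have hl1 : (1 : ℝ) ≤ l := by exact_mod_cast hc.1
      have h4 : η / (4 * σ) * ((l + 1 : ℕ) : ℝ) ≤ η * l / (2 * σ) := by
        rw [div_mul_eq_mul_div, div_le_div_iff₀ (by positivity) (by positivity)]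
        push_cast
        have : η * (l + 1) ≤ η * (2 * l) := mul_le_mul_of_nonneg_left (by linarith) hη.le
        nlinarith
      refine h4.trans ?_
      rw [div_le_iff₀ (by positivity)]
      linarith

end CAB
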