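import Pool.Agent.Lib.MP_eab41b_pr.B.E3b
import Pool.Agent.Lib.MP_eab41b_pr.B.E4
import Pool.Agent.Lib.MP_eab41b_pr.B.D1

/-! Row E6: inequality (A).

Sketch: for `x = Xe g s` (`isExp_Xe`). Lower bound: a long closing gives a long cycle (`cyc_of_LC`). Upper bound, pointwise with `M = σ T / L + 1 ≥ found` (`found_le`):
`1[LongCyc] ≤ 1[1 ≤ found] + (M + 1) 1[Rest] + Wt - found`: if `Rest`: the right side is `≥ M + 1 + 0 - found ≥ 1`. If not: `found ≤ Wt`; if `1 ≤ found` it is `≥ 1`; if `found = 0` and there is a long cycle: `Wt ≥ 1` (`one_le_Wt`).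
(`ExGS` is the average over `g` and `s`; the `g`-only terms are constant in `s`: `Ex_const`.) -/

set_option autoImplicit false

set_option linter.unusedSectionVars false

open scoped Classical

namespace CAB

variable {r σ n : ℕ} [NeZero n] [NeZero σ]

private theorem E6_long {g : Rule r n} {s : ℕ → Fin n} {L : ℝ} {T : ℕ}
    (h : 1 ≤ found σ L T (Xe r σ g s)) : LongCyc r σ g L := by
  unfold found at h
  obtain ⟨u, hu⟩ := Finset.card_pos.1 (Nat.lt_of_lt_of_le Nat.zero_lt_one h)
  rw [Finset.mem_filter] at hu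
  obtain ⟨t, j, _, hc, hL, _⟩ := cyc_of_LC (isExp_Xe g s) hu.2
  exact ⟨_, _, _, hc, hL⟩

theorem ineqA_lower (L : ℝ) (T : ℕ) :
    ExGS r σ n T (fun g s => if 1 ≤ found σ L T (Xe r σ g s) then (1 : ℝ) else 0) ≤
      ExG r n (fun g => if LongCyc r σ g L then (1 : ℝ) else 0) := by
  unfold ExGS
  refine ExG_mono fun g => ?_
  rw [← Ex_const (σ := σ) (n := n) T (if LongCyc r σ g L then (1 : ℝ) else 0)]
  refine Ex_mono fun s => ?_
  change (if 1 ≤ found σ L T (Xe r σ g s) then (1 : ℝ) else 0) ≤ _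
  by_cases h : 1 ≤ found σ L T (Xe r σ g s)
  · rw [if_pos h, if_pos (E6_long h)]
  · rw [if_neg h]
    split_ifs <;> norm_num

private theorem E6_point {L : ℝ} (hL : 0 < L) {η : ℝ} (hη : η < 1) (T Tm : ℕ) (g : Rule r n)
    (s : ℕ → Fin n) :
    (if LongCyc r σ g L then (1 : ℝ) else 0) + (found σ L T (Xe r σ g s) : ℝ) ≤
      (if 1 ≤ found σ L T (Xe r σ g s) then (1 : ℝ) else 0) +
        ((σ * T / L + 2) * (if Rest r σ g L η Tm then (1 : ℝ) else 0) + Wt r σ n g L η Tm) := by
  have hW := Wt_nonneg (r := r) (σ := σ) g L hη Tm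
  have ha : (if LongCyc r σ g L then (1 : ℝ) else 0) ≤ 1 := by split_ifs <;> norm_num
  have hF : (0 : ℝ) ≤ (if 1 ≤ found σ L T (Xe r σ g s) then (1 : ℝ) else 0) := by
    split_ifs <;> norm_num
  by_cases hR : Rest r σ g L η Tm
  · have hf := found_le (σ := σ) hL T (Xe r σ g s)
    rw [if_pos hR]
    linarith
  · have hf := found_le_Wt (isExp_Xe g s) hη hR T
    rw [if_neg hR, mul_zero, zero_add]
    by_cases h1 : 1 ≤ found σ L T (Xe r σ g s)
    · rw [if_pos h1]
      linarith
    · have h0 : found σ L T (Xe r σ g s) = 0 := by omega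
      rw [if_neg h1, h0]
      by_cases hc : LongCyc r σ g L
      · have := one_le_Wt hη hR hc
        rw [if_pos hc]
        push_cast
        linarith
      · rw [if_neg hc]
        push_cast
        linarith

theorem ineqA_upper {L : ℝ} (hL : 0 < L) {η : ℝ} (hη : η < 1) (T Tm : ℕ) :
    ExG r n (fun g => if LongCyc r σ g L then (1 : ℝ) else 0) ≤
      ExGS r σ n T (fun g s => if 1 ≤ found σ L T (Xe r σ g s) then (1 : ℝ) else 0) +
      (σ * T / L + 2) * ExG r n (fun g => if Rest r σ g L η Tm then (1 : ℝ) else 0) +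
      ExG r n (fun g => Wt r σ n g L η Tm) -
      ExGS r σ n T (fun g s => (found σ L T (Xe r σ g s) : ℝ)) := by
  have h1 : ∀ g : Rule r n, (if LongCyc r σ g L then (1 : ℝ) else 0) +
      Ex σ n T (fun s => (found σ L T (Xe r σ g s) : ℝ)) ≤
      Ex σ n T (fun s => if 1 ≤ found σ L T (Xe r σ g s) then (1 : ℝ) else 0) +
        ((σ * T / L + 2) * (if Rest r σ g L η Tm then (1 : ℝ) else 0) + Wt r σ n g L η Tm) := by
    intro g
    have h2 := Ex_mono (σ := σ) (n := n) (T := T) (fun s => E6_point (σ := σ) hL hη T Tm g s)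
    rw [Ex_add, Ex_add, Ex_const, Ex_const] at h2
    exact h2
  have h3 := ExG_mono h1
  rw [ExG_add, ExG_add, ExG_add, ExG_mul] at h3
  unfold ExGS
  linarith

theorem tail_le {L : ℝ} {η : ℝ} (hη : η < 1) (Tm : ℕ) :
    ExG r n (fun g => if LongCyc r σ g L then (1 : ℝ) else 0) ≤
      ExG r n (fun g => if Rest r σ g L η Tm then (1 : ℝ) else 0) +
      ExG r n (fun g => Wt r σ n g L η Tm) := by
  rw [← ExG_add]
  refine ExG_mono fun g => ?_
  have hW := Wt_nonneg (r := r) (σ := σ) g L hη Tm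
  by_cases hR : Rest r σ g L η Tm
  · rw [if_pos hR]
    split_ifs <;> linarith
  · rw [if_neg hR]
    by_cases hc : LongCyc r σ g L
    · have := one_le_Wt hη hR hc
      rw [if_pos hc]
      linarith
    · rw [if_neg hc]
      linarith

end CAB
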