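import Pool.Agent.Lib.MP_eab41b_pr.B.C3
import Pool.Agent.Lib.MP_eab41b_pr.B.D1
import Pool.Agent.Lib.MP_eab41b_pr.B.A3

/-! Row F1a: the expected number of long closings of independent rows (lower bound).

Sketch: the events `E (j, l, t)`: rows `t, ..., t + l - 1` are used, `y_{t+l} = rot j y_t`, for fixed `u = t + l` are disjoint for different `(j, l)` (used rows are pairwise not equivalent, and aperiodic), and their union over `L < l ord j` is
`LC` at `u`. `P(E) = n^{-σ} P(rows t..t+l-1 used)` (`Pr_row_ge` with `b = 1`), and `P(rows t..t+l-1 used) ≥ ∏ (1 - a_i)` by induction on `l` (`Pr_row_ge` with `b = n^σ (1 - a_i) = n^σ - (σ i + PN)`: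
`card_notnew_le`). Sum over `u < T` (`Ex_sum`, `found = Σ_u 1[LC]`). -/

set_option autoImplicit false

set_option linter.unusedSectionVars false

open scoped Classical

namespace CAB

variable {σ n : ℕ} [NeZero n] [NeZero σ]

private theorem F1a_true (T : ℕ) {E : (ℕ → Fin n) → Prop} (h : ∀ y, E y) :
    Pr σ n T E = 1 := by
  unfold Pr
  have h1 : (fun y : ℕ → Fin n => if E y then (1 : ℝ) else 0) = fun _ => 1 := by
    funext y
    rw [if_pos (h y)]
  rw [h1, Ex_const]

private theorem F1a_count (y : ℕ → Fin n) (m : ℕ) :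
    (n : ℝ) ^ σ * (1 - aa σ n m) ≤ ((Finset.univ.filter fun z : Row σ n =>
      Aper σ z ∧ ∀ m' < m, ¬ Eqv σ z (xrow σ y m')).card : ℝ) := by
  have hn : (0 : ℝ) < (n : ℝ) ^ σ := by
    have : (0 : ℝ) < n := Nat.cast_pos.2 (Nat.pos_of_ne_zero (NeZero.ne n))
    positivity
  have h1 := Finset.card_filter_add_card_filter_not (s := (Finset.univ : Finset (Row σ n)))
    (fun z : Row σ n => Aper σ z ∧ ∀ m' < m, ¬ Eqv σ z (xrow σ y m'))
  rw [Finset.card_univ, card_Row] at h1
  have h2 : ((Finset.univ.filter fun z : Row σ n =>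
      Aper σ z ∧ ∀ m' < m, ¬ Eqv σ z (xrow σ y m')).card : ℝ) +
      ((Finset.univ.filter fun z : Row σ n =>
      ¬ (Aper σ z ∧ ∀ m' < m, ¬ Eqv σ z (xrow σ y m'))).card : ℝ) = (n : ℝ) ^ σ := by
    exact_mod_cast h1
  have h3 := card_notnew_le (σ := σ) y m
  have h4 : (n : ℝ) ^ σ * (1 - aa σ n m) = (n : ℝ) ^ σ - (σ * m + PN σ n) := by
    unfold aa
    rw [mul_sub, mul_one, mul_div_cancel₀ _ hn.ne']
  rw [h4]
  linarith

theorem used_ge {T t l : ℕ} (htl : t + l ≤ T) (ha : ∀ i < T, aa σ n i ≤ 1) :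
    ∏ i ∈ Finset.Ico t (t + l), (1 - aa σ n i) ≤
      Pr σ n T (fun y => ∀ m, t ≤ m → m < t + l → Used σ y m) := by
  induction l with
  | zero =>
    rw [F1a_true T (fun y m h1 h2 => absurd h2 (by omega)), Nat.add_zero, Finset.Ico_self,
      Finset.prod_empty]
  | succ l ih =>
    have hlt : t + l < T := by omega
    have ih' := ih hlt.le
    have hn : (0 : ℝ) < (n : ℝ) ^ σ := by
      have : (0 : ℝ) < n := Nat.cast_pos.2 (Nat.pos_of_ne_zero (NeZero.ne n))
      positivity
    have hA : LocalTo n ((t + l) * σ)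
        (fun y : ℕ → Fin n => ∀ m, t ≤ m → m < t + l → Used σ y m) := by
      intro y y' hy
      refine propext ⟨fun h m h1 h2 => ?_, fun h m h1 h2 => ?_⟩
      · have := local_used' (σ := σ) (n := n) h2 y y' hy
        exact this.mp (h m h1 h2)
      · have := local_used' (σ := σ) (n := n) h2 y y' hy
        exact this.mpr (h m h1 h2)
    have hB : LocalTo n ((t + l) * σ)
        (fun (y : ℕ → Fin n) (z : Row σ n) =>
          Aper σ z ∧ ∀ m' < t + l, ¬ Eqv σ z (xrow σ y m')) := by
      intro y y' hy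
      funext z
      refine propext (and_congr_right fun _ => forall_congr' fun m' => forall_congr' fun hm' => ?_)
      rw [xrow_congr hy hm']
    have hrow := Pr_row_ge (σ := σ) hlt hA hB (b := (n : ℝ) ^ σ * (1 - aa σ n (t + l)))
      (fun y _ => (F1a_count (σ := σ) y (t + l)).trans (le_of_eq (by
        refine congrArg (fun s : Finset (Row σ n) => (s.card : ℝ)) ?_
        ext z
        simp only [Finset.mem_filter])))
    rw [mul_div_cancel_left₀ _ hn.ne'] at hrow
    rw [← Nat.add_assoc, Finset.prod_Ico_succ_top (Nat.le_add_right t l), mul_comm]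
    have h1 : 0 ≤ 1 - aa σ n (t + l) := by linarith [ha (t + l) hlt]
    refine (mul_le_mul_of_nonneg_left ih' h1).trans (hrow.trans (Pr_mono fun y hy m h2 h3 => ?_))
    rcases Nat.lt_succ_iff_lt_or_eq.1 h3 with h4 | h4
    · exact hy.1 m h2 h4
    · rw [h4]
      exact hy.2

end CAB
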