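import Pool.Agent.Lib.MP_eab41b_pr.B.C3
import Pool.Agent.Lib.MP_eab41b_pr.B.D1
import Pool.Agent.Lib.MP_eab41b_pr.B.A3
import Pool.Agent.Lib.MP_eab41b_pr.B.F1a

/-! Row F1: the expected number of long closings of independent rows (lower bound).

Sketch: the events `E (j, l, t)`: rows `t, ..., t + l - 1` are used, `y_{t+l} = rot j y_t`, for fixed `u = t + l` are disjoint for different `(j, l)` (used rows are pairwise not equivalent, and aperiodic), and their union over `L < l ord j` is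
`LC` at `u`. `P(E) = n^{-σ} P(rows t..t+l-1 used)` (`Pr_row_ge` with `b = 1`), and `P(rows t..t+l-1 used) ≥ ∏ (1 - a_i)` by induction on `l` (`Pr_row_ge` with `b = n^σ (1 - a_i) = n^σ - (σ i + PN)`:
`card_notnew_le`). Sum over `u < T` (`Ex_sum`, `found = Σ_u 1[LC]`). -/

set_option autoImplicit false

set_option linter.unusedSectionVars false

open scoped Classical

namespace CAB

variable {σ n : ℕ} [NeZero n] [NeZero σ]

/-- the rows `t, ..., t + l - 1` are used and the row `t + l` is the rotation by `j` of the row `t` -/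
private def F1E (σ : ℕ) {α : Type} (j : ZMod σ) (l t : ℕ) (y : ℕ → α) : Prop :=
  (∀ m, t ≤ m → m < t + l → Used σ y m) ∧ xrow σ y (t + l) = rot σ j (xrow σ y t)

/-- the row `z` is the rotation by `j` of the row `t` -/
private def F1B (σ : ℕ) {α : Type} (j : ZMod σ) (t : ℕ) (y : ℕ → α) (z : ZMod σ → α) : Prop :=
  z = rot σ j (xrow σ y t)

private theorem F1_uniq {α : Type} {y : ℕ → α} {j j' : ZMod σ} {l l' t t' : ℕ} (hl : 1 ≤ l) (hl' : 1 ≤ l')
    (h : F1E σ j l t y) (h' : F1E σ j' l' t' y) (hu : t + l = t' + l') : j = j' ∧ l = l' ∧ t = t' := by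
  have key : ∀ {j j' : ZMod σ} {l l' t t' : ℕ}, 1 ≤ l → 1 ≤ l' → F1E σ j l t y → F1E σ j' l' t' y →
      t + l = t' + l' → ¬ t < t' := by
    intro j j' l l' t t' hl hl' h h' hu hlt
    have h1 := h'.1 t' le_rfl (by omega)
    apply h1.2 t hlt
    have h2 := h.2
    have h3 := h'.2
    rw [← hu, h2] at h3
    exact Eqv.trans ⟨-j', rot_eq_iff.1 h3.symm⟩ (eqv_rot σ j _)
  have ht : t = t' := by
    have h1 := key hl hl' h h' hu
    have h2 := key hl' hl h' h hu.symm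
    omega
  subst ht
  have hll : l = l' := by omega
  subst hll
  refine ⟨?_, rfl, rfl⟩
  have h1 := (h.1 t le_rfl (by omega)).1
  exact h1.rot_inj (h.2.symm.trans h'.2)

private theorem F1_Pr {T t l : ℕ} (j : ZMod σ) (hl : 1 ≤ l) (htl : t + l < T) (ha : ∀ i < T, aa σ n i ≤ 1) :
    (∏ i ∈ Finset.Ico t (t + l), (1 - aa σ n i)) / (n : ℝ) ^ σ ≤ Pr σ n T (F1E σ j l t) := by
  have h1 := used_ge (σ := σ) (n := n) (t := t) (l := l) htl.le ha
  have hA : LocalTo n ((t + l) * σ) (fun y : ℕ → Fin n => ∀ m, t ≤ m → m < t + l → Used σ y m) := by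
    intro y y' hy
    refine propext (forall_congr' fun m => forall_congr' fun _ => forall_congr' fun hm => ?_)
    exact used_congr hy hm
  have hB : LocalTo n ((t + l) * σ) (fun y : ℕ → Fin n => (F1B σ j t y : Row σ n → Prop)) := by
    intro y y' hy
    funext z
    show (z = rot σ j (xrow σ y t)) = (z = rot σ j (xrow σ y' t))
    rw [xrow_congr hy (by omega : t < t + l)]
  have h2 := Pr_row_ge (σ := σ) (n := n) htl hA hB (b := 1) (by
    intro y _
    exact Nat.one_le_cast.2 (Finset.card_pos.2 ⟨rot σ j (xrow σ y t),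
      Finset.mem_filter.2 ⟨Finset.mem_univ _, rfl⟩⟩))
  refine le_trans ?_ h2
  rw [one_div, div_eq_inv_mul]
  exact mul_le_mul_of_nonneg_left h1 (by positivity)

theorem found_ge (L : ℝ) {T : ℕ} (ha : ∀ i < T, aa σ n i ≤ 1) :
    ∑ j : ZMod σ, ∑ l ∈ (Finset.Icc 1 T).filter (fun l : ℕ => L < (l : ℝ) * (addOrderOf j : ℝ)),
      ∑ t ∈ Finset.range (T - l), (∏ i ∈ Finset.Ico t (t + l), (1 - aa σ n i)) / (n : ℝ) ^ σ ≤
    Ex σ n T (fun y => (found σ L T y : ℝ)) := by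
  have h1 : ∑ j : ZMod σ, ∑ l ∈ (Finset.Icc 1 T).filter (fun l : ℕ => L < (l : ℝ) * (addOrderOf j : ℝ)),
      ∑ t ∈ Finset.range (T - l), (∏ i ∈ Finset.Ico t (t + l), (1 - aa σ n i)) / (n : ℝ) ^ σ ≤
      ∑ j : ZMod σ, ∑ l ∈ (Finset.Icc 1 T).filter (fun l : ℕ => L < (l : ℝ) * (addOrderOf j : ℝ)),
        ∑ t ∈ Finset.range (T - l), Pr σ n T (F1E σ j l t) := by
    refine Finset.sum_le_sum fun j _ => Finset.sum_le_sum fun l hl => Finset.sum_le_sum fun t ht => ?_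
    rw [Finset.mem_filter, Finset.mem_Icc] at hl
    rw [Finset.mem_range] at ht
    exact F1_Pr j hl.1.1 (by omega) ha
  refine h1.trans ?_
  have h2 : ∑ j : ZMod σ, ∑ l ∈ (Finset.Icc 1 T).filter (fun l : ℕ => L < (l : ℝ) * (addOrderOf j : ℝ)),
      ∑ t ∈ Finset.range (T - l), Pr σ n T (F1E σ j l t) =
      Ex σ n T (fun y => ∑ j : ZMod σ,
        ∑ l ∈ (Finset.Icc 1 T).filter (fun l : ℕ => L < (l : ℝ) * (addOrderOf j : ℝ)),
          ∑ t ∈ Finset.range (T - l), if F1E σ j l t y then (1 : ℝ) else 0) := by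
    rw [Ex_sum]
    refine Finset.sum_congr rfl fun j _ => ?_
    rw [Ex_sum]
    refine Finset.sum_congr rfl fun l _ => ?_
    rw [Ex_sum]
    rfl
  rw [h2]
  refine Ex_mono fun y => ?_
  rw [Finset.sum_congr rfl fun j _ => Finset.sum_sigma' _ _ _, Finset.sum_sigma', Finset.sum_boole]
  unfold found
  refine Nat.cast_le.2 (Finset.card_le_card_of_injOn (fun p => p.2.2 + p.2.1) ?_ ?_)
  · rintro ⟨j, l, t⟩ hp
    rw [Finset.mem_coe, Finset.mem_filter, Finset.mem_sigma, Finset.mem_sigma, Finset.mem_filter,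
      Finset.mem_Icc, Finset.mem_range] at hp
    obtain ⟨⟨_, ⟨⟨hl1, hl2⟩, hl3⟩, ht⟩, hE⟩ := hp
    simp only at hl1 hl2 hl3 ht hE
    rw [Finset.mem_coe, Finset.mem_filter, Finset.mem_range]
    refine ⟨by simp only; omega, t, j, by simp only; omega, hE.2, hE.1, ?_⟩
    simp only
    rw [Nat.add_sub_cancel_left]
    exact hl3
  · rintro ⟨j, l, t⟩ hp ⟨j', l', t'⟩ hp' hu
    rw [Finset.mem_coe, Finset.mem_filter, Finset.mem_sigma, Finset.mem_sigma, Finset.mem_filter,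
      Finset.mem_Icc, Finset.mem_range] at hp hp'
    obtain ⟨⟨_, ⟨⟨hl1, hl2⟩, hl3⟩, ht⟩, hE⟩ := hp
    obtain ⟨⟨_, ⟨⟨hl1', hl2'⟩, hl3'⟩, ht'⟩, hE'⟩ := hp'
    simp only at hl1 hl2 hl3 ht hE hl1' hl2' hl3' ht' hE' hu
    obtain ⟨rfl, rfl, rfl⟩ := F1_uniq hl1 hl1' hE hE' hu
    rfl

end CAB
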