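import Pool.Agent.Lib.MP_eab41b_pr.B.C3
import Pool.Agent.Lib.MP_eab41b_pr.B.D1
import Pool.Agent.Lib.MP_eab41b_pr.B.A3

/-! Row F2a: comparison with independent hazards (martingale).

Sketch: for `u ≤ T` let `s_u(y)` be the least `s ≤ u` such that the rows `s, ..., u - 1` are used (the start of the current trajectory), `N_u` the event that there is no long closing `< u`, `M_u = E[1_{N_u} vv L T (T - u) s_u]`. Then `M_T = P(found = 0)`, `M_0 = vv L T T 0`. Given the rows `< u` (resample the row `u`):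
the row `u` is used iff it is new: `n^σ (1 - h)` rows, `σ d + PN = n^σ h`, where `d ≤ u` is the number of used rows `< u` (`d = u - e`, `e` = number of rows `< u` that are not used); then `s_{u+1} = s_u` and there is no closing. The row `u` is a long closing
iff `y_u = rot j y_{u-l}` for one of the `lam L (u - s_u)` pairs `(l, j)`, `l ≤ u - s_u`, `L < l ord j` (all these rows are different). Otherwise `s_{u+1} = u + 1`. With `V = vv L T (T - u - 1)`: `M_{u+1} = E[1_{N_u} ((1 - h) V(s_u) + (h - lam/n^σ) V(u + 1))]`, so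
`|M_{u+1} - M_u| ≤ E|a_u - h| ≤ (σ / n^σ) E e` (as `0 ≤ V ≤ 1`: `vv_mem`), and `E e = Σ_{i<u} P(row i not used) ≤ Σ_{i<u} a_i ≤ T a_T` (`card_notnew_le`). (The number of distinct classes of the aperiodic rows `< u` is the number `d` of used rows.) -/

set_option autoImplicit false

set_option linter.unusedSectionVars false

open scoped Classical

namespace CAB

variable {σ n : ℕ} [NeZero n] [NeZero σ]

private theorem F2a_pos : (0 : ℝ) < (n : ℝ) ^ σ :=
  pow_pos (Nat.cast_pos.2 (Nat.pos_of_ne_zero (NeZero.ne n))) σ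

theorem aa_mono {i i' : ℕ} (h : i ≤ i') : aa σ n i ≤ aa σ n i' := by
  unfold aa
  apply div_le_div_of_nonneg_right _ (F2a_pos (σ := σ) (n := n)).le
  have h1 : (i : ℝ) ≤ i' := by exact_mod_cast h
  have h2 : (0 : ℝ) ≤ σ := Nat.cast_nonneg σ
  have h3 := mul_le_mul_of_nonneg_left h1 h2
  linarith

theorem aa_nonneg (i : ℕ) : 0 ≤ aa σ n i := by
  unfold aa
  have := F2a_pos (σ := σ) (n := n)
  positivity

/-- the definition of `lam` with natural numbers `l` -/
theorem lam_eq (L : ℝ) (b : ℕ) : lam σ L b = ∑ j : ZMod σ,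
    ((Finset.Icc 1 b).filter fun l : ℕ => L < (l : ℝ) * (addOrderOf j : ℝ)).card := by
  unfold lam
  refine Finset.sum_congr rfl fun j _ => ?_
  first
  | rfl
  | (symm
     refine Finset.card_nbij (fun l : ℕ => (l : ℝ)) ?_ ?_ ?_
     · intro l hl
       have hl' := Finset.mem_filter.1 hl
       have h1 : ((l : ℕ) : ℝ) ∈ (Finset.Icc 1 b).sup (fun a : ℕ => ({(a : ℝ)} : Finset ℝ)) :=
         Finset.mem_sup.2 ⟨l, hl'.1, Finset.mem_singleton_self _⟩
       exact Finset.mem_filter.2 ⟨h1, hl'.2⟩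
     · intro l _ l' _ h
       exact Nat.cast_injective h
     · intro x hx
       have hx' := Finset.mem_filter.1 (Finset.mem_coe.1 hx)
       have h1 : x ∈ (Finset.Icc 1 b).sup (fun a : ℕ => ({(a : ℝ)} : Finset ℝ)) := hx'.1
       obtain ⟨l, hl, hlx⟩ := Finset.mem_sup.1 h1
       rw [Finset.mem_singleton] at hlx
       subst hlx
       exact ⟨l, Finset.mem_coe.2 (Finset.mem_filter.2 ⟨hl, hx'.2⟩), rfl⟩)

theorem lam_le (L : ℝ) (b : ℕ) : lam σ L b ≤ σ * b := by
  rw [lam_eq]
  have h1 : ∀ j ∈ (Finset.univ : Finset (ZMod σ)),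
      ((Finset.Icc 1 b).filter fun l : ℕ => L < (l : ℝ) * (addOrderOf j : ℝ)).card ≤ b := by
    intro j _
    refine (Finset.card_filter_le _ _).trans ?_
    rw [Nat.card_Icc]
    omega
  refine (Finset.sum_le_sum h1).trans ?_
  rw [Finset.sum_const, Finset.card_univ, ZMod.card, smul_eq_mul]

private theorem F2a_lam (L : ℝ) (i s : ℕ) :
    (lam σ L (i - s) : ℝ) / (n : ℝ) ^ σ ≤ aa σ n i := by
  unfold aa
  apply div_le_div_of_nonneg_right _ (F2a_pos (σ := σ) (n := n)).le
  have h1 : lam σ L (i - s) ≤ σ * i := (lam_le L (i - s)).trans (Nat.mul_le_mul_left σ (Nat.sub_le i s))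
  have h2 : (lam σ L (i - s) : ℝ) ≤ (σ : ℝ) * i := by exact_mod_cast h1
  have h3 : (0 : ℝ) ≤ PN σ n := Nat.cast_nonneg _
  linarith

theorem vv_mem {L : ℝ} {T : ℕ} (ha : ∀ i < T, aa σ n i ≤ 1) {k s : ℕ} (hk : k ≤ T) :
    0 ≤ vv σ n L T k s ∧ vv σ n L T k s ≤ 1 := by
  induction k generalizing s with
  | zero =>
    rw [vv]
    norm_num
  | succ k ih =>
    obtain ⟨h1, h2⟩ := ih (s := s) (by omega)
    obtain ⟨h3, h4⟩ := ih (s := T - (k + 1) + 1) (by omega)
    have h5 := ha (T - (k + 1)) (by omega)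
    have h6 := F2a_lam (σ := σ) (n := n) L (T - (k + 1)) s
    have h7 : (0 : ℝ) ≤ (lam σ L (T - (k + 1) - s) : ℝ) / (n : ℝ) ^ σ := by
      have := F2a_pos (σ := σ) (n := n)
      positivity
    rw [vv]
    refine ⟨?_, ?_⟩
    · have h8 := mul_nonneg (sub_nonneg.2 h5) h1
      have h9 := mul_nonneg (sub_nonneg.2 h6) h3
      linarith
    · have h8 := mul_le_mul_of_nonneg_left h2 (sub_nonneg.2 h5)
      have h9 := mul_le_mul_of_nonneg_left h4 (sub_nonneg.2 h6)
      linarith

end CAB
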