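import Pool.Agent.Lib.MP_eab41b_pr.B.C3
import Pool.Agent.Lib.MP_eab41b_pr.B.D1
import Pool.Agent.Lib.MP_eab41b_pr.B.A3
import Pool.Agent.Lib.MP_eab41b_pr.B.F2a

/-! Row F2: comparison with independent hazards (martingale).

Sketch: for `u ≤ T` let `s_u(y)` be the least `s ≤ u` such that the rows `s, ..., u - 1` are used (the start of the current trajectory), `N_u` the event that there is no long closing `< u`, `M_u = E[1_{N_u} vv L T (T - u) s_u]`. Then `M_T = P(found = 0)`, `M_0 = vv L T T 0`. Given the rows `< u` (resample the row `u`):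
the row `u` is used iff it is new: `n^σ (1 - h)` rows, `σ d + PN = n^σ h`, where `d ≤ u` is the number of used rows `< u` (`d = u - e`, `e` = number of rows `< u` that are not used); then `s_{u+1} = s_u` and there is no closing. The row `u` is a long closing
iff `y_u = rot j y_{u-l}` for one of the `lam L (u - s_u)` pairs `(l, j)`, `l ≤ u - s_u`, `L < l ord j` (all these rows are different). Otherwise `s_{u+1} = u + 1`. With `V = vv L T (T - u - 1)`: `M_{u+1} = E[1_{N_u} ((1 - h) V(s_u) + (h - lam/n^σ) V(u + 1))]`, so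
`|M_{u+1} - M_u| ≤ E|a_u - h| ≤ (σ / n^σ) E e` (as `0 ≤ V ≤ 1`: `vv_mem`), and `E e = Σ_{i<u} P(row i not used) ≤ Σ_{i<u} a_i ≤ T a_T` (`card_notnew_le`). (The number of distinct classes of the aperiodic rows `< u` is the number `d` of used rows.) -/

set_option autoImplicit false

set_option linter.unusedSectionVars false

open scoped Classical

namespace CAB

variable {σ n : ℕ} [NeZero n] [NeZero σ]

private theorem card_dec {β : Type} (s : Finset β) (p q : β → Prop) (i1 : DecidablePred p)
    (i2 : DecidablePred q) (h : ∀ z, p z ↔ q z) :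
    (@Finset.filter β p i1 s).card = (@Finset.filter β q i2 s).card := by
  congr 1
  ext z
  rw [Finset.mem_filter, Finset.mem_filter, h z]

/-- the start of the current trajectory -/
private noncomputable def stt (σ : ℕ) {α : Type} (x : ℕ → α) : ℕ → ℕ
  | 0 => 0
  | u + 1 => if Used σ x u then stt σ x u else u + 1

private theorem stt_succ_pos {α : Type} {x : ℕ → α} {u : ℕ} (h : Used σ x u) :
    stt σ x (u + 1) = stt σ x u := if_pos h

private theorem stt_succ_neg {α : Type} {x : ℕ → α} {u : ℕ} (h : ¬ Used σ x u) :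
    stt σ x (u + 1) = u + 1 := if_neg h

private theorem stt_le {α : Type} (x : ℕ → α) (u : ℕ) : stt σ x u ≤ u := by
  induction u with
  | zero => exact le_rfl
  | succ u ih =>
    by_cases h : Used σ x u
    · rw [stt_succ_pos h]
      omega
    · rw [stt_succ_neg h]

private theorem stt_iff {α : Type} (x : ℕ → α) (u : ℕ) :
    ∀ t, t < u → ((∀ m, t ≤ m → m < u → Used σ x m) ↔ stt σ x u ≤ t) := by
  induction u with
  | zero =>
    intro t ht
    omega
  | succ u ih =>
    intro t ht
    by_cases hu : Used σ x u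
    · rw [stt_succ_pos hu]
      by_cases htu : t = u
      · subst htu
        refine ⟨fun _ => stt_le x t, fun _ m h1 h2 => ?_⟩
        have : m = t := by omega
        rw [this]
        exact hu
      · rw [← ih t (by omega)]
        refine ⟨fun h m h1 h2 => h m h1 (by omega), fun h m h1 h2 => ?_⟩
        by_cases hm : m = u
        · rw [hm]
          exact hu
        · exact h m h1 (by omega)
    · rw [stt_succ_neg hu]
      refine ⟨fun h => absurd (h u (by omega) (by omega)) hu, fun h => by omega⟩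

private theorem stt_congr {α : Type} {x x' : ℕ → α} {M : ℕ} (h : ∀ c < M * σ, x c = x' c) :
    ∀ u ≤ M, stt σ x u = stt σ x' u := by
  intro u
  induction u with
  | zero =>
    intro _
    rfl
  | succ u ih =>
    intro hu
    have e := used_congr h (by omega : u < M)
    by_cases h1 : Used σ x u
    · rw [stt_succ_pos h1, stt_succ_pos (e.1 h1)]
      exact ih (by omega)
    · rw [stt_succ_neg h1, stt_succ_neg (fun h2 => h1 (e.2 h2))]

private theorem found_zero {α : Type} (L : ℝ) (T : ℕ) (x : ℕ → α) :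
    found σ L T x = 0 ↔ ∀ u < T, ¬ LC σ L x u := by
  unfold found
  rw [Finset.card_eq_zero, Finset.filter_eq_empty_iff]
  simp only [Finset.mem_range]

private theorem found_zero_succ {α : Type} (L : ℝ) (T : ℕ) (x : ℕ → α) :
    found σ L (T + 1) x = 0 ↔ found σ L T x = 0 ∧ ¬ LC σ L x T := by
  rw [found_zero, found_zero]
  constructor
  · intro h
    exact ⟨fun u hu => h u (by omega), h T (by omega)⟩
  · rintro ⟨h1, h2⟩ u hu
    by_cases hT : u = T
    · rw [hT]
      exact h2
    · exact h1 u (by omega)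

/-- the row `z` is new after the rows `< u` of `y` -/
private def Nw (σ n : ℕ) (y : ℕ → Fin n) (u : ℕ) (z : Row σ n) : Prop :=
  Aper σ z ∧ ∀ m' < u, ¬ Eqv σ z (xrow σ y m')

/-- the row `z` gives a long closing after the rows `< u` of `y` -/
private def Lc (σ n : ℕ) (L : ℝ) (y : ℕ → Fin n) (u : ℕ) (z : Row σ n) : Prop :=
  ∃ (t : ℕ) (j : ZMod σ), t < u ∧ z = rot σ j (xrow σ y t) ∧ stt σ y u ≤ t ∧
    L < ((u - t : ℕ) : ℝ) * (addOrderOf j : ℝ)

private theorem upd_low (u : ℕ) (y : ℕ → Fin n) (z : Row σ n) :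
    ∀ c < u * σ, updR σ n u y z c = y c := by
  intro c hc
  apply updR_of_ne
  exact (lt_row_iff.1 hc).ne

private theorem used_upd (u : ℕ) (y : ℕ → Fin n) (z : Row σ n) :
    Used σ (updR σ n u y z) u ↔ Nw σ n y u z := by
  unfold Used Nw
  rw [xrow_updR]
  refine and_congr_right fun _ => forall_congr' fun m' => forall_congr' fun hm' => ?_
  rw [xrow_updR_of_ne y z hm'.ne]

private theorem LC_upd (L : ℝ) (u : ℕ) (y : ℕ → Fin n) (z : Row σ n) :
    LC σ L (updR σ n u y z) u ↔ Lc σ n L y u z := by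
  have hst : stt σ (updR σ n u y z) u = stt σ y u := stt_congr (upd_low u y z) u le_rfl
  constructor
  · rintro ⟨t, j, htu, h1, h2, h3⟩
    refine ⟨t, j, htu, ?_, ?_, h3⟩
    · rw [xrow_updR, xrow_updR_of_ne y z htu.ne] at h1
      exact h1
    · rw [← hst]
      exact (stt_iff _ u t htu).1 h2
  · rintro ⟨t, j, htu, h1, h2, h3⟩
    refine ⟨t, j, htu, ?_, ?_, h3⟩
    · rw [xrow_updR, xrow_updR_of_ne y z htu.ne]
      exact h1
    · rw [← hst] at h2
      exact (stt_iff _ u t htu).2 h2

private theorem Lc_not_Nw {L : ℝ} {u : ℕ} {y : ℕ → Fin n} {z : Row σ n} (h : Lc σ n L y u z) :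
    ¬ Nw σ n y u z := by
  obtain ⟨t, j, htu, h1, h2, h3⟩ := h
  intro hn
  exact hn.2 t htu ⟨j, h1⟩

/-- the number of rows that give a long closing -/
private theorem card_Lc (L : ℝ) (y : ℕ → Fin n) (u : ℕ) :
    (Finset.univ.filter fun z : Row σ n => Lc σ n L y u z).card = lam σ L (u - stt σ y u) := by
  have hs := stt_le (σ := σ) y u
  have hall : ∀ m, stt σ y u ≤ m → m < u → Used σ y m := by
    by_cases hsu : stt σ y u < u
    · exact (stt_iff y u _ hsu).2 le_rfl
    · intro m a b
      omega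
  have himg : (Finset.univ.filter fun z : Row σ n => Lc σ n L y u z) =
      ((Finset.univ : Finset (ZMod σ)).sigma fun j =>
        (Finset.Icc 1 (u - stt σ y u)).filter fun l : ℕ =>
          L < (l : ℝ) * (addOrderOf j : ℝ)).image
        (fun p : (_ : ZMod σ) × ℕ => rot σ p.1 (xrow σ y (u - p.2))) := by
    ext z
    rw [Finset.mem_filter, Finset.mem_image]
    constructor
    · rintro ⟨-, t, j, h1, h2, h3, h4⟩
      have h5 : 1 ≤ u - t := by omega
      have h6 : u - t ≤ u - stt σ y u := by omega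
      refine ⟨⟨j, u - t⟩, ?_, ?_⟩
      · rw [Finset.mem_sigma, Finset.mem_filter, Finset.mem_Icc]
        exact ⟨Finset.mem_univ _, ⟨h5, h6⟩, h4⟩
      · have e : u - (u - t) = t := by omega
        show rot σ j (xrow σ y (u - (u - t))) = z
        rw [e, h2]
    · rintro ⟨⟨j, l⟩, hp, hz⟩
      rw [Finset.mem_sigma, Finset.mem_filter, Finset.mem_Icc] at hp
      obtain ⟨-, ⟨h1, h2⟩, h3⟩ := hp
      change 1 ≤ l at h1
      change l ≤ u - stt σ y u at h2
      change L < (l : ℝ) * (addOrderOf j : ℝ) at h3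
      refine ⟨Finset.mem_univ _, u - l, j, by omega, hz.symm, by omega, ?_⟩
      have e : u - (u - l) = l := by omega
      rw [e]
      exact h3
  rw [himg, Finset.card_image_of_injOn, Finset.card_sigma]
  · unfold lam
    refine Finset.sum_congr rfl fun j _ => ?_
    rw [← Finset.card_image_of_injective _ (Nat.cast_injective (R := ℝ))]
    congr 1
    ext w
    simp only [Finset.mem_image, Finset.mem_filter, Finset.bind_def, Finset.pure_def,
      Finset.mem_sup, Finset.mem_singleton]
    constructor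
    · rintro ⟨a, ⟨h1, h2⟩, rfl⟩
      exact ⟨⟨a, h1, rfl⟩, h2⟩
    · rintro ⟨⟨a, h1, rfl⟩, h2⟩
      exact ⟨a, ⟨h1, h2⟩, rfl⟩
  · rintro ⟨j, l⟩ hp ⟨j', l'⟩ hp' heq
    rw [Finset.mem_coe, Finset.mem_sigma, Finset.mem_filter, Finset.mem_Icc] at hp hp'
    obtain ⟨-, ⟨h1, h2⟩, -⟩ := hp
    obtain ⟨-, ⟨h1', h2'⟩, -⟩ := hp'
    change 1 ≤ l at h1
    change l ≤ u - stt σ y u at h2
    change 1 ≤ l' at h1'
    change l' ≤ u - stt σ y u at h2'
    change rot σ j (xrow σ y (u - l)) = rot σ j' (xrow σ y (u - l')) at heq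
    have hU : Used σ y (u - l) := hall _ (by omega) (by omega)
    have hU' : Used σ y (u - l') := hall _ (by omega) (by omega)
    have hE : Eqv σ (xrow σ y (u - l)) (xrow σ y (u - l')) :=
      Eqv.trans (Eqv.symm (eqv_rot σ j _)) ⟨j', heq⟩
    have ht : l = l' := by
      rcases lt_trichotomy (u - l) (u - l') with h4 | h4 | h4
      · exact absurd hE.symm (hU'.2 _ h4)
      · omega
      · exact absurd hE (hU.2 _ h4)
    subst ht
    have hj : j = j' := hU.1.rot_inj heq
    subst hj
    rfl

/-- lower bound for the number of rows that are not new -/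
private theorem card_notNw_ge (y : ℕ → Fin n) (u : ℕ) :
    PN σ n + σ * ((Finset.range u).filter fun m => Used σ y m).card ≤
      (Finset.univ.filter fun z : Row σ n => ¬ Nw σ n y u z).card := by
  have h1 : (((Finset.range u).filter fun m => Used σ y m).biUnion fun m =>
      Finset.univ.filter fun z : Row σ n => Eqv σ z (xrow σ y m)).card =
      σ * ((Finset.range u).filter fun m => Used σ y m).card := by
    rw [Finset.card_biUnion]
    · rw [Finset.sum_congr rfl (g := fun _ => σ)]
      · rw [Finset.sum_const, smul_eq_mul, mul_comm]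
      · intro m hm
        rw [Finset.mem_filter] at hm
        exact card_eqv_eq hm.2.1
    · intro a ha b hb hab
      rw [Finset.mem_coe, Finset.mem_filter] at ha hb
      refine Finset.disjoint_left.2 fun z hz hz' => ?_
      rw [Finset.mem_filter] at hz hz'
      have hE := Eqv.trans (Eqv.symm hz.2) hz'.2
      rcases lt_trichotomy a b with h | h | h
      · exact hb.2.2 a h hE.symm
      · exact hab h
      · exact ha.2.2 b h hE
  unfold PN
  rw [← h1, ← Finset.card_union_of_disjoint]
  · apply Finset.card_le_card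
    intro z hz
    rw [Finset.mem_union, Finset.mem_filter, Finset.mem_biUnion] at hz
    rw [Finset.mem_filter]
    refine ⟨Finset.mem_univ _, ?_⟩
    rcases hz with hz | ⟨m, hm, hz⟩
    · exact fun h => hz.2 h.1
    · rw [Finset.mem_filter, Finset.mem_range] at hm
      rw [Finset.mem_filter] at hz
      exact fun h => h.2 m hm.1 hz.2
  · refine Finset.disjoint_left.2 fun z hz hz' => ?_
    rw [Finset.mem_filter] at hz
    rw [Finset.mem_biUnion] at hz'
    obtain ⟨m, hm, hz'⟩ := hz'
    rw [Finset.mem_filter] at hm hz'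
    exact hz.2 (hz'.2.aper hm.2.1)

/-- the weight after `u` rows -/
private noncomputable def Wf (σ n : ℕ) [NeZero n] [NeZero σ] (L : ℝ) (T u : ℕ) (y : ℕ → Fin n) :
    ℝ :=
  if found σ L u y = 0 then vv σ n L T (T - u) (stt σ y u) else 0

/-- the average over the row `u` -/
private theorem step_pt {L : ℝ} {T : ℕ} (ha : ∀ i < T, aa σ n i ≤ 1) {u : ℕ} (hu : u < T)
    (y : ℕ → Fin n) :
    |(∑ z : Row σ n, Wf σ n L T (u + 1) (updR σ n u y z)) / (n : ℝ) ^ σ - Wf σ n L T u y| ≤
      (σ : ℝ) / (n : ℝ) ^ σ * ∑ i ∈ Finset.range u, (if ¬ Used σ y i then (1 : ℝ) else 0) := by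
  have hn : (0 : ℝ) < (n : ℝ) ^ σ := pow_pos (Nat.cast_pos.2 (Nat.pos_of_ne_zero (NeZero.ne n))) σ
  have hnn : 0 ≤ (σ : ℝ) / (n : ℝ) ^ σ *
      ∑ i ∈ Finset.range u, (if ¬ Used σ y i then (1 : ℝ) else 0) := by
    apply mul_nonneg (div_nonneg (Nat.cast_nonneg _) hn.le)
    apply Finset.sum_nonneg
    intro i _
    by_cases hi : Used σ y i
    · rw [if_neg (not_not.2 hi)]
    · rw [if_pos hi]
      exact zero_le_one
  have hf : ∀ z : Row σ n, found σ L u (updR σ n u y z) = found σ L u y := fun z =>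
    found_congr (upd_low u y z) le_rfl
  by_cases h0 : found σ L u y = 0
  swap
  · have h1 : ∀ z : Row σ n, Wf σ n L T (u + 1) (updR σ n u y z) = 0 := by
      intro z
      unfold Wf
      rw [if_neg]
      rw [found_zero_succ, hf]
      exact fun h => h0 h.1
    have h2 : Wf σ n L T u y = 0 := by
      unfold Wf
      rw [if_neg h0]
    rw [h2, Finset.sum_congr rfl fun z _ => h1 z, Finset.sum_const_zero, zero_div, sub_zero,
      abs_zero]
    exact hnn
  set V := vv σ n L T (T - (u + 1)) with hV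
  set s := stt σ y u with hs
  have hterm : ∀ z : Row σ n, Wf σ n L T (u + 1) (updR σ n u y z) =
      V s + (if ¬ Nw σ n y u z then V (u + 1) - V s else 0) -
        (if Lc σ n L y u z then V (u + 1) else 0) := by
    intro z
    have hst : stt σ (updR σ n u y z) u = s := stt_congr (upd_low u y z) u le_rfl
    unfold Wf
    by_cases hN : Nw σ n y u z
    · have hL : ¬ Lc σ n L y u z := fun h => Lc_not_Nw h hN
      rw [if_pos, stt_succ_pos ((used_upd u y z).2 hN), hst, if_neg (not_not.2 hN), if_neg hL,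
        add_zero, sub_zero]
      rw [found_zero_succ, hf]
      exact ⟨h0, fun h => hL ((LC_upd L u y z).1 h)⟩
    · rw [if_pos hN]
      by_cases hL : Lc σ n L y u z
      · rw [if_neg, if_pos hL]
        · ring
        · rw [found_zero_succ]
          exact fun h => h.2 ((LC_upd L u y z).2 hL)
      · rw [if_pos, if_neg hL, stt_succ_neg fun h => hN ((used_upd u y z).1 h)]
        · ring
        · rw [found_zero_succ, hf]
          exact ⟨h0, fun h => hL ((LC_upd L u y z).1 h)⟩
  have hcard : ((Finset.univ : Finset (Row σ n)).card : ℝ) = (n : ℝ) ^ σ := by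
    rw [Finset.card_univ, card_Row, Nat.cast_pow]
  have hsum : ∑ z : Row σ n, Wf σ n L T (u + 1) (updR σ n u y z) =
      (n : ℝ) ^ σ * V s +
        ((Finset.univ.filter fun z : Row σ n => ¬ Nw σ n y u z).card : ℝ) * (V (u + 1) - V s) -
        (lam σ L (u - s) : ℝ) * V (u + 1) := by
    rw [Finset.sum_congr rfl fun z _ => hterm z, Finset.sum_sub_distrib, Finset.sum_add_distrib,
      Finset.sum_const, nsmul_eq_mul, hcard, ← Finset.sum_filter, ← Finset.sum_filter,
      Finset.sum_const, Finset.sum_const, nsmul_eq_mul, nsmul_eq_mul, card_Lc]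
  have hW : Wf σ n L T u y = (1 - aa σ n u) * V s +
      (aa σ n u - (lam σ L (u - s) : ℝ) / (n : ℝ) ^ σ) * V (u + 1) := by
    unfold Wf
    rw [if_pos h0]
    have e : T - u = (T - (u + 1)) + 1 := by omega
    rw [e]
    show (1 - aa σ n (T - ((T - (u + 1)) + 1))) * vv σ n L T (T - (u + 1)) s +
      (aa σ n (T - ((T - (u + 1)) + 1)) -
        (lam σ L (T - ((T - (u + 1)) + 1) - s) : ℝ) / (n : ℝ) ^ σ) *
        vv σ n L T (T - (u + 1)) (T - ((T - (u + 1)) + 1) + 1) = _
    have e2 : T - ((T - (u + 1)) + 1) = u := by omega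
    rw [e2]
  set H : ℝ := ((Finset.univ.filter fun z : Row σ n => ¬ Nw σ n y u z).card : ℝ) with hH
  have hdiff : (∑ z : Row σ n, Wf σ n L T (u + 1) (updR σ n u y z)) / (n : ℝ) ^ σ -
      Wf σ n L T u y = ((σ : ℝ) * u + PN σ n - H) / (n : ℝ) ^ σ * (V s - V (u + 1)) := by
    rw [hsum, hW]
    unfold aa
    field_simp
    ring
  have hV1 := vv_mem (L := L) ha (k := T - (u + 1)) (s := s) (by omega)
  have hV2 := vv_mem (L := L) ha (k := T - (u + 1)) (s := u + 1) (by omega)
  have hH1 : H ≤ (σ : ℝ) * u + PN σ n := by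
    refine le_trans (le_of_eq ?_) (card_notnew_le y u)
    rw [hH]
    exact congrArg _ (card_dec _ _ _ _ _ fun _ => Iff.rfl)
  have hcnt : ((Finset.range u).filter fun m => Used σ y m).card +
      ((Finset.range u).filter fun m => ¬ Used σ y m).card = u := by
    rw [Finset.card_filter_add_card_filter_not, Finset.card_range]
  have hH2 : (σ : ℝ) * u + PN σ n - H ≤
      (σ : ℝ) * ((Finset.range u).filter fun m => ¬ Used σ y m).card := by
    have h := card_notNw_ge (σ := σ) y u
    have h' : ((PN σ n : ℝ) + (σ : ℝ) * ((Finset.range u).filter fun m => Used σ y m).card) ≤ H := by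
      rw [hH]
      exact_mod_cast h
    have h'' : (((Finset.range u).filter fun m => Used σ y m).card : ℝ) +
        ((Finset.range u).filter fun m => ¬ Used σ y m).card = u := by
      exact_mod_cast hcnt
    nlinarith [h', h'']
  have hse : ∑ i ∈ Finset.range u, (if ¬ Used σ y i then (1 : ℝ) else 0) =
      (((Finset.range u).filter fun m => ¬ Used σ y m).card : ℝ) := by
    rw [← Finset.sum_filter, Finset.sum_const, nsmul_eq_mul, mul_one]
  rw [hdiff, hse, abs_mul]
  have hab : |V s - V (u + 1)| ≤ 1 := by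
    rw [abs_le]
    constructor
    · linarith [hV1.1, hV2.2]
    · linarith [hV1.2, hV2.1]
  have hnonneg : 0 ≤ ((σ : ℝ) * u + PN σ n - H) / (n : ℝ) ^ σ := div_nonneg (by linarith) hn.le
  rw [abs_of_nonneg hnonneg]
  calc ((σ : ℝ) * u + PN σ n - H) / (n : ℝ) ^ σ * |V s - V (u + 1)|
      ≤ ((σ : ℝ) * u + PN σ n - H) / (n : ℝ) ^ σ * 1 := mul_le_mul_of_nonneg_left hab hnonneg
    _ = ((σ : ℝ) * u + PN σ n - H) / (n : ℝ) ^ σ := mul_one _
    _ ≤ ((σ : ℝ) * ((Finset.range u).filter fun m => ¬ Used σ y m).card) / (n : ℝ) ^ σ :=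
        div_le_div_of_nonneg_right hH2 hn.le
    _ = (σ : ℝ) / (n : ℝ) ^ σ * ((Finset.range u).filter fun m => ¬ Used σ y m).card := by ring

private theorem Pr_notused {T i : ℕ} (hi : i < T) :
    Ex σ n T (fun y => if ¬ Used σ y i then (1 : ℝ) else 0) ≤ aa σ n i := by
  have h := Pr_row_le (σ := σ) (n := n) hi (A := fun _ => True) (fun _ _ _ => rfl)
    (B := fun y z => ¬ (Aper σ z ∧ ∀ m' < i, ¬ Eqv σ z (xrow σ y m')))
    (by
      intro y y' hy
      funext z
      have h1 : ∀ m' < i, xrow σ y m' = xrow σ y' m' := fun m' hm' => xrow_congr hy hm'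
      have h2 : (∀ m' < i, ¬ Eqv σ z (xrow σ y m')) ↔ (∀ m' < i, ¬ Eqv σ z (xrow σ y' m')) :=
        forall_congr' fun m' => forall_congr' fun hm' => by rw [h1 m' hm']
      exact propext (not_congr (and_congr_right fun _ => h2)))
    (b := (σ : ℝ) * i + PN σ n) (fun y _ => by
      refine le_trans (le_of_eq ?_) (card_notnew_le y i)
      exact congrArg _ (card_dec _ _ _ _ _ fun _ => Iff.rfl))
  have h2 : Ex σ n T (fun y => if ¬ Used σ y i then (1 : ℝ) else 0) ≤
      Pr σ n T (fun y => True ∧ ¬ (Aper σ (xrow σ y i) ∧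
        ∀ m' < i, ¬ Eqv σ (xrow σ y i) (xrow σ y m'))) := by
    unfold Pr
    apply Ex_mono
    intro y
    by_cases hu : Used σ y i
    · rw [if_neg (not_not.2 hu)]
      split_ifs
      · exact zero_le_one
      · exact le_rfl
    · rw [if_pos hu, if_pos ⟨trivial, hu⟩]
  refine h2.trans (h.trans ?_)
  have hn : (0 : ℝ) < (n : ℝ) ^ σ := pow_pos (Nat.cast_pos.2 (Nat.pos_of_ne_zero (NeZero.ne n))) σ
  have h3 : 0 ≤ ((σ : ℝ) * i + PN σ n) / (n : ℝ) ^ σ := by positivity
  calc ((σ : ℝ) * i + PN σ n) / (n : ℝ) ^ σ * Pr σ n T (fun _ => True)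
      ≤ ((σ : ℝ) * i + PN σ n) / (n : ℝ) ^ σ * 1 :=
        mul_le_mul_of_nonneg_left (Pr_le_one T _) h3
    _ = aa σ n i := by rw [mul_one]; rfl

private theorem step {L : ℝ} {T : ℕ} (ha : ∀ i < T, aa σ n i ≤ 1) {u : ℕ} (hu : u < T) :
    |Ex σ n T (Wf σ n L T (u + 1)) - Ex σ n T (Wf σ n L T u)| ≤
      (σ : ℝ) / (n : ℝ) ^ σ * (T * aa σ n T) := by
  rw [Ex_upd hu (Wf σ n L T (u + 1))]
  refine (abs_Ex_sub_le (D := fun y => (σ : ℝ) / (n : ℝ) ^ σ *
    ∑ i ∈ Finset.range u, (if ¬ Used σ y i then (1 : ℝ) else 0)) (step_pt ha hu)).trans ?_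
  rw [Ex_mul, Ex_sum]
  have hn : (0 : ℝ) < (n : ℝ) ^ σ := pow_pos (Nat.cast_pos.2 (Nat.pos_of_ne_zero (NeZero.ne n))) σ
  apply mul_le_mul_of_nonneg_left _ (div_nonneg (Nat.cast_nonneg _) hn.le)
  calc ∑ i ∈ Finset.range u, Ex σ n T (fun y => if ¬ Used σ y i then (1 : ℝ) else 0)
      ≤ ∑ i ∈ Finset.range u, aa σ n T := by
        apply Finset.sum_le_sum
        intro i hi
        rw [Finset.mem_range] at hi
        exact (Pr_notused (hi.trans hu)).trans (aa_mono (hi.trans hu).le)
    _ = u * aa σ n T := by rw [Finset.sum_const, Finset.card_range, nsmul_eq_mul]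
    _ ≤ T * aa σ n T := by
        apply mul_le_mul_of_nonneg_right _ (aa_nonneg T)
        exact_mod_cast hu.le

theorem found_vv {L : ℝ} (hL : 0 ≤ L) {T : ℕ} (ha : ∀ i < T, aa σ n i ≤ 1) :
    |Pr σ n T (fun y => found σ L T y = 0) - vv σ n L T T 0| ≤
      T * (σ / (n : ℝ) ^ σ * (T * aa σ n T)) := by
  have h0 : Ex σ n T (Wf σ n L T 0) = vv σ n L T T 0 := by
    have : Wf σ n L T 0 = fun _ => vv σ n L T T 0 := by
      funext y
      unfold Wf
      rw [if_pos ((found_zero L 0 y).2 fun u hu => absurd hu (Nat.not_lt_zero u))]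
      rfl
    rw [this, Ex_const]
  have hT : Ex σ n T (Wf σ n L T T) = Pr σ n T (fun y => found σ L T y = 0) := by
    unfold Pr
    congr 1
    funext y
    unfold Wf
    rw [Nat.sub_self]
    by_cases h : found σ L T y = 0
    · rw [if_pos h, if_pos h]
      rfl
    · rw [if_neg h, if_neg h]
  rw [← h0, ← hT]
  have key : ∀ u ≤ T, |Ex σ n T (Wf σ n L T u) - Ex σ n T (Wf σ n L T 0)| ≤
      u * ((σ : ℝ) / (n : ℝ) ^ σ * (T * aa σ n T)) := by
    intro u
    induction u with
    | zero =>
      intro _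
      rw [sub_self, abs_zero, Nat.cast_zero, zero_mul]
    | succ u ih =>
      intro hu
      have h1 := ih (by omega)
      have h2 := step (L := L) ha (show u < T by omega)
      have h3 := abs_sub_le (Ex σ n T (Wf σ n L T (u + 1))) (Ex σ n T (Wf σ n L T u))
        (Ex σ n T (Wf σ n L T 0))
      rw [Nat.cast_add, Nat.cast_one, add_mul, one_mul]
      linarith
  exact key T le_rfl

end CAB
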