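import Pool.Agent.Lib.MP_eab41b_pr.B.F2

/-! Row F3: the unrolled recursion. Induction on `k` (`Finset.prod_Ico_...`, `Finset.sum_Ico_...`: split off the first factor / term). -/

set_option autoImplicit false

set_option linter.unusedSectionVars false

open scoped Classical

namespace CAB

variable {σ n : ℕ} [NeZero n] [NeZero σ]

theorem vv_unroll (L : ℝ) {T k s : ℕ} (hk : k ≤ T) :
    vv σ n L T k s = ∏ i ∈ Finset.Ico (T - k) T, (1 - aa σ n i) +
      ∑ m ∈ Finset.Ico (T - k) T, (∏ i ∈ Finset.Ico (T - k) m, (1 - aa σ n i)) *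
        (aa σ n m - (lam σ L (m - s) : ℝ) / (n : ℝ) ^ σ) *
          vv σ n L T (T - (m + 1)) (m + 1) := by
  induction k with
  | zero => simp [vv]
  | succ k ih =>
    have hk' : k ≤ T := by omega
    have ih' := ih hk'
    have e1 : T - (k + 1) + 1 = T - k := by omega
    have e2 : T - (k + 1) < T := by omega
    have e3 : T - (T - (k + 1) + 1) = k := by omega
    have h1 : vv σ n L T (k + 1) s = (1 - aa σ n (T - (k + 1))) * vv σ n L T k s +
        (aa σ n (T - (k + 1)) - (lam σ L (T - (k + 1) - s) : ℝ) / (n : ℝ) ^ σ) *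
          vv σ n L T k (T - (k + 1) + 1) := rfl
    rw [h1, ih', Finset.prod_eq_prod_Ico_succ_bot e2, Finset.sum_eq_sum_Ico_succ_bot e2,
      Finset.Ico_self, Finset.prod_empty, e1, one_mul]
    have h2 : ∑ m ∈ Finset.Ico (T - k) T, (∏ i ∈ Finset.Ico (T - (k + 1)) m, (1 - aa σ n i)) *
        (aa σ n m - (lam σ L (m - s) : ℝ) / (n : ℝ) ^ σ) *
          vv σ n L T (T - (m + 1)) (m + 1) = (1 - aa σ n (T - (k + 1))) *
        ∑ m ∈ Finset.Ico (T - k) T, (∏ i ∈ Finset.Ico (T - k) m, (1 - aa σ n i)) *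
        (aa σ n m - (lam σ L (m - s) : ℝ) / (n : ℝ) ^ σ) *
          vv σ n L T (T - (m + 1)) (m + 1) := by
      rw [Finset.mul_sum]
      refine Finset.sum_congr rfl fun m hm => ?_
      rw [Finset.mem_Ico] at hm
      rw [Finset.prod_eq_prod_Ico_succ_bot (by omega : T - (k + 1) < m), e1]
      ring
    rw [h2]
    have e4 : T - (T - k) = k := by omega
    rw [e4]
    ring

end CAB
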