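import Pool.Agent.Lib.MP_eab41b_pr.B.F4a

/-! Row F4: discrete Volterra equations converge (pure analysis).

Sketch: let `M` bound `|K|` on `[0, Λ]^2` and `|a|` on `[0, Λ]`. `φ_0 = 0`, `φ_{p+1}(v) = a(v) + ∫_v^Λ K(v, z) φ_p(z) dz` (continuous), `D_0 = 0`, `D_{p+1}(u) = a(u/N) + (1/N) Σ_{m=u}^{T-1} K(u/N, m/N) D_p(m+1)`. (1) By induction on `p`: `sup_{u ≤ T} |D_p(u) - φ_p(u/N)| → 0` as `n → ∞` (Riemann sums of a uniformly continuous function;
`T / N → Λ`, `1/N → 0`). (2) `|W(u) - D_p(u)| ≤ 1 · (M (T - u)/N)^p / p! + ε_n e^{M Λ}` type bound by induction on `p` (`|W| ≤ 1`, `D_0 = 0`; sums of powers against integrals: `(1/N) Σ_{m=u}^{T-1} ((T - m - 1)/N)^p ≤ ((T-u)/N)^{p+1}/(p+1)`). So `W_n(0)` is within `(MΛ)^p/p! + o(1)` of `φ_p(0)`: Cauchy.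
The sequence is indexed by `n`, `Nn → ∞`, `T n = ⌊Λ Nn⌋₊`. -/

set_option autoImplicit false

set_option linter.unusedSectionVars false

open scoped Classical

namespace CAB

/-- the iterates -/
private noncomputable def itr (Λ : ℝ) (a : ℝ → ℝ) (K : ℝ → ℝ → ℝ) : ℕ → ℝ → ℝ
  | 0 => fun _ => 0
  | p + 1 => fun v => a v + ∫ z in v..Λ, K v z * itr Λ a K p z

private theorem itr_cont {Λ : ℝ} {a : ℝ → ℝ} (ha : Continuous a) {K : ℝ → ℝ → ℝ}
    (hK : Continuous fun p : ℝ × ℝ => K p.1 p.2) (p : ℕ) : Continuous (itr Λ a K p) := by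
  induction p with
  | zero => exact continuous_const
  | succ p ih => exact iter_cont hK ha ih

private theorem pow_diff_ge {x y : ℝ} (hy : 0 ≤ y) (hxy : y ≤ x) (p : ℕ) :
    ((p : ℝ) + 1) * ((x - y) * y ^ p) ≤ x ^ (p + 1) - y ^ (p + 1) := by
  induction p with
  | zero => simp
  | succ p ih =>
    have h1 : x ^ (p + 1 + 1) - y ^ (p + 1 + 1)
        = x * (x ^ (p + 1) - y ^ (p + 1)) + (x - y) * y ^ (p + 1) := by ring
    have h2 : ((p + 1 : ℕ) : ℝ) + 1 = ((p : ℝ) + 1) + 1 := by push_cast; ring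
    have hx : 0 ≤ x := hy.trans hxy
    have h3 : 0 ≤ ((p : ℝ) + 1) * ((x - y) * y ^ p) := by
      have : 0 ≤ y ^ p := pow_nonneg hy p
      have : 0 ≤ x - y := by linarith
      positivity
    have h4 : y * (((p : ℝ) + 1) * ((x - y) * y ^ p)) ≤ x * (x ^ (p + 1) - y ^ (p + 1)) :=
      mul_le_mul hxy ih h3 hx
    rw [h1, h2]
    calc ((p : ℝ) + 1 + 1) * ((x - y) * y ^ (p + 1))
        = y * (((p : ℝ) + 1) * ((x - y) * y ^ p)) + (x - y) * y ^ (p + 1) := by ring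
      _ ≤ _ := by linarith

private theorem sum_pow_le {Λ N : ℝ} (hN : 0 < N) (p u T : ℕ) (hT : (T : ℝ) / N ≤ Λ)
    (hu : u ≤ T) :
    (∑ m ∈ Finset.Ico u T, (Λ - ((m : ℝ) + 1) / N) ^ p) / N
      ≤ (Λ - (u : ℝ) / N) ^ (p + 1) / (p + 1) := by
  have key : ∀ m ∈ Finset.Ico u T, (Λ - ((m : ℝ) + 1) / N) ^ p / N
      ≤ ((Λ - (m : ℝ) / N) ^ (p + 1) / (p + 1) - (Λ - ((m + 1 : ℕ) : ℝ) / N) ^ (p + 1) / (p + 1)) := by
    intro m hm
    rw [Finset.mem_Ico] at hm
    have h1 : ((m : ℝ) + 1) / N ≤ Λ := by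
      refine le_trans ?_ hT
      apply div_le_div_of_nonneg_right _ hN.le
      have : m + 1 ≤ T := hm.2
      exact_mod_cast this
    have h2 : (m : ℝ) / N ≤ ((m : ℝ) + 1) / N := by
      apply div_le_div_of_nonneg_right _ hN.le
      linarith
    have h3 := pow_diff_ge (x := Λ - (m : ℝ) / N) (y := Λ - ((m : ℝ) + 1) / N)
      (by linarith) (by linarith) p
    have h4 : (Λ - (m : ℝ) / N) - (Λ - ((m : ℝ) + 1) / N) = 1 / N := by
      field_simp
      ring
    rw [h4] at h3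
    have hp : (0 : ℝ) < (p : ℝ) + 1 := by positivity
    push_cast
    rw [← sub_div, le_div_iff₀ hp]
    calc (Λ - ((m : ℝ) + 1) / N) ^ p / N * ((p : ℝ) + 1)
        = ((p : ℝ) + 1) * (1 / N * (Λ - ((m : ℝ) + 1) / N) ^ p) := by ring
      _ ≤ _ := h3
  rw [Finset.sum_div]
  refine (Finset.sum_le_sum key).trans ?_
  have hs : ∑ m ∈ Finset.Ico u T, ((Λ - (m : ℝ) / N) ^ (p + 1) / ((p : ℝ) + 1)
      - (Λ - ((m + 1 : ℕ) : ℝ) / N) ^ (p + 1) / (p + 1))
      = (Λ - (u : ℝ) / N) ^ (p + 1) / (p + 1) - (Λ - (T : ℝ) / N) ^ (p + 1) / (p + 1) := by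
    have := Finset.sum_Ico_sub (fun m : ℕ => -((Λ - (m : ℝ) / N) ^ (p + 1) / ((p : ℝ) + 1))) hu
    rw [show (Λ - (u : ℝ) / N) ^ (p + 1) / ((p : ℝ) + 1) - (Λ - (T : ℝ) / N) ^ (p + 1) / (p + 1)
      = -((Λ - (T : ℝ) / N) ^ (p + 1) / ((p : ℝ) + 1)) - -((Λ - (u : ℝ) / N) ^ (p + 1) / ((p : ℝ) + 1)) by ring, ← this]
    refine Finset.sum_congr rfl fun m _ => ?_
    ring
  rw [hs]
  have : 0 ≤ (Λ - (T : ℝ) / N) ^ (p + 1) / ((p : ℝ) + 1) := by
    have : 0 ≤ Λ - (T : ℝ) / N := by linarith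
    positivity
  linarith

theorem volterra_limit {Λ : ℝ} (hΛ : 0 < Λ) {a : ℝ → ℝ} (ha : Continuous a) {K : ℝ → ℝ → ℝ}
    (hK : Continuous fun p : ℝ × ℝ => K p.1 p.2) (Nn : ℕ → ℝ)
    (hN : Filter.Tendsto Nn Filter.atTop Filter.atTop) (W : ℕ → ℕ → ℝ)
    (hW : ∀ n u, u ≤ ⌊Λ * Nn n⌋₊ → |W n u| ≤ 1)
    (hrec : ∀ ε : ℝ, 0 < ε → ∃ n0 : ℕ, ∀ n, n0 ≤ n → ∀ u, u ≤ ⌊Λ * Nn n⌋₊ →
      |W n u - (a (u / Nn n) + (∑ m ∈ Finset.Ico u ⌊Λ * Nn n⌋₊,
        K (u / Nn n) (m / Nn n) * W n (m + 1)) / Nn n)| ≤ ε) :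
    ∃ l, Filter.Tendsto (fun n => W n 0) Filter.atTop (nhds l) := by
  -- bound for the kernel
  obtain ⟨M, hM0, hM⟩ : ∃ M : ℝ, 0 < M ∧ ∀ v z : ℝ, 0 ≤ v → v ≤ Λ → 0 ≤ z → z ≤ Λ →
      |K v z| ≤ M := by
    obtain ⟨C, hC⟩ := (isCompact_Icc (a := (0 : ℝ)) (b := Λ)).prod (isCompact_Icc (a := (0 : ℝ))
      (b := Λ)) |>.exists_bound_of_continuousOn hK.continuousOn
    refine ⟨max C 1, lt_of_lt_of_le one_pos (le_max_right _ _), fun v z h1 h2 h3 h4 => ?_⟩
    exact (hC (v, z) ⟨⟨h1, h2⟩, ⟨h3, h4⟩⟩).trans (le_max_left _ _)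
  -- the main estimate
  have main : ∀ p : ℕ, ∀ ε : ℝ, 0 < ε → ∃ n0 : ℕ, ∀ n, n0 ≤ n → ∀ u, u ≤ ⌊Λ * Nn n⌋₊ →
      |W n u - itr Λ a K p (u / Nn n)| ≤
        M ^ p * (Λ - (u : ℝ) / Nn n) ^ p / (Nat.factorial p : ℝ) + ε := by
    intro p
    induction p with
    | zero =>
      intro ε hε
      refine ⟨0, fun n _ u hu => ?_⟩
      simp only [itr, sub_zero, pow_zero, Nat.factorial_zero, Nat.cast_one, mul_one, div_one]
      linarith [hW n u hu]
    | succ p ih =>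
      intro ε hε
      obtain ⟨n1, h1⟩ := hrec (ε / 3) (by linarith)
      obtain ⟨N0, hN0, h2⟩ := riemann_unif hΛ hK (itr_cont ha hK (Λ := Λ) p) (ε := ε / 3)
        (by linarith)
      obtain ⟨n3, h3⟩ := ih (ε / 3 / (M * Λ)) (by positivity)
      obtain ⟨n2, h2n⟩ := (Filter.tendsto_atTop.1 hN N0).exists_forall_of_atTop
      refine ⟨max n1 (max n2 n3), fun n hn u hu => ?_⟩
      have hn1 : n1 ≤ n := (le_max_left _ _).trans hn
      have hn2 : n2 ≤ n := ((le_max_left _ _).trans (le_max_right _ _)).trans hn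
      have hn3 : n3 ≤ n := ((le_max_right _ _).trans (le_max_right _ _)).trans hn
      have hNpos : 0 < Nn n := hN0.trans_le (h2n n hn2)
      have e1 := h1 n hn1 u hu
      have e2 := h2 (Nn n) (h2n n hn2) u hu
      set N := Nn n with hNdef
      set T := ⌊Λ * N⌋₊ with hTdef
      have hTle : (T : ℝ) ≤ Λ * N := Nat.floor_le (by positivity)
      have hTN : (T : ℝ) / N ≤ Λ := by
        rw [div_le_iff₀ hNpos]
        exact hTle
      -- the difference of the sums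
      have e3 : |(∑ m ∈ Finset.Ico u T, K (u / N) (m / N) * W n (m + 1)) / N
          - (∑ m ∈ Finset.Ico u T, K (u / N) (m / N) * itr Λ a K p (((m : ℝ) + 1) / N)) / N|
          ≤ M ^ (p + 1) * (Λ - (u : ℝ) / N) ^ (p + 1) / (Nat.factorial (p + 1) : ℝ) + ε / 3 := by
        rw [← sub_div, ← Finset.sum_sub_distrib, abs_div, abs_of_pos hNpos]
        have b1 : |∑ m ∈ Finset.Ico u T, (K (u / N) (m / N) * W n (m + 1)
            - K (u / N) (m / N) * itr Λ a K p (((m : ℝ) + 1) / N))|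
            ≤ ∑ m ∈ Finset.Ico u T, M * (M ^ p * (Λ - ((m : ℝ) + 1) / N) ^ p / (Nat.factorial p : ℝ)
              + ε / 3 / (M * Λ)) := by
          refine (Finset.abs_sum_le_sum_abs _ _).trans (Finset.sum_le_sum fun m hm => ?_)
          rw [Finset.mem_Ico] at hm
          rw [← mul_sub, abs_mul]
          have hm1 : m + 1 ≤ T := hm.2
          have e4 := h3 n hn3 (m + 1) hm1
          rw [← hNdef] at e4
          push_cast at e4
          refine mul_le_mul ?_ e4 (abs_nonneg _) hM0.le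
          apply hM
          · positivity
          · rw [div_le_iff₀ hNpos]
            refine le_trans ?_ hTle
            exact_mod_cast hu
          · positivity
          · rw [div_le_iff₀ hNpos]
            refine le_trans ?_ hTle
            exact_mod_cast hm.2.le
        have b2 : (∑ m ∈ Finset.Ico u T, M * (M ^ p * (Λ - ((m : ℝ) + 1) / N) ^ p / (Nat.factorial p : ℝ)
              + ε / 3 / (M * Λ))) / N
            ≤ M ^ (p + 1) * (Λ - (u : ℝ) / N) ^ (p + 1) / (Nat.factorial (p + 1) : ℝ) + ε / 3 := by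
          have s1 : ∑ m ∈ Finset.Ico u T, M * (M ^ p * (Λ - ((m : ℝ) + 1) / N) ^ p / (Nat.factorial p : ℝ)
              + ε / 3 / (M * Λ)) = M ^ (p + 1) / (Nat.factorial p : ℝ)
                * ∑ m ∈ Finset.Ico u T, (Λ - ((m : ℝ) + 1) / N) ^ p
                + ((Finset.Ico u T).card : ℝ) * (M * (ε / 3 / (M * Λ))) := by
            rw [Finset.mul_sum, ← nsmul_eq_mul, ← Finset.sum_const, ← Finset.sum_add_distrib]
            refine Finset.sum_congr rfl fun m _ => ?_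
            rw [pow_succ]
            ring
          rw [s1, add_div, mul_div_assoc]
          have s2 := sum_pow_le hNpos p u T hTN hu
          have s3 : M ^ (p + 1) / (Nat.factorial p : ℝ)
                * ((∑ m ∈ Finset.Ico u T, (Λ - ((m : ℝ) + 1) / N) ^ p) / N)
              ≤ M ^ (p + 1) / (Nat.factorial p : ℝ) * ((Λ - (u : ℝ) / N) ^ (p + 1) / (p + 1)) :=
            mul_le_mul_of_nonneg_left s2 (by positivity)
          have s4 : M ^ (p + 1) / (Nat.factorial p : ℝ) * ((Λ - (u : ℝ) / N) ^ (p + 1) / (p + 1))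
              = M ^ (p + 1) * (Λ - (u : ℝ) / N) ^ (p + 1) / (Nat.factorial (p + 1) : ℝ) := by
            have hf : (Nat.factorial p : ℝ) ≠ 0 := by positivity
            have hp1 : (p : ℝ) + 1 ≠ 0 := by positivity
            rw [Nat.factorial_succ]
            push_cast
            field_simp
          have s5 : ((Finset.Ico u T).card : ℝ) * (M * (ε / 3 / (M * Λ))) / N ≤ ε / 3 := by
            rw [div_le_iff₀ hNpos]
            have c1 : ((Finset.Ico u T).card : ℝ) ≤ Λ * N := by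
              rw [Nat.card_Ico]
              refine le_trans ?_ hTle
              exact_mod_cast Nat.sub_le T u
            have c2 : M * (ε / 3 / (M * Λ)) = ε / 3 / Λ := by
              field_simp
            rw [c2]
            calc ((Finset.Ico u T).card : ℝ) * (ε / 3 / Λ) ≤ (Λ * N) * (ε / 3 / Λ) :=
                  mul_le_mul_of_nonneg_right c1 (by positivity)
              _ = ε / 3 * N := by field_simp
          linarith
        exact (div_le_div_of_nonneg_right b1 hNpos.le).trans b2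
      have e5 : itr Λ a K (p + 1) ((u : ℝ) / N)
          = a ((u : ℝ) / N) + ∫ z in ((u : ℝ) / N)..Λ, K ((u : ℝ) / N) z * itr Λ a K p z := rfl
      rw [e5]
      rw [abs_le] at e1 e2 e3 ⊢
      constructor <;> linarith [e1.1, e1.2, e2.1, e2.2, e3.1, e3.2]
  -- Cauchy
  have hC : CauchySeq fun n => W n 0 := by
    rw [Metric.cauchySeq_iff']
    intro ε hε
    have ht := FloorSemiring.tendsto_pow_div_factorial_atTop (M * Λ)
    obtain ⟨p, hp⟩ := ((tendsto_order.1 ht).2 (ε / 8) (by linarith)).exists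
    obtain ⟨n0, h0⟩ := main p (ε / 8) (by linarith)
    have hcont : Continuous (itr Λ a K p) := itr_cont ha hK p
    refine ⟨n0, fun n hn => ?_⟩
    have q1 := h0 n hn 0 (Nat.zero_le _)
    have q2 := h0 n0 le_rfl 0 (Nat.zero_le _)
    simp only [Nat.cast_zero, zero_div, sub_zero] at q1 q2
    rw [mul_pow] at hp
    rw [Real.dist_eq]
    rw [abs_le] at q1 q2
    rw [abs_lt]
    constructor <;> linarith [q1.1, q1.2, q2.1, q2.2]
  exact cauchySeq_tendsto_of_complete hC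

end CAB
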