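import Pool.Agent.Lib.MP_eab41b_pr.B.A0

/-! Row F4a: uniform Riemann sums.

Sketch: `K v z * φ z` is uniformly continuous and bounded on `[0, Λ + 1] × [0, Λ + 1]`; `⌊Λ N⌋ / N ∈ (Λ - 1/N, Λ]`; on each `[m/N, (m+1)/N]` the difference of `K (u/N) (m/N) φ ((m+1)/N)` and `K (u/N) z φ z` is small. -/

set_option autoImplicit false

set_option linter.unusedSectionVars false

open scoped Classical

namespace CAB

theorem riemann_unif {Λ : ℝ} (hΛ : 0 < Λ) {K : ℝ → ℝ → ℝ}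
    (hK : Continuous fun p : ℝ × ℝ => K p.1 p.2) {φ : ℝ → ℝ} (hφ : Continuous φ) {ε : ℝ}
    (hε : 0 < ε) : ∃ N0 : ℝ, 0 < N0 ∧ ∀ N : ℝ, N0 ≤ N → ∀ u : ℕ, u ≤ ⌊Λ * N⌋₊ →
      |(∑ m ∈ Finset.Ico u ⌊Λ * N⌋₊, K (u / N) (m / N) * φ (((m : ℝ) + 1) / N)) / N -
        ∫ z in ((u : ℝ) / N)..Λ, K (u / N) z * φ z| ≤ ε := by
  have hHc : Continuous fun q : ℝ × ℝ × ℝ => K q.1 q.2.1 * φ q.2.2 :=
    (hK.comp (continuous_fst.prodMk continuous_snd.fst)).mul (hφ.comp continuous_snd.snd)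
  have hcomp : IsCompact (Set.Icc (0 : ℝ) Λ ×ˢ (Set.Icc (0 : ℝ) Λ ×ˢ Set.Icc (0 : ℝ) Λ)) :=
    isCompact_Icc.prod (isCompact_Icc.prod isCompact_Icc)
  have huc := hcomp.uniformContinuousOn_of_continuous hHc.continuousOn
  obtain ⟨B, hB⟩ := hcomp.exists_bound_of_continuousOn hHc.continuousOn
  have hB0 : 0 ≤ B := by
    have h0 : (0 : ℝ) ∈ Set.Icc (0 : ℝ) Λ := ⟨le_rfl, hΛ.le⟩
    exact le_trans (norm_nonneg _) (hB (0, 0, 0) ⟨h0, h0, h0⟩)
  have hη : 0 < ε / (2 * Λ) := by positivity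
  obtain ⟨δ, hδ, hδ'⟩ := Metric.uniformContinuousOn_iff.1 huc _ hη
  refine ⟨2 / δ + 2 * B / ε + 1, by positivity, fun N hN u hu => ?_⟩
  have hN0 : 0 < N := lt_of_lt_of_le (by positivity) hN
  have hN1 : 1 / N < δ := by
    rw [div_lt_iff₀ hN0]
    have h1 : 2 / δ ≤ N := by
      have h2 : 0 ≤ 2 * B / ε := by positivity
      linarith
    have h3 : 2 ≤ N * δ := by
      rw [div_le_iff₀ hδ] at h1
      exact h1
    linarith [mul_comm N δ]
  have hN2 : B / N ≤ ε / 2 := by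
    rw [div_le_iff₀ hN0]
    have h1 : 2 * B / ε ≤ N := by
      have h2 : 0 ≤ 2 / δ := by positivity
      linarith
    rw [div_le_iff₀ hε] at h1
    nlinarith
  set T := ⌊Λ * N⌋₊ with hT
  have hTN : (T : ℝ) ≤ Λ * N := Nat.floor_le (by positivity)
  have hTN' : Λ * N < (T : ℝ) + 1 := Nat.lt_floor_add_one _
  have hTd : (T : ℝ) / N ≤ Λ := by
    rw [div_le_iff₀ hN0]
    exact hTN
  have huT : (u : ℝ) ≤ T := by exact_mod_cast hu
  have hu0 : (0 : ℝ) ≤ (u : ℝ) / N := by positivity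
  have huΛ : (u : ℝ) / N ≤ Λ := le_trans (by gcongr) hTd
  have hgc : Continuous fun z => K (u / N) z * φ z :=
    (hK.comp (continuous_const.prodMk continuous_id)).mul hφ
  have hint : ∀ x y : ℝ, IntervalIntegrable (fun z => K (u / N) z * φ z) MeasureTheory.volume x y :=
    fun x y => hgc.intervalIntegrable x y
  have hsum : ∑ m ∈ Finset.Ico u T, ∫ z in ((m : ℝ) / N)..(((m + 1 : ℕ) : ℝ) / N),
      K (u / N) z * φ z = ∫ z in ((u : ℝ) / N)..((T : ℝ) / N), K (u / N) z * φ z :=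
    intervalIntegral.sum_integral_adjacent_intervals_Ico (a := fun k : ℕ => (k : ℝ) / N) hu
      fun k _ => hint _ _
  have hsplit : ∫ z in ((u : ℝ) / N)..Λ, K (u / N) z * φ z =
      (∫ z in ((u : ℝ) / N)..((T : ℝ) / N), K (u / N) z * φ z) +
        ∫ z in ((T : ℝ) / N)..Λ, K (u / N) z * φ z :=
    (intervalIntegral.integral_add_adjacent_intervals (hint _ _) (hint _ _)).symm
  have hlast : |∫ z in ((T : ℝ) / N)..Λ, K (u / N) z * φ z| ≤ ε / 2 := by
    have h1 : ∀ z ∈ Set.uIoc ((T : ℝ) / N) Λ, ‖K (u / N) z * φ z‖ ≤ B := by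
      intro z hz
      rw [Set.uIoc_of_le hTd] at hz
      have hz' : z ∈ Set.Icc (0 : ℝ) Λ := ⟨le_trans (by positivity) hz.1.le, hz.2⟩
      exact hB ((u : ℝ) / N, z, z) ⟨⟨hu0, huΛ⟩, hz', hz'⟩
    have h2 := intervalIntegral.norm_integral_le_of_norm_le_const h1
    rw [Real.norm_eq_abs, abs_of_nonneg (by linarith : 0 ≤ Λ - (T : ℝ) / N)] at h2
    have h3 : Λ - (T : ℝ) / N ≤ 1 / N := by
      rw [sub_le_iff_le_add, ← add_div, le_div_iff₀ hN0]
      linarith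
    refine h2.trans ((mul_le_mul_of_nonneg_left h3 hB0).trans ?_)
    rw [mul_one_div]
    exact hN2
  have hterm : ∀ m ∈ Finset.Ico u T, |K (u / N) (m / N) * φ (((m : ℝ) + 1) / N) / N -
      ∫ z in ((m : ℝ) / N)..(((m + 1 : ℕ) : ℝ) / N), K (u / N) z * φ z| ≤ ε / (2 * Λ) * (1 / N) := by
    intro m hm
    obtain ⟨hm1, hm2⟩ := Finset.mem_Ico.1 hm
    have hmT : (m : ℝ) + 1 ≤ T := by exact_mod_cast hm2
    have hmd : ((m : ℝ) + 1) / N ≤ Λ := le_trans (by gcongr) hTd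
    have hm0 : (0 : ℝ) ≤ (m : ℝ) / N := by positivity
    have hmm : (m : ℝ) / N ≤ ((m : ℝ) + 1) / N := by gcongr; linarith
    have hlen : ((m : ℝ) + 1) / N - (m : ℝ) / N = 1 / N := by ring
    have hc : K (u / N) (m / N) * φ (((m : ℝ) + 1) / N) / N =
        ∫ _z in ((m : ℝ) / N)..(((m + 1 : ℕ) : ℝ) / N),
          K (u / N) (m / N) * φ (((m : ℝ) + 1) / N) := by
      rw [intervalIntegral.integral_const]
      push_cast
      rw [hlen, smul_eq_mul]
      ring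
    rw [hc, ← intervalIntegral.integral_sub intervalIntegrable_const (hint _ _)]
    have h1 : ∀ z ∈ Set.uIoc ((m : ℝ) / N) (((m + 1 : ℕ) : ℝ) / N),
        ‖K (u / N) (m / N) * φ (((m : ℝ) + 1) / N) - K (u / N) z * φ z‖ ≤ ε / (2 * Λ) := by
      intro z hz
      push_cast at hz
      rw [Set.uIoc_of_le hmm] at hz
      have hz' : z ∈ Set.Icc (0 : ℝ) Λ := ⟨le_trans hm0 hz.1.le, hz.2.trans hmd⟩
      have hd : dist ((u : ℝ) / N, (m : ℝ) / N, ((m : ℝ) + 1) / N) ((u : ℝ) / N, z, z) < δ := by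
        rw [Prod.dist_eq, Prod.dist_eq, dist_self]
        simp only
        refine max_lt hδ (max_lt ?_ ?_)
        · rw [Real.dist_eq, abs_lt]
          constructor <;> linarith [hz.1, hz.2]
        · rw [Real.dist_eq, abs_lt]
          constructor <;> linarith [hz.1, hz.2]
      have h2 := hδ' ((u : ℝ) / N, (m : ℝ) / N, ((m : ℝ) + 1) / N)
        ⟨⟨hu0, huΛ⟩, ⟨hm0, hmm.trans hmd⟩, ⟨hm0.trans hmm, hmd⟩⟩ ((u : ℝ) / N, z, z)
        ⟨⟨hu0, huΛ⟩, hz', hz'⟩ hd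
      rw [dist_eq_norm] at h2
      exact h2.le
    have h3 := intervalIntegral.norm_integral_le_of_norm_le_const h1
    push_cast at h3 ⊢
    rw [hlen, Real.norm_eq_abs, abs_of_nonneg (by positivity : 0 ≤ 1 / N)] at h3
    exact h3
  have hmain : |(∑ m ∈ Finset.Ico u T, K (u / N) (m / N) * φ (((m : ℝ) + 1) / N)) / N -
      ∫ z in ((u : ℝ) / N)..((T : ℝ) / N), K (u / N) z * φ z| ≤ ε / 2 := by
    rw [← hsum, Finset.sum_div, ← Finset.sum_sub_distrib]
    refine (Finset.abs_sum_le_sum_abs _ _).trans ((Finset.sum_le_sum hterm).trans ?_)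
    rw [Finset.sum_const, Nat.card_Ico, nsmul_eq_mul]
    have h1 : ((T - u : ℕ) : ℝ) ≤ Λ * N := by
      refine le_trans ?_ hTN
      exact_mod_cast Nat.sub_le T u
    have h2 : 0 ≤ ε / (2 * Λ) * (1 / N) := by positivity
    refine (mul_le_mul_of_nonneg_right h1 h2).trans (le_of_eq ?_)
    field_simp
  rw [hsplit]
  have h4 := abs_add_le ((∑ m ∈ Finset.Ico u T, K (u / N) (m / N) * φ (((m : ℝ) + 1) / N)) / N -
      ∫ z in ((u : ℝ) / N)..((T : ℝ) / N), K (u / N) z * φ z)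
      (-(∫ z in ((T : ℝ) / N)..Λ, K (u / N) z * φ z))
  rw [abs_neg] at h4
  rw [← sub_sub, sub_eq_add_neg _ (∫ z in ((T : ℝ) / N)..Λ, K (u / N) z * φ z)]
  linarith

/-- the next iterate is continuous -/
theorem iter_cont {Λ : ℝ} {K : ℝ → ℝ → ℝ} (hK : Continuous fun p : ℝ × ℝ => K p.1 p.2)
    {a φ : ℝ → ℝ} (ha : Continuous a) (hφ : Continuous φ) :
    Continuous fun v => a v + ∫ z in v..Λ, K v z * φ z := by
  have h1 : Continuous (Function.uncurry fun v z : ℝ => K v z * φ z) :=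
    hK.mul (hφ.comp continuous_snd)
  have h2 : Continuous fun v : ℝ => ∫ z in Λ..v, K v z * φ z :=
    intervalIntegral.continuous_parametric_intervalIntegral_of_continuous h1 continuous_id
  have h3 : (fun v => a v + ∫ z in v..Λ, K v z * φ z) =
      fun v => a v + -(∫ z in Λ..v, K v z * φ z) := by
    funext v
    rw [intervalIntegral.integral_symm]
  rw [h3]
  exact ha.add h2.neg

end CAB
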