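import Pool.Agent.Lib.MP_eab41b_pr.B.F3
import Pool.Agent.Lib.MP_eab41b_pr.B.C12

/-! Row F5a: the coefficients converge uniformly.

Sketch: `N = NN σ n`, `N^2 = n^σ`, `a_i = (σ i + PN) / N^2`. `prod_lim`: for `0 ≤ a_i ≤ 1`: `|∏ (1 - a_i) - exp(-Σ a_i)| ≤ Σ a_i^2` (terms `|1 - a - e^{-a}| ≤ a^2`, `Finset.prod` difference), `Σ_{i<T} a_i^2 ≤ T a_T^2 ≤ C/N`;
`Σ_{i ∈ [u,m)} a_i = (σ (m (m - 1) - u (u - 1)) / 2 + PN (m - u)) / N^2`, within `C/N + Λ |PN/N - κ|` of `σ (z^2 - v^2)/2 + κ (z - v)`, `v = u/N`, `z = m/N ≤ Λ`; `|e^{-a} - e^{-b}| ≤ |a - b|` for `a, b ≥ 0`.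
`coef_lim`: `N a_m = σ z + PN/N`; `lam L b = Σ_j #{1 ≤ l ≤ b : l > L / ord j}` is within `σ` of `Σ_j max 0 (b - L / ord j)`, `L = x N`, divided by `N`. -/

set_option autoImplicit false

set_option linter.unusedSectionVars false

open scoped Classical

namespace CAB

variable {σ n : ℕ} [NeZero n] [NeZero σ]

private theorem F5a_pos (σ n : ℕ) [NeZero n] : 0 < NN σ n :=
  Real.rpow_pos_of_pos (by exact_mod_cast Nat.pos_of_ne_zero (NeZero.ne n)) _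

private theorem F5a_sq (σ n : ℕ) [NeZero n] : (n : ℝ) ^ σ = NN σ n * NN σ n := by
  unfold NN
  have hn : (0 : ℝ) < n := by exact_mod_cast Nat.pos_of_ne_zero (NeZero.ne n)
  rw [← Real.rpow_add hn, add_halves, Real.rpow_natCast]

private theorem F5a_large (σ : ℕ) [NeZero σ] (M : ℝ) :
    ∃ N0 : ℕ, ∀ (n : ℕ) [NeZero n], N0 ≤ n → M ≤ NN σ n := by
  refine ⟨⌈M ^ 2⌉₊, fun n _ hn => ?_⟩
  have h1 : M ^ 2 ≤ (n : ℝ) := (Nat.le_ceil _).trans (by exact_mod_cast hn)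
  have h2 : M ≤ Real.sqrt n := Real.le_sqrt_of_sq_le h1
  refine h2.trans ?_
  rw [Real.sqrt_eq_rpow]
  unfold NN
  refine Real.rpow_le_rpow_of_exponent_le ?_ ?_
  · exact_mod_cast Nat.pos_of_ne_zero (NeZero.ne n)
  · have h3 : (1 : ℝ) ≤ σ := by exact_mod_cast Nat.pos_of_ne_zero (NeZero.ne σ)
    linarith

private theorem F5a_card {L d : ℝ} (hL : 0 ≤ L) (hd : 0 < d) (b : ℕ) :
    |((((Finset.Icc 1 b).filter fun l : ℕ => L < (l : ℝ) * d).card : ℕ) : ℝ) -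
      max 0 ((b : ℝ) - L / d)| ≤ 1 := by
  have h1 : ((Finset.Icc 1 b).filter fun l : ℕ => L < (l : ℝ) * d) = Finset.Ioc ⌊L / d⌋₊ b := by
    ext l
    rw [Finset.mem_filter, Finset.mem_Icc, Finset.mem_Ioc, Nat.floor_lt (div_nonneg hL hd.le),
      div_lt_iff₀ hd]
    constructor
    · rintro ⟨⟨_, h⟩, h'⟩
      exact ⟨h', h⟩
    · rintro ⟨h', h⟩
      refine ⟨⟨?_, h⟩, h'⟩
      rcases Nat.eq_zero_or_pos l with h0 | h0
      · rw [h0, Nat.cast_zero, zero_mul] at h'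
        exact absurd hL (not_le.2 h')
      · exact h0
  rw [h1, Nat.card_Ioc]
  have h2 : ((⌊L / d⌋₊ : ℕ) : ℝ) ≤ L / d := Nat.floor_le (div_nonneg hL hd.le)
  have h3 : L / d < ⌊L / d⌋₊ + 1 := Nat.lt_floor_add_one _
  rcases le_total ⌊L / d⌋₊ b with h | h
  · rw [Nat.cast_sub h]
    have h4 : ((⌊L / d⌋₊ : ℕ) : ℝ) ≤ b := by exact_mod_cast h
    rw [abs_le]
    constructor
    · rcases max_cases 0 ((b : ℝ) - L / d) with h5 | h5 <;> linarith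
    · rcases max_cases 0 ((b : ℝ) - L / d) with h5 | h5 <;> linarith
  · rw [Nat.sub_eq_zero_of_le h]
    have h4 : (b : ℝ) ≤ ((⌊L / d⌋₊ : ℕ) : ℝ) := by exact_mod_cast h
    rw [max_eq_left (by linarith), Nat.cast_zero, sub_zero, abs_zero]
    exact zero_le_one

private theorem F5a_lam (σ : ℕ) [NeZero σ] (L : ℝ) (b : ℕ) : lam σ L b =
    ∑ j : ZMod σ, ((Finset.Icc 1 b).filter fun l : ℕ => L < (l : ℝ) * (addOrderOf j : ℝ)).card := by
  unfold lam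
  refine Finset.sum_congr rfl fun j _ => ?_
  first
    | rfl
    | (have h : (do let a ← Finset.Icc 1 b; pure (a : ℝ) : Finset ℝ) =
          (Finset.Icc 1 b).image (fun a : ℕ => (a : ℝ)) := by
        ext z
        simp only [Finset.bind_def, Finset.pure_def, Finset.mem_sup, Finset.mem_singleton,
          Finset.mem_image]
        constructor
        · rintro ⟨a, ha, rfl⟩
          exact ⟨a, ha, rfl⟩
        · rintro ⟨a, ha, rfl⟩
          exact ⟨a, ha, rfl⟩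
       rw [h, Finset.filter_image, Finset.card_image_of_injective _ Nat.cast_injective])

theorem coef_lim (σ : ℕ) [NeZero σ] {κ : ℝ} (hκ : ∀ ε : ℝ, 0 < ε → ∃ N0 : ℕ,
      ∀ (n : ℕ) [NeZero n], N0 ≤ n → |(PN σ n : ℝ) / NN σ n - κ| ≤ ε)
    {Λ x : ℝ} (hΛ : 0 < Λ) (hx : 0 < x) {ε : ℝ} (hε : 0 < ε) :
    ∃ N0 : ℕ, ∀ (n : ℕ) [NeZero n], N0 ≤ n → ∀ u m : ℕ, u ≤ m → m ≤ ⌊Λ * NN σ n⌋₊ →
      |NN σ n * (aa σ n m - (lam σ (x * NN σ n) (m - u) : ℝ) / (n : ℝ) ^ σ) -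
        (σ * (m / NN σ n) + κ - ∑ j : ZMod σ,
          max 0 ((m / NN σ n - u / NN σ n) - x / (addOrderOf j : ℝ)))| ≤ ε := by
  obtain ⟨N1, hN1⟩ := hκ (ε / 2) (half_pos hε)
  obtain ⟨N2, hN2⟩ := F5a_large σ (σ / (ε / 2))
  refine ⟨max N1 N2, fun n _ hn u m hum _ => ?_⟩
  have hN := F5a_pos σ n
  have h1 := hN1 n ((le_max_left _ _).trans hn)
  have h2 := hN2 n ((le_max_right _ _).trans hn)
  have h3 : (σ : ℝ) / NN σ n ≤ ε / 2 := by
    rw [div_le_iff₀ (half_pos hε)] at h2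
    rw [div_le_iff₀ hN, mul_comm]
    exact h2
  have h4 : |(lam σ (x * NN σ n) (m - u) : ℝ) / NN σ n - ∑ j : ZMod σ,
      max 0 ((m / NN σ n - u / NN σ n) - x / (addOrderOf j : ℝ))| ≤ (σ : ℝ) / NN σ n := by
    rw [F5a_lam, Nat.cast_sum, Finset.sum_div, ← Finset.sum_sub_distrib]
    refine (Finset.abs_sum_le_sum_abs _ _).trans ?_
    have h5 : ∀ j : ZMod σ, |((((Finset.Icc 1 (m - u)).filter
        fun l : ℕ => x * NN σ n < (l : ℝ) * (addOrderOf j : ℝ)).card : ℕ) : ℝ) / NN σ n -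
          max 0 ((m / NN σ n - u / NN σ n) - x / (addOrderOf j : ℝ))| ≤ 1 / NN σ n := by
      intro j
      have hj : (0 : ℝ) < (addOrderOf j : ℝ) := by exact_mod_cast addOrderOf_pos j
      have h6 := F5a_card (mul_pos hx hN).le hj (m - u)
      rw [Nat.cast_sub hum] at h6
      have h7 : max 0 ((m / NN σ n - u / NN σ n) - x / (addOrderOf j : ℝ)) =
          max 0 (((m : ℝ) - u) - x * NN σ n / (addOrderOf j : ℝ)) / NN σ n := by
        rw [← max_div_div_right hN.le]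
        congr 1
        · rw [zero_div]
        · field_simp
      rw [h7, ← sub_div, abs_div, abs_of_pos hN]
      exact div_le_div_of_nonneg_right h6 hN.le
    refine (Finset.sum_le_sum fun j _ => h5 j).trans ?_
    rw [Finset.sum_const, Finset.card_univ, ZMod.card, nsmul_eq_mul, mul_one_div]
  have h5 : NN σ n * (aa σ n m - (lam σ (x * NN σ n) (m - u) : ℝ) / (n : ℝ) ^ σ) =
      σ * (m / NN σ n) + (PN σ n : ℝ) / NN σ n - (lam σ (x * NN σ n) (m - u) : ℝ) / NN σ n := by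
    unfold aa
    rw [F5a_sq]
    field_simp
  rw [h5]
  have h6 : σ * (m / NN σ n) + (PN σ n : ℝ) / NN σ n - (lam σ (x * NN σ n) (m - u) : ℝ) / NN σ n -
      (σ * (m / NN σ n) + κ - ∑ j : ZMod σ,
          max 0 ((m / NN σ n - u / NN σ n) - x / (addOrderOf j : ℝ))) =
      ((PN σ n : ℝ) / NN σ n - κ) - ((lam σ (x * NN σ n) (m - u) : ℝ) / NN σ n - ∑ j : ZMod σ,
          max 0 ((m / NN σ n - u / NN σ n) - x / (addOrderOf j : ℝ))) := by ring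
  rw [h6]
  refine (abs_sub _ _).trans ?_
  linarith

theorem aa_small (σ : ℕ) [NeZero σ] {Λ ε : ℝ} (hΛ : 0 < Λ) (hε : 0 < ε) :
    ∃ N0 : ℕ, ∀ (n : ℕ) [NeZero n], N0 ≤ n → ∀ i ≤ ⌊Λ * NN σ n⌋₊, aa σ n i ≤ ε := by
  obtain ⟨κ, hκ0, hκ⟩ := PN_lim σ
  obtain ⟨N1, hN1⟩ := hκ 1 one_pos
  obtain ⟨N2, hN2⟩ := F5a_large σ ((σ * Λ + (κ + 1)) / ε)
  refine ⟨max N1 N2, fun n _ hn i hi => ?_⟩
  have hN := F5a_pos σ n
  have h1 := (abs_le.1 (hN1 n ((le_max_left _ _).trans hn))).2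
  have h2 := hN2 n ((le_max_right _ _).trans hn)
  rw [div_le_iff₀ hε] at h2
  have h3 : (PN σ n : ℝ) ≤ (κ + 1) * NN σ n := by
    rw [← div_le_iff₀ hN]
    linarith
  have h4 : (i : ℝ) ≤ Λ * NN σ n := (Nat.le_floor_iff (mul_pos hΛ hN).le).1 hi
  unfold aa
  rw [F5a_sq, div_le_iff₀ (mul_pos hN hN)]
  have h5 : (σ : ℝ) * i ≤ σ * (Λ * NN σ n) := mul_le_mul_of_nonneg_left h4 (Nat.cast_nonneg _)
  have h6 : (σ * Λ + (κ + 1)) * NN σ n ≤ NN σ n * ε * NN σ n := mul_le_mul_of_nonneg_right h2 hN.le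
  nlinarith

end CAB
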