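import Pool.Agent.Lib.MP_eab41b_pr.B.F3
import Pool.Agent.Lib.MP_eab41b_pr.B.C12
import Pool.Agent.Lib.MP_eab41b_pr.B.F5a

/-! Row F5: the coefficients converge uniformly.

Sketch: `N = NN σ n`, `N^2 = n^σ`, `a_i = (σ i + PN) / N^2`. `prod_lim`: for `0 ≤ a_i ≤ 1`: `|∏ (1 - a_i) - exp(-Σ a_i)| ≤ Σ a_i^2` (terms `|1 - a - e^{-a}| ≤ a^2`, `Finset.prod` difference), `Σ_{i<T} a_i^2 ≤ T a_T^2 ≤ C/N`;
`Σ_{i ∈ [u,m)} a_i = (σ (m (m - 1) - u (u - 1)) / 2 + PN (m - u)) / N^2`, within `C/N + Λ |PN/N - κ|` of `σ (z^2 - v^2)/2 + κ (z - v)`, `v = u/N`, `z = m/N ≤ Λ`; `|e^{-a} - e^{-b}| ≤ |a - b|` for `a, b ≥ 0`.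
`coef_lim`: `N a_m = σ z + PN/N`; `lam L b = Σ_j #{1 ≤ l ≤ b : l > L / ord j}` is within `σ` of `Σ_j max 0 (b - L / ord j)`, `L = x N`, divided by `N`. -/

set_option autoImplicit false

set_option linter.unusedSectionVars false

open scoped Classical

namespace CAB

variable {σ n : ℕ} [NeZero n] [NeZero σ]

private theorem F5_prod (s : Finset ℕ) (a : ℕ → ℝ) (h : ∀ i ∈ s, 0 ≤ a i ∧ a i ≤ 1) :
    |∏ i ∈ s, (1 - a i) - Real.exp (-∑ i ∈ s, a i)| ≤ ∑ i ∈ s, a i ^ 2 := by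
  induction s using Finset.induction_on with
  | empty => simp
  | insert j s hj ih =>
    have ih' := ih fun i hi => h i (Finset.mem_insert_of_mem hi)
    obtain ⟨h0, h1⟩ := h j (Finset.mem_insert_self j s)
    rw [Finset.prod_insert hj, Finset.sum_insert hj, Finset.sum_insert hj, neg_add, Real.exp_add]
    have hE0 : 0 ≤ Real.exp (-∑ i ∈ s, a i) := (Real.exp_pos _).le
    have hE1 : Real.exp (-∑ i ∈ s, a i) ≤ 1 := by
      rw [Real.exp_le_one_iff, neg_nonpos]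
      exact Finset.sum_nonneg fun i hi => (h i (Finset.mem_insert_of_mem hi)).1
    have he : |1 - a j - Real.exp (-a j)| ≤ a j ^ 2 := by
      have h2 := Real.abs_exp_sub_one_sub_id_le (x := -a j) (by rw [abs_neg, abs_of_nonneg h0]; exact h1)
      rw [abs_sub_comm, neg_sq] at h2
      have e : -a j - (Real.exp (-a j) - 1) = 1 - a j - Real.exp (-a j) := by ring
      rwa [e] at h2
    have e : (1 - a j) * ∏ i ∈ s, (1 - a i) - Real.exp (-a j) * Real.exp (-∑ i ∈ s, a i) =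
        (1 - a j) * (∏ i ∈ s, (1 - a i) - Real.exp (-∑ i ∈ s, a i)) +
          (1 - a j - Real.exp (-a j)) * Real.exp (-∑ i ∈ s, a i) := by ring
    rw [e]
    refine (abs_add_le _ _).trans ?_
    rw [abs_mul, abs_mul, abs_of_nonneg (sub_nonneg.2 h1), abs_of_nonneg hE0]
    have h3 : (1 - a j) * |∏ i ∈ s, (1 - a i) - Real.exp (-∑ i ∈ s, a i)| ≤
        1 * ∑ i ∈ s, a i ^ 2 :=
      mul_le_mul (by linarith) ih' (abs_nonneg _) zero_le_one
    have h4 : |1 - a j - Real.exp (-a j)| * Real.exp (-∑ i ∈ s, a i) ≤ a j ^ 2 * 1 :=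
      mul_le_mul he hE1 hE0 (sq_nonneg _)
    linarith

private theorem F5_sum {u m : ℕ} (hum : u ≤ m) :
    ∑ i ∈ Finset.Ico u m, aa σ n i =
      (σ * ((m : ℝ) * (m - 1) - u * (u - 1)) / 2 + PN σ n * ((m : ℝ) - u)) / (n : ℝ) ^ σ := by
  induction m, hum using Nat.le_induction with
  | base => simp
  | succ m hm ih =>
    rw [Finset.sum_Ico_succ_top hm, ih]
    unfold aa
    rw [← add_div]
    congr 1
    push_cast
    ring

private theorem F5_exp {a b : ℝ} (ha : 0 ≤ a) (hb : 0 ≤ b) :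
    |Real.exp (-a) - Real.exp (-b)| ≤ |a - b| := by
  wlog hab : a ≤ b generalizing a b
  · have := this hb ha (le_of_not_ge hab)
    rwa [abs_sub_comm, abs_sub_comm b a] at this
  · have h1 : Real.exp (-b) ≤ Real.exp (-a) := Real.exp_le_exp.2 (by linarith)
    rw [abs_of_nonneg (by linarith), abs_sub_comm, abs_of_nonneg (by linarith)]
    have h2 : Real.exp (-b) = Real.exp (-a) * Real.exp (-(b - a)) := by
      rw [← Real.exp_add]
      congr 1
      ring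
    have h3 : 1 - (b - a) ≤ Real.exp (-(b - a)) := by linarith [Real.add_one_le_exp (-(b - a))]
    have h4 : Real.exp (-a) ≤ 1 := by
      rw [Real.exp_le_one_iff]
      linarith
    have h5 := Real.exp_pos (-a)
    rw [h2]
    nlinarith

private theorem F5_close {κ Λ δ : ℝ} (hΛ : 0 < Λ)
    (hκ : |(PN σ n : ℝ) / NN σ n - κ| ≤ δ) {u m : ℕ} (hum : u ≤ m)
    (hm : m ≤ ⌊Λ * NN σ n⌋₊) :
    |∑ i ∈ Finset.Ico u m, aa σ n i - (σ * ((m / NN σ n) ^ 2 - (u / NN σ n) ^ 2) / 2 +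
          κ * (m / NN σ n - u / NN σ n))| ≤ σ * Λ / NN σ n + δ * Λ := by
  have hN := one_le_NN (σ := σ) (n := n)
  have hN0 : 0 < NN σ n := by linarith
  have hδ : 0 ≤ δ := (abs_nonneg _).trans hκ
  rw [F5_sum hum, ← NN_sq (σ := σ) (n := n)]
  have hz : (m : ℝ) / NN σ n ≤ Λ := by
    rw [div_le_iff₀ hN0]
    exact (Nat.cast_le.2 hm).trans (Nat.floor_le (by positivity))
  have hu0 : 0 ≤ (u : ℝ) / NN σ n := by positivity
  have huz : (u : ℝ) / NN σ n ≤ m / NN σ n := by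
    gcongr
  have e : (σ * ((m : ℝ) * (m - 1) - u * (u - 1)) / 2 + PN σ n * ((m : ℝ) - u)) / NN σ n ^ 2 -
      (σ * ((m / NN σ n) ^ 2 - (u / NN σ n) ^ 2) / 2 + κ * (m / NN σ n - u / NN σ n)) =
      (-(σ * (m / NN σ n - u / NN σ n) / 2) / NN σ n) +
        (PN σ n / NN σ n - κ) * (m / NN σ n - u / NN σ n) := by
    field_simp
    ring
  rw [e]
  refine (abs_add_le _ _).trans (add_le_add ?_ ?_)
  · rw [abs_div, abs_neg, abs_of_pos hN0, abs_of_nonneg (by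
      have : 0 ≤ (m : ℝ) / NN σ n - u / NN σ n := by linarith
      positivity)]
    gcongr
    have h1 : (0 : ℝ) ≤ σ := Nat.cast_nonneg _
    nlinarith
  · rw [abs_mul, abs_of_nonneg (show 0 ≤ (m : ℝ) / NN σ n - u / NN σ n by linarith)]
    exact mul_le_mul hκ (by linarith) (by linarith) hδ

theorem prod_lim (σ : ℕ) [NeZero σ] {κ : ℝ} (hκ : ∀ ε : ℝ, 0 < ε → ∃ N0 : ℕ,
      ∀ (n : ℕ) [NeZero n], N0 ≤ n → |(PN σ n : ℝ) / NN σ n - κ| ≤ ε) (hκ0 : 0 ≤ κ)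
    {Λ : ℝ} (hΛ : 0 < Λ) {ε : ℝ} (hε : 0 < ε) :
    ∃ N0 : ℕ, ∀ (n : ℕ) [NeZero n], N0 ≤ n → ∀ u m : ℕ, u ≤ m → m ≤ ⌊Λ * NN σ n⌋₊ →
      |∏ i ∈ Finset.Ico u m, (1 - aa σ n i) -
        Real.exp (-(σ * ((m / NN σ n) ^ 2 - (u / NN σ n) ^ 2) / 2 +
          κ * (m / NN σ n - u / NN σ n)))| ≤ ε := by
  have hσ : (0 : ℝ) ≤ σ := Nat.cast_nonneg _
  set e1 : ℝ := min (ε / 2) 1 with he1
  have he1pos : 0 < e1 := lt_min (by linarith) one_pos
  set C : ℝ := σ * Λ ^ 2 / 2 + κ * Λ + 1 with hC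
  have hC1 : 1 ≤ C := by
    have : 0 ≤ σ * Λ ^ 2 / 2 + κ * Λ := by positivity
    linarith
  obtain ⟨N1, h1⟩ := hκ (e1 / (2 * Λ)) (by positivity)
  obtain ⟨N2, h2⟩ := NN_tendsto σ (2 * σ * Λ / e1)
  obtain ⟨N3, h3⟩ := aa_small σ hΛ (show (0 : ℝ) < min (ε / (2 * C)) 1 from
    lt_min (by positivity) one_pos)
  refine ⟨max N1 (max N2 N3), fun n _ hn u m hum hm => ?_⟩
  have hn1 := h1 n ((le_max_left _ _).trans hn)
  have hn2 := h2 n (((le_max_left _ _).trans (le_max_right _ _)).trans hn)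
  have hn3 := h3 n (((le_max_right _ _).trans (le_max_right _ _)).trans hn)
  have hN := one_le_NN (σ := σ) (n := n)
  have hN0 : 0 < NN σ n := by linarith
  have hcl := F5_close hΛ hn1 hum hm
  have hcl2 : σ * Λ / NN σ n + e1 / (2 * Λ) * Λ ≤ e1 := by
    have a1 : σ * Λ / NN σ n ≤ e1 / 2 := by
      rw [div_le_iff₀ hN0]
      rw [div_le_iff₀ he1pos] at hn2
      linarith
    have a2 : e1 / (2 * Λ) * Λ = e1 / 2 := by
      field_simp
    linarith
  have hz : (m : ℝ) / NN σ n ≤ Λ := by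
    rw [div_le_iff₀ hN0]
    exact (Nat.cast_le.2 hm).trans (Nat.floor_le (by positivity))
  have hu0 : 0 ≤ (u : ℝ) / NN σ n := by positivity
  have huz : (u : ℝ) / NN σ n ≤ m / NN σ n := by
    gcongr
  set S : ℝ := ∑ i ∈ Finset.Ico u m, aa σ n i with hS
  set S' : ℝ := σ * ((m / NN σ n) ^ 2 - (u / NN σ n) ^ 2) / 2 +
          κ * (m / NN σ n - u / NN σ n) with hS'
  have hz2 : ((m : ℝ) / NN σ n) ^ 2 ≤ Λ ^ 2 := by
    gcongr
  have hu2 : ((u : ℝ) / NN σ n) ^ 2 ≤ (m / NN σ n) ^ 2 := by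
    gcongr
  have hS'0 : 0 ≤ S' := by
    have b1 : 0 ≤ ((m : ℝ) / NN σ n) ^ 2 - (u / NN σ n) ^ 2 := by linarith
    have b2 : 0 ≤ (m : ℝ) / NN σ n - u / NN σ n := by linarith
    positivity
  have hS'C : S' ≤ C - 1 := by
    have b1 : σ * (((m : ℝ) / NN σ n) ^ 2 - (u / NN σ n) ^ 2) ≤ σ * Λ ^ 2 := by
      apply mul_le_mul_of_nonneg_left _ hσ
      have : 0 ≤ ((u : ℝ) / NN σ n) ^ 2 := by positivity
      linarith
    have b2 : κ * ((m : ℝ) / NN σ n - u / NN σ n) ≤ κ * Λ :=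
      mul_le_mul_of_nonneg_left (by linarith) hκ0
    rw [hS', hC]
    linarith
  have haa : ∀ i ∈ Finset.Ico u m, 0 ≤ aa σ n i ∧ aa σ n i ≤ min (ε / (2 * C)) 1 := by
    intro i hi
    refine ⟨?_, hn3 i ?_⟩
    · unfold aa
      positivity
    · rw [Finset.mem_Ico] at hi
      omega
  have hS0 : 0 ≤ S := Finset.sum_nonneg fun i hi => (haa i hi).1
  have hSS' : |S - S'| ≤ e1 := hcl.trans hcl2
  have hSC : S ≤ C := by
    have c1 := le_abs_self (S - S')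
    have c2 : e1 ≤ 1 := min_le_right _ _
    linarith
  have hP := F5_prod (Finset.Ico u m) (aa σ n) fun i hi =>
    ⟨(haa i hi).1, (haa i hi).2.trans (min_le_right _ _)⟩
  have hsq : ∑ i ∈ Finset.Ico u m, aa σ n i ^ 2 ≤ ε / 2 := by
    have d1 : ∑ i ∈ Finset.Ico u m, aa σ n i ^ 2 ≤ ∑ i ∈ Finset.Ico u m, ε / (2 * C) * aa σ n i := by
      refine Finset.sum_le_sum fun i hi => ?_
      rw [sq]
      exact mul_le_mul_of_nonneg_right ((haa i hi).2.trans (min_le_left _ _)) (haa i hi).1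
    rw [← Finset.mul_sum, ← hS] at d1
    refine d1.trans ?_
    have d2 : ε / (2 * C) * S ≤ ε / (2 * C) * C := mul_le_mul_of_nonneg_left hSC (by positivity)
    have d3 : ε / (2 * C) * C = ε / 2 := by
      have : C ≠ 0 := by linarith
      field_simp
    linarith
  have hE := F5_exp hS0 hS'0
  have e : ∏ i ∈ Finset.Ico u m, (1 - aa σ n i) - Real.exp (-S') =
      (∏ i ∈ Finset.Ico u m, (1 - aa σ n i) - Real.exp (-S)) +
        (Real.exp (-S) - Real.exp (-S')) := by ring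
  rw [e]
  refine (abs_add_le _ _).trans ?_
  have f1 : e1 ≤ ε / 2 := min_le_left _ _
  linarith

end CAB
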