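import Pool.Agent.Lib.MP_eab41b_pr.B.F4
import Pool.Agent.Lib.MP_eab41b_pr.B.F5

/-! Row F6: the probability of no long closing converges for fixed `Λ`, `x`.

Sketch: `T = ⌊Λ N⌋₊`, `W n u = vv L T (T - u) u` (with `n + 1` for `n`), `vv_unroll` with `k = T - u`, `s = u`; `prod_lim` and `coef_lim` give the hypothesis of `volterra_limit` with
`a v = exp (-(σ (Λ^2 - v^2)/2 + κ (Λ - v)))`, `K v z = exp (-(σ (z^2 - v^2)/2 + κ (z - v))) (σ z + κ - Σ_j max 0 ((z - v) - x / ord j))` (for `a`: `T/N → Λ`; `a` continuous). `|W| ≤ 1`: `vv_mem` with `aa_small` (for the finitely many small `n` replace `W` by `0`, or apply the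
lemma to a shifted sequence). `found_vv`: the error `T (σ / n^σ) (T a_T) ≤ Λ^2 σ a_T → 0`. -/

set_option autoImplicit false

set_option linter.unusedSectionVars false

open scoped Classical

namespace CAB

/-- the limit kernel of the products -/
private noncomputable def f6E (σ : ℕ) (κ v z : ℝ) : ℝ :=
  Real.exp (-(σ * (z ^ 2 - v ^ 2) / 2 + κ * (z - v)))

/-- the limit of the coefficients -/
private noncomputable def f6C (σ : ℕ) [NeZero σ] (κ x v z : ℝ) : ℝ :=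
  σ * z + κ - ∑ j : ZMod σ, max 0 ((z - v) - x / (addOrderOf j : ℝ))

private theorem f6_exp_lip {a b : ℝ} (ha : 0 ≤ a) (hb : 0 ≤ b) :
    |Real.exp (-a) - Real.exp (-b)| ≤ |a - b| := by
  wlog h : a ≤ b with H
  · rw [abs_sub_comm, abs_sub_comm a b]
    exact H hb ha (le_of_not_ge h)
  · have h1 : Real.exp (-b) ≤ Real.exp (-a) := Real.exp_le_exp.2 (by linarith)
    rw [abs_of_nonneg (by linarith), abs_sub_comm, abs_of_nonneg (by linarith)]
    have h2 : Real.exp (-b) = Real.exp (-a) * Real.exp (-(b - a)) := by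
      rw [← Real.exp_add]
      congr 1
      ring
    have h3 : 1 - (b - a) ≤ Real.exp (-(b - a)) := by
      have := Real.add_one_le_exp (-(b - a))
      linarith
    have h4 : Real.exp (-a) ≤ 1 := Real.exp_le_one_iff.2 (by linarith)
    have h5 : 0 < Real.exp (-a) := Real.exp_pos _
    rw [h2]
    nlinarith

private theorem f6E_nonneg {σ : ℕ} {κ v z : ℝ} : 0 ≤ f6E σ κ v z := (Real.exp_pos _).le

private theorem f6_expo_nonneg {σ : ℕ} {κ v z : ℝ} (hκ : 0 ≤ κ) (hv : 0 ≤ v) (hz : v ≤ z) :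
    0 ≤ (σ : ℝ) * (z ^ 2 - v ^ 2) / 2 + κ * (z - v) := by
  have h1 : 0 ≤ z ^ 2 - v ^ 2 := by nlinarith
  have h2 : 0 ≤ z - v := by linarith
  positivity

private theorem f6E_le {σ : ℕ} {κ v z : ℝ} (hκ : 0 ≤ κ) (hv : 0 ≤ v) (hz : v ≤ z) :
    f6E σ κ v z ≤ 1 := by
  unfold f6E
  rw [Real.exp_le_one_iff]
  have := f6_expo_nonneg (σ := σ) hκ hv hz
  linarith

private theorem f6E_lip {σ : ℕ} {κ v z Λ : ℝ} (hκ : 0 ≤ κ) (hv : 0 ≤ v) (hz : v ≤ z) (hΛ : z ≤ Λ) :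
    |f6E σ κ v z - f6E σ κ v Λ| ≤ (σ * Λ + κ) * (Λ - z) := by
  unfold f6E
  refine (f6_exp_lip (f6_expo_nonneg hκ hv hz) (f6_expo_nonneg hκ hv (hz.trans hΛ))).trans ?_
  rw [abs_sub_comm]
  have h0 : (σ : ℝ) * (Λ ^ 2 - v ^ 2) / 2 + κ * (Λ - v) - (σ * (z ^ 2 - v ^ 2) / 2 + κ * (z - v)) =
      (σ * (Λ + z) / 2 + κ) * (Λ - z) := by ring
  rw [h0]
  have h1 : 0 ≤ Λ - z := by linarith
  have h2 : 0 ≤ (σ : ℝ) * (Λ + z) / 2 + κ := by
    have : 0 ≤ Λ + z := by linarith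
    positivity
  rw [abs_of_nonneg (mul_nonneg h2 h1)]
  apply mul_le_mul_of_nonneg_right _ h1
  have : (σ : ℝ) * (Λ + z) / 2 ≤ σ * Λ := by
    have h3 : (0 : ℝ) ≤ σ := Nat.cast_nonneg _
    nlinarith
  linarith

private theorem f6C_le {σ : ℕ} [NeZero σ] {κ x v z Λ : ℝ} (hκ : 0 ≤ κ) (hx : 0 < x) (hv : 0 ≤ v)
    (hz : v ≤ z) (hΛ : z ≤ Λ) : |f6C σ κ x v z| ≤ 2 * σ * Λ + κ := by
  unfold f6C
  have hσ : (0 : ℝ) ≤ σ := Nat.cast_nonneg _
  have h1 : 0 ≤ ∑ j : ZMod σ, max 0 ((z - v) - x / (addOrderOf j : ℝ)) :=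
    Finset.sum_nonneg fun j _ => le_max_left _ _
  have h2 : ∑ j : ZMod σ, max 0 ((z - v) - x / (addOrderOf j : ℝ)) ≤ σ * Λ := by
    have h3 : ∑ j : ZMod σ, max 0 ((z - v) - x / (addOrderOf j : ℝ)) ≤ ∑ _j : ZMod σ, Λ := by
      apply Finset.sum_le_sum
      intro j _
      apply max_le (by linarith)
      have : 0 ≤ x / (addOrderOf j : ℝ) := by positivity
      linarith
    rw [Finset.sum_const, Finset.card_univ, ZMod.card, nsmul_eq_mul] at h3
    exact h3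
  have h4 : (0 : ℝ) ≤ σ * z := by
    have : 0 ≤ z := by linarith
    positivity
  have h5 : (σ : ℝ) * z ≤ σ * Λ := by gcongr
  rw [abs_le]
  constructor
  · nlinarith
  · nlinarith

private theorem f6_cont (σ : ℕ) [NeZero σ] (κ x : ℝ) :
    Continuous fun p : ℝ × ℝ => f6E σ κ p.1 p.2 * f6C σ κ x p.1 p.2 := by
  unfold f6E f6C
  apply Continuous.mul
  · fun_prop
  · apply Continuous.sub
    · fun_prop
    · apply continuous_finset_sum
      intro j _
      fun_prop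

private theorem f6_conta (σ : ℕ) (κ Λ : ℝ) : Continuous fun v : ℝ => f6E σ κ v Λ := by
  unfold f6E
  fun_prop

theorem found_lim (σ : ℕ) [NeZero σ] {Λ x : ℝ} (hΛ : 0 < Λ) (hx : 0 < x) :
    ∃ l, Filter.Tendsto (fun n : ℕ => Pr σ (n + 1) ⌊Λ * NN σ (n + 1)⌋₊
      (fun y => found σ (x * NN σ (n + 1)) ⌊Λ * NN σ (n + 1)⌋₊ y = 0)) Filter.atTop (nhds l) := by
  obtain ⟨κ, hκ0, hκ⟩ := PN_lim σ
  set T : ℕ → ℕ := fun n => ⌊Λ * NN σ (n + 1)⌋₊ with hT
  set W : ℕ → ℕ → ℝ := fun n u => if ∀ i < T n, aa σ (n + 1) i ≤ 1 then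
    vv σ (n + 1) (x * NN σ (n + 1)) (T n) (T n - u) u else 0 with hW
  have hN1 : ∀ n : ℕ, 1 ≤ NN σ (n + 1) := fun n => one_le_NN
  have hTle : ∀ n, (T n : ℝ) ≤ Λ * NN σ (n + 1) := by
    intro n
    apply Nat.floor_le
    have := hN1 n
    positivity
  have hTge : ∀ n, Λ * NN σ (n + 1) - 1 ≤ (T n : ℝ) := by
    intro n
    have := Nat.lt_floor_add_one (Λ * NN σ (n + 1))
    simp only [hT]
    linarith
  have hsmall : ∀ ε : ℝ, 0 < ε → ∃ n0 : ℕ, ∀ n, n0 ≤ n → ∀ i ≤ T n, aa σ (n + 1) i ≤ ε := by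
    intro ε hε
    obtain ⟨N0, h⟩ := aa_small σ hΛ hε
    exact ⟨N0, fun n hn i hi => h (n + 1) (by omega) i hi⟩
  have hNt : Filter.Tendsto (fun n : ℕ => NN σ (n + 1)) Filter.atTop Filter.atTop := by
    rw [Filter.tendsto_atTop]
    intro A
    obtain ⟨N0, h⟩ := NN_tendsto σ A
    filter_upwards [Filter.eventually_ge_atTop N0] with n hn
    exact h (n + 1) (by omega)
  have hWle : ∀ n u, u ≤ T n → |W n u| ≤ 1 := by
    intro n u hu
    simp only [hW]
    split_ifs with hc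
    · obtain ⟨h1, h2⟩ := vv_mem (L := x * NN σ (n + 1)) (s := u) hc (Nat.sub_le (T n) u)
      rw [abs_of_nonneg h1]
      exact h2
    · simp
  have hrec : ∀ ε : ℝ, 0 < ε → ∃ n0 : ℕ, ∀ n, n0 ≤ n → ∀ u, u ≤ T n →
      |W n u - (f6E σ κ (u / NN σ (n + 1)) Λ + (∑ m ∈ Finset.Ico u (T n),
        (f6E σ κ (u / NN σ (n + 1)) (m / NN σ (n + 1)) *
          f6C σ κ x (u / NN σ (n + 1)) (m / NN σ (n + 1))) * W n (m + 1)) / NN σ (n + 1))| ≤ ε := by
    intro ε hε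
    set MC : ℝ := 2 * σ * Λ + κ with hMC
    have hMC0 : 0 ≤ MC := by positivity
    -- the small parameter
    obtain ⟨δ, hδ0, hδ1, hδε⟩ : ∃ δ : ℝ, 0 < δ ∧ δ ≤ 1 ∧
        δ + δ * (σ * Λ + κ) + Λ * (δ * (MC + 1) + δ) ≤ ε := by
      have hden : 0 < 1 + (σ * Λ + κ) + Λ * (MC + 1 + 1) := by positivity
      refine ⟨min 1 (ε / (1 + (σ * Λ + κ) + Λ * (MC + 1 + 1))), by positivity, min_le_left _ _, ?_⟩
      have h1 : min 1 (ε / (1 + (σ * Λ + κ) + Λ * (MC + 1 + 1))) ≤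
          ε / (1 + (σ * Λ + κ) + Λ * (MC + 1 + 1)) := min_le_right _ _
      rw [le_div_iff₀ hden] at h1
      nlinarith
    obtain ⟨N1, h1⟩ := prod_lim σ hκ hκ0 hΛ hδ0
    obtain ⟨N2, h2⟩ := coef_lim σ hκ hΛ hx hδ0
    obtain ⟨N3, h3⟩ := hsmall 1 one_pos
    obtain ⟨N4, h4⟩ := NN_tendsto σ (1 / δ)
    refine ⟨N1 + N2 + N3 + N4, ?_⟩
    intro n hn u hu
    have hN0 : 0 < NN σ (n + 1) := lt_of_lt_of_le one_pos (hN1 n)
    have hNδ : 1 / NN σ (n + 1) ≤ δ := by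
      have := h4 (n + 1) (by omega)
      rw [div_le_iff₀ hδ0] at this
      rw [div_le_iff₀ hN0]
      linarith
    have hc : ∀ i < T n, aa σ (n + 1) i ≤ 1 := fun i hi => h3 n (by omega) i hi.le
    have hWv : ∀ v, W n v = vv σ (n + 1) (x * NN σ (n + 1)) (T n) (T n - v) v := by
      intro v
      simp only [hW]
      rw [if_pos hc]
    have hunr := vv_unroll (σ := σ) (n := n + 1) (x * NN σ (n + 1)) (s := u) (Nat.sub_le (T n) u)
    rw [Nat.sub_sub_self hu] at hunr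
    have hu0 : (0 : ℝ) ≤ u / NN σ (n + 1) := by positivity
    have hmΛ : ∀ m : ℕ, m ≤ T n → (m : ℝ) / NN σ (n + 1) ≤ Λ := by
      intro m hm
      rw [div_le_iff₀ hN0]
      have : (m : ℝ) ≤ T n := by exact_mod_cast hm
      linarith [hTle n]
    have hum : ∀ m : ℕ, u ≤ m → (u : ℝ) / NN σ (n + 1) ≤ m / NN σ (n + 1) := by
      intro m hm
      gcongr
    -- the product term
    have hA : |∏ i ∈ Finset.Ico u (T n), (1 - aa σ (n + 1) i) - f6E σ κ (u / NN σ (n + 1)) Λ| ≤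
        δ + δ * (σ * Λ + κ) := by
      have ha := h1 (n + 1) (by omega) u (T n) hu le_rfl
      have hb := f6E_lip (σ := σ) hκ0 hu0 (hum (T n) hu) (hmΛ (T n) le_rfl)
      have hc2 : Λ - (T n : ℝ) / NN σ (n + 1) ≤ δ := by
        refine le_trans ?_ hNδ
        rw [sub_le_iff_le_add, ← add_div, le_div_iff₀ hN0]
        linarith [hTge n]
      have hd : |∏ i ∈ Finset.Ico u (T n), (1 - aa σ (n + 1) i) -
          f6E σ κ (u / NN σ (n + 1)) (T n / NN σ (n + 1))| ≤ δ := ha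
      have he : (σ * Λ + κ) * (Λ - (T n : ℝ) / NN σ (n + 1)) ≤ δ * (σ * Λ + κ) := by
        rw [mul_comm δ]
        apply mul_le_mul_of_nonneg_left hc2
        positivity
      have hf := abs_sub_le (∏ i ∈ Finset.Ico u (T n), (1 - aa σ (n + 1) i))
        (f6E σ κ (u / NN σ (n + 1)) (T n / NN σ (n + 1))) (f6E σ κ (u / NN σ (n + 1)) Λ)
      linarith
    -- the sum
    have hB : ∀ m ∈ Finset.Ico u (T n),
        |(∏ i ∈ Finset.Ico u m, (1 - aa σ (n + 1) i)) *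
          (aa σ (n + 1) m - (lam σ (x * NN σ (n + 1)) (m - u) : ℝ) / (((n + 1 : ℕ) : ℝ)) ^ σ) *
            W n (m + 1) -
          (f6E σ κ (u / NN σ (n + 1)) (m / NN σ (n + 1)) *
            f6C σ κ x (u / NN σ (n + 1)) (m / NN σ (n + 1))) * W n (m + 1) / NN σ (n + 1)| ≤
        (δ * (MC + 1) + δ) / NN σ (n + 1) := by
      intro m hm
      rw [Finset.mem_Ico] at hm
      have ha := h1 (n + 1) (by omega) u m hm.1 hm.2.le
      have hb := h2 (n + 1) (by omega) u m hm.1 hm.2.le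
      set P := ∏ i ∈ Finset.Ico u m, (1 - aa σ (n + 1) i) with hP
      set c := aa σ (n + 1) m - (lam σ (x * NN σ (n + 1)) (m - u) : ℝ) / (((n + 1 : ℕ) : ℝ)) ^ σ with hcc
      set E := f6E σ κ (u / NN σ (n + 1)) (m / NN σ (n + 1)) with hE
      set C := f6C σ κ x (u / NN σ (n + 1)) (m / NN σ (n + 1)) with hC
      have ha' : |P - E| ≤ δ := ha
      have hb' : |NN σ (n + 1) * c - C| ≤ δ := hb
      have hE1 : |E| ≤ 1 := by
        rw [abs_of_nonneg f6E_nonneg]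
        exact f6E_le hκ0 hu0 (hum m hm.1)
      have hC1 : |C| ≤ MC := f6C_le hκ0 hx hu0 (hum m hm.1) (hmΛ m hm.2.le)
      have hNc : |NN σ (n + 1) * c| ≤ MC + 1 := by
        have := abs_sub_abs_le_abs_sub (NN σ (n + 1) * c) C
        linarith
      have hw : |W n (m + 1)| ≤ 1 := hWle n (m + 1) hm.2
      have key : |P * (NN σ (n + 1) * c) - E * C| ≤ δ * (MC + 1) + δ := by
        have : P * (NN σ (n + 1) * c) - E * C =
            (P - E) * (NN σ (n + 1) * c) + E * (NN σ (n + 1) * c - C) := by ring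
        rw [this]
        refine (abs_add_le _ _).trans ?_
        rw [abs_mul (P - E), abs_mul E]
        have q1 : |P - E| * |NN σ (n + 1) * c| ≤ δ * (MC + 1) := by
          apply mul_le_mul ha' hNc (abs_nonneg _) hδ0.le
        have q2 : |E| * |NN σ (n + 1) * c - C| ≤ 1 * δ := by
          apply mul_le_mul hE1 hb' (abs_nonneg _) zero_le_one
        linarith
      have heq : P * c * W n (m + 1) - E * C * W n (m + 1) / NN σ (n + 1) =
          (P * (NN σ (n + 1) * c) - E * C) / NN σ (n + 1) * W n (m + 1) := by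
        field_simp
      rw [heq, abs_mul, abs_div, abs_of_pos hN0]
      have q3 : |P * (NN σ (n + 1) * c) - E * C| / NN σ (n + 1) ≤
          (δ * (MC + 1) + δ) / NN σ (n + 1) := by gcongr
      calc |P * (NN σ (n + 1) * c) - E * C| / NN σ (n + 1) * |W n (m + 1)| ≤
          (δ * (MC + 1) + δ) / NN σ (n + 1) * 1 := by
            apply mul_le_mul q3 hw (abs_nonneg _)
            positivity
        _ = (δ * (MC + 1) + δ) / NN σ (n + 1) := mul_one _
    have hBsum : |∑ m ∈ Finset.Ico u (T n), ((∏ i ∈ Finset.Ico u m, (1 - aa σ (n + 1) i)) *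
          (aa σ (n + 1) m - (lam σ (x * NN σ (n + 1)) (m - u) : ℝ) / (((n + 1 : ℕ) : ℝ)) ^ σ) *
            W n (m + 1)) - (∑ m ∈ Finset.Ico u (T n),
        (f6E σ κ (u / NN σ (n + 1)) (m / NN σ (n + 1)) *
          f6C σ κ x (u / NN σ (n + 1)) (m / NN σ (n + 1))) * W n (m + 1)) / NN σ (n + 1)| ≤
        Λ * (δ * (MC + 1) + δ) := by
      rw [Finset.sum_div, ← Finset.sum_sub_distrib]
      refine (Finset.abs_sum_le_sum_abs _ _).trans ?_
      refine (Finset.sum_le_sum hB).trans ?_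
      rw [Finset.sum_const, nsmul_eq_mul, Nat.card_Ico]
      have q4 : ((T n - u : ℕ) : ℝ) ≤ Λ * NN σ (n + 1) := by
        have : ((T n - u : ℕ) : ℝ) ≤ T n := by exact_mod_cast Nat.sub_le _ _
        linarith [hTle n]
      calc ((T n - u : ℕ) : ℝ) * ((δ * (MC + 1) + δ) / NN σ (n + 1)) ≤
          (Λ * NN σ (n + 1)) * ((δ * (MC + 1) + δ) / NN σ (n + 1)) := by gcongr
        _ = Λ * (δ * (MC + 1) + δ) := by field_simp
    have hWu : W n u = ∏ i ∈ Finset.Ico u (T n), (1 - aa σ (n + 1) i) +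
        ∑ m ∈ Finset.Ico u (T n), ((∏ i ∈ Finset.Ico u m, (1 - aa σ (n + 1) i)) *
          (aa σ (n + 1) m - (lam σ (x * NN σ (n + 1)) (m - u) : ℝ) / (((n + 1 : ℕ) : ℝ)) ^ σ) *
            W n (m + 1)) := by
      rw [hWv u, hunr]
      congr 1
      apply Finset.sum_congr rfl
      intro m _
      rw [hWv (m + 1)]
    rw [hWu]
    have hfin := abs_add_le
      (∏ i ∈ Finset.Ico u (T n), (1 - aa σ (n + 1) i) - f6E σ κ (u / NN σ (n + 1)) Λ)
      (∑ m ∈ Finset.Ico u (T n), ((∏ i ∈ Finset.Ico u m, (1 - aa σ (n + 1) i)) *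
          (aa σ (n + 1) m - (lam σ (x * NN σ (n + 1)) (m - u) : ℝ) / (((n + 1 : ℕ) : ℝ)) ^ σ) *
            W n (m + 1)) - (∑ m ∈ Finset.Ico u (T n),
        (f6E σ κ (u / NN σ (n + 1)) (m / NN σ (n + 1)) *
          f6C σ κ x (u / NN σ (n + 1)) (m / NN σ (n + 1))) * W n (m + 1)) / NN σ (n + 1))
    rw [add_sub_add_comm]
    linarith
  obtain ⟨l, hl⟩ := volterra_limit hΛ (f6_conta σ κ Λ) (K := fun v z => f6E σ κ v z * f6C σ κ x v z)
    (f6_cont σ κ x) (fun n => NN σ (n + 1)) hNt W hWle hrec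
  refine ⟨l, ?_⟩
  -- comparison
  have hdiff : Filter.Tendsto (fun n : ℕ => Pr σ (n + 1) (T n)
      (fun y => found σ (x * NN σ (n + 1)) (T n) y = 0) - W n 0) Filter.atTop (nhds 0) := by
    rw [Metric.tendsto_atTop]
    intro ε hε
    obtain ⟨N1, h1⟩ := hsmall 1 one_pos
    obtain ⟨N2, h2⟩ := hsmall (ε / (2 * (Λ ^ 2 * σ + 1))) (by positivity)
    refine ⟨N1 + N2, ?_⟩
    intro n hn
    have hN0 : 0 < NN σ (n + 1) := lt_of_lt_of_le one_pos (hN1 n)
    have hc : ∀ i < T n, aa σ (n + 1) i ≤ 1 := fun i hi => h1 n (by omega) i hi.le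
    have hL : 0 ≤ x * NN σ (n + 1) := by positivity
    have hf := found_vv (σ := σ) (n := n + 1) hL hc
    have hW0 : W n 0 = vv σ (n + 1) (x * NN σ (n + 1)) (T n) (T n) 0 := by
      simp only [hW]
      rw [if_pos hc, Nat.sub_zero]
    rw [Real.dist_eq, sub_zero, hW0]
    refine lt_of_le_of_lt hf ?_
    have ha := h2 n (by omega) (T n) le_rfl
    have ha0 : 0 ≤ aa σ (n + 1) (T n) := aa_nonneg _
    have hsq : (((n + 1 : ℕ) : ℝ)) ^ σ = NN σ (n + 1) ^ 2 := NN_sq.symm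
    rw [hsq]
    have hTT : (T n : ℝ) ^ 2 ≤ (Λ * NN σ (n + 1)) ^ 2 := by
      have := hTle n
      gcongr
    calc (T n : ℝ) * (σ / NN σ (n + 1) ^ 2 * (T n * aa σ (n + 1) (T n))) =
        (T n : ℝ) ^ 2 * (σ / NN σ (n + 1) ^ 2 * aa σ (n + 1) (T n)) := by ring
      _ ≤ (Λ * NN σ (n + 1)) ^ 2 * (σ / NN σ (n + 1) ^ 2 * aa σ (n + 1) (T n)) := by gcongr
      _ = Λ ^ 2 * σ * aa σ (n + 1) (T n) := by field_simp
      _ ≤ Λ ^ 2 * σ * (ε / (2 * (Λ ^ 2 * σ + 1))) := by gcongr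
      _ < ε := by
          have hp : 0 < Λ ^ 2 * (σ : ℝ) + 1 := by positivity
          rw [mul_div_assoc', div_lt_iff₀ (by positivity)]
          have : 0 ≤ Λ ^ 2 * (σ : ℝ) := by positivity
          nlinarith
  have hsum := hdiff.add hl
  rw [zero_add] at hsum
  refine hsum.congr fun n => ?_
  simp only [hT]
  ring

end CAB
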