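import Pool.Agent.Lib.MP_eab41b_pr.B.F2a

/-! Row G0: inequalities for `ppi` and elementary sums.

Sketch. `ppi_sub_le`: `Q_k - Q_l ≤ Σ_{i ∈ [k, l)} a_i ≤ (l - k) a_l` (telescoping, factors in `[0, 1]`). `ppi_le`: `Q_k ≤ exp(-Σ_{i<k} σ i/n^σ) = exp(-σ k (k-1)/(2 n^σ))`, `k (k - 1) ≥ k^2/2` for `k ≥ 2`, `e^{-y} ≤ 1/y`; `k = 1`: `Q ≤ 1 ≤ 4 n^σ`.
`tele_lower`: with `q_t = ∏_{i ∈ [t, t+l)} (1 - a_i)`: `q_t - q_{t+1} = (σ l/n^σ) ∏_{i ∈ (t, t+l)} (1 - a_i)` and `q_t ≥ (1 - a_T) ∏_{i ∈ (t, t+l)} (1 - a_i)`, so `q_t/n^σ ≥ (1 - a_T) (q_t - q_{t+1})/(σ l)`; telescoping over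
`t < T - l`; `q_{T-l} ≤ q_0 exp(-σ l (T - l)/n^σ)` since `1 - a_i - b ≤ (1 - a_i)(1 - b) ≤ (1 - a_i) e^{-b}`, `b = σ (T - l)/n^σ`. -/

set_option autoImplicit false

set_option linter.unusedSectionVars false

open scoped Classical

namespace CAB

variable {σ n : ℕ} [NeZero n] [NeZero σ]

private theorem npow_pos : (0 : ℝ) < (n : ℝ) ^ σ := by
  have : (0 : ℝ) < n := Nat.cast_pos.2 (Nat.pos_of_ne_zero (NeZero.ne n))
  positivity

private theorem npow_ge_one : (1 : ℝ) ≤ (n : ℝ) ^ σ := by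
  have : (1 : ℝ) ≤ n := Nat.one_le_cast.2 (Nat.pos_of_ne_zero (NeZero.ne n))
  exact one_le_pow₀ this

private theorem sig_ge_one : (1 : ℝ) ≤ (σ : ℝ) := Nat.one_le_cast.2 (Nat.pos_of_ne_zero (NeZero.ne σ))

private theorem aa_add (i k : ℕ) : aa σ n (i + k) = aa σ n i + σ * k / (n : ℝ) ^ σ := by
  unfold aa
  push_cast
  rw [← add_div]
  congr 1
  ring

theorem ppi_nonneg {k : ℕ} (ha : ∀ i < k, aa σ n i ≤ 1) : 0 ≤ ppi σ n k := by
  unfold ppi
  exact Finset.prod_nonneg fun i hi => sub_nonneg.2 (ha i (Finset.mem_range.1 hi))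

theorem ppi_le_one {k : ℕ} (ha : ∀ i < k, aa σ n i ≤ 1) : ppi σ n k ≤ 1 := by
  unfold ppi
  exact Finset.prod_le_one (fun i hi => sub_nonneg.2 (ha i (Finset.mem_range.1 hi)))
    fun i _ => by linarith [aa_nonneg (σ := σ) (n := n) i]

private theorem ppi_succ (k : ℕ) : ppi σ n (k + 1) = ppi σ n k * (1 - aa σ n k) := by
  unfold ppi
  exact Finset.prod_range_succ _ _

theorem ppi_anti {k l : ℕ} (hkl : k ≤ l) (ha : ∀ i < l, aa σ n i ≤ 1) :
    ppi σ n l ≤ ppi σ n k := by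
  induction l, hkl using Nat.le_induction with
  | base => exact le_rfl
  | succ l hkl ih =>
    have h1 := ih fun i hi => ha i (by omega)
    rw [ppi_succ]
    have h2 : 0 ≤ ppi σ n l := ppi_nonneg fun i hi => ha i (by omega)
    have h3 := aa_nonneg (σ := σ) (n := n) l
    nlinarith

theorem ppi_sub_le {k l : ℕ} (hkl : k ≤ l) (ha : ∀ i < l, aa σ n i ≤ 1) :
    ppi σ n k - ppi σ n l ≤ ((l : ℝ) - k) * aa σ n l := by
  induction l, hkl using Nat.le_induction with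
  | base => simp
  | succ l hkl ih =>
    have h1 := ih fun i hi => ha i (by omega)
    rw [ppi_succ]
    have h2 : ppi σ n l ≤ 1 := ppi_le_one fun i hi => ha i (by omega)
    have h3 := aa_nonneg (σ := σ) (n := n) l
    have h4 : aa σ n l ≤ aa σ n (l + 1) := aa_mono (by omega)
    have h5 : ppi σ n l * aa σ n l ≤ aa σ n l := by nlinarith
    have h6 : (k : ℝ) ≤ l := by exact_mod_cast hkl
    push_cast
    have h7 : ((l : ℝ) + 1 - k) * aa σ n l ≤ ((l : ℝ) + 1 - k) * aa σ n (l + 1) :=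
      mul_le_mul_of_nonneg_left h4 (by linarith)
    nlinarith

theorem ppi_le_exp {k : ℕ} (ha : ∀ i < k, aa σ n i ≤ 1) :
    ppi σ n k ≤ Real.exp (-((σ : ℝ) * k * ((k : ℝ) - 1) / (2 * (n : ℝ) ^ σ))) := by
  induction k with
  | zero => simp [ppi]
  | succ k ih =>
    have h1 := ih fun i hi => ha i (by omega)
    rw [ppi_succ]
    have hn := npow_pos (σ := σ) (n := n)
    have h2 : 1 - aa σ n k ≤ Real.exp (-((σ : ℝ) * k / (n : ℝ) ^ σ)) := by
      have h3 : (σ : ℝ) * k / (n : ℝ) ^ σ ≤ aa σ n k := by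
        unfold aa
        gcongr
        have : (0 : ℝ) ≤ (PN σ n : ℝ) := Nat.cast_nonneg _
        linarith
      have h4 := Real.add_one_le_exp (-((σ : ℝ) * k / (n : ℝ) ^ σ))
      linarith
    have h5 : 0 ≤ 1 - aa σ n k := sub_nonneg.2 (ha k (by omega))
    refine (mul_le_mul h1 h2 h5 (Real.exp_nonneg _)).trans (le_of_eq ?_)
    rw [← Real.exp_add]
    congr 1
    push_cast
    field_simp
    ring

theorem ppi_le {k : ℕ} (hk : 1 ≤ k) (ha : ∀ i < k, aa σ n i ≤ 1) :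
    ppi σ n k ≤ 4 * (n : ℝ) ^ σ / (k : ℝ) ^ 2 := by
  have hn1 := npow_ge_one (σ := σ) (n := n)
  have hs := sig_ge_one (σ := σ)
  rcases hk.eq_or_lt with h1 | h1
  · rw [← h1]
    have := ppi_le_one (σ := σ) (n := n) (k := 1) fun i hi => ha i (by omega)
    simp only [Nat.cast_one, one_pow, div_one]
    linarith
  · have hk2 : (2 : ℝ) ≤ k := by exact_mod_cast h1
    set y : ℝ := (σ : ℝ) * k * ((k : ℝ) - 1) / (2 * (n : ℝ) ^ σ) with hy
    have hle := ppi_le_exp ha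
    rw [← hy] at hle
    have hy1 : (k : ℝ) ^ 2 / (4 * (n : ℝ) ^ σ) ≤ y := by
      rw [hy, div_le_div_iff₀ (by positivity) (by positivity)]
      have h3 : (k : ℝ) ^ 2 ≤ 2 * ((σ : ℝ) * k * ((k : ℝ) - 1)) := by
        have : (k : ℝ) ^ 2 ≤ 2 * (k * ((k : ℝ) - 1)) := by nlinarith
        have h4 : (k : ℝ) * ((k : ℝ) - 1) ≤ σ * (k * ((k : ℝ) - 1)) := by
          have : 0 ≤ (k : ℝ) * ((k : ℝ) - 1) := by nlinarith
          nlinarith
        nlinarith
      nlinarith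
    have hpos : 0 < (k : ℝ) ^ 2 / (4 * (n : ℝ) ^ σ) := by positivity
    have h2 : Real.exp (-y) ≤ 1 / y := by
      rw [Real.exp_neg, ← one_div]
      exact one_div_le_one_div_of_le (hpos.trans_le hy1) (by linarith [Real.add_one_le_exp y])
    have h3 : 1 / y ≤ 1 / ((k : ℝ) ^ 2 / (4 * (n : ℝ) ^ σ)) := one_div_le_one_div_of_le hpos hy1
    have e4 : 1 / ((k : ℝ) ^ 2 / (4 * (n : ℝ) ^ σ)) = 4 * (n : ℝ) ^ σ / (k : ℝ) ^ 2 := one_div_div _ _
    rw [e4] at h3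
    exact hle.trans (h2.trans h3)

private theorem q_step {l t : ℕ} (hl : 1 ≤ l) :
    (∏ i ∈ Finset.Ico t (t + l), (1 - aa σ n i)) =
      (1 - aa σ n t) * ∏ i ∈ Finset.Ico (t + 1) (t + l), (1 - aa σ n i) :=
  Finset.prod_eq_prod_Ico_succ_bot (by omega) _

private theorem q_step' {l t : ℕ} (hl : 1 ≤ l) :
    (∏ i ∈ Finset.Ico (t + 1) (t + 1 + l), (1 - aa σ n i)) =
      (∏ i ∈ Finset.Ico (t + 1) (t + l), (1 - aa σ n i)) * (1 - aa σ n (t + l)) := by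
  have : t + 1 + l = (t + l) + 1 := by ring
  rw [this]
  exact Finset.prod_Ico_succ_top (by omega) _

theorem tele_lower {l T : ℕ} (hl : 1 ≤ l) (hlT : l ≤ T) (ha : ∀ i ≤ T, aa σ n i ≤ 1) :
    (1 - aa σ n T) * ppi σ n l / (σ * l) *
      (1 - Real.exp (-((σ : ℝ) * l * ((T : ℝ) - l) / (n : ℝ) ^ σ))) ≤
    ∑ t ∈ Finset.range (T - l), (∏ i ∈ Finset.Ico t (t + l), (1 - aa σ n i)) / (n : ℝ) ^ σ := by
  have hn := npow_pos (σ := σ) (n := n)
  have hs := sig_ge_one (σ := σ)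
  have hl' : (1 : ℝ) ≤ l := by exact_mod_cast hl
  have hT : 0 ≤ 1 - aa σ n T := sub_nonneg.2 (ha T le_rfl)
  set q : ℕ → ℝ := fun t => ∏ i ∈ Finset.Ico t (t + l), (1 - aa σ n i) with hq
  -- one term
  have hterm : ∀ t ∈ Finset.range (T - l),
      (1 - aa σ n T) / (σ * l) * (q t - q (t + 1)) ≤ q t / (n : ℝ) ^ σ := by
    intro t ht
    have ht' : t + l < T := by
      have := Finset.mem_range.1 ht
      omega
    have e1 : q t = (1 - aa σ n t) * ∏ i ∈ Finset.Ico (t + 1) (t + l), (1 - aa σ n i) := q_step hl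
    have e2 : q (t + 1) = (∏ i ∈ Finset.Ico (t + 1) (t + l), (1 - aa σ n i)) * (1 - aa σ n (t + l)) :=
      q_step' hl
    set P : ℝ := ∏ i ∈ Finset.Ico (t + 1) (t + l), (1 - aa σ n i) with hP
    have hP0 : 0 ≤ P := Finset.prod_nonneg fun i hi => by
      have := Finset.mem_Ico.1 hi
      exact sub_nonneg.2 (ha i (by omega))
    have e3 : q t - q (t + 1) = P * (σ * l / (n : ℝ) ^ σ) := by
      rw [e1, e2, aa_add]
      ring
    rw [e3, e1]
    have h4 : aa σ n t ≤ aa σ n T := aa_mono (by omega)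
    have h5 : (1 - aa σ n T) / (σ * l) * (P * (σ * l / (n : ℝ) ^ σ)) = (1 - aa σ n T) * P / (n : ℝ) ^ σ := by
      field_simp
    rw [h5]
    gcongr
  refine le_trans ?_ (Finset.sum_le_sum hterm)
  rw [← Finset.mul_sum, Finset.sum_range_sub']
  have hq0 : q 0 = ppi σ n l := by
    rw [hq]
    simp only [zero_add]
    unfold ppi
    rw [Finset.range_eq_Ico]
  have hTl : ((T - l : ℕ) : ℝ) = (T : ℝ) - l := by
    rw [Nat.cast_sub hlT]
  have hqT : q (T - l) ≤ ppi σ n l * Real.exp (-((σ : ℝ) * l * ((T : ℝ) - l) / (n : ℝ) ^ σ)) := by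
    set b : ℝ := σ * ((T : ℝ) - l) / (n : ℝ) ^ σ with hb
    have hlT' : (l : ℝ) ≤ T := by exact_mod_cast hlT
    have hb0 : 0 ≤ b := by
      rw [hb]
      have : (0 : ℝ) ≤ (T : ℝ) - l := by linarith
      positivity
    have e1 : q (T - l) = ∏ i ∈ Finset.range l, (1 - aa σ n (T - l + i)) := by
      rw [hq]
      simp only
      rw [Finset.prod_Ico_eq_prod_range]
      congr 1
      rw [Nat.add_sub_cancel_left]
    have e2 : ppi σ n l * Real.exp (-((σ : ℝ) * l * ((T : ℝ) - l) / (n : ℝ) ^ σ)) =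
        ∏ i ∈ Finset.range l, ((1 - aa σ n i) * Real.exp (-b)) := by
      rw [Finset.prod_mul_distrib, Finset.prod_const, Finset.card_range, ← Real.exp_nat_mul]
      unfold ppi
      congr 2
      rw [hb]
      ring
    rw [e1, e2]
    refine Finset.prod_le_prod ?_ ?_
    · intro i hi
      have := Finset.mem_range.1 hi
      exact sub_nonneg.2 (ha _ (by omega))
    · intro i hi
      have hi' := Finset.mem_range.1 hi
      rw [add_comm, aa_add, hTl, ← hb]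
      have h1 : 0 ≤ 1 - aa σ n i := sub_nonneg.2 (ha i (by omega))
      have h2 := aa_nonneg (σ := σ) (n := n) i
      have h3 := Real.add_one_le_exp (-b)
      nlinarith [mul_nonneg h2 hb0, mul_le_mul_of_nonneg_left h3 h1]
  rw [hq0]
  have h6 : 0 ≤ (1 - aa σ n T) / (σ * l) := div_nonneg hT (by positivity)
  calc (1 - aa σ n T) * ppi σ n l / (σ * l) *
      (1 - Real.exp (-((σ : ℝ) * l * ((T : ℝ) - l) / (n : ℝ) ^ σ)))
      = (1 - aa σ n T) / (σ * l) * (ppi σ n l - ppi σ n l *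
        Real.exp (-((σ : ℝ) * l * ((T : ℝ) - l) / (n : ℝ) ^ σ))) := by ring
    _ ≤ (1 - aa σ n T) / (σ * l) * (ppi σ n l - q (T - l)) := by
      apply mul_le_mul_of_nonneg_left _ h6
      linarith

private theorem tail_Ico {m : ℕ} (hm : 1 ≤ m) {K : ℕ} (hK : m ≤ K) :
    ∑ l ∈ Finset.Ico (m + 1) (K + 1), 1 / (l : ℝ) ^ 3 ≤ 1 / 2 * (1 / (m : ℝ) ^ 2 - 1 / (K : ℝ) ^ 2) := by
  induction K, hK using Nat.le_induction with
  | base => simp
  | succ K hK ih =>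
    rw [Finset.sum_Ico_succ_top (by omega)]
    have hK1 : (1 : ℝ) ≤ K := by exact_mod_cast hm.trans hK
    have h1 : 1 / ((K + 1 : ℕ) : ℝ) ^ 3 ≤ 1 / 2 * (1 / (K : ℝ) ^ 2 - 1 / ((K + 1 : ℕ) : ℝ) ^ 2) := by
      push_cast
      have e : 1 / 2 * (1 / (K : ℝ) ^ 2 - 1 / ((K : ℝ) + 1) ^ 2) - 1 / ((K : ℝ) + 1) ^ 3 =
          (3 * K + 1) / (2 * (K : ℝ) ^ 2 * ((K : ℝ) + 1) ^ 3) := by
        field_simp
        ring
      have : 0 ≤ (3 * (K : ℝ) + 1) / (2 * (K : ℝ) ^ 2 * ((K : ℝ) + 1) ^ 3) := by positivity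
      linarith
    linarith

theorem tail_sum {M : ℝ} (hM : 1 ≤ M) (S : Finset ℕ) (hS : ∀ l ∈ S, M < (l : ℝ)) :
    ∑ l ∈ S, 1 / (l : ℝ) ^ 3 ≤ 2 / M ^ 2 := by
  set m : ℕ := ⌊M⌋₊ with hm
  have hm1 : 1 ≤ m := (Nat.one_le_floor_iff M).2 hM
  have hm1' : (1 : ℝ) ≤ m := by exact_mod_cast hm1
  have hM2 : M < m + 1 := Nat.lt_floor_add_one M
  set K : ℕ := max m (S.sup id) with hK
  have hsub : S ⊆ Finset.Ico (m + 1) (K + 1) := by
    intro l hl
    rw [Finset.mem_Ico]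
    constructor
    · have h1 := hS l hl
      have h2 : (m : ℝ) < l := (Nat.floor_le (by linarith)).trans_lt h1
      exact_mod_cast h2
    · have : l ≤ S.sup id := Finset.le_sup (f := id) hl
      omega
  have h1 := (Finset.sum_le_sum_of_subset_of_nonneg hsub fun (l : ℕ) _ _ =>
    (by positivity : (0 : ℝ) ≤ 1 / (l : ℝ) ^ 3)).trans (tail_Ico hm1 (le_max_left _ _))
  have h2 : (0 : ℝ) ≤ 1 / (K : ℝ) ^ 2 := by positivity
  have h3 : 1 / 2 * (1 / (m : ℝ) ^ 2) ≤ 2 / M ^ 2 := by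
    have h4 : M ≤ 2 * m := by linarith
    rw [← mul_div_assoc, mul_one, div_div, div_le_div_iff₀ (by positivity) (by positivity)]
    nlinarith
  linarith

end CAB
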