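import Pool.Agent.Lib.MP_eab41b_pr.B.F5
import Pool.Agent.Lib.MP_eab41b_pr.B.G0

/-! Row G1: the numerical comparison of `E Wt` and `E found` (pure inequalities).

Sketch: `L = x N`, `T = ⌊Λ N⌋₊`, `Q_k = ppi k = ∏_{i<k} (1 - a_i)` (for `a_i ≤ 1`), `U` = first sum, `D` = second sum.
Fix `A ≥ 1`. (1) Terms `l > A N` of `U`: `p l ≤ C/n^{σ+1} + Q_{⌊(1-η) l⌋}`, `1/(1-η) ≤ 2`; `Σ_j 1/σ = 1`; `Σ_{l ≤ Tm} C/n^{σ+1} ≤ C Tm/n^{σ+1} ≤ C/n`; `Q_k ≤ exp(-Σ_{i<k} σ i/n^σ) ≤ exp(-σ k (k-1)/(2 N^2)) ≤ 2 N^2/(σ k (k-1)) ≤ C N^2/l^2`, so `Σ_{l > AN} Q/l ≤ C N^2 Σ_{l>AN} l^{-3} ≤ C/A^2`.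
(2) Terms `l ≤ A N` (and `L < l ord j`, so `l ≥ x N/σ`) against `D` (`Λ > A`): for `a_i ≤ 1/2`: `1 - a_{t+i} = 1 - a_i - σ t/n^σ ≥ (1 - a_i)(1 - b t)`, `b = (σ/n^σ)/(1 - a_{AN})`, so `∏_{i ∈ [t, t+l)} (1 - a_i) ≥ Q_l (1 - b t)^l` (when `b t ≤ 1`), and `Σ_{t<T-l} (1 - b t)^l ≥ ∫_0^{T-l} (1 - b t)^l dt = (1 - (1 - b (T - l))^{l+1})/(b (l+1)) ≥
(1 - exp(-b (T-l) (l+1)))/(b (l+1))`, with `b (T - l)(l + 1) ≥ σ (Λ - A - 1/N) N · x N/σ / N^2 ≥ x (Λ - A)/2`, and `1/(n^σ b (l+1)) = (1 - a)/(σ (l + 1)) ≥ (1/(σ l)) (1 - C/N)`. (Alternatively telescoping: with `Q_t^l = ∏_{[t,t+l)} (1-a_i)`: `Q^l_t - Q^l_{t+1} = Q^l_{t} · (a_{t+l} - a_t)/(1 - a_t) = Q^l_t σ l n^{-σ}/(1 - a_t)`,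
so `Σ_{t<T-l} Q^l_t n^{-σ} ≥ (1 - a_{T}) (Q^l_0 - Q^l_{T-l})/(σ l)`, and `Q^l_{T-l} ≤ Q^l_0 exp(-l σ (T-l)/n^σ)`: this is the simplest way.) So the difference of the `(j, l)` terms is at most
`(1/(σ l)) [C/n^{σ+1} · 2 + Q_{⌊(1-η) l⌋}/(1-η) - Q_l (1 - a_T)(1 - e^{-x (Λ-A)/2})]`, `Q_{⌊(1-η) l⌋} - Q_l ≤ Σ_{i ∈ [(1-η) l - 1, l)} a_i ≤ (η l + 1) a_{AN} ≤ C_A η + C_A/N`; and `Σ_{xN/σ < l ≤ AN} 1/l ≤ 1 + log(A σ/x)`. Choose `A`, then `η`, then `Λ`, then `N0`. -/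

set_option autoImplicit false

set_option linter.unusedSectionVars false

open scoped Classical

namespace CAB

variable {σ n : ℕ} [NeZero n] [NeZero σ]

private theorem aa_le_of {A : ℝ} {l : ℕ} (hl : (l : ℝ) ≤ A * NN σ n) :
    aa σ n l ≤ σ * (A + 1) / NN σ n := by
  have h1 := one_le_NN (σ := σ) (n := n)
  have hN : 0 < NN σ n := by linarith
  have h2 := PN_le (σ := σ) (n := n)
  have hs : (0 : ℝ) ≤ σ := Nat.cast_nonneg _
  have h3 : (σ : ℝ) * l ≤ σ * (A * NN σ n) := mul_le_mul_of_nonneg_left hl hs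
  unfold aa
  rw [← NN_sq, div_le_div_iff₀ (by positivity) hN]
  have h4 : (σ : ℝ) * l + PN σ n ≤ σ * (A + 1) * NN σ n := by linarith
  calc ((σ : ℝ) * l + PN σ n) * NN σ n ≤ (σ * (A + 1) * NN σ n) * NN σ n :=
        mul_le_mul_of_nonneg_right h4 hN.le
    _ = σ * (A + 1) * NN σ n ^ 2 := by ring

private theorem theta_le {η : ℝ} (hη : 0 < η) (hη2 : η ≤ 1 / 2) : 1 / (1 - η) ≤ 1 + 2 * η := by
  have h1 : 0 ≤ η * (1 - 2 * η) := mul_nonneg hη.le (by linarith)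
  rw [div_le_iff₀ (by linarith)]
  have h2 : (1 + 2 * η) * (1 - η) = 1 + η * (1 - 2 * η) := by ring
  rw [h2]
  linarith

private theorem low_q {q a e : ℝ} (hq0 : 0 ≤ q) (hq1 : q ≤ 1) (ha : 0 ≤ a) (he : 0 ≤ e) :
    q - a - e ≤ (1 - a) * q * (1 - e) := by
  have h1 : 0 ≤ a * q * e := by positivity
  have h2 : 0 ≤ a * (1 - q) := mul_nonneg ha (by linarith)
  have h3 : 0 ≤ (1 - q) * e := mul_nonneg (by linarith) he
  have h4 : (1 - a) * q * (1 - e) - (q - a - e) = a * q * e + a * (1 - q) + (1 - q) * e := by ring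
  linarith

/-- terms with a long period -/
private theorem big_term {η C : ℝ} (hη : 0 < η) (hη2 : η ≤ 1 / 2) {l : ℕ} (hl : 4 ≤ l)
    (ha : ∀ i < l, aa σ n i ≤ 1) {pl : ℝ}
    (hp : pl ≤ C / (n : ℝ) ^ (σ + 1) + ppi σ n ⌊(1 - η) * (l : ℝ)⌋₊) :
    pl / ((σ : ℝ) * (1 - η) * l) ≤ 2 * |C| / (n : ℝ) ^ (σ + 1) + 128 * NN σ n ^ 2 * (1 / (l : ℝ) ^ 3) := by
  have hn : (0 : ℝ) < n := by
    have := NeZero.pos n
    exact_mod_cast this
  have hσ : (1 : ℝ) ≤ σ := by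
    have := NeZero.pos σ
    exact_mod_cast this
  have hl4 : (4 : ℝ) ≤ l := by exact_mod_cast hl
  have hl0 : (0 : ℝ) < l := by linarith
  set k := ⌊(1 - η) * (l : ℝ)⌋₊ with hk
  have hk1 : (1 - η) * (l : ℝ) < k + 1 := Nat.lt_floor_add_one _
  have hk2 : (l : ℝ) / 4 ≤ k := by nlinarith
  have hk3 : (1 : ℝ) ≤ k := by linarith
  have hk4 : 1 ≤ k := by exact_mod_cast hk3
  have hkl : k ≤ l := by
    have : (k : ℝ) ≤ (1 - η) * l := Nat.floor_le (by nlinarith)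
    have h' : (k : ℝ) ≤ l := by nlinarith
    exact_mod_cast h'
  have hQ := ppi_le (σ := σ) (n := n) hk4 (fun i hi => ha i (lt_of_lt_of_le hi hkl))
  have hQ2 : ppi σ n k ≤ 64 * NN σ n ^ 2 / (l : ℝ) ^ 2 := by
    refine hQ.trans ?_
    rw [← NN_sq, div_le_div_iff₀ (by positivity) (by positivity)]
    have : (l : ℝ) ^ 2 ≤ 16 * (k : ℝ) ^ 2 := by nlinarith
    have hNN : 0 ≤ NN σ n ^ 2 := by positivity
    nlinarith [mul_le_mul_of_nonneg_left this hNN]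
  have hden : 0 < (σ : ℝ) * (1 - η) * l := by
    have : 0 < 1 - η := by linarith
    positivity
  have hden2 : (l : ℝ) / 2 ≤ (σ : ℝ) * (1 - η) * l := by
    have h1 : (1 : ℝ) / 2 ≤ σ * (1 - η) := by nlinarith
    nlinarith
  have hC : C / (n : ℝ) ^ (σ + 1) ≤ |C| / (n : ℝ) ^ (σ + 1) :=
    div_le_div_of_nonneg_right (le_abs_self C) (by positivity)
  have hP : pl ≤ |C| / (n : ℝ) ^ (σ + 1) + 64 * NN σ n ^ 2 / (l : ℝ) ^ 2 := by linarith
  have hX : 0 ≤ |C| / (n : ℝ) ^ (σ + 1) := by positivity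
  have hY : 0 ≤ 64 * NN σ n ^ 2 / (l : ℝ) ^ 2 := by positivity
  rw [div_le_iff₀ hden]
  have e1 : |C| / (n : ℝ) ^ (σ + 1) ≤ 2 * |C| / (n : ℝ) ^ (σ + 1) * ((σ : ℝ) * (1 - η) * l) := by
    have : 1 / 2 ≤ (σ : ℝ) * (1 - η) * l := by linarith
    have h2 := mul_le_mul_of_nonneg_left this hX
    calc |C| / (n : ℝ) ^ (σ + 1) = 2 * (|C| / (n : ℝ) ^ (σ + 1) * (1 / 2)) := by ring
      _ ≤ 2 * (|C| / (n : ℝ) ^ (σ + 1) * ((σ : ℝ) * (1 - η) * l)) := by linarith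
      _ = _ := by ring
  have e2 : 64 * NN σ n ^ 2 / (l : ℝ) ^ 2 ≤ 128 * NN σ n ^ 2 * (1 / (l : ℝ) ^ 3) *
      ((σ : ℝ) * (1 - η) * l) := by
    have h2 := mul_le_mul_of_nonneg_left hden2
      (show 0 ≤ 128 * NN σ n ^ 2 * (1 / (l : ℝ) ^ 3) by positivity)
    refine le_trans (le_of_eq ?_) h2
    field_simp
    ring
  calc pl ≤ |C| / (n : ℝ) ^ (σ + 1) + 64 * NN σ n ^ 2 / (l : ℝ) ^ 2 := hP
    _ ≤ _ := by rw [add_mul]; linarith

/-- terms with a short period -/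
private theorem small_term {η C A Λ x : ℝ} (hη : 0 < η) (hη2 : η ≤ 1 / 2) (hA : 1 ≤ A)
    (hΛ : A + 1 ≤ Λ) (hx : 0 < x) {l : ℕ} (hl : 1 ≤ l) (hlA : (l : ℝ) ≤ A * NN σ n)
    (hxl : x * NN σ n < (l : ℝ) * σ) (ha : ∀ i ≤ ⌊Λ * NN σ n⌋₊, aa σ n i ≤ 1) {pl : ℝ}
    (hp : pl ≤ C / (n : ℝ) ^ (σ + 1) + ppi σ n ⌊(1 - η) * (l : ℝ)⌋₊) :
    pl / ((σ : ℝ) * (1 - η) * l) -
      ∑ t ∈ Finset.range (⌊Λ * NN σ n⌋₊ - l),
            (∏ i ∈ Finset.Ico t (t + l), (1 - aa σ n i)) / (n : ℝ) ^ σ ≤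
      (2 * |C| / (n : ℝ) ^ (σ + 1) + 2 * η + 2 * (η * (σ * A * (A + 1)) + σ * (A + 1) / NN σ n)
        + σ * (Λ + 1) / NN σ n + Real.exp (-(x * (Λ - A - 1)))) / (x * NN σ n) := by
  have hn : (0 : ℝ) < n := by
    have := NeZero.pos n
    exact_mod_cast this
  have hσ : (1 : ℝ) ≤ σ := by
    have := NeZero.pos σ
    exact_mod_cast this
  have hN1 := one_le_NN (σ := σ) (n := n)
  have hN0 : 0 < NN σ n := by linarith
  have hl1 : (1 : ℝ) ≤ l := by exact_mod_cast hl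
  have hl0 : (0 : ℝ) < l := by linarith
  set N := NN σ n with hNdef
  set T := ⌊Λ * N⌋₊ with hT
  have hAN : A * N ≤ Λ * N := mul_le_mul_of_nonneg_right (by linarith) hN0.le
  have hlT : l ≤ T := Nat.le_floor (hlA.trans hAN)
  have hTlow : Λ * N - 1 < T := Nat.sub_one_lt_floor _
  have hTup : (T : ℝ) ≤ Λ * N := Nat.floor_le (by nlinarith)
  set k := ⌊(1 - η) * (l : ℝ)⌋₊ with hk
  have hk1 : (1 - η) * (l : ℝ) < k + 1 := Nat.lt_floor_add_one _
  have hkl : k ≤ l := by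
    have : (k : ℝ) ≤ (1 - η) * l := Nat.floor_le (by nlinarith)
    have h' : (k : ℝ) ≤ l := by nlinarith
    exact_mod_cast h'
  have hal : ∀ i < l, aa σ n i ≤ 1 := fun i hi => ha i (hi.le.trans hlT)
  set q := ppi σ n l with hq
  have hq0 : 0 ≤ q := ppi_nonneg hal
  have hq1 : q ≤ 1 := ppi_le_one hal
  have hQk := ppi_sub_le hkl hal
  have haT0 : 0 ≤ aa σ n T := aa_nonneg _
  have haT1 : aa σ n T ≤ 1 := ha T le_rfl
  have haT2 : aa σ n T ≤ σ * (Λ + 1) / N := aa_le_of hTup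
  have hal2 : aa σ n l ≤ σ * (A + 1) / N := aa_le_of hlA
  have hal0 : 0 ≤ aa σ n l := aa_nonneg _
  set e := Real.exp (-((σ : ℝ) * l * ((T : ℝ) - l) / (n : ℝ) ^ σ)) with he
  have he0 : 0 ≤ e := (Real.exp_pos _).le
  have he2 : e ≤ Real.exp (-(x * (Λ - A - 1))) := by
    rw [he]
    apply Real.exp_le_exp.2
    rw [neg_le_neg_iff, ← NN_sq, ← hNdef, le_div_iff₀ (by positivity)]
    have h1 : (Λ - A - 1) * N ≤ (T : ℝ) - l := by nlinarith
    have h0 : 0 ≤ (Λ - A - 1) * N := mul_nonneg (by linarith) hN0.le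
    have h2 : x * N ≤ (σ : ℝ) * l := by linarith
    have h3 := mul_le_mul h2 h1 h0 (by positivity)
    calc x * (Λ - A - 1) * N ^ 2 = x * N * ((Λ - A - 1) * N) := by ring
      _ ≤ _ := h3
  have hD := tele_lower (σ := σ) (n := n) hl hlT ha
  rw [← hq, ← he] at hD
  set D := ∑ t ∈ Finset.range (T - l),
            (∏ i ∈ Finset.Ico t (t + l), (1 - aa σ n i)) / (n : ℝ) ^ σ with hDdef
  have hsl : 0 < (σ : ℝ) * l := by positivity
  -- lower bound for D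
  have hD2 : (q - aa σ n T - e) / (σ * l) ≤ D := by
    refine le_trans ?_ hD
    rw [div_mul_eq_mul_div]
    apply div_le_div_of_nonneg_right _ hsl.le
    exact low_q hq0 hq1 haT0 he0
  -- upper bound for the other term
  have hθ : 1 / (1 - η) ≤ 1 + 2 * η := theta_le hη hη2
  have hθ0 : 0 < 1 - η := by linarith
  have hC : C / (n : ℝ) ^ (σ + 1) ≤ |C| / (n : ℝ) ^ (σ + 1) :=
    div_le_div_of_nonneg_right (le_abs_self C) (by positivity)
  set c := |C| / (n : ℝ) ^ (σ + 1) with hc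
  have hc0 : 0 ≤ c := by positivity
  have hlk : (l : ℝ) - k ≤ η * l + 1 := by linarith
  have hlk0 : (0 : ℝ) ≤ (l : ℝ) - k := by
    have : (k : ℝ) ≤ l := by exact_mod_cast hkl
    linarith
  have hb1 : ((l : ℝ) - k) * aa σ n l ≤ η * (σ * A * (A + 1)) + σ * (A + 1) / N := by
    have s1 : ((l : ℝ) - k) * aa σ n l ≤ (η * l + 1) * (σ * (A + 1) / N) :=
      mul_le_mul hlk hal2 hal0 (by positivity)
    have s2 : (l : ℝ) * (σ * (A + 1) / N) ≤ (A * N) * (σ * (A + 1) / N) :=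
      mul_le_mul_of_nonneg_right hlA (by positivity)
    have s3 : (A * N) * (σ * (A + 1) / N) = σ * A * (A + 1) := by
      field_simp
    have s4 := mul_le_mul_of_nonneg_left (s2.trans s3.le) hη.le
    have s5 : (η * l + 1) * (σ * (A + 1) / N) = η * (l * (σ * (A + 1) / N)) + σ * (A + 1) / N := by
      ring
    linarith
  have hU : pl / ((σ : ℝ) * (1 - η) * l) ≤
      (2 * c + q + 2 * η + 2 * (η * (σ * A * (A + 1)) + σ * (A + 1) / N)) / (σ * l) := by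
    have h1 : pl / ((σ : ℝ) * (1 - η) * l) = (1 / (1 - η) * pl) / (σ * l) := by
      field_simp
    rw [h1]
    apply div_le_div_of_nonneg_right _ hsl.le
    set b := ((l : ℝ) - k) * aa σ n l with hb
    have hb0 : 0 ≤ b := mul_nonneg hlk0 hal0
    have h2 : pl ≤ c + q + b := by linarith
    set θ := 1 / (1 - η) with hθd
    have hθp : 0 < θ := by positivity
    have h3 : θ * pl ≤ θ * (c + q + b) := mul_le_mul_of_nonneg_left h2 hθp.le
    have h4 : θ * c ≤ 2 * c := mul_le_mul_of_nonneg_right (by linarith) hc0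
    have h5 : θ * b ≤ 2 * b := mul_le_mul_of_nonneg_right (by linarith) hb0
    have h6 : θ * q ≤ (1 + 2 * η) * q := mul_le_mul_of_nonneg_right hθ hq0
    have h7 : 2 * η * q ≤ 2 * η * 1 := mul_le_mul_of_nonneg_left hq1 (by linarith)
    have h8 : θ * (c + q + b) = θ * c + θ * q + θ * b := by ring
    have h9 : (1 + 2 * η) * q = q + 2 * η * q := by ring
    linarith
  have hfin : pl / ((σ : ℝ) * (1 - η) * l) - D ≤
      (2 * c + 2 * η + 2 * (η * (σ * A * (A + 1)) + σ * (A + 1) / N)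
        + σ * (Λ + 1) / N + Real.exp (-(x * (Λ - A - 1)))) / (σ * l) := by
    have h1 : pl / ((σ : ℝ) * (1 - η) * l) - D ≤
        (2 * c + q + 2 * η + 2 * (η * (σ * A * (A + 1)) + σ * (A + 1) / N)) / (σ * l)
          - (q - aa σ n T - e) / (σ * l) := by linarith
    refine h1.trans ?_
    rw [← sub_div]
    apply div_le_div_of_nonneg_right _ hsl.le
    linarith
  have h2c : 2 * |C| / (n : ℝ) ^ (σ + 1) = 2 * c := by rw [hc]; ring
  rw [h2c]
  refine hfin.trans ?_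
  apply div_le_div_of_nonneg_left
  · have : 0 < Real.exp (-(x * (Λ - A - 1))) := Real.exp_pos _
    have h3 : 0 ≤ σ * (Λ + 1) / N := haT0.trans haT2
    have h4 : 0 ≤ σ * (A + 1) / N := hal0.trans hal2
    have h5 : 0 ≤ η * (σ * A * (A + 1)) := by positivity
    linarith
  · positivity
  · linarith

theorem numeric (σ : ℕ) [NeZero σ] (hσ : 2 ≤ σ) {x ε : ℝ} (hx : 0 < x) (hε : 0 < ε) :
    ∃ Λ η : ℝ, 0 < Λ ∧ 0 < η ∧ η ≤ 1 / 2 ∧ ∀ C : ℝ, ∃ N0 : ℕ, ∀ (n : ℕ) [NeZero n], N0 ≤ n →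
      ∀ (Tm : ℕ) (p : ℕ → ℝ), Tm ≤ n ^ σ → (∀ i < Tm, aa σ n i ≤ 1) →
      (∀ l ≤ Tm, x * NN σ n < (l : ℝ) * σ →
        p l ≤ C / (n : ℝ) ^ (σ + 1) + ppi σ n ⌊(1 - η) * (l : ℝ)⌋₊) →
      ∑ j : ZMod σ, ∑ l ∈ (Finset.Icc 1 Tm).filter
          (fun l : ℕ => x * NN σ n < (l : ℝ) * (addOrderOf j : ℝ)),
          p l / ((σ : ℝ) * (1 - η) * l) -
      ∑ j : ZMod σ, ∑ l ∈ (Finset.Icc 1 ⌊Λ * NN σ n⌋₊).filter
          (fun l : ℕ => x * NN σ n < (l : ℝ) * (addOrderOf j : ℝ)),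
          ∑ t ∈ Finset.range (⌊Λ * NN σ n⌋₊ - l),
            (∏ i ∈ Finset.Ico t (t + l), (1 - aa σ n i)) / (n : ℝ) ^ σ ≤ ε := by
  have hσ1 : (1 : ℝ) ≤ σ := by exact_mod_cast (le_trans (by norm_num) hσ)
  have hσ0 : (0 : ℝ) < σ := by linarith
  -- the constants
  obtain ⟨A, hA1, hA2⟩ : ∃ A : ℝ, 1 ≤ A ∧ σ * (256 / A ^ 2) ≤ ε / 4 := by
    have h0 : 0 < 1024 * (σ : ℝ) / ε := by positivity
    refine ⟨1 + 1024 * σ / ε, by linarith, ?_⟩
    set A := 1 + 1024 * (σ : ℝ) / ε with hA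
    have hA1 : 1 ≤ A := by linarith
    have h1 : A ≤ A ^ 2 := by nlinarith
    have h2 : 1024 * (σ : ℝ) / ε ≤ A ^ 2 := by linarith
    rw [div_le_iff₀ hε] at h2
    rw [← mul_div_assoc, div_le_iff₀ (by positivity)]
    linarith
  obtain ⟨κ, hκdef⟩ : ∃ κ : ℝ, κ = σ * A / x := ⟨_, rfl⟩
  have hκ0 : 0 < κ := by rw [hκdef]; positivity
  obtain ⟨η, hη0, hη1, hη2⟩ : ∃ η : ℝ, 0 < η ∧ η ≤ 1 / 2 ∧
      κ * (2 * η + 2 * (η * (σ * A * (A + 1)))) ≤ ε / 8 := by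
    have hb : 0 < 16 * κ * (1 + σ * A * (A + 1)) := by positivity
    refine ⟨min (1 / 2) (ε / (16 * κ * (1 + σ * A * (A + 1)))), ?_, min_le_left _ _, ?_⟩
    · exact lt_min (by norm_num) (by positivity)
    · set η := min (1 / 2) (ε / (16 * κ * (1 + σ * A * (A + 1)))) with hη
      have h1 : η ≤ ε / (16 * κ * (1 + σ * A * (A + 1))) := min_le_right _ _
      rw [le_div_iff₀ hb] at h1
      nlinarith
  obtain ⟨Λ, hΛ1, hΛ2⟩ : ∃ Λ : ℝ, A + 1 ≤ Λ ∧ κ * Real.exp (-(x * (Λ - A - 1))) ≤ ε / 8 := by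
    refine ⟨A + 1 + 8 * κ / (ε * x), by
      have : 0 ≤ 8 * κ / (ε * x) := by positivity
      linarith, ?_⟩
    have h1 : x * (A + 1 + 8 * κ / (ε * x) - A - 1) = 8 * κ / ε := by
      field_simp
      ring
    rw [h1]
    set y := 8 * κ / ε with hy
    have hy0 : 0 < y := by positivity
    have h2 : y ≤ Real.exp y := by linarith [Real.add_one_le_exp y]
    rw [Real.exp_neg, ← div_eq_mul_inv, div_le_iff₀ (Real.exp_pos _)]
    calc κ = ε / 8 * y := by rw [hy]; field_simp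
      _ ≤ ε / 8 * Real.exp y := mul_le_mul_of_nonneg_left h2 (by positivity)
  refine ⟨Λ, η, by linarith, hη0, hη1, fun C => ?_⟩
  obtain ⟨N1, hN1⟩ := aa_small σ (show 0 < Λ by linarith) one_pos
  obtain ⟨N2, hN2⟩ := NN_tendsto σ (max 4 (8 * κ * (2 * (σ * (A + 1)) + σ * (Λ + 1)) / ε))
  obtain ⟨N3, hN3⟩ := exists_nat_ge (16 * σ * |C| / ε)
  obtain ⟨N4, hN4⟩ := exists_nat_ge (32 * κ * |C| / ε)
  refine ⟨max (max N1 N2) (max N3 N4), fun n _ hn Tm p hTm haTm hp => ?_⟩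
  have hnN1 : N1 ≤ n := ((le_max_left _ _).trans (le_max_left _ _)).trans hn
  have hnN2 : N2 ≤ n := ((le_max_right _ _).trans (le_max_left _ _)).trans hn
  have hnN3 : N3 ≤ n := ((le_max_left _ _).trans (le_max_right _ _)).trans hn
  have hnN4 : N4 ≤ n := ((le_max_right _ _).trans (le_max_right _ _)).trans hn
  have ha1 := hN1 n hnN1
  have hNbig := hN2 n hnN2
  have hn1 : 1 ≤ n := NeZero.pos n
  have hn1r : (1 : ℝ) ≤ n := by exact_mod_cast hn1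
  have hn0 : (0 : ℝ) < n := by linarith
  set N := NN σ n with hNdef
  have hN4' : 4 ≤ N := (le_max_left _ _).trans hNbig
  have hN0 : 0 < N := by linarith
  have hNb2 : 8 * κ * (2 * (σ * (A + 1)) + σ * (Λ + 1)) / ε ≤ N := (le_max_right _ _).trans hNbig
  set T := ⌊Λ * N⌋₊ with hT
  set B : ℝ := 2 * |C| / (n : ℝ) ^ (σ + 1) + 2 * η + 2 * (η * (σ * A * (A + 1)) + σ * (A + 1) / N)
        + σ * (Λ + 1) / N + Real.exp (-(x * (Λ - A - 1))) with hB
  have hB0 : 0 ≤ B := by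
    have : 0 < Real.exp (-(x * (Λ - A - 1))) := Real.exp_pos _
    have : 0 < Λ := by linarith
    positivity
  -- each j
  have hj : ∀ j : ZMod σ, (∑ l ∈ (Finset.Icc 1 Tm).filter
          (fun l : ℕ => x * N < (l : ℝ) * (addOrderOf j : ℝ)),
          p l / ((σ : ℝ) * (1 - η) * l)) -
      (∑ l ∈ (Finset.Icc 1 T).filter
          (fun l : ℕ => x * N < (l : ℝ) * (addOrderOf j : ℝ)),
          ∑ t ∈ Finset.range (T - l),
            (∏ i ∈ Finset.Ico t (t + l), (1 - aa σ n i)) / (n : ℝ) ^ σ) ≤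
      2 * |C| / n + 256 / A ^ 2 + A * B / x := by
    intro j
    have hord : (addOrderOf j : ℝ) ≤ σ := by
      have h1 : addOrderOf j ≤ Fintype.card (ZMod σ) := addOrderOf_le_card_univ
      rw [ZMod.card] at h1
      exact_mod_cast h1
    have hcond : ∀ l : ℕ, x * N < (l : ℝ) * (addOrderOf j : ℝ) → x * N < (l : ℝ) * σ := by
      intro l hl
      exact hl.trans_le (mul_le_mul_of_nonneg_left hord (Nat.cast_nonneg _))
    set S := (Finset.Icc 1 Tm).filter (fun l : ℕ => x * N < (l : ℝ) * (addOrderOf j : ℝ)) with hS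
    set S' := (Finset.Icc 1 T).filter (fun l : ℕ => x * N < (l : ℝ) * (addOrderOf j : ℝ)) with hS'
    set u : ℕ → ℝ := fun l => p l / ((σ : ℝ) * (1 - η) * l) with hu
    set D : ℕ → ℝ := fun l => ∑ t ∈ Finset.range (T - l),
            (∏ i ∈ Finset.Ico t (t + l), (1 - aa σ n i)) / (n : ℝ) ^ σ with hD
    have hD0 : ∀ l, 0 ≤ D l := by
      intro l
      refine Finset.sum_nonneg fun t ht => ?_
      rw [Finset.mem_range] at ht
      refine div_nonneg (Finset.prod_nonneg fun i hi => ?_) (by positivity)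
      rw [Finset.mem_Ico] at hi
      have := ha1 i (by omega)
      linarith
    have hsplit : ∑ l ∈ S, u l = ∑ l ∈ S.filter (fun l : ℕ => A * N < (l : ℝ)), u l
        + ∑ l ∈ S.filter (fun l : ℕ => ¬ A * N < (l : ℝ)), u l :=
      (Finset.sum_filter_add_sum_filter_not _ _ _).symm
    have hDsub : ∑ l ∈ S.filter (fun l : ℕ => ¬ A * N < (l : ℝ)), D l ≤ ∑ l ∈ S', D l := by
      apply Finset.sum_le_sum_of_subset_of_nonneg
      · intro l hl
        rw [Finset.mem_filter, hS, Finset.mem_filter, Finset.mem_Icc] at hl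
        rw [hS', Finset.mem_filter, Finset.mem_Icc]
        refine ⟨⟨hl.1.1.1, ?_⟩, hl.1.2⟩
        apply Nat.le_floor
        have h1 : (l : ℝ) ≤ A * N := not_lt.1 hl.2
        have h2 : A * N ≤ Λ * N := mul_le_mul_of_nonneg_right (by linarith) hN0.le
        exact h1.trans h2
      · intro l _ _
        exact hD0 l
    -- the long ones
    have hbig : ∑ l ∈ S.filter (fun l : ℕ => A * N < (l : ℝ)), u l ≤ 2 * |C| / n + 256 / A ^ 2 := by
      have h1 : ∀ l ∈ S.filter (fun l : ℕ => A * N < (l : ℝ)), u l ≤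
          2 * |C| / (n : ℝ) ^ (σ + 1) + 128 * N ^ 2 * (1 / (l : ℝ) ^ 3) := by
        intro l hl
        rw [Finset.mem_filter, hS, Finset.mem_filter, Finset.mem_Icc] at hl
        have hl4 : (4 : ℝ) ≤ l := by nlinarith [hl.2]
        exact big_term hη0 hη1 (by exact_mod_cast hl4)
          (fun i hi => haTm i (lt_of_lt_of_le hi hl.1.1.2)) (hp l hl.1.1.2 (hcond l hl.1.2))
      refine (Finset.sum_le_sum h1).trans ?_
      rw [Finset.sum_add_distrib, Finset.sum_const, ← Finset.mul_sum, nsmul_eq_mul]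
      have h2 : ((S.filter (fun l : ℕ => A * N < (l : ℝ))).card : ℝ) ≤ (n : ℝ) ^ σ := by
        have h3 : (S.filter (fun l : ℕ => A * N < (l : ℝ))).card ≤ Tm := by
          calc (S.filter (fun l : ℕ => A * N < (l : ℝ))).card ≤ S.card := Finset.card_filter_le _ _
            _ ≤ (Finset.Icc 1 Tm).card := Finset.card_filter_le _ _
            _ = Tm := by simp
        have h4 := h3.trans hTm
        exact_mod_cast h4
      have h5 : ((S.filter (fun l : ℕ => A * N < (l : ℝ))).card : ℝ) * (2 * |C| / (n : ℝ) ^ (σ + 1))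
          ≤ 2 * |C| / n := by
        refine (mul_le_mul_of_nonneg_right h2 (by positivity)).trans (le_of_eq ?_)
        rw [pow_succ]
        field_simp
      have h6 := tail_sum (M := A * N) (by nlinarith)
        (S.filter (fun l : ℕ => A * N < (l : ℝ))) (fun l hl => (Finset.mem_filter.1 hl).2)
      have h7 : 128 * N ^ 2 * ∑ l ∈ S.filter (fun l : ℕ => A * N < (l : ℝ)), 1 / (l : ℝ) ^ 3
          ≤ 256 / A ^ 2 := by
        refine (mul_le_mul_of_nonneg_left h6 (by positivity)).trans (le_of_eq ?_)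
        field_simp
        ring
      linarith
    have hsmall : ∑ l ∈ S.filter (fun l : ℕ => ¬ A * N < (l : ℝ)), u l
        - ∑ l ∈ S.filter (fun l : ℕ => ¬ A * N < (l : ℝ)), D l ≤ A * B / x := by
      rw [← Finset.sum_sub_distrib]
      have h1 : ∀ l ∈ S.filter (fun l : ℕ => ¬ A * N < (l : ℝ)), u l - D l ≤ B / (x * N) := by
        intro l hl
        rw [Finset.mem_filter, hS, Finset.mem_filter, Finset.mem_Icc] at hl
        exact small_term hη0 hη1 hA1 hΛ1 hx hl.1.1.1 (not_lt.1 hl.2) (hcond l hl.1.2) ha1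
          (hp l hl.1.1.2 (hcond l hl.1.2))
      refine (Finset.sum_le_sum h1).trans ?_
      rw [Finset.sum_const, nsmul_eq_mul]
      have h2 : ((S.filter (fun l : ℕ => ¬ A * N < (l : ℝ))).card : ℝ) ≤ A * N := by
        have h3 : S.filter (fun l : ℕ => ¬ A * N < (l : ℝ)) ⊆ Finset.Icc 1 ⌊A * N⌋₊ := by
          intro l hl
          rw [Finset.mem_filter, hS, Finset.mem_filter, Finset.mem_Icc] at hl
          rw [Finset.mem_Icc]
          exact ⟨hl.1.1.1, Nat.le_floor (not_lt.1 hl.2)⟩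
        have h4 := Finset.card_le_card h3
        rw [Nat.card_Icc, Nat.add_sub_cancel] at h4
        have h5 : (⌊A * N⌋₊ : ℝ) ≤ A * N := Nat.floor_le (by positivity)
        have h6 : ((S.filter (fun l : ℕ => ¬ A * N < (l : ℝ))).card : ℝ) ≤ (⌊A * N⌋₊ : ℝ) := by
          exact_mod_cast h4
        exact h6.trans h5
      refine (mul_le_mul_of_nonneg_right h2 (by positivity)).trans (le_of_eq ?_)
      field_simp
    linarith
  rw [← Finset.sum_sub_distrib]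
  have hsum := Finset.sum_le_card_nsmul (Finset.univ : Finset (ZMod σ)) _ _ (fun j _ => hj j)
  refine hsum.trans ?_
  rw [Finset.card_univ, ZMod.card, nsmul_eq_mul]
  -- final numerics
  have f1 : σ * (2 * |C| / n) ≤ ε / 8 := by
    have h1 : 16 * σ * |C| / ε ≤ n := hN3.trans (by exact_mod_cast hnN3)
    rw [div_le_iff₀ hε] at h1
    rw [← mul_div_assoc, div_le_iff₀ hn0]
    linarith
  have f2 : κ * (2 * |C| / (n : ℝ) ^ (σ + 1)) ≤ ε / 16 := by
    have h1 : 32 * κ * |C| / ε ≤ n := hN4.trans (by exact_mod_cast hnN4)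
    rw [div_le_iff₀ hε] at h1
    have h2 : (n : ℝ) ≤ (n : ℝ) ^ (σ + 1) := le_self_pow₀ hn1r (Nat.succ_ne_zero σ)
    rw [← mul_div_assoc, div_le_iff₀ (by positivity)]
    have h3 : (n : ℝ) * ε ≤ (n : ℝ) ^ (σ + 1) * ε := mul_le_mul_of_nonneg_right h2 hε.le
    linarith
  have f3 : κ * (2 * (σ * (A + 1) / N) + σ * (Λ + 1) / N) ≤ ε / 8 := by
    rw [div_le_iff₀ hε] at hNb2
    have h1 : κ * (2 * (σ * (A + 1) / N) + σ * (Λ + 1) / N)
        = κ * (2 * (σ * (A + 1)) + σ * (Λ + 1)) / N := by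
      field_simp
    rw [h1, div_le_iff₀ hN0]
    linarith
  have f4 : σ * (A * B / x) = κ * B := by rw [hκdef]; ring
  have f5 : κ * B = κ * (2 * |C| / (n : ℝ) ^ (σ + 1)) + κ * (2 * η + 2 * (η * (σ * A * (A + 1))))
      + κ * (2 * (σ * (A + 1) / N) + σ * (Λ + 1) / N) + κ * Real.exp (-(x * (Λ - A - 1))) := by
    rw [hB]; ring
  rw [mul_add, mul_add, f4, f5]
  linarith

end CAB
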