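import Pool.Agent.Lib.MP_eab41b_pr.B.F5
import Pool.Agent.Lib.MP_eab41b_pr.B.G0

/-! Row G2: the numerical bound for tightness.

Sketch: part (1) of the sketch of G1 with `L = A N`, `η = 1/2`: all `l` in the sum satisfy `l > A N/σ`: the sum is `≤ 2 Σ_{A N/σ < l ≤ Tm} p l / l ≤ C/n + C'/A^2`. -/

set_option autoImplicit false

set_option linter.unusedSectionVars false

open scoped Classical

namespace CAB

variable {σ n : ℕ} [NeZero n] [NeZero σ]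

private theorem G2_NN (σ n : ℕ) [NeZero n] : NN σ n ^ 2 = (n : ℝ) ^ σ := by
  unfold NN
  rw [← Real.rpow_natCast ((n : ℝ) ^ ((σ : ℝ) / 2)) 2, ← Real.rpow_mul (Nat.cast_nonneg n),
    ← Real.rpow_natCast]
  congr 1
  push_cast
  ring

private theorem G2_NN_one (σ n : ℕ) [NeZero n] : 1 ≤ NN σ n := by
  unfold NN
  apply Real.one_le_rpow
  · exact_mod_cast Nat.one_le_iff_ne_zero.2 (NeZero.ne n)
  · positivity

/-- the bound for one term -/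
private theorem G2_term (σ n : ℕ) [NeZero n] [NeZero σ] {C' P : ℝ} {l Tm : ℕ} (hl : 2 ≤ l)
    (hlT : l ≤ Tm) (ha : ∀ i < Tm, aa σ n i ≤ 1)
    (hp : P ≤ C' / (n : ℝ) ^ (σ + 1) + ppi σ n ⌊(1 - 1 / 2) * (l : ℝ)⌋₊) (hC : 0 ≤ C') :
    P / ((σ : ℝ) * (1 - 1 / 2) * l) ≤
      (1 / (σ : ℝ)) * (2 * C' / (n : ℝ) ^ (σ + 1) + 128 * (n : ℝ) ^ σ * (1 / (l : ℝ) ^ 3)) := by
  have hσ : (0 : ℝ) < σ := Nat.cast_pos.2 (Nat.pos_of_ne_zero (NeZero.ne σ))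
  have hn : (0 : ℝ) < n := Nat.cast_pos.2 (Nat.pos_of_ne_zero (NeZero.ne n))
  have hl0 : (2 : ℝ) ≤ l := by exact_mod_cast hl
  have hlp : (0 : ℝ) < l := by linarith
  obtain ⟨k, hk⟩ : ∃ k, k = ⌊(1 - 1 / 2) * (l : ℝ)⌋₊ := ⟨_, rfl⟩
  have hk1 : (l : ℝ) / 4 ≤ k := by
    have h1 : (1 - 1 / 2) * (l : ℝ) < k + 1 := by
      rw [hk]
      exact Nat.lt_floor_add_one _
    have h2 : (1 : ℝ) ≤ k := by
      have h3 : 1 ≤ k := by
        rw [hk]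
        apply Nat.le_floor
        rw [Nat.cast_one]
        linarith
      exact_mod_cast h3
    by_cases h4 : (l : ℝ) ≤ 4
    · linarith
    · push Not at h4
      linarith
  have hk0 : 1 ≤ k := by
    have h3 : (0 : ℝ) < k := by linarith
    exact_mod_cast h3
  have hkl : k ≤ l := by
    have h1 : (k : ℝ) ≤ (1 - 1 / 2) * (l : ℝ) := by
      rw [hk]
      exact Nat.floor_le (by positivity)
    have h2 : (k : ℝ) ≤ l := by linarith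
    exact_mod_cast h2
  rw [← hk] at hp
  have h5 := ppi_le (σ := σ) (n := n) hk0 (fun i hi => ha i (by omega))
  have h6 : 4 * (n : ℝ) ^ σ / (k : ℝ) ^ 2 ≤ 64 * (n : ℝ) ^ σ / (l : ℝ) ^ 2 := by
    have h7 : (l : ℝ) ^ 2 ≤ 16 * (k : ℝ) ^ 2 := by nlinarith
    have hkp : (0 : ℝ) < (k : ℝ) ^ 2 := by positivity
    rw [div_le_div_iff₀ hkp (by positivity)]
    nlinarith [pow_pos hn σ]
  have h8 : P ≤ C' / (n : ℝ) ^ (σ + 1) + 64 * (n : ℝ) ^ σ / (l : ℝ) ^ 2 := by linarith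
  have h9 : P / ((σ : ℝ) * (1 - 1 / 2) * l) ≤
      (C' / (n : ℝ) ^ (σ + 1) + 64 * (n : ℝ) ^ σ / (l : ℝ) ^ 2) / ((σ : ℝ) * (1 - 1 / 2) * l) :=
    div_le_div_of_nonneg_right h8 (by positivity)
  refine h9.trans ?_
  have h10 : (C' / (n : ℝ) ^ (σ + 1) + 64 * (n : ℝ) ^ σ / (l : ℝ) ^ 2) /
      ((σ : ℝ) * (1 - 1 / 2) * l) = (1 / (σ : ℝ)) * (2 * C' / (n : ℝ) ^ (σ + 1) * (1 / l) +
        128 * (n : ℝ) ^ σ * (1 / (l : ℝ) ^ 3)) := by
    field_simp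
    ring
  rw [h10]
  apply mul_le_mul_of_nonneg_left _ (by positivity)
  have h11 : 1 / (l : ℝ) ≤ 1 := by
    rw [div_le_one hlp]
    linarith
  have h12 : 2 * C' / (n : ℝ) ^ (σ + 1) * (1 / l) ≤ 2 * C' / (n : ℝ) ^ (σ + 1) :=
    mul_le_of_le_one_right (by positivity) h11
  linarith

theorem numeric_tight (σ : ℕ) [NeZero σ] (hσ : 2 ≤ σ) {ε : ℝ} (hε : 0 < ε) :
    ∃ A : ℝ, 0 < A ∧ ∀ C : ℝ, ∃ N0 : ℕ, ∀ (n : ℕ) [NeZero n], N0 ≤ n →
      ∀ (Tm : ℕ) (p : ℕ → ℝ), Tm ≤ n ^ σ → (∀ i < Tm, aa σ n i ≤ 1) →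
      (∀ l ≤ Tm, A * NN σ n < (l : ℝ) * σ →
        p l ≤ C / (n : ℝ) ^ (σ + 1) + ppi σ n ⌊(1 - 1 / 2) * (l : ℝ)⌋₊) →
      ∑ j : ZMod σ, ∑ l ∈ (Finset.Icc 1 Tm).filter
          (fun l : ℕ => A * NN σ n < (l : ℝ) * (addOrderOf j : ℝ)),
          p l / ((σ : ℝ) * (1 - 1 / 2) * l) ≤ ε := by
  have hσ0 : (0 : ℝ) < σ := by
    have : 0 < σ := by omega
    exact_mod_cast this
  obtain ⟨B, hB⟩ : ∃ B : ℝ, B = 1 + 512 / ε := ⟨_, rfl⟩
  have hB1 : 1 ≤ B := by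
    rw [hB]
    have : 0 < 512 / ε := by positivity
    linarith
  have hB2 : 512 / ε ≤ B ^ 2 := by
    have h1 : 512 / ε ≤ B := by rw [hB]; linarith
    nlinarith
  refine ⟨σ * B, by positivity, fun C => ?_⟩
  obtain ⟨C', hC'⟩ : ∃ C' : ℝ, C' = max C 0 := ⟨_, rfl⟩
  have hC0 : 0 ≤ C' := by rw [hC']; exact le_max_right _ _
  have hCC : C ≤ C' := by rw [hC']; exact le_max_left _ _
  obtain ⟨N0, hN0⟩ := exists_nat_ge (4 * C' / ε)
  refine ⟨N0, ?_⟩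
  intro n _ hn Tm p hTm ha hp
  have hn0 : (0 : ℝ) < n := Nat.cast_pos.2 (Nat.pos_of_ne_zero (NeZero.ne n))
  have hNN := G2_NN σ n
  have hNN1 := G2_NN_one σ n
  obtain ⟨M, hM⟩ : ∃ M : ℝ, M = B * NN σ n := ⟨_, rfl⟩
  have hM1 : 1 ≤ M := by
    rw [hM]
    exact one_le_mul_of_one_le_of_one_le hB1 hNN1
  obtain ⟨S, hS⟩ : ∃ S : Finset ℕ, S = (Finset.Icc 1 Tm).filter (fun l : ℕ => M < (l : ℝ)) := ⟨_, rfl⟩
  have hord : ∀ j : ZMod σ, (addOrderOf j : ℝ) ≤ σ := by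
    intro j
    have h1 : addOrderOf j ≤ Fintype.card (ZMod σ) := addOrderOf_le_card_univ
    rw [ZMod.card] at h1
    exact_mod_cast h1
  have hkey : ∀ j : ZMod σ, ∀ l ∈ (Finset.Icc 1 Tm).filter
      (fun l : ℕ => σ * B * NN σ n < (l : ℝ) * (addOrderOf j : ℝ)), l ∈ S ∧
      p l / ((σ : ℝ) * (1 - 1 / 2) * l) ≤ (1 / (σ : ℝ)) * (2 * C' / (n : ℝ) ^ (σ + 1) +
        128 * (n : ℝ) ^ σ * (1 / (l : ℝ) ^ 3)) := by
    intro j l hl
    rw [Finset.mem_filter] at hl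
    have h1 : σ * B * NN σ n < (l : ℝ) * σ :=
      lt_of_lt_of_le hl.2 (mul_le_mul_of_nonneg_left (hord j) (Nat.cast_nonneg l))
    have h2 : M < (l : ℝ) := by
      rw [hM]
      have h3 : (σ : ℝ) * (B * NN σ n) < σ * (l : ℝ) := by linarith
      exact lt_of_mul_lt_mul_left h3 hσ0.le
    have hl2 : 2 ≤ l := by
      have h3 : (1 : ℝ) < l := lt_of_le_of_lt hM1 h2
      have h4 : 1 < l := by exact_mod_cast h3
      omega
    have hlT := (Finset.mem_Icc.1 hl.1).2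
    refine ⟨?_, ?_⟩
    · rw [hS, Finset.mem_filter]
      exact ⟨hl.1, h2⟩
    · refine G2_term σ n hl2 hlT ha ?_ hC0
      have h5 := hp l hlT h1
      have h6 : C / (n : ℝ) ^ (σ + 1) ≤ C' / (n : ℝ) ^ (σ + 1) :=
        div_le_div_of_nonneg_right hCC (by positivity)
      linarith
  have hj : ∀ j : ZMod σ, ∑ l ∈ (Finset.Icc 1 Tm).filter
      (fun l : ℕ => σ * B * NN σ n < (l : ℝ) * (addOrderOf j : ℝ)),
        p l / ((σ : ℝ) * (1 - 1 / 2) * l) ≤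
      ∑ l ∈ S, (1 / (σ : ℝ)) * (2 * C' / (n : ℝ) ^ (σ + 1) +
        128 * (n : ℝ) ^ σ * (1 / (l : ℝ) ^ 3)) := by
    intro j
    refine (Finset.sum_le_sum fun l hl => (hkey j l hl).2).trans ?_
    refine Finset.sum_le_sum_of_subset_of_nonneg (fun l hl => (hkey j l hl).1) ?_
    intro l _ _
    positivity
  refine (Finset.sum_le_sum fun j _ => hj j).trans ?_
  rw [Finset.sum_const, Finset.card_univ, ZMod.card, nsmul_eq_mul, ← Finset.mul_sum, ← mul_assoc,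
    mul_one_div_cancel hσ0.ne', one_mul, Finset.sum_add_distrib, ← Finset.mul_sum, Finset.sum_const,
    nsmul_eq_mul]
  have hcard : (S.card : ℝ) ≤ (n : ℝ) ^ σ := by
    have h1 : S.card ≤ Tm := by
      rw [hS]
      refine (Finset.card_filter_le _ _).trans ?_
      rw [Nat.card_Icc]
      omega
    exact_mod_cast h1.trans hTm
  have h1 : (S.card : ℝ) * (2 * C' / (n : ℝ) ^ (σ + 1)) ≤ ε / 2 := by
    have h2 : (S.card : ℝ) * (2 * C' / (n : ℝ) ^ (σ + 1)) ≤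
        (n : ℝ) ^ σ * (2 * C' / (n : ℝ) ^ (σ + 1)) :=
      mul_le_mul_of_nonneg_right hcard (by positivity)
    have h3 : (n : ℝ) ^ σ * (2 * C' / (n : ℝ) ^ (σ + 1)) = 2 * C' / n := by
      rw [pow_succ]
      field_simp
    have h4 : 4 * C' / ε ≤ n := hN0.trans (by exact_mod_cast hn)
    have h5 : 2 * C' / n ≤ ε / 2 := by
      rw [div_le_iff₀ hε] at h4
      rw [div_le_iff₀ hn0]
      linarith
    linarith
  have h2 : ∑ l ∈ S, 1 / (l : ℝ) ^ 3 ≤ 2 / M ^ 2 := by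
    refine tail_sum hM1 S fun l hl => ?_
    rw [hS, Finset.mem_filter] at hl
    exact hl.2
  have h3 : 128 * (n : ℝ) ^ σ * ∑ l ∈ S, 1 / (l : ℝ) ^ 3 ≤ ε / 2 := by
    have h4 : 128 * (n : ℝ) ^ σ * ∑ l ∈ S, 1 / (l : ℝ) ^ 3 ≤ 128 * (n : ℝ) ^ σ * (2 / M ^ 2) :=
      mul_le_mul_of_nonneg_left h2 (by positivity)
    have hnp : (0 : ℝ) < (n : ℝ) ^ σ := by positivity
    have h5 : 128 * (n : ℝ) ^ σ * (2 / M ^ 2) = 256 / B ^ 2 := by
      rw [hM, mul_pow, hNN]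
      have hBp : (0 : ℝ) < B := by linarith
      field_simp
      ring
    have h6 : 256 / B ^ 2 ≤ ε / 2 := by
      have hBp : (0 : ℝ) < B ^ 2 := by positivity
      rw [div_le_iff₀ hε] at hB2
      rw [div_le_iff₀ hBp]
      linarith
    linarith
  linarith

end CAB
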