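import Pool.Agent.Lib.MP_eab41b_pr.B.F5
import Pool.Agent.Lib.MP_eab41b_pr.B.G0
import Pool.Agent.Lib.MP_eab41b_pr.B.C11

/-! Row G3: the choice of `Tm` and the decay of `P(all rows used)`.

Sketch: `Tm = ⌊n^(σ/2 + 1/4)⌋₊` (real power), so `Tm^4 ≤ n^(2σ+1)`; take `T_m + 1`-row statements with `Tm := ⌊..⌋₊ - 1`. `a_i ≤ (σ Tm + σ N)/n^σ ≤ 1` for large `n` (`σ/2 + 1/4 < σ` as `σ ≥ 1`; `PN_le`). `ppi ⌊(1-η)(Tm+1)⌋ ≤ exp(-σ k (k-1)/(2 n^σ))`, `k ≥ Tm/2`, `k^2/n^σ ≥ c n^{1/2}`: smaller than any power. -/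

set_option autoImplicit false

set_option linter.unusedSectionVars false

open scoped Classical

namespace CAB

variable {σ n : ℕ} [NeZero n] [NeZero σ]

private lemma G3_exp {n : ℕ} (hn1 : 1 ≤ n) (C' : ℕ)
    (h : 16 ^ (2 * C' + 2) * (2 * C' + 2).factorial ≤ n) :
    (n : ℝ) ^ C' ≤ Real.exp (Real.sqrt n / 16) := by
  have hn0 : (0 : ℝ) < n := by exact_mod_cast hn1
  have h1 := Real.pow_div_factorial_le_exp (Real.sqrt n / 16) (by positivity) (2 * C' + 2)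
  refine le_trans ?_ h1
  have hf : (0 : ℝ) < ((2 * C' + 2).factorial : ℝ) := by exact_mod_cast Nat.factorial_pos _
  rw [le_div_iff₀ hf, div_pow, le_div_iff₀ (by positivity)]
  have e1 : Real.sqrt n ^ (2 * C' + 2) = (n : ℝ) ^ (C' + 1) := by
    rw [show 2 * C' + 2 = 2 * (C' + 1) by ring, pow_mul, Real.sq_sqrt hn0.le]
  rw [e1, pow_succ (n : ℝ) C', mul_assoc]
  refine mul_le_mul_of_nonneg_left ?_ (by positivity)
  have : ((16 ^ (2 * C' + 2) * (2 * C' + 2).factorial : ℕ) : ℝ) ≤ n := by exact_mod_cast h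
  push_cast at this
  rw [mul_comm] at this
  exact this

theorem exists_Tm (σ : ℕ) [NeZero σ] (hσ : 2 ≤ σ) (C' : ℕ) : ∃ (Tm : ℕ → ℕ) (N0 : ℕ),
    ∀ (n : ℕ) [NeZero n], N0 ≤ n → (Tm n + 1) ^ 4 ≤ n ^ (2 * σ + 1) ∧ Tm n + 1 ≤ n ^ σ ∧
      (∀ i < Tm n + 1, aa σ n i ≤ 1) ∧
      ∀ η : ℝ, 0 ≤ η → η ≤ 1 / 2 →
        ppi σ n ⌊(1 - η) * ((Tm n + 1 : ℕ) : ℝ)⌋₊ ≤ 1 / (n : ℝ) ^ C' := by
  refine ⟨fun n => ⌊(n : ℝ) ^ ((σ : ℝ) / 2 + 1 / 4)⌋₊ - 1,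
    (2 * σ) ^ 2 + 10 + 16 ^ (2 * C' + 2) * (2 * C' + 2).factorial, fun n _ hn => ?_⟩
  have hσr : (2 : ℝ) ≤ σ := by exact_mod_cast hσ
  have hn10 : 10 ≤ n := by omega
  have hn1 : 1 ≤ n := by omega
  have hnr : (10 : ℝ) ≤ n := by exact_mod_cast hn10
  have hnr1 : (1 : ℝ) ≤ n := by linarith
  have hn0 : (0 : ℝ) < n := by linarith
  set x : ℝ := (n : ℝ) ^ ((σ : ℝ) / 2 + 1 / 4) with hx
  have hx10 : (10 : ℝ) ≤ x := by
    refine le_trans hnr ?_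
    calc (n : ℝ) = (n : ℝ) ^ (1 : ℝ) := (Real.rpow_one _).symm
      _ ≤ x := Real.rpow_le_rpow_of_exponent_le hnr1 (by linarith)
  have hx0 : 0 < x := by linarith
  have hM1 : 1 ≤ ⌊x⌋₊ := Nat.le_floor (by push_cast; linarith)
  have hTm : (fun n : ℕ => ⌊(n : ℝ) ^ ((σ : ℝ) / 2 + 1 / 4)⌋₊ - 1) n + 1 = ⌊x⌋₊ := by
    simp only [← hx]
    omega
  rw [hTm]
  have hMx : ((⌊x⌋₊ : ℕ) : ℝ) ≤ x := Nat.floor_le hx0.le
  have hMx' : x < (⌊x⌋₊ : ℕ) + 1 := Nat.lt_floor_add_one x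
  -- powers of x
  have hx2 : x ^ 2 = (n : ℝ) ^ σ * Real.sqrt n := by
    rw [hx, ← Real.rpow_natCast, ← Real.rpow_mul hn0.le, Real.sqrt_eq_rpow, ← Real.rpow_natCast,
      ← Real.rpow_add hn0]
    congr 1
    push_cast
    ring
  have hx4 : x ^ 4 = (n : ℝ) ^ (2 * σ + 1) := by
    have : x ^ 4 = (x ^ 2) ^ 2 := by ring
    rw [this, hx2, mul_pow, Real.sq_sqrt hn0.le, ← pow_mul, pow_succ, mul_comm σ 2]
  have hs1 : 1 ≤ Real.sqrt n := by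
    rw [show (1 : ℝ) = Real.sqrt 1 by simp]
    exact Real.sqrt_le_sqrt hnr1
  have hs2σ : 2 * (σ : ℝ) ≤ Real.sqrt n := by
    apply Real.le_sqrt_of_sq_le
    have : (((2 * σ) ^ 2 : ℕ) : ℝ) ≤ n := by
      exact_mod_cast (by omega : (2 * σ) ^ 2 ≤ n)
    push_cast at this
    exact this
  have hxs : x * Real.sqrt n ≤ (n : ℝ) ^ σ := by
    rw [hx, Real.sqrt_eq_rpow, ← Real.rpow_add hn0, ← Real.rpow_natCast]
    exact Real.rpow_le_rpow_of_exponent_le hnr1 (by linarith)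
  have hxσ : x ≤ (n : ℝ) ^ σ := by nlinarith
  have hpow0 : (0 : ℝ) < (n : ℝ) ^ σ := by positivity
  have haa : ∀ i < ⌊x⌋₊, aa σ n i ≤ 1 := by
    intro i hi
    unfold aa
    rw [div_le_one hpow0]
    have hPN := PN_le (σ := σ) (n := n)
    have hNN : NN σ n ≤ x := by
      unfold NN
      rw [hx]
      exact Real.rpow_le_rpow_of_exponent_le hnr1 (by linarith)
    have hi' : (i : ℝ) ≤ x := le_trans (by exact_mod_cast hi.le) hMx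
    have hσ0 : (0 : ℝ) ≤ σ := by linarith
    have a1 : (σ : ℝ) * i ≤ σ * x := mul_le_mul_of_nonneg_left hi' hσ0
    have a2 : (σ : ℝ) * NN σ n ≤ σ * x := mul_le_mul_of_nonneg_left hNN hσ0
    have a3 : 2 * (σ : ℝ) * x ≤ Real.sqrt n * x := mul_le_mul_of_nonneg_right hs2σ hx0.le
    linarith
  refine ⟨?_, ?_, haa, ?_⟩
  · have : (((⌊x⌋₊) ^ 4 : ℕ) : ℝ) ≤ ((n ^ (2 * σ + 1) : ℕ) : ℝ) := by
      push_cast
      rw [← hx4]
      exact pow_le_pow_left₀ (by positivity) hMx 4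
    exact_mod_cast this
  · have : ((⌊x⌋₊ : ℕ) : ℝ) ≤ ((n ^ σ : ℕ) : ℝ) := by
      push_cast
      linarith
    exact_mod_cast this
  · intro η hη0 hη1
    set k : ℕ := ⌊(1 - η) * ((⌊x⌋₊ : ℕ) : ℝ)⌋₊ with hk
    have hkle : k ≤ ⌊x⌋₊ := by
      rw [hk]
      have : (1 - η) * ((⌊x⌋₊ : ℕ) : ℝ) ≤ ((⌊x⌋₊ : ℕ) : ℝ) := by
        have : (0 : ℝ) ≤ ((⌊x⌋₊ : ℕ) : ℝ) := by positivity
        nlinarith
      calc ⌊(1 - η) * ((⌊x⌋₊ : ℕ) : ℝ)⌋₊ ≤ ⌊((⌊x⌋₊ : ℕ) : ℝ)⌋₊ := Nat.floor_le_floor this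
        _ = ⌊x⌋₊ := Nat.floor_natCast _
    have hklt : (1 - η) * ((⌊x⌋₊ : ℕ) : ℝ) < (k : ℝ) + 1 := Nat.lt_floor_add_one _
    have hk1 : x / 4 ≤ (k : ℝ) - 1 := by
      have h0 : (0 : ℝ) ≤ ((⌊x⌋₊ : ℕ) : ℝ) := by positivity
      nlinarith
    have hk2 : x / 4 ≤ (k : ℝ) := by linarith
    have hkk : x ^ 2 / 16 ≤ (k : ℝ) * ((k : ℝ) - 1) := by nlinarith
    have h1 := ppi_le_exp (σ := σ) (n := n) (k := k) (fun i hi => haa i (lt_of_lt_of_le hi hkle))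
    refine le_trans h1 ?_
    have h2 : Real.sqrt n / 16 ≤ (σ : ℝ) * k * ((k : ℝ) - 1) / (2 * (n : ℝ) ^ σ) := by
      rw [le_div_iff₀ (by positivity)]
      have e : Real.sqrt n / 16 * (2 * (n : ℝ) ^ σ) = 2 * (x ^ 2 / 16) := by
        rw [hx2]
        ring
      rw [e]
      have h0 : (0 : ℝ) ≤ (k : ℝ) * ((k : ℝ) - 1) := le_trans (by positivity) hkk
      nlinarith
    have h3 := G3_exp hn1 C' (by omega)
    rw [Real.exp_neg, one_div]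
    apply inv_anti₀ (by positivity)
    exact le_trans h3 (Real.exp_le_exp.mpr h2)

end CAB
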