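import Pool.Agent.Lib.MP_eab41b_pr.R0c
import Pool.Agent.Lib.MP_eab41b_pr.B.A0

/-! Row H1: convergence of the tails gives weak convergence.

Sketch: `RandomCA.exists_limit` (file R0c): it is enough that `∫ φ dμ_n` converges for `φ` bounded by `B` and Lipschitz. `RandomCA.conv_of_approx`: given `ε` choose `A` with tails `≤ ε`, `0 < x_0 < x_1 < ... < x_m = A` with small gaps (also `x_0` small):
`|∫ φ dμ_n - φ(0) μ_n[0, x_0] - Σ_i φ(x_i) μ_n(x_{i-1}, x_i]| ≤ K · gap + 2 B ε` (or with `φ A · μ_n(A, ∞)` omitted), and the masses are differences of tails at positive points (`μ_n[0, x_0] = 1 - μ_n(x_0, ∞)` by `h0`). -/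

set_option autoImplicit false

set_option linter.unusedSectionVars false

open scoped Classical

namespace CAB

open MeasureTheory in
/-- the step function with the values `φ (i δ)` -/
private noncomputable def H1S (φ : ℝ → ℝ) (δ : ℝ) (m : ℕ) (x : ℝ) : ℝ :=
  φ 0 + ∑ i ∈ Finset.range m, (φ ((i + 1 : ℕ) * δ) - φ (i * δ)) *
    Set.indicator {z : ℝ | ((i + 1 : ℕ) : ℝ) * δ < z} 1 x

private theorem H1_tel (φ : ℝ → ℝ) {δ : ℝ} (hδ : 0 < δ) (m : ℕ) (x : ℝ) :
    H1S φ δ m x = φ ((min m (⌈x / δ⌉₊ - 1) : ℕ) * δ) := by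
  unfold H1S
  induction m with
  | zero => simp
  | succ m ih =>
    rw [Finset.sum_range_succ, ← add_assoc, ih]
    have hiff : ((m + 1 : ℕ) : ℝ) * δ < x ↔ m < ⌈x / δ⌉₊ - 1 := by
      rw [← lt_div_iff₀ hδ, ← Nat.lt_ceil]
      omega
    by_cases hm : m < ⌈x / δ⌉₊ - 1
    · have h1 : Set.indicator {z : ℝ | ((m + 1 : ℕ) : ℝ) * δ < z} (1 : ℝ → ℝ) x = 1 := by
        rw [Set.indicator_of_mem (show x ∈ {z : ℝ | ((m + 1 : ℕ) : ℝ) * δ < z} from hiff.2 hm)]
        rfl
      rw [h1, min_eq_left hm.le, min_eq_left (show m + 1 ≤ ⌈x / δ⌉₊ - 1 from hm)]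
      ring
    · have h1 : Set.indicator {z : ℝ | ((m + 1 : ℕ) : ℝ) * δ < z} (1 : ℝ → ℝ) x = 0 := by
        rw [Set.indicator_of_notMem]
        exact fun h => hm (hiff.1 h)
      rw [h1, min_eq_right (not_lt.1 hm), min_eq_right ((not_lt.1 hm).trans (Nat.le_succ m))]
      ring

private theorem H1_est (φ : ℝ → ℝ) {B : ℝ} (hB : ∀ x, |φ x| ≤ B) {K : NNReal}
    (hK : LipschitzWith K φ) {δ : ℝ} (hδ : 0 < δ) {A : ℝ} {m : ℕ} (hm : A ≤ m * δ) {x : ℝ}
    (hx : 0 ≤ x) :
    |φ x - H1S φ δ m x| ≤ K * δ + 2 * B * Set.indicator {z : ℝ | A < z} 1 x := by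
  have hB0 : 0 ≤ B := (abs_nonneg _).trans (hB 0)
  rw [H1_tel φ hδ]
  by_cases hxA : A < x
  · have h1 : Set.indicator {z : ℝ | A < z} (1 : ℝ → ℝ) x = 1 := by
      rw [Set.indicator_of_mem (show x ∈ {z : ℝ | A < z} from hxA)]
      rfl
    rw [h1]
    have h2 := abs_sub (φ x) (φ ((min m (⌈x / δ⌉₊ - 1) : ℕ) * δ))
    have h3 := hB x
    have h4 := hB ((min m (⌈x / δ⌉₊ - 1) : ℕ) * δ)
    have h5 : 0 ≤ (K : ℝ) * δ := mul_nonneg K.coe_nonneg hδ.le
    linarith
  · have h1 : Set.indicator {z : ℝ | A < z} (1 : ℝ → ℝ) x = 0 := by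
      rw [Set.indicator_of_notMem]
      exact hxA
    rw [h1, mul_zero, add_zero]
    have h2 := hK.dist_le_mul x ((min m (⌈x / δ⌉₊ - 1) : ℕ) * δ)
    rw [Real.dist_eq, Real.dist_eq] at h2
    refine h2.trans (mul_le_mul_of_nonneg_left ?_ K.coe_nonneg)
    have hle : x ≤ (⌈x / δ⌉₊ : ℝ) * δ := by
      have := Nat.le_ceil (x / δ)
      rwa [div_le_iff₀ hδ] at this
    rcases Nat.eq_zero_or_pos ⌈x / δ⌉₊ with h0 | h0
    · rw [h0] at hle ⊢
      have hx0 : x = 0 := le_antisymm (by simpa using hle) hx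
      rw [hx0]
      simp [hδ.le]
    · obtain ⟨c, hc⟩ : ∃ c, ⌈x / δ⌉₊ = c + 1 := ⟨⌈x / δ⌉₊ - 1, by omega⟩
      have hcx : (c : ℝ) * δ < x := by
        have : c < ⌈x / δ⌉₊ := by omega
        rwa [Nat.lt_ceil, lt_div_iff₀ hδ] at this
      have hcm : c < m := by
        by_contra hcm
        have h3 : (m : ℝ) * δ ≤ c * δ :=
          mul_le_mul_of_nonneg_right (by exact_mod_cast not_lt.1 hcm) hδ.le
        linarith [not_lt.1 hxA]
      rw [hc, Nat.add_sub_cancel, min_eq_right hcm.le]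
      rw [hc] at hle
      push_cast at hle
      rw [abs_of_nonneg (by linarith)]
      linarith

theorem tails_limit (μ : ℕ → MeasureTheory.ProbabilityMeasure ℝ)
    (h0 : ∀ n, (μ n : MeasureTheory.Measure ℝ) {x | x < 0} = 0)
    (htight : ∀ ε : ℝ, 0 < ε → ∃ A : ℝ, ∀ n,
      ((μ n : MeasureTheory.Measure ℝ) {x | A < x}).toReal ≤ ε)
    (htail : ∀ x : ℝ, 0 < x → ∃ l, Filter.Tendsto
      (fun n => ((μ n : MeasureTheory.Measure ℝ) {z | x < z}).toReal) Filter.atTop (nhds l)) :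
    ∃ ν : MeasureTheory.ProbabilityMeasure ℝ, Filter.Tendsto μ Filter.atTop (nhds ν) := by
  apply RandomCA.exists_limit μ h0 htight
  rintro φ ⟨B, hB⟩ ⟨K, hK⟩
  have hB0 : 0 ≤ B := (abs_nonneg _).trans (hB 0)
  apply RandomCA.conv_of_approx
  intro ε hε
  obtain ⟨A, hA⟩ := htight (ε / (4 * (B + 1))) (by positivity)
  have hδ : 0 < ε / (2 * ((K : ℝ) + 1)) := by positivity
  set δ := ε / (2 * ((K : ℝ) + 1)) with hδdef
  obtain ⟨m, hm⟩ : ∃ m : ℕ, A ≤ m * δ := by
    obtain ⟨m, hm⟩ := exists_nat_ge (A / δ)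
    exact ⟨m, by rwa [div_le_iff₀ hδ] at hm⟩
  have hmeas : ∀ a : ℝ, MeasurableSet {z : ℝ | a < z} := fun a => measurableSet_Ioi
  have hint1 : ∀ (n : ℕ) (a : ℝ), MeasureTheory.Integrable
      (Set.indicator {z : ℝ | a < z} (1 : ℝ → ℝ)) (μ n : MeasureTheory.Measure ℝ) := by
    intro n a
    exact (MeasureTheory.integrable_const (1 : ℝ)).indicator (hmeas a)
  have hintS : ∀ n, MeasureTheory.Integrable (H1S φ δ m) (μ n : MeasureTheory.Measure ℝ) := by
    intro n
    unfold H1S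
    exact (MeasureTheory.integrable_const _).add
      (MeasureTheory.integrable_finsetSum _ fun i _ => (hint1 n _).const_mul _)
  have hintφ : ∀ n, MeasureTheory.Integrable φ (μ n : MeasureTheory.Measure ℝ) := by
    intro n
    refine MeasureTheory.Integrable.of_bound hK.continuous.aestronglyMeasurable B ?_
    exact Filter.Eventually.of_forall fun x => by rw [Real.norm_eq_abs]; exact hB x
  have hSval : ∀ n, ∫ x, H1S φ δ m x ∂(μ n : MeasureTheory.Measure ℝ) =
      φ 0 + ∑ i ∈ Finset.range m, (φ ((i + 1 : ℕ) * δ) - φ (i * δ)) *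
        ((μ n : MeasureTheory.Measure ℝ) {z | ((i + 1 : ℕ) : ℝ) * δ < z}).toReal := by
    intro n
    unfold H1S
    rw [MeasureTheory.integral_add (MeasureTheory.integrable_const _)
      (MeasureTheory.integrable_finsetSum _ fun i _ => (hint1 n _).const_mul _),
      MeasureTheory.integral_finsetSum _ fun i _ => (hint1 n _).const_mul _]
    congr 1
    · simp
    · refine Finset.sum_congr rfl fun i _ => ?_
      rw [MeasureTheory.integral_const_mul, MeasureTheory.integral_indicator_one (hmeas _)]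
      rfl
  refine ⟨fun n => ∫ x, H1S φ δ m x ∂(μ n : MeasureTheory.Measure ℝ), ?_, ?_⟩
  · choose l hl using htail
    refine ⟨φ 0 + ∑ i ∈ Finset.range m, (φ ((i + 1 : ℕ) * δ) - φ (i * δ)) *
      l (((i + 1 : ℕ) : ℝ) * δ) (by positivity), ?_⟩
    simp_rw [hSval]
    exact tendsto_const_nhds.add (tendsto_finsetSum _ fun i _ =>
      (tendsto_const_nhds.mul (hl _ _)))
  · refine Filter.Eventually.of_forall fun n => ?_
    rw [← MeasureTheory.integral_sub (hintφ n) (hintS n)]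
    have hae : ∀ᵐ x ∂(μ n : MeasureTheory.Measure ℝ), ‖φ x - H1S φ δ m x‖ ≤
        K * δ + 2 * B * Set.indicator {z : ℝ | A < z} 1 x := by
      have h1 : ∀ᵐ x ∂(μ n : MeasureTheory.Measure ℝ), 0 ≤ x := by
        rw [MeasureTheory.ae_iff]
        simpa using h0 n
      filter_upwards [h1] with x hx
      rw [Real.norm_eq_abs]
      exact H1_est φ hB hK hδ hm hx
    have h2 := MeasureTheory.norm_integral_le_of_norm_le
      (((MeasureTheory.integrable_const ((K : ℝ) * δ)).add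
        ((hint1 n A).const_mul (2 * B)))) hae
    rw [Real.norm_eq_abs] at h2
    refine h2.trans ?_
    have h3 : ∫ _ : ℝ, (K : ℝ) * δ ∂(μ n : MeasureTheory.Measure ℝ) = K * δ := by simp
    rw [MeasureTheory.integral_add' (MeasureTheory.integrable_const _)
      ((hint1 n A).const_mul (2 * B)), h3, MeasureTheory.integral_const_mul,
      MeasureTheory.integral_indicator_one (hmeas _)]
    have h4 : (μ n : MeasureTheory.Measure ℝ).real {z : ℝ | A < z} ≤ ε / (4 * (B + 1)) := hA n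
    have h5 : (K : ℝ) * δ ≤ ε / 2 := by
      rw [hδdef, mul_div_assoc', div_le_div_iff₀ (by positivity) (by norm_num)]
      nlinarith [K.coe_nonneg, mul_nonneg K.coe_nonneg hε.le]
    have h6 : 2 * B * (μ n : MeasureTheory.Measure ℝ).real {z : ℝ | A < z} ≤ ε / 2 := by
      refine (mul_le_mul_of_nonneg_left h4 (by positivity)).trans ?_
      rw [mul_div_assoc', div_le_div_iff₀ (by positivity) (by norm_num)]
      nlinarith
    linarith

end CAB
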