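import Pool.Agent.Lib.MP_eab41b_pr.B.F1a

/-! Row N1: coincidences `y_{t+l} = y_t` of independent rows after an event of the past.

Sketch. `Fev_ge`: as `used_ge` (file F1a), with the event `A` in front: induction on `l` gives `∏ (1 - a_i) P(A) ≤ P(A and rows t..t+l-1 used)` (`Pr_row_ge`, `b = n^σ (1 - a_i)`; start `l = 0`), then `Pr_row_ge` at the row `t + l` with
`B y z = (z = y_t)`, `b = 1`. `Fev_pair_le`: drop the used conditions; `Pr_row_le` at the row `t' + l'` with the past event `A ∧ y_{t+l} = y_t` (local to `(t' + l') σ`), then at the row `t + l`, `b = 1`. -/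

set_option autoImplicit false

set_option linter.unusedSectionVars false

open scoped Classical

namespace CAB

variable {σ n : ℕ} [NeZero n] [NeZero σ]

/-- the rows `t, ..., t + l - 1` are used and the row `t + l` is the row `t` -/
def Fev (σ t l : ℕ) (y : ℕ → Fin n) : Prop :=
  (∀ m, t ≤ m → m < t + l → Used σ y m) ∧ xrow σ y (t + l) = xrow σ y t

theorem Fev_LC {t l : ℕ} (hl : 1 ≤ l) {L : ℝ} (hL : L < l) {y : ℕ → Fin n}
    (h : Fev σ t l y) : LC σ L y (t + l) := by
  refine ⟨t, 0, by omega, ?_, h.1, ?_⟩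
  · rw [rot_zero]
    exact h.2
  · rw [Nat.add_sub_cancel_left, addOrderOf_zero, Nat.cast_one, mul_one]
    exact hL

private theorem N1_count (y : ℕ → Fin n) (m : ℕ) :
    (n : ℝ) ^ σ * (1 - aa σ n m) ≤ ((Finset.univ.filter fun z : Row σ n =>
      Aper σ z ∧ ∀ m' < m, ¬ Eqv σ z (xrow σ y m')).card : ℝ) := by
  have hn : (0 : ℝ) < (n : ℝ) ^ σ := by
    have : (0 : ℝ) < n := Nat.cast_pos.2 (Nat.pos_of_ne_zero (NeZero.ne n))
    positivity
  have h1 := Finset.card_filter_add_card_filter_not (s := (Finset.univ : Finset (Row σ n)))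
    (fun z : Row σ n => Aper σ z ∧ ∀ m' < m, ¬ Eqv σ z (xrow σ y m'))
  rw [Finset.card_univ, card_Row] at h1
  have h2 : ((Finset.univ.filter fun z : Row σ n =>
      Aper σ z ∧ ∀ m' < m, ¬ Eqv σ z (xrow σ y m')).card : ℝ) +
      ((Finset.univ.filter fun z : Row σ n =>
      ¬ (Aper σ z ∧ ∀ m' < m, ¬ Eqv σ z (xrow σ y m'))).card : ℝ) = (n : ℝ) ^ σ := by
    exact_mod_cast h1
  have h3 := card_notnew_le (σ := σ) y m
  have h4 : (n : ℝ) ^ σ * (1 - aa σ n m) = (n : ℝ) ^ σ - (σ * m + PN σ n) := by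
    unfold aa
    rw [mul_sub, mul_one, mul_div_cancel₀ _ hn.ne']
  rw [h4]
  linarith

private theorem N1_local {a M : ℕ} (h : a ≤ M) {A : (ℕ → Fin n) → Prop}
    (hA : LocalTo n (a * σ) A) : LocalTo n (M * σ) A := fun y y' hy =>
  hA y y' fun c hc => hy c (lt_of_lt_of_le hc (Nat.mul_le_mul_right σ h))

private theorem N1_used {T a t l : ℕ} (hat : a ≤ t) (htl : t + l ≤ T)
    (ha : ∀ i < T, aa σ n i ≤ 1) {A : (ℕ → Fin n) → Prop} (hA : LocalTo n (a * σ) A) :
    (∏ i ∈ Finset.Ico t (t + l), (1 - aa σ n i)) * Pr σ n T A ≤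
      Pr σ n T (fun y => A y ∧ ∀ m, t ≤ m → m < t + l → Used σ y m) := by
  induction l with
  | zero =>
    rw [Nat.add_zero, Finset.Ico_self, Finset.prod_empty, one_mul]
    exact Pr_mono fun y hy => ⟨hy, fun m h1 h2 => absurd h2 (by omega)⟩
  | succ l ih =>
    have hlt : t + l < T := by omega
    have ih' := ih hlt.le
    have hn : (0 : ℝ) < (n : ℝ) ^ σ := by
      have : (0 : ℝ) < n := Nat.cast_pos.2 (Nat.pos_of_ne_zero (NeZero.ne n))
      positivity
    have hA' : LocalTo n ((t + l) * σ)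
        (fun y : ℕ → Fin n => A y ∧ ∀ m, t ≤ m → m < t + l → Used σ y m) := by
      intro y y' hy
      have h0 : A y = A y' := N1_local (σ := σ) (by omega : a ≤ t + l) hA y y' hy
      refine propext ⟨fun h => ⟨h0 ▸ h.1, fun m h1 h2 => ?_⟩,
        fun h => ⟨h0 ▸ h.1, fun m h1 h2 => ?_⟩⟩
      · have := local_used' (σ := σ) (n := n) h2 y y' hy
        exact this.mp (h.2 m h1 h2)
      · have := local_used' (σ := σ) (n := n) h2 y y' hy
        exact this.mpr (h.2 m h1 h2)
    have hB : LocalTo n ((t + l) * σ)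
        (fun (y : ℕ → Fin n) (z : Row σ n) =>
          Aper σ z ∧ ∀ m' < t + l, ¬ Eqv σ z (xrow σ y m')) := by
      intro y y' hy
      funext z
      refine propext (and_congr_right fun _ => forall_congr' fun m' => forall_congr' fun hm' => ?_)
      rw [xrow_congr hy hm']
    have hrow := Pr_row_ge (σ := σ) hlt hA' hB (b := (n : ℝ) ^ σ * (1 - aa σ n (t + l)))
      (fun y _ => (N1_count (σ := σ) y (t + l)).trans (le_of_eq (by
        refine congrArg (fun s : Finset (Row σ n) => (s.card : ℝ)) ?_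
        ext z
        simp only [Finset.mem_filter])))
    rw [mul_div_cancel_left₀ _ hn.ne'] at hrow
    rw [← Nat.add_assoc, Finset.prod_Ico_succ_top (Nat.le_add_right t l), mul_comm
      (∏ k ∈ Finset.Ico t (t + l), (1 - aa σ n k)), mul_assoc]
    have h1 : 0 ≤ 1 - aa σ n (t + l) := by linarith [ha (t + l) hlt]
    refine (mul_le_mul_of_nonneg_left ih' h1).trans
      (hrow.trans (Pr_mono fun y hy => ⟨hy.1.1, fun m h2 h3 => ?_⟩))
    rcases Nat.lt_succ_iff_lt_or_eq.1 h3 with h4 | h4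
    · exact hy.1.2 m h2 h4
    · rw [h4]
      exact hy.2

private theorem N1_eqlocal {t M : ℕ} (h : t < M) : LocalTo n (M * σ)
    (fun (y : ℕ → Fin n) (z : Row σ n) => z = xrow σ y t) := by
  intro y y' hy
  funext z
  show (z = xrow σ y t) = (z = xrow σ y' t)
  rw [xrow_congr hy h]

private theorem N1_le (y : ℕ → Fin n) (s : ℕ)
    (inst : DecidablePred fun z : Row σ n => z = xrow σ y s) :
    ((@Finset.filter _ (fun z : Row σ n => z = xrow σ y s) inst Finset.univ).card : ℝ) ≤ 1 := by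
  have : (@Finset.filter _ (fun z : Row σ n => z = xrow σ y s) inst Finset.univ).card ≤ 1 := by
    rw [Finset.card_le_one]
    intro z hz z' hz'
    rw [Finset.mem_filter] at hz hz'
    rw [hz.2, hz'.2]
  exact_mod_cast this

private theorem N1_one_le (y : ℕ → Fin n) (s : ℕ)
    (inst : DecidablePred fun z : Row σ n => z = xrow σ y s) :
    1 ≤ ((@Finset.filter _ (fun z : Row σ n => z = xrow σ y s) inst Finset.univ).card : ℝ) :=
  Nat.one_le_cast.2 (Finset.card_pos.2 ⟨xrow σ y s, Finset.mem_filter.2 ⟨Finset.mem_univ _, rfl⟩⟩)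

theorem Fev_ge {T a t l : ℕ} (hat : a ≤ t) (hl : 1 ≤ l) (htl : t + l < T)
    (ha : ∀ i < T, aa σ n i ≤ 1) {A : (ℕ → Fin n) → Prop} (hA : LocalTo n (a * σ) A) :
    1 / (n : ℝ) ^ σ * (∏ i ∈ Finset.Ico t (t + l), (1 - aa σ n i)) * Pr σ n T A ≤
      Pr σ n T (fun y => A y ∧ Fev σ t l y) := by
  have h1 := N1_used (σ := σ) (n := n) hat htl.le ha hA
  have hA' : LocalTo n ((t + l) * σ)
      (fun y : ℕ → Fin n => A y ∧ ∀ m, t ≤ m → m < t + l → Used σ y m) := by
    intro y y' hy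
    have h0 : A y = A y' := N1_local (σ := σ) (by omega : a ≤ t + l) hA y y' hy
    refine propext ⟨fun h => ⟨h0 ▸ h.1, fun m h1 h2 => ?_⟩,
      fun h => ⟨h0 ▸ h.1, fun m h1 h2 => ?_⟩⟩
    · have := local_used' (σ := σ) (n := n) h2 y y' hy
      exact this.mp (h.2 m h1 h2)
    · have := local_used' (σ := σ) (n := n) h2 y y' hy
      exact this.mpr (h.2 m h1 h2)
  have h2 := Pr_row_ge (σ := σ) (n := n) htl hA' (N1_eqlocal (n := n) (by omega : t < t + l))
    (b := 1) (fun y _ => N1_one_le y t _)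
  rw [mul_assoc]
  refine (mul_le_mul_of_nonneg_left h1 (by positivity)).trans
    (h2.trans (Pr_mono fun y hy => ⟨hy.1.1, hy.1.2, hy.2⟩))

theorem Fev_pair_le {T a t l t' l' : ℕ} (hat : a ≤ t) (hat' : a ≤ t') (hl : 1 ≤ l) (hl' : 1 ≤ l')
    (hu : t + l < t' + l') (hT : t' + l' < T) {A : (ℕ → Fin n) → Prop}
    (hA : LocalTo n (a * σ) A) :
    Pr σ n T (fun y => A y ∧ Fev σ t l y ∧ Fev σ t' l' y) ≤
      (1 / (n : ℝ) ^ σ) ^ 2 * Pr σ n T A := by
  have hA1 : LocalTo n ((t + l) * σ) A := N1_local (by omega) hA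
  have hA2 : LocalTo n ((t' + l') * σ)
      (fun y : ℕ → Fin n => A y ∧ xrow σ y (t + l) = xrow σ y t) := by
    intro y y' hy
    have h0 : A y = A y' := N1_local (σ := σ) (by omega : a ≤ t' + l') hA y y' hy
    show (A y ∧ xrow σ y (t + l) = xrow σ y t) = (A y' ∧ xrow σ y' (t + l) = xrow σ y' t)
    rw [h0, xrow_congr hy (by omega : t + l < t' + l'), xrow_congr hy (by omega : t < t' + l')]
  have h1 := Pr_row_le (σ := σ) (n := n) (by omega : t + l < T) hA1
    (N1_eqlocal (n := n) (by omega : t < t + l)) (b := 1) (fun y _ => N1_le y t _)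
  have h2 := Pr_row_le (σ := σ) (n := n) hT hA2
    (N1_eqlocal (n := n) (by omega : t' < t' + l')) (b := 1) (fun y _ => N1_le y t' _)
  refine (Pr_mono fun y hy => ?_).trans (h2.trans ?_)
  · exact ⟨⟨hy.1, hy.2.1.2⟩, hy.2.2.2⟩
  · rw [sq, mul_assoc]
    exact mul_le_mul_of_nonneg_left h1 (by positivity)

end CAB
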