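import Pool.Agent.Lib.MP_eab41b_pr.B.N1
import Pool.Agent.Lib.MP_eab41b_pr.B.C12

/-! Row N2: one dyadic block.

Sketch: `N = NN σ n`, `β = 1/(12 σ)`, `l0 = ⌊β N/v⌋`, `a = ⌊v N⌋`, `b = ⌊2 v N⌋`, `m = ⌊v N/2⌋`; pairs `(t, l)` with `a ≤ t < a + m`, `l0 < l ≤ 2 l0`: `t + l < b` as `2 β/v ≤ v/2`, and `L ≤ β N / v < l`, so `Fev` gives a long closing in the block (`Fev_LC`).
Let `s = (number of pairs)/n^σ = m l0/N^2`: `β/4 ≤ s ≤ β/2` for `n ≥ N0(V)`. `∏_{[t,t+l)} (1 - a_i) ≥ 1 - 2 l0 a_b ≥ 1 - 2 (β N/v)(2 σ v N + σ N)/N^2 ≥ 1 - 6 β σ = 1/2` (`PN_le`; `a_i ≤ 1` for `i < b` because `a_b ≤ 3 σ V/N`; by `Pr_local` one may take `T = b`).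
For natural `w`: `1[w ≥ 1] ≥ w - (number of pairs of the w)`. So `P(A, some Fev) ≥ Σ P(A, Fev) - Σ_{u < u'} P(A, Fev, Fev') ≥ (s/2 - s^2/2) P(A) ≥ P(A)/(200 σ)`; two different pairs `(t, l)`, `(t', l')` with the same `t + l` cannot both
occur (`y_t = y_{t'}` with both rows used), so only pairs of pairs with `t + l < t' + l'` or the opposite count, at most `(number)^2 / 2` unordered ones. -/

set_option autoImplicit false

set_option linter.unusedSectionVars false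

open scoped Classical

namespace CAB

variable {σ n : ℕ} [NeZero n] [NeZero σ]

private theorem N2_prod {ι : Type} (s : Finset ι) (f : ι → ℝ) (h0 : ∀ i ∈ s, 0 ≤ f i)
    (h1 : ∀ i ∈ s, f i ≤ 1) : 1 - ∑ i ∈ s, f i ≤ ∏ i ∈ s, (1 - f i) := by
  induction s using Finset.induction_on with
  | empty => simp
  | insert i s hi ih =>
    have ih' := ih (fun j hj => h0 j (Finset.mem_insert_of_mem hj))
      (fun j hj => h1 j (Finset.mem_insert_of_mem hj))
    have hi0 := h0 i (Finset.mem_insert_self i s)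
    have hi1 := h1 i (Finset.mem_insert_self i s)
    have hs : 0 ≤ ∑ j ∈ s, f j := Finset.sum_nonneg fun j hj => h0 j (Finset.mem_insert_of_mem hj)
    rw [Finset.sum_insert hi, Finset.prod_insert hi]
    have h3 : (1 - f i) * (1 - ∑ j ∈ s, f j) ≤ (1 - f i) * ∏ j ∈ s, (1 - f j) :=
      mul_le_mul_of_nonneg_left ih' (by linarith)
    nlinarith [mul_nonneg hi0 hs]

/-- events with the same last row are different -/
private theorem N2_lt {t l t' l' : ℕ} (hl' : 1 ≤ l') {y : ℕ → Fin n} (h : Fev σ t l y)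
    (h' : Fev σ t' l' y) (e : t + l = t' + l') (hlt : t < t') : False := by
  have h1 : Used σ y t' := h.1 t' hlt.le (by omega)
  apply h1.2 t hlt
  have h2 : xrow σ y t' = xrow σ y t := by
    rw [← h'.2, ← e, h.2]
  rw [h2]
  exact Eqv.refl σ _

private theorem N2_inj {p p' : ℕ × ℕ} (hl : 1 ≤ p.2) (hl' : 1 ≤ p'.2) {y : ℕ → Fin n}
    (h : Fev σ p.1 p.2 y) (h' : Fev σ p'.1 p'.2 y) (e : p.1 + p.2 = p'.1 + p'.2) : p = p' := by
  rcases lt_trichotomy p.1 p'.1 with h1 | h1 | h1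
  · exact (N2_lt hl' h h' e h1).elim
  · exact Prod.ext h1 (by omega)
  · exact (N2_lt hl h' h e.symm h1).elim

/-- indicator -/
private noncomputable def N2_i (P : Prop) : ℝ := @ite ℝ P (Classical.propDecidable P) 1 0

private theorem N2_t {P : Prop} (h : P) : N2_i P = 1 := by
  unfold N2_i
  rw [if_pos h]

private theorem N2_f {P : Prop} (h : ¬ P) : N2_i P = 0 := by
  unfold N2_i
  rw [if_neg h]

private theorem N2_ind {β : Type} (S : Finset β) (q : β → Prop) [DecidablePred q] :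
    ∑ p ∈ S, N2_i (q p) = ((S.filter q).card : ℝ) := by
  rw [← Finset.sum_boole]
  refine Finset.sum_congr rfl fun p _ => ?_
  by_cases h : q p
  · rw [N2_t h, if_pos h]
  · rw [N2_f h, if_neg h]

/-- the inequality of Bonferroni for the events of the block -/
private theorem N2_point (S : Finset (ℕ × ℕ)) (hS : ∀ p ∈ S, 1 ≤ p.2) (y : ℕ → Fin n) (A : Prop) :
    N2_i (A ∧ ¬ ∃ p ∈ S, Fev σ p.1 p.2 y) ≤
      N2_i A - ∑ p ∈ S, N2_i (A ∧ Fev σ p.1 p.2 y) +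
      ∑ q ∈ (S ×ˢ S).filter (fun q => q.1.1 + q.1.2 < q.2.1 + q.2.2),
        N2_i (A ∧ Fev σ q.1.1 q.1.2 y ∧ Fev σ q.2.1 q.2.2 y) := by
  by_cases hA : A
  · simp only [hA, true_and]
    rw [N2_ind, N2_ind, N2_t trivial]
    by_cases hne : ∃ p ∈ S, Fev σ p.1 p.2 y
    · rw [N2_f (not_not.2 hne)]
      have hne' : (S.filter fun p => Fev σ p.1 p.2 y).Nonempty := by
        obtain ⟨p, hp, hp'⟩ := hne
        exact ⟨p, Finset.mem_filter.2 ⟨hp, hp'⟩⟩
      obtain ⟨p0, hp0, hmin⟩ := Finset.exists_min_image _ (fun p : ℕ × ℕ => p.1 + p.2) hne'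
      have hp0' := Finset.mem_filter.1 hp0
      have hcard : ((S.filter fun p => Fev σ p.1 p.2 y).erase p0).card ≤
          (((S ×ˢ S).filter (fun q => q.1.1 + q.1.2 < q.2.1 + q.2.2)).filter
            fun q => Fev σ q.1.1 q.1.2 y ∧ Fev σ q.2.1 q.2.2 y).card := by
        refine Finset.card_le_card_of_injOn (fun p => (p0, p)) ?_ ?_
        · intro p hp
          have hp1 := Finset.mem_erase.1 (Finset.mem_coe.1 hp)
          have hp2 := Finset.mem_filter.1 hp1.2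
          refine Finset.mem_coe.2 (Finset.mem_filter.2 ⟨Finset.mem_filter.2
            ⟨Finset.mem_product.2 ⟨hp0'.1, hp2.1⟩, ?_⟩, hp0'.2, hp2.2⟩)
          refine lt_of_le_of_ne (hmin p hp1.2) fun he => hp1.1 ?_
          exact (N2_inj (hS p0 hp0'.1) (hS p hp2.1) hp0'.2 hp2.2 he).symm
        · intro p _ q _ hpq
          exact (Prod.mk.inj hpq).2
      rw [Finset.card_erase_of_mem hp0] at hcard
      have h1 : 1 ≤ (S.filter fun p => Fev σ p.1 p.2 y).card := Finset.card_pos.2 hne'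
      have h2 : (((S.filter fun p => Fev σ p.1 p.2 y).card : ℕ) : ℝ) ≤
          ((((S ×ˢ S).filter (fun q => q.1.1 + q.1.2 < q.2.1 + q.2.2)).filter
            fun q => Fev σ q.1.1 q.1.2 y ∧ Fev σ q.2.1 q.2.2 y).card : ℝ) + 1 := by
        exact_mod_cast (by omega : (S.filter fun p => Fev σ p.1 p.2 y).card ≤
          (((S ×ˢ S).filter (fun q => q.1.1 + q.1.2 < q.2.1 + q.2.2)).filter
            fun q => Fev σ q.1.1 q.1.2 y ∧ Fev σ q.2.1 q.2.2 y).card + 1)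
      linarith
    · rw [N2_t hne]
      have h1 : (S.filter fun p => Fev σ p.1 p.2 y) = ∅ := by
        refine Finset.filter_eq_empty_iff.2 fun p hp hF => hne ⟨p, hp, hF⟩
      rw [h1, Finset.card_empty, Nat.cast_zero, sub_zero]
      have h2 : (0 : ℝ) ≤ ((((S ×ˢ S).filter (fun q => q.1.1 + q.1.2 < q.2.1 + q.2.2)).filter
            fun q => Fev σ q.1.1 q.1.2 y ∧ Fev σ q.2.1 q.2.2 y).card : ℝ) := Nat.cast_nonneg _
      linarith
  · simp only [hA, false_and, N2_f not_false, Finset.sum_const_zero, sub_zero, add_zero, le_refl]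

private theorem N2_pairs (S : Finset (ℕ × ℕ)) :
    ((((S ×ˢ S).filter (fun q => q.1.1 + q.1.2 < q.2.1 + q.2.2)).card : ℕ) : ℝ) ≤
      (S.card : ℝ) ^ 2 / 2 := by
  have h1 : ((S ×ˢ S).filter (fun q => q.2.1 + q.2.2 < q.1.1 + q.1.2)).card =
      ((S ×ˢ S).filter (fun q => q.1.1 + q.1.2 < q.2.1 + q.2.2)).card := by
    refine Finset.card_bij (fun q _ => (q.2, q.1)) ?_ ?_ ?_
    · intro q hq
      rw [Finset.mem_filter, Finset.mem_product] at hq ⊢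
      exact ⟨⟨hq.1.2, hq.1.1⟩, hq.2⟩
    · intro q _ q' _ h
      exact Prod.ext (Prod.mk.inj h).2 (Prod.mk.inj h).1
    · intro q hq
      rw [Finset.mem_filter, Finset.mem_product] at hq
      exact ⟨(q.2, q.1), Finset.mem_filter.2 ⟨Finset.mem_product.2 ⟨hq.1.2, hq.1.1⟩, hq.2⟩, rfl⟩
  have h2 : ((S ×ˢ S).filter (fun q => q.2.1 + q.2.2 < q.1.1 + q.1.2)).card +
      ((S ×ˢ S).filter (fun q => q.1.1 + q.1.2 < q.2.1 + q.2.2)).card ≤ S.card * S.card := by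
    rw [← Finset.card_product, ← Finset.card_union_of_disjoint]
    · exact Finset.card_le_card (Finset.union_subset (Finset.filter_subset _ _)
        (Finset.filter_subset _ _))
    · rw [Finset.disjoint_left]
      intro q hq hq'
      have := (Finset.mem_filter.1 hq).2
      have := (Finset.mem_filter.1 hq').2
      omega
  rw [h1] at h2
  have h3 : (((((S ×ˢ S).filter (fun q => q.1.1 + q.1.2 < q.2.1 + q.2.2)).card : ℕ) : ℝ) +
      ((((S ×ˢ S).filter (fun q => q.1.1 + q.1.2 < q.2.1 + q.2.2)).card : ℕ) : ℝ)) ≤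
      (S.card : ℝ) * S.card := by exact_mod_cast h2
  linarith [sq (S.card : ℝ)]

/-- the probability after the inequality of Bonferroni -/
private theorem N2_prob {T a : ℕ} (S : Finset (ℕ × ℕ)) (hS : ∀ p ∈ S, a ≤ p.1 ∧ 1 ≤ p.2 ∧
    p.1 + p.2 < T) (ha : ∀ i < T, aa σ n i ≤ 1)
    (hprod : ∀ p ∈ S, 1 / 2 ≤ ∏ i ∈ Finset.Ico p.1 (p.1 + p.2), (1 - aa σ n i))
    {A : (ℕ → Fin n) → Prop} (hA : LocalTo n (a * σ) A) :
    Pr σ n T (fun y => A y ∧ ¬ ∃ p ∈ S, Fev σ p.1 p.2 y) ≤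
      (1 - (S.card / (n : ℝ) ^ σ) / 2 + (S.card / (n : ℝ) ^ σ) ^ 2 / 2) * Pr σ n T A := by
  have hn : (0 : ℝ) < (n : ℝ) ^ σ := by
    have : (0 : ℝ) < n := Nat.cast_pos.2 (Nat.pos_of_ne_zero (NeZero.ne n))
    positivity
  have hP : 0 ≤ Pr σ n T A := Pr_nonneg T A
  have h1 : Pr σ n T (fun y => A y ∧ ¬ ∃ p ∈ S, Fev σ p.1 p.2 y) ≤
      Pr σ n T A - ∑ p ∈ S, Pr σ n T (fun y => A y ∧ Fev σ p.1 p.2 y) +
      ∑ q ∈ (S ×ˢ S).filter (fun q => q.1.1 + q.1.2 < q.2.1 + q.2.2),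
        Pr σ n T (fun y => A y ∧ Fev σ q.1.1 q.1.2 y ∧ Fev σ q.2.1 q.2.2 y) := by
    unfold Pr
    rw [← Ex_sum, ← Ex_sum, ← Ex_sub, ← Ex_add]
    exact Ex_mono fun y => N2_point (σ := σ) S (fun p hp => (hS p hp).2.1) y (A y)
  have h2 : (S.card : ℝ) * (1 / (n : ℝ) ^ σ * (1 / 2) * Pr σ n T A) ≤
      ∑ p ∈ S, Pr σ n T (fun y => A y ∧ Fev σ p.1 p.2 y) := by
    rw [← nsmul_eq_mul]
    refine Finset.card_nsmul_le_sum _ _ _ fun p hp => ?_
    obtain ⟨h3, h4, h5⟩ := hS p hp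
    refine le_trans ?_ (Fev_ge h3 h4 h5 ha hA)
    refine mul_le_mul_of_nonneg_right ?_ hP
    exact mul_le_mul_of_nonneg_left (hprod p hp) (by positivity)
  have h3 : ∑ q ∈ (S ×ˢ S).filter (fun q => q.1.1 + q.1.2 < q.2.1 + q.2.2),
        Pr σ n T (fun y => A y ∧ Fev σ q.1.1 q.1.2 y ∧ Fev σ q.2.1 q.2.2 y) ≤
      ((((S ×ˢ S).filter (fun q => q.1.1 + q.1.2 < q.2.1 + q.2.2)).card : ℕ) : ℝ) *
        ((1 / (n : ℝ) ^ σ) ^ 2 * Pr σ n T A) := by
    rw [← nsmul_eq_mul]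
    refine Finset.sum_le_card_nsmul _ _ _ fun q hq => ?_
    rw [Finset.mem_filter, Finset.mem_product] at hq
    obtain ⟨⟨hq1, hq2⟩, hq3⟩ := hq
    obtain ⟨h3, h4, h5⟩ := hS q.1 hq1
    obtain ⟨h3', h4', h5'⟩ := hS q.2 hq2
    exact Fev_pair_le h3 h3' h4 h4' hq3 h5' hA
  have h4 := mul_le_mul_of_nonneg_right (N2_pairs S)
    (show 0 ≤ (1 / (n : ℝ) ^ σ) ^ 2 * Pr σ n T A from mul_nonneg (by positivity) hP)
  have e : (1 - (S.card / (n : ℝ) ^ σ) / 2 + (S.card / (n : ℝ) ^ σ) ^ 2 / 2) * Pr σ n T A =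
      Pr σ n T A - (S.card : ℝ) * (1 / (n : ℝ) ^ σ * (1 / 2) * Pr σ n T A) +
        (S.card : ℝ) ^ 2 / 2 * ((1 / (n : ℝ) ^ σ) ^ 2 * Pr σ n T A) := by
    ring
  rw [e]
  linarith

private theorem N2_local {b : ℕ} (S : Finset (ℕ × ℕ)) (hS : ∀ p ∈ S, 1 ≤ p.2 ∧ p.1 + p.2 < b)
    {A : (ℕ → Fin n) → Prop} (hA : LocalTo n (b * σ) A) :
    LocalTo n (b * σ) (fun y => A y ∧ ¬ ∃ p ∈ S, Fev σ p.1 p.2 y) := by
  intro y y' h
  have hF : ∀ p ∈ S, (Fev σ p.1 p.2 y ↔ Fev σ p.1 p.2 y') := by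
    intro p hp
    obtain ⟨h1, h2⟩ := hS p hp
    unfold Fev
    refine and_congr (forall_congr' fun m => forall_congr' fun _ => forall_congr' fun hm => ?_) ?_
    · exact used_congr h (by omega)
    · rw [xrow_congr h h2, xrow_congr h (show p.1 < b by omega)]
  refine propext (and_congr (iff_of_eq (hA y y' h)) (not_congr (exists_congr fun p => ?_)))
  exact and_congr_right fun hp => hF p hp

theorem block (σ : ℕ) [NeZero σ] (V : ℝ) : ∃ N0 : ℕ, ∀ (n : ℕ) [NeZero n], N0 ≤ n →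
    ∀ v : ℝ, 1 ≤ v → v ≤ V → ∀ T : ℕ, ⌊2 * v * NN σ n⌋₊ ≤ T →
    ∀ L : ℝ, L ≤ NN σ n / (12 * σ * v) →
    ∀ A : (ℕ → Fin n) → Prop, LocalTo n (⌊v * NN σ n⌋₊ * σ) A →
      Pr σ n T (fun y => A y ∧ ∀ u, ⌊v * NN σ n⌋₊ ≤ u → u < ⌊2 * v * NN σ n⌋₊ →
        ¬ LC σ L y u) ≤ (1 - 1 / (200 * σ)) * Pr σ n T A := by
  obtain ⟨N0, hN0⟩ := NN_tendsto σ (24 * σ * V + 4)
  refine ⟨N0, ?_⟩
  intro n _ hn v hv1 hvV T hT L hL A hA
  have hσ : (1 : ℝ) ≤ σ := by exact_mod_cast Nat.one_le_iff_ne_zero.2 (NeZero.ne σ)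
  have hN := hN0 n hn
  have hV1 : 1 ≤ V := hv1.trans hvV
  generalize hNdef : NN σ n = N at *
  have hNpos : 0 < N := by nlinarith
  have hNσ : 24 * (σ : ℝ) * V ≤ N := by linarith
  have hnN : (n : ℝ) ^ σ = N ^ 2 := by rw [← hNdef, NN_sq]
  have hvpos : 0 < v := by linarith
  -- the parameters
  obtain ⟨a, ha⟩ : ∃ a, a = ⌊v * N⌋₊ := ⟨_, rfl⟩
  obtain ⟨b, hb⟩ : ∃ b, b = ⌊2 * v * N⌋₊ := ⟨_, rfl⟩
  obtain ⟨m, hm⟩ : ∃ m, m = ⌊v * N / 2⌋₊ := ⟨_, rfl⟩
  obtain ⟨l0, hl0⟩ : ∃ l0, l0 = ⌊N / (12 * σ * v)⌋₊ := ⟨_, rfl⟩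
  rw [← ha] at hA ⊢
  rw [← hb] at hT ⊢
  have ha1 : (a : ℝ) ≤ v * N := ha ▸ Nat.floor_le (by positivity)
  have hb1 : (b : ℝ) ≤ 2 * v * N := hb ▸ Nat.floor_le (by positivity)
  have hb2 : 2 * v * N < b + 1 := hb ▸ Nat.lt_floor_add_one _
  have hm1 : (m : ℝ) ≤ v * N / 2 := hm ▸ Nat.floor_le (by positivity)
  have hm2 : v * N / 2 < m + 1 := hm ▸ Nat.lt_floor_add_one _
  have hl1 : (l0 : ℝ) ≤ N / (12 * σ * v) := hl0 ▸ Nat.floor_le (by positivity)
  have hl2 : N / (12 * σ * v) < l0 + 1 := hl0 ▸ Nat.lt_floor_add_one _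
  have hlv : N / (12 * σ * v) ≤ v * N / 12 := by
    rw [div_le_div_iff₀ (by positivity) (by norm_num)]
    have h1 : 1 ≤ σ * v := by nlinarith
    have h2 : 1 ≤ v * (σ * v) := by nlinarith
    nlinarith [mul_le_mul_of_nonneg_left h2 hNpos.le]
  -- the set of pairs
  obtain ⟨S, hSdef⟩ : ∃ S : Finset (ℕ × ℕ),
      S = Finset.Ico a (a + m) ×ˢ Finset.Ioc l0 (2 * l0) := ⟨_, rfl⟩
  have hScard : (S.card : ℝ) = m * l0 := by
    rw [hSdef, Finset.card_product, Nat.card_Ico, Nat.card_Ioc, Nat.add_sub_cancel_left,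
      show 2 * l0 - l0 = l0 by omega]
    push_cast
    ring
  have hSmem : ∀ p ∈ S, a ≤ p.1 ∧ p.1 < a + m ∧ l0 < p.2 ∧ p.2 ≤ 2 * l0 := by
    intro p hp
    rw [hSdef, Finset.mem_product, Finset.mem_Ico, Finset.mem_Ioc] at hp
    exact ⟨hp.1.1, hp.1.2, hp.2.1, hp.2.2⟩
  have hSb : ∀ p ∈ S, p.1 + p.2 < b := by
    intro p hp
    obtain ⟨h1, h2, h3, h4⟩ := hSmem p hp
    have h5 : ((p.1 + p.2 + 1 : ℕ) : ℝ) ≤ ((a + m + 2 * l0 : ℕ) : ℝ) := by
      exact_mod_cast (by omega : p.1 + p.2 + 1 ≤ a + m + 2 * l0)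
    push_cast at h5
    have h6 : ((p.1 + p.2 : ℕ) : ℝ) < (b : ℝ) := by
      push_cast
      nlinarith [mul_pos hvpos hNpos]
    exact_mod_cast h6
  have hS' : ∀ p ∈ S, a ≤ p.1 ∧ 1 ≤ p.2 ∧ p.1 + p.2 < b := fun p hp =>
    ⟨(hSmem p hp).1, by have := (hSmem p hp).2.2.1; omega, hSb p hp⟩
  -- the probabilities of the rows
  have hPN : (PN σ n : ℝ) ≤ σ * N := hNdef ▸ PN_le
  have haa : ∀ i : ℕ, i < b → aa σ n i ≤ 3 * σ * v / N := by
    intro i hi
    have hi' : (i : ℝ) ≤ 2 * v * N := by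
      have : (i : ℝ) ≤ b := by exact_mod_cast hi.le
      linarith
    unfold aa
    rw [hnN, div_le_div_iff₀ (by positivity) hNpos]
    have h1 : (σ : ℝ) * i + PN σ n ≤ 3 * σ * v * N := by
      have h2 : (σ : ℝ) * i ≤ σ * (2 * v * N) := mul_le_mul_of_nonneg_left hi' (by linarith)
      have h3 : (σ : ℝ) * N ≤ σ * (v * N) := by
        apply mul_le_mul_of_nonneg_left _ (by linarith)
        nlinarith
      linarith
    nlinarith [mul_le_mul_of_nonneg_right h1 hNpos.le]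
  have haa0 : ∀ i : ℕ, 0 ≤ aa σ n i := by
    intro i
    unfold aa
    positivity
  have haa1 : ∀ i < b, aa σ n i ≤ 1 := by
    intro i hi
    refine (haa i hi).trans ?_
    rw [div_le_one hNpos]
    have h1 : (σ : ℝ) * v ≤ σ * V := mul_le_mul_of_nonneg_left hvV (by linarith)
    nlinarith
  have hprod : ∀ p ∈ S, 1 / 2 ≤ ∏ i ∈ Finset.Ico p.1 (p.1 + p.2), (1 - aa σ n i) := by
    intro p hp
    obtain ⟨h1, h2, h3, h4⟩ := hSmem p hp
    have hlt : ∀ i ∈ Finset.Ico p.1 (p.1 + p.2), i < b := fun i hi =>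
      (Finset.mem_Ico.1 hi).2.trans (hSb p hp)
    refine le_trans ?_ (N2_prod _ _ (fun i _ => haa0 i) (fun i hi => haa1 i (hlt i hi)))
    have h5 : ∑ i ∈ Finset.Ico p.1 (p.1 + p.2), aa σ n i ≤ (p.2 : ℝ) * (3 * σ * v / N) := by
      have := Finset.sum_le_card_nsmul (Finset.Ico p.1 (p.1 + p.2)) (fun i => aa σ n i)
        (3 * σ * v / N) (fun i hi => haa i (hlt i hi))
      rwa [Nat.card_Ico, Nat.add_sub_cancel_left, nsmul_eq_mul] at this
    have h6 : (p.2 : ℝ) ≤ 2 * (N / (12 * σ * v)) := by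
      have : (p.2 : ℝ) ≤ ((2 * l0 : ℕ) : ℝ) := by exact_mod_cast h4
      push_cast at this
      linarith
    have h7 : (p.2 : ℝ) * (3 * σ * v / N) ≤ 2 * (N / (12 * σ * v)) * (3 * σ * v / N) :=
      mul_le_mul_of_nonneg_right h6 (by positivity)
    have h8 : 2 * (N / (12 * σ * v)) * (3 * σ * v / N) = 1 / 2 := by
      have hσ0 : (σ : ℝ) ≠ 0 := by linarith
      field_simp
      norm_num
    linarith
  -- the number of pairs
  obtain ⟨s, hs⟩ : ∃ s : ℝ, s = S.card / (n : ℝ) ^ σ := ⟨_, rfl⟩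
  have hs1 : s ≤ 1 / (24 * σ) := by
    rw [hs, hScard, hnN, div_le_div_iff₀ (by positivity) (by positivity)]
    have h1 : (m : ℝ) * l0 ≤ v * N / 2 * (N / (12 * σ * v)) :=
      mul_le_mul hm1 hl1 (Nat.cast_nonneg _) (by positivity)
    have h2 : v * N / 2 * (N / (12 * σ * v)) * (24 * σ) = N ^ 2 := by
      have hσ0 : (σ : ℝ) ≠ 0 := by linarith
      field_simp
      norm_num
    nlinarith [mul_le_mul_of_nonneg_right h1 (show (0 : ℝ) ≤ 24 * σ by positivity)]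
  have hs2 : 1 / (48 * σ) ≤ s := by
    rw [hs, hScard, hnN, div_le_div_iff₀ (by positivity) (by positivity)]
    have hx : 1 ≤ v * N / 2 := by nlinarith
    have hy : 1 ≤ N / (12 * σ * v) := by
      rw [le_div_iff₀ (by positivity)]
      have h1 : (σ : ℝ) * v ≤ σ * V := mul_le_mul_of_nonneg_left hvV (by linarith)
      nlinarith
    have h1 : (v * N / 2 - 1) * (N / (12 * σ * v) - 1) ≤ (m : ℝ) * l0 :=
      mul_le_mul (by linarith) (by linarith) (by linarith) (Nat.cast_nonneg _)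
    have h2 : v * N / 2 * (N / (12 * σ * v)) * (24 * σ) = N ^ 2 := by
      have hσ0 : (σ : ℝ) ≠ 0 := by linarith
      field_simp
      norm_num
    have h3 : N / (12 * σ * v) * (24 * σ) ≤ 2 * N := by
      have e : N / (12 * σ * v) * (24 * σ) = 2 * N / v := by
        have hσ0 : (σ : ℝ) ≠ 0 := by linarith
        field_simp
        norm_num
      rw [e, div_le_iff₀ hvpos]
      nlinarith
    have h4 : v * N / 2 * (24 * σ) ≤ 12 * σ * V * N := by
      have h5 : (σ : ℝ) * v * N ≤ σ * V * N := by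
        apply mul_le_mul_of_nonneg_right _ hNpos.le
        exact mul_le_mul_of_nonneg_left hvV (by linarith)
      nlinarith
    have h6 : (24 * (σ : ℝ) * V + 4) * N ≤ N * N := mul_le_mul_of_nonneg_right hN hNpos.le
    have h7 := mul_le_mul_of_nonneg_right h1 (show (0 : ℝ) ≤ 24 * σ by positivity)
    nlinarith
  -- reduction to `b` rows
  have hab : a ≤ b := by
    have : a < b + 1 := by
      have h1 : (a : ℝ) < ((b + 1 : ℕ) : ℝ) := by
        push_cast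
        nlinarith [mul_pos hvpos hNpos]
      exact_mod_cast h1
    omega
  have hAb : LocalTo n (b * σ) A := hA.mono (Nat.mul_le_mul_right σ hab)
  have hsub : Pr σ n T (fun y => A y ∧ ∀ u, a ≤ u → u < b → ¬ LC σ L y u) ≤
      Pr σ n T (fun y => A y ∧ ¬ ∃ p ∈ S, Fev σ p.1 p.2 y) := by
    refine Pr_mono fun y hy => ⟨hy.1, ?_⟩
    rintro ⟨p, hp, hF⟩
    obtain ⟨h1, h2, h3⟩ := hS' p hp
    refine hy.2 (p.1 + p.2) (by omega) h3 (Fev_LC h2 ?_ hF)
    have h4 : ((l0 + 1 : ℕ) : ℝ) ≤ (p.2 : ℝ) := by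
      exact_mod_cast (hSmem p hp).2.2.1
    push_cast at h4
    linarith
  refine hsub.trans ?_
  rw [Pr_local hT (N2_local S (fun p hp => (hS' p hp).2) hAb), Pr_local hT hAb]
  refine (N2_prob S hS' haa1 hprod hA).trans ?_
  rw [← hs]
  refine mul_le_mul_of_nonneg_right ?_ (Pr_nonneg b A)
  have hσ24 : 1 / (24 * (σ : ℝ)) ≤ 1 / 24 := by
    rw [div_le_div_iff₀ (by positivity) (by norm_num)]
    linarith
  have e1 : 1 / (48 * (σ : ℝ)) = 1 / σ * (1 / 48) := by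
    rw [one_div, one_div, one_div, mul_inv, mul_comm]
  have e2 : 1 / (200 * (σ : ℝ)) = 1 / σ * (1 / 200) := by
    rw [one_div, one_div, one_div, mul_inv, mul_comm]
  rw [e1] at hs2
  rw [e2]
  have hi : 0 < 1 / (σ : ℝ) := by positivity
  nlinarith

end CAB
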