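import Pool.Agent.Lib.MP_eab41b_pr.B.N2

/-! Row N3: many blocks.

Sketch: `A_k` = there is no long closing `u < ⌊2^k N⌋` (local to `⌊2^k N⌋ σ`); `block` with `V = 2^K`, `v = 2^k`, `k < K`: `P(A_{k+1}) ≤ (1 - c) P(A_k)`, `P(A_0) ≤ 1`; `found = 0` implies `A_K`. -/

set_option autoImplicit false

set_option linter.unusedSectionVars false

open scoped Classical

namespace CAB

private theorem N3_found_zero {α : Type} {σ : ℕ} {L : ℝ} {T : ℕ} {x : ℕ → α}
    (h : found σ L T x = 0) {u : ℕ} (hu : u < T) : ¬ LC σ L x u := by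
  intro hL
  unfold found at h
  rw [Finset.card_eq_zero] at h
  have : u ∈ (Finset.range T).filter (LC σ L x) :=
    Finset.mem_filter.2 ⟨Finset.mem_range.2 hu, hL⟩
  rw [h] at this
  simp at this

private theorem N3_found_anti {α : Type} {σ : ℕ} {L : ℝ} {T T' : ℕ} (hT : T ≤ T') {x : ℕ → α}
    (h : found σ L T' x = 0) : found σ L T x = 0 := by
  unfold found
  rw [Finset.card_eq_zero, Finset.filter_eq_empty_iff]
  intro u hu
  exact N3_found_zero h (lt_of_lt_of_le (Finset.mem_range.1 hu) hT)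

theorem found_zero_le (σ : ℕ) [NeZero σ] (K : ℕ) : ∃ N0 : ℕ, ∀ (n : ℕ) [NeZero n], N0 ≤ n →
    ∀ T : ℕ, ⌊2 ^ K * NN σ n⌋₊ ≤ T → ∀ L : ℝ, L ≤ NN σ n / (12 * σ * 2 ^ K) →
      Pr σ n T (fun y => found σ L T y = 0) ≤ (1 - 1 / (200 * σ)) ^ K := by
  obtain ⟨N0, hN0⟩ := block σ ((2 : ℝ) ^ K)
  refine ⟨N0, fun n _ hn T hT L hL => ?_⟩
  have hσ : (1 : ℝ) ≤ σ := by
    exact_mod_cast Nat.one_le_iff_ne_zero.2 (NeZero.ne σ)
  have hN : 0 ≤ NN σ n := by
    unfold NN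
    positivity
  have hc : (0 : ℝ) ≤ 1 - 1 / (200 * σ) := by
    have h1 : (1 : ℝ) / (200 * σ) ≤ 1 := by
      rw [div_le_one (by positivity)]
      linarith
    linarith
  have hmono : ∀ {k : ℕ}, k ≤ K → ⌊(2 : ℝ) ^ k * NN σ n⌋₊ ≤ T := by
    intro k hk
    refine le_trans (Nat.floor_le_floor ?_) hT
    exact mul_le_mul_of_nonneg_right (pow_le_pow_right₀ (by norm_num) hk) hN
  have key : ∀ k, k ≤ K → Pr σ n T (fun y => found σ L ⌊(2 : ℝ) ^ k * NN σ n⌋₊ y = 0) ≤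
      (1 - 1 / (200 * (σ : ℝ))) ^ k := by
    intro k
    induction k with
    | zero =>
      intro _
      rw [pow_zero]
      exact Pr_le_one _ _
    | succ k ih =>
      intro hk
      have hk' : k ≤ K := by omega
      have ih' := ih hk'
      have hv1 : (1 : ℝ) ≤ 2 ^ k := one_le_pow₀ (by norm_num)
      have hvV : (2 : ℝ) ^ k ≤ 2 ^ K := pow_le_pow_right₀ (by norm_num) hk'
      have e : 2 * (2 : ℝ) ^ k * NN σ n = 2 ^ (k + 1) * NN σ n := by rw [pow_succ']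
      have hT2 : ⌊2 * (2 : ℝ) ^ k * NN σ n⌋₊ ≤ T := by
        rw [e]
        exact hmono hk
      have hL2 : L ≤ NN σ n / (12 * σ * 2 ^ k) := by
        refine hL.trans ?_
        refine div_le_div_of_nonneg_left hN (by positivity) ?_
        exact mul_le_mul_of_nonneg_left hvV (by positivity)
      have hloc : LocalTo n (⌊(2 : ℝ) ^ k * NN σ n⌋₊ * σ)
          (fun y : ℕ → Fin n => found σ L ⌊(2 : ℝ) ^ k * NN σ n⌋₊ y = 0) := by
        intro y y' hy
        have := local_found (σ := σ) (n := n) (L := L) (le_refl ⌊(2 : ℝ) ^ k * NN σ n⌋₊) y y' hy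
        exact congrArg (fun a : ℕ => a = 0) this
      have hb := hN0 n hn (2 ^ k) hv1 hvV T hT2 L hL2 _ hloc
      have hle : Pr σ n T (fun y => found σ L ⌊(2 : ℝ) ^ (k + 1) * NN σ n⌋₊ y = 0) ≤
          Pr σ n T (fun y => found σ L ⌊(2 : ℝ) ^ k * NN σ n⌋₊ y = 0 ∧
            ∀ u, ⌊(2 : ℝ) ^ k * NN σ n⌋₊ ≤ u → u < ⌊2 * (2 : ℝ) ^ k * NN σ n⌋₊ →
              ¬ LC σ L y u) := by
        refine Pr_mono fun y hy => ⟨N3_found_anti (Nat.floor_le_floor ?_) hy, fun u _ hu => ?_⟩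
        · exact mul_le_mul_of_nonneg_right (pow_le_pow_right₀ (by norm_num) (Nat.le_succ k)) hN
        · rw [e] at hu
          exact N3_found_zero hy hu
      calc Pr σ n T (fun y => found σ L ⌊(2 : ℝ) ^ (k + 1) * NN σ n⌋₊ y = 0)
          ≤ _ := hle
        _ ≤ (1 - 1 / (200 * (σ : ℝ))) *
            Pr σ n T (fun y => found σ L ⌊(2 : ℝ) ^ k * NN σ n⌋₊ y = 0) := hb
        _ ≤ (1 - 1 / (200 * (σ : ℝ))) * (1 - 1 / (200 * (σ : ℝ))) ^ k :=
            mul_le_mul_of_nonneg_left ih' hc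
        _ = (1 - 1 / (200 * (σ : ℝ))) ^ (k + 1) := by rw [pow_succ']
  refine le_trans (Pr_mono fun y hy => ?_) (key K le_rfl)
  exact N3_found_anti hT hy

end CAB
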