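import Pool.Agent.Lib.MP_eab41b_pr.R0
import Pool.Agent.Lib.MP_eab41b_pr.R0c
import Pool.Agent.Lib.MP_eab41b_pr.B.A5
import Pool.Agent.Lib.MP_eab41b_pr.B.C7
import Pool.Agent.Lib.MP_eab41b_pr.B.C10
import Pool.Agent.Lib.MP_eab41b_pr.B.C11
import Pool.Agent.Lib.MP_eab41b_pr.B.D2
import Pool.Agent.Lib.MP_eab41b_pr.B.E1c
import Pool.Agent.Lib.MP_eab41b_pr.B.E5
import Pool.Agent.Lib.MP_eab41b_pr.B.E6
import Pool.Agent.Lib.MP_eab41b_pr.B.F1
import Pool.Agent.Lib.MP_eab41b_pr.B.F6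
import Pool.Agent.Lib.MP_eab41b_pr.B.G1
import Pool.Agent.Lib.MP_eab41b_pr.B.G2
import Pool.Agent.Lib.MP_eab41b_pr.B.G3
import Pool.Agent.Lib.MP_eab41b_pr.B.H1

/-! Assembly. -/

set_option autoImplicit false

set_option linter.unusedSectionVars false

open scoped Classical

open MeasureTheory Filter Topology

namespace CAB

variable {r σ : ℕ} [NeZero σ]

/-- the probability of a long cycle -/
noncomputable def Plong (r σ n : ℕ) [NeZero n] (L : ℝ) : ℝ :=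
  ExG r n (fun g => if LongCyc r σ g L then (1 : ℝ) else 0)

theorem tail_law (n : ℕ) [NeZero n] {x : ℝ} (hx : 0 ≤ x) :
    ((RandomCA.law r σ n : Measure ℝ) {z | x < z}).toReal = Plong r σ n (x * NN σ n) := by
  rw [RandomCA.law_apply r σ n {z : ℝ | x < z} measurableSet_Ioi]
  unfold Plong
  rw [← avg_rev (r := r) (n := n) (fun g => if LongCyc r σ g (x * NN σ n) then (1 : ℝ) else 0)]
  unfold ExG
  congr 1
  have hN : 0 < NN σ n := lt_of_lt_of_le one_pos one_le_NN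
  have h1 : Nat.card {f : (Fin r → Fin n) → Fin n //
      (RandomCA.maxPeriod f σ : ℝ) / (n : ℝ) ^ ((σ : ℝ) / 2) ∈ {z | x < z}} =
      (Finset.univ.filter fun f : Rule r n =>
        LongCyc r σ (fun w => f (fun k => w k.rev)) (x * NN σ n)).card := by
    rw [Nat.card_eq_fintype_card, Fintype.card_subtype]
    congr 1
    refine Finset.filter_congr fun f _ => ?_
    rw [← long_iff f (by positivity), Set.mem_setOf_eq]
    exact lt_div_iff₀ hN
  rw [h1, Finset.card_filter]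
  push_cast
  rfl

/-- the choice of `Tm` -/
def TmOK (σ C' : ℕ) [NeZero σ] (Tm : ℕ → ℕ) (N0 : ℕ) : Prop :=
  ∀ (n : ℕ) [NeZero n], N0 ≤ n → (Tm n + 1) ^ 4 ≤ n ^ (2 * σ + 1) ∧ Tm n + 1 ≤ n ^ σ ∧
      (∀ i < Tm n + 1, aa σ n i ≤ 1) ∧
      ∀ η : ℝ, 0 ≤ η → η ≤ 1 / 2 →
        ppi σ n ⌊(1 - η) * ((Tm n + 1 : ℕ) : ℝ)⌋₊ ≤ 1 / (n : ℝ) ^ C'

theorem used_le (hr : 2 ≤ r) (hσ1 : r < σ) (hσ2 : σ < 2 * r) (C' : ℕ) {η : ℝ} (hη0 : 0 < η)
    (hη1 : η ≤ 1 / 2) : ∃ (T0 : ℕ) (C : ℝ), 0 ≤ C ∧ ∀ (n : ℕ) [NeZero n] (l : ℕ), T0 ≤ l →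
      l ^ 4 ≤ n ^ (2 * σ + 1) → (∀ i < l, aa σ n i ≤ 1) →
      Pr σ n l (fun y => ∀ m < l, Used σ (Xp r σ y) m) ≤
        C / (n : ℝ) ^ C' + ppi σ n ⌊(1 - η) * (l : ℝ)⌋₊ := by
  obtain ⟨T0, C, hC, h⟩ := Pr_nBad hr hσ1 hσ2 C' hη0
  refine ⟨T0, C, hC, fun n _ l hl hl4 ha => ?_⟩
  have hk : ⌊(1 - η) * (l : ℝ)⌋₊ ≤ l := by
    have h1 : (1 - η) * (l : ℝ) ≤ l := by
      have : (0 : ℝ) ≤ l := Nat.cast_nonneg l
      nlinarith
    have := Nat.floor_mono h1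
    rwa [Nat.floor_natCast] at this
  have h2 : Pr σ n l (fun y => ∀ m < l, Used σ (Xp r σ y) m) ≤
      Pr σ n l (fun y => η * l ≤ (nBad r σ (Xp r σ y) l : ℝ) ∨
        ((∀ m < l, Used σ (Xp r σ y) m) ∧
          ⌊(1 - η) * (l : ℝ)⌋₊ ≤ l - nBad r σ (Xp r σ y) l)) := by
    apply Pr_mono
    intro y hy
    by_cases hb : η * l ≤ (nBad r σ (Xp r σ y) l : ℝ)
    · exact Or.inl hb
    · refine Or.inr ⟨hy, ?_⟩
      rw [not_le] at hb
      have h3 : nBad r σ (Xp r σ y) l ≤ l := by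
        unfold nBad
        exact (Finset.card_filter_le _ _).trans (by rw [Finset.card_range])
      apply Nat.floor_le_of_le
      rw [Nat.cast_sub h3]
      linarith
  refine h2.trans ((Pr_or l _ _).trans (add_le_add (h n l hl hl4) ?_))
  exact Q6 r l _ fun i hi => ha i (lt_of_lt_of_le hi hk)

theorem one_le_pow_n (n : ℕ) [NeZero n] (k : ℕ) : (1 : ℝ) ≤ (n : ℝ) ^ k := by
  apply one_le_pow₀
  exact_mod_cast Nat.one_le_iff_ne_zero.2 (NeZero.ne n)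

theorem Tm_large {Tm : ℕ → ℕ} {N0 : ℕ} (hTm : TmOK σ (σ + 1) Tm N0) (T1 : ℕ) :
    ∃ N1 : ℕ, ∀ (n : ℕ) [NeZero n], N1 ≤ n → T1 ≤ Tm n + 1 := by
  obtain ⟨N2, hN2⟩ := aa_small σ (Λ := (T1 + 1 : ℕ)) (ε := 1 / (4 * (T1 + 1 : ℕ)))
    (by positivity) (by positivity)
  refine ⟨max (max N0 N2) 2, fun n _ hn => ?_⟩
  obtain ⟨h1, h2, h3, h4⟩ := hTm n (le_trans (le_trans (le_max_left _ _) (le_max_left _ _)) hn)
  have hn2 : 2 ≤ n := (le_max_right _ _).trans hn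
  by_contra hlt
  rw [not_le] at hlt
  have h5 := h4 0 le_rfl (by norm_num)
  rw [sub_zero, one_mul, Nat.floor_natCast] at h5
  have h6 := ppi_sub_le (σ := σ) (n := n) (Nat.zero_le (Tm n + 1)) h3
  have h7 : ppi σ n 0 = 1 := by simp [ppi]
  have hT : Tm n + 1 ≤ ⌊((T1 + 1 : ℕ) : ℝ) * NN σ n⌋₊ := by
    apply Nat.le_floor
    have h8 : (1 : ℝ) ≤ NN σ n := one_le_NN
    have h9 : ((Tm n + 1 : ℕ) : ℝ) ≤ (T1 + 1 : ℕ) := by
      exact_mod_cast (by omega : Tm n + 1 ≤ T1 + 1)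
    have h10 : (0 : ℝ) ≤ ((T1 + 1 : ℕ) : ℝ) := by positivity
    nlinarith
  have h8 := hN2 n (le_trans (le_trans (le_max_right _ _) (le_max_left _ _)) hn) (Tm n + 1) hT
  have h9 : (((Tm n + 1 : ℕ) : ℝ) - ((0 : ℕ) : ℝ)) * aa σ n (Tm n + 1) ≤ 1 / 4 := by
    have h10 : ((Tm n + 1 : ℕ) : ℝ) ≤ (T1 + 1 : ℕ) := by
      exact_mod_cast (by omega : Tm n + 1 ≤ T1 + 1)
    have h11 : (0 : ℝ) ≤ aa σ n (Tm n + 1) := aa_nonneg _
    have h12 : (0 : ℝ) < ((T1 + 1 : ℕ) : ℝ) := by positivity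
    calc (((Tm n + 1 : ℕ) : ℝ) - ((0 : ℕ) : ℝ)) * aa σ n (Tm n + 1)
        ≤ ((T1 + 1 : ℕ) : ℝ) * (1 / (4 * (T1 + 1 : ℕ))) := by
          rw [Nat.cast_zero, sub_zero]
          exact mul_le_mul h10 h8 h11 h12.le
      _ = 1 / 4 := by field_simp
  have h10 : (1 : ℝ) / (n : ℝ) ^ (σ + 1) ≤ 1 / 2 := by
    have h11 : (2 : ℝ) ≤ (n : ℝ) ^ (σ + 1) := by
      have h12 : (2 : ℝ) ≤ n := by exact_mod_cast hn2
      calc (2 : ℝ) ≤ n := h12
        _ ≤ (n : ℝ) ^ (σ + 1) := le_self_pow₀ (by linarith) (by omega)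
    exact one_div_le_one_div_of_le (by norm_num) h11
  rw [h7] at h6
  have h11 := h6.trans h9
  have h12 := h5.trans h10
  linarith

/-- exceptional long cycles are improbable -/
theorem rest_small (hr : 2 ≤ r) (hσ1 : r < σ) (hσ2 : σ < 2 * r) {Tm : ℕ → ℕ} {N0 : ℕ}
    (hTm : TmOK σ (σ + 1) Tm N0) {x η ε : ℝ} (hx : 0 < x) (hη0 : 0 < η) (hη1 : η ≤ 1 / 2)
    (hε : 0 < ε) : ∃ N1 : ℕ, ∀ (n : ℕ) [NeZero n], N1 ≤ n →
      ExG r n (fun g => if Rest r σ g (x * NN σ n) η (Tm n) then (1 : ℝ) else 0) ≤ ε := by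
  have hσ0 : (0 : ℝ) < σ := by exact_mod_cast sig_pos (σ := σ)
  obtain ⟨T1, C1, hC1, h1⟩ := used_le hr hσ1 hσ2 (σ + 1) hη0 hη1
  obtain ⟨T2, C2, hC2, h2⟩ := Pr_nBad hr hσ1 hσ2 (2 * σ + 1) (η := η / (4 * σ)) (by positivity)
  obtain ⟨N2, hN2⟩ := NN_tendsto σ (σ * (T2 : ℝ) / x)
  obtain ⟨N3, hN3⟩ := exists_nat_ge ((C1 + 1 + C2) / ε)
  obtain ⟨N4, hN4⟩ := Tm_large hTm T1
  refine ⟨max (max N0 N2) (max N3 N4), fun n _ hn => ?_⟩
  have hnN0 : N0 ≤ n := le_trans (le_trans (le_max_left _ _) (le_max_left _ _)) hn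
  have hnN2 : N2 ≤ n := le_trans (le_trans (le_max_right _ _) (le_max_left _ _)) hn
  have hnN3 : N3 ≤ n := le_trans (le_trans (le_max_left _ _) (le_max_right _ _)) hn
  have hnN4 : N4 ≤ n := le_trans (le_trans (le_max_right _ _) (le_max_right _ _)) hn
  obtain ⟨hT4, hTs, hTa, hTp⟩ := hTm n hnN0
  have hn0 : (0 : ℝ) < n := by exact_mod_cast Nat.pos_of_ne_zero (NeZero.ne n)
  refine (rest_le (x * NN σ n) hη0 (Tm n)).trans ?_
  have e1 : Pr σ n (Tm n + 1) (fun y => ∀ m < Tm n + 1, Used σ (Xp r σ y) m) ≤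
      (C1 + 1) / (n : ℝ) ^ (σ + 1) := by
    have e2 := h1 n (Tm n + 1) (hN4 n hnN4) hT4 hTa
    have e3 := hTp η hη0.le hη1
    rw [add_div]
    linarith
  have e2 : ∑ l ∈ (Finset.Icc 1 (Tm n)).filter (fun l : ℕ => x * NN σ n < (l : ℝ) * σ),
      Pr σ n (l + 1) (fun y => η / (4 * σ) * ((l + 1 : ℕ) : ℝ) ≤
        (nBad r σ (Xp r σ y) (l + 1) : ℝ)) ≤ C2 / (n : ℝ) ^ (σ + 1) := by
    have e3 : ∀ l ∈ (Finset.Icc 1 (Tm n)).filter (fun l : ℕ => x * NN σ n < (l : ℝ) * σ),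
        Pr σ n (l + 1) (fun y => η / (4 * σ) * ((l + 1 : ℕ) : ℝ) ≤
          (nBad r σ (Xp r σ y) (l + 1) : ℝ)) ≤ C2 / (n : ℝ) ^ (2 * σ + 1) := by
      intro l hl
      rw [Finset.mem_filter, Finset.mem_Icc] at hl
      obtain ⟨⟨_, hl1⟩, hl2⟩ := hl
      apply h2 n (l + 1)
      · have e4 := hN2 n hnN2
        rw [div_le_iff₀ hx] at e4
        have e5 : σ * (T2 : ℝ) < (l : ℝ) * σ := by linarith
        have e6 : (T2 : ℝ) < l := by
          rw [mul_comm] at e5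
          exact lt_of_mul_lt_mul_right e5 hσ0.le
        have e7 : T2 < l := by exact_mod_cast e6
        omega
      · exact (Nat.pow_le_pow_left (by omega) 4).trans hT4
    refine (Finset.sum_le_card_nsmul _ _ _ e3).trans ?_
    rw [nsmul_eq_mul]
    have e4 : ((((Finset.Icc 1 (Tm n)).filter
        (fun l : ℕ => x * NN σ n < (l : ℝ) * σ)).card : ℕ) : ℝ) ≤ (n : ℝ) ^ σ := by
      have e5 : ((Finset.Icc 1 (Tm n)).filter
        (fun l : ℕ => x * NN σ n < (l : ℝ) * σ)).card ≤ n ^ σ := by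
        refine (Finset.card_filter_le _ _).trans ?_
        rw [Nat.card_Icc]
        omega
      exact_mod_cast e5
    calc _ ≤ (n : ℝ) ^ σ * (C2 / (n : ℝ) ^ (2 * σ + 1)) :=
          mul_le_mul_of_nonneg_right e4 (by positivity)
      _ = C2 / (n : ℝ) ^ (σ + 1) := by
          rw [show 2 * σ + 1 = σ + (σ + 1) by ring, pow_add]
          field_simp
  calc (n : ℝ) ^ σ * (Pr σ n (Tm n + 1) (fun y => ∀ m < Tm n + 1, Used σ (Xp r σ y) m) +
        ∑ l ∈ (Finset.Icc 1 (Tm n)).filter (fun l : ℕ => x * NN σ n < (l : ℝ) * σ),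
          Pr σ n (l + 1) (fun y => η / (4 * σ) * ((l + 1 : ℕ) : ℝ) ≤
            (nBad r σ (Xp r σ y) (l + 1) : ℝ)))
      ≤ (n : ℝ) ^ σ * ((C1 + 1) / (n : ℝ) ^ (σ + 1) + C2 / (n : ℝ) ^ (σ + 1)) :=
        mul_le_mul_of_nonneg_left (add_le_add e1 e2) (by positivity)
    _ = (C1 + 1 + C2) / n := by
        rw [pow_succ]
        field_simp
    _ ≤ ε := by
        rw [div_le_iff₀ hn0]
        rw [div_le_iff₀ hε] at hN3
        have : (N3 : ℝ) ≤ n := by exact_mod_cast hnN3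
        nlinarith

/-- the probability of a long cycle and the independent rows -/
theorem Plong_sandwich {n : ℕ} [NeZero n] {L : ℝ} (hL : 0 < L) {η : ℝ} (hη : η < 1) (T Tm : ℕ) :
    |Plong r σ n L - (1 - Pr σ n T (fun y => found σ L T y = 0))| ≤
      (σ * T / L + 2) * Pr σ n T (fun y => ¬ Good r σ T y) +
      (σ * T / L + 2) * ExG r n (fun g => if Rest r σ g L η Tm then (1 : ℝ) else 0) +
      max 0 (ExG r n (fun g => Wt r σ n g L η Tm) - Ex σ n T (fun y => (found σ L T y : ℝ))) := by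
  have hM : (0 : ℝ) ≤ σ * T / L := by positivity
  have t1 : ExGS r σ n T (fun g s => if 1 ≤ found σ L T (Xe r σ g s) then (1 : ℝ) else 0) =
      Ex σ n T (fun y => if 1 ≤ found σ L T (Xp r σ y) then (1 : ℝ) else 0) := by
    apply transfer T (fun x => if 1 ≤ found σ L T x then (1 : ℝ) else 0)
    intro y y' h
    have e : found σ L T y = found σ L T y' :=
      local_found (n := n) (σ := σ) (L := L) (T := T) (M := T) le_rfl y y' h
    simp only [e]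
  have t2 : ExGS r σ n T (fun g s => (found σ L T (Xe r σ g s) : ℝ)) =
      Ex σ n T (fun y => (found σ L T (Xp r σ y) : ℝ)) := by
    apply transfer T (fun x => (found σ L T x : ℝ))
    intro y y' h
    have e : found σ L T y = found σ L T y' :=
      local_found (n := n) (σ := σ) (L := L) (T := T) (M := T) le_rfl y y' h
    simp only [e]
  have t3 : Ex σ n T (fun y => if 1 ≤ found σ L T y then (1 : ℝ) else 0) =
      1 - Pr σ n T (fun y => found σ L T y = 0) := by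
    rw [← Pr_not]
    unfold Pr
    congr 1
    funext y
    congr 1
    exact propext (by omega)
  have t4 : |Ex σ n T (fun y => if 1 ≤ found σ L T (Xp r σ y) then (1 : ℝ) else 0) -
      Ex σ n T (fun y => if 1 ≤ found σ L T y then (1 : ℝ) else 0)| ≤
      Pr σ n T (fun y => ¬ Good r σ T y) := by
    apply abs_Ex_sub_le
    intro y
    by_cases hG : Good r σ T y
    · rw [found_good hG, sub_self, abs_zero]
      split_ifs <;> norm_num
    · rw [if_pos hG]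
      split_ifs <;> norm_num
  have t5 : |Ex σ n T (fun y => (found σ L T (Xp r σ y) : ℝ)) -
      Ex σ n T (fun y => (found σ L T y : ℝ))| ≤
      (σ * T / L + 1) * Pr σ n T (fun y => ¬ Good r σ T y) := by
    unfold Pr
    rw [← Ex_mul]
    apply abs_Ex_sub_le
    intro y
    by_cases hG : Good r σ T y
    · rw [found_good hG, sub_self, abs_zero]
      split_ifs <;> positivity
    · rw [if_pos hG, mul_one, abs_le]
      have h1 := found_le (σ := σ) hL T (Xp r σ y)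
      have h2 := found_le (σ := σ) hL T y
      have h3 : (0 : ℝ) ≤ found σ L T (Xp r σ y) := Nat.cast_nonneg _
      have h4 : (0 : ℝ) ≤ found σ L T y := Nat.cast_nonneg _
      constructor <;> linarith
  have lo := ineqA_lower (r := r) (σ := σ) (n := n) L T
  have up := ineqA_upper (r := r) (σ := σ) (n := n) hL hη T Tm
  have hP : 0 ≤ Pr σ n T (fun y => ¬ Good r σ T y) := Pr_nonneg _ _
  have hR : 0 ≤ ExG r n (fun g => if Rest r σ g L η Tm then (1 : ℝ) else 0) :=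
    ExG_nonneg (r := r) (n := n) fun g => by split_ifs <;> norm_num
  rw [t1] at lo up
  rw [t2] at up
  rw [t3] at t4
  rw [abs_le] at t4 t5 ⊢
  have hm1 := le_max_left (0 : ℝ) (ExG r n (fun g => Wt r σ n g L η Tm) -
    Ex σ n T (fun y => (found σ L T y : ℝ)))
  have hm2 := le_max_right (0 : ℝ) (ExG r n (fun g => Wt r σ n g L η Tm) -
    Ex σ n T (fun y => (found σ L T y : ℝ)))
  have hMP := mul_nonneg hM hP
  have hMR := mul_nonneg hM hR
  unfold Plong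
  constructor
  · nlinarith
  · nlinarith

end CAB
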