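import Pool.Agent.Lib.MP_eab41b_pr.B.Z1

/-! Assembly, second part. -/

set_option autoImplicit false

set_option linter.unusedSectionVars false

open scoped Classical

open MeasureTheory Filter Topology

namespace CAB

variable {r σ : ℕ} [NeZero σ]

theorem sqrt_large (A : ℝ) : ∃ N0 : ℕ, ∀ n : ℕ, N0 ≤ n → A ≤ √(n : ℝ) := by
  obtain ⟨N0, h⟩ := exists_nat_ge (max A 0 ^ 2)
  refine ⟨N0, fun n hn => ?_⟩
  have h1 : max A 0 ^ 2 ≤ (n : ℝ) := h.trans (by exact_mod_cast hn)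
  exact (le_max_left A 0).trans (Real.le_sqrt_of_sq_le h1)

theorem wt_hyp (hr : 2 ≤ r) (hσ1 : r < σ) (hσ2 : σ < 2 * r) {Tm : ℕ → ℕ} {N0 : ℕ}
    (hTm : TmOK σ (σ + 1) Tm N0) {x η : ℝ} (hx : 0 < x) (hη0 : 0 < η) (hη1 : η ≤ 1 / 2) :
    ∃ (C : ℝ) (N1 : ℕ), ∀ (n : ℕ) [NeZero n], N1 ≤ n → Tm n ≤ n ^ σ ∧
      (∀ i < Tm n, aa σ n i ≤ 1) ∧ ∀ l ≤ Tm n, x * NN σ n < (l : ℝ) * σ →
        Pr σ n l (fun y => ∀ m < l, Used σ (Xp r σ y) m) ≤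
          C / (n : ℝ) ^ (σ + 1) + ppi σ n ⌊(1 - η) * (l : ℝ)⌋₊ := by
  have hσ0 : (0 : ℝ) < σ := by exact_mod_cast sig_pos (σ := σ)
  obtain ⟨T1, C1, hC1, h1⟩ := used_le hr hσ1 hσ2 (σ + 1) hη0 hη1
  obtain ⟨N2, hN2⟩ := NN_tendsto σ (σ * (T1 : ℝ) / x)
  refine ⟨C1, max N0 N2, fun n _ hn => ?_⟩
  obtain ⟨hT4, hTs, hTa, hTp⟩ := hTm n ((le_max_left _ _).trans hn)
  refine ⟨by omega, fun i hi => hTa i (by omega), fun l hl hlL => ?_⟩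
  apply h1 n l
  · have e4 := hN2 n ((le_max_right _ _).trans hn)
    rw [div_le_iff₀ hx] at e4
    have e5 : (T1 : ℝ) * σ < (l : ℝ) * σ := by linarith
    have e6 : (T1 : ℝ) < l := lt_of_mul_lt_mul_right e5 hσ0.le
    have e7 : T1 < l := by exact_mod_cast e6
    omega
  · exact (Nat.pow_le_pow_left (by omega) 4).trans hT4
  · exact fun i hi => hTa i (by omega)

theorem Plong_approx (hr : 2 ≤ r) (hσ1 : r < σ) (hσ2 : σ < 2 * r) {x ε : ℝ} (hx : 0 < x)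
    (hε : 0 < ε) : ∃ Λ : ℝ, 0 < Λ ∧ ∃ N1 : ℕ, ∀ (n : ℕ) [NeZero n], N1 ≤ n →
      |Plong r σ n (x * NN σ n) - (1 - Pr σ n ⌊Λ * NN σ n⌋₊
        (fun y => found σ (x * NN σ n) ⌊Λ * NN σ n⌋₊ y = 0))| ≤ ε := by
  have hσ : 2 ≤ σ := by omega
  have hσ0 : (0 : ℝ) < σ := by exact_mod_cast sig_pos (σ := σ)
  obtain ⟨Tm, N0, hTm⟩ := exists_Tm σ hσ (σ + 1)
  have hTmOK : TmOK σ (σ + 1) Tm N0 := hTm
  obtain ⟨Λ, η, hΛ, hη0, hη1, hnum⟩ := numeric σ hσ hx (ε := ε / 4) (by linarith)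
  obtain ⟨C1, N1, h1⟩ := wt_hyp hr hσ1 hσ2 hTmOK hx hη0 hη1
  obtain ⟨N2, h2⟩ := hnum C1
  obtain ⟨N3, h3⟩ := aa_small σ hΛ one_pos
  set M : ℝ := σ * Λ / x + 2 with hM
  have hM0 : 0 < M := by positivity
  obtain ⟨N4, h4⟩ := rest_small hr hσ1 hσ2 hTmOK hx hη0 hη1 (ε := ε / (4 * M)) (by positivity)
  obtain ⟨C5, hC5, h5⟩ := Pr_not_good hr hσ1 hσ2 (Λ ^ 2)
  obtain ⟨N5, hN5⟩ := sqrt_large (C5 * (4 * M) / ε)
  refine ⟨Λ, hΛ, max (max N1 N2) (max (max N3 N4) (max N5 1)), fun n _ hn => ?_⟩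
  have hn1 : N1 ≤ n := le_trans (le_trans (le_max_left _ _) (le_max_left _ _)) hn
  have hn2 : N2 ≤ n := le_trans (le_trans (le_max_right _ _) (le_max_left _ _)) hn
  have hn345 : max (max N3 N4) (max N5 1) ≤ n := le_trans (le_max_right _ _) hn
  have hn3 : N3 ≤ n := le_trans (le_trans (le_max_left _ _) (le_max_left _ _)) hn345
  have hn4 : N4 ≤ n := le_trans (le_trans (le_max_right _ _) (le_max_left _ _)) hn345
  have hn5 : N5 ≤ n := le_trans (le_trans (le_max_left _ _) (le_max_right _ _)) hn345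
  have hNN : 1 ≤ NN σ n := one_le_NN
  have hL : 0 < x * NN σ n := by positivity
  have hT : ((⌊Λ * NN σ n⌋₊ : ℕ) : ℝ) ≤ Λ * NN σ n := Nat.floor_le (by positivity)
  obtain ⟨hs1, hs2, hs3⟩ := h1 n hn1
  have key := Plong_sandwich (r := r) (σ := σ) (n := n) hL (η := η) (by linarith)
    ⌊Λ * NN σ n⌋₊ (Tm n)
  refine key.trans ?_
  have hML : σ * ((⌊Λ * NN σ n⌋₊ : ℕ) : ℝ) / (x * NN σ n) + 2 ≤ M := by
    rw [hM]
    have : σ * ((⌊Λ * NN σ n⌋₊ : ℕ) : ℝ) / (x * NN σ n) ≤ σ * Λ / x := by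
      rw [div_le_div_iff₀ hL hx]
      have h6 : (σ : ℝ) * ((⌊Λ * NN σ n⌋₊ : ℕ) : ℝ) ≤ σ * (Λ * NN σ n) :=
        mul_le_mul_of_nonneg_left hT hσ0.le
      calc (σ : ℝ) * ((⌊Λ * NN σ n⌋₊ : ℕ) : ℝ) * x ≤ σ * (Λ * NN σ n) * x :=
            mul_le_mul_of_nonneg_right h6 hx.le
        _ = σ * Λ * (x * NN σ n) := by ring
    linarith
  have hgood : Pr σ n ⌊Λ * NN σ n⌋₊ (fun y => ¬ Good r σ ⌊Λ * NN σ n⌋₊ y) ≤ ε / (4 * M) := by
    have h6 : (((⌊Λ * NN σ n⌋₊ : ℕ) : ℝ)) ^ 2 ≤ Λ ^ 2 * (n : ℝ) ^ σ := by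
      rw [← NN_sq (σ := σ) (n := n), ← mul_pow]
      exact pow_le_pow_left₀ (Nat.cast_nonneg _) hT 2
    refine (h5 n _ h6).trans ?_
    have h7 := hN5 n hn5
    have hn0 : (0 : ℝ) < √(n : ℝ) := by
      apply Real.sqrt_pos.2
      exact_mod_cast Nat.pos_of_ne_zero (NeZero.ne n)
    rw [div_le_div_iff₀ hn0 (by positivity)]
    rw [div_le_iff₀ hε] at h7
    linarith
  have hrest := h4 n hn4
  have hP : 0 ≤ Pr σ n ⌊Λ * NN σ n⌋₊ (fun y => ¬ Good r σ ⌊Λ * NN σ n⌋₊ y) := Pr_nonneg _ _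
  have hR : 0 ≤ ExG r n (fun g => if Rest r σ g (x * NN σ n) η (Tm n) then (1 : ℝ) else 0) :=
    ExG_nonneg (r := r) (n := n) fun g => by split_ifs <;> norm_num
  have hw1 := ExG_Wt_le (r := r) (σ := σ) (n := n) (x * NN σ n) (η := η) (by linarith) (Tm n)
  have hw2 := h2 n hn2 (Tm n) (fun l => Pr σ n l (fun y => ∀ m < l, Used σ (Xp r σ y) m))
    hs1 hs2 hs3
  have hw3 := found_ge (σ := σ) (n := n) (x * NN σ n) (T := ⌊Λ * NN σ n⌋₊)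
    (fun i hi => h3 n hn3 i hi.le)
  have hw : max 0 (ExG r n (fun g => Wt r σ n g (x * NN σ n) η (Tm n)) -
      Ex σ n ⌊Λ * NN σ n⌋₊ (fun y => (found σ (x * NN σ n) ⌊Λ * NN σ n⌋₊ y : ℝ))) ≤ ε / 4 := by
    apply max_le (by linarith)
    linarith
  have e1 : (σ * ((⌊Λ * NN σ n⌋₊ : ℕ) : ℝ) / (x * NN σ n) + 2) *
      Pr σ n ⌊Λ * NN σ n⌋₊ (fun y => ¬ Good r σ ⌊Λ * NN σ n⌋₊ y) ≤ ε / 4 := by
    calc _ ≤ M * (ε / (4 * M)) := mul_le_mul hML hgood hP hM0.le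
      _ = ε / 4 := by field_simp
  have e2 : (σ * ((⌊Λ * NN σ n⌋₊ : ℕ) : ℝ) / (x * NN σ n) + 2) *
      ExG r n (fun g => if Rest r σ g (x * NN σ n) η (Tm n) then (1 : ℝ) else 0) ≤ ε / 4 := by
    calc _ ≤ M * (ε / (4 * M)) := mul_le_mul hML hrest hR hM0.le
      _ = ε / 4 := by field_simp
  linarith

/-- the tails are small -/
theorem Plong_tight (hr : 2 ≤ r) (hσ1 : r < σ) (hσ2 : σ < 2 * r) {ε : ℝ} (hε : 0 < ε) :
    ∃ A : ℝ, 0 < A ∧ ∃ N1 : ℕ, ∀ (n : ℕ) [NeZero n], N1 ≤ n →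
      Plong r σ n (A * NN σ n) ≤ ε := by
  have hσ : 2 ≤ σ := by omega
  obtain ⟨Tm, N0, hTm⟩ := exists_Tm σ hσ (σ + 1)
  have hTmOK : TmOK σ (σ + 1) Tm N0 := hTm
  obtain ⟨A, hA, hnum⟩ := numeric_tight σ hσ (ε := ε / 2) (by linarith)
  obtain ⟨C1, N1, h1⟩ := wt_hyp hr hσ1 hσ2 hTmOK hA (η := 1 / 2) (by norm_num) le_rfl
  obtain ⟨N2, h2⟩ := hnum C1
  obtain ⟨N4, h4⟩ := rest_small hr hσ1 hσ2 hTmOK hA (η := 1 / 2) (by norm_num) le_rfl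
    (ε := ε / 2) (by positivity)
  refine ⟨A, hA, max (max N1 N2) N4, fun n _ hn => ?_⟩
  have hn1 : N1 ≤ n := le_trans (le_trans (le_max_left _ _) (le_max_left _ _)) hn
  have hn2 : N2 ≤ n := le_trans (le_trans (le_max_right _ _) (le_max_left _ _)) hn
  have hn4 : N4 ≤ n := le_trans (le_max_right _ _) hn
  obtain ⟨hs1, hs2, hs3⟩ := h1 n hn1
  have e1 := tail_le (r := r) (σ := σ) (n := n) (L := A * NN σ n) (η := 1 / 2) (by norm_num)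
    (Tm n)
  have e2 := h4 n hn4
  have e3 := ExG_Wt_le (r := r) (σ := σ) (n := n) (A * NN σ n) (η := 1 / 2) (by norm_num) (Tm n)
  have e4 := h2 n hn2 (Tm n) (fun l => Pr σ n l (fun y => ∀ m < l, Used σ (Xp r σ y) m))
    hs1 hs2 hs3
  unfold Plong
  linarith

theorem Plong_anti (n : ℕ) [NeZero n] {L L' : ℝ} (h : L ≤ L') : Plong r σ n L' ≤ Plong r σ n L := by
  apply ExG_mono
  intro g
  by_cases hc : LongCyc r σ g L'
  · have hc' : LongCyc r σ g L := by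
      obtain ⟨z, l, j, h1, h2⟩ := hc
      exact ⟨z, l, j, h1, lt_of_le_of_lt h h2⟩
    rw [if_pos hc, if_pos hc']
  · rw [if_neg hc]
    split_ifs <;> norm_num

theorem law_neg (n : ℕ) [NeZero n] : (RandomCA.law r σ n : Measure ℝ) {x | x < 0} = 0 := by
  have h1 : ((RandomCA.law r σ n : Measure ℝ) {x | x < 0}).toReal = 0 := by
    rw [RandomCA.law_apply r σ n {z : ℝ | z < 0} measurableSet_Iio]
    have h2 : Nat.card {f : (Fin r → Fin n) → Fin n //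
        (RandomCA.maxPeriod f σ : ℝ) / (n : ℝ) ^ ((σ : ℝ) / 2) ∈ {z : ℝ | z < 0}} = 0 := by
      rw [Nat.card_eq_zero]
      left
      refine ⟨fun f => ?_⟩
      have h3 : (RandomCA.maxPeriod f.1 σ : ℝ) / (n : ℝ) ^ ((σ : ℝ) / 2) < 0 := f.2
      have h4 : (0 : ℝ) ≤ (RandomCA.maxPeriod f.1 σ : ℝ) / (n : ℝ) ^ ((σ : ℝ) / 2) := by positivity
      linarith
    rw [h2]
    simp
  rcases (ENNReal.toReal_eq_zero_iff _).1 h1 with h | h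
  · exact h
  · exact absurd h (measure_ne_top _ _)

theorem Plong_zero (n : ℕ) [NeZero n] {x : ℝ} (hx : (σ * n ^ σ : ℕ) ≤ x) :
    Plong r σ n (x * NN σ n) = 0 := by
  have hx0 : 0 ≤ x := le_trans (Nat.cast_nonneg _) hx
  rw [← tail_law n hx0, RandomCA.law_apply r σ n {z : ℝ | x < z} measurableSet_Ioi]
  have h2 : Nat.card {f : (Fin r → Fin n) → Fin n //
      (RandomCA.maxPeriod f σ : ℝ) / (n : ℝ) ^ ((σ : ℝ) / 2) ∈ {z : ℝ | x < z}} = 0 := by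
    rw [Nat.card_eq_zero]
    left
    refine ⟨fun f => ?_⟩
    have h3 : x < (RandomCA.maxPeriod f.1 σ : ℝ) / NN σ n := f.2
    have h4 : (1 : ℝ) ≤ NN σ n := one_le_NN
    rw [lt_div_iff₀ (by linarith)] at h3
    have h5 : (RandomCA.maxPeriod f.1 σ : ℝ) ≤ x :=
      le_trans (by exact_mod_cast maxPeriod_le f.1) hx
    nlinarith
  rw [h2]
  simp

theorem main {r σ : ℕ} (h1 : r < σ) (h2 : σ < 2 * r) :
    ∃ μ : ProbabilityMeasure ℝ,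
      Tendsto (fun n : ℕ => RandomCA.law r σ (n + 2)) atTop (𝓝 μ) := by
  have hr : 2 ≤ r := by omega
  have : NeZero σ := ⟨by omega⟩
  apply tails_limit
  · exact fun n => law_neg (n + 2)
  · intro ε hε
    obtain ⟨A, hA, N1, hN1⟩ := Plong_tight hr h1 h2 hε
    refine ⟨max A ((σ * (N1 + 2) ^ σ : ℕ) : ℝ), fun n => ?_⟩
    have hm0 : 0 ≤ max A ((σ * (N1 + 2) ^ σ : ℕ) : ℝ) := le_trans hA.le (le_max_left _ _)
    rw [tail_law (n + 2) hm0]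
    rcases le_total N1 (n + 2) with hn | hn
    · refine le_trans (Plong_anti (n + 2) ?_) (hN1 (n + 2) hn)
      have : (0 : ℝ) ≤ NN σ (n + 2) := le_trans zero_le_one one_le_NN
      exact mul_le_mul_of_nonneg_right (le_max_left _ _) this
    · rw [Plong_zero (n + 2)]
      · exact hε.le
      · refine le_trans ?_ (le_max_right _ _)
        exact_mod_cast Nat.mul_le_mul_left σ (Nat.pow_le_pow_left (by omega) σ)
  · intro x hx
    apply RandomCA.conv_of_approx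
    intro ε hε
    obtain ⟨Λ, hΛ, N1, hN1⟩ := Plong_approx hr h1 h2 hx hε
    obtain ⟨l, hl⟩ := found_lim σ hΛ hx
    refine ⟨fun n => 1 - Pr σ (n + 2) ⌊Λ * NN σ (n + 2)⌋₊
      (fun y => found σ (x * NN σ (n + 2)) ⌊Λ * NN σ (n + 2)⌋₊ y = 0), ⟨1 - l, ?_⟩, ?_⟩
    · have h3 := (tendsto_add_atTop_iff_nat (f := fun n : ℕ => Pr σ (n + 1) ⌊Λ * NN σ (n + 1)⌋₊
        (fun y => found σ (x * NN σ (n + 1)) ⌊Λ * NN σ (n + 1)⌋₊ y = 0)) 1).2 hl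
      exact Tendsto.const_sub 1 h3
    · filter_upwards [eventually_ge_atTop N1] with n hn
      rw [tail_law (n + 2) hx.le]
      exact hN1 (n + 2) (by omega)

end CAB
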