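import Pool.Agent.Lib.MP_eab41b_pr.B.Z2
import Pool.Agent.Lib.MP_eab41b_pr.B.N3

/-! Assembly, third part: the limit law has no mass at zero. -/

set_option autoImplicit false

set_option linter.unusedSectionVars false

open scoped Classical

open MeasureTheory Filter Topology

namespace CAB

variable {r σ : ℕ} [NeZero σ]

theorem Plong_lower {n : ℕ} [NeZero n] (L : ℝ) (T : ℕ) :
    1 - Pr σ n T (fun y => found σ L T y = 0) - Pr σ n T (fun y => ¬ Good r σ T y) ≤
      Plong r σ n L := by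
  have t1 : ExGS r σ n T (fun g s => if 1 ≤ found σ L T (Xe r σ g s) then (1 : ℝ) else 0) =
      Ex σ n T (fun y => if 1 ≤ found σ L T (Xp r σ y) then (1 : ℝ) else 0) := by
    apply transfer T (fun x => if 1 ≤ found σ L T x then (1 : ℝ) else 0)
    intro y y' h
    have e : found σ L T y = found σ L T y' :=
      local_found (n := n) (σ := σ) (L := L) (T := T) (M := T) le_rfl y y' h
    simp only [e]
  have t3 : Ex σ n T (fun y => if 1 ≤ found σ L T y then (1 : ℝ) else 0) =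
      1 - Pr σ n T (fun y => found σ L T y = 0) := by
    rw [← Pr_not]
    unfold Pr
    congr 1
    funext y
    congr 1
    exact propext (by omega)
  have t4 : |Ex σ n T (fun y => if 1 ≤ found σ L T (Xp r σ y) then (1 : ℝ) else 0) -
      Ex σ n T (fun y => if 1 ≤ found σ L T y then (1 : ℝ) else 0)| ≤
      Pr σ n T (fun y => ¬ Good r σ T y) := by
    apply abs_Ex_sub_le
    intro y
    by_cases hG : Good r σ T y
    · rw [found_good hG, sub_self, abs_zero]
      split_ifs <;> norm_num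
    · rw [if_pos hG]
      split_ifs <;> norm_num
  have lo := ineqA_lower (r := r) (σ := σ) (n := n) L T
  rw [t1] at lo
  rw [t3] at t4
  rw [abs_le] at t4
  unfold Plong
  linarith [t4.1]

theorem law_small (hr : 2 ≤ r) (hσ1 : r < σ) (hσ2 : σ < 2 * r) {δ : ℝ} (hδ : 0 < δ) :
    ∃ x : ℝ, 0 < x ∧ ∃ N1 : ℕ, ∀ (n : ℕ) [NeZero n], N1 ≤ n →
      (RandomCA.law r σ n : Measure ℝ) (Set.Iio x) ≤ ENNReal.ofReal δ := by
  have hσ0 : (0 : ℝ) < σ := by exact_mod_cast sig_pos (σ := σ)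
  have hσ1' : (1 : ℝ) ≤ σ := by exact_mod_cast sig_pos (σ := σ)
  have hc0 : (0 : ℝ) ≤ 1 - 1 / (200 * σ) := by
    have : (1 : ℝ) / (200 * σ) ≤ 1 := by
      rw [div_le_one (by positivity)]
      linarith
    linarith
  have hc1 : (1 : ℝ) - 1 / (200 * σ) < 1 := by
    have : (0 : ℝ) < 1 / (200 * σ) := by positivity
    linarith
  obtain ⟨K, hK⟩ := exists_pow_lt_of_lt_one (half_pos hδ) hc1
  obtain ⟨N2, h2⟩ := found_zero_le σ K
  obtain ⟨C5, hC5, h5⟩ := Pr_not_good hr hσ1 hσ2 ((2 ^ K) ^ 2)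
  obtain ⟨N5, hN5⟩ := sqrt_large (C5 / (δ / 2))
  refine ⟨1 / (12 * σ * 2 ^ K), by positivity, max N2 N5, fun n _ hn => ?_⟩
  have hNN : 1 ≤ NN σ n := one_le_NN
  have hNN0 : 0 < NN σ n := by linarith
  have hx0 : (0 : ℝ) < 1 / (12 * σ * 2 ^ K) := by positivity
  have hlow := Plong_lower (r := r) (σ := σ) (n := n) (1 / (12 * σ * 2 ^ K) * NN σ n)
    ⌊2 ^ K * NN σ n⌋₊
  have hz := h2 n ((le_max_left _ _).trans hn) ⌊2 ^ K * NN σ n⌋₊ le_rfl
    (1 / (12 * σ * 2 ^ K) * NN σ n) (by rw [one_div_mul_eq_div])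
  have hT : ((⌊2 ^ K * NN σ n⌋₊ : ℕ) : ℝ) ≤ 2 ^ K * NN σ n := Nat.floor_le (by positivity)
  have hgood : Pr σ n ⌊2 ^ K * NN σ n⌋₊ (fun y => ¬ Good r σ ⌊2 ^ K * NN σ n⌋₊ y) ≤ δ / 2 := by
    have h6 : (((⌊2 ^ K * NN σ n⌋₊ : ℕ) : ℝ)) ^ 2 ≤ (2 ^ K) ^ 2 * (n : ℝ) ^ σ := by
      rw [← NN_sq (σ := σ) (n := n), ← mul_pow]
      exact pow_le_pow_left₀ (Nat.cast_nonneg _) hT 2
    refine (h5 n _ h6).trans ?_
    have h7 := hN5 n ((le_max_right _ _).trans hn)
    have hn0 : (0 : ℝ) < √(n : ℝ) := by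
      apply Real.sqrt_pos.2
      exact_mod_cast Nat.pos_of_ne_zero (NeZero.ne n)
    rw [div_le_iff₀ (by positivity)] at h7
    rw [div_le_iff₀ hn0]
    linarith
  have hfin : 1 - δ ≤ ((RandomCA.law r σ n : Measure ℝ)
      {z | 1 / (12 * σ * 2 ^ K) < z}).toReal := by
    rw [tail_law n hx0.le]
    linarith
  have hsum : (RandomCA.law r σ n : Measure ℝ) (Set.Iio (1 / (12 * σ * 2 ^ K))) +
      (RandomCA.law r σ n : Measure ℝ) {z | 1 / (12 * σ * 2 ^ K) < z} ≤ 1 := by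
    have hm : MeasurableSet {z : ℝ | 1 / (12 * σ * 2 ^ K) < z} := measurableSet_Ioi
    rw [← measure_union _ hm]
    · exact prob_le_one
    · rw [Set.disjoint_left]
      intro z hz hz'
      have h8 : z < 1 / (12 * σ * 2 ^ K) := hz
      have h9 : 1 / (12 * σ * 2 ^ K) < z := hz'
      linarith
  have h10 : ((RandomCA.law r σ n : Measure ℝ) (Set.Iio (1 / (12 * σ * 2 ^ K)))).toReal ≤ δ := by
    have h11 := ENNReal.toReal_mono ENNReal.one_ne_top hsum
    rw [ENNReal.toReal_add (measure_ne_top _ _) (measure_ne_top _ _), ENNReal.toReal_one] at h11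
    linarith
  rw [← ENNReal.ofReal_toReal (measure_ne_top (RandomCA.law r σ n : Measure ℝ)
    (Set.Iio (1 / (12 * σ * 2 ^ K))))]
  exact ENNReal.ofReal_le_ofReal h10

theorem main_full {r σ : ℕ} (h1 : r < σ) (h2 : σ < 2 * r) :
    ∃ μ : ProbabilityMeasure ℝ,
      Tendsto (fun n : ℕ => RandomCA.law r σ (n + 2)) atTop (𝓝 μ) ∧
        (μ : Measure ℝ) (Set.Iic 0) = 0 := by
  obtain ⟨μ, hμ⟩ := main h1 h2
  refine ⟨μ, hμ, ?_⟩
  have hr : 2 ≤ r := by omega
  have : NeZero σ := ⟨by omega⟩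
  have key : ∀ δ : ℝ, 0 < δ → (μ : Measure ℝ) (Set.Iic 0) ≤ ENNReal.ofReal δ := by
    intro δ hδ
    obtain ⟨x, hx, N1, hN1⟩ := law_small hr h1 h2 hδ
    have e1 : (μ : Measure ℝ) (Set.Iic 0) ≤ (μ : Measure ℝ) (Set.Iio x) := by
      apply measure_mono
      intro z hz
      have h3 : z ≤ 0 := hz
      exact lt_of_le_of_lt h3 hx
    refine e1.trans ((ProbabilityMeasure.le_liminf_measure_open_of_tendsto hμ isOpen_Iio).trans ?_)
    apply liminf_le_of_frequently_le'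
    apply Eventually.frequently
    filter_upwards [eventually_ge_atTop N1] with n hn
    exact hN1 (n + 2) (by omega)
  by_contra hne
  have hpos : 0 < ((μ : Measure ℝ) (Set.Iic 0)).toReal :=
    ENNReal.toReal_pos hne (measure_ne_top _ _)
  have h3 := key (((μ : Measure ℝ) (Set.Iic 0)).toReal / 2) (half_pos hpos)
  have h4 := ENNReal.toReal_mono ENNReal.ofReal_ne_top h3
  rw [ENNReal.toReal_ofReal (half_pos hpos).le] at h4
  linarith

end CAB
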