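import Pool.Agent.Lib.MP_eab41b_pr.B.Z3

/-! Assembly, fourth part: the limit law does not depend on `r`. -/

set_option autoImplicit false

set_option linter.unusedSectionVars false

open scoped Classical

open MeasureTheory Filter Topology

namespace CAB

variable {σ : ℕ} [NeZero σ]

/-- `Plong_approx` with the cutoff chosen before `r` -/
theorem Plong_approx_unif (hσ : 2 ≤ σ) {x ε : ℝ} (hx : 0 < x) (hε : 0 < ε) :
    ∃ Λ : ℝ, 0 < Λ ∧ ∀ r : ℕ, 2 ≤ r → r < σ → σ < 2 * r →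
      ∃ N1 : ℕ, ∀ (n : ℕ) [NeZero n], N1 ≤ n →
      |Plong r σ n (x * NN σ n) - (1 - Pr σ n ⌊Λ * NN σ n⌋₊
        (fun y => found σ (x * NN σ n) ⌊Λ * NN σ n⌋₊ y = 0))| ≤ ε := by
  have hσ0 : (0 : ℝ) < σ := by exact_mod_cast sig_pos (σ := σ)
  obtain ⟨Tm, N0, hTm⟩ := exists_Tm σ hσ (σ + 1)
  have hTmOK : TmOK σ (σ + 1) Tm N0 := hTm
  obtain ⟨Λ, η, hΛ, hη0, hη1, hnum⟩ := numeric σ hσ hx (ε := ε / 4) (by linarith)
  refine ⟨Λ, hΛ, fun r hr hσ1 hσ2 => ?_⟩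
  obtain ⟨C1, N1, h1⟩ := wt_hyp hr hσ1 hσ2 hTmOK hx hη0 hη1
  obtain ⟨N2, h2⟩ := hnum C1
  obtain ⟨N3, h3⟩ := aa_small σ hΛ one_pos
  set M : ℝ := σ * Λ / x + 2 with hM
  have hM0 : 0 < M := by positivity
  obtain ⟨N4, h4⟩ := rest_small hr hσ1 hσ2 hTmOK hx hη0 hη1 (ε := ε / (4 * M)) (by positivity)
  obtain ⟨C5, hC5, h5⟩ := Pr_not_good hr hσ1 hσ2 (Λ ^ 2)
  obtain ⟨N5, hN5⟩ := sqrt_large (C5 * (4 * M) / ε)
  refine ⟨max (max N1 N2) (max (max N3 N4) (max N5 1)), fun n _ hn => ?_⟩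
  have hn1 : N1 ≤ n := le_trans (le_trans (le_max_left _ _) (le_max_left _ _)) hn
  have hn2 : N2 ≤ n := le_trans (le_trans (le_max_right _ _) (le_max_left _ _)) hn
  have hn345 : max (max N3 N4) (max N5 1) ≤ n := le_trans (le_max_right _ _) hn
  have hn3 : N3 ≤ n := le_trans (le_trans (le_max_left _ _) (le_max_left _ _)) hn345
  have hn4 : N4 ≤ n := le_trans (le_trans (le_max_right _ _) (le_max_left _ _)) hn345
  have hn5 : N5 ≤ n := le_trans (le_trans (le_max_left _ _) (le_max_right _ _)) hn345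
  have hNN : 1 ≤ NN σ n := one_le_NN
  have hL : 0 < x * NN σ n := by positivity
  have hT : ((⌊Λ * NN σ n⌋₊ : ℕ) : ℝ) ≤ Λ * NN σ n := Nat.floor_le (by positivity)
  obtain ⟨hs1, hs2, hs3⟩ := h1 n hn1
  have key := Plong_sandwich (r := r) (σ := σ) (n := n) hL (η := η) (by linarith)
    ⌊Λ * NN σ n⌋₊ (Tm n)
  refine key.trans ?_
  have hML : σ * ((⌊Λ * NN σ n⌋₊ : ℕ) : ℝ) / (x * NN σ n) + 2 ≤ M := by
    rw [hM]
    have : σ * ((⌊Λ * NN σ n⌋₊ : ℕ) : ℝ) / (x * NN σ n) ≤ σ * Λ / x := by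
      rw [div_le_div_iff₀ hL hx]
      have h6 : (σ : ℝ) * ((⌊Λ * NN σ n⌋₊ : ℕ) : ℝ) ≤ σ * (Λ * NN σ n) :=
        mul_le_mul_of_nonneg_left hT hσ0.le
      calc (σ : ℝ) * ((⌊Λ * NN σ n⌋₊ : ℕ) : ℝ) * x ≤ σ * (Λ * NN σ n) * x :=
            mul_le_mul_of_nonneg_right h6 hx.le
        _ = σ * Λ * (x * NN σ n) := by ring
    linarith
  have hgood : Pr σ n ⌊Λ * NN σ n⌋₊ (fun y => ¬ Good r σ ⌊Λ * NN σ n⌋₊ y) ≤ ε / (4 * M) := by
    have h6 : (((⌊Λ * NN σ n⌋₊ : ℕ) : ℝ)) ^ 2 ≤ Λ ^ 2 * (n : ℝ) ^ σ := by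
      rw [← NN_sq (σ := σ) (n := n), ← mul_pow]
      exact pow_le_pow_left₀ (Nat.cast_nonneg _) hT 2
    refine (h5 n _ h6).trans ?_
    have h7 := hN5 n hn5
    have hn0 : (0 : ℝ) < √(n : ℝ) := by
      apply Real.sqrt_pos.2
      exact_mod_cast Nat.pos_of_ne_zero (NeZero.ne n)
    rw [div_le_div_iff₀ hn0 (by positivity)]
    rw [div_le_iff₀ hε] at h7
    linarith
  have hrest := h4 n hn4
  have hP : 0 ≤ Pr σ n ⌊Λ * NN σ n⌋₊ (fun y => ¬ Good r σ ⌊Λ * NN σ n⌋₊ y) := Pr_nonneg _ _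
  have hR : 0 ≤ ExG r n (fun g => if Rest r σ g (x * NN σ n) η (Tm n) then (1 : ℝ) else 0) :=
    ExG_nonneg (r := r) (n := n) fun g => by split_ifs <;> norm_num
  have hw1 := ExG_Wt_le (r := r) (σ := σ) (n := n) (x * NN σ n) (η := η) (by linarith) (Tm n)
  have hw2 := h2 n hn2 (Tm n) (fun l => Pr σ n l (fun y => ∀ m < l, Used σ (Xp r σ y) m))
    hs1 hs2 hs3
  have hw3 := found_ge (σ := σ) (n := n) (x * NN σ n) (T := ⌊Λ * NN σ n⌋₊)
    (fun i hi => h3 n hn3 i hi.le)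
  have hw : max 0 (ExG r n (fun g => Wt r σ n g (x * NN σ n) η (Tm n)) -
      Ex σ n ⌊Λ * NN σ n⌋₊ (fun y => (found σ (x * NN σ n) ⌊Λ * NN σ n⌋₊ y : ℝ))) ≤ ε / 4 := by
    apply max_le (by linarith)
    linarith
  have e1 : (σ * ((⌊Λ * NN σ n⌋₊ : ℕ) : ℝ) / (x * NN σ n) + 2) *
      Pr σ n ⌊Λ * NN σ n⌋₊ (fun y => ¬ Good r σ ⌊Λ * NN σ n⌋₊ y) ≤ ε / 4 := by
    calc _ ≤ M * (ε / (4 * M)) := mul_le_mul hML hgood hP hM0.le
      _ = ε / 4 := by field_simp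
  have e2 : (σ * ((⌊Λ * NN σ n⌋₊ : ℕ) : ℝ) / (x * NN σ n) + 2) *
      ExG r n (fun g => if Rest r σ g (x * NN σ n) η (Tm n) then (1 : ℝ) else 0) ≤ ε / 4 := by
    calc _ ≤ M * (ε / (4 * M)) := mul_le_mul hML hrest hR hM0.le
      _ = ε / 4 := by field_simp
  linarith

/-- the tails of the laws for two values of `r` have the same limit -/
theorem tails_agree (hσ : 2 ≤ σ) {r r' : ℕ} (hr : 2 ≤ r) (h1 : r < σ) (h2 : σ < 2 * r)
    (hr' : 2 ≤ r') (h1' : r' < σ) (h2' : σ < 2 * r') {x : ℝ} (hx : 0 < x) :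
    ∃ l : ℝ,
      Tendsto (fun n : ℕ => ((RandomCA.law r σ (n + 2) : Measure ℝ) {z | x < z}).toReal)
        atTop (𝓝 l) ∧
      Tendsto (fun n : ℕ => ((RandomCA.law r' σ (n + 2) : Measure ℝ) {z | x < z}).toReal)
        atTop (𝓝 l) := by
  have tl : ∀ ρ : ℕ, 2 ≤ ρ → ρ < σ → σ < 2 * ρ → ∃ l : ℝ,
      Tendsto (fun n : ℕ => ((RandomCA.law ρ σ (n + 2) : Measure ℝ) {z | x < z}).toReal)
        atTop (𝓝 l) := by
    intro ρ q0 q1 q2
    apply RandomCA.conv_of_approx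
    intro ε hε
    obtain ⟨Λ, hΛ, hall⟩ := Plong_approx_unif hσ hx hε
    obtain ⟨N1, hN1⟩ := hall ρ q0 q1 q2
    obtain ⟨l, hl⟩ := found_lim σ hΛ hx
    refine ⟨fun n => 1 - Pr σ (n + 2) ⌊Λ * NN σ (n + 2)⌋₊
      (fun y => found σ (x * NN σ (n + 2)) ⌊Λ * NN σ (n + 2)⌋₊ y = 0), ⟨1 - l, ?_⟩, ?_⟩
    · have h3 := (tendsto_add_atTop_iff_nat (f := fun n : ℕ => Pr σ (n + 1) ⌊Λ * NN σ (n + 1)⌋₊
        (fun y => found σ (x * NN σ (n + 1)) ⌊Λ * NN σ (n + 1)⌋₊ y = 0)) 1).2 hl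
      exact Tendsto.const_sub 1 h3
    · filter_upwards [eventually_ge_atTop N1] with n hn
      rw [tail_law (n + 2) hx.le]
      exact hN1 (n + 2) (by omega)
  obtain ⟨l, hl⟩ := tl r hr h1 h2
  obtain ⟨l', hl'⟩ := tl r' hr' h1' h2'
  have key : ∀ ε : ℝ, 0 < ε → |l - l'| ≤ ε := by
    intro ε hε
    obtain ⟨Λ, hΛ, hall⟩ := Plong_approx_unif hσ hx (half_pos hε)
    obtain ⟨N1, hN1⟩ := hall r hr h1 h2
    obtain ⟨N2, hN2⟩ := hall r' hr' h1' h2'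
    refine le_of_tendsto ((hl.sub hl').abs) ?_
    filter_upwards [eventually_ge_atTop (max N1 N2)] with n hn
    rw [tail_law (n + 2) hx.le, tail_law (n + 2) hx.le]
    have a1 := hN1 (n + 2) (by have := le_max_left N1 N2; omega)
    have a2 := hN2 (n + 2) (by have := le_max_right N1 N2; omega)
    rw [abs_le] at a1 a2 ⊢
    constructor <;> linarith [a1.1, a1.2, a2.1, a2.2]
  have hll : l = l' := by
    by_contra hne
    have hp : 0 < |l - l'| := abs_pos.2 (sub_ne_zero.2 hne)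
    have := key (|l - l'| / 2) (half_pos hp)
    linarith
  exact ⟨l, hl, hll ▸ hl'⟩

/-- the limit laws for two values of `r` agree -/
theorem limit_agree (hσ : 2 ≤ σ) {r r' : ℕ} (hr : 2 ≤ r) (h1 : r < σ) (h2 : σ < 2 * r)
    (hr' : 2 ≤ r') (h1' : r' < σ) (h2' : σ < 2 * r') {μ : ProbabilityMeasure ℝ}
    (hμ : Tendsto (fun n : ℕ => RandomCA.law r σ (n + 2)) atTop (𝓝 μ)) :
    Tendsto (fun n : ℕ => RandomCA.law r' σ (n + 2)) atTop (𝓝 μ) := by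
  have main2 : ∃ ν : ProbabilityMeasure ℝ, Tendsto (fun k : ℕ =>
      if k % 2 = 0 then RandomCA.law r σ (k / 2 + 2) else RandomCA.law r' σ (k / 2 + 2))
      atTop (𝓝 ν) := by
    have hT : ∀ ρ : ℕ, 2 ≤ ρ → ρ < σ → σ < 2 * ρ → ∀ ε : ℝ, 0 < ε → ∃ A : ℝ, ∀ n : ℕ,
        ((RandomCA.law ρ σ (n + 2) : Measure ℝ) {x | A < x}).toReal ≤ ε := by
      intro ρ q0 q1 q2 ε hε
      obtain ⟨A, hA, N1, hN1⟩ := Plong_tight q0 q1 q2 hε
      refine ⟨max A ((σ * (N1 + 2) ^ σ : ℕ) : ℝ), fun n => ?_⟩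
      have hm0 : 0 ≤ max A ((σ * (N1 + 2) ^ σ : ℕ) : ℝ) := le_trans hA.le (le_max_left _ _)
      rw [tail_law (n + 2) hm0]
      rcases le_total N1 (n + 2) with hn | hn
      · refine le_trans (Plong_anti (n + 2) ?_) (hN1 (n + 2) hn)
        have : (0 : ℝ) ≤ NN σ (n + 2) := le_trans zero_le_one one_le_NN
        exact mul_le_mul_of_nonneg_right (le_max_left _ _) this
      · rw [Plong_zero (n + 2)]
        · exact hε.le
        · refine le_trans ?_ (le_max_right _ _)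
          exact_mod_cast Nat.mul_le_mul_left σ (Nat.pow_le_pow_left (by omega) σ)
    apply tails_limit
    · intro k
      split_ifs
      · exact law_neg (k / 2 + 2)
      · exact law_neg (k / 2 + 2)
    · intro ε hε
      obtain ⟨A, hA⟩ := hT r hr h1 h2 ε hε
      obtain ⟨A', hA'⟩ := hT r' hr' h1' h2' ε hε
      refine ⟨max A A', fun k => ?_⟩
      split_ifs
      · refine le_trans (ENNReal.toReal_mono (measure_ne_top _ _) (measure_mono ?_)) (hA (k / 2))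
        intro z hz
        exact lt_of_le_of_lt (le_max_left A A') hz
      · refine le_trans (ENNReal.toReal_mono (measure_ne_top _ _) (measure_mono ?_)) (hA' (k / 2))
        intro z hz
        exact lt_of_le_of_lt (le_max_right A A') hz
    · intro x hx
      obtain ⟨l, hl, hl'⟩ := tails_agree hσ hr h1 h2 hr' h1' h2' hx
      refine ⟨l, ?_⟩
      rw [Metric.tendsto_atTop] at hl hl' ⊢
      intro ε hε
      obtain ⟨N1, hN1⟩ := hl ε hε
      obtain ⟨N2, hN2⟩ := hl' ε hε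
      refine ⟨2 * (N1 + N2), fun k hk => ?_⟩
      split_ifs
      · exact hN1 (k / 2) (by omega)
      · exact hN2 (k / 2) (by omega)
  obtain ⟨ν, hν⟩ := main2
  have c1 : Tendsto (fun n : ℕ => 2 * n) atTop atTop := by
    rw [tendsto_atTop]
    intro b
    filter_upwards [eventually_ge_atTop b] with n hn
    omega
  have c2 : Tendsto (fun n : ℕ => 2 * n + 1) atTop atTop := by
    rw [tendsto_atTop]
    intro b
    filter_upwards [eventually_ge_atTop b] with n hn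
    omega
  have d1 : Tendsto (fun n : ℕ => RandomCA.law r σ (n + 2)) atTop (𝓝 ν) := by
    refine (hν.comp c1).congr fun n => ?_
    have e1 : 2 * n % 2 = 0 := by omega
    have e2 : 2 * n / 2 = n := by omega
    simp only [Function.comp_apply, e1, e2, if_true]
  have d2 : Tendsto (fun n : ℕ => RandomCA.law r' σ (n + 2)) atTop (𝓝 ν) := by
    refine (hν.comp c2).congr fun n => ?_
    have e1 : (2 * n + 1) % 2 ≠ 0 := by omega
    have e2 : (2 * n + 1) / 2 = n := by omega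
    simp only [Function.comp_apply, e2, if_neg e1]
  have e : μ = ν := tendsto_nhds_unique hμ d1
  rw [e]
  exact d2

theorem main_all (σ : ℕ) :
    ∃ μ : ProbabilityMeasure ℝ, ∀ r : ℕ, r < σ → σ < 2 * r →
      Tendsto (fun n : ℕ => RandomCA.law r σ (n + 2)) atTop (𝓝 μ) ∧
        (μ : Measure ℝ) (Set.Iic 0) = 0 := by
  by_cases h : ∃ r : ℕ, r < σ ∧ σ < 2 * r
  · obtain ⟨r, h1, h2⟩ := h
    obtain ⟨μ, hμ, h0⟩ := main_full h1 h2
    have : NeZero σ := ⟨by omega⟩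
    exact ⟨μ, fun r' h1' h2' => ⟨limit_agree (by omega) (by omega) h1 h2 (by omega) h1' h2' hμ,
      h0⟩⟩
  · exact ⟨⟨Measure.dirac 0, inferInstance⟩, fun r' h1' h2' => absurd ⟨r', h1', h2'⟩ h⟩

end CAB
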